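import Pool.Agent.Lib_MP_2c424f_thr.T2c

/-!
# THR M1: elementary facts on `hh`, `al`, `ya` (paper proof: M, first lines, M1)

`∑_c zz/av = 1` at every site (`sum_zz_av`), so `∑_c hh = 2d`, `mc hh = 2d/q = a`; convexity of `exp`: `al ≥ exp (-a)`.
`zt_exp`: `v` nice: `p_u = zz/av ≤ 1/(c1 q) ≤ 1/2`; `exp (-p-p²) ≤ 1-p ≤ exp (-p)`; `0 ≤ exp (-hh) - zt ≤ ∑ p² ≤ 2d/(c1 q)²`.
`ya_diff`: `e^(-h)/α - e^(-h')/α'`, `α, α' ≥ e^(-a)`, `|α - α'| ≤ mc |h - h'|`.
-/

set_option autoImplicit false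

open Finset Filter

namespace Pool.Agent.THR

open Pool.Agent.LO Pool.Agent.LIN

variable {d k q : ℕ}

private theorem M1_zz (f : Site d k → Fin q) (v : Site d k) (c : Fin q) : 0 ≤ zz f v c ∧ zz f v c ≤ 1 := by
  unfold zz
  split_ifs <;> norm_num

private theorem M1_card : (Fintype.card (Stp d) : ℝ) = 2 * d := by
  rw [Fintype.card_prod, Fintype.card_fin, Fintype.card_bool]
  push_cast
  ring

private theorem M1_c1 (ε : ℝ) : 0 < c1 ε := by
  unfold c1
  positivity

private theorem M1_p {f : Site d k → Fin q} (hf : Prp f) (u : Site d k) (c : Fin q) :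
    0 ≤ zz f u c / (av f u : ℝ) ∧ zz f u c / (av f u : ℝ) ≤ 1 := by
  have h1 : (1 : ℝ) ≤ av f u := by exact_mod_cast av_pos hf u
  obtain ⟨h2, h3⟩ := M1_zz f u c
  refine ⟨div_nonneg h2 (by linarith), ?_⟩
  rw [div_le_one (by linarith)]
  linarith

private theorem M1_preg {ε : ℝ} (hq : 1 ≤ q) (f : Site d k → Fin q) (u : Site d k) (c : Fin q) (h : Rg ε f u) :
    zz f u c / (av f u : ℝ) ≤ 1 / (c1 ε * q) := by
  have hq' : (1 : ℝ) ≤ q := by exact_mod_cast hq
  have h0 := M1_c1 ε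
  have h1 : 0 < c1 ε * q := by positivity
  have h2 : c1 ε * q ≤ (av f u : ℝ) := h
  obtain ⟨_, h3⟩ := M1_zz f u c
  exact div_le_div₀ zero_le_one h3 h1 h2

theorem hh_nonneg (c : Fin q) (f : Site d k → Fin q) (v : Site d k) : 0 ≤ hh c f v := by
  unfold hh
  refine Finset.sum_nonneg fun σ _ => ?_
  exact div_nonneg (M1_zz f _ c).1 (Nat.cast_nonneg _)

theorem hh_le {f : Site d k → Fin q} (hf : Prp f) (c : Fin q) (v : Site d k) : hh c f v ≤ 2 * d := by
  unfold hh
  calc ∑ σ : Stp d, zz f (v + sv σ) c / (av f (v + sv σ) : ℝ) ≤ ∑ _σ : Stp d, (1 : ℝ) :=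
        Finset.sum_le_sum fun σ _ => (M1_p hf _ c).2
    _ = 2 * d := by
        rw [Finset.sum_const, Finset.card_univ, nsmul_eq_mul, M1_card, mul_one]

theorem hh_le_reg {ε : ℝ} (hq : 1 ≤ q) (c : Fin q) (f : Site d k → Fin q) (v : Site d k) (h : Nc ε f v) :
    hh c f v ≤ ra d q / c1 ε := by
  unfold hh
  have hq' : (1 : ℝ) ≤ q := by exact_mod_cast hq
  have h0 := M1_c1 ε
  calc ∑ σ : Stp d, zz f (v + sv σ) c / (av f (v + sv σ) : ℝ) ≤ ∑ _σ : Stp d, 1 / (c1 ε * q) :=
        Finset.sum_le_sum fun σ _ => M1_preg hq f _ c (h σ)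
    _ = ra d q / c1 ε := by
        rw [Finset.sum_const, Finset.card_univ, nsmul_eq_mul, M1_card]
        unfold ra
        field_simp

theorem sum_hh {f : Site d k → Fin q} (hf : Prp f) (v : Site d k) : ∑ c, hh c f v = 2 * d := by
  unfold hh
  rw [Finset.sum_comm]
  have h1 : ∀ σ ∈ (univ : Finset (Stp d)), ∑ c, zz f (v + sv σ) c / (av f (v + sv σ) : ℝ) = 1 := by
    intro σ _
    rw [← Finset.sum_div, ← av_eq]
    have h2 : (1 : ℝ) ≤ av f (v + sv σ) := by exact_mod_cast av_pos hf _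
    exact div_self (by linarith)
  rw [Finset.sum_congr rfl h1, Finset.sum_const, Finset.card_univ, nsmul_eq_mul, M1_card, mul_one]

theorem al_ge (hq : 1 ≤ q) {f : Site d k → Fin q} (hf : Prp f) (v : Site d k) : Real.exp (-ra d q) ≤ al f v := by
  have hq' : (1 : ℝ) ≤ q := by exact_mod_cast hq
  unfold al
  rw [le_div_iff₀ (by linarith)]
  have h1 : ∀ c ∈ (univ : Finset (Fin q)),
      Real.exp (-ra d q) * (1 + (ra d q - hh c f v)) ≤ Real.exp (-hh c f v) := by
    intro c _
    have h2 : Real.exp (-hh c f v) = Real.exp (-ra d q) * Real.exp (ra d q - hh c f v) := by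
      rw [← Real.exp_add]
      congr 1
      ring
    rw [h2]
    refine mul_le_mul_of_nonneg_left ?_ (Real.exp_nonneg _)
    have h3 := Real.add_one_le_exp (ra d q - hh c f v)
    linarith
  refine le_trans (le_of_eq ?_) (Finset.sum_le_sum h1)
  rw [← Finset.mul_sum]
  congr 1
  rw [Finset.sum_add_distrib, Finset.sum_sub_distrib, sum_hh hf v]
  simp only [Finset.sum_const, Finset.card_univ, Fintype.card_fin, nsmul_eq_mul, mul_one]
  unfold ra
  field_simp
  ring

theorem al_le (hq : 1 ≤ q) (f : Site d k → Fin q) (v : Site d k) : al f v ≤ 1 := by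
  have hq' : (1 : ℝ) ≤ q := by exact_mod_cast hq
  unfold al
  rw [div_le_one (by linarith)]
  calc ∑ c : Fin q, Real.exp (-hh c f v) ≤ ∑ _c : Fin q, (1 : ℝ) :=
        Finset.sum_le_sum fun c _ => Real.exp_le_one_iff.mpr (by linarith [hh_nonneg c f v])
    _ = q := by
        rw [Finset.sum_const, Finset.card_univ, Fintype.card_fin, nsmul_eq_mul, mul_one]

private theorem M1_al_pos (hq : 1 ≤ q) (f : Site d k → Fin q) (v : Site d k) : 0 < al f v := by
  have hq' : (1 : ℝ) ≤ q := by exact_mod_cast hq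
  unfold al
  refine div_pos (Finset.sum_pos (fun c _ => Real.exp_pos _) ?_) (by linarith)
  exact ⟨⟨0, by omega⟩, Finset.mem_univ _⟩

theorem ya_mean (hq : 1 ≤ q) (f : Site d k → Fin q) (v : Site d k) : mc (fun c => ya c f v) = 1 := by
  have hq' : (1 : ℝ) ≤ q := by exact_mod_cast hq
  have h1 := M1_al_pos hq f v
  unfold mc ya
  rw [← Finset.sum_div]
  have h2 : ∑ c : Fin q, Real.exp (-hh c f v) = al f v * q := by
    unfold al
    field_simp
  rw [h2]
  field_simp

theorem ya_bound (hq : 1 ≤ q) {f : Site d k → Fin q} (hf : Prp f) (c : Fin q) (v : Site d k) :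
    0 < ya c f v ∧ ya c f v ≤ Real.exp (ra d q) := by
  have h1 := M1_al_pos hq f v
  have h2 := al_ge hq hf v
  unfold ya
  refine ⟨div_pos (Real.exp_pos _) h1, ?_⟩
  rw [div_le_iff₀ h1]
  have h3 : Real.exp (-hh c f v) ≤ 1 := Real.exp_le_one_iff.mpr (by linarith [hh_nonneg c f v])
  have h4 : Real.exp (ra d q) * Real.exp (-ra d q) = 1 := by
    rw [← Real.exp_add, add_neg_cancel, Real.exp_zero]
  calc Real.exp (-hh c f v) ≤ 1 := h3
    _ = Real.exp (ra d q) * Real.exp (-ra d q) := h4.symm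
    _ ≤ _ := mul_le_mul_of_nonneg_left h2 (Real.exp_nonneg _)

theorem exp_hh (hq : 1 ≤ q) (f : Site d k → Fin q) (c : Fin q) (v : Site d k) :
    Real.exp (-hh c f v) = al f v * ya c f v := by
  have h1 := M1_al_pos hq f v
  unfold ya
  field_simp

private theorem M1_prod {ι : Type*} (s : Finset ι) (a b : ι → ℝ) (ha : ∀ i ∈ s, 0 ≤ a i ∧ a i ≤ 1)
    (hb : ∀ i ∈ s, 0 ≤ b i ∧ b i ≤ 1) : |∏ i ∈ s, a i - ∏ i ∈ s, b i| ≤ ∑ i ∈ s, |a i - b i| := by
  classical
  induction s using Finset.induction_on with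
  | empty => simp
  | insert i s hi ih =>
    rw [Finset.prod_insert hi, Finset.prod_insert hi, Finset.sum_insert hi]
    have h1 := ih (fun j hj => ha j (Finset.mem_insert_of_mem hj)) (fun j hj => hb j (Finset.mem_insert_of_mem hj))
    obtain ⟨h2, h3⟩ := ha i (Finset.mem_insert_self i s)
    have h4 : 0 ≤ ∏ j ∈ s, b j := Finset.prod_nonneg fun j hj => (hb j (Finset.mem_insert_of_mem hj)).1
    have h5 : ∏ j ∈ s, b j ≤ 1 :=
      Finset.prod_le_one (fun j hj => (hb j (Finset.mem_insert_of_mem hj)).1)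
        fun j hj => (hb j (Finset.mem_insert_of_mem hj)).2
    have h6 : a i * ∏ j ∈ s, a j - b i * ∏ j ∈ s, b j =
        a i * (∏ j ∈ s, a j - ∏ j ∈ s, b j) + (a i - b i) * ∏ j ∈ s, b j := by ring
    rw [h6]
    refine (abs_add_le _ _).trans ?_
    rw [abs_mul, abs_mul, abs_of_nonneg h2, abs_of_nonneg h4]
    have h7 : a i * |∏ j ∈ s, a j - ∏ j ∈ s, b j| ≤ |∏ j ∈ s, a j - ∏ j ∈ s, b j| :=
      mul_le_of_le_one_left (abs_nonneg _) h3
    have h8 : |a i - b i| * ∏ j ∈ s, b j ≤ |a i - b i| := mul_le_of_le_one_right (abs_nonneg _) h5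
    linarith

private theorem M1_exp2 (p : ℝ) (h0 : 0 ≤ p) (h1 : p ≤ 1) : |1 - p - Real.exp (-p)| ≤ p ^ 2 := by
  have h2 := Real.abs_exp_sub_one_sub_id_le (x := -p) (by rw [abs_neg, abs_of_nonneg h0]; exact h1)
  have h3 : 1 - p - Real.exp (-p) = -(Real.exp (-p) - 1 - -p) := by ring
  rw [h3, abs_neg]
  calc |Real.exp (-p) - 1 - -p| ≤ (-p) ^ 2 := h2
    _ = p ^ 2 := by ring

theorem zt_exp {ε : ℝ} (hε : 0 < ε) (hq : 2 / c1 ε ≤ q) {f : Site d k → Fin q} (hf : Prp f) (c : Fin q) (v : Site d k)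
    (h : Nc ε f v) : |zt f v c - Real.exp (-hh c f v)| ≤ ra d q / (c1 ε ^ 2 * q) := by
  have h0 := M1_c1 ε
  have hq' : (0 : ℝ) < q := lt_of_lt_of_le (by positivity) hq
  have hq1 : 1 ≤ q := by
    have : 0 < q := by exact_mod_cast hq'
    omega
  have h1 : Real.exp (-hh c f v) = ∏ σ : Stp d, Real.exp (-(zz f (v + sv σ) c / (av f (v + sv σ) : ℝ))) := by
    rw [← Real.exp_sum, Finset.sum_neg_distrib]
    rfl
  rw [h1]
  unfold zt
  have h2 := M1_prod (univ : Finset (Stp d)) (fun σ => 1 - zz f (v + sv σ) c / (av f (v + sv σ) : ℝ))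
    (fun σ => Real.exp (-(zz f (v + sv σ) c / (av f (v + sv σ) : ℝ))))
    (fun σ _ => ⟨by linarith [(M1_p hf (v + sv σ) c).2], by linarith [(M1_p hf (v + sv σ) c).1]⟩)
    (fun σ _ => ⟨Real.exp_nonneg _, Real.exp_le_one_iff.mpr (by linarith [(M1_p hf (v + sv σ) c).1])⟩)
  refine h2.trans ?_
  have h3 : ∀ σ ∈ (univ : Finset (Stp d)), |1 - zz f (v + sv σ) c / (av f (v + sv σ) : ℝ) -
      Real.exp (-(zz f (v + sv σ) c / (av f (v + sv σ) : ℝ)))| ≤ (1 / (c1 ε * q)) ^ 2 := by
    intro σ _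
    have h4 := M1_exp2 _ (M1_p hf (v + sv σ) c).1 (M1_p hf (v + sv σ) c).2
    refine h4.trans ?_
    exact pow_le_pow_left₀ (M1_p hf (v + sv σ) c).1 (M1_preg hq1 f _ c (h σ)) 2
  refine (Finset.sum_le_sum h3).trans (le_of_eq ?_)
  rw [Finset.sum_const, Finset.card_univ, nsmul_eq_mul, M1_card]
  unfold ra
  field_simp

theorem zt_exp' {f : Site d k → Fin q} (hf : Prp f) (c : Fin q) (v : Site d k) :
    |zt f v c - Real.exp (-hh c f v)| ≤ 1 := by
  have h1 := zt_nonneg f v c
  have h2 := zt_le_one f v c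
  have h3 := Real.exp_nonneg (-hh c f v)
  have h4 : Real.exp (-hh c f v) ≤ 1 := Real.exp_le_one_iff.mpr (by linarith [hh_nonneg c f v])
  rw [abs_le]
  constructor <;> linarith

private theorem M1_expL (x y : ℝ) (hx : 0 ≤ x) (hy : 0 ≤ y) : |Real.exp (-x) - Real.exp (-y)| ≤ |x - y| := by
  have key : ∀ s t : ℝ, 0 ≤ s → s ≤ t → |Real.exp (-s) - Real.exp (-t)| ≤ |s - t| := by
    intro s t hs hst
    have h1 : Real.exp (-t) ≤ Real.exp (-s) := Real.exp_le_exp.mpr (by linarith)
    rw [abs_of_nonneg (by linarith), abs_of_nonpos (by linarith)]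
    have h2 : Real.exp (-t) = Real.exp (-s) * Real.exp (s - t) := by
      rw [← Real.exp_add]
      congr 1
      ring
    have h3 := Real.add_one_le_exp (s - t)
    have h4 : Real.exp (-s) ≤ 1 := Real.exp_le_one_iff.mpr (by linarith)
    have h5 := Real.exp_nonneg (-s)
    rw [h2]
    nlinarith
  rcases le_total x y with h | h
  · exact key x y hx h
  · rw [abs_sub_comm, abs_sub_comm x y]
    exact key y x hy h

theorem al_diff (f : Site d k → Fin q) (v w : Site d k) :
    |al f v - al f w| ≤ mc (fun c => |hh c f v - hh c f w|) := by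
  unfold al mc
  rw [← sub_div, abs_div, Nat.abs_cast, ← Finset.sum_sub_distrib]
  refine div_le_div_of_nonneg_right ?_ (Nat.cast_nonneg _)
  refine (Finset.abs_sum_le_sum_abs _ _).trans (Finset.sum_le_sum fun c _ => ?_)
  exact M1_expL _ _ (hh_nonneg c f v) (hh_nonneg c f w)

theorem ya_diff (hq : 1 ≤ q) {f : Site d k → Fin q} (hf : Prp f) (c : Fin q) (v w : Site d k) :
    |ya c f v - ya c f w| ≤ Real.exp (ra d q) * |hh c f v - hh c f w| +
      Real.exp (2 * ra d q) * mc (fun γ => |hh γ f v - hh γ f w|) := by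
  have h1 := M1_al_pos hq f v
  have h2 := M1_al_pos hq f w
  have h3 := al_ge hq hf v
  have h4 := al_ge hq hf w
  have h5 := al_diff f v w
  have h6 := M1_expL _ _ (hh_nonneg c f v) (hh_nonneg c f w)
  have h7 : Real.exp (-hh c f w) ≤ 1 := Real.exp_le_one_iff.mpr (by linarith [hh_nonneg c f w])
  have h8 := Real.exp_nonneg (-hh c f w)
  have h9 : 1 / al f v ≤ Real.exp (ra d q) := by
    rw [div_le_iff₀ h1]
    calc (1 : ℝ) = Real.exp (ra d q) * Real.exp (-ra d q) := by
          rw [← Real.exp_add, add_neg_cancel, Real.exp_zero]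
      _ ≤ _ := mul_le_mul_of_nonneg_left h3 (Real.exp_nonneg _)
  have h10 : 1 / al f w ≤ Real.exp (ra d q) := by
    rw [div_le_iff₀ h2]
    calc (1 : ℝ) = Real.exp (ra d q) * Real.exp (-ra d q) := by
          rw [← Real.exp_add, add_neg_cancel, Real.exp_zero]
      _ ≤ _ := mul_le_mul_of_nonneg_left h4 (Real.exp_nonneg _)
  have h11 : ya c f v - ya c f w = (1 / al f v) * (Real.exp (-hh c f v) - Real.exp (-hh c f w)) +
      Real.exp (-hh c f w) * ((1 / al f v) * (1 / al f w)) * (al f w - al f v) := by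
    unfold ya
    field_simp
    ring
  have h12 : (0 : ℝ) ≤ 1 / al f v := by positivity
  have h13 : (0 : ℝ) ≤ 1 / al f w := by positivity
  have h14 : (1 / al f v) * (1 / al f w) ≤ Real.exp (2 * ra d q) := by
    have h15 : Real.exp (2 * ra d q) = Real.exp (ra d q) * Real.exp (ra d q) := by
      rw [← Real.exp_add]
      congr 1
      ring
    rw [h15]
    exact mul_le_mul h9 h10 h13 (Real.exp_nonneg _)
  rw [h11]
  refine (abs_add_le _ _).trans (add_le_add ?_ ?_)
  · rw [abs_mul, abs_of_nonneg h12]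
    exact mul_le_mul h9 h6 (abs_nonneg _) (Real.exp_nonneg _)
  · rw [abs_mul, abs_of_nonneg (by positivity), abs_sub_comm]
    refine mul_le_mul ?_ h5 (abs_nonneg _) (Real.exp_nonneg _)
    refine le_trans ?_ h14
    exact mul_le_of_le_one_left (by positivity) h7

/-- `hh`, `al`, `ya`, `zt` at sites of the class `b` are constant on the fibres of the class `!b` -/
theorem loc_fib (hk : 2 ≤ k) (b : Bool) {f h : Site d k → Fin q} (hh' : h ∈ fib (!b) f) (v : Site d k)
    (hv : v ∈ cls b d k) (c : Fin q) : hh c h v = hh c f v ∧ al h v = al f v ∧ ya c h v = ya c f v := by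
  have h0 : ∀ γ : Fin q, hh γ h v = hh γ f v := by
    intro γ
    unfold hh
    refine Finset.sum_congr rfl fun σ _ => ?_
    have h1 : v + sv σ ∈ cls (!b) d k := by
      rw [mem_cls_step (by omega), Bool.not_not]
      exact hv
    have h2 := fib_SS (by omega) (!b) hh' _ h1
    unfold zz av
    rw [h2]
  have h3 : al h v = al f v := by
    unfold al
    congr 1
    exact Finset.sum_congr rfl fun γ _ => by rw [h0 γ]
  refine ⟨h0 c, h3, ?_⟩
  unfold ya
  rw [h0 c, h3]

/-- translation -/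
theorem loc_transl (f : Site d k → Fin q) (v w : Site d k) (c : Fin q) :
    hh c (fun x => f (x + w)) v = hh c f (v + w) ∧ al (fun x => f (x + w)) v = al f (v + w) ∧
      ya c (fun x => f (x + w)) v = ya c f (v + w) ∧ gg c (fun x => f (x + w)) v = gg c f (v + w) ∧
      av (fun x => f (x + w)) v = av f (v + w) ∧ zz (fun x => f (x + w)) v c = zz f (v + w) c ∧
      zt (fun x => f (x + w)) v c = zt f (v + w) c := by
  have hS : ∀ x : Site d k, SS (fun x => f (x + w)) x = SS f (x + w) := by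
    intro x
    unfold SS
    refine Finset.image_congr fun σ _ => ?_
    show f (x + sv σ + w) = f (x + w + sv σ)
    rw [add_right_comm]
  have hz : ∀ (x : Site d k) (γ : Fin q), zz (fun x => f (x + w)) x γ = zz f (x + w) γ := by
    intro x γ
    unfold zz
    rw [hS]
  have ha : ∀ x : Site d k, av (fun x => f (x + w)) x = av f (x + w) := by
    intro x
    unfold av
    rw [hS]
  have hH : ∀ (x : Site d k) (γ : Fin q), hh γ (fun x => f (x + w)) x = hh γ f (x + w) := by
    intro x γ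
    unfold hh
    refine Finset.sum_congr rfl fun σ _ => ?_
    rw [hz, ha, add_right_comm]
  have hA : ∀ x : Site d k, al (fun x => f (x + w)) x = al f (x + w) := by
    intro x
    unfold al
    congr 1
    exact Finset.sum_congr rfl fun γ _ => by rw [hH]
  refine ⟨hH v c, hA v, ?_, ?_, ha v, hz v c, ?_⟩
  · unfold ya
    rw [hH, hA]
  · unfold gg
    rw [hz, ha]
  · unfold zt
    refine Finset.prod_congr rfl fun σ _ => ?_
    rw [hz, ha, add_right_comm]

end Pool.Agent.THR
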