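import Pool.Agent.Lib_MP_2c424f_thr.A4
import Pool.Agent.Lib_MP_2c424f_thr.M1

/-!
# THR A5a: consequences for good colourings, first part (paper proof: A5)

`a = ra d q`, `a1 ε ≤ a ≤ A0 ε` (`EvT_reg`), `1 < a1 ε`, `0 ≤ ya ≤ e^a` (`ya_bound`), `N = NN d k`; from `ℓ²` to `ℓ¹` by Cauchy-Schwarz.
`u = v + σ₀` for a fixed step (sums over all `v` = sums over all `u`); the sums of `mc LL` over both classes add up to at most `2 δ' N`.
* `pin_al`, first part: `al_v = mc exp (-hh_v)`, `|exp (-hh_v) - exp (-a ya_u)| ≤ |hh_v - a ya_u|` (`mf`), `est1` (with `η = δ/4` say) and `mc (α*(2 - ya_u)) = α*` (`ya_mean`).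
* second part: `ya_v = exp (-hh_v)/al_v`, `Fy (ya_u) = exp (-a ya_u)/α*`, both denominators `≥ e^(-a)` (`al_ge`, `als_bounds`); `mf` and the first part.
* `pin_d3`: `est3`, `|ya_v - F (F (ya_v))| ≤ |ya_v - F (ya_{v+σ})| + C |ya_{v+σ} - F (ya_v)|` (`Fy_lip`, hypothesis twice, the second time at the site `v+σ` with the opposite step).
-/

set_option autoImplicit false

open Finset Filter

namespace Pool.Agent.THR

open Pool.Agent.LO Pool.Agent.LIN

private theorem A5a_expL (x y : ℝ) (hx : 0 ≤ x) (hy : 0 ≤ y) : |Real.exp (-x) - Real.exp (-y)| ≤ |x - y| := by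
  have key : ∀ s t : ℝ, 0 ≤ s → s ≤ t → |Real.exp (-s) - Real.exp (-t)| ≤ |s - t| := by
    intro s t hs hst
    have h1 : Real.exp (-t) ≤ Real.exp (-s) := Real.exp_le_exp.mpr (by linarith)
    rw [abs_of_nonneg (by linarith), abs_of_nonpos (by linarith)]
    have h2 : Real.exp (-t) = Real.exp (-s) * Real.exp (s - t) := by
      rw [← Real.exp_add]
      congr 1
      ring
    have h3 := Real.add_one_le_exp (s - t)
    have h4 : Real.exp (-s) ≤ 1 := Real.exp_le_one_iff.mpr (by linarith)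
    have h5 := Real.exp_nonneg (-s)
    rw [h2]
    nlinarith
  rcases le_total x y with h | h
  · exact key x y hx h
  · rw [abs_sub_comm, abs_sub_comm x y]
    exact key y x hy h

private theorem A5a_shift {d k : ℕ} (w : Site d k) (φ : Site d k → ℝ) : ∑ v, φ (v + w) = ∑ v, φ v :=
  Fintype.sum_equiv (Equiv.addRight w) _ _ fun _ => rfl

private theorem A5a_card (d k : ℕ) : ((univ : Finset (Site d k)).card : ℝ) = NN d k := by
  rw [card_univ, card_site]

private theorem A5a_NN (d k : ℕ) : 0 ≤ NN d k := by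
  unfold NN
  positivity

/-- from l2 to l1 -/
private theorem A5a_cs {d k : ℕ} (φ : Site d k → ℝ) (κ s : ℝ) (hs : 0 ≤ s) (hκ : κ ≤ s ^ 2)
    (h : ∑ v, φ v ^ 2 ≤ κ * NN d k) : ∑ v, |φ v| ≤ s * NN d k := by
  have hN := A5a_NN d k
  have h1 := sq_sum_le_card_mul_sum_sq (s := (univ : Finset (Site d k))) (f := fun v => |φ v|)
  simp only [sq_abs] at h1
  rw [A5a_card] at h1
  have h2 : (∑ v, |φ v|) ^ 2 ≤ (s * NN d k) ^ 2 := by
    calc (∑ v, |φ v|) ^ 2 ≤ NN d k * ∑ v, φ v ^ 2 := h1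
      _ ≤ NN d k * (κ * NN d k) := mul_le_mul_of_nonneg_left h hN
      _ ≤ NN d k * (s ^ 2 * NN d k) := by gcongr
      _ = _ := by ring
  exact abs_le_of_sq_le_sq' h2 (by positivity) |>.2

private theorem A5a_mc_mono {q : ℕ} (φ ψ : Fin q → ℝ) (h : ∀ c, φ c ≤ ψ c) : mc φ ≤ mc ψ := by
  unfold mc
  exact div_le_div_of_nonneg_right (sum_le_sum fun c _ => h c) (Nat.cast_nonneg _)

private theorem A5a_mc_add {q : ℕ} (φ ψ : Fin q → ℝ) : mc (fun c => φ c + ψ c) = mc φ + mc ψ := by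
  unfold mc
  rw [sum_add_distrib, add_div]

private theorem A5a_mc_mul {q : ℕ} (r : ℝ) (φ : Fin q → ℝ) : mc (fun c => r * φ c) = r * mc φ := by
  unfold mc
  rw [← mul_sum, mul_div_assoc]

private theorem A5a_mc_const {q : ℕ} (hq : 1 ≤ q) (r : ℝ) : mc (fun _ : Fin q => r) = r := by
  have : (0 : ℝ) < q := by exact_mod_cast hq
  unfold mc
  rw [sum_const, card_univ, Fintype.card_fin, nsmul_eq_mul]
  field_simp

private theorem A5a_mc_abs {q : ℕ} (φ : Fin q → ℝ) : |mc φ| ≤ mc fun c => |φ c| := by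
  unfold mc
  rw [abs_div, Nat.abs_cast]
  exact div_le_div_of_nonneg_right (abs_sum_le_sum_abs _ _) (Nat.cast_nonneg _)

private theorem A5a_mc_sum {q : ℕ} {ι : Type*} (A : Finset ι) (φ : ι → Fin q → ℝ) :
    ∑ v ∈ A, mc (φ v) = mc fun c => ∑ v ∈ A, φ v c := by
  unfold mc
  rw [← sum_div, sum_comm]

private theorem A5a_a1 {ε : ℝ} (hε : 0 < ε) (hε1 : ε ≤ 1) : 1 < a1 ε := by
  unfold a1
  rw [lt_div_iff₀ (by linarith)]
  linarith

private theorem A5a_prp {d k q : ℕ} {f : Site d k → Fin q} (hf : f ∈ prps d k q) : Prp f := by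
  classical
  unfold prps at hf
  exact (mem_filter.1 hf).2

/-- a sum over all sites is the sum over the two classes -/
private theorem A5a_cls {d k : ℕ} (φ : Site d k → ℝ) : ∑ v, φ v = ∑ v ∈ cls true d k, φ v + ∑ v ∈ cls false d k, φ v := by
  classical
  simp only [cls, if_true, Bool.false_eq_true, if_false]
  unfold evs ods
  exact (sum_filter_add_sum_filter_not univ _ _).symm

theorem pin_al {ε : ℝ} (hε : 0 < ε) (hε1 : ε ≤ 1) (C₆ : ℝ) (t : ℕ) (δ : ℝ) (hδ : 0 < δ) : ∃ δ' : ℝ, 0 < δ' ∧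
    EvT ε fun d k q => ∀ m yM : ℝ, MFE (ra d q) m → YM (ra d q) m yM → ∀ f ∈ prps d k q, Good ε δ' C₆ t f →
      (∀ b : Bool, ∑ u ∈ cls b d k, mc (fun c => LL (ra d q) m (ya c f u)) ≤ δ' * NN d k) →
      (∑ v : Site d k, |al f v - als (ra d q) m| ≤ δ * NN d k) ∧
      ∀ (c : Fin q) (σ : Stp d), ∑ v : Site d k, |ya c f v - Fy (ra d q) m (ya c f (v + sv σ))| ≤ δ * NN d k := by
  have ha1 := A5a_a1 hε hε1
  set K : ℝ := Real.exp (A0 ε) with hK
  have hK1 : 1 ≤ K := by
    rw [hK]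
    exact Real.one_le_exp (by unfold A0; positivity)
  set κ : ℝ := δ / (2 * K ^ 2) with hκ
  have hκ0 : 0 < κ := by positivity
  have hκδ : K ^ 2 * κ = δ / 2 := by
    rw [hκ]
    field_simp
  have hκδ1 : K * κ ≤ δ / 2 := by
    rw [← hκδ]
    nlinarith [mul_nonneg hκ0.le (sub_nonneg.2 hK1)]
  have hκδ2 : κ ≤ δ := by
    nlinarith [mul_nonneg hκ0.le (sub_nonneg.2 hK1)]
  obtain ⟨C, hC, hest⟩ := est1 (a1 ε) (A0 ε) K ha1 (κ / 4) (by positivity)
  refine ⟨min ((κ / 4) ^ 2) (κ / (8 * C)), by positivity, ?_⟩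
  set δ' : ℝ := min ((κ / 4) ^ 2) (κ / (8 * C)) with hδ'
  have hd1 : δ' ≤ (κ / 4) ^ 2 := min_le_left _ _
  have hd2 : C * (2 * δ') ≤ κ / 4 := by
    have h1 : δ' ≤ κ / (8 * C) := min_le_right _ _
    have h2 : C * (2 * δ') ≤ C * (2 * (κ / (8 * C))) := by gcongr
    refine h2.trans (le_of_eq ?_)
    field_simp
    norm_num
  refine (EvT_reg hε hε1 1).mono ?_
  rintro d k q ⟨hd, hq, -, -, -, haa, haA, -⟩ m yM hm hM f hf hG hLL
  have hf' : Prp f := A5a_prp hf
  have hq1 : 1 ≤ q := by exact_mod_cast hq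
  have hd1' : 1 ≤ d := by exact_mod_cast hd
  have hN := A5a_NN d k
  set a := ra d q with hadef
  have ha : 1 < a := lt_of_lt_of_le ha1 haa
  have hy0 : ∀ c v, 0 ≤ ya c f v := fun c v => (ya_bound hq1 hf' c v).1.le
  have hyK : ∀ c v, ya c f v ≤ K := fun c v => (ya_bound hq1 hf' c v).2.trans (Real.exp_le_exp.2 haA)
  have hmf : ∀ (c : Fin q) (σ : Stp d), ∑ u, |hh c f u - a * ya c f (u + sv σ)| ≤ κ / 4 * NN d k := fun c σ =>
    A5a_cs _ _ _ (by positivity) hd1 (hG.mf c σ)
  have hexp : ∀ c v (σ : Stp d), |Real.exp (-hh c f v) - Real.exp (-(a * ya c f (v + sv σ)))| ≤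
      |hh c f v - a * ya c f (v + sv σ)| := fun c v σ =>
    A5a_expL _ _ (hh_nonneg c f v) (mul_nonneg (by linarith) (hy0 c _))
  have hLLs : ∑ u : Site d k, mc (fun c => LL a m (ya c f u)) ≤ 2 * δ' * NN d k := by
    rw [A5a_cls]
    have h1 := hLL true
    have h2 := hLL false
    linarith
  have hfirst : ∑ v : Site d k, |al f v - als a m| ≤ κ * NN d k := by
    set σ : Stp d := (⟨0, hd1'⟩, true) with hσ
    have hpt : ∀ v : Site d k, |al f v - als a m| ≤
        mc (fun c => |hh c f v - a * ya c f (v + sv σ)|) + κ / 4 +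
          C * mc (fun c => LL a m (ya c f (v + sv σ))) := by
      intro v
      have e1 : al f v = mc fun c => Real.exp (-hh c f v) := rfl
      have e2 : als a m = mc fun c => als a m * (2 - ya c f (v + sv σ)) := by
        rw [A5a_mc_mul]
        have e3 : mc (fun c : Fin q => 2 - ya c f (v + sv σ)) = 1 := by
          have e4 : (fun c : Fin q => 2 - ya c f (v + sv σ)) = fun c => (2 : ℝ) + (-1) * ya c f (v + sv σ) := by
            funext c
            ring
          rw [e4, A5a_mc_add, A5a_mc_mul, A5a_mc_const hq1, ya_mean hq1]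
          norm_num
        rw [e3, mul_one]
      have e5 : al f v - als a m = mc fun c => (Real.exp (-hh c f v) - als a m * (2 - ya c f (v + sv σ))) := by
        have e6 : (fun c => (Real.exp (-hh c f v) - als a m * (2 - ya c f (v + sv σ)))) =
            fun c => Real.exp (-hh c f v) + (-1) * (als a m * (2 - ya c f (v + sv σ))) := by
          funext c
          ring
        rw [e6, A5a_mc_add, A5a_mc_mul (-1) (fun c => als a m * (2 - ya c f (v + sv σ))), ← e2, ← e1]
        ring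
      rw [e5]
      refine (A5a_mc_abs _).trans ?_
      have e7 : mc (fun c => |hh c f v - a * ya c f (v + sv σ)|) + κ / 4 +
          C * mc (fun c => LL a m (ya c f (v + sv σ))) =
          mc fun c => |hh c f v - a * ya c f (v + sv σ)| + (κ / 4 + C * LL a m (ya c f (v + sv σ))) := by
        rw [A5a_mc_add, A5a_mc_add (fun _ => κ / 4) (fun c => C * LL a m (ya c f (v + sv σ))), A5a_mc_mul,
          A5a_mc_const hq1]
        ring
      rw [e7]
      refine A5a_mc_mono _ _ fun c => ?_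
      have e8 : Real.exp (-hh c f v) - als a m * (2 - ya c f (v + sv σ)) =
          (Real.exp (-hh c f v) - Real.exp (-(a * ya c f (v + sv σ)))) +
            (Real.exp (-(a * ya c f (v + sv σ))) - als a m * (2 - ya c f (v + sv σ))) := by ring
      rw [e8]
      exact (abs_add_le _ _).trans (add_le_add (hexp c v σ) (hest a m _ haa haA hm (hy0 c _) (hyK c _)))
    refine (sum_le_sum fun v _ => hpt v).trans ?_
    rw [sum_add_distrib, sum_add_distrib, sum_const, nsmul_eq_mul, A5a_card, ← mul_sum]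
    have h1 : ∑ v : Site d k, mc (fun c => |hh c f v - a * ya c f (v + sv σ)|) ≤ κ / 4 * NN d k := by
      rw [A5a_mc_sum]
      refine (A5a_mc_mono _ _ fun c => hmf c σ).trans (A5a_mc_const hq1 _).le
    have h2 : ∑ v : Site d k, mc (fun c => LL a m (ya c f (v + sv σ))) =
        ∑ v : Site d k, mc (fun c => LL a m (ya c f v)) :=
      A5a_shift (sv σ) fun v => mc (fun c => LL a m (ya c f v))
    rw [h2]
    have h3 : C * ∑ v : Site d k, mc (fun c => LL a m (ya c f v)) ≤ κ / 4 * NN d k := by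
      calc C * ∑ v : Site d k, mc (fun c => LL a m (ya c f v)) ≤ C * (2 * δ' * NN d k) :=
            mul_le_mul_of_nonneg_left hLLs hC.le
        _ = C * (2 * δ') * NN d k := by ring
        _ ≤ κ / 4 * NN d k := mul_le_mul_of_nonneg_right hd2 hN
    nlinarith
  refine ⟨hfirst.trans (mul_le_mul_of_nonneg_right hκδ2 hN), fun c σ => ?_⟩
  have hals := als_bounds a m (by linarith) (by rw [abs_of_pos hm.1]; exact (mfe_lt a m hm).le)
  have hKa : ∀ x : ℝ, Real.exp (-a) ≤ x → 1 / x ≤ K := by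
    intro x hx
    have h0 : 0 < x := lt_of_lt_of_le (Real.exp_pos _) hx
    rw [div_le_iff₀ h0]
    calc (1 : ℝ) = Real.exp a * Real.exp (-a) := by rw [← Real.exp_add, add_neg_cancel, Real.exp_zero]
      _ ≤ K * x := mul_le_mul (Real.exp_le_exp.2 haA) hx (Real.exp_nonneg _) (by linarith)
  have hpt : ∀ v : Site d k, |ya c f v - Fy a m (ya c f (v + sv σ))| ≤
      K * |hh c f v - a * ya c f (v + sv σ)| + K ^ 2 * |al f v - als a m| := by
    intro v
    have hal := al_ge hq1 hf' v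
    have h1 := hKa _ hal
    have h2 := hKa _ hals.1
    have h3 : 0 < al f v := lt_of_lt_of_le (Real.exp_pos _) hal
    have h4 : 0 < als a m := als_pos a m
    have e1 : ya c f v - Fy a m (ya c f (v + sv σ)) =
        1 / al f v * (Real.exp (-hh c f v) - Real.exp (-(a * ya c f (v + sv σ)))) +
          Real.exp (-(a * ya c f (v + sv σ))) * (1 / al f v * (1 / als a m)) * (als a m - al f v) := by
      unfold ya Fy
      field_simp
      ring
    rw [e1]
    refine (abs_add_le _ _).trans (add_le_add ?_ ?_)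
    · rw [abs_mul, abs_of_pos (by positivity)]
      exact mul_le_mul h1 (hexp c v σ) (abs_nonneg _) (by linarith)
    · rw [abs_mul, abs_of_nonneg (by positivity), abs_sub_comm]
      refine mul_le_mul_of_nonneg_right ?_ (abs_nonneg _)
      have h5 : Real.exp (-(a * ya c f (v + sv σ))) ≤ 1 :=
        Real.exp_le_one_iff.2 (by have := mul_nonneg (by linarith : (0:ℝ) ≤ a) (hy0 c (v + sv σ)); linarith)
      have h6 : 1 / al f v * (1 / als a m) ≤ K * K := mul_le_mul h1 h2 (by positivity) (by linarith)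
      calc Real.exp (-(a * ya c f (v + sv σ))) * (1 / al f v * (1 / als a m))
          ≤ 1 * (K * K) := mul_le_mul h5 h6 (by positivity) zero_le_one
        _ = K ^ 2 := by ring
  refine (sum_le_sum fun v _ => hpt v).trans ?_
  rw [sum_add_distrib, ← mul_sum, ← mul_sum]
  have h1 := mul_le_mul_of_nonneg_left (hmf c σ) (by linarith : 0 ≤ K)
  have h2 := mul_le_mul_of_nonneg_left hfirst (by positivity : 0 ≤ K ^ 2)
  have h3 : K * (κ / 4 * NN d k) ≤ δ / 8 * NN d k := by
    have : K * (κ / 4 * NN d k) = K * κ / 4 * NN d k := by ring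
    rw [this]
    exact mul_le_mul_of_nonneg_right (by linarith) hN
  have h4 : K ^ 2 * (κ * NN d k) = δ / 2 * NN d k := by
    rw [← mul_assoc, hκδ]
  have h5 : 0 ≤ δ * NN d k := by positivity
  linarith

theorem pin_d3 {ε : ℝ} (hε : 0 < ε) (hε1 : ε ≤ 1) (δ : ℝ) (hδ : 0 < δ) : ∃ δ' : ℝ, 0 < δ' ∧
    EvT ε fun d k q => ∀ m yM : ℝ, MFE (ra d q) m → YM (ra d q) m yM → ∀ f ∈ prps d k q,
      (∀ (c : Fin q) (σ : Stp d), ∑ v : Site d k, |ya c f v - Fy (ra d q) m (ya c f (v + sv σ))| ≤ δ' * NN d k) →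
      ∀ c : Fin q, ∑ v : Site d k, dst3 m yM (ya c f v) ≤ δ * NN d k := by
  have ha1 := A5a_a1 hε hε1
  set K : ℝ := Real.exp (A0 ε) with hK
  have hA0 : 0 ≤ A0 ε := by unfold A0; positivity
  obtain ⟨C, hC, hest⟩ := est3 (a1 ε) (A0 ε) K ha1 (δ / 2) (by positivity)
  refine ⟨δ / (2 * (C * (1 + A0 ε * K))), by positivity, ?_⟩
  set δ' : ℝ := δ / (2 * (C * (1 + A0 ε * K))) with hδ'
  have hδ'' : C * ((1 + A0 ε * K) * δ') = δ / 2 := by
    have h0 : (0 : ℝ) < 1 + A0 ε * K := by positivity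
    rw [hδ']
    field_simp
  refine (EvT_reg hε hε1 1).mono ?_
  rintro d k q ⟨hd, hq, -, -, -, haa, haA, -⟩ m yM hm hM f hf hF c
  have hf' : Prp f := A5a_prp hf
  have hq1 : 1 ≤ q := by exact_mod_cast hq
  have hd1' : 1 ≤ d := by exact_mod_cast hd
  have hN := A5a_NN d k
  set a := ra d q with hadef
  have ha : 1 < a := lt_of_lt_of_le ha1 haa
  have hy0 : ∀ v, 0 ≤ ya c f v := fun v => (ya_bound hq1 hf' c v).1.le
  have hyK : ∀ v, ya c f v ≤ K := fun v => (ya_bound hq1 hf' c v).2.trans (Real.exp_le_exp.2 haA)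
  set i₀ : Fin d := ⟨0, hd1'⟩ with hi₀
  have hopp : (sv (i₀, true) : Site d k) + sv (i₀, false) = 0 := sv_opp i₀ true
  have hpt : ∀ v : Site d k, dst3 m yM (ya c f v) ≤ δ / 2 + C * (|ya c f v - Fy a m (ya c f (v + sv (i₀, true)))| +
      A0 ε * K * |ya c f (v + sv (i₀, true)) - Fy a m (ya c f (v + sv (i₀, true) + sv (i₀, false)))|) := by
    intro v
    refine (hest a m yM _ haa haA hm hM (hy0 v) (hyK v)).trans ?_
    refine add_le_add le_rfl (mul_le_mul_of_nonneg_left ?_ hC.le)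
    rw [add_assoc v, hopp, add_zero]
    have hl0 := Fy_lip a m (ya c f v) (ya c f v) ha hm (hy0 v) (hy0 v)
    have hl := (Fy_lip a m (ya c f (v + sv (i₀, true))) (Fy a m (ya c f v)) ha hm (hy0 _) hl0.2.1.le).1
    have e1 : ya c f v - Fy a m (Fy a m (ya c f v)) = (ya c f v - Fy a m (ya c f (v + sv (i₀, true)))) +
        (Fy a m (ya c f (v + sv (i₀, true))) - Fy a m (Fy a m (ya c f v))) := by ring
    rw [e1]
    refine (abs_add_le _ _).trans (add_le_add le_rfl (hl.trans ?_))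
    refine mul_le_mul_of_nonneg_right ?_ (abs_nonneg _)
    exact mul_le_mul haA (Real.exp_le_exp.2 haA) (Real.exp_nonneg _) hA0
  refine (sum_le_sum fun v _ => hpt v).trans ?_
  rw [sum_add_distrib, sum_const, nsmul_eq_mul, A5a_card, ← mul_sum, sum_add_distrib, ← mul_sum]
  have h1 := hF c (i₀, true)
  have h2 := hF c (i₀, false)
  have h3 : ∑ v : Site d k, |ya c f (v + sv (i₀, true)) - Fy a m (ya c f (v + sv (i₀, true) + sv (i₀, false)))| ≤
      δ' * NN d k := by
    refine le_trans (le_of_eq ?_) h2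
    exact A5a_shift (sv (i₀, true)) fun v => |ya c f v - Fy a m (ya c f (v + sv (i₀, false)))|
  have h4 : C * (∑ v : Site d k, |ya c f v - Fy a m (ya c f (v + sv (i₀, true)))| +
      A0 ε * K * ∑ v : Site d k, |ya c f (v + sv (i₀, true)) - Fy a m (ya c f (v + sv (i₀, true) + sv (i₀, false)))|) ≤
      C * (δ' * NN d k + A0 ε * K * (δ' * NN d k)) := by
    refine mul_le_mul_of_nonneg_left (add_le_add h1 (mul_le_mul_of_nonneg_left h3 ?_)) hC.le
    positivity
  have h5 : C * (δ' * NN d k + A0 ε * K * (δ' * NN d k)) = δ / 2 * NN d k := by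
    rw [← hδ'']
    ring
  linarith

end Pool.Agent.THR
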