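import Pool.Agent.Lib_MP_2c424f_thr.A4
import Pool.Agent.Lib_MP_2c424f_thr.M1

/-!
# THR A5b: consequences for good colourings, second part (paper proof: A5)

`a = ra d q`, `a1 ε ≤ a ≤ A0 ε` (`EvT_reg`), `1 < a1 ε`, `0 ≤ ya ≤ e^a` (`ya_bound`), `N = NN d k`.
* `pin_d2`: `est2` and the hypothesis on `LL` (both classes); `|ya - (1 + m eps)| = dst2 m ya` (`eps = 1` iff `ya ≥ 1`).
* `pin_fl`, first part: `m · mc eps = mc ((1 + m eps) - ya)` (`ya_mean`), `m ≥ gap`.
* second part: if `eps_v = eps_{v+σ} = e` then `2 m = |(1 + m e) - (1 - m e)| ≤ |ya_v - (1+me)| + |F (ya_{v+σ}) - F (1 + m e)| + |ya_v - F (ya_{v+σ})|`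
  (`Fy_add`, `Fy_sub`: `F (1 + m e) = 1 - m e`), `Fy_lip`, `m ≥ gap`.
-/

set_option autoImplicit false

open Finset Filter

namespace Pool.Agent.THR

open Pool.Agent.LO Pool.Agent.LIN

private theorem A5b_a1 {ε : ℝ} (hε : 0 < ε) (hε1 : ε ≤ 1) : 1 < a1 ε := by
  unfold a1
  rw [one_lt_div (by linarith)]
  linarith

section aux
variable {d k q : ℕ}

private theorem A5b_mc_mono (φ ψ : Fin q → ℝ) (h : ∀ c, φ c ≤ ψ c) : mc φ ≤ mc ψ := by
  unfold mc
  exact div_le_div_of_nonneg_right (Finset.sum_le_sum fun c _ => h c) (Nat.cast_nonneg q)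

private theorem A5b_mc_add (φ ψ : Fin q → ℝ) : mc (fun c => φ c + ψ c) = mc φ + mc ψ := by
  unfold mc
  rw [Finset.sum_add_distrib, add_div]

private theorem A5b_mc_mul (a : ℝ) (φ : Fin q → ℝ) : mc (fun c => a * φ c) = a * mc φ := by
  unfold mc
  rw [← Finset.mul_sum, mul_div_assoc]

private theorem A5b_mc_const (hq : 1 ≤ q) (a : ℝ) : mc (fun _ : Fin q => a) = a := by
  have hq' : (1 : ℝ) ≤ q := by exact_mod_cast hq
  unfold mc
  rw [Finset.sum_const, Finset.card_univ, Fintype.card_fin, nsmul_eq_mul]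
  field_simp

private theorem A5b_mc_abs (φ : Fin q → ℝ) : |mc φ| ≤ mc fun c => |φ c| := by
  unfold mc
  rw [abs_div, abs_of_nonneg (Nat.cast_nonneg q : (0 : ℝ) ≤ q)]
  exact div_le_div_of_nonneg_right (Finset.abs_sum_le_sum_abs _ _) (Nat.cast_nonneg q)

/-- if all the sums over the sites are small, so is the sum of the means -/
private theorem A5b_mc_sum (hq : 1 ≤ q) (g : Fin q → Site d k → ℝ) (B : ℝ) (h : ∀ c, ∑ v, g c v ≤ B) :
    ∑ v, mc (fun c => g c v) ≤ B := by
  have h1 : ∑ v, mc (fun c => g c v) = mc fun c => ∑ v, g c v := by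
    unfold mc
    rw [← Finset.sum_div, Finset.sum_comm]
  rw [h1]
  exact (A5b_mc_mono _ (fun _ => B) h).trans (le_of_eq (A5b_mc_const hq B))

private theorem A5b_two (g : Site d k → ℝ) :
    ∑ u ∈ cls true d k, g u + ∑ u ∈ cls false d k, g u = ∑ u, g u := by
  classical
  have h0 : ∀ b : Bool, ∑ u ∈ cls b d k, g u = ∑ u, if u ∈ cls b d k then g u else 0 := by
    intro b
    rw [← Finset.sum_filter]
    refine Finset.sum_congr ?_ fun _ _ => rfl
    ext u
    simp
  rw [h0, h0, ← Finset.sum_add_distrib]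
  refine Finset.sum_congr rfl fun x _ => ?_
  have h1 := cls_not (d := d) (k := k) true x
  by_cases h2 : x ∈ cls true d k
  · have h3 : x ∉ cls false d k := fun h => (h1.1 h) h2
    rw [if_pos h2, if_neg h3, add_zero]
  · have h3 : x ∈ cls false d k := h1.2 h2
    rw [if_neg h2, if_pos h3, zero_add]

private theorem A5b_one : ∑ _v : Site d k, (1 : ℝ) = NN d k := by
  rw [Finset.sum_const, Finset.card_univ, nsmul_eq_mul, mul_one]
  exact card_site d k

private theorem A5b_shift (g : Site d k → ℝ) (σ : Stp d) : ∑ v, g (v + sv σ) = ∑ v, g v :=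
  Equiv.sum_comp (Equiv.addRight (sv σ)) g

private theorem A5b_eps (c : Fin q) (f : Site d k → Fin q) (v : Site d k) :
    eps c f v = 1 ∧ 1 ≤ ya c f v ∨ eps c f v = -1 ∧ ya c f v < 1 := by
  unfold eps
  split_ifs with h
  · exact Or.inl ⟨rfl, h⟩
  · exact Or.inr ⟨rfl, not_le.1 h⟩

private theorem A5b_dst (c : Fin q) (f : Site d k → Fin q) (v : Site d k) (m : ℝ) (hm : 0 < m) :
    |ya c f v - (1 + m * eps c f v)| ≤ dst2 m (ya c f v) := by
  unfold dst2
  rcases A5b_eps c f v with ⟨h1, h2⟩ | ⟨h1, h2⟩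
  · rw [h1, mul_one]
    refine le_min ?_ le_rfl
    rw [abs_of_nonneg (by linarith : 0 ≤ ya c f v - (1 - m))]
    exact abs_le.2 ⟨by linarith, by linarith⟩
  · rw [h1]
    have h3 : 1 + m * -1 = 1 - m := by ring
    rw [h3]
    refine le_min le_rfl ?_
    rw [abs_of_nonpos (by linarith : ya c f v - (1 + m) ≤ 0)]
    exact abs_le.2 ⟨by linarith, by linarith⟩

private theorem A5b_Feps {a m : ℝ} (h : MFE a m) (c : Fin q) (f : Site d k → Fin q) (v : Site d k) :
    Fy a m (1 + m * eps c f v) = 1 - m * eps c f v := by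
  rcases A5b_eps c f v with ⟨h1, _⟩ | ⟨h1, _⟩
  · rw [h1, mul_one, Fy_add a m h]
  · rw [h1]
    have h3 : 1 + m * -1 = 1 - m := by ring
    rw [h3, Fy_sub a m h]
    ring

private theorem A5b_prp {f : Site d k → Fin q} (hf : f ∈ prps d k q) : Prp f := by
  classical
  unfold prps at hf
  exact (Finset.mem_filter.1 hf).2

private theorem A5b_epos {m : ℝ} (hm : 0 < m) (hm1 : m < 1) (c : Fin q) (f : Site d k → Fin q)
    (v : Site d k) : 0 ≤ 1 + m * eps c f v := by
  rcases A5b_eps c f v with ⟨h1, _⟩ | ⟨h1, _⟩ <;> rw [h1] <;> linarith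

private theorem A5b_flip {a m g L : ℝ} (ha : 1 < a) (h : MFE a m) (hg : 0 < g) (hgm : g ≤ m)
    (hL : a * Real.exp a ≤ L) (hq : 1 ≤ q) {f : Site d k → Fin q} (hf : Prp f) (σ : Stp d) (c : Fin q)
    (v : Site d k) :
    (if eps c f v = eps c f (v + sv σ) then (1 : ℝ) else 0) ≤
      1 / (2 * g) * (|ya c f v - (1 + m * eps c f v)| +
        L * |ya c f (v + sv σ) - (1 + m * eps c f (v + sv σ))| +
        |ya c f v - Fy a m (ya c f (v + sv σ))|) := by
  have hm : 0 < m := h.1
  have hm1 := mfe_lt a m h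
  have hL0 : 0 ≤ L := le_trans (by positivity) hL
  split_ifs with he
  · have h1 := (Fy_lip a m (ya c f (v + sv σ)) (1 + m * eps c f (v + sv σ)) ha h
      (ya_bound hq hf c _).1.le (A5b_epos hm hm1 c f _)).1
    rw [A5b_Feps h] at h1
    have h2 : a * Real.exp a * |ya c f (v + sv σ) - (1 + m * eps c f (v + sv σ))| ≤
        L * |ya c f (v + sv σ) - (1 + m * eps c f (v + sv σ))| :=
      mul_le_mul_of_nonneg_right hL (abs_nonneg _)
    have h3 : 2 * m ≤ |ya c f v - (1 + m * eps c f v)| +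
        |Fy a m (ya c f (v + sv σ)) - (1 - m * eps c f (v + sv σ))| +
        |ya c f v - Fy a m (ya c f (v + sv σ))| := by
      rw [← he]
      have h4 : |(1 + m * eps c f v) - (1 - m * eps c f v)| = 2 * m := by
        rcases A5b_eps c f v with ⟨h1, _⟩ | ⟨h1, _⟩
        · rw [h1, abs_of_nonneg (by linarith)]; ring
        · rw [h1, abs_of_nonpos (by linarith)]; ring
      rw [← h4]
      have h5 : (1 + m * eps c f v) - (1 - m * eps c f v) =
          -(ya c f v - (1 + m * eps c f v)) +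
          (Fy a m (ya c f (v + sv σ)) - (1 - m * eps c f v)) +
          (ya c f v - Fy a m (ya c f (v + sv σ))) := by ring
      rw [h5]
      refine (abs_add_le _ _).trans (add_le_add ((abs_add_le _ _).trans (add_le_add ?_ le_rfl)) le_rfl)
      rw [abs_neg]
    rw [one_div, ← div_eq_inv_mul, le_div_iff₀ (by positivity)]
    linarith
  · positivity

end aux

theorem pin_d2 {ε : ℝ} (hε : 0 < ε) (hε1 : ε ≤ 1) (δ : ℝ) (hδ : 0 < δ) : ∃ δ' : ℝ, 0 < δ' ∧
    EvT ε fun d k q => ∀ m : ℝ, MFE (ra d q) m → ∀ f ∈ prps d k q,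
      (∀ b : Bool, ∑ u ∈ cls b d k, mc (fun c => LL (ra d q) m (ya c f u)) ≤ δ' * NN d k) →
      ∑ v : Site d k, mc (fun c => |ya c f v - (1 + m * eps c f v)|) ≤ δ * NN d k := by
  obtain ⟨C, hC, hCe⟩ := est2 (a1 ε) (A0 ε) (Real.exp (A0 ε)) (A5b_a1 hε hε1) (δ / 2) (by linarith)
  refine ⟨δ / (4 * C), by positivity, (EvT_reg hε hε1 1).mono fun d k q hr m hm f hf hb => ?_⟩
  obtain ⟨_, hq1, _, _, _, hra, hrA, _⟩ := hr
  have hq : 1 ≤ q := by exact_mod_cast hq1
  have hfP : Prp f := A5b_prp hf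
  have h1 : ∀ v : Site d k, mc (fun c => |ya c f v - (1 + m * eps c f v)|) ≤
      δ / 2 + C * mc (fun c => LL (ra d q) m (ya c f v)) := by
    intro v
    refine (A5b_mc_mono _ (fun c => δ / 2 + C * LL (ra d q) m (ya c f v)) fun c => ?_).trans
      (le_of_eq ?_)
    · obtain ⟨h2, h3⟩ := ya_bound hq hfP c v
      exact (A5b_dst c f v m hm.1).trans (hCe _ _ _ hra hrA hm h2.le
        (h3.trans (Real.exp_le_exp.2 hrA)))
    · rw [A5b_mc_add, A5b_mc_const hq, A5b_mc_mul]
  have h2 := hb true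
  have h3 := hb false
  have h4 := A5b_two (d := d) (k := k) fun u => mc (fun c => LL (ra d q) m (ya c f u))
  calc ∑ v : Site d k, mc (fun c => |ya c f v - (1 + m * eps c f v)|)
      ≤ ∑ v : Site d k, (δ / 2 * 1 + C * mc (fun c => LL (ra d q) m (ya c f v))) :=
        Finset.sum_le_sum fun v _ => by rw [mul_one]; exact h1 v
    _ = δ / 2 * NN d k + C * ∑ v, mc (fun c => LL (ra d q) m (ya c f v)) := by
        rw [Finset.sum_add_distrib, ← Finset.mul_sum, ← Finset.mul_sum, A5b_one]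
    _ ≤ δ / 2 * NN d k + C * (2 * (δ / (4 * C) * NN d k)) := by
        have : ∑ v, mc (fun c => LL (ra d q) m (ya c f v)) ≤ 2 * (δ / (4 * C) * NN d k) := by
          rw [← h4]
          linarith
        have := mul_le_mul_of_nonneg_left this hC.le
        linarith
    _ = δ * NN d k := by
        field_simp
        ring

theorem pin_fl {ε : ℝ} (hε : 0 < ε) (hε1 : ε ≤ 1) (δ : ℝ) (hδ : 0 < δ) : ∃ δ' : ℝ, 0 < δ' ∧
    EvT ε fun d k q => ∀ m : ℝ, MFE (ra d q) m → ∀ f ∈ prps d k q,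
      (∀ (c : Fin q) (σ : Stp d), ∑ v : Site d k, |ya c f v - Fy (ra d q) m (ya c f (v + sv σ))| ≤ δ' * NN d k) →
      (∑ v : Site d k, mc (fun c => |ya c f v - (1 + m * eps c f v)|) ≤ δ' * NN d k) →
      (∑ v : Site d k, |mc (fun c => eps c f v)| ≤ δ * NN d k) ∧
      ∀ σ : Stp d, ∑ v : Site d k, mc (fun c => if eps c f v = eps c f (v + sv σ) then (1 : ℝ) else 0) ≤ δ * NN d k := by
  obtain ⟨g, hg, hg1, hgap⟩ := gap (a1 ε) (A0 ε) (A5b_a1 hε hε1)
  obtain ⟨L, hL⟩ : ∃ L : ℝ, L = A0 ε * Real.exp (A0 ε) := ⟨_, rfl⟩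
  have hA0 : 0 < A0 ε := by unfold A0; positivity
  have hL0 : 0 < L := by rw [hL]; positivity
  refine ⟨g * δ / (2 + L), by positivity, (EvT_reg hε hε1 1).mono fun d k q hr m hm f hf h1 h2 => ?_⟩
  obtain ⟨_, hq1, _, _, _, hra, hrA, _⟩ := hr
  have hq : 1 ≤ q := by exact_mod_cast hq1
  have hfP : Prp f := A5b_prp hf
  have hN : 0 ≤ NN d k := by unfold NN; positivity
  have ha : 1 < ra d q := (A5b_a1 hε hε1).trans_le hra
  obtain ⟨yM, hyM⟩ := ym_exists (ra d q) m ha hm
  have hgm := (hgap _ _ _ hra hrA hm hyM).1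
  have hm0 : 0 < m := hm.1
  have hLa : ra d q * Real.exp (ra d q) ≤ L := by
    rw [hL]
    exact mul_le_mul hrA (Real.exp_le_exp.2 hrA) (Real.exp_nonneg _) hA0.le
  constructor
  · have h3 : ∀ v : Site d k, |mc (fun c => eps c f v)| ≤
        1 / g * mc (fun c => |ya c f v - (1 + m * eps c f v)|) := by
      intro v
      have h4 : m * mc (fun c => eps c f v) = mc (fun c => (1 + m * eps c f v) + -1 * ya c f v) := by
        rw [A5b_mc_add, A5b_mc_add, A5b_mc_mul, A5b_mc_mul, A5b_mc_const hq, ya_mean hq]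
        ring
      have h5 : m * |mc (fun c => eps c f v)| ≤ mc (fun c => |ya c f v - (1 + m * eps c f v)|) := by
        rw [← abs_of_pos hm0, ← abs_mul, abs_of_pos hm0, h4]
        refine (A5b_mc_abs _).trans (A5b_mc_mono _ _ fun c => le_of_eq ?_)
        rw [← abs_neg]
        congr 1
        ring
      rw [one_div, ← div_eq_inv_mul, le_div_iff₀ hg]
      have h6 := mul_le_mul_of_nonneg_right hgm (abs_nonneg (mc fun c => eps c f v))
      linarith
    calc ∑ v : Site d k, |mc (fun c => eps c f v)|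
        ≤ ∑ v : Site d k, 1 / g * mc (fun c => |ya c f v - (1 + m * eps c f v)|) :=
          Finset.sum_le_sum fun v _ => h3 v
      _ = 1 / g * ∑ v : Site d k, mc (fun c => |ya c f v - (1 + m * eps c f v)|) := by
          rw [← Finset.mul_sum]
      _ ≤ 1 / g * (g * δ / (2 + L) * NN d k) := mul_le_mul_of_nonneg_left h2 (by positivity)
      _ = δ * NN d k * (1 / (2 + L)) := by field_simp
      _ ≤ δ * NN d k * 1 := by
          refine mul_le_mul_of_nonneg_left ?_ (by positivity)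
          rw [div_le_one (by linarith)]
          linarith
      _ = δ * NN d k := mul_one _
  · intro σ
    have h3 : ∀ v : Site d k, mc (fun c => if eps c f v = eps c f (v + sv σ) then (1 : ℝ) else 0) ≤
        1 / (2 * g) * (mc (fun c => |ya c f v - (1 + m * eps c f v)|) +
          L * mc (fun c => |ya c f (v + sv σ) - (1 + m * eps c f (v + sv σ))|) +
          mc (fun c => |ya c f v - Fy (ra d q) m (ya c f (v + sv σ))|)) := by
      intro v
      refine (A5b_mc_mono _ _ fun c => A5b_flip ha hm hg hgm hLa hq hfP σ c v).trans (le_of_eq ?_)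
      rw [A5b_mc_mul, A5b_mc_add, A5b_mc_add, A5b_mc_mul]
    have h4 : ∑ v : Site d k, mc (fun c => |ya c f v - Fy (ra d q) m (ya c f (v + sv σ))|) ≤
        g * δ / (2 + L) * NN d k := A5b_mc_sum hq _ _ fun c => h1 c σ
    have h5 : ∑ v : Site d k, mc (fun c => |ya c f (v + sv σ) - (1 + m * eps c f (v + sv σ))|) =
        ∑ v : Site d k, mc (fun c => |ya c f v - (1 + m * eps c f v)|) :=
      A5b_shift (fun v => mc (fun c => |ya c f v - (1 + m * eps c f v)|)) σ
    calc ∑ v : Site d k, mc (fun c => if eps c f v = eps c f (v + sv σ) then (1 : ℝ) else 0)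
        ≤ ∑ v : Site d k, 1 / (2 * g) * (mc (fun c => |ya c f v - (1 + m * eps c f v)|) +
          L * mc (fun c => |ya c f (v + sv σ) - (1 + m * eps c f (v + sv σ))|) +
          mc (fun c => |ya c f v - Fy (ra d q) m (ya c f (v + sv σ))|)) :=
          Finset.sum_le_sum fun v _ => h3 v
      _ = 1 / (2 * g) * (∑ v : Site d k, mc (fun c => |ya c f v - (1 + m * eps c f v)|) +
          L * ∑ v : Site d k, mc (fun c => |ya c f v - (1 + m * eps c f v)|) +
          ∑ v : Site d k, mc (fun c => |ya c f v - Fy (ra d q) m (ya c f (v + sv σ))|)) := by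
          rw [← Finset.mul_sum, Finset.sum_add_distrib, Finset.sum_add_distrib, ← Finset.mul_sum, h5]
      _ ≤ 1 / (2 * g) * (g * δ / (2 + L) * NN d k + L * (g * δ / (2 + L) * NN d k) +
          g * δ / (2 + L) * NN d k) := by
          refine mul_le_mul_of_nonneg_left ?_ (by positivity)
          exact add_le_add (add_le_add h2 (mul_le_mul_of_nonneg_left h2 hL0.le)) h4
      _ = δ / 2 * NN d k := by
          field_simp
          ring
      _ ≤ δ * NN d k := by
          refine mul_le_mul_of_nonneg_right ?_ hN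
          linarith

end Pool.Agent.THR
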