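import Pool.Agent.Lib_MP_2c424f_thr.Defs

/-!
# THR C4a: two elementary inequalities (paper proof: C4)

* `gibbs`: Jensen's inequality for the logarithm: `log ∑_{p>0} F = log ∑ p (F/p) ≥ ∑ p log (F/p)`.
* `log_lower`: `x ≥ μ/2`: `log (x/μ) ≥ -|x-μ|/min x μ ≥ -2|x-μ|/μ`; `1 ≤ x < μ/2`: `log x ≥ 0 ≥ log μ - 4 log μ (x-μ)²/μ²`.
-/

set_option autoImplicit false

open Finset Filter

namespace Pool.Agent.THR

open Pool.Agent.LO Pool.Agent.LIN

theorem gibbs {Ω : Type*} [Fintype Ω] (p F : Ω → ℝ) (hp : ∀ ω, 0 ≤ p ω) (hs : ∑ ω, p ω = 1) (hF : ∀ ω, 0 < p ω → 1 ≤ F ω) :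
    ∑ ω, p ω * Real.log (F ω) - ∑ ω, p ω * Real.log (p ω) ≤ Real.log (∑ ω, if 0 < p ω then F ω else 0) := by
  have h := strictConcaveOn_log_Ioi.concaveOn.le_map_sum (t := (univ : Finset Ω)) (w := p)
    (p := fun ω => if 0 < p ω then F ω / p ω else 1) (fun ω _ => hp ω) hs (fun ω _ => by
      simp only [Set.mem_Ioi]
      split_ifs with h0
      · exact div_pos (by linarith [hF ω h0]) h0
      · exact one_pos)
  refine le_trans (le_of_eq ?_) (h.trans (le_of_eq ?_))
  · rw [← sum_sub_distrib]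
    refine sum_congr rfl fun ω _ => ?_
    by_cases h0 : 0 < p ω
    · have h1 : 0 < F ω := by linarith [hF ω h0]
      simp only [h0, if_true, smul_eq_mul]
      rw [Real.log_div h1.ne' h0.ne']
      ring
    · have h1 : p ω = 0 := le_antisymm (not_lt.1 h0) (hp ω)
      simp [h1]
  · congr 1
    refine sum_congr rfl fun ω _ => ?_
    by_cases h0 : 0 < p ω
    · simp only [h0, if_true, smul_eq_mul]
      field_simp
    · have h1 : p ω = 0 := le_antisymm (not_lt.1 h0) (hp ω)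
      simp [h1]

theorem log_lower (x μ : ℝ) (hx : 1 ≤ x) (hμ : 2 ≤ μ) :
    Real.log μ - 2 * |x - μ| / μ - 4 * Real.log μ * (x - μ) ^ 2 / μ ^ 2 ≤ Real.log x := by
  have hμ0 : 0 < μ := by linarith
  have hx0 : 0 < x := by linarith
  have hlμ : 0 ≤ Real.log μ := Real.log_nonneg (by linarith)
  have h3 : 0 ≤ 4 * Real.log μ * (x - μ) ^ 2 / μ ^ 2 := by positivity
  have h2 : 0 ≤ 2 * |x - μ| / μ := by positivity
  rcases le_or_gt (μ / 2) x with h | h
  · have h1 := Real.one_sub_inv_le_log_of_pos (div_pos hx0 hμ0)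
    rw [Real.log_div hx0.ne' hμ0.ne'] at h1
    have h4 : -(2 * |x - μ| / μ) ≤ 1 - (x / μ)⁻¹ := by
      have h5 : 1 - (x / μ)⁻¹ = (x - μ) / x := by
        field_simp
      rw [h5]
      have h6 : -(|x - μ| / x) ≤ (x - μ) / x := by
        rw [← neg_div]
        exact div_le_div_of_nonneg_right (neg_abs_le _) hx0.le
      have h7 : |x - μ| / x ≤ 2 * |x - μ| / μ := by
        rw [div_le_div_iff₀ hx0 hμ0]
        nlinarith [abs_nonneg (x - μ)]
      linarith
    linarith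
  · have h4 : Real.log μ ≤ 4 * Real.log μ * (x - μ) ^ 2 / μ ^ 2 := by
      rw [le_div_iff₀ (by positivity)]
      have h5 : μ ^ 2 ≤ 4 * (x - μ) ^ 2 := by nlinarith
      nlinarith
    have h5 : 0 ≤ Real.log x := Real.log_nonneg hx
    linarith

end Pool.Agent.THR
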