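import Pool.Agent.Lib_MP_2c424f_thr.T0

/-!
# THR T2: means over fibres of local functions (paper proof: T3)

`LIN.fm_prod` gives the mean of a product over distinct sites of the class.
* `fm_mono`, `fm_add`, `fm_sum`, `fm_mul_left`, `fm_const`: `fm` is a mean over a nonempty finite set.
* `fm_one`: mean of a function of one site; `fm_ind`: `φ v = 1[. = c]`, `∑_{γ ∉ SS} 1[γ = c] = zz f v c`.
* `fm_two`: two different sites.
* `fm_pull`: a factor which is constant on the fibre.
* `fm_indep`: if `F` does not depend on the colour of `v` and `G` is a function of the colour of `v`.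
* `cov_zz`: `z_v z_v' = ∏ over the union of the neighbour sets of 1[f_w ≠ c]`; mean `∏_{w in union} (1 - p_w)`,
  `p_w = z_w / x_w`; `zt_v zt_v' = ` the same times `∏_{common w} (1 - p_w)`; `1 - ∏ (1 - p) ≤ ∑ p`.
-/

set_option autoImplicit false

open Finset Filter

namespace Pool.Agent.THR

open Pool.Agent.LO Pool.Agent.LIN

variable {d k q : ℕ}

theorem fm_mono (b : Bool) {f : Site d k → Fin q} (hf : Prp f) {F G : (Site d k → Fin q) → ℝ}
    (h : ∀ h ∈ fib b f, F h ≤ G h) : fm b F f ≤ fm b G f := by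
  unfold fm
  have _ := hf
  exact div_le_div_of_nonneg_right (sum_le_sum h) (Nat.cast_nonneg _)

theorem fm_add (b : Bool) (f : Site d k → Fin q) (F G : (Site d k → Fin q) → ℝ) :
    fm b (fun h => F h + G h) f = fm b F f + fm b G f := by
  unfold fm
  rw [sum_add_distrib, add_div]

theorem fm_sub (b : Bool) (f : Site d k → Fin q) (F G : (Site d k → Fin q) → ℝ) :
    fm b (fun h => F h - G h) f = fm b F f - fm b G f := by
  unfold fm
  rw [sum_sub_distrib, sub_div]

theorem fm_sum (b : Bool) (f : Site d k → Fin q) {ι : Type*} (A : Finset ι) (F : ι → (Site d k → Fin q) → ℝ) :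
    fm b (fun h => ∑ i ∈ A, F i h) f = ∑ i ∈ A, fm b (F i) f := by
  unfold fm
  rw [sum_comm, sum_div]

theorem fm_mul (b : Bool) (f : Site d k → Fin q) (c : ℝ) (F : (Site d k → Fin q) → ℝ) :
    fm b (fun h => c * F h) f = c * fm b F f := by
  unfold fm
  rw [← mul_sum, mul_div_assoc]

theorem fm_const (b : Bool) {f : Site d k → Fin q} (hf : Prp f) (c : ℝ) : fm b (fun _ => c) f = c := by
  unfold fm
  have h2 : ((fib b f).card : ℝ) ≠ 0 := by
    rw [Nat.cast_ne_zero]
    exact card_ne_zero_of_mem (fib_self b hf)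
  rw [sum_const, nsmul_eq_mul]
  field_simp

theorem fm_abs (b : Bool) (f : Site d k → Fin q) (F : (Site d k → Fin q) → ℝ) : |fm b F f| ≤ fm b (fun h => |F h|) f := by
  unfold fm
  rw [abs_div, Nat.abs_cast]
  exact div_le_div_of_nonneg_right (abs_sum_le_sum_abs _ _) (Nat.cast_nonneg _)

/-- functions constant on the fibre -/
theorem fm_congr (b : Bool) {f : Site d k → Fin q} {F G : (Site d k → Fin q) → ℝ} (h : ∀ h ∈ fib b f, F h = G h) :
    fm b F f = fm b G f := by
  unfold fm
  rw [sum_congr rfl h]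

/-- the fibre mean is constant on the fibre -/
theorem fm_fib (hk : 1 ≤ k) (b : Bool) {f h : Site d k → Fin q} (hh : h ∈ fib b f) (F : (Site d k → Fin q) → ℝ) :
    fm b F h = fm b F f := by
  unfold fm
  rw [fib_eq hk b hh]

theorem fm_one (hk : 1 ≤ k) (b : Bool) {f : Site d k → Fin q} (hf : Prp f) (v : Site d k) (hv : v ∈ cls b d k)
    (φ : Fin q → ℝ) : fm b (fun h => φ (h v)) f = (∑ c ∈ (SS f v)ᶜ, φ c) / (av f v : ℝ) := by
  have h := fm_prod hk b hf {v} (singleton_subset_iff.2 hv) (fun _ => φ)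
  simpa only [prod_singleton] using h

open scoped Classical in
theorem fm_ind (hk : 1 ≤ k) (b : Bool) {f : Site d k → Fin q} (hf : Prp f) (v : Site d k) (hv : v ∈ cls b d k)
    (c : Fin q) : fm b (fun h => if h v = c then (1 : ℝ) else 0) f = zz f v c / (av f v : ℝ) := by
  have h := fm_one hk b hf v hv (fun γ => if γ = c then (1 : ℝ) else 0)
  rw [h]
  congr 1
  unfold zz
  rw [sum_ite_eq' (SS f v)ᶜ c]
  by_cases hc : c ∈ SS f v
  · rw [if_pos hc, if_neg (by simpa using hc)]
  · rw [if_neg hc, if_pos (by simpa using hc)]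

theorem fm_two (hk : 1 ≤ k) (b : Bool) {f : Site d k → Fin q} (hf : Prp f) (v w : Site d k) (hv : v ∈ cls b d k)
    (hw : w ∈ cls b d k) (hvw : v ≠ w) (φ ψ : Fin q → ℝ) :
    fm b (fun h => φ (h v) * ψ (h w)) f = fm b (fun h => φ (h v)) f * fm b (fun h => ψ (h w)) f := by
  classical
  have hU : ({v, w} : Finset (Site d k)) ⊆ cls b d k := by
    intro x hx
    rcases mem_insert.1 hx with h | h
    · exact h ▸ hv
    · exact (mem_singleton.1 h) ▸ hw
  have h := fm_prod hk b hf {v, w} hU (fun x => if x = v then φ else ψ)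
  have h1 : (fun h : Site d k → Fin q => ∏ x ∈ ({v, w} : Finset (Site d k)), (if x = v then φ else ψ) (h x)) =
      fun h => φ (h v) * ψ (h w) := by
    funext h
    rw [prod_pair hvw, if_pos rfl, if_neg (Ne.symm hvw)]
  rw [h1, prod_pair hvw, if_pos rfl, if_neg (Ne.symm hvw)] at h
  rw [h, fm_one hk b hf v hv, fm_one hk b hf w hw]

private theorem T2_indep2 (hk : 1 ≤ k) (b : Bool) {f : Site d k → Fin q} (hf : Prp f) (U : Finset (Site d k))
    (F G : (Site d k → Fin q) → ℝ)
    (hF : ∀ h ∈ fib b f, ∀ h' ∈ fib b f, (∀ v ∈ U, h v = h' v) → F h = F h')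
    (hG : ∀ h ∈ fib b f, ∀ h' ∈ fib b f, (∀ v, v ∉ U → h v = h' v) → G h = G h') :
    fm b (fun h => F h * G h) f = fm b F f * fm b G f := by
  classical
  have _ := hk
  unfold fm
  have hne : ((fib b f).card : ℝ) ≠ 0 := by
    rw [Nat.cast_ne_zero]
    exact card_ne_zero_of_mem (fib_self b hf)
  have hmix : ∀ h ∈ fib b f, ∀ h' ∈ fib b f, (fun x => if x ∈ U then h x else h' x) ∈ fib b f := by
    intro h hh h' hh'
    unfold fib at hh hh' ⊢
    rw [Fintype.mem_piFinset] at hh hh' ⊢
    intro x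
    by_cases hx : x ∈ U
    · simpa only [if_pos hx] using hh x
    · simpa only [if_neg hx] using hh' x
  have key : ∑ p ∈ fib b f ×ˢ fib b f, F p.1 * G p.2 = ∑ p ∈ fib b f ×ˢ fib b f, F p.1 * G p.1 := by
    refine sum_nbij' (fun p => (fun x => if x ∈ U then p.1 x else p.2 x, fun x => if x ∈ U then p.2 x else p.1 x))
      (fun p => (fun x => if x ∈ U then p.1 x else p.2 x, fun x => if x ∈ U then p.2 x else p.1 x)) ?_ ?_ ?_ ?_ ?_
    · intro p hp
      obtain ⟨h1, h2⟩ := mem_product.1 hp
      exact mem_product.2 ⟨hmix _ h1 _ h2, hmix _ h2 _ h1⟩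
    · intro p hp
      obtain ⟨h1, h2⟩ := mem_product.1 hp
      exact mem_product.2 ⟨hmix _ h1 _ h2, hmix _ h2 _ h1⟩
    · intro p _
      refine Prod.ext (funext fun x => ?_) (funext fun x => ?_) <;> by_cases hx : x ∈ U <;> simp [hx]
    · intro p _
      refine Prod.ext (funext fun x => ?_) (funext fun x => ?_) <;> by_cases hx : x ∈ U <;> simp [hx]
    · intro p hp
      obtain ⟨h1, h2⟩ := mem_product.1 hp
      have e1 : F p.1 = F (fun x => if x ∈ U then p.1 x else p.2 x) :=
        hF _ h1 _ (hmix _ h1 _ h2) fun v hv => by rw [if_pos hv]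
      have e2 : G p.2 = G (fun x => if x ∈ U then p.1 x else p.2 x) :=
        hG _ h2 _ (hmix _ h1 _ h2) fun v hv => by rw [if_neg hv]
      simp only
      rw [← e1, ← e2]
  rw [sum_product, sum_product] at key
  have h3 : ∑ x ∈ fib b f, ∑ _y ∈ fib b f, F x * G x = (fib b f).card * ∑ x ∈ fib b f, F x * G x := by
    rw [mul_sum]
    refine sum_congr rfl fun x _ => ?_
    rw [sum_const, nsmul_eq_mul]
  have h4 : ∑ x ∈ fib b f, ∑ y ∈ fib b f, F x * G y = (∑ x ∈ fib b f, F x) * ∑ y ∈ fib b f, G y := by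
    rw [sum_mul_sum]
  rw [h3, h4] at key
  rw [div_mul_div_comm, key]
  field_simp

/-- independence of the colour at `v` and the other colours of the class -/
theorem fm_indep (hk : 1 ≤ k) (b : Bool) {f : Site d k → Fin q} (hf : Prp f) (v : Site d k) (hv : v ∈ cls b d k)
    (φ : Fin q → ℝ) (F : (Site d k → Fin q) → ℝ)
    (hF : ∀ h ∈ fib b f, ∀ γ, γ ∉ SS f v → F (Function.update h v γ) = F h) :
    fm b (fun h => φ (h v) * F h) f = fm b (fun h => φ (h v)) f * fm b F f := by
  have h2 : ∀ h ∈ fib b f, h v ∉ SS f v := by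
    intro h hh
    unfold fib at hh
    have := Fintype.mem_piFinset.1 hh v
    rw [if_pos hv, mem_compl] at this
    exact this
  refine T2_indep2 hk b hf {v} (fun h => φ (h v)) F ?_ ?_
  · intro h _ h' _ hv'
    exact congrArg φ (hv' v (mem_singleton_self v))
  · intro h hh h' hh' hv'
    have h3 : h' = Function.update h v (h' v) := by
      funext x
      by_cases hx : x = v
      · subst hx
        rw [Function.update_self]
      · rw [Function.update_of_ne hx]
        exact (hv' x (by simpa using hx)).symm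
    rw [h3]
    exact (hF h hh (h' v) (h2 h' hh')).symm

/-- independence for disjoint sets of sites of the class: `F` depends on the sites of `U` only, `G` does not
depend on the sites of `U` -/
theorem fm_indep2 (hk : 1 ≤ k) (b : Bool) {f : Site d k → Fin q} (hf : Prp f) (U : Finset (Site d k))
    (F G : (Site d k → Fin q) → ℝ)
    (hF : ∀ h ∈ fib b f, ∀ h' ∈ fib b f, (∀ v ∈ U, h v = h' v) → F h = F h')
    (hG : ∀ h ∈ fib b f, ∀ h' ∈ fib b f, (∀ v, v ∉ U → h v = h' v) → G h = G h') :
    fm b (fun h => F h * G h) f = fm b F f * fm b G f := by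
  exact T2_indep2 hk b hf U F G hF hG

/-- elementary facts -/
theorem sum_zz_av {f : Site d k → Fin q} (hf : Prp f) (v : Site d k) : ∑ c, zz f v c / (av f v : ℝ) = 1 := by
  rw [← sum_div, ← av_eq]
  have h := av_pos hf v
  exact div_self (by exact_mod_cast (by omega : av f v ≠ 0))

theorem zz_av_le {f : Site d k → Fin q} (hf : Prp f) (v : Site d k) (c : Fin q) :
    0 ≤ zz f v c / (av f v : ℝ) ∧ zz f v c / (av f v : ℝ) ≤ 1 := by
  have h := av_pos hf v
  have h1 : (1 : ℝ) ≤ av f v := by exact_mod_cast h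
  rcases (by unfold zz; split_ifs <;> simp : zz f v c = 0 ∨ zz f v c = 1) with h2 | h2
  · rw [h2, zero_div]
    exact ⟨le_rfl, zero_le_one⟩
  · rw [h2]
    exact ⟨by positivity, by rw [div_le_one (by linarith)]; exact h1⟩

theorem zz_reg {ε : ℝ} {f : Site d k → Fin q} (hq : 1 ≤ q) (v : Site d k) (h : Rg ε f v) (c : Fin q) :
    zz f v c / (av f v : ℝ) ≤ 1 / (c1 ε * q) := by
  unfold Rg at h
  have h0 : 0 < c1 ε := by
    unfold c1
    positivity
  have h1 : (0 : ℝ) < c1 ε * q := mul_pos h0 (by exact_mod_cast hq)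
  have h2 : zz f v c ≤ 1 := by
    unfold zz
    split_ifs <;> norm_num
  calc zz f v c / (av f v : ℝ) ≤ 1 / (av f v : ℝ) := div_le_div_of_nonneg_right h2 (Nat.cast_nonneg _)
    _ ≤ 1 / (c1 ε * q) := one_div_le_one_div_of_le h1 h

end Pool.Agent.THR
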