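import Pool.Agent.Lib_MP_2c424f_thr.C4a
import Pool.Agent.Lib_MP_2c424f_thr.T2

/-!
# THR C4b: product measure (paper proof: C4)

`Z ≥ ∑_{g : even sites → colours, no site has the last colour} ∏_{v odd} x_v(g)`, `x_v ≥ 1` (the last colour is available), `gibbs` for the
product measure `∏_{u even} p (g u)`: `log Z ≥ ∑_{v odd} E log x_v - (N/2) ∑_c p_c log p_c`, and the `2d` neighbours of `v` are different sites
(`k ≥ 2`), so `E log x_v = ∑_s ∏_σ p (s σ) log |(image s)ᶜ|`.  (A proper colouring is determined by its restriction to the even sites and for every odd site an available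
colour.)
-/

set_option autoImplicit false

open Finset Filter

namespace Pool.Agent.THR

open Pool.Agent.LO Pool.Agent.LIN

/-- marginals of a product measure -/
private theorem C4b_marg {E S C : Type*} [Fintype E] [DecidableEq E] [Fintype S] [DecidableEq S] [Fintype C]
    [DecidableEq C] (ι : S → E)
    (hι : Function.Injective ι) (p : C → ℝ) (hs : ∑ c, p c = 1) (Φ : (S → C) → ℝ) :
    ∑ g : E → C, (∏ u, p (g u)) * Φ (fun σ => g (ι σ)) = ∑ s : S → C, (∏ σ, p (s σ)) * Φ s := by
  classical
  rw [← Finset.sum_fiberwise_of_maps_to (s := univ) (t := (univ : Finset (S → C)))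
    (g := fun g : E → C => fun σ => g (ι σ)) (fun _ _ => mem_univ _)]
  refine Finset.sum_congr rfl fun s _ => ?_
  have h1 : ∀ g ∈ univ.filter (fun g : E → C => (fun σ => g (ι σ)) = s),
      (∏ u, p (g u)) * Φ (fun σ => g (ι σ)) = (∏ u, p (g u)) * Φ s := by
    intro g hg
    rw [(mem_filter.mp hg).2]
  rw [Finset.sum_congr rfl h1, ← Finset.sum_mul]
  congr 1
  let T : E → Finset C := fun u => univ.filter fun c => ∀ σ, ι σ = u → c = s σ
  have h2 : univ.filter (fun g : E → C => (fun σ => g (ι σ)) = s) = Fintype.piFinset T := by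
    ext g
    simp only [mem_filter, mem_univ, true_and, Fintype.mem_piFinset, T]
    constructor
    · rintro rfl u σ rfl
      rfl
    · intro h
      funext σ
      exact h (ι σ) σ rfl
  rw [h2, ← Finset.prod_univ_sum]
  have h3 : ∀ σ, ∑ c ∈ T (ι σ), p c = p (s σ) := by
    intro σ
    have : T (ι σ) = {s σ} := by
      ext c
      simp only [T, mem_filter, mem_univ, true_and, mem_singleton]
      constructor
      · intro h; exact h σ rfl
      · rintro rfl τ hτ
        rw [hι hτ]
    rw [this, sum_singleton]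
  have h4 : ∀ u, u ∉ univ.image ι → ∑ c ∈ T u, p c = 1 := by
    intro u hu
    have : T u = univ := by
      ext c
      simp only [T, mem_filter, mem_univ, true_and, iff_true]
      intro σ hσ
      exact absurd (mem_image.mpr ⟨σ, mem_univ _, hσ⟩) hu
    rw [this, hs]
  rw [← Finset.prod_subset (Finset.subset_univ (univ.image ι)) (fun u _ hu => h4 u hu),
    Finset.prod_image (fun a _ b _ h => hι h)]
  exact Finset.prod_congr rfl fun σ _ => h3 σ

/-- extension of a colouring of the even sites by the last colour -/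
private noncomputable def C4b_G {d k Q : ℕ} (g : {x : Site d k // evn x} → Fin (Q + 1)) : Site d k → Fin (Q + 1) := by
  classical
  exact fun x => if h : evn x then g ⟨x, h⟩ else Fin.last Q

private theorem C4b_G_even {d k Q : ℕ} (g : {x : Site d k // evn x} → Fin (Q + 1)) (x : Site d k) (h : evn x) :
    C4b_G g x = g ⟨x, h⟩ := by
  unfold C4b_G
  rw [dif_pos h]

open scoped Classical in
/-- allowed colours of the extension -/
private noncomputable def C4b_T {d k Q : ℕ} (g : {x : Site d k // evn x} → Fin (Q + 1)) (x : Site d k) :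
    Finset (Fin (Q + 1)) :=
  if evn x then {C4b_G g x} else (SS (C4b_G g) x)ᶜ

private theorem C4b_prp {d k Q : ℕ} (hk : 1 ≤ k) (g : {x : Site d k // evn x} → Fin (Q + 1)) (f : Site d k → Fin (Q + 1))
    (hf : ∀ x, f x ∈ C4b_T g x) : Prp f := by
  classical
  have key : ∀ (x : Site d k) (σ : Stp d), ¬ evn x → f x ≠ f (x + sv σ) := by
    intro x σ hx
    have h1 := hf x
    have h2 := hf (x + sv σ)
    have he : evn (x + sv σ) := (evn_step hk x σ).mpr hx
    unfold C4b_T at h1 h2
    rw [if_neg hx, mem_compl] at h1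
    rw [if_pos he, mem_singleton] at h2
    intro h
    apply h1
    rw [h, h2]
    exact mem_image.mpr ⟨σ, mem_univ _, rfl⟩
  intro x σ
  by_cases hx : evn x
  · have ho : ¬ evn (x + sv σ) := by
      rw [evn_step hk]; exact not_not.mpr hx
    have h := key (x + sv σ) (σ.1, !σ.2) ho
    have h2 : x + sv σ + sv (σ.1, !σ.2) = x := by
      rw [add_assoc, show (sv σ : Site d k) = sv (σ.1, σ.2) from rfl, sv_opp, add_zero]
    rw [h2] at h
    exact h
  · exact fun h => key x σ hx h.symm

open scoped Classical in
/-- the sum over the colourings of the even sites is at most the number of proper colourings -/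
private theorem C4b_count {d k Q : ℕ} (hk : 1 ≤ k) :
    ∑ g : {x : Site d k // evn x} → Fin (Q + 1), ∏ v ∈ ods d k, (((SS (C4b_G g) v)ᶜ).card : ℝ) ≤
      ZZ d k (Q + 1) := by
  classical
  have h1 : ∀ g : {x : Site d k // evn x} → Fin (Q + 1),
      ∏ v ∈ ods d k, ((SS (C4b_G g) v)ᶜ).card = (Fintype.piFinset (C4b_T g)).card := by
    intro g
    rw [Fintype.card_piFinset, ← Finset.prod_filter_mul_prod_filter_not univ (fun x : Site d k => evn x)]
    have h2 : ∏ x ∈ univ.filter (fun x : Site d k => evn x), (C4b_T g x).card = 1 := by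
      refine Finset.prod_eq_one fun x hx => ?_
      unfold C4b_T
      rw [if_pos (mem_filter.mp hx).2, card_singleton]
    rw [h2, one_mul]
    have h3 : ods d k = univ.filter (fun x : Site d k => ¬ evn x) := by
      unfold ods
      ext x
      simp only [mem_filter, mem_univ, true_and]
    rw [h3]
    refine Finset.prod_congr rfl fun x hx => ?_
    unfold C4b_T
    rw [if_neg (mem_filter.mp hx).2]
  have hdisj : ((univ : Finset ({x : Site d k // evn x} → Fin (Q + 1))) :
      Set ({x : Site d k // evn x} → Fin (Q + 1))).PairwiseDisjoint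
      (fun g => Fintype.piFinset (C4b_T g)) := by
    intro g _ g' _ hne
    rw [Function.onFun, Finset.disjoint_left]
    intro f hf hf'
    apply hne
    funext u
    have e1 := Fintype.mem_piFinset.mp hf u.1
    have e2 := Fintype.mem_piFinset.mp hf' u.1
    unfold C4b_T at e1 e2
    rw [if_pos u.2, mem_singleton, C4b_G_even g u.1 u.2] at e1
    rw [if_pos u.2, mem_singleton, C4b_G_even g' u.1 u.2] at e2
    rw [← e1, ← e2]
  have h5 : ∑ g : {x : Site d k // evn x} → Fin (Q + 1), ∏ v ∈ ods d k, ((SS (C4b_G g) v)ᶜ).card ≤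
      (prps d k (Q + 1)).card := by
    calc ∑ g : {x : Site d k // evn x} → Fin (Q + 1), ∏ v ∈ ods d k, ((SS (C4b_G g) v)ᶜ).card
        = ∑ g : {x : Site d k // evn x} → Fin (Q + 1), (Fintype.piFinset (C4b_T g)).card :=
          Finset.sum_congr rfl fun g _ => h1 g
      _ = (univ.biUnion fun g : {x : Site d k // evn x} → Fin (Q + 1) => Fintype.piFinset (C4b_T g)).card :=
          (Finset.card_biUnion hdisj).symm
      _ ≤ (prps d k (Q + 1)).card := by
          refine Finset.card_le_card fun f hf => ?_
          obtain ⟨g, _, hg⟩ := mem_biUnion.mp hf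
          unfold prps
          rw [mem_filter]
          exact ⟨mem_univ _, C4b_prp hk g f (Fintype.mem_piFinset.mp hg)⟩
  unfold ZZ
  exact_mod_cast h5

/-- reduction to one site: `p` a probability vector which vanishes at the last colour -/
theorem Z_product {d k Q : ℕ} (hd : 1 ≤ d) (hk : 2 ≤ k) (p : Fin (Q + 1) → ℝ) (hp : ∀ c, 0 ≤ p c) (hs : ∑ c, p c = 1)
    (hl : p (Fin.last Q) = 0) :
    NN d k / 2 * ((∑ s : Stp d → Fin (Q + 1), (∏ σ, p (s σ)) * Real.log (((univ.image s)ᶜ : Finset (Fin (Q + 1))).card)) -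
      ∑ c, p c * Real.log (p c)) ≤ Real.log (ZZ d k (Q + 1)) := by
  classical
  have hk1 : 1 ≤ k := by omega
  let P : ({x : Site d k // evn x} → Fin (Q + 1)) → ℝ := fun g => ∏ u, p (g u)
  let F : ({x : Site d k // evn x} → Fin (Q + 1)) → ℝ := fun g =>
    ∏ v ∈ ods d k, (((SS (C4b_G g) v)ᶜ).card : ℝ)
  have hP : ∀ g, 0 ≤ P g := fun g => Finset.prod_nonneg fun u _ => hp _
  have hPs : ∑ g, P g = 1 := by
    have h := C4b_marg (E := {x : Site d k // evn x}) (S := Empty) (fun e => e.elim)
      (fun a => a.elim) p hs (fun _ => 1)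
    simp only [mul_one] at h
    rw [h]
    simp
  have hpos : ∀ g, 0 < P g → ∀ u, 0 < p (g u) := by
    intro g hg u
    rcases (hp (g u)).lt_or_eq with h | h
    · exact h
    · exfalso
      have : P g = 0 := Finset.prod_eq_zero (mem_univ u) h.symm
      linarith
  -- the last colour is available
  have hx : ∀ g, 0 < P g → ∀ v ∈ ods d k, 1 ≤ (((SS (C4b_G g) v)ᶜ).card : ℝ) := by
    intro g hg v hv
    have hvo : ¬ evn v := by
      unfold ods at hv
      exact (mem_filter.mp hv).2
    have h1 : Fin.last Q ∈ (SS (C4b_G g) v)ᶜ := by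
      rw [mem_compl]
      intro h
      obtain ⟨σ, _, hσ⟩ := mem_image.mp h
      rw [C4b_G_even g _ ((evn_step hk1 v σ).mpr hvo)] at hσ
      have h2 := hpos g hg ⟨v + sv σ, (evn_step hk1 v σ).mpr hvo⟩
      rw [hσ, hl] at h2
      exact lt_irrefl _ h2
    have h2 : 1 ≤ ((SS (C4b_G g) v)ᶜ).card := Finset.card_pos.mpr ⟨_, h1⟩
    exact_mod_cast h2
  have hF : ∀ g, 0 < P g → 1 ≤ F g := by
    intro g hg
    have h1 : 0 < ∏ v ∈ ods d k, ((SS (C4b_G g) v)ᶜ).card := Finset.prod_pos fun v hv => by
      have := hx g hg v hv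
      have h2 : 1 ≤ ((SS (C4b_G g) v)ᶜ).card := by exact_mod_cast this
      omega
    have h2 : 1 ≤ ∏ v ∈ ods d k, ((SS (C4b_G g) v)ᶜ).card := h1
    have h3 : (1 : ℝ) ≤ ((∏ v ∈ ods d k, ((SS (C4b_G g) v)ᶜ).card : ℕ) : ℝ) := by exact_mod_cast h2
    rw [Nat.cast_prod] at h3
    exact h3
  have hg := gibbs P F hP hPs hF
  -- the sum is at most `Z`
  have hle : ∑ g, (if 0 < P g then F g else 0) ≤ ZZ d k (Q + 1) := by
    refine le_trans (Finset.sum_le_sum fun g _ => ?_) (C4b_count (d := d) (k := k) (Q := Q) hk1)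
    have : 0 ≤ F g := Finset.prod_nonneg fun v _ => Nat.cast_nonneg _
    split_ifs
    · exact le_refl _
    · exact this
  have hge : 0 < ∑ g, (if 0 < P g then F g else 0) := by
    obtain ⟨g, _, hgp⟩ : ∃ g ∈ (univ : Finset ({x : Site d k // evn x} → Fin (Q + 1))), 0 < P g := by
      by_contra hc
      push Not at hc
      have : ∑ g, P g ≤ 0 := Finset.sum_nonpos fun g hg => hc g hg
      linarith
    have h1 : ∀ g, 0 ≤ (if 0 < P g then F g else 0) := by
      intro g
      split_ifs with h
      · exact le_trans zero_le_one (hF g h)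
      · exact le_refl _
    refine Finset.sum_pos' (fun g _ => h1 g) ⟨g, mem_univ _, ?_⟩
    rw [if_pos hgp]
    exact lt_of_lt_of_le zero_lt_one (hF g hgp)
  refine le_trans (le_trans (le_of_eq ?_) hg) (Real.log_le_log hge hle)
  -- the entropy term
  have hent : ∑ g, P g * Real.log (P g) = NN d k / 2 * ∑ c, p c * Real.log (p c) := by
    have e1 : ∀ g, P g * Real.log (P g) = ∑ u, P g * Real.log (p (g u)) := by
      intro g
      rcases (hP g).lt_or_eq with h | h
      · rw [← Finset.mul_sum]
        congr 1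
        exact Real.log_prod fun u _ => (hpos g h u).ne'
      · rw [← h]
        simp
    rw [Finset.sum_congr rfl fun g _ => e1 g, Finset.sum_comm]
    have e2 : ∀ u : {x : Site d k // evn x}, ∑ g, P g * Real.log (p (g u)) = ∑ c, p c * Real.log (p c) := by
      intro u
      have h := C4b_marg (E := {x : Site d k // evn x}) (S := Unit) (fun _ => u)
        (fun a b _ => rfl) p hs (fun s => Real.log (p (s ())))
      rw [h]
      rw [← (Equiv.funUnique Unit (Fin (Q + 1))).sum_comp]
      refine Finset.sum_congr rfl fun s _ => ?_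
      simp
    rw [Finset.sum_congr rfl fun u _ => e2 u, Finset.sum_const, nsmul_eq_mul]
    congr 1
    rw [← card_evs hd hk1, Finset.card_univ, Fintype.card_subtype]
    unfold evs
    congr 2
  -- the main term
  have hmain : ∑ g, P g * Real.log (F g) = NN d k / 2 *
      ∑ s : Stp d → Fin (Q + 1), (∏ σ, p (s σ)) * Real.log (((univ.image s)ᶜ : Finset (Fin (Q + 1))).card) := by
    have e1 : ∀ g, P g * Real.log (F g) = ∑ v ∈ ods d k, P g * Real.log (((SS (C4b_G g) v)ᶜ).card : ℝ) := by
      intro g
      rcases (hP g).lt_or_eq with h | h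
      · rw [← Finset.mul_sum]
        congr 1
        exact Real.log_prod fun v hv => (lt_of_lt_of_le zero_lt_one (hx g h v hv)).ne'
      · rw [← h]
        simp
    rw [Finset.sum_congr rfl fun g _ => e1 g, Finset.sum_comm]
    have e2 : ∀ v ∈ ods d k, ∑ g, P g * Real.log (((SS (C4b_G g) v)ᶜ).card : ℝ) =
        ∑ s : Stp d → Fin (Q + 1), (∏ σ, p (s σ)) * Real.log (((univ.image s)ᶜ : Finset (Fin (Q + 1))).card) := by
      intro v hv
      have hvo : ¬ evn v := by
        unfold ods at hv
        exact (mem_filter.mp hv).2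
      have hinj : Function.Injective (fun σ : Stp d =>
          (⟨v + sv σ, (evn_step hk1 v σ).mpr hvo⟩ : {x : Site d k // evn x})) := by
        intro a b hab
        have h1 := congrArg Subtype.val hab
        exact sv_inj hk (add_left_cancel h1)
      have h := C4b_marg (E := {x : Site d k // evn x}) (S := Stp d) _ hinj p hs
        (fun s => Real.log (((univ.image s)ᶜ : Finset (Fin (Q + 1))).card))
      rw [← h]
      refine Finset.sum_congr rfl fun g _ => ?_
      have h2 : SS (C4b_G g) v = univ.image (fun σ : Stp d =>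
          g ⟨v + sv σ, (evn_step hk1 v σ).mpr hvo⟩) := by
        unfold SS
        refine Finset.image_congr fun σ _ => ?_
        exact C4b_G_even g _ _
      rw [h2]
    rw [Finset.sum_congr rfl e2, Finset.sum_const, nsmul_eq_mul, card_ods hd hk1]
  rw [hent, hmain]
  ring

end Pool.Agent.THR
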