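import Pool.Agent.Lib_MP_2c424f_thr.Defs

/-!
# THR A1: the mean-field equation (paper proof: A1)

* `mfe_exists`: `g m = tanh (a m) - m` is positive for small `m > 0` (`tanh x ≥ x - x³/3`) and negative at `1`; intermediate value theorem.
* `mfe_lower`: `m = tanh (am) ≥ am - (am)³/3`, so `m² ≥ 3(a-1)/a³`.
* `mfe_unique`: `tanh (x)/x` is strictly decreasing on `(0,∞)`.
* identities: `e^(-a(1±m))/α* = 1 ∓ m` from `tanh`.
* `phi_eq`: `ell 1 = (ψ(1+m)+ψ(1-m))/2 = -((1+m) log (1+m) + (1-m) log (1-m))/2 + 1`.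
-/

set_option autoImplicit false

open Finset Filter

namespace Pool.Agent.THR

private theorem A1_x_le (x : ℝ) (hx : 0 ≤ x) : Real.sinh x ≤ x * Real.cosh x := by
  have hm : MonotoneOn (fun t : ℝ => t * Real.cosh t - Real.sinh t) (Set.Ici 0) := by
    have hd : ∀ t : ℝ, HasDerivAt (fun t : ℝ => t * Real.cosh t - Real.sinh t) (t * Real.sinh t) t := by
      intro t
      have h := ((hasDerivAt_id t).mul (Real.hasDerivAt_cosh t)).sub (Real.hasDerivAt_sinh t)
      have e : 1 * Real.cosh t + id t * Real.sinh t - Real.cosh t = t * Real.sinh t := by simp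
      rw [e] at h
      exact h
    refine monotoneOn_of_deriv_nonneg (convex_Ici 0) (fun t _ => (hd t).continuousAt.continuousWithinAt)
      (fun t _ => (hd t).differentiableAt.differentiableWithinAt) ?_
    intro t ht
    rw [interior_Ici] at ht
    rw [(hd t).deriv]
    have ht' : (0 : ℝ) < t := ht
    exact mul_nonneg ht'.le (Real.sinh_nonneg_iff.2 ht'.le)
  have := hm (Set.self_mem_Ici) (Set.mem_Ici.2 hx) hx
  simp at this
  linarith

theorem tanh_ge (x : ℝ) (hx : 0 ≤ x) : x - x ^ 3 / 3 ≤ Real.tanh x := by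
  have hm : MonotoneOn (fun t : ℝ => Real.sinh t - (t - t ^ 3 / 3) * Real.cosh t) (Set.Ici 0) := by
    have hd : ∀ t : ℝ, HasDerivAt (fun t : ℝ => Real.sinh t - (t - t ^ 3 / 3) * Real.cosh t)
        (t * (t * Real.cosh t - Real.sinh t) + t ^ 3 / 3 * Real.sinh t) t := by
      intro t
      have h1 : HasDerivAt (fun t : ℝ => t - t ^ 3 / 3) (1 - t ^ 2) t := by
        have h := (hasDerivAt_id t).sub (((hasDerivAt_id t).pow 3).div_const 3)
        refine h.congr_deriv ?_
        simp
      have h := (Real.hasDerivAt_sinh t).sub (h1.mul (Real.hasDerivAt_cosh t))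
      refine h.congr_deriv ?_
      ring
    refine monotoneOn_of_deriv_nonneg (convex_Ici 0) (fun t _ => (hd t).continuousAt.continuousWithinAt)
      (fun t _ => (hd t).differentiableAt.differentiableWithinAt) ?_
    intro t ht
    rw [interior_Ici] at ht
    rw [(hd t).deriv]
    have ht' : (0 : ℝ) < t := ht
    have h1 := A1_x_le t ht'.le
    have h2 : 0 ≤ Real.sinh t := Real.sinh_nonneg_iff.2 ht'.le
    have h3 : 0 ≤ t * (t * Real.cosh t - Real.sinh t) := mul_nonneg ht'.le (by linarith)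
    have h4 : 0 ≤ t ^ 3 / 3 * Real.sinh t := mul_nonneg (by positivity) h2
    linarith
  have := hm (Set.self_mem_Ici) (Set.mem_Ici.2 hx) hx
  simp at this
  rw [Real.tanh_eq_sinh_div_cosh, le_div_iff₀ (Real.cosh_pos x)]
  linarith

private theorem A1_cont : Continuous Real.tanh := by
  have : Real.tanh = fun x => Real.sinh x / Real.cosh x := by
    funext x; exact Real.tanh_eq_sinh_div_cosh x
  rw [this]
  exact Real.continuous_sinh.div Real.continuous_cosh fun x => (Real.cosh_pos x).ne'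

theorem mfe_exists (a : ℝ) (ha : 1 < a) : ∃ m : ℝ, MFE a m := by
  have ha0 : 0 < a := by linarith
  have hc : Continuous fun m : ℝ => Real.tanh (a * m) - m :=
    (A1_cont.comp (continuous_const.mul continuous_id)).sub continuous_id
  set m0 : ℝ := Real.sqrt ((a - 1) / a ^ 3) with hm0
  have hq : 0 < (a - 1) / a ^ 3 := div_pos (by linarith) (by positivity)
  have hm0p : 0 < m0 := Real.sqrt_pos.2 hq
  have hsq : m0 ^ 2 = (a - 1) / a ^ 3 := Real.sq_sqrt hq.le
  have hm01 : m0 ≤ 1 := by
    have : m0 ^ 2 ≤ 1 := by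
      rw [hsq, div_le_one (by positivity)]
      nlinarith [mul_pos ha0 ha0, mul_pos (mul_pos ha0 ha0) ha0]
    nlinarith
  have h0 : 0 ≤ Real.tanh (a * m0) - m0 := by
    have h := tanh_ge (a * m0) (by positivity)
    have e : (a * m0) ^ 3 / 3 = m0 * ((a - 1) / 3) := by
      have : (a * m0) ^ 3 = a ^ 3 * m0 ^ 2 * m0 := by ring
      rw [this, hsq]
      field_simp
    rw [e] at h
    nlinarith
  have h1 : Real.tanh (a * 1) - 1 ≤ 0 := by
    have := Real.tanh_lt_one (a * 1)
    linarith
  have hiv := intermediate_value_Icc' hm01 hc.continuousOn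
  obtain ⟨m, hm, hm2⟩ := hiv (Set.mem_Icc.2 ⟨h1, h0⟩)
  refine ⟨m, lt_of_lt_of_le hm0p hm.1, ?_⟩
  simp only at hm2
  linarith

theorem mfe_lt (a m : ℝ) (h : MFE a m) : m < 1 := by
  rw [h.2]; exact Real.tanh_lt_one _

theorem mfe_lower (a m : ℝ) (ha : 1 < a) (h : MFE a m) : 3 * (a - 1) / a ^ 3 ≤ m ^ 2 := by
  have ha0 : 0 < a := by linarith
  have hm := h.1
  have h1 := tanh_ge (a * m) (by positivity)
  rw [← h.2] at h1
  rw [div_le_iff₀ (by positivity)]
  have e : a * m - (a * m) ^ 3 / 3 = m * (a - a ^ 3 * m ^ 2 / 3) := by ring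
  rw [e] at h1
  have h2 : a - a ^ 3 * m ^ 2 / 3 ≤ 1 := by
    by_contra hc
    push Not at hc
    nlinarith
  nlinarith

/-- `t coth t` is strictly increasing -/
theorem A1_coth_mono : StrictMonoOn (fun t : ℝ => t * Real.cosh t / Real.sinh t) (Set.Ioi 0) := by
  have hd : ∀ t : ℝ, 0 < t → HasDerivAt (fun t : ℝ => t * Real.cosh t / Real.sinh t)
      ((Real.cosh t * Real.sinh t - t) / Real.sinh t ^ 2) t := by
    intro t ht
    have hs : 0 < Real.sinh t := Real.sinh_pos_iff.2 ht
    have h := ((hasDerivAt_id t).mul (Real.hasDerivAt_cosh t)).div (Real.hasDerivAt_sinh t) hs.ne'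
    refine h.congr_deriv ?_
    simp only [id, Pi.mul_apply]
    congr 1
    have := Real.cosh_sq t
    nlinarith
  refine strictMonoOn_of_deriv_pos (convex_Ioi 0)
    (fun t ht => (hd t ht).continuousAt.continuousWithinAt) ?_
  intro t ht
  rw [interior_Ioi] at ht
  have ht' : (0 : ℝ) < t := ht
  rw [(hd t ht').deriv]
  have hs : 0 < Real.sinh t := Real.sinh_pos_iff.2 ht'
  refine div_pos ?_ (by positivity)
  have h2 : t < Real.sinh t := Real.self_lt_sinh_iff.2 ht'
  have h3 := Real.one_le_cosh t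
  nlinarith

private theorem A1_coth (a m : ℝ) (h : MFE a m) : a * m * Real.cosh (a * m) / Real.sinh (a * m) = a := by
  have hm := h.1
  have h2 := h.2
  rw [Real.tanh_eq_sinh_div_cosh] at h2
  have hc := Real.cosh_pos (a * m)
  rw [eq_div_iff hc.ne'] at h2
  have hs : Real.sinh (a * m) ≠ 0 := by
    rw [← h2]; positivity
  rw [div_eq_iff hs, ← h2]
  ring

private theorem A1_pos (a m : ℝ) (h : MFE a m) : 0 < a * m := by
  have hm := h.1
  have h2 := h.2
  rw [Real.tanh_eq_sinh_div_cosh] at h2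
  have hc := Real.cosh_pos (a * m)
  rw [eq_div_iff hc.ne'] at h2
  have : 0 < Real.sinh (a * m) := by rw [← h2]; positivity
  exact Real.sinh_pos_iff.1 this

theorem mfe_unique (a m m' : ℝ) (ha : 1 < a) (h : MFE a m) (h' : MFE a m') : m = m' := by
  have h1 := A1_coth a m h
  have h2 := A1_coth a m' h'
  have := A1_coth_mono.injOn (Set.mem_Ioi.2 (A1_pos a m h)) (Set.mem_Ioi.2 (A1_pos a m' h'))
    (by show a * m * Real.cosh (a * m) / Real.sinh (a * m) = a * m' * Real.cosh (a * m') / Real.sinh (a * m'); rw [h1, h2])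
  have ha0 : a ≠ 0 := by linarith
  exact mul_left_cancel₀ ha0 this

theorem als_pos (a m : ℝ) : 0 < als a m := by
  unfold als
  have := Real.cosh_pos (a * m)
  positivity

theorem als_bounds (a m : ℝ) (ha : 0 ≤ a) (hm : |m| ≤ 1) : Real.exp (-a) ≤ als a m ∧ als a m ≤ 1 := by
  unfold als
  have he := Real.exp_pos (-a)
  refine ⟨by have := Real.one_le_cosh (a * m); nlinarith, ?_⟩
  have h1 : Real.cosh (a * m) ≤ Real.cosh a := by
    rw [Real.cosh_le_cosh, abs_mul, abs_of_nonneg ha]
    nlinarith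
  have h2 : Real.cosh a ≤ Real.exp a := by
    have := Real.cosh_add_sinh a
    have h3 : 0 ≤ Real.sinh a := Real.sinh_nonneg_iff.2 ha
    linarith
  calc Real.exp (-a) * Real.cosh (a * m) ≤ Real.exp (-a) * Real.exp a := by
        exact mul_le_mul_of_nonneg_left (h1.trans h2) he.le
    _ = 1 := by rw [← Real.exp_add]; simp

private theorem A1_tanh (a m : ℝ) (h : MFE a m) : Real.sinh (a * m) = m * Real.cosh (a * m) := by
  have h2 := h.2
  rw [Real.tanh_eq_sinh_div_cosh] at h2
  have hc := Real.cosh_pos (a * m)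
  rw [eq_div_iff hc.ne'] at h2
  exact h2.symm

theorem Fy_add (a m : ℝ) (h : MFE a m) : Fy a m (1 + m) = 1 - m := by
  unfold Fy als
  have hc := Real.cosh_pos (a * m)
  have he := Real.exp_pos (-a)
  rw [div_eq_iff (by positivity)]
  have e : Real.exp (-(a * (1 + m))) = Real.exp (-a) * Real.exp (-(a * m)) := by
    rw [← Real.exp_add]; ring_nf
  rw [e, ← Real.cosh_sub_sinh (a * m), A1_tanh a m h]
  ring

theorem Fy_sub (a m : ℝ) (h : MFE a m) : Fy a m (1 - m) = 1 + m := by
  unfold Fy als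
  have hc := Real.cosh_pos (a * m)
  have he := Real.exp_pos (-a)
  rw [div_eq_iff (by positivity)]
  have e : Real.exp (-(a * (1 - m))) = Real.exp (-a) * Real.exp (a * m) := by
    rw [← Real.exp_add]; ring_nf
  rw [e, ← Real.cosh_add_sinh (a * m), A1_tanh a m h]
  ring

/-- `a m > 0` and the nondegeneracy `a² (1 - m²) < 1` -/
theorem mfe_nondeg (a m : ℝ) (ha : 1 < a) (h : MFE a m) : a ^ 2 * (1 - m ^ 2) < 1 := by
  have hp := A1_pos a m h
  have hm := h.1
  have ht := A1_tanh a m h
  have hc := Real.cosh_pos (a * m)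
  have hsq := Real.cosh_sq (a * m)
  have hs : a * m < Real.sinh (a * m) := Real.self_lt_sinh_iff.2 hp
  have h1 : (1 - m ^ 2) * Real.cosh (a * m) ^ 2 = 1 := by
    have : (m * Real.cosh (a * m)) ^ 2 = Real.cosh (a * m) ^ 2 - 1 := by rw [← ht]; linarith
    nlinarith
  have h2 : a < Real.cosh (a * m) := by
    rw [ht] at hs
    have : a * m < Real.cosh (a * m) * m := by linarith
    exact lt_of_mul_lt_mul_right this hm.le
  have h3 : a ^ 2 < Real.cosh (a * m) ^ 2 := by
    have ha0 : 0 < a := by linarith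
    nlinarith
  have h4 : 0 < 1 - m ^ 2 := by
    have := mfe_lt a m h
    nlinarith
  calc a ^ 2 * (1 - m ^ 2) < Real.cosh (a * m) ^ 2 * (1 - m ^ 2) := by
        exact mul_lt_mul_of_pos_right h3 h4
    _ = 1 := by rw [mul_comm]; exact h1

private theorem A1_psi_add (a m : ℝ) (h : MFE a m) :
    psi a m (1 + m) = -((1 + m) * Real.log (1 + m)) + (1 - m) := by
  unfold psi
  rw [Fy_add a m h, Real.negMulLog]; ring

private theorem A1_psi_sub (a m : ℝ) (h : MFE a m) :
    psi a m (1 - m) = -((1 - m) * Real.log (1 - m)) + (1 + m) := by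
  unfold psi
  rw [Fy_sub a m h, Real.negMulLog]; ring

theorem phi_eq (a m : ℝ) (h : MFE a m) :
    Phi a m = -((1 + m) * Real.log (1 + m) + (1 - m) * Real.log (1 - m)) / 2 + Real.log (als a m) := by
  unfold Phi ell
  rw [A1_psi_add a m h, A1_psi_sub a m h]
  ring

private theorem A1_log_sub (a m : ℝ) (h : MFE a m) :
    Real.log (1 - m) = -(a * (1 + m)) - Real.log (als a m) := by
  rw [← Fy_add a m h]
  unfold Fy
  rw [Real.log_div (Real.exp_pos _).ne' (als_pos a m).ne', Real.log_exp]

private theorem A1_log_add (a m : ℝ) (h : MFE a m) :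
    Real.log (1 + m) = -(a * (1 - m)) - Real.log (als a m) := by
  rw [← Fy_sub a m h]
  unfold Fy
  rw [Real.log_div (Real.exp_pos _).ne' (als_pos a m).ne', Real.log_exp]

/-- slope of the common tangent -/
theorem ell_eq (a m y : ℝ) (h : MFE a m) :
    ell a m y = ell a m 1 + (-Real.log (1 + m) - 1 - a * (1 - m)) * (y - 1) := by
  have hm := h.1
  unfold ell
  rw [A1_psi_add a m h, A1_psi_sub a m h, A1_log_sub a m h, A1_log_add a m h]
  field_simp
  ring

theorem LL_zero (a m : ℝ) (h : MFE a m) : LL a m (1 + m) = 0 ∧ LL a m (1 - m) = 0 := by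
  have hm := h.1
  unfold LL ell
  constructor
  · field_simp
    ring
  · field_simp
    ring

end Pool.Agent.THR
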