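import Pool.Agent.Lib_MP_2c424f_thr.T0

/-!
# THR T1: concentration on fibres (paper proof: T1, T2)

`fib b f = Fintype.piFinset t`, `t x = (SS f x)ᶜ` on the class `b` and `{f x}` off it, so `LIN.mcdiarmid` applies with
`c_v = l c` on the class (`|cls b| = N/2`) and `c_v = 0` off the class:
mean over the fibre of `exp (l (Ψ - mean Ψ)) ≤ exp (l² c² N/2)` if `l c ≤ 1`.
* `tail`: `fib_sum` for `exp (l (Ψ - fm b Ψ))` (the fibre mean is constant on the fibre, `fib_eq`), Markov's inequality,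
  `l = δ/c²`: `exp (-l δ N + l² c² N/2) = exp (-δ² N/(2c²))`.
* `fm_var`: `e^x + e^{-x} ≥ 2 + x²`, applied to `x = l (F - mean F)`: `l² Var ≤ 2 (exp (l² S) - 1) ≤ 4 l² S`, `S = ∑ c_v²`,
  for `l` so small that `l c_v ≤ 1`, `l² S ≤ 1`.
* `WOPi_tail`: `tail` with `c = d^κ`, `δ = 1/d^K`: `exp (-N/(2 d^(2K+2κ)))`, exponent `2K+2κ+1`.
-/

set_option autoImplicit false

open Finset Filter

namespace Pool.Agent.THR

open Pool.Agent.LO Pool.Agent.LIN

private theorem T1_cosh (x : ℝ) : 1 + x ^ 2 / 2 ≤ Real.cosh x := by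
  have h1 : Real.cosh x = 1 + 2 * Real.sinh (x / 2) ^ 2 := by
    have e1 := Real.cosh_two_mul (x / 2)
    have e2 := Real.cosh_sq (x / 2)
    have e3 : 2 * (x / 2) = x := by ring
    rw [e3] at e1
    rw [e1, e2]
    ring
  have h2 : (x / 2) ^ 2 ≤ Real.sinh (x / 2) ^ 2 := by
    rcases le_total 0 (x / 2) with h | h
    · exact pow_le_pow_left₀ h (Real.self_le_sinh_iff.2 h) 2
    · have e1 := Real.sinh_le_self_iff.2 h
      nlinarith
  rw [h1]
  nlinarith

private theorem T1_mcd {d k q : ℕ} (b : Bool) {f : Site d k → Fin q} (hf : Prp f)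
    (F : (Site d k → Fin q) → ℝ) (c : Site d k → ℝ) (hc0 : ∀ v, 0 ≤ c v)
    (hc1 : ∀ v ∈ cls b d k, c v ≤ 1)
    (hF : ∀ h ∈ fib b f, ∀ v ∈ cls b d k, ∀ γ, γ ∉ SS f v → |F (Function.update h v γ) - F h| ≤ c v) :
    fm b (fun h => Real.exp (F h)) f ≤ Real.exp (fm b F f + ∑ v ∈ cls b d k, c v ^ 2) := by
  classical
  have hself := fib_self b hf
  set t : Site d k → Finset (Fin q) := fun x => if x ∈ cls b d k then (SS f x)ᶜ else {f x} with ht
  have hfib : fib b f = Fintype.piFinset t := by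
    unfold fib
    rw [ht]
  have htne : ∀ i, (t i).Nonempty := fun i =>
    ⟨f i, Fintype.mem_piFinset.1 (hfib ▸ hself) i⟩
  have hdiff : ∀ h ∈ Fintype.piFinset t, ∀ i, ∀ a ∈ t i,
      |F (Function.update h i a) - F h| ≤ if i ∈ cls b d k then c i else 0 := by
    intro h hh i a ha
    by_cases hi : i ∈ cls b d k
    · rw [if_pos hi]
      refine hF h (hfib ▸ hh) i hi a ?_
      rw [ht] at ha
      dsimp only at ha
      rw [if_pos hi] at ha
      exact Finset.mem_compl.1 ha
    · have hti : t i = {f i} := by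
        rw [ht]
        dsimp only
        rw [if_neg hi]
      have h1 : a = f i := by
        rw [hti] at ha
        exact Finset.mem_singleton.1 ha
      have h2 : h i = f i := by
        have := Fintype.mem_piFinset.1 hh i
        rw [hti] at this
        exact Finset.mem_singleton.1 this
      have h3 : Function.update h i a = h := by
        rw [h1, ← h2, Function.update_eq_self]
      rw [h3, sub_self, abs_zero, if_neg hi]
  have hmc := mcdiarmid t htne F (fun i => if i ∈ cls b d k then c i else 0)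
    (fun i => by
      split_ifs
      · exact hc0 i
      · exact le_rfl)
    (fun i => by
      split_ifs with hi
      · exact hc1 i hi
      · exact zero_le_one) hdiff
  have hcard : 0 < ((Fintype.piFinset t).card : ℝ) := by
    rw [← hfib]
    exact_mod_cast Finset.card_pos.2 ⟨f, hself⟩
  have hsum : ∑ i, (if i ∈ cls b d k then c i else 0) ^ 2 = ∑ v ∈ cls b d k, c v ^ 2 := by
    have h1 : ∀ i, (if i ∈ cls b d k then c i else 0) ^ 2 = if i ∈ cls b d k then c i ^ 2 else 0 := by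
      intro i
      split_ifs
      · rfl
      · simp
    rw [Finset.sum_congr rfl fun i _ => h1 i, Finset.sum_ite_mem, Finset.univ_inter]
  rw [hsum] at hmc
  unfold fm
  rw [hfib, div_le_iff₀ hcard, mul_comm]
  exact hmc

private theorem T1_fm_center {d k q : ℕ} (b : Bool) {f : Site d k → Fin q} (hf : Prp f)
    (F : (Site d k → Fin q) → ℝ) (l m : ℝ) (hm : m = fm b F f) :
    fm b (fun h => l * (F h - m)) f = 0 := by
  have hcard : (0 : ℝ) < ((fib b f).card : ℝ) := by
    exact_mod_cast Finset.card_pos.2 ⟨f, fib_self b hf⟩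
  unfold fm at hm ⊢
  rw [← Finset.mul_sum, Finset.sum_sub_distrib, Finset.sum_const, nsmul_eq_mul, hm,
    mul_div_cancel₀ _ hcard.ne', sub_self, mul_zero, zero_div]

theorem tail {d k q : ℕ} (hd : 1 ≤ d) (hk : 2 ≤ k) (b : Bool) (Ψ : (Site d k → Fin q) → ℝ) (c δ : ℝ) (hc : 0 < c)
    (hδ : 0 ≤ δ) (hδc : δ ≤ c) (h : Lip b c Ψ) :
    (((prps d k q).filter fun f => fm b Ψ f + δ * NN d k ≤ Ψ f).card : ℝ) ≤
      ZZ d k q * Real.exp (-(δ ^ 2 * NN d k / (2 * c ^ 2))) := by
  classical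
  have hk1 : 1 ≤ k := by omega
  set l : ℝ := δ / c ^ 2 with hl
  have hl0 : 0 ≤ l := by positivity
  have hlc : l * c ≤ 1 := by
    have h1 : l * c = δ / c := by
      rw [hl]
      field_simp
    rw [h1, div_le_one hc]
    exact hδc
  have key : ∀ f ∈ prps d k q, fm b (fun h => Real.exp (l * (Ψ h - fm b Ψ h))) f ≤
      Real.exp (l ^ 2 * c ^ 2 * (NN d k / 2)) := by
    intro f hfm
    have hf : Prp f := by
      unfold prps at hfm
      exact (Finset.mem_filter.1 hfm).2
    have h1 : fm b (fun h => Real.exp (l * (Ψ h - fm b Ψ h))) f =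
        fm b (fun h => Real.exp (l * (Ψ h - fm b Ψ f))) f := by
      unfold fm
      congr 1
      refine Finset.sum_congr rfl fun g hg => ?_
      dsimp only
      rw [fib_eq hk1 b hg]
    rw [h1]
    have h2 := T1_mcd b hf (fun h => l * (Ψ h - fm b Ψ f)) (fun _ => l * c)
      (fun _ => mul_nonneg hl0 hc.le) (fun _ _ => hlc) (by
        intro g hg v hv γ hγ
        have h3 := h f hfm g hg v hv γ hγ
        have h4 : l * (Ψ (Function.update g v γ) - fm b Ψ f) - l * (Ψ g - fm b Ψ f) =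
            l * (Ψ (Function.update g v γ) - Ψ g) := by ring
        rw [h4, abs_mul, abs_of_nonneg hl0]
        exact mul_le_mul_of_nonneg_left h3 hl0)
    rw [T1_fm_center b hf Ψ l _ rfl, Finset.sum_const, nsmul_eq_mul, card_cls hd hk1 b, zero_add] at h2
    refine h2.trans_eq ?_
    congr 1
    ring
  have hsum : ∑ f ∈ prps d k q, Real.exp (l * (Ψ f - fm b Ψ f)) ≤
      ZZ d k q * Real.exp (l ^ 2 * c ^ 2 * (NN d k / 2)) := by
    rw [fib_sum hk1 b]
    refine (Finset.sum_le_sum key).trans_eq ?_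
    rw [Finset.sum_const, nsmul_eq_mul]
    rfl
  have hWm : ∀ f ∈ (prps d k q).filter fun f => fm b Ψ f + δ * NN d k ≤ Ψ f,
      fm b Ψ f + δ * NN d k ≤ Ψ f := fun f hf => (Finset.mem_filter.1 hf).2
  have hWs : ((prps d k q).filter fun f => fm b Ψ f + δ * NN d k ≤ Ψ f) ⊆ prps d k q :=
    Finset.filter_subset _ _
  generalize ((prps d k q).filter fun f => fm b Ψ f + δ * NN d k ≤ Ψ f) = W at hWm hWs ⊢
  have hmark : (W.card : ℝ) * Real.exp (l * (δ * NN d k)) ≤
      ∑ f ∈ prps d k q, Real.exp (l * (Ψ f - fm b Ψ f)) := by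
    calc (W.card : ℝ) * Real.exp (l * (δ * NN d k)) = ∑ f ∈ W, Real.exp (l * (δ * NN d k)) := by
          rw [Finset.sum_const, nsmul_eq_mul]
      _ ≤ ∑ f ∈ W, Real.exp (l * (Ψ f - fm b Ψ f)) := by
          refine Finset.sum_le_sum fun f hf => ?_
          refine Real.exp_le_exp.2 (mul_le_mul_of_nonneg_left ?_ hl0)
          linarith [hWm f hf]
      _ ≤ _ := Finset.sum_le_sum_of_subset_of_nonneg hWs fun _ _ _ => (Real.exp_pos _).le
  have h5 := hmark.trans hsum
  have h6 : (W.card : ℝ) ≤ ZZ d k q * Real.exp (l ^ 2 * c ^ 2 * (NN d k / 2)) / Real.exp (l * (δ * NN d k)) := by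
    rw [le_div_iff₀ (Real.exp_pos _)]
    exact h5
  refine h6.trans_eq ?_
  rw [mul_div_assoc, ← Real.exp_sub]
  congr 2
  rw [hl]
  field_simp
  ring

theorem fm_var {d k q : ℕ} (hk : 2 ≤ k) (b : Bool) {f : Site d k → Fin q} (hf : Prp f) (F : (Site d k → Fin q) → ℝ)
    (c : Site d k → ℝ) (hc : ∀ v, 0 ≤ c v)
    (h : ∀ h ∈ fib b f, ∀ v ∈ cls b d k, ∀ γ, γ ∉ SS f v → |F (Function.update h v γ) - F h| ≤ c v) :
    fm b (fun h => (F h - fm b F f) ^ 2) f ≤ 4 * ∑ v ∈ cls b d k, c v ^ 2 := by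
  have _ := hk
  set S : ℝ := ∑ v ∈ cls b d k, c v ^ 2 with hS
  have hS0 : 0 ≤ S := Finset.sum_nonneg fun v _ => sq_nonneg _
  have hcS : ∀ v ∈ cls b d k, c v ≤ 1 + S := by
    intro v hv
    have h1 : c v ^ 2 ≤ S := Finset.single_le_sum (f := fun v => c v ^ 2) (fun _ _ => sq_nonneg _) hv
    nlinarith [sq_nonneg (c v - 1)]
  set l : ℝ := 1 / (1 + S) with hl
  have hl0 : 0 < l := by positivity
  have hl1 : l * (1 + S) = 1 := by
    rw [hl]
    field_simp
  set m : ℝ := fm b F f with hm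
  have hcard : (0 : ℝ) < ((fib b f).card : ℝ) := by
    exact_mod_cast Finset.card_pos.2 ⟨f, fib_self b hf⟩
  have hx : l ^ 2 * S ≤ 1 := by
    have h1 : l * S ≤ 1 := by
      have : l * (1 + S) = l + l * S := by ring
      linarith
    have h2 : l ≤ 1 := by
      have : 0 ≤ l * S := by positivity
      nlinarith
    calc l ^ 2 * S = l * (l * S) := by ring
      _ ≤ 1 * 1 := mul_le_mul h2 h1 (by positivity) zero_le_one
      _ = 1 := one_mul 1
  have hx0 : 0 ≤ l ^ 2 * S := by positivity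
  have hsg : ∀ s : ℝ, |s| = l → fm b (fun h => Real.exp (s * (F h - m))) f ≤ Real.exp (l ^ 2 * S) := by
    intro s hs
    have h2 := T1_mcd b hf (fun h => s * (F h - m)) (fun v => l * c v)
      (fun v => mul_nonneg hl0.le (hc v))
      (fun v hv => (mul_le_mul_of_nonneg_left (hcS v hv) hl0.le).trans_eq hl1) (by
        intro g hg v hv γ hγ
        have h3 := h g hg v hv γ hγ
        have h4 : s * (F (Function.update g v γ) - m) - s * (F g - m) =
            s * (F (Function.update g v γ) - F g) := by ring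
        rw [h4, abs_mul, hs]
        exact mul_le_mul_of_nonneg_left h3 hl0.le)
    rw [T1_fm_center b hf F s m hm, zero_add] at h2
    refine h2.trans_eq ?_
    congr 1
    rw [hS, Finset.mul_sum]
    refine Finset.sum_congr rfl fun v _ => ?_
    ring
  have h1 := hsg l (abs_of_pos hl0)
  have h2 := hsg (-l) (by rw [abs_neg, abs_of_pos hl0])
  have h3 : 2 + l ^ 2 * fm b (fun h => (F h - m) ^ 2) f ≤
      fm b (fun h => Real.exp (l * (F h - m))) f + fm b (fun h => Real.exp (-l * (F h - m))) f := by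
    have e1 : 2 + l ^ 2 * fm b (fun h => (F h - m) ^ 2) f =
        (∑ h ∈ fib b f, (2 + (l * (F h - m)) ^ 2)) / (fib b f).card := by
      unfold fm
      rw [Finset.sum_add_distrib, Finset.sum_const, nsmul_eq_mul, add_div, mul_comm _ (2 : ℝ),
        mul_div_cancel_right₀ _ hcard.ne', ← mul_div_assoc, Finset.mul_sum]
      congr 2
      refine Finset.sum_congr rfl fun g _ => ?_
      ring
    rw [e1]
    unfold fm
    rw [← add_div, ← Finset.sum_add_distrib]
    refine div_le_div_of_nonneg_right (Finset.sum_le_sum fun g _ => ?_) hcard.le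
    have e2 : -l * (F g - m) = -(l * (F g - m)) := by ring
    rw [e2]
    generalize l * (F g - m) = x
    have e3 : Real.exp x + Real.exp (-x) = 2 * Real.cosh x := by
      rw [Real.cosh_eq]
      ring
    rw [e3]
    have e4 := T1_cosh x
    linarith
  have h4 : Real.exp (l ^ 2 * S) ≤ 1 + 2 * (l ^ 2 * S) := by
    have e1 := Real.abs_exp_sub_one_sub_id_le (x := l ^ 2 * S) (by rw [abs_of_nonneg hx0]; exact hx)
    have e2 := (abs_le.1 e1).2
    nlinarith
  have h5 : l ^ 2 * fm b (fun h => (F h - m) ^ 2) f ≤ l ^ 2 * (4 * S) := by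
    nlinarith
  exact le_of_mul_le_mul_left h5 (by positivity)

private theorem T1_Rar {C d k q : ℕ} {P : (Site d k → Fin q) → Prop} (W : Finset (Site d k → Fin q))
    (hW : ∀ f ∈ prps d k q, P f → f ∈ W)
    (hc : (W.card : ℝ) ≤ ZZ d k q * Real.exp (-(NN d k / (d : ℝ) ^ C))) : Rar C d k q P := by
  classical
  unfold Rar
  refine le_trans ?_ hc
  exact Nat.cast_le.2 (Finset.card_le_card fun f hf =>
    hW f (Finset.mem_filter.1 hf).1 (Finset.mem_filter.1 hf).2)

theorem WOPi_tail {ε : ℝ} (hε : 0 < ε) (hε1 : ε ≤ 1) (ι : ℕ → ℕ → ℕ → Type) (b : ∀ d k q, ι d k q → Bool)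
    (H : ∀ d k q, ι d k q → Prop) (Ψ : ∀ d k q, ι d k q → (Site d k → Fin q) → ℝ) (κ K : ℕ)
    (hL : EvT ε fun d k q => ∀ i, H d k q i → Lip (b d k q i) ((d : ℝ) ^ κ) (Ψ d k q i)) :
    WOPi ε ι fun d k q i f => H d k q i →
      Ψ d k q i f ≤ fm (b d k q i) (Ψ d k q i) f + NN d k / (d : ℝ) ^ K := by
  refine ⟨2 * K + 2 * κ + 1, ?_⟩
  refine (hL.and (EvT_reg hε hε1 2)).mono ?_
  intro d k q hdkq i
  obtain ⟨hLip, hd2, -, hk2, -⟩ := hdkq
  have hd2' : 2 ≤ d := by exact_mod_cast hd2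
  have hk2' : 2 ≤ k := by exact_mod_cast hk2
  have hd0 : (0 : ℝ) < d := by linarith
  have hd1 : (1 : ℝ) ≤ d := by linarith
  have hN : 0 ≤ NN d k := by
    unfold NN
    positivity
  have hZ : 0 ≤ ZZ d k q := by
    unfold ZZ
    positivity
  by_cases hH : H d k q i
  · have h1 := tail (by omega : 1 ≤ d) hk2' (b d k q i) (Ψ d k q i) ((d : ℝ) ^ κ) (1 / (d : ℝ) ^ K)
      (by positivity) (by positivity) (by
        calc 1 / (d : ℝ) ^ K ≤ 1 := by
              rw [div_le_one (by positivity)]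
              exact one_le_pow₀ hd1
          _ ≤ (d : ℝ) ^ κ := one_le_pow₀ hd1) (hLip i hH)
    refine T1_Rar _ (fun f hf h2 => ?_) (h1.trans ?_)
    · rw [Classical.not_imp, not_le] at h2
      have h3 : 1 / (d : ℝ) ^ K * NN d k = NN d k / (d : ℝ) ^ K := by ring
      refine Finset.mem_filter.2 ⟨hf, ?_⟩
      rw [h3]
      exact h2.2.le
    · refine mul_le_mul_of_nonneg_left (Real.exp_le_exp.2 (neg_le_neg ?_)) hZ
      have h4 : (1 / (d : ℝ) ^ K) ^ 2 * NN d k / (2 * ((d : ℝ) ^ κ) ^ 2) =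
          NN d k / (2 * (d : ℝ) ^ (2 * K + 2 * κ)) := by
        rw [pow_add, pow_mul', pow_mul']
        field_simp
      rw [h4]
      refine div_le_div_of_nonneg_left hN (by positivity) ?_
      rw [pow_succ' (d : ℝ) (2 * K + 2 * κ)]
      exact mul_le_mul_of_nonneg_right hd2 (by positivity)
  · refine T1_Rar ∅ (fun f _ hf => absurd (fun h => absurd h hH) hf) ?_
    rw [Finset.card_empty, Nat.cast_zero]
    positivity

end Pool.Agent.THR
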