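import Pool.Agent.Lib_MP_2c424f_thr.C4a
import Pool.Agent.Lib_MP_2c424f_thr.A1
import Pool.Agent.Lib_MP_2c424f_thr.T1

/-!
# THR C4c: one site (paper proof: C4)

`q = Q + 1`.  `p_c = (1+m)/(2h)` for `c < h = ⌊Q/2⌋`, `(1-m)/(2(Q-h))` for `h ≤ c < Q`, `0` for the last colour.
* `-∑ p log p = ((1+m)/2) log (2h/(1+m)) + ((1-m)/2) log (2(Q-h)/(1-m)) ≥ log (Q-1) - ((1+m)log(1+m)+(1-m)log(1-m))/2`.
* `X` = number of colours not used by `2d` independent `p`-distributed colours: `E X = ∑_c (1-p_c)^(2d) ≥ q (α* - C/q)`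
  (`(1-p)^(2d) ≥ exp (-2d(p+p²))`, `2d p_c` close to `a(1±m)`, `(e^(-a(1+m)) + e^(-a(1-m)))/2 = α*`), variance `≤ 8 d` (bounded differences: Efron-Stein for independent coordinates or
  `LIN.mcdiarmid` for small `l`; the variance is also `≤ E X` by negative correlation: `P(c, c' both unused) = (1 - p_c - p_c')^(2d) ≤ (1-p_c)^(2d) (1-p_c')^(2d)`, so
  `Var X ≤ ∑_c (1-p_c)^(2d) ≤ q`, which is the simplest way), `X ≥ 1` with the last colour unused.
* `log_lower` with `μ = E X` (`≥ q e^(-A0)/2`): `E log X ≥ log μ - 2 √(Var)/μ - 4 log μ Var/μ² ≥ log (q α*) - δ/2` for `q` large.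
* `phi_eq`.
-/

set_option autoImplicit false

open Finset Filter

namespace Pool.Agent.THR

open Pool.Agent.LO Pool.Agent.LIN

private theorem c4c_prod {ι α : Type*} [Fintype ι] [DecidableEq ι] [Fintype α] [DecidableEq α] (p u : α → ℝ) :
    ∑ s : ι → α, (∏ i, p (s i)) * (∏ i, u (s i)) = (∑ c, p c * u c) ^ Fintype.card ι := by
  have h := Finset.prod_univ_sum (fun _ : ι => (univ : Finset α)) (fun _ c => p c * u c)
  rw [Fintype.piFinset_univ] at h
  rw [Finset.prod_const, Finset.card_univ] at h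
  rw [h]
  refine Finset.sum_congr rfl fun s _ => ?_
  rw [← Finset.prod_mul_distrib]

private theorem c4c_ind {ι α : Type*} [Fintype ι] [DecidableEq ι] [Fintype α] [DecidableEq α] (s : ι → α) (c : α) :
    (if c ∈ ((univ.image s)ᶜ : Finset α) then (1 : ℝ) else 0) = ∏ i, (if s i = c then (0 : ℝ) else 1) := by
  by_cases h : c ∈ (univ.image s : Finset α)
  · obtain ⟨i, _, hi⟩ := Finset.mem_image.1 h
    rw [if_neg (by simpa using ⟨i, hi⟩)]
    refine (Finset.prod_eq_zero (Finset.mem_univ i) ?_).symm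
    rw [if_pos hi]
  · rw [if_pos (by simpa using h)]
    refine (Finset.prod_eq_one fun i _ => ?_).symm
    rw [if_neg]
    intro hi
    exact h (Finset.mem_image.2 ⟨i, Finset.mem_univ i, hi⟩)

private theorem c4c_card {ι α : Type*} [Fintype ι] [DecidableEq ι] [Fintype α] [DecidableEq α] (s : ι → α) :
    ((((univ.image s)ᶜ : Finset α).card : ℕ) : ℝ) = ∑ c : α, ∏ i, (if s i = c then (0 : ℝ) else 1) := by
  rw [Finset.card_eq_sum_ones, Nat.cast_sum]
  simp_rw [← c4c_ind]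
  rw [Finset.sum_ite_mem]
  simp

private theorem c4c_E1 {ι α : Type*} [Fintype ι] [DecidableEq ι] [Fintype α] [DecidableEq α] (p : α → ℝ)
    (hs : ∑ c, p c = 1) (c : α) :
    ∑ s : ι → α, (∏ i, p (s i)) * ∏ i, (if s i = c then (0 : ℝ) else 1) = (1 - p c) ^ Fintype.card ι := by
  rw [c4c_prod p (fun j => if j = c then (0 : ℝ) else 1)]
  congr 1
  have : ∀ j, p j * (if j = c then (0 : ℝ) else 1) = p j - (if j = c then p j else 0) := by
    intro j; split_ifs <;> ring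
  simp_rw [this]
  rw [Finset.sum_sub_distrib, hs, Finset.sum_ite_eq' univ c p]
  simp

private theorem c4c_E2 {ι α : Type*} [Fintype ι] [DecidableEq ι] [Fintype α] [DecidableEq α] (p : α → ℝ)
    (hs : ∑ c, p c = 1) (c c' : α) (hcc : c ≠ c') :
    ∑ s : ι → α, (∏ i, p (s i)) * ((∏ i, (if s i = c then (0 : ℝ) else 1)) * ∏ i, (if s i = c' then (0 : ℝ) else 1)) =
      (1 - p c - p c') ^ Fintype.card ι := by
  simp_rw [← Finset.prod_mul_distrib (f := fun i => if _ = c then (0 : ℝ) else 1)]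
  have := c4c_prod (ι := ι) p (fun j => (if j = c then (0 : ℝ) else 1) * (if j = c' then (0 : ℝ) else 1))
  rw [this]
  congr 1
  have : ∀ j, p j * ((if j = c then (0 : ℝ) else 1) * (if j = c' then (0 : ℝ) else 1)) =
      p j - (if j = c then p j else 0) - (if j = c' then p j else 0) := by
    intro j
    by_cases h1 : j = c
    · have h2 : j ≠ c' := h1 ▸ hcc
      rw [if_pos h1, if_neg h2, if_pos h1, if_neg h2]; ring
    · by_cases h2 : j = c'
      · rw [if_neg h1, if_pos h2, if_neg h1, if_pos h2]; ring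
      · rw [if_neg h1, if_neg h2, if_neg h1, if_neg h2]; ring
  simp_rw [this]
  rw [Finset.sum_sub_distrib, Finset.sum_sub_distrib, hs, Finset.sum_ite_eq' univ c p, Finset.sum_ite_eq' univ c' p]
  simp

/-- mean -/
private theorem c4c_mean {ι α : Type*} [Fintype ι] [DecidableEq ι] [Fintype α] [DecidableEq α] (p : α → ℝ)
    (hs : ∑ c, p c = 1) :
    ∑ s : ι → α, (∏ i, p (s i)) * (((univ.image s)ᶜ : Finset α).card : ℝ) = ∑ c, (1 - p c) ^ Fintype.card ι := by
  simp_rw [c4c_card, Finset.mul_sum]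
  rw [Finset.sum_comm]
  exact Finset.sum_congr rfl fun c _ => c4c_E1 p hs c

private theorem c4c_two {α : Type*} [Fintype α] [DecidableEq α] (p : α → ℝ)
    (hp : ∀ c, 0 ≤ p c) (hs : ∑ c, p c = 1) (c c' : α) (hcc : c ≠ c') : p c + p c' ≤ 1 := by
  rw [← hs, ← Finset.sum_pair hcc]
  exact Finset.sum_le_sum_of_subset_of_nonneg (Finset.subset_univ _) fun i _ _ => hp i

private theorem c4c_sq {ι α : Type*} [Fintype ι] [DecidableEq ι] [Fintype α] [DecidableEq α] (p : α → ℝ)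
    (hp : ∀ c, 0 ≤ p c) (hs : ∑ c, p c = 1) :
    ∑ s : ι → α, (∏ i, p (s i)) * (((univ.image s)ᶜ : Finset α).card : ℝ) ^ 2 ≤
      (∑ c, (1 - p c) ^ Fintype.card ι) + (∑ c, (1 - p c) ^ Fintype.card ι) ^ 2 := by
  have h1 : ∀ c, 0 ≤ 1 - p c := by
    intro c
    have : p c ≤ ∑ c, p c := Finset.single_le_sum (fun i _ => hp i) (Finset.mem_univ c)
    linarith
  set F : α → (ι → α) → ℝ := fun c s => ∏ i, (if s i = c then (0 : ℝ) else 1) with hF
  have hFF : ∀ c s, F c s * F c s = F c s := by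
    intro c s
    simp only [hF]
    rw [← c4c_ind]
    split_ifs <;> ring
  have e1 : ∑ s : ι → α, (∏ i, p (s i)) * (((univ.image s)ᶜ : Finset α).card : ℝ) ^ 2 =
      ∑ c, ∑ c', ∑ s : ι → α, (∏ i, p (s i)) * (F c s * F c' s) := by
    simp_rw [c4c_card, pow_two, Finset.sum_mul_sum, Finset.mul_sum]
    rw [Finset.sum_comm]
    refine Finset.sum_congr rfl fun c _ => ?_
    rw [Finset.sum_comm]
  rw [e1, pow_two, Finset.sum_mul_sum, ← Finset.sum_add_distrib]
  refine Finset.sum_le_sum fun c _ => ?_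
  rw [← Finset.add_sum_erase _ _ (Finset.mem_univ c)]
  have e2 : ∑ s : ι → α, (∏ i, p (s i)) * (F c s * F c s) = (1 - p c) ^ Fintype.card ι := by
    simp_rw [hFF]
    exact c4c_E1 p hs c
  rw [e2]
  refine add_le_add le_rfl ?_
  calc ∑ c' ∈ univ.erase c, ∑ s : ι → α, (∏ i, p (s i)) * (F c s * F c' s)
      = ∑ c' ∈ univ.erase c, (1 - p c - p c') ^ Fintype.card ι := by
        refine Finset.sum_congr rfl fun c' hc' => ?_
        exact c4c_E2 p hs c c' (Finset.ne_of_mem_erase hc').symm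
    _ ≤ ∑ c' ∈ univ.erase c, (1 - p c) ^ Fintype.card ι * (1 - p c') ^ Fintype.card ι := by
        refine Finset.sum_le_sum fun c' hc' => ?_
        rw [← mul_pow]
        have h2 := c4c_two p hp hs c c' (Finset.ne_of_mem_erase hc').symm
        refine pow_le_pow_left₀ (by linarith) ?_ _
        nlinarith [mul_nonneg (hp c) (hp c')]
    _ ≤ ∑ c', (1 - p c) ^ Fintype.card ι * (1 - p c') ^ Fintype.card ι := by
        refine Finset.sum_le_sum_of_subset_of_nonneg (Finset.subset_univ _) fun i _ _ => ?_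
        exact mul_nonneg (pow_nonneg (h1 c) _) (pow_nonneg (h1 i) _)

private theorem c4c_var {ι α : Type*} [Fintype ι] [DecidableEq ι] [Fintype α] [DecidableEq α] (p : α → ℝ)
    (hp : ∀ c, 0 ≤ p c) (hs : ∑ c, p c = 1) (μ : ℝ) (hμ : μ = ∑ c, (1 - p c) ^ Fintype.card ι) :
    ∑ s : ι → α, (∏ i, p (s i)) * ((((univ.image s)ᶜ : Finset α).card : ℝ) - μ) ^ 2 ≤ μ := by
  have hone : ∑ s : ι → α, (∏ i, p (s i)) = 1 := by
    have := c4c_prod (ι := ι) p (fun _ => 1)
    simpa [hs] using this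
  have hm := c4c_mean (ι := ι) p hs
  have h2 := c4c_sq (ι := ι) p hp hs
  rw [← hμ] at hm h2
  have : ∑ s : ι → α, (∏ i, p (s i)) * ((((univ.image s)ᶜ : Finset α).card : ℝ) - μ) ^ 2 =
      ∑ s : ι → α, (∏ i, p (s i)) * (((univ.image s)ᶜ : Finset α).card : ℝ) ^ 2 -
        2 * μ * ∑ s : ι → α, (∏ i, p (s i)) * (((univ.image s)ᶜ : Finset α).card : ℝ) +
          μ ^ 2 * ∑ s : ι → α, (∏ i, p (s i)) := by
    rw [Finset.mul_sum, Finset.mul_sum, ← Finset.sum_sub_distrib, ← Finset.sum_add_distrib]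
    exact Finset.sum_congr rfl fun s _ => by ring
  rw [this, hm, hone]
  nlinarith


private theorem c4c_log {ι α : Type*} [Fintype ι] [DecidableEq ι] [Fintype α] [DecidableEq α] (p : α → ℝ)
    (hp : ∀ c, 0 ≤ p c) (hs : ∑ c, p c = 1) (l : α) (hl : p l = 0) (μ : ℝ)
    (hμ : μ = ∑ c, (1 - p c) ^ Fintype.card ι) (hμ2 : 2 ≤ μ) (t : ℝ) (ht : 0 < t) :
    Real.log μ - t - (1 / t + 4 * Real.log μ) / μ ≤
      ∑ s : ι → α, (∏ i, p (s i)) * Real.log (((univ.image s)ᶜ : Finset α).card) := by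
  have hone : ∑ s : ι → α, (∏ i, p (s i)) = 1 := by
    have := c4c_prod (ι := ι) p (fun _ => 1)
    simpa [hs] using this
  have hvar := c4c_var (ι := ι) p hp hs μ hμ
  have hμ0 : 0 < μ := by linarith
  have hlog : 0 ≤ Real.log μ := Real.log_nonneg (by linarith)
  set K : ℝ := (1 / t + 4 * Real.log μ) / μ ^ 2 with hK
  have hK0 : 0 ≤ K := by positivity
  have hpt : ∀ s : ι → α, (∏ i, p (s i)) * (Real.log μ - t - K * ((((univ.image s)ᶜ : Finset α).card : ℝ) - μ) ^ 2) ≤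
      (∏ i, p (s i)) * Real.log (((univ.image s)ᶜ : Finset α).card) := by
    intro s
    by_cases h0 : (∏ i, p (s i)) = 0
    · rw [h0]; simp
    · refine mul_le_mul_of_nonneg_left ?_ (Finset.prod_nonneg fun i _ => hp _)
      have hcard : (1 : ℝ) ≤ (((univ.image s)ᶜ : Finset α).card : ℝ) := by
        have : 0 < ((univ.image s)ᶜ : Finset α).card := by
          refine Finset.card_pos.2 ⟨l, ?_⟩
          rw [Finset.mem_compl]
          intro hmem
          obtain ⟨i, _, hi⟩ := Finset.mem_image.1 hmem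
          exact h0 (Finset.prod_eq_zero (Finset.mem_univ i) (by rw [hi, hl]))
        exact_mod_cast this
      generalize (((univ.image s)ᶜ : Finset α).card : ℝ) = x at hcard ⊢
      have h1 := log_lower x μ hcard hμ2
      refine le_trans ?_ h1
      have h2 : 2 * |x - μ| / μ ≤ t + (1 / t) * (x - μ) ^ 2 / μ ^ 2 := by
        have e1 : (1 / t) * (x - μ) ^ 2 / μ ^ 2 = (|x - μ| / μ) ^ 2 / t := by
          rw [div_pow, sq_abs]; field_simp
        rw [e1, mul_div_assoc]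
        set z := |x - μ| / μ
        have : 0 ≤ (z - t) ^ 2 / t := by positivity
        have e2 : (z - t) ^ 2 / t = z ^ 2 / t - 2 * z + t := by field_simp; ring
        rw [e2] at this
        linarith
      have h3 : K * (x - μ) ^ 2 = (1 / t) * (x - μ) ^ 2 / μ ^ 2 + 4 * Real.log μ * (x - μ) ^ 2 / μ ^ 2 := by
        rw [hK]; ring
      rw [h3]
      linarith
  have hsum := Finset.sum_le_sum fun s (_ : s ∈ (univ : Finset (ι → α))) => hpt s
  refine le_trans ?_ hsum
  have e : ∑ s : ι → α, (∏ i, p (s i)) * (Real.log μ - t - K * ((((univ.image s)ᶜ : Finset α).card : ℝ) - μ) ^ 2) =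
      (Real.log μ - t) * (∑ s : ι → α, (∏ i, p (s i))) -
        K * ∑ s : ι → α, (∏ i, p (s i)) * ((((univ.image s)ᶜ : Finset α).card : ℝ) - μ) ^ 2 := by
    rw [Finset.mul_sum, Finset.mul_sum, ← Finset.sum_sub_distrib]
    exact Finset.sum_congr rfl fun s _ => by ring
  rw [e, hone]
  have h4 : K * (∑ s : ι → α, (∏ i, p (s i)) * ((((univ.image s)ᶜ : Finset α).card : ℝ) - μ) ^ 2) ≤ K * μ :=
    mul_le_mul_of_nonneg_left hvar hK0
  have h5 : K * μ = (1 / t + 4 * Real.log μ) / μ := by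
    rw [hK]; field_simp
  linarith

private noncomputable def c4c_pp (Q : ℕ) (m : ℝ) (c : ℕ) : ℝ :=
  if c < Q / 2 then (1 + m) / (2 * ((Q / 2 : ℕ) : ℝ)) else
    if c < Q then (1 - m) / (2 * ((Q - Q / 2 : ℕ) : ℝ)) else 0

private theorem c4c_sum (Q : ℕ) (m : ℝ) (F : ℝ → ℝ) :
    ∑ c : Fin (Q + 1), F (c4c_pp Q m c.val) = ((Q / 2 : ℕ) : ℝ) * F ((1 + m) / (2 * ((Q / 2 : ℕ) : ℝ))) +
      ((Q - Q / 2 : ℕ) : ℝ) * F ((1 - m) / (2 * ((Q - Q / 2 : ℕ) : ℝ))) + F 0 := by
  rw [Fin.sum_univ_castSucc]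
  have e0 : F (c4c_pp Q m (Fin.last Q).val) = F 0 := by
    rw [c4c_pp, if_neg (by simp only [Fin.val_last]; omega), if_neg (by simp)]
  rw [e0]
  congr 1
  have e1 : ∑ c : Fin Q, F (c4c_pp Q m (Fin.castSucc c).val) = ∑ c ∈ range Q, F (c4c_pp Q m c) := by
    rw [← Fin.sum_univ_eq_sum_range (fun c => F (c4c_pp Q m c)) Q]
    rfl
  rw [e1, ← Finset.sum_range_add_sum_Ico _ (Nat.div_le_self Q 2)]
  congr 1
  · rw [Finset.sum_congr rfl (g := fun _ => F ((1 + m) / (2 * ((Q / 2 : ℕ) : ℝ))))]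
    · rw [Finset.sum_const, Finset.card_range, nsmul_eq_mul]
    · intro c hc
      rw [c4c_pp, if_pos (Finset.mem_range.1 hc)]
  · rw [Finset.sum_congr rfl (g := fun _ => F ((1 - m) / (2 * ((Q - Q / 2 : ℕ) : ℝ))))]
    · rw [Finset.sum_const, Nat.card_Ico, nsmul_eq_mul]
    · intro c hc
      obtain ⟨h1, h2⟩ := Finset.mem_Ico.1 hc
      rw [c4c_pp, if_neg (by omega), if_pos h2]

private theorem c4c_exp (p : ℝ) (h0 : 0 ≤ p) (h1 : p ≤ 1 / 2) : Real.exp (-(p + 2 * p ^ 2)) ≤ 1 - p := by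
  have hpos : 0 < 1 - p := by linarith
  rw [← Real.le_log_iff_exp_le hpos]
  refine le_trans ?_ (Real.one_sub_inv_le_log_of_pos hpos)
  rw [show 1 - (1 - p)⁻¹ = -p / (1 - p) by field_simp; ring, le_div_iff₀ hpos]
  nlinarith [mul_nonneg h0 (mul_nonneg h0 (by linarith : 0 ≤ 1 - 2 * p))]

/-- one factor -/
private theorem c4c_pow (n : ℕ) (a q b H : ℝ) (hn : (n : ℝ) = a * q) (ha : 0 ≤ a) (hq : 12 ≤ q) (hb0 : 0 ≤ b)
    (hb : b ≤ 2) (hH : q - 2 ≤ 2 * H) :
    Real.exp (-(a * b)) * Real.exp (-(40 * a / q)) ≤ (1 - b / (2 * H)) ^ n := by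
  have hy : 0 < q - 2 := by linarith
  have hH0 : 0 < 2 * H := by linarith
  set p : ℝ := b / (2 * H) with hp
  have hp0 : 0 ≤ p := by positivity
  have hpy : p ≤ b / (q - 2) := div_le_div_of_nonneg_left hb0 hy hH
  have hpy2 : b / (q - 2) ≤ 1 / 2 := by
    rw [div_le_iff₀ hy]; linarith
  have h1 := c4c_exp p hp0 (hpy.trans hpy2)
  have h2 : Real.exp (-(p + 2 * p ^ 2)) ^ n ≤ (1 - p) ^ n := pow_le_pow_left₀ (Real.exp_nonneg _) h1 n
  refine le_trans ?_ h2
  rw [← Real.exp_nat_mul, ← Real.exp_add]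
  refine Real.exp_le_exp.2 ?_
  rw [hn]
  have h3 : p ≤ b / q + 4 * 1 / q ^ 2 * b := by
    refine hpy.trans ?_
    rw [div_le_iff₀ hy]
    have : (b / q + 4 * 1 / q ^ 2 * b) * (q - 2) = b + b * (2 * q - 8) / q ^ 2 := by
      field_simp; ring
    rw [this]
    have : 0 ≤ b * (2 * q - 8) / q ^ 2 := by
      have : 0 ≤ 2 * q - 8 := by linarith
      positivity
    linarith
  have h4 : p ^ 2 ≤ 16 / q ^ 2 := by
    have h5 : p ≤ 4 / q := by
      refine hpy.trans ?_
      rw [div_le_div_iff₀ hy (by linarith)]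
      nlinarith
    calc p ^ 2 ≤ (4 / q) ^ 2 := pow_le_pow_left₀ hp0 h5 2
      _ = 16 / q ^ 2 := by rw [div_pow]; norm_num
  have h6 : a * q * (p + 2 * p ^ 2) ≤ a * q * (b / q + 4 * 1 / q ^ 2 * b + 2 * (16 / q ^ 2)) := by
    refine mul_le_mul_of_nonneg_left ?_ (by positivity)
    linarith
  have h7 : a * q * (b / q + 4 * 1 / q ^ 2 * b + 2 * (16 / q ^ 2)) = a * b + a * (4 * b + 32) / q := by
    field_simp; ring
  have h8 : a * (4 * b + 32) / q ≤ 40 * a / q := by
    refine div_le_div_of_nonneg_right ?_ (by linarith)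
    nlinarith
  linarith

private theorem c4c_large (A κ δ : ℝ) (hκ : 0 < κ) (hδ : 0 < δ) : ∃ M : ℝ, 12 ≤ M ∧ ∀ x : ℝ, M ≤ x →
    8 / x + 40 * A / x + δ / 4 + (4 / δ + 4 * Real.log x) / (κ * x) ≤ δ ∧ 40 * A / x ≤ 1 ∧ 2 ≤ κ * x := by
  have t1 : Tendsto (fun x : ℝ => (8 + 40 * A) / x) atTop (nhds 0) := tendsto_const_nhds.div_atTop tendsto_id
  have t2 : Tendsto (fun x : ℝ => (4 / δ / κ) / x) atTop (nhds 0) := tendsto_const_nhds.div_atTop tendsto_id
  have t3 : Tendsto (fun x : ℝ => (4 / κ) * (Real.log x ^ 1 / (1 * x + 0))) atTop (nhds ((4 / κ) * 0)) :=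
    (Real.tendsto_pow_log_div_mul_add_atTop 1 0 1 one_ne_zero).const_mul _
  have t4 : Tendsto (fun x : ℝ => 40 * A / x) atTop (nhds 0) := tendsto_const_nhds.div_atTop tendsto_id
  rw [mul_zero] at t3
  have e1 := t1.eventually (gt_mem_nhds (show (0 : ℝ) < δ / 4 by positivity))
  have e2 := t2.eventually (gt_mem_nhds (show (0 : ℝ) < δ / 4 by positivity))
  have e3 := t3.eventually (gt_mem_nhds (show (0 : ℝ) < δ / 4 by positivity))
  have e4 := t4.eventually (gt_mem_nhds (show (0 : ℝ) < 1 by norm_num))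
  have e5 : ∀ᶠ x : ℝ in atTop, 2 / κ ≤ x := eventually_ge_atTop _
  obtain ⟨M, hM⟩ := eventually_atTop.1 (e1.and (e2.and (e3.and (e4.and e5))))
  refine ⟨max M 12, le_max_right _ _, fun x hx => ?_⟩
  obtain ⟨h1, h2, h3, h4, h5⟩ := hM x (le_trans (le_max_left _ _) hx)
  have hx12 : 12 ≤ x := le_trans (le_max_right _ _) hx
  have hx0 : 0 < x := by linarith
  refine ⟨?_, h4.le, ?_⟩
  · have e : 8 / x + 40 * A / x + δ / 4 + (4 / δ + 4 * Real.log x) / (κ * x) =
        (8 + 40 * A) / x + δ / 4 + (4 / δ / κ) / x + (4 / κ) * (Real.log x ^ 1 / (1 * x + 0)) := by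
      field_simp; ring
    rw [e]
    linarith
  · rw [div_le_iff₀ hκ] at h5
    linarith

/-- the explicit weights -/
private theorem c4c_core (Q d : ℕ) (a m q δ κ A : ℝ) (hq : q = (Q : ℝ) + 1) (ha : 0 ≤ a) (haA : a ≤ A)
    (hd : 2 * (d : ℝ) = a * q) (hm0 : 0 < m) (hm1 : m < 1) (hδ : 0 < δ) (hκ : κ = Real.exp (-1 - A) / 2)
    (hq12 : 12 ≤ q)
    (h1 : 8 / q + 40 * A / q + δ / 4 + (4 / δ + 4 * Real.log q) / (κ * q) ≤ δ) (h2 : 40 * A / q ≤ 1)
    (h3 : 2 ≤ κ * q) (hMF : MFE a m) :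
    ∃ p : Fin (Q + 1) → ℝ, (∀ c, 0 ≤ p c) ∧ ∑ c, p c = 1 ∧ p (Fin.last Q) = 0 ∧
      2 * Real.log q + Phi a m - δ ≤
        (∑ s : Stp d → Fin (Q + 1), (∏ σ, p (s σ)) * Real.log (((univ.image s)ᶜ : Finset (Fin (Q + 1))).card)) -
          ∑ c, p c * Real.log (p c) := by
  have hq0 : 0 < q := by linarith
  have hQ11 : (11 : ℝ) ≤ Q := by linarith
  have hQ11' : 11 ≤ Q := by exact_mod_cast hQ11
  have hH1n : Q ≤ 2 * (Q / 2) + 1 := by omega
  have hH2n : Q ≤ 2 * (Q - Q / 2) := by omega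
  have hHs : Q / 2 + (Q - Q / 2) = Q := by omega
  have hH1 : q - 2 ≤ 2 * ((Q / 2 : ℕ) : ℝ) := by
    have : (Q : ℝ) ≤ 2 * ((Q / 2 : ℕ) : ℝ) + 1 := by exact_mod_cast hH1n
    linarith
  have hH2 : q - 2 ≤ 2 * ((Q - Q / 2 : ℕ) : ℝ) := by
    have : (Q : ℝ) ≤ 2 * ((Q - Q / 2 : ℕ) : ℝ) := by exact_mod_cast hH2n
    linarith
  have hH1p : 0 < ((Q / 2 : ℕ) : ℝ) := by linarith
  have hH2p : 0 < ((Q - Q / 2 : ℕ) : ℝ) := by linarith
  have hsum := c4c_sum Q m
  set H1 : ℝ := ((Q / 2 : ℕ) : ℝ) with hH1def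
  set H2 : ℝ := ((Q - Q / 2 : ℕ) : ℝ) with hH2def
  set p : Fin (Q + 1) → ℝ := fun c => c4c_pp Q m c.val with hpdef
  have hp : ∀ c, 0 ≤ p c := by
    intro c
    simp only [hpdef, c4c_pp]
    split_ifs
    · positivity
    · exact div_nonneg (by linarith) (by positivity)
    · exact le_rfl
  have hs : ∑ c, p c = 1 := by
    have := hsum (fun x => x)
    simp only [hpdef]
    rw [this]
    field_simp
    ring
  have hlast : p (Fin.last Q) = 0 := by
    simp only [hpdef, c4c_pp, Fin.val_last]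
    rw [if_neg (by omega), if_neg (by omega)]
  refine ⟨p, hp, hs, hlast, ?_⟩
  -- the number of steps
  have hcard : (Fintype.card (Stp d) : ℝ) = a * q := by
    rw [Fintype.card_prod, Fintype.card_fin, Fintype.card_bool]
    push_cast
    linarith
  -- the mean
  set n : ℕ := Fintype.card (Stp d) with hn
  set μ : ℝ := ∑ c, (1 - p c) ^ n with hμ
  have hμe : μ = H1 * (1 - (1 + m) / (2 * H1)) ^ n + H2 * (1 - (1 - m) / (2 * H2)) ^ n + (1 - 0) ^ n := by
    have := hsum (fun x => (1 - x) ^ n)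
    rw [hμ]
    exact this
  have hals : 0 < als a m := als_pos a m
  have halsb := als_bounds a m ha (abs_le.2 ⟨by linarith, by linarith⟩)
  have hb1 := c4c_pow n a q (1 + m) H1 hcard ha hq12 (by linarith) (by linarith) hH1
  have hb2 := c4c_pow n a q (1 - m) H2 hcard ha hq12 (by linarith) (by linarith) hH2
  have halse : als a m = (Real.exp (-(a * (1 + m))) + Real.exp (-(a * (1 - m)))) / 2 := by
    rw [als, Real.cosh_eq, show -(a * (1 + m)) = -a + -(a * m) by ring, show -(a * (1 - m)) = -a + a * m by ring,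
      Real.exp_add, Real.exp_add]
    ring
  have hθ : Real.exp (-(40 * A / q)) ≤ Real.exp (-(40 * a / q)) := by
    refine Real.exp_le_exp.2 (neg_le_neg ?_)
    exact div_le_div_of_nonneg_right (by linarith) hq0.le
  have hμlow : (q - 2) * (Real.exp (-(40 * A / q)) * als a m) ≤ μ := by
    have g1 : (q - 2) / 2 * (Real.exp (-(a * (1 + m))) * Real.exp (-(40 * a / q))) ≤
        H1 * (1 - (1 + m) / (2 * H1)) ^ n := by
      refine mul_le_mul (by linarith) hb1 (by positivity) (by positivity)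
    have g2 : (q - 2) / 2 * (Real.exp (-(a * (1 - m))) * Real.exp (-(40 * a / q))) ≤
        H2 * (1 - (1 - m) / (2 * H2)) ^ n := by
      refine mul_le_mul (by linarith) hb2 (by positivity) (by positivity)
    have g3 : (q - 2) * (Real.exp (-(40 * A / q)) * als a m) ≤ (q - 2) * (Real.exp (-(40 * a / q)) * als a m) :=
      mul_le_mul_of_nonneg_left (mul_le_mul_of_nonneg_right hθ hals.le) (by linarith)
    have g4 : (q - 2) * (Real.exp (-(40 * a / q)) * als a m) =
        (q - 2) / 2 * (Real.exp (-(a * (1 + m))) * Real.exp (-(40 * a / q))) +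
          (q - 2) / 2 * (Real.exp (-(a * (1 - m))) * Real.exp (-(40 * a / q))) := by
      rw [halse]; ring
    have g5 : (0 : ℝ) ≤ (1 - 0) ^ n := pow_nonneg (by norm_num) n
    rw [hμe]
    calc (q - 2) * (Real.exp (-(40 * A / q)) * als a m) ≤ _ := g3
      _ = _ := g4
      _ ≤ H1 * (1 - (1 + m) / (2 * H1)) ^ n + H2 * (1 - (1 - m) / (2 * H2)) ^ n := add_le_add g1 g2
      _ ≤ _ := le_add_of_nonneg_right g5
  have hμκ : κ * q ≤ μ := by
    refine le_trans ?_ hμlow
    have k1 : Real.exp (-1) ≤ Real.exp (-(40 * A / q)) := Real.exp_le_exp.2 (by linarith)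
    have k2 : Real.exp (-A) ≤ als a m := le_trans (Real.exp_le_exp.2 (by linarith)) halsb.1
    have k3 : Real.exp (-1 - A) ≤ Real.exp (-(40 * A / q)) * als a m := by
      rw [show -1 - A = -1 + -A by ring, Real.exp_add]
      exact mul_le_mul k1 k2 (Real.exp_nonneg _) (Real.exp_nonneg _)
    calc κ * q = (q / 2) * Real.exp (-1 - A) := by rw [hκ]; ring
      _ ≤ (q - 2) * (Real.exp (-(40 * A / q)) * als a m) := by
        refine mul_le_mul (by linarith) k3 (Real.exp_nonneg _) (by linarith)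
  have hμ2 : 2 ≤ μ := h3.trans hμκ
  have hμ0 : 0 < μ := by linarith
  have hμq : μ ≤ q := by
    have : μ ≤ ∑ c : Fin (Q + 1), (1 : ℝ) := by
      rw [hμ]
      refine Finset.sum_le_sum fun c _ => ?_
      have hc1 : p c ≤ ∑ c, p c := Finset.single_le_sum (fun i _ => hp i) (Finset.mem_univ c)
      exact pow_le_one₀ (by linarith) (by linarith [hp c])
    rw [Finset.sum_const, Finset.card_univ, Fintype.card_fin, nsmul_eq_mul, mul_one] at this
    push_cast at this
    linarith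
  have hlogE := c4c_log (ι := Stp d) p hp hs (Fin.last Q) hlast μ hμ hμ2 (δ / 4) (by positivity)
  -- logarithms
  have hy : 0 < q - 2 := by linarith
  have hlogy : Real.log q - 4 / q ≤ Real.log (q - 2) := by
    have := Real.log_le_sub_one_of_pos (show 0 < q / (q - 2) by positivity)
    rw [Real.log_div hq0.ne' hy.ne'] at this
    have e : q / (q - 2) - 1 ≤ 4 / q := by
      rw [show q / (q - 2) - 1 = 2 / (q - 2) by field_simp; ring, div_le_div_iff₀ hy hq0]
      linarith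
    linarith
  have hlogμ : Real.log (q - 2) - 40 * A / q + Real.log (als a m) ≤ Real.log μ := by
    have := Real.log_le_log (by positivity) hμlow
    rw [Real.log_mul hy.ne' (by positivity), Real.log_mul (by positivity) hals.ne', Real.log_exp] at this
    linarith
  have herr : (1 / (δ / 4) + 4 * Real.log μ) / μ ≤ (4 / δ + 4 * Real.log q) / (κ * q) := by
    have k1 : 1 / (δ / 4) = 4 / δ := by field_simp
    rw [k1]
    have k2 : Real.log μ ≤ Real.log q := Real.log_le_log hμ0 hμq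
    have k3 : 0 ≤ Real.log q := Real.log_nonneg (by linarith)
    exact div_le_div₀ (by positivity) (by linarith) (by linarith) hμκ
  -- the entropy
  have hent : Real.log (q - 2) - ((1 + m) * Real.log (1 + m) + (1 - m) * Real.log (1 - m)) / 2 ≤
      -∑ c, p c * Real.log (p c) := by
    have e := hsum (fun x => x * Real.log x)
    have e' : ∑ c, p c * Real.log (p c) = H1 * ((1 + m) / (2 * H1) * Real.log ((1 + m) / (2 * H1))) +
        H2 * ((1 - m) / (2 * H2) * Real.log ((1 - m) / (2 * H2))) + 0 * Real.log 0 := e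
    rw [e', Real.log_div (by linarith) (by positivity), Real.log_div (by linarith) (by positivity)]
    have f1 : H1 * ((1 + m) / (2 * H1) * (Real.log (1 + m) - Real.log (2 * H1))) =
        (1 + m) / 2 * (Real.log (1 + m) - Real.log (2 * H1)) := by
      field_simp
    have f2 : H2 * ((1 - m) / (2 * H2) * (Real.log (1 - m) - Real.log (2 * H2))) =
        (1 - m) / 2 * (Real.log (1 - m) - Real.log (2 * H2)) := by
      field_simp
    rw [f1, f2]
    have l1 : Real.log (q - 2) ≤ Real.log (2 * H1) := Real.log_le_log hy hH1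
    have l2 : Real.log (q - 2) ≤ Real.log (2 * H2) := Real.log_le_log hy hH2
    have m1 : (1 + m) / 2 * Real.log (q - 2) ≤ (1 + m) / 2 * Real.log (2 * H1) :=
      mul_le_mul_of_nonneg_left l1 (by linarith)
    have m2 : (1 - m) / 2 * Real.log (q - 2) ≤ (1 - m) / 2 * Real.log (2 * H2) :=
      mul_le_mul_of_nonneg_left l2 (by linarith)
    have m3 : Real.log (q - 2) = (1 + m) / 2 * Real.log (q - 2) + (1 - m) / 2 * Real.log (q - 2) := by ring
    linarith
  have hphi := phi_eq a m hMF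
  have hfin : 8 / q = 4 / q + 4 / q := by ring
  rw [hphi]
  linarith

/-- one site -/
theorem one_site {ε : ℝ} (hε : 0 < ε) (hε1 : ε ≤ 1) (δ : ℝ) (hδ : 0 < δ) : EvT ε fun d _ q => ∀ m : ℝ, MFE (ra d q) m →
    ∃ (Q : ℕ) (p : Fin (Q + 1) → ℝ), q = Q + 1 ∧ (∀ c, 0 ≤ p c) ∧ ∑ c, p c = 1 ∧ p (Fin.last Q) = 0 ∧
      2 * Real.log q + Phi (ra d q) m - δ ≤
        (∑ s : Stp d → Fin (Q + 1), (∏ σ, p (s σ)) * Real.log (((univ.image s)ᶜ : Finset (Fin (Q + 1))).card)) -
          ∑ c, p c * Real.log (p c) := by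
  obtain ⟨M, hM12, hM⟩ := c4c_large (A0 ε) (Real.exp (-1 - A0 ε) / 2) δ (by positivity) hδ
  refine (EvT_reg hε hε1 M).mono ?_
  rintro d k q ⟨_, hMq, _, _, _, ha1, haA, hdq⟩ m hMF
  obtain ⟨h1, h2, h3⟩ := hM q hMq
  have hq12 : (12 : ℝ) ≤ q := hM12.trans hMq
  have hq12' : 12 ≤ q := by exact_mod_cast hq12
  have ha0 : 0 ≤ ra d q := by
    rw [ra]; positivity
  obtain ⟨p, hp1, hp2, hp3, hp4⟩ := c4c_core (q - 1) d (ra d q) m q δ (Real.exp (-1 - A0 ε) / 2) (A0 ε)
    (by rw [Nat.cast_sub (by omega)]; push_cast; ring) ha0 haA hdq hMF.1 (mfe_lt _ _ hMF) hδ rfl hq12 h1 h2 h3 hMF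
  exact ⟨q - 1, p, by omega, hp1, hp2, hp3, hp4⟩

end Pool.Agent.THR
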