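import Pool.Agent.Lib_MP_2c424f_thr.A1
import Pool.Agent.Lib_MP_2c424f_thr.T1
import Pool.Agent.Lib_MP_2c424f_thr.C4a
import Pool.Agent.Lib_MP_2c424f_thr.C4b
import Pool.Agent.Lib_MP_2c424f_thr.C4c

/-!
# THR C4: lower bound of the partition function (paper proof: C4)

`q = Q + 1`; the last colour is not used on the even sites.  Product measure on the even sites: `p_c = (1+m)/(2h)` for `c < h = ⌊Q/2⌋`,
`(1-m)/(2(Q-h))` for `h ≤ c < Q`, `0` for the last colour.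
* `gibbs`: for weights `p ≥ 0`, `∑ p = 1` and `F : Ω → ℝ` with values `≥ 1`: `log ∑_{ω, p ω > 0} F ω ≥ ∑ p ω log F ω - ∑ p ω log p ω` (Jensen).
* `Z ≥ ∑_{g : even sites → first Q colours} ∏_{v odd} x_v(g)`, `x_v ≥ 1` (the last colour is available).
* `-∑ p log p = ((1+m)/2) log (2h/(1+m)) + ((1-m)/2) log (2(Q-h)/(1-m)) ≥ log (Q-1) - ((1+m)log(1+m)+(1-m)log(1-m))/2`.
* `X` = number of colours not used by `2d` independent `p`-distributed colours: `E X ≥ ∑_c (1-p_c)^(2d) ≥ q (α* - C/q)`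
  (`(1-p)^(2d) ≥ exp (-2d(p+p²))`, `2d p_c` close to `a(1±m)`), variance `≤ 8 d` (bounded differences; Efron-Stein or `mcdiarmid`), and for `x ≥ 1`, `μ ≥ 2`:
  `log x ≥ log μ - 2|x-μ|/μ - 4 log μ (x-μ)²/μ²`.  So `E log X ≥ log (q α*) - δ`.
-/

set_option autoImplicit false

open Finset Filter

namespace Pool.Agent.THR

open Pool.Agent.LO Pool.Agent.LIN

theorem Z_lower {ε : ℝ} (hε : 0 < ε) (hε1 : ε ≤ 1) (δ : ℝ) (hδ : 0 < δ) : EvT ε fun d k q => ∀ m : ℝ, MFE (ra d q) m →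
    NN d k / 2 * (2 * Real.log q + Phi (ra d q) m) - δ * NN d k ≤ Real.log (ZZ d k q) := by
  refine ((one_site hε hε1 (2 * δ) (by linarith)).and (EvT_reg hε hε1 2)).mono ?_
  rintro d k q ⟨h1, h2, _, h3, _⟩ m hm
  have hd : 1 ≤ d := by
    have : 2 ≤ d := by exact_mod_cast h2
    omega
  have hk : 2 ≤ k := by exact_mod_cast h3
  have hN : 0 ≤ NN d k := by
    unfold NN
    positivity
  obtain ⟨Q, p, rfl, hp, hs, hl, hb⟩ := h1 m hm
  have hz := Z_product hd hk p hp hs hl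
  have hm2 := mul_le_mul_of_nonneg_left hb (by linarith : 0 ≤ NN d k / 2)
  refine le_trans (le_of_eq ?_) (hm2.trans hz)
  ring

end Pool.Agent.THR
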