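import Pool.Agent.Lib_MP_2c424f_thr.T2

/-!
# THR T2c: covariances (paper proof: T3)

* `cov_zz`: `z_v z_w = ∏ over the union of the neighbour sets of 1[f_u ≠ c]`; mean `∏_{u in union} (1 - p_u)`, `p_u = z_u / x_u`
  (`LIN.fm_prod`); `zt_v zt_w = ` the same times `∏_{common u} (1 - p_u)`; `1 - ∏ (1 - p) ≤ ∑ p`.
* `cmn_card` (side `≥ 8`): `σ - τ = w - v` determines `σ, τ` up to the exchange `(σ, opp τ)`.
* `not_nice`: union over the `2d` steps.
-/

set_option autoImplicit false

open Finset Filter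

namespace Pool.Agent.THR

open Pool.Agent.LO Pool.Agent.LIN

variable {d k q : ℕ}

/-- common neighbours -/
noncomputable def cmn (v w : Site d k) : Finset (Site d k) :=
  (univ.image fun σ : Stp d => v + sv σ) ∩ (univ.image fun σ : Stp d => w + sv σ)

/-- neighbours -/
private noncomputable def T2c_nb (v : Site d k) : Finset (Site d k) := univ.image fun σ : Stp d => v + sv σ

private theorem T2c_zz (h : Site d k → Fin q) (v : Site d k) (c : Fin q) :
    zz h v c = ∏ u ∈ T2c_nb v, (if h u = c then (0 : ℝ) else 1) := by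
  unfold zz SS T2c_nb
  by_cases hc : c ∈ univ.image fun σ : Stp d => h (v + sv σ)
  · rw [if_pos hc]
    obtain ⟨σ, -, hσ⟩ := mem_image.1 hc
    symm
    apply Finset.prod_eq_zero (mem_image_of_mem _ (mem_univ σ))
    exact if_pos hσ
  · rw [if_neg hc]
    refine (Finset.prod_eq_one fun u hu => if_neg fun hσ => hc ?_).symm
    obtain ⟨σ, -, rfl⟩ := mem_image.1 hu
    exact mem_image.2 ⟨σ, mem_univ σ, hσ⟩

private theorem T2c_union (h : Site d k → Fin q) (v w : Site d k) (c : Fin q) :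
    zz h v c * zz h w c = ∏ u ∈ T2c_nb v ∪ T2c_nb w, (if h u = c then (0 : ℝ) else 1) := by
  rw [T2c_zz, T2c_zz]
  by_cases hc : ∃ u ∈ T2c_nb v ∪ T2c_nb w, h u = c
  · obtain ⟨u, hu, huc⟩ := hc
    have h0 : ∀ S : Finset (Site d k), u ∈ S → ∏ j ∈ S, (if h j = c then (0 : ℝ) else 1) = 0 :=
      fun S hS => prod_eq_zero hS (if_pos huc)
    rw [h0 _ hu]
    rcases mem_union.1 hu with hu | hu
    · rw [h0 _ hu, zero_mul]
    · rw [mul_comm, h0 _ hu, zero_mul]
  · have h1 : ∀ S : Finset (Site d k), S ⊆ T2c_nb v ∪ T2c_nb w →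
        ∏ j ∈ S, (if h j = c then (0 : ℝ) else 1) = 1 :=
      fun S hS => prod_eq_one fun j hj => if_neg fun hjc => hc ⟨j, hS hj, hjc⟩
    rw [h1 _ subset_rfl, h1 _ subset_union_left, h1 _ subset_union_right, mul_one]

/-- mean of a product of indicators of other colours -/
theorem T2c_mean (hk : 1 ≤ k) (b : Bool) {f : Site d k → Fin q} (hf : Prp f) (U : Finset (Site d k))
    (hU : U ⊆ cls b d k) (c : Fin q) :
    fm b (fun h => ∏ u ∈ U, (if h u = c then (0 : ℝ) else 1)) f = ∏ u ∈ U, (1 - zz f u c / (av f u : ℝ)) := by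
  refine (fm_prod hk b hf U hU
    (fun (_ : Site d k) (c' : Fin q) => if c' = c then (0 : ℝ) else 1)).trans ?_
  refine Finset.prod_congr rfl fun u _ => ?_
  have hcard : ((SS f u)ᶜ.card : ℝ) = av f u := by
    rw [Finset.card_compl, Fintype.card_fin]
    rfl
  have h3 : (∑ c' ∈ (SS f u)ᶜ, (if c' = c then (0 : ℝ) else 1)) = av f u - zz f u c := by
    have h4 : ∀ c' ∈ (SS f u)ᶜ, (if c' = c then (0 : ℝ) else 1) =
        1 - (if c' = c then (1 : ℝ) else 0) := by
      intro c' _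
      split_ifs <;> norm_num
    rw [Finset.sum_congr rfl h4, Finset.sum_sub_distrib, Finset.sum_const, nsmul_eq_mul, mul_one,
      hcard, Finset.sum_ite_eq']
    congr 1
    unfold zz
    by_cases hc : c ∈ SS f u
    · rw [if_neg (by simpa using hc), if_pos hc]
    · rw [if_pos (by simpa using hc), if_neg hc]
  have hav : (av f u : ℝ) ≠ 0 := by
    have h5 := av_pos hf u
    have h6 : (1 : ℝ) ≤ av f u := by exact_mod_cast h5
    linarith
  rw [h3, sub_div, div_self hav]

private theorem T2c_prod {ι : Type*} (s : Finset ι) (p : ι → ℝ) (h0 : ∀ i, 0 ≤ p i) (h1 : ∀ i, p i ≤ 1) :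
    0 ≤ ∏ i ∈ s, (1 - p i) ∧ ∏ i ∈ s, (1 - p i) ≤ 1 ∧ 1 - ∏ i ∈ s, (1 - p i) ≤ ∑ i ∈ s, p i := by
  classical
  induction s using Finset.induction_on with
  | empty => simp
  | insert a s ha ih =>
    obtain ⟨ih0, ih1, ih2⟩ := ih
    rw [prod_insert ha, sum_insert ha]
    have h2 := h0 a
    have h3 := h1 a
    refine ⟨mul_nonneg (by linarith) ih0, ?_, ?_⟩
    · nlinarith [mul_nonneg h2 ih0]
    · nlinarith [mul_nonneg h2 (sub_nonneg.2 ih1)]

private theorem T2c_zt (hk : 2 ≤ k) (f : Site d k → Fin q) (v : Site d k) (c : Fin q) :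
    zt f v c = ∏ u ∈ T2c_nb v, (1 - zz f u c / (av f u : ℝ)) := by
  unfold T2c_nb zt
  rw [prod_image fun σ _ σ' _ h => sv_inj hk (add_left_cancel h)]

theorem cov_zz (hk : 2 ≤ k) (b : Bool) {f : Site d k → Fin q} (hf : Prp f) (v w : Site d k) (hv : v ∈ cls b d k)
    (hw : w ∈ cls b d k) (c : Fin q) :
    zt f v c * zt f w c ≤ fm (!b) (fun h => zz h v c * zz h w c) f ∧
      fm (!b) (fun h => zz h v c * zz h w c) f ≤ zt f v c * zt f w c + ∑ u ∈ cmn v w, zz f u c / (av f u : ℝ) := by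
  have hstep : ∀ v ∈ cls b d k, T2c_nb v ⊆ cls (!b) d k := by
    intro v hv u hu
    obtain ⟨σ, -, rfl⟩ := mem_image.1 hu
    rw [mem_cls_step (by omega), Bool.not_not]
    exact hv
  have h1 : fm (!b) (fun h => zz h v c * zz h w c) f =
      ∏ u ∈ T2c_nb v ∪ T2c_nb w, (1 - zz f u c / (av f u : ℝ)) := by
    rw [show (fun h : Site d k → Fin q => zz h v c * zz h w c) =
      fun h => ∏ u ∈ T2c_nb v ∪ T2c_nb w, (if h u = c then (0 : ℝ) else 1) from
      funext fun h => T2c_union h v w c]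
    exact T2c_mean (by omega) (!b) hf _ (union_subset (hstep v hv) (hstep w hw)) c
  have h2 : zt f v c * zt f w c = (∏ u ∈ T2c_nb v ∪ T2c_nb w, (1 - zz f u c / (av f u : ℝ))) *
      ∏ u ∈ cmn v w, (1 - zz f u c / (av f u : ℝ)) := by
    rw [T2c_zt hk, T2c_zt hk]
    exact (prod_union_inter).symm
  have h3 := T2c_prod (T2c_nb v ∪ T2c_nb w) (fun u => zz f u c / (av f u : ℝ))
    (fun u => (zz_av_le hf u c).1) (fun u => (zz_av_le hf u c).2)
  have h4 := T2c_prod (cmn v w) (fun u => zz f u c / (av f u : ℝ))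
    (fun u => (zz_av_le hf u c).1) (fun u => (zz_av_le hf u c).2)
  rw [h1, h2]
  obtain ⟨h30, h31, -⟩ := h3
  obtain ⟨h40, h41, h42⟩ := h4
  constructor
  · nlinarith [mul_nonneg h30 (sub_nonneg.2 h41)]
  · nlinarith [mul_nonneg (sub_nonneg.2 h31) (sub_nonneg.2 h41)]

theorem cmn_card (hk : 3 ≤ k) (v w : Site d k) (h : v ≠ w) : (cmn v w).card ≤ 2 := by
  have h1 := two_steps (d := d) hk (w - v) (sub_ne_zero.2 (Ne.symm h))
  refine le_trans ?_ h1
  have hsub : cmn v w ⊆ (univ.filter fun p : Stp d × Stp d =>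
      (sv p.1 : Site d k) + sv p.2 = w - v).image fun p => v + sv p.1 := by
    intro u hu
    obtain ⟨h2, h3⟩ := mem_inter.1 hu
    obtain ⟨σ, -, rfl⟩ := mem_image.1 h2
    obtain ⟨τ, -, h4⟩ := mem_image.1 h3
    refine mem_image.2 ⟨(σ, (τ.1, !τ.2)), mem_filter.2 ⟨mem_univ _, ?_⟩, rfl⟩
    have h5 : (sv τ : Site d k) + sv (τ.1, !τ.2) = 0 := sv_opp τ.1 τ.2
    have h6 : (sv (τ.1, !τ.2) : Site d k) = - sv τ := eq_neg_of_add_eq_zero_right h5
    have h7 : (sv σ : Site d k) = w + sv τ - v := by rw [h4]; abel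
    show (sv σ : Site d k) + sv (τ.1, !τ.2) = w - v
    rw [h6, h7]
    abel
  exact (card_le_card hsub).trans card_image_le

open scoped Classical in
/-- number of sites which are not nice -/
theorem not_nice (ε : ℝ) (f : Site d k → Fin q) :
    ((univ.filter fun v : Site d k => ¬ Nc ε f v).card : ℝ) ≤ 2 * d * irr ε f := by
  have hsub : (univ.filter fun v : Site d k => ¬ Nc ε f v) ⊆
      (univ : Finset (Stp d)).biUnion fun σ => univ.filter fun v : Site d k => ¬ Rg ε f (v + sv σ) := by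
    intro v hv
    have h1 := (mem_filter.1 hv).2
    unfold Nc at h1
    rw [not_forall] at h1
    obtain ⟨σ, hσ⟩ := h1
    exact mem_biUnion.2 ⟨σ, mem_univ _, mem_filter.2 ⟨mem_univ _, hσ⟩⟩
  have hc : ∀ σ : Stp d, (univ.filter fun v : Site d k => ¬ Rg ε f (v + sv σ)).card =
      (univ.filter fun v : Site d k => (av f v : ℝ) < c1 ε * q).card := by
    intro σ
    refine card_bij (fun v _ => v + sv σ) ?_ ?_ ?_
    · intro v hv
      have h1 := (mem_filter.1 hv).2
      unfold Rg at h1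
      exact mem_filter.2 ⟨mem_univ _, not_le.1 h1⟩
    · intro v _ w _ hvw
      exact add_right_cancel hvw
    · intro u hu
      have h1 := (mem_filter.1 hu).2
      refine ⟨u - sv σ, mem_filter.2 ⟨mem_univ _, ?_⟩, sub_add_cancel _ _⟩
      unfold Rg
      rw [sub_add_cancel]
      exact not_le.2 h1
  have h1 : (univ.filter fun v : Site d k => ¬ Nc ε f v).card ≤
      2 * d * (univ.filter fun v : Site d k => (av f v : ℝ) < c1 ε * q).card := by
    refine (card_le_card hsub).trans (card_biUnion_le.trans ?_)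
    rw [sum_congr rfl fun σ _ => hc σ, sum_const, smul_eq_mul, card_univ, Fintype.card_prod,
      Fintype.card_fin, Fintype.card_bool, mul_comm d 2]
  unfold irr
  exact_mod_cast h1

end Pool.Agent.THR
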