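import Pool.Agent.Lib_MP_2c424f_thr.T0

/-!
# THR S4a: a union bound (paper proof: S4)

With `∂G = {v : some neighbour in G}`, `|∂G| ≤ 2d|G|`: for `0 < x ≤ 1`,
`1[M/2 ≤ |A|] 1[B|G| ≤ 4|A|] ≤ 2^(|A| - M/2) x^(|G| - 4|A|/B)`, so the sum over `A ⊆ ∂G` (weights `r^|A|`) is at most
`2^(-M/2) x^|G| (1+y)^(2d|G|)`, `y = 2 r x^(-4/B)`, and the sum over `G` is at most
`2^(-M/2) (1 + x e^(2dy))^N ≤ 2^(-M/2) exp (N x e^(2dy))`.
-/

set_option autoImplicit false

open Finset Filter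

namespace Pool.Agent.THR

open Pool.Agent.LO Pool.Agent.LIN

/-- sum of `a ^ |t|` over all subsets of `s` -/
private theorem S4a_powerset_sum {α : Type*} (s : Finset α) (a : ℝ) :
    ∑ t ∈ s.powerset, a ^ t.card = (1 + a) ^ s.card := by
  have h := Finset.sum_pow_mul_eq_add_pow a 1 s
  simp only [one_pow, mul_one] at h
  rw [h, add_comm]

open scoped Classical in
private theorem S4a_bdry {d k : ℕ} (G : Finset (Site d k)) :
    (univ.filter fun v : Site d k => ∃ σ : Stp d, v + sv σ ∈ G).card ≤ 2 * d * G.card := by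
  have hsub : (univ.filter fun v : Site d k => ∃ σ : Stp d, v + sv σ ∈ G) ⊆
      (G ×ˢ (univ : Finset (Stp d))).image fun p => p.1 - sv p.2 := by
    intro v hv
    obtain ⟨σ, hσ⟩ := (mem_filter.1 hv).2
    refine mem_image.2 ⟨(v + sv σ, σ), mem_product.2 ⟨hσ, mem_univ _⟩, ?_⟩
    simp
  refine (card_le_card hsub).trans (card_image_le.trans ?_)
  rw [card_product]
  have : (univ : Finset (Stp d)).card = d * 2 := by
    simp [Finset.card_univ, Fintype.card_prod]
  rw [this]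
  exact le_of_eq (by ring)

private theorem S4a_term {r x M : ℝ} {B a g : ℕ} (hB : 1 ≤ B) (hr : 0 ≤ r) (hx : 0 < x) (hx1 : x ≤ 1)
    (hM : M / 2 ≤ (a : ℝ)) (hg : (g : ℝ) * B ≤ 4 * a) :
    r ^ a ≤ (2 : ℝ) ^ (-(M / 2)) * (x ^ g * (2 * r * x ^ (-(4 / (B : ℝ)))) ^ a) := by
  have hB0 : (0 : ℝ) < B := by exact_mod_cast hB
  have h2 : (1 : ℝ) ≤ (2 : ℝ) ^ (-(M / 2)) * (2 : ℝ) ^ a := by
    rw [← Real.rpow_natCast, ← Real.rpow_add (by norm_num)]
    apply Real.one_le_rpow (by norm_num)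
    linarith
  have h3 : (1 : ℝ) ≤ x ^ g * (x ^ (-(4 / (B : ℝ)))) ^ a := by
    rw [← Real.rpow_natCast x g, ← Real.rpow_natCast (x ^ (-(4 / (B : ℝ)))) a, ← Real.rpow_mul hx.le,
      ← Real.rpow_add hx]
    apply Real.one_le_rpow_of_pos_of_le_one_of_nonpos hx hx1
    have : (g : ℝ) ≤ 4 / B * a := by
      rw [div_mul_eq_mul_div, le_div_iff₀ hB0]
      exact hg
    linarith
  have h4 : (2 : ℝ) ^ (-(M / 2)) * (x ^ g * (2 * r * x ^ (-(4 / (B : ℝ)))) ^ a) =
      r ^ a * (((2 : ℝ) ^ (-(M / 2)) * (2 : ℝ) ^ a) * (x ^ g * (x ^ (-(4 / (B : ℝ)))) ^ a)) := by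
    rw [mul_pow, mul_pow]
    ring
  rw [h4]
  have h5 : (1 : ℝ) ≤ ((2 : ℝ) ^ (-(M / 2)) * (2 : ℝ) ^ a) * (x ^ g * (x ^ (-(4 / (B : ℝ)))) ^ a) :=
    one_le_mul_of_one_le_of_one_le h2 h3
  exact le_mul_of_one_le_right (pow_nonneg hr a) h5

open scoped Classical in
theorem pair_sum {d k : ℕ} (hd : 1 ≤ d) (M r x : ℝ) (B : ℕ) (hB : 1 ≤ B) (hr : 0 ≤ r) (hx : 0 < x) (hx1 : x ≤ 1) :
    ∑ p ∈ (univ : Finset (Finset (Site d k) × Finset (Site d k))).filter (fun p =>
        (∀ v ∈ p.2, ∃ σ : Stp d, v + sv σ ∈ p.1) ∧ M / 2 ≤ (p.2.card : ℝ) ∧ (p.1.card : ℝ) * B ≤ 4 * p.2.card),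
      r ^ p.2.card ≤
      (2 : ℝ) ^ (-(M / 2)) * Real.exp (NN d k * (x * Real.exp (2 * d * (2 * r * x ^ (-(4 / (B : ℝ))))))) := by
  set y : ℝ := 2 * r * x ^ (-(4 / (B : ℝ))) with hy
  have hy0 : 0 ≤ y := mul_nonneg (mul_nonneg (by norm_num) hr) (Real.rpow_nonneg hx.le _)
  have h20 : (0 : ℝ) ≤ (2 : ℝ) ^ (-(M / 2)) := Real.rpow_nonneg (by norm_num) _
  set bd : Finset (Site d k) → Finset (Site d k) :=
    fun G => univ.filter fun v : Site d k => ∃ σ : Stp d, v + sv σ ∈ G with hbd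
  -- step 1: the weight of every pair
  have h1 : ∑ p ∈ (univ : Finset (Finset (Site d k) × Finset (Site d k))).filter (fun p =>
        (∀ v ∈ p.2, ∃ σ : Stp d, v + sv σ ∈ p.1) ∧ M / 2 ≤ (p.2.card : ℝ) ∧ (p.1.card : ℝ) * B ≤ 4 * p.2.card),
      r ^ p.2.card ≤
      ∑ p ∈ (univ : Finset (Finset (Site d k) × Finset (Site d k))).filter (fun p => p.2 ⊆ bd p.1),
        (2 : ℝ) ^ (-(M / 2)) * (x ^ p.1.card * y ^ p.2.card) := by
    refine (Finset.sum_le_sum (g := fun p => (2 : ℝ) ^ (-(M / 2)) * (x ^ p.1.card * y ^ p.2.card)) ?_).trans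
      (Finset.sum_le_sum_of_subset_of_nonneg ?_ ?_)
    · intro p hp
      obtain ⟨_, _, hM, hg⟩ := mem_filter.1 hp
      exact S4a_term hB hr hx hx1 hM hg
    · intro p hp
      obtain ⟨_, h, _, _⟩ := mem_filter.1 hp
      refine mem_filter.2 ⟨mem_univ _, fun v hv => mem_filter.2 ⟨mem_univ _, h v hv⟩⟩
    · intro p _ _
      exact mul_nonneg h20 (mul_nonneg (pow_nonneg hx.le _) (pow_nonneg hy0 _))
  refine h1.trans ?_
  rw [← Finset.mul_sum]
  refine mul_le_mul_of_nonneg_left ?_ h20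
  -- step 2: the sum over `A`
  have h2 : ∑ p ∈ (univ : Finset (Finset (Site d k) × Finset (Site d k))).filter (fun p => p.2 ⊆ bd p.1),
      x ^ p.1.card * y ^ p.2.card =
      ∑ G : Finset (Site d k), x ^ G.card * (1 + y) ^ (bd G).card := by
    rw [Finset.sum_filter, ← Finset.univ_product_univ, Finset.sum_product]
    refine Finset.sum_congr rfl fun G _ => ?_
    rw [← Finset.sum_filter]
    have : (univ.filter fun A : Finset (Site d k) => A ⊆ bd G) = (bd G).powerset := by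
      ext A
      simp
    simp only []
    rw [this, ← Finset.mul_sum, S4a_powerset_sum]
  rw [h2]
  -- step 3: the sum over `G`
  have h3 : ∀ G : Finset (Site d k), x ^ G.card * (1 + y) ^ (bd G).card ≤
      (x * Real.exp (2 * d * y)) ^ G.card := by
    intro G
    rw [mul_pow]
    refine mul_le_mul_of_nonneg_left ?_ (pow_nonneg hx.le _)
    calc (1 + y) ^ (bd G).card ≤ (1 + y) ^ (2 * d * G.card) :=
          pow_le_pow_right₀ (by linarith) (S4a_bdry G)
      _ = ((1 + y) ^ (2 * d)) ^ G.card := by rw [pow_mul]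
      _ ≤ (Real.exp (2 * d * y)) ^ G.card := by
          refine pow_le_pow_left₀ (pow_nonneg (by linarith) _) ?_ _
          calc (1 + y) ^ (2 * d) ≤ (Real.exp y) ^ (2 * d) :=
                pow_le_pow_left₀ (by linarith) (by linarith [Real.add_one_le_exp y]) _
            _ = Real.exp (2 * d * y) := by
                rw [← Real.exp_nat_mul]
                push_cast
                ring_nf
  have hcard : ((Fintype.card (Site d k) : ℕ) : ℝ) = NN d k := by
    rw [NN, Fintype.card_fun, ZMod.card, Fintype.card_fin]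
    push_cast
    rfl
  calc ∑ G : Finset (Site d k), x ^ G.card * (1 + y) ^ (bd G).card
      ≤ ∑ G : Finset (Site d k), (x * Real.exp (2 * d * y)) ^ G.card := Finset.sum_le_sum fun G _ => h3 G
    _ = (1 + x * Real.exp (2 * d * y)) ^ (Fintype.card (Site d k)) := by
        rw [← Finset.powerset_univ, S4a_powerset_sum, Finset.card_univ]
    _ ≤ (Real.exp (x * Real.exp (2 * d * y))) ^ (Fintype.card (Site d k)) := by
        refine pow_le_pow_left₀ (by positivity) ?_ _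
        linarith [Real.add_one_le_exp (x * Real.exp (2 * d * y))]
    _ = Real.exp (NN d k * (x * Real.exp (2 * d * y))) := by
        rw [← Real.exp_nat_mul, hcard]

end Pool.Agent.THR
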