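import Pool.Agent.Lib_MP_2c424f_thr.S1
import Pool.Agent.Lib_MP_2c424f_thr.S2
import Pool.Agent.Lib_MP_2c424f_thr.S3
import Pool.Agent.Lib_MP_2c424f_thr.S4a

/-!
# THR S4: few irregular sites (paper proof: S4 union bound, S5)

`pair_sum`: with `∂G = {v : some neighbour in G}`, `|∂G| ≤ 2d|G|`: for `0 < x ≤ 1`,
`1[M/2 ≤ |A|] 1[B|G| ≤ 4|A|] ≤ 2^(|A| - M/2) x^(|G| - 4|A|/B)`, so the sum over `A ⊆ ∂G` is at most
`2^(-M/2) x^|G| (1+y)^(2d|G|)`, `y = 2 r x^(-4/B)`, and the sum over `G` is at most `2^(-M/2) (1 + x e^(2dy))^N`.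
`fz_rare`: `cover`, `av_one` with `ν = 1/(100 d^K)`, `pair_sum` with `M = N/d^K`, `r = 9/q`, `x = d^(-K-1)`:
`x^(-4/B) ≤ 2` for `d` large as `B ≥ ρ d`, `y ≤ 36/q`, `2 d y ≤ 36 a ≤ 36 A0`, exponent
`ν - (log 2)/(2 d^K) + e^(36 A0)/d^(K+1) ≤ -1/(4 d^K)`.
(`EvT_reg`, `EvT_d` give `B ≥ 1`, `τ ≥ 3`; the union bound is over the pairs `(G, A)` of `pair_sum`.)
`avail`: off the rare events for `K+1`: `|Fz b f|, |Bd b f| ≤ N/d^(K+1)` for both classes (take for `b` the class with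
more frozen sites).  If `v` in the class `b` is not in `Bd b f` and `av f v < c1 q ≤ τ`, it has `≥ τ` frozen neighbours (`Vn_le`);
the number of such `v` is at most `(2d/τ) |Fz (!b) f| ≤ 4 A0 4^A0 N/d^(K+2)`.
-/

set_option autoImplicit false

open Finset Filter

namespace Pool.Agent.THR

open Pool.Agent.LO Pool.Agent.LIN

open scoped Classical in
/-- number of colourings with a pair of the family of `pair_sum` -/
private theorem S4_count {d k q : ℕ} (b : Bool) (E M : ℝ) (B : ℕ) (P : (Site d k → Fin q) → Prop) (hE : 0 ≤ E)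
    (hav : ∀ U : Finset (Site d k), U ⊆ cls b d k →
      (((prps d k q).filter fun f => ∀ v ∈ U, av f v = 1).card : ℝ) ≤ ZZ d k q * (9 / (q : ℝ)) ^ U.card * E)
    (hP : ∀ f ∈ prps d k q, P f → ∃ G A : Finset (Site d k), A ⊆ Fz b f ∧ (∀ v ∈ A, ∃ σ : Stp d, v + sv σ ∈ G) ∧
      M / 2 ≤ (A.card : ℝ) ∧ (G.card : ℝ) * B ≤ 4 * A.card) :
    (((prps d k q).filter P).card : ℝ) ≤ ZZ d k q * E *
      ∑ p ∈ (univ : Finset (Finset (Site d k) × Finset (Site d k))).filter (fun p =>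
        (∀ v ∈ p.2, ∃ σ : Stp d, v + sv σ ∈ p.1) ∧ M / 2 ≤ (p.2.card : ℝ) ∧ (p.1.card : ℝ) * B ≤ 4 * p.2.card),
      (9 / (q : ℝ)) ^ p.2.card := by
  have hZ : 0 ≤ ZZ d k q := by
    unfold ZZ
    positivity
  set Fam : Finset (Finset (Site d k) × Finset (Site d k)) :=
    (univ : Finset (Finset (Site d k) × Finset (Site d k))).filter (fun p =>
        (∀ v ∈ p.2, ∃ σ : Stp d, v + sv σ ∈ p.1) ∧ M / 2 ≤ (p.2.card : ℝ) ∧ (p.1.card : ℝ) * B ≤ 4 * p.2.card)
    with hFam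
  have h1 : (prps d k q).filter P ⊆ Fam.biUnion fun p =>
      (prps d k q).filter fun f => p.2 ⊆ cls b d k ∧ ∀ v ∈ p.2, av f v = 1 := by
    intro f hf
    rw [mem_filter] at hf
    obtain ⟨G, A, hA, hG, hM, hB⟩ := hP f hf.1 hf.2
    refine mem_biUnion.2 ⟨(G, A), ?_, ?_⟩
    · rw [hFam]
      exact mem_filter.2 ⟨mem_univ _, hG, hM, hB⟩
    · refine mem_filter.2 ⟨hf.1, ?_, ?_⟩
      · intro v hv
        have := hA hv
        unfold Fz at this
        exact (mem_filter.1 this).1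
      · intro v hv
        have := hA hv
        unfold Fz at this
        exact (mem_filter.1 this).2
  have h2 : (((prps d k q).filter P).card : ℝ) ≤
      ∑ p ∈ Fam, (((prps d k q).filter fun f => p.2 ⊆ cls b d k ∧ ∀ v ∈ p.2, av f v = 1).card : ℝ) := by
    exact_mod_cast (card_le_card h1).trans card_biUnion_le
  refine h2.trans ?_
  rw [mul_sum]
  refine sum_le_sum fun p _ => ?_
  by_cases hp : p.2 ⊆ cls b d k
  · have h3 := hav p.2 hp
    have h4 : ((prps d k q).filter fun f => p.2 ⊆ cls b d k ∧ ∀ v ∈ p.2, av f v = 1) =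
        (prps d k q).filter fun f => ∀ v ∈ p.2, av f v = 1 := by
      refine filter_congr fun f _ => ?_
      exact ⟨fun h => h.2, fun h => ⟨hp, h⟩⟩
    rw [h4]
    refine h3.trans (le_of_eq ?_)
    ring
  · have h4 : ((prps d k q).filter fun f => p.2 ⊆ cls b d k ∧ ∀ v ∈ p.2, av f v = 1) = ∅ := by
      refine filter_false_of_mem fun f _ h => hp h.1
    rw [h4, card_empty, Nat.cast_zero]
    positivity

/-- the numbers -/
private theorem S4_num {N κ D e x l : ℝ} (hN : 0 ≤ N) (hκ : 0 ≤ κ) (hD : 0 < D) (hx : x = κ / D) (he : 4 * (e + 1) ≤ D)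
    (hl : 0.69 ≤ l) : κ / 100 * N - κ * N / 2 * l + N * (x * e) ≤ -(N * x) := by
  have h1 : (e + 1) / D ≤ 1 / 4 := by
    rw [div_le_div_iff₀ hD (by norm_num)]
    linarith
  have h2 : x * e + x ≤ κ * (1 / 4) := by
    have h3 : x * e + x = κ * ((e + 1) / D) := by
      rw [hx]
      field_simp
    rw [h3]
    exact mul_le_mul_of_nonneg_left h1 hκ
  have h4 : N * (x * e + x) ≤ N * (κ * (1 / 4)) := mul_le_mul_of_nonneg_left h2 hN
  have h5 : 0.69 * (κ * N) ≤ l * (κ * N) := mul_le_mul_of_nonneg_right hl (mul_nonneg hκ hN)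
  nlinarith [mul_nonneg hκ hN]

private theorem S4_floor {t ρ D : ℝ} (h : 1 ≤ t) (h1 : 2 * (ρ * D) ≤ t) : ρ * D ≤ (⌊t⌋₊ : ℝ) := by
  have h2 := Nat.lt_floor_add_one t
  have h3 : (1 : ℝ) ≤ (⌊t⌋₊ : ℝ) := by
    have : 1 ≤ ⌊t⌋₊ := Nat.le_floor (by exact_mod_cast h)
    exact_mod_cast this
  linarith

private theorem S4_x {D ρ B : ℝ} {K : ℕ} (hD : 1 ≤ D) (hρ : 0 < ρ) (hB : ρ * D ≤ B)
    (hlog : 4 * (K + 1) * Real.log D ≤ Real.log 2 * (ρ * D)) :
    ((1 / D ^ (K + 1)) : ℝ) ^ (-(4 / B)) ≤ 2 := by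
  have hD0 : 0 < D := by linarith
  have hB0 : 0 < B := lt_of_lt_of_le (mul_pos hρ hD0) hB
  have h1 : ((1 / D ^ (K + 1)) : ℝ) ^ (-(4 / B)) = Real.exp (4 * (K + 1) * Real.log D / B) := by
    rw [Real.rpow_def_of_pos (by positivity), one_div, Real.log_inv, Real.log_pow]
    congr 1
    push_cast
    ring
  rw [h1, ← Real.exp_log (show (0 : ℝ) < 2 by norm_num), Real.exp_le_exp, div_le_iff₀ hB0]
  have h2 : Real.log 2 * (ρ * D) ≤ Real.log 2 * B :=
    mul_le_mul_of_nonneg_left hB (Real.log_nonneg (by norm_num))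
  linarith

private theorem S4_ev (K : ℕ) {ρ : ℝ} (hρ : 0 < ρ) (e : ℝ) :
    ∀ᶠ d : ℕ in atTop, 4 * ((K : ℝ) + 1) * Real.log d ≤ Real.log 2 * (ρ * d) ∧ e ≤ d ∧ 1 ≤ ρ * d := by
  have hl2 : 0 < Real.log 2 := Real.log_pos (by norm_num)
  have h1 : Tendsto (fun d : ℕ => (d : ℝ)) atTop atTop := tendsto_natCast_atTop_atTop
  have h2 : ∀ᶠ x : ℝ in atTop, ‖Real.log x‖ ≤ Real.log 2 * ρ / (4 * ((K : ℝ) + 1)) * ‖x‖ :=
    (Real.isLittleO_log_id_atTop.def (by positivity))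
  have h3 := h1.eventually h2
  have h4 : ∀ᶠ d : ℕ in atTop, 1 / ρ ≤ (d : ℝ) := h1.eventually (eventually_ge_atTop _)
  have h5 : ∀ᶠ d : ℕ in atTop, e ≤ (d : ℝ) := h1.eventually (eventually_ge_atTop _)
  filter_upwards [h3, h4, h5] with d hd1 hd2 hd3
  refine ⟨?_, hd3, ?_⟩
  · have h6 : Real.log d ≤ Real.log 2 * ρ / (4 * ((K : ℝ) + 1)) * d := by
      have h7 := (le_abs_self (Real.log (d : ℝ))).trans hd1
      rw [Real.norm_eq_abs, abs_of_nonneg (Nat.cast_nonneg d)] at h7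
      exact h7
    have h8 := mul_le_mul_of_nonneg_left h6 (show (0 : ℝ) ≤ 4 * ((K : ℝ) + 1) by positivity)
    refine h8.trans (le_of_eq ?_)
    field_simp
  · rw [div_le_iff₀ hρ] at hd2
    linarith

private theorem S4_rare {ε : ℝ} (hε : 0 < ε) (hε1 : ε ≤ 1) (K : ℕ) :
    WOPi ε (fun _ _ _ => Bool) fun d k q b f =>
      (∀ b' : Bool, ((Bd b' f).card : ℝ) ≤ NN d k / (d : ℝ) ^ (K + 1)) → (Fz (!b) f).card ≤ (Fz b f).card →
        ((Fz b f).card : ℝ) ≤ NN d k / (d : ℝ) ^ K := by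
  classical
  have h40 : (0 : ℝ) < (4 : ℝ) ^ (-A0 ε) := by positivity
  obtain ⟨ρ, hρd⟩ : ∃ ρ : ℝ, ρ = ε * (4 : ℝ) ^ (-A0 ε) / 24 := ⟨_, rfl⟩
  have hρ : 0 < ρ := by rw [hρd]; positivity
  refine ⟨K + 1, (((av_one hε hε1 (fun d _ => 1 / ((d : ℝ) + 1) ^ K / 100) (fun d _ => by positivity)).and
    (EvT_reg hε hε1 8)).and (EvT_d (S4_ev K hρ (4 * (Real.exp (36 * A0 ε) + 1))))).mono ?_⟩
  rintro d k q ⟨⟨hav, hd8, hq8, hk8, hqd, -, -, hra, h2d⟩, hlog, he, hρ1⟩ b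
  have hd : 8 ≤ d := by exact_mod_cast hd8
  have hk : 8 ≤ k := by exact_mod_cast hk8
  have hd0 : (0 : ℝ) < d := by linarith
  have hq0 : (0 : ℝ) < q := by linarith
  have hN : 0 < NN d k := by unfold NN; positivity
  have hZ : 0 ≤ ZZ d k q := by unfold ZZ; positivity
  obtain ⟨κ, hκd⟩ : ∃ κ : ℝ, κ = 1 / (d : ℝ) ^ K := ⟨_, rfl⟩
  have hκ : 0 < κ := by rw [hκd]; positivity
  obtain ⟨x, hxd⟩ : ∃ x : ℝ, x = 1 / (d : ℝ) ^ (K + 1) := ⟨_, rfl⟩
  have hx : 0 < x := by rw [hxd]; positivity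
  have hx1 : x ≤ 1 := by
    rw [hxd, div_le_one (by positivity)]
    exact one_le_pow₀ (by linarith)
  have hxκ : x = κ / d := by
    rw [hxd, hκd, pow_succ]
    field_simp
  have hNκ : NN d k / (d : ℝ) ^ K = κ * NN d k := by rw [hκd]; ring
  have hNx : NN d k / (d : ℝ) ^ (K + 1) = NN d k * x := by rw [hxd]; ring
  obtain ⟨B, hBd⟩ : ∃ B : ℕ, B = ⌊(q : ℝ) * (4 : ℝ) ^ (-ra d q) / 12⌋₊ := ⟨_, rfl⟩
  have hq4 : 2 * (ρ * d) ≤ (q : ℝ) * (4 : ℝ) ^ (-ra d q) / 12 := by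
    have h1 : (4 : ℝ) ^ (-A0 ε) ≤ (4 : ℝ) ^ (-ra d q) :=
      Real.rpow_le_rpow_of_exponent_le (by norm_num) (by linarith)
    have h2 : ε * d * (4 : ℝ) ^ (-A0 ε) ≤ q * (4 : ℝ) ^ (-ra d q) := mul_le_mul hqd h1 h40.le hq0.le
    rw [hρd]
    linarith
  have hB : ρ * d ≤ B := by
    rw [hBd]
    exact S4_floor (by linarith) hq4
  have hB1 : 1 ≤ B := by
    have : (1 : ℝ) ≤ B := by linarith
    exact_mod_cast this
  have hκN8 : NN d k * x ≤ κ * NN d k / 8 := by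
    rw [hxκ]
    have h1 : κ / d ≤ κ / 8 := div_le_div_of_nonneg_left hκ.le (by norm_num) hd8
    have h2 := mul_le_mul_of_nonneg_left h1 hN.le
    linarith
  have hcount := S4_count b (Real.exp (1 / ((d : ℝ) + 1) ^ K / 100 * NN d k)) (κ * NN d k) B
    (fun f => ¬ ((∀ b' : Bool, ((Bd b' f).card : ℝ) ≤ NN d k / (d : ℝ) ^ (K + 1)) →
      (Fz (!b) f).card ≤ (Fz b f).card → ((Fz b f).card : ℝ) ≤ NN d k / (d : ℝ) ^ K)) (Real.exp_pos _).le
    (hav b) (by
      intro f hf hnf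
      push Not at hnf
      obtain ⟨hf1, hf2, hf3⟩ := hnf
      have hP : Prp f := (mem_filter.1 hf).2
      have h3 := hf1 b
      rw [hNx] at h3
      rw [hNκ] at hf3
      rw [hBd]
      exact cover (by omega) (by omega) b hP κ hκ (by linarith) hf3.le hf2 (h3.trans hκN8))
  have hpair := pair_sum (d := d) (k := k) (by omega) (κ * NN d k) (9 / (q : ℝ)) x B hB1 (by positivity) hx hx1
  have hν : 1 / ((d : ℝ) + 1) ^ K / 100 * NN d k ≤ κ / 100 * NN d k := by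
    refine mul_le_mul_of_nonneg_right ?_ hN.le
    rw [hκd]
    have h1 : (d : ℝ) ^ K ≤ ((d : ℝ) + 1) ^ K := pow_le_pow_left₀ hd0.le (by linarith) K
    have h2 : 1 / ((d : ℝ) + 1) ^ K ≤ 1 / (d : ℝ) ^ K := div_le_div_of_nonneg_left (by norm_num) (by positivity) h1
    linarith
  have hxB : x ^ (-(4 / (B : ℝ))) ≤ 2 := by
    rw [hxd]
    exact S4_x (by linarith) hρ hB hlog
  have hy : 2 * d * (2 * (9 / (q : ℝ)) * x ^ (-(4 / (B : ℝ)))) ≤ 36 * A0 ε := by
    calc 2 * d * (2 * (9 / (q : ℝ)) * x ^ (-(4 / (B : ℝ)))) ≤ 2 * d * (2 * (9 / (q : ℝ)) * 2) := by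
          refine mul_le_mul_of_nonneg_left (mul_le_mul_of_nonneg_left hxB (by positivity)) (by positivity)
      _ = 36 * ra d q := by
          rw [h2d]
          field_simp
          ring
      _ ≤ 36 * A0 ε := by linarith
  unfold Rar
  refine hcount.trans ?_
  calc ZZ d k q * Real.exp (1 / ((d : ℝ) + 1) ^ K / 100 * NN d k) * _
      ≤ ZZ d k q * Real.exp (κ / 100 * NN d k) * ((2 : ℝ) ^ (-(κ * NN d k / 2)) *
          Real.exp (NN d k * (x * Real.exp (36 * A0 ε)))) := by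
        refine mul_le_mul (mul_le_mul_of_nonneg_left (Real.exp_le_exp.2 hν) hZ) (hpair.trans ?_)
          (sum_nonneg fun p _ => by positivity) (by positivity)
        refine mul_le_mul_of_nonneg_left (Real.exp_le_exp.2 ?_) (by positivity)
        refine mul_le_mul_of_nonneg_left (mul_le_mul_of_nonneg_left (Real.exp_le_exp.2 hy) hx.le) hN.le
    _ ≤ ZZ d k q * Real.exp (-(NN d k / (d : ℝ) ^ (K + 1))) := by
        rw [Real.rpow_def_of_pos (by norm_num), mul_assoc, ← Real.exp_add, ← Real.exp_add, hNx]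
        refine mul_le_mul_of_nonneg_left (Real.exp_le_exp.2 ?_) hZ
        have h1 := S4_num (l := Real.log 2) hN.le hκ.le hd0 hxκ he (by linarith [Real.log_two_gt_d9])
        linarith

theorem fz_few {ε : ℝ} (hε : 0 < ε) (hε1 : ε ≤ 1) (K : ℕ) :
    WOP ε fun d k q f => ∀ b : Bool, ((Fz b f).card : ℝ) ≤ NN d k / (d : ℝ) ^ K := by
  have h1 := (S4_rare hε hε1 K).all (fun _ _ => 2) (by
    intro d k q
    rw [Fintype.card_bool]
    norm_num)
  refine (h1.and (Bd_few hε hε1 (K + 1))).mono ((EvT_reg hε hε1 1).mono ?_)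
  rintro d k _ - f _ ⟨hf1, hf2⟩ b
  rcases le_total (Fz (!b) f).card (Fz b f).card with h | h
  · exact hf1 b hf2 h
  · refine le_trans (by exact_mod_cast h) (hf1 (!b) hf2 ?_)
    rw [Bool.not_not]
    exact h

open scoped Classical in
private theorem S4_double {d k : ℕ} (F : Finset (Site d k)) :
    ∑ v : Site d k, (((univ.filter fun σ : Stp d => v + sv σ ∈ F).card : ℕ) : ℝ) = 2 * d * F.card := by
  have h1 : ∀ v : Site d k, (((univ.filter fun σ : Stp d => v + sv σ ∈ F).card : ℕ) : ℝ) =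
      ∑ σ : Stp d, if v + sv σ ∈ F then (1 : ℝ) else 0 := by
    intro v
    rw [card_filter, Nat.cast_sum]
    refine sum_congr rfl fun σ _ => ?_
    split_ifs <;> simp
  have h2 : ∀ σ : Stp d, ∑ v : Site d k, (if v + sv σ ∈ F then (1 : ℝ) else 0) = F.card := by
    intro σ
    rw [Fintype.sum_equiv (Equiv.addRight (sv σ)) (fun v => if v + sv σ ∈ F then (1 : ℝ) else 0)
      (fun v => if v ∈ F then (1 : ℝ) else 0) fun v => rfl, sum_boole]
    congr 2
    ext v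
    simp
  rw [sum_congr rfl fun v _ => h1 v, sum_comm, sum_congr rfl fun σ _ => h2 σ, sum_const, card_univ,
    Fintype.card_prod, Fintype.card_fin, Fintype.card_bool, nsmul_eq_mul]
  push_cast
  ring

private theorem S4_irr {d k q : ℕ} {ε : ℝ} (f : Site d k → Fin q) (hq : 0 < q)
    (hc : c1 ε ≤ (4 : ℝ) ^ (-ra d q) / 4) (hc0 : 0 < c1 ε) :
    irr ε f ≤ (Bd true f).card + (Bd false f).card +
      2 * d / (c1 ε * q) * (((Fz true f).card : ℝ) + (Fz false f).card) := by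
  classical
  have hq0 : (0 : ℝ) < q := by exact_mod_cast hq
  have hcls : ∀ v : Site d k, ∃ b : Bool, v ∈ cls b d k := by
    intro v
    by_cases h : v ∈ cls true d k
    · exact ⟨true, h⟩
    · exact ⟨false, (cls_not true v).2 h⟩
  obtain ⟨F, hF⟩ : ∃ F : Finset (Site d k), F = univ.filter fun u => av f u = 1 := ⟨_, rfl⟩
  have hFc : (F.card : ℝ) ≤ ((Fz true f).card : ℝ) + (Fz false f).card := by
    have h1 : F ⊆ Fz true f ∪ Fz false f := by
      intro u hu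
      rw [hF, mem_filter] at hu
      obtain ⟨b, hb⟩ := hcls u
      rw [mem_union]
      cases b
      · right
        unfold Fz
        exact mem_filter.2 ⟨hb, hu.2⟩
      · left
        unfold Fz
        exact mem_filter.2 ⟨hb, hu.2⟩
    exact_mod_cast (card_le_card h1).trans (card_union_le _ _)
  obtain ⟨I, hI⟩ : ∃ I : Finset (Site d k), I = univ.filter fun v => (av f v : ℝ) < c1 ε * q := ⟨_, rfl⟩
  have hirr : irr ε f = I.card := by
    rw [hI]
    rfl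
  obtain ⟨J, hJ⟩ : ∃ J : Finset (Site d k), J = I \ (Bd true f ∪ Bd false f) := ⟨_, rfl⟩
  have h1 : (I.card : ℝ) ≤ J.card + ((Bd true f).card + (Bd false f).card) := by
    have h2 : I.card ≤ J.card + (Bd true f ∪ Bd false f).card := by
      rw [hJ]
      have := card_le_card_sdiff_add_card (s := I) (t := Bd true f ∪ Bd false f)
      omega
    have h3 := card_union_le (Bd true f) (Bd false f)
    have h4 : I.card ≤ J.card + ((Bd true f).card + (Bd false f).card) := by omega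
    exact_mod_cast h4
  have h2 : ∀ v ∈ J, c1 ε * q ≤ (((univ.filter fun σ : Stp d => v + sv σ ∈ F).card : ℕ) : ℝ) := by
    intro v hv
    rw [hJ, Finset.mem_sdiff, mem_union, not_or, hI, mem_filter] at hv
    obtain ⟨⟨-, hv1⟩, hv2, hv3⟩ := hv
    have h3 : q * (4 : ℝ) ^ (-ra d q) / 2 ≤ (Vn f v : ℝ) := by
      by_contra hcon
      push Not at hcon
      obtain ⟨b, hb⟩ := hcls v
      cases b
      · exact hv3 (by unfold Bd; exact mem_filter.2 ⟨hb, hcon⟩)
      · exact hv2 (by unfold Bd; exact mem_filter.2 ⟨hb, hcon⟩)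
    have h4 := Vn_le f v
    have h5 : (univ.filter fun σ : Stp d => av f (v + sv σ) = 1) =
        univ.filter fun σ : Stp d => v + sv σ ∈ F := by
      refine filter_congr fun σ _ => ?_
      rw [hF, mem_filter]
      exact ⟨fun h => ⟨mem_univ _, h⟩, fun h => h.2⟩
    rw [← h5]
    have h6 : c1 ε * q ≤ (4 : ℝ) ^ (-ra d q) / 4 * q := mul_le_mul_of_nonneg_right hc hq0.le
    linarith
  have h3 : (J.card : ℝ) * (c1 ε * q) ≤ 2 * d * F.card := by
    rw [← S4_double F, ← nsmul_eq_mul]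
    refine (card_nsmul_le_sum J _ _ h2).trans ?_
    exact sum_le_sum_of_subset_of_nonneg (subset_univ _) fun v _ _ => Nat.cast_nonneg _
  have h4 : (J.card : ℝ) ≤ 2 * d / (c1 ε * q) * (((Fz true f).card : ℝ) + (Fz false f).card) := by
    rw [div_mul_eq_mul_div, le_div_iff₀ (by positivity)]
    exact h3.trans (mul_le_mul_of_nonneg_left hFc (by positivity))
  rw [hirr]
  linarith

/-- few irregular sites -/
theorem avail {ε : ℝ} (hε : 0 < ε) (hε1 : ε ≤ 1) (K : ℕ) :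
    WOP ε fun d k q f => irr ε f ≤ NN d k / (d : ℝ) ^ K := by
  have hc0 : 0 < c1 ε := by unfold c1; positivity
  have hA0 : 0 < A0 ε := by unfold A0; positivity
  refine ((fz_few hε hε1 (K + 1)).and (Bd_few hε hε1 (K + 1))).mono
    ((EvT_reg hε hε1 (max 1 (2 * (1 + A0 ε / c1 ε)))).mono ?_)
  rintro d k q ⟨hd, hq, -, -, -, -, hra, h2d⟩ f - ⟨hf1, hf2⟩
  have hd1 : (1 : ℝ) ≤ d := (le_max_left _ _).trans hd
  have hd2 : 2 * (1 + A0 ε / c1 ε) ≤ d := (le_max_right _ _).trans hd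
  have hq1 : (1 : ℝ) ≤ q := (le_max_left _ _).trans hq
  have hq' : 0 < q := by exact_mod_cast (by linarith : (0 : ℝ) < q)
  have hq0 : (0 : ℝ) < q := by linarith
  have hd0 : (0 : ℝ) < d := by linarith
  have hN : 0 ≤ NN d k := by unfold NN; positivity
  have hc : c1 ε ≤ (4 : ℝ) ^ (-ra d q) / 4 := by
    unfold c1
    have h1 : (4 : ℝ) ^ (-A0 ε) ≤ (4 : ℝ) ^ (-ra d q) :=
      Real.rpow_le_rpow_of_exponent_le (by norm_num) (by linarith)
    linarith
  obtain ⟨X, hX⟩ : ∃ X : ℝ, X = NN d k / (d : ℝ) ^ (K + 1) := ⟨_, rfl⟩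
  have hX0 : 0 ≤ X := by rw [hX]; positivity
  have h1 := S4_irr (ε := ε) f hq' hc hc0
  have h2 : 2 * d / (c1 ε * q) ≤ A0 ε / c1 ε := by
    rw [h2d, div_le_div_iff₀ (by positivity) hc0]
    have := mul_le_mul_of_nonneg_right hra (mul_nonneg hc0.le hq0.le)
    linarith
  have h3 : ((Fz true f).card : ℝ) + (Fz false f).card ≤ 2 * X := by
    have := hf1 true
    have := hf1 false
    rw [hX]
    linarith
  have h4 : ((Bd true f).card : ℝ) + (Bd false f).card ≤ 2 * X := by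
    have := hf2 true
    have := hf2 false
    rw [hX]
    linarith
  have h5 : 2 * d / (c1 ε * q) * (((Fz true f).card : ℝ) + (Fz false f).card) ≤ A0 ε / c1 ε * (2 * X) :=
    mul_le_mul h2 h3 (by positivity) (by positivity)
  have h6 : NN d k / (d : ℝ) ^ K = d * X := by
    rw [hX, pow_succ]
    field_simp
  rw [h6]
  have h7 : 2 * (1 + A0 ε / c1 ε) * X ≤ d * X := mul_le_mul_of_nonneg_right hd2 hX0
  linarith

end Pool.Agent.THR
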