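import Pool.Agent.Lib_MP_2c424f_thr.Defs

/-!
# THR N1a: the kernel is small (paper proof: T5)

`Kt t u y` = number of walks `(σ_1, …, σ_t)` with sum `y - u` (mod `m = 2^k`), divided by `(2d)^t`.  For `t = 2 s`:
let `S` be the set of the directions in which `y - u` does not vanish; every direction of `S` is used by the walk, so `|S| ≤ 2 s`.
Every direction which is used and is not in `S` is used at least twice, so there are at most `s` of them, and they are in the range
of some `D : Fin s → Fin d`.  So there are at most `d^s (2 (2 s + s))^(2 s)` walks.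
-/

set_option autoImplicit false

open Finset Filter

namespace Pool.Agent.THR

open Pool.Agent.LO Pool.Agent.LIN

variable {d k : ℕ}

private theorem n1a_iter (t : ℕ) (u y : Site d k) :
    Kt t u y = (∑ w : Fin t → Stp d, if u + ∑ p, sv (w p) = y then (1 : ℝ) else 0) / (2 * (d : ℝ)) ^ t := by
  induction t generalizing u with
  | zero =>
    simp [Kt]
  | succ t ih =>
    have h1 : Kt (t + 1) u y = (∑ σ : Stp d, Kt t (u + sv σ) y) / (2 * d) := by
      unfold Kt
      rw [Function.iterate_succ_apply']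
      rfl
    rw [h1]
    have h2 : (∑ w : Fin (t + 1) → Stp d, if u + ∑ p, sv (w p) = y then (1 : ℝ) else 0)
        = ∑ σ : Stp d, ∑ w : Fin t → Stp d, if u + sv σ + ∑ p, sv (w p) = y then (1 : ℝ) else 0 := by
      rw [← (Fin.consEquiv (fun _ : Fin (t + 1) => Stp d)).sum_comp, Fintype.sum_prod_type]
      refine Finset.sum_congr rfl fun σ _ => Finset.sum_congr rfl fun w _ => ?_
      simp only [Fin.consEquiv, Equiv.coe_fn_mk, Fin.sum_univ_succ, Fin.cons_zero, Fin.cons_succ, add_assoc]
    have h3 : ∀ a : ℝ, a / ((2 * (d : ℝ)) ^ t * (2 * (d : ℝ))) = a / (2 * (d : ℝ)) ^ t / (2 * (d : ℝ)) :=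
      fun a => by rw [div_div]
    rw [h2, pow_succ, h3]
    refine congrArg (fun z : ℝ => z / (2 * d)) ?_
    rw [Finset.sum_div]
    refine Finset.sum_congr rfl fun σ _ => ?_
    exact ih (u + sv σ)

private theorem n1a_ne {t : ℕ} (w : Fin t → Stp d) (i : Fin d) (p : Fin t) (h : (w p).1 ≠ i) :
    (sv (w p) : Site d k) i = 0 := by
  unfold sv
  rw [Pi.single_eq_of_ne (Ne.symm h)]

private theorem n1a_two {t : ℕ} (hk : 1 < 2 ^ k) (w : Fin t → Stp d) (i : Fin d)
    (hi : (∑ p, (sv (w p) : Site d k)) i = 0) (p₀ : Fin t) (hp : (w p₀).1 = i) :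
    2 ≤ (univ.filter fun p => (w p).1 = i).card := by
  by_contra hc
  have hc1 : (univ.filter fun p => (w p).1 = i).card ≤ 1 := by omega
  rw [Finset.card_le_one] at hc1
  have h0 : (∑ p, (sv (w p) : Site d k)) i = (sv (w p₀) : Site d k) i := by
    rw [Finset.sum_apply]
    refine Finset.sum_eq_single p₀ (fun b _ hb => ?_) (fun h => absurd (mem_univ _) h)
    refine n1a_ne w i b fun hbi => hb ?_
    exact hc1 b (by simp [hbi]) p₀ (by simp [hp])
  rw [h0] at hi
  have hne : (1 : ZMod (2 ^ k)) ≠ 0 := by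
    have : Fact (1 < 2 ^ k) := ⟨hk⟩
    exact one_ne_zero
  unfold sv at hi
  rw [hp, Pi.single_eq_same] at hi
  split_ifs at hi
  · exact hne hi
  · exact hne (neg_eq_zero.1 hi)

private theorem n1a_range (hd : 1 ≤ d) (s : ℕ) (U : Finset (Fin d)) (hU : U.card ≤ s) :
    ∃ D : Fin s → Fin d, U ⊆ univ.image D := by
  have h0 : (⟨0, hd⟩ : Fin d) = ⟨0, hd⟩ := rfl
  refine ⟨fun p => if h : p.val < U.card then (U.equivFin.symm ⟨p.val, h⟩ : Fin d) else ⟨0, hd⟩, fun i hi => ?_⟩
  rw [Finset.mem_image]
  refine ⟨⟨(U.equivFin ⟨i, hi⟩).val, lt_of_lt_of_le (U.equivFin ⟨i, hi⟩).isLt hU⟩, mem_univ _, ?_⟩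
  simp

open scoped Classical in
private theorem n1a_cover (hd : 1 ≤ d) (s : ℕ) (hk : 1 < 2 ^ k) (v : Site d k) (w : Fin (2 * s) → Stp d)
    (hw : ∑ p, (sv (w p) : Site d k) = v) :
    (univ.filter fun i => v i ≠ 0).card ≤ 2 * s ∧
      ∃ D : Fin s → Fin d, ∀ p, (w p).1 ∈ (univ.filter fun i => v i ≠ 0) ∪ univ.image D := by
  set S := univ.filter fun i => v i ≠ 0 with hS
  refine ⟨?_, ?_⟩
  · have : S ⊆ univ.image fun p => (w p).1 := by
      intro i hi
      rw [hS, mem_filter] at hi
      by_contra hc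
      apply hi.2
      rw [← hw, Finset.sum_apply]
      refine Finset.sum_eq_zero fun p _ => n1a_ne w i p fun hp => hc ?_
      exact Finset.mem_image.2 ⟨p, mem_univ _, hp⟩
    calc S.card ≤ (univ.image fun p => (w p).1).card := card_le_card this
      _ ≤ (univ : Finset (Fin (2 * s))).card := card_image_le
      _ = 2 * s := by simp
  · set U := (univ.image fun p => (w p).1) \ S with hUd
    have hU2 : ∀ i ∈ U, 2 ≤ (univ.filter fun p => (w p).1 = i).card := by
      intro i hi
      rw [hUd, Finset.mem_sdiff, Finset.mem_image] at hi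
      obtain ⟨⟨p₀, _, hp⟩, hiS⟩ := hi
      refine n1a_two hk w i ?_ p₀ hp
      rw [hw]
      by_contra hc
      exact hiS (by rw [hS, mem_filter]; exact ⟨mem_univ _, hc⟩)
    have h1 : U.card * 2 ≤ ∑ i ∈ U, (univ.filter fun p => (w p).1 = i).card := by
      have := Finset.card_nsmul_le_sum U (fun i => (univ.filter fun p => (w p).1 = i).card) 2 hU2
      simpa using this
    have h2 : ∑ i ∈ U, (univ.filter fun p => (w p).1 = i).card ≤ 2 * s := by
      calc ∑ i ∈ U, (univ.filter fun p => (w p).1 = i).card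
          ≤ ∑ i : Fin d, (univ.filter fun p => (w p).1 = i).card :=
            Finset.sum_le_sum_of_subset (subset_univ _)
        _ = (univ : Finset (Fin (2 * s))).card := by
            rw [← Finset.card_eq_sum_card_fiberwise (f := fun p => (w p).1) (t := univ) (fun _ _ => by simp)]
        _ = 2 * s := by simp
    obtain ⟨D, hD⟩ := n1a_range hd s U (by omega)
    refine ⟨D, fun p => ?_⟩
    rw [mem_union]
    by_cases hp : (w p).1 ∈ S
    · exact Or.inl hp
    · refine Or.inr (hD ?_)
      rw [hUd, Finset.mem_sdiff]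
      exact ⟨Finset.mem_image.2 ⟨p, mem_univ _, rfl⟩, hp⟩

open scoped Classical in
private theorem n1a_count (hd : 1 ≤ d) (s : ℕ) (hk : 1 < 2 ^ k) (v : Site d k) :
    (univ.filter fun w : Fin (2 * s) → Stp d => ∑ p, (sv (w p) : Site d k) = v).card
      ≤ d ^ s * (6 * s) ^ (2 * s) := by
  set F := univ.filter fun w : Fin (2 * s) → Stp d => ∑ p, (sv (w p) : Site d k) = v with hF
  rcases F.eq_empty_or_nonempty with h0 | ⟨w₀, hw₀⟩
  · rw [h0]; simp
  · rw [hF, mem_filter] at hw₀
    have hScard := (n1a_cover hd s hk v w₀ hw₀.2).1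
    set S := univ.filter fun i => v i ≠ 0 with hS
    have hsub : F ⊆ (univ : Finset (Fin s → Fin d)).biUnion fun D =>
        Fintype.piFinset fun _ : Fin (2 * s) => (S ∪ univ.image D) ×ˢ (univ : Finset Bool) := by
      intro w hw
      rw [hF, mem_filter] at hw
      obtain ⟨D, hD⟩ := (n1a_cover hd s hk v w hw.2).2
      rw [mem_biUnion]
      refine ⟨D, mem_univ _, ?_⟩
      rw [Fintype.mem_piFinset]
      intro p
      rw [mem_product]
      exact ⟨hD p, mem_univ _⟩
    calc F.card ≤ _ := card_le_card hsub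
      _ ≤ ∑ D : Fin s → Fin d, (Fintype.piFinset fun _ : Fin (2 * s) =>
            (S ∪ univ.image D) ×ˢ (univ : Finset Bool)).card := card_biUnion_le
      _ ≤ ∑ _D : Fin s → Fin d, (6 * s) ^ (2 * s) := by
          refine Finset.sum_le_sum fun D _ => ?_
          rw [Fintype.card_piFinset_const, card_product]
          refine Nat.pow_le_pow_left ?_ _
          have h1 : (S ∪ univ.image D).card ≤ 3 * s := by
            calc (S ∪ univ.image D).card ≤ S.card + (univ.image D).card := card_union_le _ _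
              _ ≤ 2 * s + s := by
                  refine Nat.add_le_add hScard ?_
                  calc (univ.image D).card ≤ (univ : Finset (Fin s)).card := card_image_le
                    _ = s := by simp
              _ = 3 * s := by ring
          have h2 : (univ : Finset Bool).card = 2 := by simp
          rw [h2]
          omega
      _ = d ^ s * (6 * s) ^ (2 * s) := by
          rw [Finset.sum_const, card_univ, Fintype.card_fun, Fintype.card_fin, Fintype.card_fin, smul_eq_mul]

theorem Kt_sup (hd : 1 ≤ d) (s : ℕ) (hk : 2 * s < 2 ^ k) (u y : Site d k) :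
    Kt (2 * s) u y ≤ (8 * (s : ℝ)) ^ (2 * s) / (2 * (d : ℝ)) ^ s := by
  classical
  have hd' : (1 : ℝ) ≤ d := by exact_mod_cast hd
  have hd0 : (0 : ℝ) < 2 * (d : ℝ) := by linarith
  rcases Nat.eq_zero_or_pos s with rfl | hs
  · simp only [Kt, mul_zero, Function.iterate_zero, id, Nat.cast_zero, pow_zero, div_one]
    split_ifs <;> norm_num
  · have hk1 : 1 < 2 ^ k := by omega
    rw [n1a_iter]
    have h1 : (∑ w : Fin (2 * s) → Stp d, if u + ∑ p, sv (w p) = y then (1 : ℝ) else 0)
        = ((univ.filter fun w : Fin (2 * s) → Stp d => ∑ p, (sv (w p) : Site d k) = y - u).card : ℝ) := by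
      rw [Finset.sum_boole]
      congr 2
      ext w
      simp only [mem_filter, mem_univ, true_and]
      constructor
      · intro h; rw [← h]; abel
      · intro h; rw [h]; abel
    rw [h1]
    have h2 : ((univ.filter fun w : Fin (2 * s) → Stp d => ∑ p, (sv (w p) : Site d k) = y - u).card : ℝ)
        ≤ (d : ℝ) ^ s * (6 * (s : ℝ)) ^ (2 * s) := by
      have := n1a_count hd s hk1 (y - u)
      have h3 : (((univ.filter fun w : Fin (2 * s) → Stp d => ∑ p, (sv (w p) : Site d k) = y - u).card : ℕ) : ℝ)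
          ≤ ((d ^ s * (6 * s) ^ (2 * s) : ℕ) : ℝ) := by exact_mod_cast this
      refine h3.trans (le_of_eq ?_)
      push_cast
      ring
    have hs0 : (0 : ℝ) ≤ s := by positivity
    have h4 : (d : ℝ) ^ s * (6 * (s : ℝ)) ^ (2 * s) ≤ (2 * (d : ℝ)) ^ s * (8 * (s : ℝ)) ^ (2 * s) := by
      refine mul_le_mul ?_ ?_ (by positivity) (by positivity)
      · exact pow_le_pow_left₀ (by linarith) (by linarith) _
      · exact pow_le_pow_left₀ (by positivity) (by linarith) _
    calc ((univ.filter fun w : Fin (2 * s) → Stp d => ∑ p, (sv (w p) : Site d k) = y - u).card : ℝ)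
          / (2 * (d : ℝ)) ^ (2 * s)
        ≤ ((2 * (d : ℝ)) ^ s * (8 * (s : ℝ)) ^ (2 * s)) / (2 * (d : ℝ)) ^ (2 * s) := by
          exact div_le_div_of_nonneg_right (h2.trans h4) (by positivity)
      _ = (8 * (s : ℝ)) ^ (2 * s) / (2 * (d : ℝ)) ^ s := by
          have : (2 * (d : ℝ)) ^ (2 * s) = (2 * (d : ℝ)) ^ s * (2 * (d : ℝ)) ^ s := by
            rw [← pow_add]; congr 1; ring
          rw [this]
          field_simp

end Pool.Agent.THR
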