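import Pool.Agent.Lib_MP_2c424f_thr.N1
import Pool.Agent.Lib_MP_2c424f_thr.N1a
import Pool.Agent.Lib_MP_2c424f_thr.T1
import Pool.Agent.Lib_MP_2c424f_thr.T2

/-!
# THR N5: smoothed indicators and conditional means (paper proof: N5)

`t` even, `x` in the class `b`: `PP^t (bq - gg)(x) = ∑_{y ∈ b} K(x,y)(bq - gg)(y)`.  On the fibre of the class `b`, `gg c` at sites of
`b` is constant and it is the mean of `bq c` (`fm_ind`).  `fm_var` with `c_y = q K(x,y)`: mean of the square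
`≤ 4 q² ∑_y K² ≤ 4 q² κ`, `κ = (8s)^(2s)/(2d)^s`, `s ≥ 10`: sum over `x ∈ b` `≤ N/(4 d^4)` for `d` large (`q ≤ 2d`).
`WOPi_tail` for `Ψ = ∑_{x ∈ b} (PP^t (bq - gg) x)²`: a change at `y ∈ b` changes `PP^t bq x` by `≤ q K(x,y)`, `|PP^t (bq-gg)| ≤ q`, so the square
by `≤ 2q² K(x,y)`; total `≤ 2 q² ≤ d^3`... (`κ = 3`, `q ≤ 2d`, `d ≥ 8`).  Union over `b`, `c`.
-/

set_option autoImplicit false

open Finset Filter

namespace Pool.Agent.THR

open Pool.Agent.LO Pool.Agent.LIN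

/-- `bq - gg` -/
private noncomputable def N5_D {d k q : ℕ} (c : Fin q) (f : Site d k → Fin q) (v : Site d k) : ℝ :=
  bq c f v - gg c f v

/-- the statistic -/
private noncomputable def N5_Psi {d k q : ℕ} (t : ℕ) (b : Bool) (c : Fin q) (f : Site d k → Fin q) : ℝ :=
  ∑ x ∈ cls b d k, PP^[t] (N5_D c f) x ^ 2

private theorem N5_upd {d k q : ℕ} {b : Bool} {f h : Site d k → Fin q} (hk : 1 ≤ k) (hh : h ∈ fib b f) {v : Site d k}
    (hv : v ∈ cls b d k) {γ : Fin q} (hγ : γ ∉ SS f v) : Function.update h v γ ∈ fib b f := by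
  have _ := hk
  unfold fib at hh ⊢
  rw [Fintype.mem_piFinset] at hh ⊢
  intro x
  by_cases hx : x = v
  · subst hx
    rw [if_pos hv, Function.update_self, mem_compl]
    exact hγ
  · rw [Function.update_of_ne hx]
    exact hh x

private theorem N5_gg_fib {d k q : ℕ} {b : Bool} {f h : Site d k → Fin q} (hk : 1 ≤ k) (hh : h ∈ fib b f) (c : Fin q)
    {x : Site d k} (hx : x ∈ cls b d k) : gg c h x = gg c f x := by
  have h1 := fib_SS hk b hh x hx
  unfold gg zz av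
  rw [h1]

private theorem N5_bq_bd {d k q : ℕ} (c : Fin q) (f : Site d k → Fin q) (x : Site d k) : 0 ≤ bq c f x ∧ bq c f x ≤ q := by
  unfold bq
  split_ifs
  · exact ⟨Nat.cast_nonneg _, le_rfl⟩
  · exact ⟨le_rfl, Nat.cast_nonneg _⟩

private theorem N5_gg_bd {d k q : ℕ} (c : Fin q) {f : Site d k → Fin q} (hf : Prp f) (x : Site d k) :
    0 ≤ gg c f x ∧ gg c f x ≤ q := by
  obtain ⟨h1, h2⟩ := zz_av_le hf x c
  have hq : (0 : ℝ) ≤ q := Nat.cast_nonneg _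
  have h3 : gg c f x = q * (zz f x c / (av f x : ℝ)) := by
    unfold gg
    ring
  rw [h3]
  exact ⟨mul_nonneg hq h1, by nlinarith⟩

private theorem N5_D_bd {d k q : ℕ} (c : Fin q) {f : Site d k → Fin q} (hf : Prp f) (x : Site d k) :
    |N5_D c f x| ≤ q := by
  obtain ⟨h1, h2⟩ := N5_bq_bd c f x
  obtain ⟨h3, h4⟩ := N5_gg_bd c hf x
  unfold N5_D
  rw [abs_le]
  exact ⟨by linarith, by linarith⟩

private theorem N5_PP_bd {d k q : ℕ} (hd : 1 ≤ d) (t : ℕ) (c : Fin q) {f : Site d k → Fin q} (hf : Prp f) (x : Site d k) :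
    |PP^[t] (N5_D c f) x| ≤ q :=
  (PPt_abs t _ x).trans ((PPt_mono t (fun y => N5_D_bd c hf y) x).trans (PPt_const hd t _ x).le)

/-- for even `t` and `x` in the class only the class matters -/
private theorem N5_repr {d k : ℕ} (hk : 1 ≤ k) {t : ℕ} (ht : Even t) {b : Bool} {x : Site d k} (hx : x ∈ cls b d k)
    (g : Site d k → ℝ) : PP^[t] g x = ∑ y ∈ cls b d k, Kt t x y * g y := by
  rw [Kt_repr]
  symm
  refine sum_subset (subset_univ _) fun y _ hy => ?_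
  rw [Kt_cls hk t ht b x y hx ((cls_not b y).2 hy), zero_mul]

/-- difference after a change at one site -/
private theorem N5_diff {d k q : ℕ} (hk : 1 ≤ k) {t : ℕ} (ht : Even t) {b : Bool} (c : Fin q)
    {f h : Site d k → Fin q} (hh : h ∈ fib b f) {v : Site d k} (hv : v ∈ cls b d k) {γ : Fin q} (hγ : γ ∉ SS f v)
    {x : Site d k} (hx : x ∈ cls b d k) :
    |PP^[t] (N5_D c (Function.update h v γ)) x - PP^[t] (N5_D c h) x| ≤ q * Kt t x v := by
  classical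
  have hh' := N5_upd hk hh hv hγ
  rw [N5_repr hk ht hx, N5_repr hk ht hx, ← sum_sub_distrib]
  have h1 : ∀ y ∈ cls b d k, Kt t x y * N5_D c (Function.update h v γ) y - Kt t x y * N5_D c h y =
      if y = v then Kt t x v * (bq c (Function.update h v γ) v - bq c h v) else 0 := by
    intro y hy
    have e1 : gg c (Function.update h v γ) y = gg c h y := by
      rw [N5_gg_fib hk hh' c hy, N5_gg_fib hk hh c hy]
    unfold N5_D
    rw [e1]
    by_cases hyv : y = v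
    · subst hyv
      rw [if_pos rfl]
      ring
    · have e2 : bq c (Function.update h v γ) y = bq c h y := by
        unfold bq
        rw [Function.update_of_ne hyv]
      rw [if_neg hyv, e2]
      ring
  rw [sum_congr rfl h1, sum_ite_eq' (cls b d k) v, if_pos hv, abs_mul, abs_of_nonneg (Kt_nonneg t x v), mul_comm]
  refine mul_le_mul_of_nonneg_right ?_ (Kt_nonneg t x v)
  obtain ⟨h3, h4⟩ := N5_bq_bd c (Function.update h v γ) v
  obtain ⟨h5, h6⟩ := N5_bq_bd c h v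
  rw [abs_le]
  exact ⟨by linarith, by linarith⟩

private theorem N5_Kt_row {d k : ℕ} (hd : 1 ≤ d) (t : ℕ) (v : Site d k) (A : Finset (Site d k)) :
    ∑ x ∈ A, Kt t x v ≤ 1 := by
  calc ∑ x ∈ A, Kt t x v ≤ ∑ x, Kt t x v :=
        sum_le_sum_of_subset_of_nonneg (subset_univ _) fun x _ _ => Kt_nonneg t x v
    _ = ∑ x, Kt t v x := sum_congr rfl fun x _ => Kt_symm t x v
    _ = 1 := Kt_one hd t v

private theorem N5_lip {d k q : ℕ} (hd : 8 ≤ d) (hk : 1 ≤ k) (hq : (q : ℝ) ≤ 2 * d) {t : ℕ} (ht : Even t) (b : Bool)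
    (c : Fin q) : Lip b ((d : ℝ) ^ 3) (N5_Psi (d := d) (k := k) t b c) := by
  classical
  intro f hf h hh v hv γ hγ
  have hf' : Prp f := by
    unfold prps at hf
    exact (mem_filter.1 hf).2
  have hh' := N5_upd hk hh hv hγ
  have hph : Prp h := fib_prp hk b hf' hh
  have hph' : Prp (Function.update h v γ) := fib_prp hk b hf' hh'
  have hd1 : 1 ≤ d := by omega
  have hd8 : (8 : ℝ) ≤ d := by exact_mod_cast hd
  have hq0 : (0 : ℝ) ≤ q := Nat.cast_nonneg _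
  unfold N5_Psi
  rw [← sum_sub_distrib]
  refine (abs_sum_le_sum_abs _ _).trans ?_
  have h1 : ∀ x ∈ cls b d k, |PP^[t] (N5_D c (Function.update h v γ)) x ^ 2 - PP^[t] (N5_D c h) x ^ 2| ≤
      2 * (q : ℝ) ^ 2 * Kt t x v := by
    intro x hx
    have e1 := N5_diff hk ht c hh hv hγ hx
    have e2 := N5_PP_bd hd1 t c hph x
    have e3 := N5_PP_bd hd1 t c hph' x
    set A := PP^[t] (N5_D c (Function.update h v γ)) x
    set B := PP^[t] (N5_D c h) x
    have e4 : A ^ 2 - B ^ 2 = (A - B) * (A + B) := by ring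
    rw [e4, abs_mul]
    have e5 : |A + B| ≤ 2 * q := (abs_add_le A B).trans (by linarith)
    calc |A - B| * |A + B| ≤ (q * Kt t x v) * (2 * q) :=
          mul_le_mul e1 e5 (abs_nonneg _) (mul_nonneg hq0 (Kt_nonneg t x v))
      _ = 2 * (q : ℝ) ^ 2 * Kt t x v := by ring
  refine (sum_le_sum h1).trans ?_
  rw [← mul_sum]
  have h2 := N5_Kt_row hd1 t v (cls b d k)
  calc 2 * (q : ℝ) ^ 2 * ∑ x ∈ cls b d k, Kt t x v ≤ 2 * (q : ℝ) ^ 2 * 1 :=
        mul_le_mul_of_nonneg_left h2 (by positivity)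
    _ = 2 * (q : ℝ) ^ 2 := by ring
    _ ≤ 2 * (2 * (d : ℝ)) ^ 2 := by
        have := pow_le_pow_left₀ hq0 hq 2
        linarith
    _ ≤ (d : ℝ) ^ 3 := by nlinarith [sq_nonneg (d : ℝ)]

private theorem N5_fm_bq {d k q : ℕ} (hk : 1 ≤ k) {b : Bool} {f : Site d k → Fin q} (hf : Prp f) (c : Fin q)
    {v : Site d k} (hv : v ∈ cls b d k) : fm b (fun h => bq c h v) f = gg c f v := by
  have h1 : (fun h : Site d k → Fin q => bq c h v) = fun h => (q : ℝ) * (if h v = c then (1 : ℝ) else 0) := by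
    funext h
    unfold bq
    split_ifs <;> ring
  rw [h1, fm_mul, fm_ind hk b hf v hv c]
  unfold gg
  ring

private theorem N5_mean0 {d k q : ℕ} (hk : 1 ≤ k) {t : ℕ} (ht : Even t) {b : Bool} {f : Site d k → Fin q} (hf : Prp f)
    (c : Fin q) {x : Site d k} (hx : x ∈ cls b d k) : fm b (fun h => PP^[t] (N5_D c h) x) f = 0 := by
  have h1 : (fun h : Site d k → Fin q => PP^[t] (N5_D c h) x) = fun h => ∑ y ∈ cls b d k, Kt t x y * N5_D c h y := by
    funext h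
    exact N5_repr hk ht hx _
  rw [h1, fm_sum]
  refine sum_eq_zero fun y hy => ?_
  rw [fm_mul]
  have h2 : fm b (fun h => N5_D c h y) f = 0 := by
    have h3 : fm b (fun h => N5_D c h y) f = fm b (fun h => bq c h y) f - fm b (fun h => gg c h y) f := by
      rw [← fm_sub]
      rfl
    have h4 : fm b (fun h => gg c h y) f = gg c f y := by
      rw [fm_congr b (G := fun _ => gg c f y) (fun h hh => N5_gg_fib hk hh c hy), fm_const b hf]
    rw [h3, h4, N5_fm_bq hk hf c hy, sub_self]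
  rw [h2, mul_zero]

private theorem N5_var {d k q : ℕ} (hd : 1 ≤ d) (hk : 2 ≤ k) {t : ℕ} (ht : Even t) {b : Bool} {f : Site d k → Fin q}
    (hf : Prp f) (c : Fin q) {κ : ℝ} (hκ : ∀ u y : Site d k, Kt t u y ≤ κ) {x : Site d k} (hx : x ∈ cls b d k) :
    fm b (fun h => PP^[t] (N5_D c h) x ^ 2) f ≤ 4 * ((q : ℝ) ^ 2 * κ) := by
  have hk1 : 1 ≤ k := by omega
  have hq0 : (0 : ℝ) ≤ q := Nat.cast_nonneg _
  have h1 := fm_var hk b hf (fun h => PP^[t] (N5_D c h) x) (fun v => (q : ℝ) * Kt t x v)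
    (fun v => mul_nonneg hq0 (Kt_nonneg t x v))
    (fun h hh v hv γ hγ => N5_diff hk1 ht c hh hv hγ hx)
  rw [N5_mean0 hk1 ht hf c hx] at h1
  simp only [sub_zero] at h1
  refine h1.trans ?_
  refine mul_le_mul_of_nonneg_left ?_ (by norm_num)
  calc ∑ v ∈ cls b d k, ((q : ℝ) * Kt t x v) ^ 2 ≤ ∑ v ∈ cls b d k, (q : ℝ) ^ 2 * κ * Kt t x v := by
        refine sum_le_sum fun v _ => ?_
        have e1 := hκ x v
        have e2 := Kt_nonneg t x v
        have e3 : Kt t x v * Kt t x v ≤ κ * Kt t x v := mul_le_mul_of_nonneg_right e1 e2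
        have e4 : 0 ≤ (q : ℝ) ^ 2 := sq_nonneg _
        calc ((q : ℝ) * Kt t x v) ^ 2 = (q : ℝ) ^ 2 * (Kt t x v * Kt t x v) := by ring
          _ ≤ (q : ℝ) ^ 2 * (κ * Kt t x v) := mul_le_mul_of_nonneg_left e3 e4
          _ = (q : ℝ) ^ 2 * κ * Kt t x v := by ring
    _ = (q : ℝ) ^ 2 * κ * ∑ v ∈ cls b d k, Kt t x v := by rw [mul_sum]
    _ ≤ (q : ℝ) ^ 2 * κ * 1 := by
        refine mul_le_mul_of_nonneg_left ?_ ?_
        · calc ∑ v ∈ cls b d k, Kt t x v ≤ ∑ v, Kt t x v :=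
                sum_le_sum_of_subset_of_nonneg (subset_univ _) fun v _ _ => Kt_nonneg t x v
            _ = 1 := Kt_one hd t x
        · exact mul_nonneg (sq_nonneg _) ((Kt_nonneg t x x).trans (hκ x x))
    _ = (q : ℝ) ^ 2 * κ := mul_one _

private theorem N5_fm_Psi {d k q : ℕ} (hd : 1 ≤ d) (hk : 2 ≤ k) {t : ℕ} (ht : Even t) (b : Bool) {f : Site d k → Fin q}
    (hf : Prp f) (c : Fin q) {κ : ℝ} (hκ : ∀ u y : Site d k, Kt t u y ≤ κ) :
    fm b (N5_Psi t b c) f ≤ NN d k / 2 * (4 * ((q : ℝ) ^ 2 * κ)) := by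
  have h1 : fm b (N5_Psi t b c) f = ∑ x ∈ cls b d k, fm b (fun h => PP^[t] (N5_D c h) x ^ 2) f := by
    rw [← fm_sum]
    rfl
  rw [h1]
  refine (sum_le_sum fun x hx => N5_var hd hk ht hf c hκ hx).trans ?_
  rw [sum_const, nsmul_eq_mul, card_cls hd (by omega) b]

/-- the bound of the kernel is small -/
private theorem N5_kappa (s : ℕ) (hs : 10 ≤ s) : ∀ᶠ d : ℕ in atTop,
    32 * (d : ℝ) ^ 6 * ((8 * (s : ℝ)) ^ (2 * s) / (2 * (d : ℝ)) ^ s) ≤ 1 := by
  have h1 : ∀ᶠ d : ℕ in atTop, (32 * (8 * (s : ℝ)) ^ (2 * s) : ℝ) ≤ (d : ℝ) :=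
    tendsto_natCast_atTop_atTop.eventually_ge_atTop _
  filter_upwards [h1, eventually_ge_atTop 1] with d hd hd1
  have hd1' : (1 : ℝ) ≤ d := by exact_mod_cast hd1
  have hd0 : (0 : ℝ) < d := by linarith
  rw [← mul_div_assoc, div_le_one (by positivity)]
  calc 32 * (d : ℝ) ^ 6 * (8 * (s : ℝ)) ^ (2 * s) = (32 * (8 * (s : ℝ)) ^ (2 * s)) * (d : ℝ) ^ 6 := by ring
    _ ≤ d * (d : ℝ) ^ 6 := mul_le_mul_of_nonneg_right hd (by positivity)
    _ = (d : ℝ) ^ 7 := by ring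
    _ ≤ (d : ℝ) ^ s := pow_le_pow_right₀ hd1' (by omega)
    _ ≤ (2 * (d : ℝ)) ^ s := pow_le_pow_left₀ hd0.le (by linarith) s

private theorem N5_split {d k : ℕ} (g : Site d k → ℝ) : ∑ x, g x = ∑ x ∈ cls true d k, g x + ∑ x ∈ cls false d k, g x := by
  classical
  have h1 : (cls false d k : Finset (Site d k)) = (cls true d k)ᶜ := by
    ext x
    rw [mem_compl]
    exact cls_not true x
  rw [h1, sum_add_sum_compl]

private theorem N5_final {d : ℕ} {N S : ℝ} (hd : (8 : ℝ) ≤ d) (hN : 0 ≤ N)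
    (hS : S ≤ N / 2 * (1 / (2 * (d : ℝ) ^ 4)) + N / (d : ℝ) ^ 5) : S ≤ N / (2 * (d : ℝ) ^ 4) := by
  refine hS.trans ?_
  have hd0 : (0 : ℝ) < d := by linarith
  have h1 : N / (d : ℝ) ^ 5 ≤ N / (4 * (d : ℝ) ^ 4) := by
    refine div_le_div_of_nonneg_left hN (by positivity) ?_
    have : 0 < (d : ℝ) ^ 4 := by positivity
    nlinarith
  have h2 : N / 2 * (1 / (2 * (d : ℝ) ^ 4)) = N / (4 * (d : ℝ) ^ 4) := by
    field_simp
    ring
  have h3 : N / (2 * (d : ℝ) ^ 4) = N / (4 * (d : ℝ) ^ 4) + N / (4 * (d : ℝ) ^ 4) := by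
    field_simp
    ring
  rw [h2, h3]
  linarith

theorem smooth {ε : ℝ} (hε : 0 < ε) (hε1 : ε ≤ 1) (t : ℕ) (ht : Even t) (ht' : 20 ≤ t) :
    WOP ε fun d k q f => ∀ c : Fin q, ∑ x, (PP^[t] (bq c f) x - PP^[t] (gg c f) x) ^ 2 ≤ NN d k / (d : ℝ) ^ 4 := by
  obtain ⟨s, hs⟩ := ht.two_dvd
  have hs10 : 10 ≤ s := by omega
  have hL : EvT ε fun d k q => ∀ i : Bool × Fin q, True → Lip i.1 ((d : ℝ) ^ 3) (N5_Psi (d := d) (k := k) t i.1 i.2) := by
    refine (EvT_reg hε hε1 8).mono ?_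
    rintro d k q ⟨hd, -, hk, -, hq2, -⟩ i -
    have hd8 : 8 ≤ d := by exact_mod_cast hd
    have hk8 : 8 ≤ k := by exact_mod_cast hk
    have hd0 : (0 : ℝ) ≤ d := Nat.cast_nonneg _
    exact N5_lip hd8 (by omega) (by nlinarith) ht i.1 i.2
  have h1 := WOPi_tail hε hε1 (fun _ _ q => Bool × Fin q) (fun _ _ _ i => i.1) (fun _ _ _ _ => True)
    (fun d k _ i => N5_Psi (d := d) (k := k) t i.1 i.2) 3 5 hL
  have h2 := h1.all (fun _ q => 2 * (q : ℝ)) (fun d k q => by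
    rw [Fintype.card_prod, Fintype.card_bool, Fintype.card_fin]
    push_cast
    exact le_rfl)
  refine h2.mono ?_
  refine (((EvT_reg hε hε1 8).and (EvT_d (N5_kappa s hs10))).and (EvT_pow fun _ _ => 2 * (s : ℝ) + 1)).mono ?_
  rintro d k q ⟨⟨⟨hd, -, hk, -, hq2, -⟩, hκ⟩, hpow⟩ f hf h3 c
  have hf' : Prp f := by
    classical
    unfold prps at hf
    exact (mem_filter.1 hf).2
  have hd8 : 8 ≤ d := by exact_mod_cast hd
  have hk8 : 8 ≤ k := by exact_mod_cast hk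
  have hd0 : (0 : ℝ) < d := by linarith
  have hN : 0 ≤ NN d k := by
    unfold NN
    positivity
  have hpow' : 2 * s < 2 ^ k := by
    have : ((2 * s + 1 : ℕ) : ℝ) ≤ ((2 ^ k : ℕ) : ℝ) := by
      push_cast
      exact hpow
    have := Nat.cast_le.1 this
    omega
  have hK : ∀ u y : Site d k, Kt t u y ≤ (8 * (s : ℝ)) ^ (2 * s) / (2 * (d : ℝ)) ^ s := by
    intro u y
    rw [hs]
    exact Kt_sup (by omega) s hpow' u y
  set κ : ℝ := (8 * (s : ℝ)) ^ (2 * s) / (2 * (d : ℝ)) ^ s with hκd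
  have hκ0 : 0 ≤ κ := by
    rw [hκd]
    positivity
  have hq0 : (0 : ℝ) ≤ q := Nat.cast_nonneg _
  have hq2' : (q : ℝ) ≤ 2 * d := by nlinarith
  have h4 : 4 * ((q : ℝ) ^ 2 * κ) ≤ 1 / (2 * (d : ℝ) ^ 4) := by
    rw [le_div_iff₀ (by positivity)]
    calc 4 * ((q : ℝ) ^ 2 * κ) * (2 * (d : ℝ) ^ 4) ≤ 4 * ((2 * (d : ℝ)) ^ 2 * κ) * (2 * (d : ℝ) ^ 4) := by
          have e1 : (q : ℝ) ^ 2 ≤ (2 * (d : ℝ)) ^ 2 := pow_le_pow_left₀ hq0 hq2' 2
          have e2 : (q : ℝ) ^ 2 * κ ≤ (2 * (d : ℝ)) ^ 2 * κ := mul_le_mul_of_nonneg_right e1 hκ0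
          have e3 : 0 ≤ 2 * (d : ℝ) ^ 4 := by positivity
          nlinarith
      _ = 32 * (d : ℝ) ^ 6 * κ := by ring
      _ ≤ 1 := hκ
  have h5 : ∀ b : Bool, N5_Psi t b c f ≤ NN d k / (2 * (d : ℝ) ^ 4) := by
    intro b
    have e1 := h3 (b, c) trivial
    have e2 := N5_fm_Psi (by omega : 1 ≤ d) (by omega : 2 ≤ k) ht b hf' c hK
    refine N5_final hd hN (e1.trans ?_)
    have e3 : NN d k / 2 * (4 * ((q : ℝ) ^ 2 * κ)) ≤ NN d k / 2 * (1 / (2 * (d : ℝ) ^ 4)) :=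
      mul_le_mul_of_nonneg_left h4 (by linarith)
    have e4 := e2.trans e3
    exact add_le_add e4 le_rfl
  have h6 : ∑ x, (PP^[t] (bq c f) x - PP^[t] (gg c f) x) ^ 2 = ∑ x, PP^[t] (N5_D c f) x ^ 2 := by
    refine sum_congr rfl fun x _ => ?_
    have := PPt_sub t (bq c f) (gg c f) x
    unfold N5_D
    rw [this]
  rw [h6, N5_split]
  have e5 := h5 true
  have e6 := h5 false
  unfold N5_Psi at e5 e6
  have e7 : NN d k / (d : ℝ) ^ 4 = NN d k / (2 * (d : ℝ) ^ 4) + NN d k / (2 * (d : ℝ) ^ 4) := by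
    field_simp
    ring
  rw [e7]
  exact add_le_add e5 e6

end Pool.Agent.THR
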