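import Pool.Agent.Lib_MP_2c424f_thr.N4
import Pool.Agent.Lib_MP_2c424f_thr.N5
import Pool.Agent.Lib_MP_2c424f_thr.S4

/-!
# THR N6: gradients of the conditional means, homogeneity (paper proof: N6, N7, M0)

* `grad_gg`: `∇PP^t gg = ∇PP^t bq - ∇PP^t (bq - gg)`, `(x+y)² ≤ 2x²+2y²`: `2C₅N/q² + 8N/d^4 ≤ C₆N/q²`.
* `log_convex`: `V k = ∑_x (PP^k F x)²`, `V k ^ 2 ≤ V (k-1) V (k+1)` (`PPt_adj`, Cauchy-Schwarz), so `V 1 ^ t ≤ V 0 ^ (t-1) V t`
  (if `V 0 = 0` or `V 1 = 0` trivial; otherwise the ratios increase).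
* `hom`: `F x = gg c f (x+σ) - gg c f (x+τ)`; `V 0 ≤ 4 ∑ gg² ≤ 4(N/c1² + q² irr) ≤ C N` (`gg ≤ 1/c1` at regular sites, `≤ q` elsewhere,
  `avail 2`), `V t ≤ C₆N/q²`; if `V 1 > δ N` then `(δN)^t ≤ (CN)^(t-1) C₆ N/q²`, impossible for `q` large.
  `hh c f v = ra · PP (gg c f) v`.
-/

set_option autoImplicit false

open Finset Filter

namespace Pool.Agent.THR

open Pool.Agent.LO Pool.Agent.LIN

private theorem N6_shift {d k : ℕ} (F : Site d k → ℝ) (v : Site d k) : ∑ x, F (x + v) = ∑ x, F x :=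
  Fintype.sum_equiv (Equiv.addRight v) _ _ (fun _ => rfl)

theorem grad_gg {ε : ℝ} (hε : 0 < ε) (hε1 : ε ≤ 1) : ∃ (t : ℕ) (C₆ : ℝ), Even t ∧ 20 ≤ t ∧ 0 < C₆ ∧
    WOP ε fun d k q f => ∀ (c : Fin q) (σ τ : Stp d),
      ∑ x : Site d k, (PP^[t] (gg c f) (x + sv σ) - PP^[t] (gg c f) (x + sv τ)) ^ 2 ≤ C₆ * NN d k / (q : ℝ) ^ 2 := by
  obtain ⟨t, C₅, hte, ht, hC₅, hW⟩ := grad_bq hε hε1
  refine ⟨t, 2 * C₅ + 128, hte, ht, by linarith, ?_⟩
  have hS := smooth hε hε1 t hte ht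
  refine (hW.and hS).mono ((EvT_reg hε hε1 1).mono ?_)
  rintro d k q ⟨hd, hq, -, hεq, hq2, -, -, -⟩ f hf ⟨h1, h2⟩ c σ τ
  have hN : (0 : ℝ) ≤ NN d k := by unfold NN; positivity
  have h3 := h2 c
  set G : Site d k → ℝ := fun x => PP^[t] (bq c f) x - PP^[t] (gg c f) x with hG
  have hpt : ∀ x : Site d k, (PP^[t] (gg c f) (x + sv σ) - PP^[t] (gg c f) (x + sv τ)) ^ 2 ≤
      2 * (PP^[t] (bq c f) (x + sv σ) - PP^[t] (bq c f) (x + sv τ)) ^ 2 +
        (4 * G (x + sv σ) ^ 2 + 4 * G (x + sv τ) ^ 2) := by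
    intro x
    have e : PP^[t] (gg c f) (x + sv σ) - PP^[t] (gg c f) (x + sv τ) =
        (PP^[t] (bq c f) (x + sv σ) - PP^[t] (bq c f) (x + sv τ)) - G (x + sv σ) + G (x + sv τ) := by
      simp only [hG]; ring
    rw [e]
    nlinarith [sq_nonneg ((PP^[t] (bq c f) (x + sv σ) - PP^[t] (bq c f) (x + sv τ)) + (G (x + sv σ) - G (x + sv τ))),
      sq_nonneg (G (x + sv σ) + G (x + sv τ))]
  have hsum : ∑ x : Site d k, (PP^[t] (gg c f) (x + sv σ) - PP^[t] (gg c f) (x + sv τ)) ^ 2 ≤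
      2 * ∑ x : Site d k, (PP^[t] (bq c f) (x + sv σ) - PP^[t] (bq c f) (x + sv τ)) ^ 2 + 8 * ∑ x, G x ^ 2 := by
    calc _ ≤ ∑ x : Site d k, (2 * (PP^[t] (bq c f) (x + sv σ) - PP^[t] (bq c f) (x + sv τ)) ^ 2 +
        (4 * G (x + sv σ) ^ 2 + 4 * G (x + sv τ) ^ 2)) := Finset.sum_le_sum fun x _ => hpt x
      _ = _ := by
        rw [Finset.sum_add_distrib, Finset.sum_add_distrib, ← Finset.mul_sum, ← Finset.mul_sum, ← Finset.mul_sum,
          N6_shift (fun x => G x ^ 2), N6_shift (fun x => G x ^ 2)]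
        ring
  have hGs : ∑ x, G x ^ 2 ≤ NN d k / (d : ℝ) ^ 4 := h3
  have h4 : NN d k / (d : ℝ) ^ 4 ≤ 16 * NN d k / (q : ℝ) ^ 2 := by
    have hqp : (0 : ℝ) < (q : ℝ) ^ 2 := by positivity
    have hdp : (0 : ℝ) < (d : ℝ) ^ 4 := by positivity
    rw [div_le_div_iff₀ hdp hqp]
    have hq2d : (q : ℝ) ≤ 2 * d := by nlinarith
    have : (q : ℝ) ^ 2 ≤ 16 * (d : ℝ) ^ 4 := by
      have h5 : (q : ℝ) ^ 2 ≤ (2 * d) ^ 2 := by gcongr
      have h6 : (d : ℝ) ^ 2 ≤ (d : ℝ) ^ 4 := pow_le_pow_right₀ hd (by norm_num)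
      nlinarith
    nlinarith
  calc _ ≤ 2 * (C₅ * NN d k / (q : ℝ) ^ 2) + 8 * (16 * NN d k / (q : ℝ) ^ 2) := by
        linarith [h1 c σ τ]
    _ = _ := by ring

private theorem N6_step {d k : ℕ} (G : Site d k → ℝ) :
    (∑ x, PP G x ^ 2) ^ 2 ≤ (∑ x, G x ^ 2) * ∑ x, PP (PP G) x ^ 2 := by
  have h1 : ∑ x, PP G x ^ 2 = ∑ x, G x * PP (PP G) x := by
    have h := PPt_adj 1 G (PP G)
    simp only [Function.iterate_one] at h
    rw [← h]
    exact Finset.sum_congr rfl fun x _ => by ring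
  rw [h1]
  exact Finset.sum_mul_sq_le_sq_mul_sq _ _ _

theorem log_convex {d k : ℕ} (t : ℕ) (ht : 1 ≤ t) (F : Site d k → ℝ) :
    (∑ x, PP F x ^ 2) ^ t ≤ (∑ x, F x ^ 2) ^ (t - 1) * ∑ x, PP^[t] F x ^ 2 := by
  set V : ℕ → ℝ := fun n => ∑ x, PP^[n] F x ^ 2 with hV
  have hV0 : ∀ n, 0 ≤ V n := fun n => Finset.sum_nonneg fun x _ => sq_nonneg _
  have hst : ∀ n, V (n + 1) ^ 2 ≤ V n * V (n + 2) := by
    intro n
    have h := N6_step (PP^[n] F)
    have e1 : PP (PP^[n] F) = PP^[n + 1] F := by rw [Function.iterate_succ_apply']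
    have e2 : PP (PP^[n + 1] F) = PP^[n + 2] F := by rw [← Function.iterate_succ_apply' PP (n + 1)]
    rw [e1, e2] at h
    exact h
  have hR : ∀ n, V 1 * V n ≤ V 0 * V (n + 1) := by
    intro n
    induction n with
    | zero => exact le_of_eq (mul_comm _ _)
    | succ n ih =>
      rcases (hV0 (n + 1)).eq_or_lt with h0 | h0
      · rw [← h0, mul_zero]; exact mul_nonneg (hV0 _) (hV0 _)
      · have h1 : V 1 * V (n + 1) * V (n + 1) ≤ V 0 * V (n + 2) * V (n + 1) := by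
          calc V 1 * V (n + 1) * V (n + 1) = V 1 * V (n + 1) ^ 2 := by ring
            _ ≤ V 1 * (V n * V (n + 2)) := mul_le_mul_of_nonneg_left (hst n) (hV0 1)
            _ = (V 1 * V n) * V (n + 2) := by ring
            _ ≤ (V 0 * V (n + 1)) * V (n + 2) := mul_le_mul_of_nonneg_right ih (hV0 _)
            _ = _ := by ring
        exact le_of_mul_le_mul_right h1 h0
  have hmain : ∀ n, V 1 ^ (n + 1) ≤ V 0 ^ n * V (n + 1) := by
    intro n
    induction n with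
    | zero => simp
    | succ n ih =>
      calc V 1 ^ (n + 1 + 1) = V 1 ^ (n + 1) * V 1 := pow_succ _ _
        _ ≤ V 0 ^ n * V (n + 1) * V 1 := mul_le_mul_of_nonneg_right ih (hV0 1)
        _ = V 0 ^ n * (V 1 * V (n + 1)) := by ring
        _ ≤ V 0 ^ n * (V 0 * V (n + 1 + 1)) := mul_le_mul_of_nonneg_left (hR (n + 1)) (pow_nonneg (hV0 0) _)
        _ = _ := by ring
  obtain ⟨n, rfl⟩ : ∃ n, t = n + 1 := ⟨t - 1, by omega⟩
  exact hmain n

theorem hh_eq {d k q : ℕ} (hd : 1 ≤ d) (hq : 1 ≤ q) (c : Fin q) (f : Site d k → Fin q) (v : Site d k) :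
    hh c f v = ra d q * PP (gg c f) v := by
  have hd' : (d : ℝ) ≠ 0 := by positivity
  have hq' : (q : ℝ) ≠ 0 := by positivity
  unfold hh ra PP gg
  rw [mul_div_assoc', Finset.mul_sum, Finset.sum_div]
  refine Finset.sum_congr rfl fun σ _ => ?_
  field_simp

open scoped Classical in
private theorem N6_gg {d k q : ℕ} {ε : ℝ} (hd : 1 ≤ d) (hq : 1 ≤ q) (hq2 : (q : ℝ) ≤ 2 * d)
    {f : Site d k → Fin q} (hf : Prp f) (hirr : irr ε f ≤ NN d k / (d : ℝ) ^ 4) (c : Fin q) :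
    ∑ x : Site d k, gg c f x ^ 2 ≤ (1 / c1 ε ^ 2 + 4) * NN d k := by
  have hc1 : 0 < c1 ε := by unfold c1; positivity
  have hq0 : (0 : ℝ) < q := by positivity
  have hd0 : (1 : ℝ) ≤ d := by exact_mod_cast hd
  have hN : (0 : ℝ) ≤ NN d k := by unfold NN; positivity
  have hz : ∀ v, 0 ≤ zz f v c ∧ zz f v c ≤ 1 := by
    intro v
    rcases zz_zero_or_one f v c with h | h <;> rw [h] <;> norm_num
  have hpt : ∀ x : Site d k, gg c f x ^ 2 ≤ 1 / c1 ε ^ 2 + (q : ℝ) ^ 2 * if (av f x : ℝ) < c1 ε * q then 1 else 0 := by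
    intro x
    have hav : (1 : ℝ) ≤ av f x := by exact_mod_cast av_pos hf x
    have hg0 : 0 ≤ gg c f x := by
      unfold gg; exact div_nonneg (mul_nonneg hq0.le (hz x).1) (by positivity)
    have hc2 : 0 ≤ 1 / c1 ε ^ 2 := by positivity
    split_ifs with h
    · have : gg c f x ≤ q := by
        unfold gg
        rw [div_le_iff₀ (by positivity)]
        nlinarith [(hz x).1, (hz x).2]
      have := pow_le_pow_left₀ hg0 this 2
      linarith
    · push Not at h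
      have : gg c f x ≤ 1 / c1 ε := by
        unfold gg
        rw [div_le_div_iff₀ (by positivity) hc1]
        nlinarith [(hz x).1, (hz x).2, mul_pos hc1 hq0]
      have := pow_le_pow_left₀ hg0 this 2
      rw [div_pow, one_pow] at this
      linarith
  calc ∑ x : Site d k, gg c f x ^ 2 ≤ ∑ x : Site d k, (1 / c1 ε ^ 2 + (q : ℝ) ^ 2 *
        if (av f x : ℝ) < c1 ε * q then 1 else 0) := Finset.sum_le_sum fun x _ => hpt x
    _ = 1 / c1 ε ^ 2 * NN d k + (q : ℝ) ^ 2 * irr ε f := by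
        rw [Finset.sum_add_distrib, ← Finset.mul_sum]
        congr 1
        · rw [Finset.sum_const, Finset.card_univ, nsmul_eq_mul]
          have : ((Fintype.card (Site d k) : ℕ) : ℝ) = NN d k := card_site d k
          rw [this, mul_comm]
        · unfold irr
          rw [Finset.sum_ite, Finset.sum_const_zero, add_zero, Finset.sum_const, nsmul_eq_mul, mul_one]
    _ ≤ 1 / c1 ε ^ 2 * NN d k + (2 * (d : ℝ)) ^ 2 * (NN d k / (d : ℝ) ^ 4) := by
        gcongr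
        unfold irr; positivity
    _ ≤ 1 / c1 ε ^ 2 * NN d k + 4 * NN d k := by
        have h7 : (2 * (d : ℝ)) ^ 2 * (NN d k / (d : ℝ) ^ 4) ≤ 4 * NN d k := by
          rw [mul_div_assoc', div_le_iff₀ (by positivity)]
          have h6 : (d : ℝ) ^ 2 ≤ (d : ℝ) ^ 4 := pow_le_pow_right₀ hd0 (by norm_num)
          nlinarith
        linarith
    _ = _ := by ring

/-- deterministic form of homogeneity -/
theorem hom_det {ε : ℝ} (hε : 0 < ε) (hε1 : ε ≤ 1) (t : ℕ) (ht : 1 ≤ t) (C₆ : ℝ) (hC : 0 < C₆) (δ : ℝ) (hδ : 0 < δ) :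
    EvT ε fun d k q => ∀ f ∈ prps d k q, irr ε f ≤ NN d k / (d : ℝ) ^ 4 → ∀ (c : Fin q) (σ τ : Stp d),
      ∑ x : Site d k, (PP^[t] (gg c f) (x + sv σ) - PP^[t] (gg c f) (x + sv τ)) ^ 2 ≤ C₆ * NN d k / (q : ℝ) ^ 2 →
      ∑ x : Site d k, (hh c f (x + sv σ) - hh c f (x + sv τ)) ^ 2 ≤ δ * NN d k := by
  have hc1 : 0 < c1 ε := by unfold c1; positivity
  have hA0 : 0 < A0 ε := by unfold A0; positivity
  set C : ℝ := 4 * (1 / c1 ε ^ 2 + 4) with hCdef
  have hCpos : 0 < C := by positivity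
  set δ' : ℝ := δ / A0 ε ^ 2 with hδ'
  have hδ'pos : 0 < δ' := by positivity
  refine (EvT_reg hε hε1 (max 1 (C ^ (t - 1) * C₆ / δ' ^ t))).mono ?_
  rintro d k q ⟨hd, hq, -, hεq, hq2, -, hra, hraq⟩ f hf hirr c σ τ hV
  have hd1 : (1 : ℝ) ≤ d := le_trans (le_max_left _ _) hd
  have hq1 : (1 : ℝ) ≤ q := le_trans (le_max_left _ _) hq
  have hqM : C ^ (t - 1) * C₆ / δ' ^ t ≤ q := le_trans (le_max_right _ _) hq
  have hd1' : 1 ≤ d := by exact_mod_cast hd1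
  have hq1' : 1 ≤ q := by exact_mod_cast hq1
  have hN : (0 : ℝ) < NN d k := by unfold NN; positivity
  have hq2d : (q : ℝ) ≤ 2 * d := by nlinarith
  have hfP : Prp f := by
    classical
    unfold prps at hf
    rw [Finset.mem_filter] at hf
    exact hf.2
  have hgs := N6_gg hd1' hq1' hq2d hfP hirr c
  set F : Site d k → ℝ := fun x => gg c f (x + sv σ) - gg c f (x + sv τ) with hF
  -- V 0
  have hV0 : ∑ x, F x ^ 2 ≤ C * NN d k := by
    have : ∀ x, F x ^ 2 ≤ 2 * gg c f (x + sv σ) ^ 2 + 2 * gg c f (x + sv τ) ^ 2 := by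
      intro x
      simp only [hF]
      nlinarith [sq_nonneg (gg c f (x + sv σ) + gg c f (x + sv τ))]
    calc ∑ x, F x ^ 2 ≤ ∑ x, (2 * gg c f (x + sv σ) ^ 2 + 2 * gg c f (x + sv τ) ^ 2) :=
          Finset.sum_le_sum fun x _ => this x
      _ = 4 * ∑ x, gg c f x ^ 2 := by
          rw [Finset.sum_add_distrib, ← Finset.mul_sum, ← Finset.mul_sum, N6_shift (fun x => gg c f x ^ 2),
            N6_shift (fun x => gg c f x ^ 2)]
          ring
      _ ≤ 4 * ((1 / c1 ε ^ 2 + 4) * NN d k) := by linarith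
      _ = _ := by rw [hCdef]; ring
  have hPt : ∀ (n : ℕ) (x : Site d k), PP^[n] F x = PP^[n] (gg c f) (x + sv σ) - PP^[n] (gg c f) (x + sv τ) := by
    intro n x
    rw [hF, PPt_sub n (fun y => gg c f (y + sv σ)) (fun y => gg c f (y + sv τ)) x, PPt_transl, PPt_transl]
  have hVt : ∑ x, PP^[t] F x ^ 2 ≤ C₆ * NN d k / (q : ℝ) ^ 2 := by
    simpa only [hPt t] using hV
  have hhs : ∑ x : Site d k, (hh c f (x + sv σ) - hh c f (x + sv τ)) ^ 2 = ra d q ^ 2 * ∑ x, PP F x ^ 2 := by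
    rw [Finset.mul_sum]
    refine Finset.sum_congr rfl fun x _ => ?_
    have h1 := hPt 1 x
    simp only [Function.iterate_one] at h1
    rw [h1, hh_eq hd1' hq1', hh_eq hd1' hq1']
    ring
  have hra0 : 0 ≤ ra d q := by unfold ra; positivity
  have hlc := log_convex t ht F
  have hV1 : ∑ x, PP F x ^ 2 ≤ δ' * NN d k := by
    by_contra hcon
    push Not at hcon
    have h1 : (δ' * NN d k) ^ t < (∑ x, PP F x ^ 2) ^ t :=
      pow_lt_pow_left₀ hcon (by positivity) (by omega)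
    have h2 : (∑ x, F x ^ 2) ^ (t - 1) * ∑ x, PP^[t] F x ^ 2 ≤
        (C * NN d k) ^ (t - 1) * (C₆ * NN d k / (q : ℝ) ^ 2) := by
      have h00 : 0 ≤ ∑ x, F x ^ 2 := Finset.sum_nonneg fun x _ => sq_nonneg _
      have h01 : 0 ≤ ∑ x, PP^[t] F x ^ 2 := Finset.sum_nonneg fun x _ => sq_nonneg _
      exact mul_le_mul (pow_le_pow_left₀ h00 hV0 _) hVt h01 (by positivity)
    have h3 : (δ' * NN d k) ^ t < (C * NN d k) ^ (t - 1) * (C₆ * NN d k / (q : ℝ) ^ 2) := by linarith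
    have h4 : (C * NN d k) ^ (t - 1) * (C₆ * NN d k / (q : ℝ) ^ 2) =
        (C ^ (t - 1) * C₆ / (q : ℝ) ^ 2) * NN d k ^ t := by
      obtain ⟨n, rfl⟩ : ∃ n, t = n + 1 := ⟨t - 1, by omega⟩
      simp only [Nat.add_sub_cancel]
      rw [mul_pow, pow_succ (NN d k) n]
      ring
    rw [h4, mul_pow] at h3
    have h5 : δ' ^ t < C ^ (t - 1) * C₆ / (q : ℝ) ^ 2 := lt_of_mul_lt_mul_right h3 (by positivity)
    rw [lt_div_iff₀ (by positivity)] at h5
    rw [div_le_iff₀ (by positivity)] at hqM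
    have h6 : (q : ℝ) ≤ (q : ℝ) ^ 2 := by nlinarith
    have h7 : (q : ℝ) * δ' ^ t ≤ δ' ^ t * (q : ℝ) ^ 2 := by
      rw [mul_comm]
      exact mul_le_mul_of_nonneg_left h6 (by positivity)
    linarith
  rw [hhs]
  have hra2 : ra d q ^ 2 ≤ A0 ε ^ 2 := pow_le_pow_left₀ hra0 hra 2
  calc ra d q ^ 2 * ∑ x, PP F x ^ 2 ≤ A0 ε ^ 2 * (δ' * NN d k) :=
        mul_le_mul hra2 hV1 (Finset.sum_nonneg fun x _ => sq_nonneg _) (by positivity)
    _ = δ * NN d k := by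
        rw [hδ']
        field_simp

end Pool.Agent.THR
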