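import Pool.Agent.Lib_MP_2c424f_thr.M1
import Pool.Agent.Lib_MP_2c424f_thr.N6

/-!
# THR M5: the smoothed densities are the mean-field densities (paper proof: M5), deterministic

`‖g‖ = (∑ g²)^(1/2)`; `PP` is a contraction (`PPt_l2`), commutes with translations.  From homogeneity `‖h(·+σ) - h(·+τ)‖ ≤ √(δ'N)`:
`(PP² h - h)(x)` is the mean over `σ, τ` of `h(x+σ+opp τ) - h(x + τ + opp τ)`, so `‖PP² h - h‖ ≤ √(δ'N)`, `‖PP^(2j) h - h‖ ≤ j √(δ'N)`;
`‖PP h - h(·+σ)‖ ≤ √(δ'N)`.  `gg`: `a PP gg = hh`.  `t` even: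
* `a PP^t gg = PP^(t-1) h = PP (PP^(t-2) h)`, distance to `h(·+σ)` at most `(t/2) √(δ'N)`, and `‖h(·+σ) - a ya‖ ≤ √(δ'N)` by `mf` with the opposite step.
* `a PP^(t+1) gg = PP^t h`, close to `h`, close to `a ya(·+σ)`.
* `PP^(2t) h` close to `h`.      `a ≥ 1`.
-/

set_option autoImplicit false

open Finset Filter

namespace Pool.Agent.THR

open Pool.Agent.LO Pool.Agent.LIN

/-! ### Norms -/

/-- `(∑ g²)^(1/2)` -/
private noncomputable def M5_n {d k : ℕ} (g : Site d k → ℝ) : ℝ :=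
  ‖(WithLp.toLp 2 g : EuclideanSpace ℝ (Site d k))‖

private theorem M5_n_nonneg {d k : ℕ} (g : Site d k → ℝ) : 0 ≤ M5_n g := norm_nonneg _

private theorem M5_n_sq {d k : ℕ} (g : Site d k → ℝ) : M5_n g ^ 2 = ∑ x, g x ^ 2 := by
  unfold M5_n
  rw [EuclideanSpace.norm_sq_eq]
  exact Finset.sum_congr rfl fun x _ => by simp

private theorem M5_n_le {d k : ℕ} {g : Site d k → ℝ} {D : ℝ} (hD : 0 ≤ D) (h : ∑ x, g x ^ 2 ≤ D ^ 2) :
    M5_n g ≤ D := by
  rw [← M5_n_sq] at h
  exact (sq_le_sq₀ (M5_n_nonneg g) hD).mp h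

private theorem M5_n_le' {d k : ℕ} {g : Site d k → ℝ} {D : ℝ} (h : M5_n g ≤ D) :
    ∑ x, g x ^ 2 ≤ D ^ 2 := by
  rw [← M5_n_sq]
  exact pow_le_pow_left₀ (M5_n_nonneg g) h 2

private theorem M5_n_add {d k : ℕ} (g h : Site d k → ℝ) :
    M5_n (fun x => g x + h x) ≤ M5_n g + M5_n h := by
  have h1 := norm_add_le (WithLp.toLp 2 g : EuclideanSpace ℝ (Site d k)) (WithLp.toLp 2 h)
  exact h1

private theorem M5_n_smul {d k : ℕ} (c : ℝ) (g : Site d k → ℝ) :
    M5_n (fun x => c * g x) = |c| * M5_n g := by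
  have h1 := norm_smul c (WithLp.toLp 2 g : EuclideanSpace ℝ (Site d k))
  exact h1

private theorem M5_n_zero {d k : ℕ} : M5_n (fun _ : Site d k => (0 : ℝ)) = 0 := by
  have h1 := M5_n_sq (fun _ : Site d k => (0 : ℝ))
  simpa using h1

private theorem M5_n_sum {d k : ℕ} {ι : Type*} (A : Finset ι) (g : ι → Site d k → ℝ) :
    M5_n (fun x => ∑ i ∈ A, g i x) ≤ ∑ i ∈ A, M5_n (g i) := by
  classical
  induction A using Finset.induction_on with
  | empty => simp [M5_n_zero]
  | insert i A hi ih =>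
    simp only [Finset.sum_insert hi]
    exact (M5_n_add _ _).trans (add_le_add le_rfl ih)

private theorem M5_n_transl {d k : ℕ} (g : Site d k → ℝ) (v : Site d k) :
    M5_n (fun x => g (x + v)) = M5_n g := by
  have h1 : M5_n (fun x => g (x + v)) ^ 2 = M5_n g ^ 2 := by
    rw [M5_n_sq, M5_n_sq]
    exact Fintype.sum_equiv (Equiv.addRight v) _ _ fun x => by simp
  exact (sq_eq_sq₀ (M5_n_nonneg _) (M5_n_nonneg _)).mp h1

/-- the mean over the steps of functions of norm at most `D` -/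
private theorem M5_n_mean {d k : ℕ} (hd : 1 ≤ d) (D : ℝ) (g : Stp d → Site d k → ℝ)
    (h : ∀ σ, M5_n (g σ) ≤ D) : M5_n (fun x => (∑ σ, g σ x) / (2 * d)) ≤ D := by
  have hd0 : (0 : ℝ) < 2 * d := by
    have : (1 : ℝ) ≤ d := by exact_mod_cast hd
    linarith
  have h1 : (fun x => (∑ σ, g σ x) / (2 * d)) = fun x => (1 / (2 * d : ℝ)) * ∑ σ, g σ x := by
    funext x
    ring
  rw [h1, M5_n_smul, abs_of_pos (by positivity)]
  have h2 : M5_n (fun x => ∑ σ, g σ x) ≤ 2 * d * D := by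
    refine (M5_n_sum _ _).trans ?_
    refine (Finset.sum_le_sum fun σ _ => h σ).trans ?_
    rw [Finset.sum_const, Finset.card_univ, Fintype.card_prod, Fintype.card_fin, Fintype.card_bool,
      nsmul_eq_mul]
    push_cast
    linarith
  calc 1 / (2 * d : ℝ) * M5_n (fun x => ∑ σ, g σ x) ≤ 1 / (2 * d : ℝ) * (2 * d * D) :=
        mul_le_mul_of_nonneg_left h2 (by positivity)
    _ = D := by field_simp

private theorem M5_opp {d k : ℕ} (σ : Stp d) : (sv σ : Site d k) + sv (opp σ) = 0 := by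
  obtain ⟨i, b⟩ := σ
  unfold sv opp
  cases b <;> simp [← Pi.single_add]

private theorem M5_opp' {d k : ℕ} (σ : Stp d) : (sv (opp σ) : Site d k) + sv σ = 0 := by
  rw [add_comm, M5_opp]

private theorem M5_card {d k : ℕ} (hd : 1 ≤ d) (c : ℝ) (σ : Stp d) :
    c = (∑ _τ : Stp d, c) / (2 * d) := by
  have hd0 : (2 * d : ℝ) ≠ 0 := by
    have : (1 : ℝ) ≤ d := by exact_mod_cast hd
    positivity
  rw [Finset.sum_const, Finset.card_univ, Fintype.card_prod, Fintype.card_fin, Fintype.card_bool,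
    nsmul_eq_mul]
  push_cast
  field_simp

/-- `‖PP h - h(·+σ)‖ ≤ D` -/
private theorem M5_a {d k : ℕ} (hd : 1 ≤ d) (D : ℝ) (h : Site d k → ℝ)
    (hh : ∀ σ τ : Stp d, M5_n (fun x => h (x + sv σ) - h (x + sv τ)) ≤ D) (σ : Stp d) :
    M5_n (fun x => PP h x - h (x + sv σ)) ≤ D := by
  have h1 : (fun x => PP h x - h (x + sv σ)) =
      fun x => (∑ τ : Stp d, (h (x + sv τ) - h (x + sv σ))) / (2 * d) := by
    funext x
    rw [Finset.sum_sub_distrib, sub_div, ← M5_card (k := k) hd _ σ]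
    rfl
  rw [h1]
  exact M5_n_mean hd D (fun τ x => h (x + sv τ) - h (x + sv σ)) fun τ => hh τ σ

/-- `‖PP² h - h‖ ≤ D` -/
private theorem M5_b {d k : ℕ} (hd : 1 ≤ d) (D : ℝ) (h : Site d k → ℝ)
    (hh : ∀ σ τ : Stp d, M5_n (fun x => h (x + sv σ) - h (x + sv τ)) ≤ D) :
    M5_n (fun x => PP (PP h) x - h x) ≤ D := by
  have σ0 : Stp d := (⟨0, hd⟩, true)
  have h1 : (fun x => PP (PP h) x - h x) =
      fun x => (∑ τ : Stp d, (PP h (x + sv τ) - h (x + sv τ + sv (opp τ)))) / (2 * d) := by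
    funext x
    have h2 : ∀ τ : Stp d, x + sv τ + sv (opp τ) = x := fun τ => by
      rw [add_assoc, M5_opp, add_zero]
    simp only [h2]
    rw [Finset.sum_sub_distrib, sub_div, ← M5_card (k := k) hd _ σ0]
    rfl
  rw [h1]
  refine M5_n_mean hd D (fun τ x => PP h (x + sv τ) - h (x + sv τ + sv (opp τ))) fun τ => ?_
  have h3 := M5_n_transl (fun y => PP h y - h (y + sv (opp τ))) (sv τ)
  have h4 := M5_a hd D h hh (opp τ)
  rw [← h3] at h4
  exact h4

/-- contraction -/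
private theorem M5_contr {d k : ℕ} (hd : 1 ≤ d) (t : ℕ) (g : Site d k → ℝ) :
    M5_n (fun x => PP^[t] g x) ≤ M5_n g := by
  apply M5_n_le (M5_n_nonneg g)
  rw [M5_n_sq]
  exact PPt_l2 hd t g

/-- `‖PP^(2j) h - h‖ ≤ j D` -/
private theorem M5_c {d k : ℕ} (hd : 1 ≤ d) (D : ℝ) (h : Site d k → ℝ)
    (hh : ∀ σ τ : Stp d, M5_n (fun x => h (x + sv σ) - h (x + sv τ)) ≤ D) (j : ℕ) :
    M5_n (fun x => PP^[2 * j] h x - h x) ≤ j * D := by
  induction j with
  | zero =>
    have : (fun x : Site d k => PP^[2 * 0] h x - h x) = fun _ => 0 := by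
      funext x
      simp
    rw [this, M5_n_zero]
    simp
  | succ j ih =>
    have h1 : (fun x : Site d k => PP^[2 * (j + 1)] h x - h x) =
        fun x => PP^[2 * j] (fun y => PP (PP h) y - h y) x + (PP^[2 * j] h x - h x) := by
      funext x
      rw [PPt_sub]
      have h2 : PP^[2 * (j + 1)] h = PP^[2 * j] (PP (PP h)) := by
        rw [show 2 * (j + 1) = 2 * j + 1 + 1 by ring, Function.iterate_succ_apply,
          Function.iterate_succ_apply]
      rw [h2]
      have h3 : PP^[2 * j] (fun y => PP (PP h) y) x = PP^[2 * j] (PP (PP h)) x := rfl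
      ring
    rw [h1]
    refine (M5_n_add _ _).trans ?_
    have h4 := (M5_contr hd (2 * j) (fun y => PP (PP h) y - h y)).trans (M5_b hd D h hh)
    push_cast
    linarith

/-- `a PP^[t+1] g = PP^[t] h` if `h = a PP g` -/
private theorem M5_shift {d k : ℕ} (a : ℝ) (g h : Site d k → ℝ) (hg : ∀ x, h x = a * PP g x) (t : ℕ)
    (x : Site d k) : a * PP^[t + 1] g x = PP^[t] h x := by
  have h1 : h = fun x => a * PP g x := funext hg
  rw [h1, PPt_mul, Function.iterate_succ_apply]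

theorem sm_det {ε : ℝ} (hε : 0 < ε) (hε1 : ε ≤ 1) (t : ℕ) (ht : Even t) (ht' : 2 ≤ t) (δ : ℝ) (hδ : 0 < δ) :
    ∃ δ' : ℝ, 0 < δ' ∧ EvT ε fun d k q => ∀ f ∈ prps d k q,
      (∀ (c : Fin q) (σ τ : Stp d), ∑ x : Site d k, (hh c f (x + sv σ) - hh c f (x + sv τ)) ^ 2 ≤ δ' * NN d k) →
      (∀ (c : Fin q) (σ : Stp d), ∑ u : Site d k, (hh c f u - ra d q * ya c f (u + sv σ)) ^ 2 ≤ δ' * NN d k) →
      (∀ c : Fin q, ∑ u : Site d k, (PP^[t] (gg c f) u - ya c f u) ^ 2 ≤ δ * NN d k) ∧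
      (∀ (c : Fin q) (σ : Stp d), ∑ u : Site d k, (PP^[t + 1] (gg c f) u - ya c f (u + sv σ)) ^ 2 ≤ δ * NN d k) ∧
      ∀ c : Fin q, ∑ u : Site d k, (PP^[2 * t] (hh c f) u - hh c f u) ^ 2 ≤ δ * NN d k := by
  have ht1 : (0 : ℝ) < (t : ℝ) + 1 := by positivity
  refine ⟨δ / ((t : ℝ) + 1) ^ 2, by positivity, 1, fun d q hd hq1 hq2 => Eventually.of_forall fun k => ?_⟩
  intro f hf hhom hmf
  have hd1 : (1 : ℝ) ≤ d := by exact_mod_cast hd
  have hq0 : (0 : ℝ) < q := by
    have : 0 < ε * d := by positivity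
    linarith
  have hq : 1 ≤ q := by exact_mod_cast (show 0 < q by exact_mod_cast hq0)
  have ha : 1 ≤ ra d q := by
    unfold ra
    rw [le_div_iff₀ hq0]
    nlinarith
  have hN : 0 < NN d k := by
    unfold NN
    positivity
  set D : ℝ := Real.sqrt (δ / ((t : ℝ) + 1) ^ 2 * NN d k) with hDdef
  have hD0 : 0 ≤ D := Real.sqrt_nonneg _
  have hD2 : D ^ 2 = δ / ((t : ℝ) + 1) ^ 2 * NN d k := Real.sq_sqrt (by positivity)
  have hfin : ∀ r : ℝ, 0 ≤ r → r ≤ (t : ℝ) + 1 → (r * D) ^ 2 ≤ δ * NN d k := by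
    intro r hr hr1
    calc (r * D) ^ 2 = r ^ 2 * D ^ 2 := by ring
      _ ≤ ((t : ℝ) + 1) ^ 2 * D ^ 2 :=
          mul_le_mul_of_nonneg_right (pow_le_pow_left₀ hr hr1 2) (sq_nonneg D)
      _ = δ * NN d k := by
          rw [hD2]
          field_simp
  obtain ⟨s, hs⟩ := ht
  have hs1 : 1 ≤ s := by omega
  have hts : (t : ℝ) = 2 * s := by
    rw [hs]
    push_cast
    ring
  have hs1' : (1 : ℝ) ≤ s := by exact_mod_cast hs1
  have hh1 : ∀ (c : Fin q) (σ τ : Stp d),
      M5_n (fun x => hh c f (x + sv σ) - hh c f (x + sv τ)) ≤ D := by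
    intro c σ τ
    apply M5_n_le hD0
    rw [hD2]
    exact hhom c σ τ
  have hm1 : ∀ (c : Fin q) (σ : Stp d),
      M5_n (fun u => hh c f u - ra d q * ya c f (u + sv σ)) ≤ D := by
    intro c σ
    apply M5_n_le hD0
    rw [hD2]
    exact hmf c σ
  have hgh : ∀ (c : Fin q) (x : Site d k), hh c f x = ra d q * PP (gg c f) x :=
    fun c x => hh_eq hd hq c f x
  refine ⟨fun c => ?_, fun c σ => ?_, fun c => ?_⟩
  · -- first statement
    have σ : Stp d := (⟨0, hd⟩, true)
    have h1 : M5_n (fun u => ra d q * (PP^[t] (gg c f) u - ya c f u)) ≤ (s + 1) * D := by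
      have e1 : (fun u => ra d q * (PP^[t] (gg c f) u - ya c f u)) = fun u =>
          (PP^[1] (fun y => PP^[2 * (s - 1)] (hh c f) y - hh c f y) u +
            (PP (hh c f) u - hh c f (u + sv σ))) +
            (hh c f (u + sv σ) - ra d q * ya c f (u + sv σ + sv (opp σ))) := by
        funext u
        rw [PPt_sub, mul_sub]
        have e2 : ra d q * PP^[t] (gg c f) u = PP^[1] (fun y => PP^[2 * (s - 1)] (hh c f) y) u := by
          have e3 : t = (2 * (s - 1) + 1) + 1 := by omega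
          rw [e3, M5_shift (ra d q) (gg c f) (hh c f) (hgh c)]
          rw [Function.iterate_succ_apply']
          rfl
        rw [e2, add_assoc u, M5_opp, add_zero]
        have e4 : PP^[1] (fun y => hh c f y) u = PP (hh c f) u := rfl
        rw [e4]
        ring
      rw [e1]
      refine (M5_n_add _ _).trans ?_
      have h2 := M5_n_add (fun u => PP^[1] (fun y => PP^[2 * (s - 1)] (hh c f) y - hh c f y) u)
        (fun u => PP (hh c f) u - hh c f (u + sv σ))
      have h3 := (M5_contr hd 1 (fun y => PP^[2 * (s - 1)] (hh c f) y - hh c f y)).trans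
        (M5_c hd D (hh c f) (hh1 c) (s - 1))
      have h4 := M5_a hd D (hh c f) (hh1 c) σ
      have h5 : M5_n (fun u => hh c f (u + sv σ) - ra d q * ya c f (u + sv σ + sv (opp σ))) ≤ D := by
        have h6 := M5_n_transl (fun u => hh c f u - ra d q * ya c f (u + sv (opp σ))) (sv σ)
        have h7 := hm1 c (opp σ)
        rw [← h6] at h7
        exact h7
      have h8 : ((s - 1 : ℕ) : ℝ) = s - 1 := by
        rw [Nat.cast_sub hs1]
        simp
      rw [h8] at h3
      linarith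
    rw [M5_n_smul, abs_of_pos (by linarith)] at h1
    have h9 : M5_n (fun u => PP^[t] (gg c f) u - ya c f u) ≤ (s + 1) * D := by
      refine le_trans ?_ h1
      exact le_mul_of_one_le_left (M5_n_nonneg _) ha
    exact (M5_n_le' h9).trans (hfin _ (by linarith) (by linarith))
  · -- second statement
    have h1 : M5_n (fun u => ra d q * (PP^[t + 1] (gg c f) u - ya c f (u + sv σ))) ≤ (s + 1) * D := by
      have e1 : (fun u => ra d q * (PP^[t + 1] (gg c f) u - ya c f (u + sv σ))) = fun u =>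
          (PP^[2 * s] (hh c f) u - hh c f u) + (hh c f u - ra d q * ya c f (u + sv σ)) := by
        funext u
        rw [mul_sub, M5_shift (ra d q) (gg c f) (hh c f) (hgh c), show t = 2 * s by omega]
        ring
      rw [e1]
      refine (M5_n_add _ _).trans ?_
      have h2 := M5_c hd D (hh c f) (hh1 c) s
      have h3 := hm1 c σ
      linarith
    rw [M5_n_smul, abs_of_pos (by linarith)] at h1
    have h9 : M5_n (fun u => PP^[t + 1] (gg c f) u - ya c f (u + sv σ)) ≤ (s + 1) * D := by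
      refine le_trans ?_ h1
      exact le_mul_of_one_le_left (M5_n_nonneg _) ha
    exact (M5_n_le' h9).trans (hfin _ (by linarith) (by linarith))
  · -- third statement
    have h2 := M5_c hd D (hh c f) (hh1 c) t
    exact (M5_n_le' h2).trans (hfin _ (by positivity) (by linarith))

end Pool.Agent.THR
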