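import Pool.Agent.Lib_MP_2c424f_thr.M2
import Pool.Agent.Lib_MP_2c424f_thr.M3
import Pool.Agent.Lib_MP_2c424f_thr.M4
import Pool.Agent.Lib_MP_2c424f_thr.M5

/-!
# THR M6: good colourings

`avail 4`, `grad_gg` (fixes `t`, `C₆`), `smooth t`, `hom_det`, `avl_wop`, `lln_wop`, `mf_det`, `sm_det`; union of the rare events
(`WOP.and`, `WOP.mono`).
-/

set_option autoImplicit false

open Finset Filter

namespace Pool.Agent.THR

open Pool.Agent.LO Pool.Agent.LIN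

theorem good_wop {ε : ℝ} (hε : 0 < ε) (hε1 : ε ≤ 1) : ∃ (t : ℕ) (C₆ : ℝ), Even t ∧ 20 ≤ t ∧ 0 < C₆ ∧
    ∀ δ : ℝ, 0 < δ → WOP ε fun _ _ _ f => Good ε δ C₆ t f := by
  obtain ⟨t, C₆, hte, ht, hC, hgr⟩ := grad_gg hε hε1
  refine ⟨t, C₆, hte, ht, hC, fun δ hδ => ?_⟩
  obtain ⟨δs, hδs, hsm⟩ := sm_det hε hε1 t hte (le_trans (by norm_num) ht) δ hδ
  have hδ1 : 0 < min δ δs := lt_min hδ hδs
  obtain ⟨δm, hδm, hmf⟩ := mf_det hε hε1 (min δ δs) hδ1
  have hδ2 : 0 < min (min δ δs) δm := lt_min hδ1 hδm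
  have hhom := hom_det hε hε1 t (le_trans (by norm_num) ht) C₆ hC (min (min δ δs) δm) hδ2
  have hW := ((((avail hε hε1 4).and hgr).and (smooth hε hε1 t hte ht)).and
    (avl_wop hε hε1 (min (min δ δs) δm) hδ2)).and (lln_wop hε hε1 δm hδm)
  refine hW.mono ?_
  refine ((hhom.and hmf).and hsm).mono ?_
  rintro d k q ⟨⟨h1, h2⟩, h3⟩ f hf ⟨⟨⟨⟨hirr, hgrad⟩, hsmo⟩, havl⟩, hlln⟩
  have hN : (0 : ℝ) ≤ NN d k := by
    unfold NN
    positivity
  have a1 : min (min δ δs) δm ≤ δ := le_trans (min_le_left _ _) (min_le_left _ _)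
  have a2 : min (min δ δs) δm ≤ δs := le_trans (min_le_left _ _) (min_le_right _ _)
  have a3 : min (min δ δs) δm ≤ δm := min_le_right _ _
  have a4 : min δ δs ≤ δ := min_le_left _ _
  have a5 : min δ δs ≤ δs := min_le_right _ _
  have hhom' : ∀ (c : Fin q) (σ τ : Stp d), ∑ x : Site d k, (hh c f (x + sv σ) - hh c f (x + sv τ)) ^ 2 ≤
      min (min δ δs) δm * NN d k := fun c σ τ => h1 f hf hirr c σ τ (hgrad c σ τ)
  have hmf' : ∀ (c : Fin q) (σ : Stp d), ∑ u : Site d k, (hh c f u - ra d q * ya c f (u + sv σ)) ^ 2 ≤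
      min δ δs * NN d k :=
    h2 f hf hirr (fun c σ τ => (hhom' c σ τ).trans (mul_le_mul_of_nonneg_right a3 hN))
      (havl.trans (mul_le_mul_of_nonneg_right a3 hN)) hlln
  obtain ⟨s0, s1, s2⟩ := h3 f hf (fun c σ τ => (hhom' c σ τ).trans (mul_le_mul_of_nonneg_right a2 hN))
    (fun c σ => (hmf' c σ).trans (mul_le_mul_of_nonneg_right a5 hN))
  exact
    { irr4 := hirr
      grad := hgrad
      smo := hsmo
      hom := fun c σ τ => (hhom' c σ τ).trans (mul_le_mul_of_nonneg_right a1 hN)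
      avl := havl.trans (mul_le_mul_of_nonneg_right a1 hN)
      mf := fun c σ => (hmf' c σ).trans (mul_le_mul_of_nonneg_right a4 hN)
      sm0 := s0
      sm1 := s1
      sm2 := s2 }

end Pool.Agent.THR
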