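import Pool.Agent.Lib_MP_2c424f_thr.C3
import Pool.Agent.Lib_MP_2c424f_thr.C4
import Pool.Agent.Lib_MP_2c424f_thr.M6

/-!
# THR C5: the environment is pinned (paper proof: C5)

Fix `δ`.  `J_det` with `δ/8`, `Z_lower` with `δ/8`, `sample_num` with `δ/8`.  `F` = proper colourings which are good (`δ'`) with
`∑_{u ∈ b} mc (L (ya_u)) > δN`.  For every `f ∈ F` take `R` from `sample_H`; for fixed `R` use `code` with `Hf = Hs t R`,
`Λ = (N/2)(2 log q + Phi) - δN + δN/8`.  Union bound over the sets `R` (the sample depends on `f`), `sample_num` counts them and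
contains the factor `q^|R|` of `code`: `|F| ≤ exp (δN/8) exp Λ ≤ Z exp (-δN/2)`, which is `Rar`.  Union with the rare event of `good_wop`.
-/

set_option autoImplicit false

open Finset Filter

namespace Pool.Agent.THR

open Pool.Agent.LO Pool.Agent.LIN

open scoped Classical in
/-- one step: the number of good colourings with a large deficit -/
private theorem C5_count {d k q : ℕ} (hk : 1 ≤ k) (hq : 1 ≤ q) (b : Bool) (t : ℕ) (N r Λ δn : ℝ)
    (F : Finset (Site d k → Fin q)) (hF : F ⊆ prps d k q) (G : (Site d k → Fin q) → Finset (Site d k) → Prop)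
    (hR : ∀ f ∈ F, ∃ R : Finset (Site d k), (R.card : ℝ) ≤ r ∧ G f R)
    (hJ : ∀ f ∈ F, ∀ R : Finset (Site d k), G f R → JJ b (Hs t R f) f ≤ Λ)
    (hn : (((univ : Finset (Finset (Site d k))).filter fun R => (R.card : ℝ) ≤ r).card : ℝ) * (q : ℝ) ^ r ≤
      Real.exp (δn * N)) : (F.card : ℝ) ≤ Real.exp (δn * N) * Real.exp Λ := by
  have hq1 : (1 : ℝ) ≤ q := by exact_mod_cast hq
  have hsub : F ⊆ ((univ : Finset (Finset (Site d k))).filter fun R => (R.card : ℝ) ≤ r).biUnion
      fun R => F.filter fun f => G f R := by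
    intro f hf
    obtain ⟨R, h1, h2⟩ := hR f hf
    rw [mem_biUnion]
    exact ⟨R, mem_filter.2 ⟨mem_univ _, h1⟩, mem_filter.2 ⟨hf, h2⟩⟩
  have h1 : (F.card : ℝ) ≤ ∑ R ∈ (univ : Finset (Finset (Site d k))).filter fun R => (R.card : ℝ) ≤ r,
      ((F.filter fun f => G f R).card : ℝ) := by
    exact_mod_cast (card_le_card hsub).trans card_biUnion_le
  have h2 : ∀ R ∈ (univ : Finset (Finset (Site d k))).filter fun R => (R.card : ℝ) ≤ r,
      ((F.filter fun f => G f R).card : ℝ) ≤ (q : ℝ) ^ r * Real.exp Λ := by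
    intro R hR
    have hR' : (R.card : ℝ) ≤ r := (mem_filter.1 hR).2
    have h3 := code hk hq b R (fun f => Hs t R f) (fun f g h => Hs_loc t R f g h) (F.filter fun f => G f R)
      ((filter_subset _ _).trans hF) Λ fun f hf => hJ f (mem_filter.1 hf).1 R (mem_filter.1 hf).2
    refine h3.trans (mul_le_mul_of_nonneg_right ?_ (Real.exp_pos _).le)
    rw [← Real.rpow_natCast]
    exact Real.rpow_le_rpow_of_exponent_le hq1 hR'
  refine h1.trans ((sum_le_sum h2).trans ?_)
  rw [sum_const, nsmul_eq_mul, ← mul_assoc]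
  exact mul_le_mul_of_nonneg_right hn (Real.exp_pos _).le

theorem env_wop {ε : ℝ} (hε : 0 < ε) (hε1 : ε ≤ 1) : ∃ (t : ℕ) (C₆ : ℝ), Even t ∧ 20 ≤ t ∧ 0 < C₆ ∧
    ∀ δ : ℝ, 0 < δ → WOP ε fun d k q f => Good ε δ C₆ t f ∧ ∀ (b : Bool) (m : ℝ), MFE (ra d q) m →
      ∑ u ∈ cls b d k, mc (fun c => LL (ra d q) m (ya c f u)) ≤ δ * NN d k := by
  classical
  obtain ⟨t, C₆, hte, ht, hC, hgood⟩ := good_wop hε hε1
  refine ⟨t, C₆, hte, ht, hC, fun δ hδ => ?_⟩
  obtain ⟨δ', hδ', hJ⟩ := J_det hε hε1 C₆ t hte ht (δ / 8) (by positivity)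
  have hS := sample_H hε hε1 t ht δ' hδ'
  have hn := sample_num hε hε1 (δ / 8) (by positivity)
  have hZ := Z_lower hε hε1 (δ / 8) (by positivity)
  have hW1 : WOPi ε (fun _ _ _ => Bool) fun d k q b f => Good ε δ' C₆ t f → ∀ m : ℝ, MFE (ra d q) m →
      ∑ u ∈ cls b d k, mc (fun c => LL (ra d q) m (ya c f u)) ≤ δ * NN d k := by
    refine ⟨1, ((((hJ.and hS).and hn).and hZ).and (EvT_reg hε hε1 (max 1 (2 / δ)))).mono ?_⟩
    rintro d k q ⟨⟨⟨⟨HJ, HS⟩, Hn⟩, HZ⟩, hd1, hq1, hk1, -, -, hra, -, -⟩ b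
    have hd : 1 ≤ d := by exact_mod_cast (le_max_left _ _).trans hd1
    have hq : 1 ≤ q := by exact_mod_cast (le_max_left _ _).trans hq1
    have hk : 1 ≤ k := by exact_mod_cast (le_max_left _ _).trans hk1
    have hdd : 2 / δ ≤ d := (le_max_right _ _).trans hd1
    have hd0 : (0 : ℝ) < d := by exact_mod_cast hd
    have hN : 0 ≤ NN d k := by unfold NN; positivity
    have hra1 : 1 < ra d q := by
      refine lt_of_lt_of_le ?_ hra
      unfold a1
      rw [lt_div_iff₀ (by linarith)]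
      linarith
    unfold Rar
    set F : Finset (Site d k → Fin q) := (prps d k q).filter fun f => ¬ (Good ε δ' C₆ t f → ∀ m : ℝ,
      MFE (ra d q) m → ∑ u ∈ cls b d k, mc (fun c => LL (ra d q) m (ya c f u)) ≤ δ * NN d k) with hFdef
    have hZ0 : 0 ≤ ZZ d k q := by unfold ZZ; positivity
    suffices hmain : (F.card : ℝ) ≤ ZZ d k q * Real.exp (-(NN d k / (d : ℝ) ^ 1)) by
      refine le_trans (le_of_eq ?_) hmain
      rw [hFdef]
      exact congrArg Nat.cast (congrArg Finset.card (Finset.ext fun f => by simp only [mem_filter]))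
    rcases F.eq_empty_or_nonempty with he | ⟨f₀, hf₀⟩
    · have h0 : (F.card : ℝ) = 0 := by rw [he]; simp
      rw [h0]
      exact mul_nonneg hZ0 (Real.exp_pos _).le
    · have hFs : F ⊆ prps d k q := filter_subset _ _
      have hZ1 : 0 < ZZ d k q := by
        unfold ZZ
        exact_mod_cast card_pos.2 ⟨f₀, hFs hf₀⟩
      obtain ⟨m, hm⟩ := mfe_exists (ra d q) hra1
      have hFm : ∀ f ∈ F, Good ε δ' C₆ t f ∧
          δ * NN d k < ∑ u ∈ cls b d k, mc (fun c => LL (ra d q) m (ya c f u)) := by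
        intro f hf
        have h1 := (mem_filter.1 hf).2
        push Not at h1
        obtain ⟨h2, m', hm', h3⟩ := h1
        rw [← mfe_unique (ra d q) m m' hra1 hm hm'] at h3
        exact ⟨h2, h3⟩
      set Λ : ℝ := NN d k / 2 * (2 * Real.log q + Phi (ra d q) m) - δ * NN d k + δ / 8 * NN d k with hΛ
      have h1 := C5_count hk hq b t (NN d k) (3 * NN d k / d) Λ (δ / 8) F hFs
        (fun f R => ∑ u ∈ cls b d k, |Hs t R f u (f u) - ra d q * PP^[2 * t + 1] (bq (f u) f) u| ≤ δ' * NN d k ∧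
          ∑ u ∈ cls b d k, mc (fun γ => |Hs t R f u γ - ra d q * PP^[2 * t + 1] (bq γ f) u|) ≤ δ' * NN d k)
        (fun f hf => HS b f (hFs hf))
        (fun f hf R hR => by
          have h2 := HJ b m hm f (hFs hf) (hFm f hf).1 R hR.1 hR.2
          have h3 := (hFm f hf).2
          rw [hΛ]
          linarith) (by convert Hn)
      have h2 := HZ m hm
      have h3 : Real.exp (δ / 8 * NN d k) * Real.exp Λ ≤ ZZ d k q * Real.exp (-(NN d k / (d : ℝ) ^ 1)) := by
        rw [← Real.exp_add]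
        calc Real.exp (δ / 8 * NN d k + Λ) ≤ Real.exp (Real.log (ZZ d k q) + -(NN d k / (d : ℝ) ^ 1)) := by
              refine Real.exp_le_exp.2 ?_
              have h4 : NN d k / (d : ℝ) ^ 1 ≤ δ / 2 * NN d k := by
                rw [pow_one, div_le_iff₀ hd0]
                have h5 : 1 ≤ δ / 2 * d := by
                  have h6 := mul_le_mul_of_nonneg_left hdd (by positivity : 0 ≤ δ / 2)
                  have h7 : δ / 2 * (2 / δ) = 1 := by field_simp
                  linarith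
                have h8 := mul_le_mul_of_nonneg_right h5 hN
                linarith
              have h9 : 0 ≤ δ * NN d k := by positivity
              rw [hΛ]
              linarith
          _ = ZZ d k q * Real.exp (-(NN d k / (d : ℝ) ^ 1)) := by
              rw [Real.exp_add, Real.exp_log hZ1]
      exact h1.trans h3
  have hW2 := WOPi.all hW1 (fun _ _ => 2) fun _ _ _ => by simp
  have hW3 := hgood (min δ δ') (lt_min hδ hδ')
  refine (hW3.and hW2).mono ⟨0, fun d q _ _ _ => Eventually.of_forall fun k f _ h => ?_⟩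
  obtain ⟨hG, hb⟩ := h
  have hN : 0 ≤ NN d k := by unfold NN; positivity
  have hmono : ∀ δ'' : ℝ, min δ δ' ≤ δ'' → Good ε δ'' C₆ t f := by
    intro δ'' hle
    have hb' : min δ δ' * NN d k ≤ δ'' * NN d k := mul_le_mul_of_nonneg_right hle hN
    exact ⟨hG.irr4, hG.grad, hG.smo, fun c σ τ => (hG.hom c σ τ).trans hb', hG.avl.trans hb',
      fun c σ => (hG.mf c σ).trans hb', fun c => (hG.sm0 c).trans hb', fun c σ => (hG.sm1 c σ).trans hb',
      fun c => (hG.sm2 c).trans hb'⟩
  exact ⟨hmono δ (min_le_left _ _), fun b m hm => hb b (hmono δ' (min_le_right _ _)) m hm⟩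

end Pool.Agent.THR
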