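import Pool.Agent.Lib_MP_2c424f_thr.A4
import Pool.Agent.Lib_MP_2c424f_thr.C5
import Pool.Agent.Lib_MP_2c424f_thr.A5a
import Pool.Agent.Lib_MP_2c424f_thr.A5b

/-!
# THR A5: consequences for good colourings (paper proof: A5)

`a = ra d q`, `a1 ε ≤ a ≤ A0 ε` (`EvT_reg`), `1 < a1 ε`, `0 ≤ ya ≤ e^a` (`ya_bound`), `N = NN d k`; from `ℓ²` to `ℓ¹` by Cauchy-Schwarz.
`u = v + σ₀` for a fixed step (sums over all `v` = sums over all `u`); the sums of `mc LL` over both classes add up to at most `2 δ' N`.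
* `al`: `al_v = mc exp (-hh_v)`, `|exp (-hh_v) - exp (-a ya_u)| ≤ |hh_v - a ya_u|` (`mf`), `est1` and `mc (α*(2 - ya_u)) = α*` (`ya_mean`).
* `yF`: `ya_v = exp (-hh_v)/al_v`, `Fy (ya_u) = exp (-a ya_u)/α*`, both denominators `≥ e^(-a)` (`al_ge`, `als_bounds`); `mf` and `al`.
* `d3`: `est3`, `|ya_v - F (F (ya_v))| ≤ |ya_v - F (ya_{v+σ})| + C |ya_{v+σ} - F (ya_v)|` (`Fy_lip`, `yF` twice, the second time at the site `v+σ` with the opposite step).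
* `d2`: `est2` and the hypothesis on `LL`; `|ya - (1 + m eps)| = dst2 m ya` (`eps = 1` iff `ya ≥ 1`).
* `me`: `m · mc eps = mc ((1 + m eps) - ya)`, `m ≥ gap`.
* `fl`: if `eps_v = eps_{v+σ} = e` then `2 m ≤ |(1 + m e) - (1 - m e)| ≤ |ya_v - (1+me)| + |F (ya_{v+σ}) - F (1 + m e)| + |ya_v - F (ya_{v+σ})|`
  (`Fy_add`, `Fy_sub`: `F (1 + m e) = 1 - m e`), `Fy_lip`, `d2`, `yF`, `m ≥ gap`.
-/

set_option autoImplicit false

open Finset Filter

namespace Pool.Agent.THR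

open Pool.Agent.LO Pool.Agent.LIN

/-- the densities are pinned -/
structure Pin {d k q : ℕ} (δ m yM : ℝ) (f : Site d k → Fin q) : Prop where
  al : ∑ v : Site d k, |al f v - als (ra d q) m| ≤ δ * NN d k
  yF : ∀ (c : Fin q) (σ : Stp d), ∑ v : Site d k, |ya c f v - Fy (ra d q) m (ya c f (v + sv σ))| ≤ δ * NN d k
  d3 : ∀ c : Fin q, ∑ v : Site d k, dst3 m yM (ya c f v) ≤ δ * NN d k
  d2 : ∑ v : Site d k, mc (fun c => |ya c f v - (1 + m * eps c f v)|) ≤ δ * NN d k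
  me : ∑ v : Site d k, |mc (fun c => eps c f v)| ≤ δ * NN d k
  fl : ∀ σ : Stp d, ∑ v : Site d k, mc (fun c => if eps c f v = eps c f (v + sv σ) then (1 : ℝ) else 0) ≤ δ * NN d k

private theorem A5_good {ε δ δ' C₆ : ℝ} {t d k q : ℕ} {f : Site d k → Fin q} (hN : 0 ≤ NN d k) (h : δ' ≤ δ)
    (hG : Good ε δ' C₆ t f) : Good ε δ C₆ t f :=
  have e : δ' * NN d k ≤ δ * NN d k := mul_le_mul_of_nonneg_right h hN
  { irr4 := hG.irr4
    grad := hG.grad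
    smo := hG.smo
    hom := fun c σ τ => (hG.hom c σ τ).trans e
    avl := hG.avl.trans e
    mf := fun c σ => (hG.mf c σ).trans e
    sm0 := fun c => (hG.sm0 c).trans e
    sm1 := fun c σ => (hG.sm1 c σ).trans e
    sm2 := fun c => (hG.sm2 c).trans e }

/-- good and pinned -/
theorem pin_wop {ε : ℝ} (hε : 0 < ε) (hε1 : ε ≤ 1) : ∃ (t : ℕ) (C₆ : ℝ), Even t ∧ 20 ≤ t ∧ 0 < C₆ ∧
    ∀ δ : ℝ, 0 < δ → WOP ε fun d k q f => Good ε δ C₆ t f ∧ ∀ m yM : ℝ, MFE (ra d q) m → YM (ra d q) m yM →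
      Pin δ m yM f := by
  obtain ⟨t, C₆, ht, ht20, hC₆, H⟩ := env_wop hε hε1
  refine ⟨t, C₆, ht, ht20, hC₆, fun δ hδ => ?_⟩
  obtain ⟨δf, hδf, Hf⟩ := pin_fl hε hε1 δ hδ
  obtain ⟨δ3, hδ3, H3⟩ := pin_d3 hε hε1 δ hδ
  obtain ⟨δ2, hδ2, H2⟩ := pin_d2 hε hε1 (min δ δf) (lt_min hδ hδf)
  obtain ⟨δa, hδa, Ha⟩ := pin_al hε hε1 C₆ t (min δ (min δf δ3)) (lt_min hδ (lt_min hδf hδ3))
  have hpos : 0 < min δ (min δ2 δa) := lt_min hδ (lt_min hδ2 hδa)
  have l1 : min δ (min δ2 δa) ≤ δ := min_le_left _ _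
  have l2 : min δ (min δ2 δa) ≤ δ2 := (min_le_right _ _).trans (min_le_left _ _)
  have l3 : min δ (min δ2 δa) ≤ δa := (min_le_right _ _).trans (min_le_right _ _)
  have r1 : min δ δf ≤ δ := min_le_left _ _
  have r2 : min δ δf ≤ δf := min_le_right _ _
  have s1 : min δ (min δf δ3) ≤ δ := min_le_left _ _
  have s2 : min δ (min δf δ3) ≤ δf := (min_le_right _ _).trans (min_le_left _ _)
  have s3 : min δ (min δf δ3) ≤ δ3 := (min_le_right _ _).trans (min_le_right _ _)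
  refine (H _ hpos).mono (((Hf.and H3).and (H2.and Ha)).mono ?_)
  rintro d k q ⟨⟨hf, h3⟩, h2, ha⟩ f hfp ⟨hG, hL⟩
  have hN : 0 ≤ NN d k := by unfold NN; positivity
  refine ⟨A5_good hN l1 hG, fun m yM hm hM => ?_⟩
  have hGa : Good ε δa C₆ t f := A5_good hN l3 hG
  obtain ⟨ha1, ha2⟩ := ha m yM hm hM f hfp hGa fun b =>
    (hL b m hm).trans (mul_le_mul_of_nonneg_right l3 hN)
  have hd2 := h2 m hm f hfp fun b => (hL b m hm).trans (mul_le_mul_of_nonneg_right l2 hN)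
  have hd3 := h3 m yM hm hM f hfp fun c σ => (ha2 c σ).trans (mul_le_mul_of_nonneg_right s3 hN)
  obtain ⟨hf1, hf2⟩ := hf m hm f hfp (fun c σ => (ha2 c σ).trans (mul_le_mul_of_nonneg_right s2 hN))
    (hd2.trans (mul_le_mul_of_nonneg_right r2 hN))
  exact
    { al := ha1.trans (mul_le_mul_of_nonneg_right s1 hN)
      yF := fun c σ => (ha2 c σ).trans (mul_le_mul_of_nonneg_right s1 hN)
      d3 := hd3
      d2 := hd2.trans (mul_le_mul_of_nonneg_right r1 hN)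
      me := hf1
      fl := hf2 }

end Pool.Agent.THR
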