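import Pool.Agent.Lib_MP_2c424f_thr.B3a
import Pool.Agent.Lib_MP_2c424f_thr.M1

/-!
# THR B3b: fluctuation of the block densities (paper proof: B3, first part)

Index type: `Fin q × Shp d`.  `Ψ f = ∑_t (Ms s t (bq c f - gg c f))²`, class `false` (odd sites; the colours of the odd sites are independent given the even ones, `gg c` at an odd site is
constant on the fibre and equal to the mean of `bq c`: `fm_ind`).
* Mean: `fm_var` with `c_v = q Ww s t v`: `fm (Ms ..)² ≤ 4 q² ∑ Ww² ≤ 4 q² · 4/2^d` (`Ww_max`, `Ww_one`); sum over `t`: `≤ NN d k · 16 q²/2^d ≤ NN d k/(2 d^4)` for large `d` (`q ≤ 2d`).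
* `Lip`: a change at `v` changes `Ms ..` by at most `q Ww s t v`, `|Ms ..| ≤ q`, so the square by at most `2 q² Ww s t v`; sum over `t`: `8 q²/2^d ≤ d³/2^d` (`Ww_sum`).
* `WOPb_tail` with `κ = 3`, `K = 5`.
-/

set_option autoImplicit false

open Finset Filter

namespace Pool.Agent.THR

open Pool.Agent.LO Pool.Agent.LIN

section B3baux
variable {d k q : ℕ}

/-- the fluctuation of the block density -/
private noncomputable def B3bF (s : Shp d) (t : Blk d k) (c : Fin q) (f : Site d (k + 1) → Fin q) : ℝ :=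
  Ms s t fun x => bq c f x - gg c f x

private theorem B3b_gg {f h : Site d (k + 1) → Fin q} (hh : h ∈ fib false f) (x : Site d (k + 1))
    (hx : x ∈ cls false d (k + 1)) (c : Fin q) : gg c h x = gg c f x := by
  have h1 : SS h x = SS f x := fib_SS (by omega) false hh x hx
  unfold gg zz av
  rw [h1]

private theorem B3b_upd {f h : Site d (k + 1) → Fin q} (hh : h ∈ fib false f) (v : Site d (k + 1))
    (hv : v ∈ cls false d (k + 1)) (γ : Fin q) (hγ : γ ∉ SS f v) : Function.update h v γ ∈ fib false f := by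
  classical
  unfold fib at hh ⊢
  rw [Fintype.mem_piFinset] at hh ⊢
  intro x
  by_cases hx : x = v
  · subst hx
    rw [Function.update_self, if_pos hv]
    exact mem_compl.2 hγ
  · rw [Function.update_of_ne hx]
    exact hh x

private theorem B3b_bq0 (c : Fin q) (f : Site d (k + 1) → Fin q) (x : Site d (k + 1)) :
    0 ≤ bq c f x ∧ bq c f x ≤ q := by
  unfold bq
  have h0 : (0 : ℝ) ≤ q := Nat.cast_nonneg q
  split_ifs
  · exact ⟨h0, le_rfl⟩
  · exact ⟨le_rfl, h0⟩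

private theorem B3b_gg0 (c : Fin q) {f : Site d (k + 1) → Fin q} (hf : Prp f) (x : Site d (k + 1)) :
    0 ≤ gg c f x ∧ gg c f x ≤ q := by
  have h1 : gg c f x = q * (zz f x c / (av f x : ℝ)) := by
    unfold gg
    rw [mul_div_assoc]
  have h0 : (0 : ℝ) ≤ q := Nat.cast_nonneg q
  obtain ⟨h2, h3⟩ := zz_av_le hf x c
  rw [h1]
  exact ⟨mul_nonneg h0 h2, mul_le_of_le_one_right h0 h3⟩

/-- on the fibre -/
private theorem B3b_repr (s : Shp d) (t : Blk d k) (c : Fin q) {f h : Site d (k + 1) → Fin q}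
    (hh : h ∈ fib false f) :
    B3bF s t c h = ∑ x ∈ cls false d (k + 1), Ww s t x * (bq c h x - gg c f x) := by
  classical
  unfold B3bF
  rw [Ww_repr]
  have h1 : ∑ x ∈ cls false d (k + 1), Ww s t x * (bq c h x - gg c f x) =
      ∑ x ∈ cls false d (k + 1), Ww s t x * (bq c h x - gg c h x) := by
    refine sum_congr rfl fun x hx => ?_
    rw [B3b_gg hh x hx c]
  rw [h1]
  refine (sum_subset (subset_univ _) fun x _ hx => ?_).symm
  rw [Ww_par s t x hx, zero_mul]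

private theorem B3b_abs (hd : 2 ≤ d) (s : Shp d) (t : Blk d k) (c : Fin q) {f h : Site d (k + 1) → Fin q}
    (hf : Prp f) (hh : h ∈ fib false f) : |B3bF s t c h| ≤ q := by
  rw [B3b_repr s t c hh]
  refine (abs_sum_le_sum_abs _ _).trans ?_
  have h1 : ∀ x ∈ cls false d (k + 1), |Ww s t x * (bq c h x - gg c f x)| ≤ Ww s t x * q := by
    intro x _
    rw [abs_mul, abs_of_nonneg (Ww_nonneg s t x)]
    refine mul_le_mul_of_nonneg_left ?_ (Ww_nonneg s t x)
    obtain ⟨a1, a2⟩ := B3b_bq0 c h x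
    obtain ⟨a3, a4⟩ := B3b_gg0 c hf x
    rw [abs_le]
    constructor <;> linarith
  refine (sum_le_sum h1).trans ?_
  rw [← sum_mul]
  have h2 : ∑ x ∈ cls false d (k + 1), Ww s t x ≤ 1 := by
    rw [← Ww_one hd s t]
    exact sum_le_sum_of_subset_of_nonneg (subset_univ _) fun x _ _ => Ww_nonneg s t x
  exact mul_le_of_le_one_left (Nat.cast_nonneg q) h2

private theorem B3b_diff (s : Shp d) (t : Blk d k) (c : Fin q) {f h : Site d (k + 1) → Fin q}
    (hh : h ∈ fib false f) (v : Site d (k + 1)) (hv : v ∈ cls false d (k + 1)) (γ : Fin q) (hγ : γ ∉ SS f v) :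
    |B3bF s t c (Function.update h v γ) - B3bF s t c h| ≤ q * Ww s t v := by
  classical
  rw [B3b_repr s t c (B3b_upd hh v hv γ hγ), B3b_repr s t c hh, ← sum_sub_distrib]
  have h1 : ∑ x ∈ cls false d (k + 1), (Ww s t x * (bq c (Function.update h v γ) x - gg c f x) -
      Ww s t x * (bq c h x - gg c f x)) = Ww s t v * (bq c (Function.update h v γ) v - bq c h v) := by
    rw [sum_eq_single_of_mem v hv]
    · ring
    · intro x _ hx
      have h2 : bq c (Function.update h v γ) x = bq c h x := by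
        unfold bq
        rw [Function.update_of_ne hx]
      rw [h2, sub_self]
  rw [h1, abs_mul, abs_of_nonneg (Ww_nonneg s t v), mul_comm]
  refine mul_le_mul_of_nonneg_right ?_ (Ww_nonneg s t v)
  obtain ⟨a1, a2⟩ := B3b_bq0 c h v
  obtain ⟨a3, a4⟩ := B3b_bq0 c (Function.update h v γ) v
  rw [abs_le]
  constructor <;> linarith

/-- the mean is zero -/
private theorem B3b_mean (s : Shp d) (t : Blk d k) (c : Fin q) {f : Site d (k + 1) → Fin q} (hf : Prp f) :
    fm false (B3bF s t c) f = 0 := by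
  classical
  have h1 : fm false (B3bF s t c) f =
      fm false (fun h => ∑ x ∈ cls false d (k + 1), Ww s t x * (bq c h x - gg c f x)) f :=
    fm_congr false fun h hh => B3b_repr s t c hh
  rw [h1, fm_sum]
  refine sum_eq_zero fun x hx => ?_
  rw [fm_mul, fm_sub, fm_const false hf]
  have h2 : fm false (fun h => bq c h x) f = q * (zz f x c / (av f x : ℝ)) := by
    rw [← fm_ind (by omega) false hf x hx c, ← fm_mul]
    refine fm_congr false fun h _ => ?_
    unfold bq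
    split_ifs <;> simp
  rw [h2]
  unfold gg
  rw [mul_div_assoc, sub_self, mul_zero]

/-- the variance -/
private theorem B3b_var (hd : 2 ≤ d) (hk : 1 ≤ k) (s : Shp d) (t : Blk d k) (c : Fin q)
    {f : Site d (k + 1) → Fin q} (hf : Prp f) :
    fm false (fun h => B3bF s t c h ^ 2) f ≤ 16 * (q : ℝ) ^ 2 / 2 ^ d := by
  classical
  have h1 := fm_var (k := k + 1) (by omega) false hf (B3bF s t c) (fun v => q * Ww s t v)
    (fun v => mul_nonneg (Nat.cast_nonneg q) (Ww_nonneg s t v))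
    (fun h hh v hv γ hγ => B3b_diff s t c hh v hv γ hγ)
  rw [B3b_mean s t c hf] at h1
  simp only [sub_zero] at h1
  refine h1.trans ?_
  have h2 : ∀ v ∈ cls false d (k + 1), ((q : ℝ) * Ww s t v) ^ 2 ≤ (q : ℝ) ^ 2 * (4 / 2 ^ d) * Ww s t v := by
    intro v _
    have h3 := Ww_max hd s t v
    have h4 := Ww_nonneg s t v
    have h5 : ((q : ℝ) * Ww s t v) ^ 2 = (q : ℝ) ^ 2 * (Ww s t v * Ww s t v) := by ring
    rw [h5, mul_assoc]
    refine mul_le_mul_of_nonneg_left ?_ (by positivity)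
    exact mul_le_mul_of_nonneg_right h3 h4
  have h6 : ∑ x ∈ cls false d (k + 1), Ww s t x ≤ 1 := by
    rw [← Ww_one hd s t]
    exact sum_le_sum_of_subset_of_nonneg (subset_univ _) fun x _ _ => Ww_nonneg s t x
  have h7 : ∑ v ∈ cls false d (k + 1), ((q : ℝ) * Ww s t v) ^ 2 ≤ (q : ℝ) ^ 2 * (4 / 2 ^ d) := by
    refine (sum_le_sum h2).trans ?_
    rw [← mul_sum]
    exact mul_le_of_le_one_right (by positivity) h6
  calc 4 * ∑ v ∈ cls false d (k + 1), ((q : ℝ) * Ww s t v) ^ 2 ≤ 4 * ((q : ℝ) ^ 2 * (4 / 2 ^ d)) := by linarith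
    _ = 16 * (q : ℝ) ^ 2 / 2 ^ d := by ring

/-- the functional -/
private noncomputable def B3bPsi (i : Fin q × Shp d) (f : Site d (k + 1) → Fin q) : ℝ :=
  ∑ t : Blk d k, B3bF i.2 t i.1 f ^ 2

private theorem B3b_fm (hd : 2 ≤ d) (hk : 1 ≤ k) (i : Fin q × Shp d) {f : Site d (k + 1) → Fin q} (hf : Prp f) :
    fm false (B3bPsi i) f ≤ NN d k * (16 * (q : ℝ) ^ 2 / 2 ^ d) := by
  have h1 : fm false (B3bPsi i) f = ∑ t : Blk d k, fm false (fun h => B3bF i.2 t i.1 h ^ 2) f := by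
    unfold B3bPsi
    exact fm_sum false f univ fun (t : Blk d k) h => B3bF i.2 t i.1 h ^ 2
  rw [h1]
  refine (sum_le_sum fun t _ => B3b_var hd hk i.2 t i.1 hf).trans ?_
  rw [sum_const, card_univ, nsmul_eq_mul, card_Blk]

private theorem B3b_lip (hd : 2 ≤ d) (i : Fin q × Shp d) (κ : ℝ) (hκ : 8 * (q : ℝ) ^ 2 / 2 ^ d ≤ κ) :
    Lip false κ (B3bPsi (k := k) i) := by
  classical
  intro f hf h hh v hv γ hγ
  have hfP : Prp f := (mem_filter.1 hf).2
  have hh' := B3b_upd hh v hv γ hγ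
  have hq0 : (0 : ℝ) ≤ q := Nat.cast_nonneg q
  unfold B3bPsi
  rw [← sum_sub_distrib]
  refine (abs_sum_le_sum_abs _ _).trans ?_
  have h1 : ∀ t ∈ (univ : Finset (Blk d k)),
      |B3bF i.2 t i.1 (Function.update h v γ) ^ 2 - B3bF i.2 t i.1 h ^ 2| ≤ 2 * (q : ℝ) ^ 2 * Ww i.2 t v := by
    intro t _
    have h2 := B3b_diff i.2 t i.1 hh v hv γ hγ
    have h3 := B3b_abs hd i.2 t i.1 hfP hh'
    have h4 := B3b_abs hd i.2 t i.1 hfP hh
    have h5 : B3bF i.2 t i.1 (Function.update h v γ) ^ 2 - B3bF i.2 t i.1 h ^ 2 =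
        (B3bF i.2 t i.1 (Function.update h v γ) - B3bF i.2 t i.1 h) *
          (B3bF i.2 t i.1 (Function.update h v γ) + B3bF i.2 t i.1 h) := by ring
    rw [h5, abs_mul]
    have h6 : |B3bF i.2 t i.1 (Function.update h v γ) + B3bF i.2 t i.1 h| ≤ 2 * q := by
      refine (abs_add_le _ _).trans ?_
      linarith
    calc |B3bF i.2 t i.1 (Function.update h v γ) - B3bF i.2 t i.1 h| *
          |B3bF i.2 t i.1 (Function.update h v γ) + B3bF i.2 t i.1 h| ≤ (q * Ww i.2 t v) * (2 * q) :=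
          mul_le_mul h2 h6 (abs_nonneg _) (mul_nonneg hq0 (Ww_nonneg _ _ _))
      _ = 2 * (q : ℝ) ^ 2 * Ww i.2 t v := by ring
  refine (sum_le_sum h1).trans ?_
  rw [← mul_sum]
  have h7 := Ww_sum (k := k) hd i.2 v
  calc 2 * (q : ℝ) ^ 2 * ∑ t : Blk d k, Ww i.2 t v ≤ 2 * (q : ℝ) ^ 2 * (4 / 2 ^ d) :=
        mul_le_mul_of_nonneg_left h7 (by positivity)
    _ = 8 * (q : ℝ) ^ 2 / 2 ^ d := by ring
    _ ≤ κ := hκ

private theorem B3b_pow : ∀ᶠ d : ℕ in atTop, 128 * (d : ℝ) ^ 6 ≤ 2 ^ d := by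
  have h1 : Tendsto (fun n : ℕ => (n : ℝ) ^ 6 / (2 : ℝ) ^ n) atTop (nhds 0) :=
    tendsto_pow_const_div_const_pow_of_one_lt 6 (by norm_num)
  have h2 := h1.eventually (gt_mem_nhds (by norm_num : (0 : ℝ) < 1 / 128))
  filter_upwards [h2] with n hn
  rw [div_lt_iff₀ (by positivity)] at hn
  linarith

end B3baux

theorem blk_bq {ε : ℝ} (hε : 0 < ε) (hε1 : ε ≤ 1) : WOPb ε fun d k q f => ∀ (c : Fin q) (s : Shp d),
    ∑ t : Blk d k, Ms s t (fun x => bq c f x - gg c f x) ^ 2 ≤ NN d k / (d : ℝ) ^ 4 := by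
  classical
  have hreg := (EvT_reg hε hε1 32).and (EvT_d (ε := ε) B3b_pow)
  have hL : EvT ε fun d k q => ∀ i : Fin q × Shp d, Lip false ((d : ℝ) ^ 3 / 2 ^ d) (B3bPsi (k := k) i) := by
    refine hreg.mono fun d k q h i => ?_
    obtain ⟨⟨h1, h2, h3, h4, h5, -⟩, -⟩ := h
    have hd2 : 2 ≤ d := by
      have : (2 : ℝ) ≤ d := by linarith
      exact_mod_cast this
    refine B3b_lip hd2 i _ ?_
    refine div_le_div_of_nonneg_right ?_ (by positivity)
    have hq2 : (q : ℝ) ≤ 2 * d := by nlinarith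
    have hq0 : (0 : ℝ) ≤ q := Nat.cast_nonneg q
    have h6 : (q : ℝ) ^ 2 ≤ (2 * d) ^ 2 := pow_le_pow_left₀ hq0 hq2 2
    have h7 : 32 * (d : ℝ) ^ 2 ≤ d * (d : ℝ) ^ 2 := mul_le_mul_of_nonneg_right h1 (by positivity)
    calc 8 * (q : ℝ) ^ 2 ≤ 8 * (2 * d) ^ 2 := by linarith
      _ = 32 * (d : ℝ) ^ 2 := by ring
      _ ≤ d * (d : ℝ) ^ 2 := h7
      _ = (d : ℝ) ^ 3 := by ring
  have hT := WOPb_tail hε hε1 (fun d _ q => Fin q × Shp d) (fun d q => q * (2 * d + 1))
    (fun d k q => by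
      rw [Fintype.card_prod, Fintype.card_option, Fintype.card_prod, Fintype.card_fin, Fintype.card_fin,
        Fintype.card_bool]
      push_cast
      refine le_of_eq ?_
      ring) (fun _ _ _ _ => false) (fun d k q i => B3bPsi (k := k) i) 3 5 hL
  refine hT.mono ?_
  refine hreg.mono fun d k q h f hf hΨ c s => ?_
  obtain ⟨⟨h1, h2, h3, h4, h5, -⟩, hp⟩ := h
  have hfP : Prp f := (mem_filter.1 hf).2
  have hd2 : 2 ≤ d := by
    have : (2 : ℝ) ≤ d := by linarith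
    exact_mod_cast this
  have hk1 : 1 ≤ k := by
    have : (1 : ℝ) ≤ k := by linarith
    exact_mod_cast this
  have hN : 0 ≤ NN d k := by
    unfold NN
    positivity
  have h6 := hΨ (c, s)
  have h7 := B3b_fm hd2 hk1 (c, s) hfP
  have h8 : B3bPsi (k := k) (c, s) f = ∑ t : Blk d k, Ms s t (fun x => bq c f x - gg c f x) ^ 2 := rfl
  rw [← h8]
  have hd0 : (0 : ℝ) < d := by linarith
  have hq2 : (q : ℝ) ≤ 2 * d := by nlinarith
  have hq0 : (0 : ℝ) ≤ q := Nat.cast_nonneg q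
  have h9 : 16 * (q : ℝ) ^ 2 / 2 ^ d ≤ 1 / (2 * (d : ℝ) ^ 4) := by
    rw [div_le_div_iff₀ (by positivity) (by positivity)]
    have h10 : (q : ℝ) ^ 2 ≤ (2 * d) ^ 2 := pow_le_pow_left₀ hq0 hq2 2
    calc 16 * (q : ℝ) ^ 2 * (2 * (d : ℝ) ^ 4) ≤ 16 * (2 * d) ^ 2 * (2 * (d : ℝ) ^ 4) := by
          refine mul_le_mul_of_nonneg_right ?_ (by positivity)
          linarith
      _ = 128 * (d : ℝ) ^ 6 := by ring
      _ ≤ 2 ^ d := hp
      _ = 1 * 2 ^ d := by ring
  have h11 : NN d k / (d : ℝ) ^ 5 ≤ NN d k * (1 / (2 * (d : ℝ) ^ 4)) := by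
    rw [div_eq_mul_one_div]
    refine mul_le_mul_of_nonneg_left ?_ hN
    refine one_div_le_one_div_of_le (by positivity) ?_
    have h12 : 2 * (d : ℝ) ^ 4 ≤ d * (d : ℝ) ^ 4 := mul_le_mul_of_nonneg_right (by linarith) (by positivity)
    calc 2 * (d : ℝ) ^ 4 ≤ d * (d : ℝ) ^ 4 := h12
      _ = (d : ℝ) ^ 5 := by ring
  have h13 := mul_le_mul_of_nonneg_left h9 hN
  have h14 : NN d k * (1 / (2 * (d : ℝ) ^ 4)) + NN d k * (1 / (2 * (d : ℝ) ^ 4)) = NN d k / (d : ℝ) ^ 4 := by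
    field_simp
    ring
  linarith

end Pool.Agent.THR
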