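import Pool.Agent.Lib_MP_2c424f_thr.B5
import Pool.Agent.Lib_MP_2c424f_thr.B3b
import Pool.Agent.Lib_MP_2c424f_thr.B3c

/-!
# THR B6a: block regularity with overwhelming probability (paper proof: B5, B6)

`BReg η m yM c f` : all but `δ N` blocks are close to one of the three values, for every colour.
* `breg_wop`: `pin_wop` (fixes `t₀, C₆`), `WOP.blk`, `blk_bq`, `blk_zz`, `tau_det`.
* `not_bad`: `τ = 1 + m`: all `Ms s t bq ≥ 1 + m - η`; `τ = 1 - m < yM` or `τ = yM`: all `≤ yM + η` (`ym_bounds`, `1 < ra d q`).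
* `all_bad`: if all blocks are bad then no block is close, so (with `δ = 1/2`) the colouring is in the rare set.
-/

set_option autoImplicit false

open Finset Filter

namespace Pool.Agent.THR

open Pool.Agent.LO Pool.Agent.LIN

open scoped Classical in
theorem breg_wop {ε : ℝ} (hε : 0 < ε) (hε1 : ε ≤ 1) (η δ : ℝ) (hη : 0 < η) (hδ : 0 < δ) :
    WOPb ε fun d k q f => ∀ m yM : ℝ, MFE (ra d q) m → YM (ra d q) m yM → ∀ c : Fin q,
      ((univ.filter fun t : Blk d k => ¬ ∃ τ, tauG η m yM c f t τ).card : ℝ) ≤ δ * NN d k := by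
  obtain ⟨t₀, C₆, -, -, -, hpin⟩ := pin_wop hε hε1
  obtain ⟨δ', hδ', hτ⟩ := tau_det hε hε1 C₆ t₀ η δ hη hδ
  refine ((((hpin δ' hδ').blk).and (blk_bq hε hε1)).and (blk_zz hε hε1)).mono (hτ.mono ?_)
  intro d k q h f hf hP m yM hm hM c
  obtain ⟨⟨⟨h1, h2⟩, h3⟩, h4⟩ := hP
  exact h m yM hm hM f hf h1 (h2 m yM hm hM) h3 h4 c

theorem not_bad {d k q : ℕ} (η m yM : ℝ) (ha : 1 < ra d q) (hm : MFE (ra d q) m) (hM : YM (ra d q) m yM) (c : Fin q)
    (f : Site d (k + 1) → Fin q) (t : Blk d k) (τ : ℝ) (h : tauG η m yM c f t τ) : ¬ bdT (1 + m - η) (yM + η) c t f := by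
  obtain ⟨h1, h2, -⟩ := h
  have hb := ym_bounds (ra d q) m yM ha hm hM
  rintro ⟨h3, h4⟩
  rcases h1 with h1 | h1 | h1
  · refine h4 fun s => ?_
    have := (abs_le.1 (h2 s)).2
    rw [h1] at this
    linarith
  · refine h4 fun s => ?_
    have := (abs_le.1 (h2 s)).2
    rw [h1] at this
    linarith
  · refine h3 fun s => ?_
    have := (abs_le.1 (h2 s)).1
    rw [h1] at this
    linarith

theorem all_bad {ε : ℝ} (hε : 0 < ε) (hε1 : ε ≤ 1) (η : ℝ) (hη : 0 < η) : ∃ C : ℕ,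
    EvT ε fun d k q => ∀ m yM : ℝ, MFE (ra d q) m → YM (ra d q) m yM → ∀ c : Fin q,
      cE (bdT (q := q) (k := k) (d := d) (1 + m - η) (yM + η) c) univ ≤
        ZZ d (k + 1) q * Real.exp (-(NN d (k + 1) / (d : ℝ) ^ C)) := by
  classical
  obtain ⟨C, hC⟩ := breg_wop hε hε1 η (1 / 2) hη (by norm_num)
  refine ⟨C, (hC.and (EvT_reg hε hε1 1)).mono ?_⟩
  rintro d k q ⟨h, -, -, -, -, -, hr, -, -⟩ m yM hm hM c
  have ha : 1 < ra d q := by
    refine lt_of_lt_of_le ?_ hr
    unfold a1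
    rw [lt_div_iff₀ (by linarith)]
    linarith
  unfold Rar at h
  refine le_trans ?_ h
  unfold cE
  have hsub : ((prps d (k + 1) q).filter fun f => ∀ t ∈ (univ : Finset (Blk d k)),
      bdT (q := q) (k := k) (d := d) (1 + m - η) (yM + η) c t f) ⊆
      ((prps d (k + 1) q).filter fun f => ¬ ∀ m yM : ℝ, MFE (ra d q) m → YM (ra d q) m yM → ∀ c : Fin q,
        ((univ.filter fun t : Blk d k => ¬ ∃ τ, tauG η m yM c f t τ).card : ℝ) ≤ 1 / 2 * NN d k) := by
    intro f hf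
    rw [mem_filter] at hf ⊢
    refine ⟨hf.1, fun hc => ?_⟩
    have h1 := hc m yM hm hM c
    have h2 : (univ.filter fun t : Blk d k => ¬ ∃ τ, tauG η m yM c f t τ) = univ := by
      refine filter_true_of_mem fun t _ => ?_
      rintro ⟨τ, hτ⟩
      exact not_bad η m yM ha hm hM c f t τ hτ (hf.2 t (mem_univ t))
    rw [h2, card_univ, card_Blk] at h1
    have h3 : 0 < NN d k := by
      unfold NN
      positivity
    linarith
  have h5 := card_le_card hsub
  have h6 : ((((prps d (k + 1) q).filter fun f => ∀ t ∈ (univ : Finset (Blk d k)),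
      bdT (q := q) (k := k) (d := d) (1 + m - η) (yM + η) c t f).card : ℕ) : ℝ) ≤
      (((prps d (k + 1) q).filter fun f => ¬ ∀ m yM : ℝ, MFE (ra d q) m → YM (ra d q) m yM → ∀ c : Fin q,
        ((univ.filter fun t : Blk d k => ¬ ∃ τ, tauG η m yM c f t τ).card : ℝ) ≤ 1 / 2 * NN d k).card : ℝ) := by
    exact_mod_cast h5
  refine le_trans (le_of_eq ?_) (le_trans h6 (le_of_eq ?_))
  · congr 2
  · congr 2
    first
      | rfl
      | exact Finset.filter_congr_decidable _ _ _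
      | (ext f; simp only [mem_filter])

end Pool.Agent.THR
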