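import Pool.Agent.Lib_MP_2c424f_thr.B1

/-!
# THR B1b: locality, reflections, adjacent blocks (paper proof: B1)

* `bdT_loc`: `bq c f v` depends on `f v` only.
* `bdT_sym`: `LO.rs_pt`, `rs_rs`, `rb_rb`: `Ms s (rb j α t) (bq c (f ∘ rs j α)) = Ms s' t (bq c f)`, `s' = s` with `β` flipped if the direction of `s` is `j`; `od` is
  invariant under flipping both bits.
* `lab_adj`: the face `(j, true)` of `t` is the face `(j, false)` of `nxt t j` (`pt t a b = pt (nxt t j) (flp a j) (flp b j)` for `a j = b j = true`), so if one block is `hiL θ` and the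
  other `loL θ'`, then `θ ≤ mean ≤ θ'`.  See `Lib_MP_2c424f_lin/B1.lean` (`badd_loc`, `badd_sym`, `labd_adj`) for the same statements for other labels.
-/

set_option autoImplicit false

open Finset Filter

namespace Pool.Agent.THR

open Pool.Agent.LO Pool.Agent.LIN

variable {d k q : ℕ}

private theorem B1b_flp_self (a : Bt d) (j : Fin d) : flp a j j = !a j := by
  unfold flp
  exact Function.update_self _ _ _

private theorem B1b_flp_ne (a : Bt d) (i j : Fin d) (h : i ≠ j) : flp a j i = a i := by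
  unfold flp
  exact Function.update_of_ne h _ _

private theorem B1b_flp_flp (a : Bt d) (j : Fin d) : flp (flp a j) j = a := by
  funext i
  by_cases h : i = j
  · subst h
    rw [B1b_flp_self, B1b_flp_self, Bool.not_not]
  · rw [B1b_flp_ne _ _ _ h, B1b_flp_ne _ _ _ h]

private theorem B1b_od (j : Fin d) (a b : Bt d) : od (flp a j) (flp b j) ↔ od a b := by
  unfold od
  have h : (univ.filter fun i => flp a j i ≠ flp b j i) = univ.filter fun i => a i ≠ b i := by
    apply Finset.filter_congr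
    intro i _
    by_cases hi : i = j
    · subst hi
      rw [B1b_flp_self, B1b_flp_self]
      cases a i <;> cases b i <;> simp
    · rw [B1b_flp_ne _ _ _ hi, B1b_flp_ne _ _ _ hi]
  rw [h]

private theorem B1b_nxt_pt (t : Blk d k) (j : Fin d) (a b : Bt d) (ha : a j = true) (hb : b j = true) :
    pt (nxt t j) (flp a j) (flp b j) = pt t a b := by
  funext i
  unfold pt
  rw [Pi.add_apply, Pi.add_apply, Pi.add_apply, Pi.add_apply]
  by_cases hi : i = j
  · subst hi
    have e1 : ∀ u : ZMod (2 ^ k), ((2 * (u + 1).val : ℕ) : ZMod (2 ^ (k + 1))) =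
        ((2 * u.val : ℕ) : ZMod (2 ^ (k + 1))) + 2 := by
      intro u
      have e2 : (((2 * (u + 1).val : ℕ)) : ZMod (2 ^ (k + 1))) = ((2 * u.val + 2 : ℕ) : ZMod (2 ^ (k + 1))) := by
        rw [ZMod.natCast_eq_natCast_iff]
        have h1 : (u + 1).val ≡ u.val + 1 [MOD 2 ^ k] := by
          rw [← ZMod.natCast_eq_natCast_iff]
          push_cast
          rw [ZMod.natCast_zmod_val, ZMod.natCast_zmod_val]
        have h2 : 2 * (u + 1).val ≡ 2 * (u.val + 1) [MOD 2 * 2 ^ k] := h1.mul_left' 2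
        have h3 : 2 * 2 ^ k = 2 ^ (k + 1) := by rw [pow_succ, mul_comm]
        rw [h3] at h2
        exact h2
      rw [e2]
      push_cast
      ring
    simp only [bas, bv, nxt, Function.update_self, B1b_flp_self, ha, hb]
    rw [e1]
    simp
    ring
  · simp only [bas, bv, nxt, Function.update_of_ne hi, B1b_flp_ne _ _ _ hi]

/-- the mean over a shape, after flipping the bits `j` -/
private theorem B1b_bij (j : Fin d) (s s' : Shp d) (hs : ∀ a b : Bt d, inS s a b ↔ inS s' (flp a j) (flp b j))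
    (t t' : Blk d k) (φ ψ : Site d (k + 1) → ℝ)
    (h : ∀ a b : Bt d, inS s a b → φ (pt t a b) = ψ (pt t' (flp a j) (flp b j))) : Ms s t φ = Ms s' t' ψ := by
  classical
  have m1 : ∀ p : Bt d × Bt d, p ∈ oS s ↔ od p.1 p.2 ∧ inS s p.1 p.2 := by
    intro p
    unfold oS
    rw [Finset.mem_filter]
    simp
  have m2 : ∀ p : Bt d × Bt d, p ∈ oS s' ↔ od p.1 p.2 ∧ inS s' p.1 p.2 := by
    intro p
    unfold oS
    rw [Finset.mem_filter]
    simp
  have gen : ∀ F G : Bt d × Bt d → ℝ, (∀ p ∈ oS s, F p = G (flp p.1 j, flp p.2 j)) →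
      ∑ p ∈ oS s, F p = ∑ p ∈ oS s', G p := by
    intro F G hFG
    refine Finset.sum_nbij' (fun p => (flp p.1 j, flp p.2 j)) (fun p => (flp p.1 j, flp p.2 j)) ?_ ?_ ?_ ?_ hFG
    · intro p hp
      rw [m1] at hp
      rw [m2]
      exact ⟨(B1b_od j p.1 p.2).2 hp.1, (hs p.1 p.2).1 hp.2⟩
    · intro p hp
      rw [m2] at hp
      rw [m1]
      refine ⟨(B1b_od j p.1 p.2).2 hp.1, (hs _ _).2 ?_⟩
      rw [B1b_flp_flp, B1b_flp_flp]
      exact hp.2
    · intro p _
      simp only [B1b_flp_flp]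
    · intro p _
      simp only [B1b_flp_flp]
  unfold Ms
  have c1 := gen (fun _ => 1) (fun _ => 1) fun _ _ => rfl
  rw [Finset.sum_const, Finset.sum_const, nsmul_eq_mul, nsmul_eq_mul, mul_one, mul_one] at c1
  rw [c1]
  congr 1
  refine gen (fun p => φ (pt t p.1 p.2)) (fun p => ψ (pt t' p.1 p.2)) ?_
  intro p hp
  rw [m1] at hp
  exact h p.1 p.2 hp.2

/-- the reflected shape -/
private def B1b_fl (j : Fin d) (s : Shp d) : Shp d :=
  match s with
  | none => none
  | some (i, β) => some (i, if i = j then !β else β)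

private theorem B1b_fl_fl (j : Fin d) (s : Shp d) : B1b_fl j (B1b_fl j s) = s := by
  rcases s with _ | ⟨i, β⟩
  · rfl
  · unfold B1b_fl
    by_cases h : i = j <;> simp [h]

private theorem B1b_inS (j : Fin d) (s : Shp d) (a b : Bt d) :
    inS s a b ↔ inS (B1b_fl j s) (flp a j) (flp b j) := by
  rcases s with _ | ⟨i, β⟩
  · exact Iff.rfl
  · unfold inS B1b_fl
    by_cases h : i = j
    · subst h
      simp only [if_true, B1b_flp_self]
      cases β <;> cases a i <;> cases b i <;> simp
    · simp only [if_neg h, B1b_flp_ne _ _ _ h]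

private theorem B1b_Ms_sym (c : Fin q) (j : Fin d) (α : ZMod (2 ^ k)) (t : Blk d k) (f : Site d (k + 1) → Fin q)
    (s : Shp d) : Ms s (rb j α t) (bq c (fun x => f (rs j α x))) = Ms (B1b_fl j s) t (bq c f) := by
  refine B1b_bij j s _ (B1b_inS j s) _ _ _ _ fun a b _ => ?_
  unfold bq
  beta_reduce
  rw [rs_pt, rb_rb]

theorem bdT_loc (θ θ' : ℝ) (c : Fin q) (t : Blk d k) (f g : Site d (k + 1) → Fin q)
    (h : ∀ a b, f (pt t a b) = g (pt t a b)) (hb : bdT θ θ' c t f) : bdT θ θ' c t g := by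
  have e : ∀ s : Shp d, Ms s t (bq c f) = Ms s t (bq c g) := by
    intro s
    unfold Ms
    congr 1
    refine Finset.sum_congr rfl fun p _ => ?_
    unfold bq
    rw [h]
  revert hb
  unfold bdT hiL loL
  simp only [e]
  exact id

theorem bdT_sym (θ θ' : ℝ) (c : Fin q) (j : Fin d) (α : ZMod (2 ^ k)) (t : Blk d k) (f : Site d (k + 1) → Fin q)
    (hb : bdT θ θ' c t f) : bdT θ θ' c (rb j α t) (fun x => f (rs j α x)) := by
  refine ⟨fun h1 => hb.1 fun s => ?_, fun h1 => hb.2 fun s => ?_⟩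
  · have h2 := h1 (B1b_fl j s)
    rw [B1b_Ms_sym, B1b_fl_fl] at h2
    exact h2
  · have h2 := h1 (B1b_fl j s)
    rw [B1b_Ms_sym, B1b_fl_fl] at h2
    exact h2

private theorem B1b_face (φ : Site d (k + 1) → ℝ) (t : Blk d k) (j : Fin d) :
    Ms (some (j, true)) t φ = Ms (some (j, false)) (nxt t j) φ := by
  refine B1b_bij j _ _ ?_ _ _ _ _ ?_
  · intro a b
    unfold inS
    simp only [B1b_flp_self]
    cases a j <;> cases b j <;> simp
  · intro a b hab
    rw [B1b_nxt_pt t j a b hab.1 hab.2]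

theorem lab_adj (hd : 2 ≤ d) (θ θ' : ℝ) (hθ : θ' < θ) (c : Fin q) (f : Site d (k + 1) → Fin q) (t : Blk d k)
    (j : Fin d) (h1 : ¬ bdT θ θ' c t f) (h2 : ¬ bdT θ θ' c (nxt t j) f) :
    hiL θ c f t ↔ hiL θ c f (nxt t j) := by
  have _ := hd
  have g : ∀ s : Blk d k, ¬ bdT θ θ' c s f → ¬ hiL θ c f s → loL θ' c f s := by
    intro s hs h
    by_contra h'
    exact hs ⟨h, h'⟩
  have key := B1b_face (bq c f) t j
  constructor
  · intro h
    by_contra h'
    have h3 := g _ h2 h' (some (j, false))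
    have h4 := h (some (j, true))
    linarith
  · intro h
    by_contra h'
    have h3 := g _ h1 h' (some (j, true))
    have h4 := h (some (j, false))
    linarith

end Pool.Agent.THR
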