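import Pool.Agent.Lib_MP_2c424f_thr.B6a
import Pool.Agent.Lib_MP_2c424f_thr.B1b
import Pool.Agent.Lib_MP_2c424f_lo.Chess
import Pool.Agent.Lib_MP_2c424f_lo.RP
import Pool.Agent.Lib_MP_2c424f_lo.Multi

/-!
# THR B6: bad blocks are rare, labels agree (paper proof: B6)

As in `Lib_MP_2c424f_lin/B2a.lean` (`pbadd`) and `B2b.lean` (`pdiffd`).
* `pbadT`: `cn Γ = cE (bdT ..) Γ`, `LO.rp` (`bdT_loc`, `bdT_sym`) and `LO.chess` with `r = exp (-(2^d/d^C))`, `r^(number of blocks) = exp (-N'/d^C)` by `all_bad`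
  (`card_Blk`, `NN_succ`).
* `pdiffT`: `LO.multi` with `S = prps`, `lab_adj` (`yM + η < 1 + m - η`), `4^d r ≤ 1/2` and `4 · 4^d r ≤ 1/d^5` for `d` large.
-/

set_option autoImplicit false

open Finset Filter

namespace Pool.Agent.THR

open Pool.Agent.LO Pool.Agent.LIN

theorem pbadT {ε : ℝ} (hε : 0 < ε) (hε1 : ε ≤ 1) (η : ℝ) (hη : 0 < η) : ∃ C : ℕ,
    EvT ε fun d k q => ∀ m yM : ℝ, MFE (ra d q) m → YM (ra d q) m yM → ∀ (c : Fin q) (Γ : Finset (Blk d k)),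
      cE (bdT (q := q) (1 + m - η) (yM + η) c) Γ ≤ ZZ d (k + 1) q * Real.exp (-(2 ^ d / (d : ℝ) ^ C)) ^ Γ.card := by
  classical
  obtain ⟨C, hab⟩ := all_bad hε hε1 η hη
  refine ⟨C, (hab.and (EvT_reg hε hε1 1)).mono fun d k q h => ?_⟩
  obtain ⟨hab, -, -, hk, -⟩ := h
  have hk1 : 1 ≤ k := by exact_mod_cast hk
  intro m yM hm hM c
  have hfull : cE (bdT (q := q) (1 + m - η) (yM + η) c) (univ : Finset (Blk d k)) ≤
      ZZ d (k + 1) q * Real.exp (-(2 ^ d / (d : ℝ) ^ C)) ^ (Fintype.card (Blk d k)) := by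
    refine le_trans (hab m yM hm hM c) ?_
    have hZ : 0 ≤ ZZ d (k + 1) q := by unfold ZZ; positivity
    apply mul_le_mul_of_nonneg_left _ hZ
    rw [← Real.exp_nat_mul]
    apply Real.exp_le_exp.2
    have hc : (Fintype.card (Blk d k) : ℝ) = NN d k := card_site d k
    rw [hc]
    have hNk : NN d (k + 1) = NN d k * 2 ^ d := by
      unfold NN
      rw [pow_succ, mul_pow]
    have : NN d k * -((2 : ℝ) ^ d / (d : ℝ) ^ C) = -(NN d (k + 1) / (d : ℝ) ^ C) := by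
      rw [hNk]; ring
    rw [this]
  exact chess hk1 (cE (bdT (q := q) (1 + m - η) (yM + η) c)) (ZZ d (k + 1) q) (Real.exp (-(2 ^ d / (d : ℝ) ^ C)))
    (Real.exp_pos _)
    (by unfold ZZ; positivity) (fun Γ => by unfold cE; positivity)
    (fun j α Γ => rp hk1 (bdT (1 + m - η) (yM + η) c)
      (fun t f g h hb => bdT_loc (1 + m - η) (yM + η) c t f g h hb)
      (fun j α t f hb => bdT_sym (1 + m - η) (yM + η) c j α t f hb) j α Γ)
    (by
      unfold cE ZZ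
      exact_mod_cast Finset.card_le_card (Finset.filter_subset _ _))
    hfull

/-- for large `d` the base is tiny -/
private theorem B6_small (C : ℕ) : ∀ᶠ d : ℕ in atTop,
    1 ≤ d ∧ 4 * (d : ℝ) ^ 5 * (4 ^ d * Real.exp (-((2 : ℝ) ^ d / (d : ℝ) ^ C))) ≤ 1 := by
  have h1 : ∀ᶠ n : ℕ in Filter.atTop, (n : ℝ) ^ (C + 1) / (2 : ℝ) ^ n < 1 / 3 :=
    (tendsto_pow_const_div_const_pow_of_one_lt (C + 1) (by norm_num : (1 : ℝ) < 2)).eventually
      (gt_mem_nhds (by norm_num))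
  have h2 : ∀ᶠ n : ℕ in Filter.atTop, (n : ℝ) ^ 5 / (5 : ℝ) ^ n < 1 / 4 :=
    (tendsto_pow_const_div_const_pow_of_one_lt 5 (by norm_num : (1 : ℝ) < 5)).eventually
      (gt_mem_nhds (by norm_num))
  filter_upwards [h1, h2, eventually_ge_atTop 1] with d ha hb hd1
  refine ⟨hd1, ?_⟩
  have hdr : (0 : ℝ) < d := by exact_mod_cast hd1
  have h2p : (0 : ℝ) < 2 ^ d := by positivity
  have h5p : (0 : ℝ) < 5 ^ d := by positivity
  rw [div_lt_div_iff₀ h2p (by norm_num)] at ha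
  rw [div_lt_div_iff₀ h5p (by norm_num)] at hb
  have hx : 3 * (d : ℝ) ≤ 2 ^ d / (d : ℝ) ^ C := by
    rw [le_div_iff₀ (by positivity)]
    have e : 3 * (d : ℝ) * (d : ℝ) ^ C = (d : ℝ) ^ (C + 1) * 3 := by ring
    rw [e]
    linarith
  have he : (20 : ℝ) ≤ Real.exp 3 := by
    have h := Real.exp_one_gt_d9
    have h3 : Real.exp 3 = Real.exp 1 ^ 3 := by
      rw [← Real.exp_nat_mul]; norm_num
    rw [h3]
    calc (20 : ℝ) ≤ 2.7182818283 ^ 3 := by norm_num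
      _ ≤ Real.exp 1 ^ 3 := pow_le_pow_left₀ (by norm_num) h.le 3
  have hexp : (20 : ℝ) ^ d ≤ Real.exp (2 ^ d / (d : ℝ) ^ C) := by
    calc (20 : ℝ) ^ d ≤ Real.exp 3 ^ d := pow_le_pow_left₀ (by norm_num) he d
      _ = Real.exp (3 * d) := by rw [← Real.exp_nat_mul]; ring_nf
      _ ≤ _ := Real.exp_le_exp.2 hx
  have h20 : (20 : ℝ) ^ d = 4 ^ d * 5 ^ d := by rw [← mul_pow]; norm_num
  have hE : 0 < Real.exp (2 ^ d / (d : ℝ) ^ C) := Real.exp_pos _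
  rw [Real.exp_neg, ← mul_assoc, ← div_eq_mul_inv, div_le_one hE]
  calc 4 * (d : ℝ) ^ 5 * 4 ^ d ≤ 5 ^ d * 4 ^ d := by
        apply mul_le_mul_of_nonneg_right _ (by positivity)
        linarith
    _ = 20 ^ d := by rw [h20]; ring
    _ ≤ _ := hexp

open scoped Classical in
theorem pdiffT {ε : ℝ} (hε : 0 < ε) (hε1 : ε ≤ 1) (η : ℝ) (hη : 0 < η) :
    EvT ε fun d k q => ∀ m yM : ℝ, MFE (ra d q) m → YM (ra d q) m yM → 2 * η < m + (1 - yM) →
      ∀ (c : Fin q) (t t' : Blk d k),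
      (((prps d (k + 1) q).filter fun f =>
        bdT (1 + m - η) (yM + η) c t f ∨ ¬ (hiL (1 + m - η) c f t ↔ hiL (1 + m - η) c f t')).card : ℝ) ≤
        ZZ d (k + 1) q * (1 / (d : ℝ) ^ 5) := by
  obtain ⟨C, hpb⟩ := pbadT hε hε1 η hη
  refine ((hpb.and (EvT_d (B6_small C))).and (EvT_reg hε hε1 3)).mono fun d k q h => ?_
  obtain ⟨⟨hB, -, hr⟩, hd3r, -⟩ := h
  have hd3 : 3 ≤ d := by exact_mod_cast hd3r
  intro m yM hm hM hgap c t t'
  have hrpos : 0 < Real.exp (-((2 : ℝ) ^ d / (d : ℝ) ^ C)) := Real.exp_pos _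
  have hle : 4 * (4 ^ d * Real.exp (-((2 : ℝ) ^ d / (d : ℝ) ^ C))) ≤ 1 / (d : ℝ) ^ 5 := by
    rw [le_div_iff₀ (by positivity)]
    linarith
  have hhalf : 4 ^ d * Real.exp (-((2 : ℝ) ^ d / (d : ℝ) ^ C)) ≤ 1 / 2 := by
    have : 1 / (d : ℝ) ^ 5 ≤ 1 := by
      rw [div_le_one (by positivity)]
      exact one_le_pow₀ (by linarith)
    linarith
  have hθ : yM + η < 1 + m - η := by linarith
  have hm' := multi (prps d (k + 1) q) hd3 (fun f t => bdT (1 + m - η) (yM + η) c t f)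
    (fun f t => hiL (1 + m - η) c f t)
    (Real.exp (-((2 : ℝ) ^ d / (d : ℝ) ^ C)))
    hrpos.le hhalf (fun Γ => by
      have := hB m yM hm hM c Γ
      unfold cE ZZ at this
      exact this)
    (fun f _ s j _ hb1 hb2 => lab_adj (by omega) (1 + m - η) (yM + η) hθ c f s j hb1 hb2) t t'
  refine hm'.trans ?_
  unfold ZZ
  exact mul_le_mul_of_nonneg_left hle (Nat.cast_nonneg _)

end Pool.Agent.THR
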