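import Pool.Agent.Lib_MP_2c424f_thr.N1

/-!
# THR N2a: sampling (paper proof: T4)

`Ω = Site d k → Fin B` uniform, `ζ_x = 1[ω x = 0]`.  `B PP^t(ζ φ)(u) - PP^t φ (u) = ∑_y K(u,y) φ_y (B ζ_y - 1)`; the variables
`B ζ_y - 1` are independent with mean `0` and second moment `B - 1 ≤ B`.  So the mean of the square is
`≤ B ∑ K² φ² ≤ B κ PP^t (φ²)(u)`.  (Means over `Site → Fin B` of products over different sites factorise:
`Finset.prod_univ_sum`, or induct.)
-/

set_option autoImplicit false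

open Finset Filter

namespace Pool.Agent.THR

open Pool.Agent.LO Pool.Agent.LIN

variable {d k : ℕ}

/-- sum of a product over the sites -/
private theorem N2a_fac {ι : Type*} [Fintype ι] [DecidableEq ι] (B : ℕ) (h : ι → Fin B → ℝ) :
    ∑ ω : ι → Fin B, ∏ z, h z (ω z) = ∏ z, ∑ i, h z i := by
  rw [Finset.prod_univ_sum, Fintype.piFinset_univ]

/-- sum of a function of one site -/
private theorem N2a_one {ι : Type*} [Fintype ι] [DecidableEq ι] (B : ℕ) (g : Fin B → ℝ) (y : ι) :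
    (B : ℝ) * ∑ ω : ι → Fin B, g (ω y) = (B : ℝ) ^ Fintype.card ι * ∑ i, g i := by
  have h1 : ∑ ω : ι → Fin B, g (ω y) = ∏ z : ι, ∑ i, (if z = y then g i else (1 : ℝ)) := by
    rw [← N2a_fac]
    refine sum_congr rfl fun ω _ => ?_
    rw [Finset.prod_ite_eq' univ y fun z => g (ω z)]
    simp
  have h2 : ∀ z : ι, (∑ i, (if z = y then g i else (1 : ℝ))) = if z = y then ∑ i, g i else (B : ℝ) := by
    intro z
    by_cases hz : z = y
    · simp [hz]
    · simp [hz]
  rw [h1, prod_congr rfl fun z _ => h2 z, ← Finset.mul_prod_erase univ _ (mem_univ y)]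
  have h3 : ∏ z ∈ univ.erase y, (if z = y then ∑ i, g i else (B : ℝ)) = ∏ z ∈ univ.erase y, (B : ℝ) :=
    prod_congr rfl fun z hz => by rw [if_neg (ne_of_mem_erase hz)]
  have h4 : (B : ℝ) * ∏ z ∈ univ.erase y, (B : ℝ) = (B : ℝ) ^ Fintype.card ι := by
    rw [Finset.mul_prod_erase univ (fun _ => (B : ℝ)) (mem_univ y), prod_const, card_univ]
  rw [h3, if_pos rfl]
  calc (B : ℝ) * ((∑ i, g i) * ∏ z ∈ univ.erase y, (B : ℝ))
      = ((B : ℝ) * ∏ z ∈ univ.erase y, (B : ℝ)) * ∑ i, g i := by ring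
    _ = _ := by rw [h4]

/-- sum of a product of two sites -/
private theorem N2a_two {ι : Type*} [Fintype ι] [DecidableEq ι] (B : ℕ) (X : Fin B → ℝ) (hX : ∑ i, X i = 0)
    {y y' : ι} (hy : y ≠ y') : ∑ ω : ι → Fin B, X (ω y) * X (ω y') = 0 := by
  have h1 : ∑ ω : ι → Fin B, X (ω y) * X (ω y') =
      ∏ z : ι, ∑ i, ((if z = y then X i else (1 : ℝ)) * (if z = y' then X i else 1)) := by
    rw [← N2a_fac]
    refine sum_congr rfl fun ω _ => ?_
    rw [prod_mul_distrib, Finset.prod_ite_eq' univ y fun z => X (ω z),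
      Finset.prod_ite_eq' univ y' fun z => X (ω z)]
    simp
  rw [h1]
  refine prod_eq_zero (mem_univ y) ?_
  simp [hy, hX]

/-- second moment of a linear statistic of independent variables -/
theorem indep_sq {ι : Type*} [Fintype ι] [DecidableEq ι] (B : ℕ) (hB : 1 ≤ B) (X : Fin B → ℝ) (hX : ∑ i, X i = 0)
    (a : ι → ℝ) :
    (∑ ω : ι → Fin B, (∑ y, a y * X (ω y)) ^ 2) / (B : ℝ) ^ Fintype.card ι = (∑ y, a y ^ 2) * ((∑ i, X i ^ 2) / B) := by
  have hB0 : (0 : ℝ) < B := by exact_mod_cast hB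
  have h1 : ∑ ω : ι → Fin B, (∑ y, a y * X (ω y)) ^ 2 =
      ∑ y, ∑ y', a y * a y' * ∑ ω : ι → Fin B, X (ω y) * X (ω y') := by
    have : ∀ ω : ι → Fin B, (∑ y, a y * X (ω y)) ^ 2 = ∑ y, ∑ y', a y * a y' * (X (ω y) * X (ω y')) := by
      intro ω
      rw [sq, sum_mul_sum]
      exact sum_congr rfl fun y _ => sum_congr rfl fun y' _ => by ring
    rw [sum_congr rfl fun ω _ => this ω, sum_comm]
    refine sum_congr rfl fun y _ => ?_
    rw [sum_comm]
    exact sum_congr rfl fun y' _ => by rw [mul_sum]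
  have h2 : ∀ y : ι, ∑ y', a y * a y' * ∑ ω : ι → Fin B, X (ω y) * X (ω y') =
      a y ^ 2 * ∑ ω : ι → Fin B, X (ω y) ^ 2 := by
    intro y
    rw [sum_eq_single y]
    · rw [sq (a y)]
      congr 1
      exact sum_congr rfl fun ω _ => by ring
    · intro y' _ hne
      rw [N2a_two B X hX (Ne.symm hne), mul_zero]
    · intro h
      exact absurd (mem_univ y) h
  have h3 : ∀ y : ι, ∑ ω : ι → Fin B, X (ω y) ^ 2 = (B : ℝ) ^ Fintype.card ι * (∑ i, X i ^ 2) / B := by
    intro y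
    rw [eq_div_iff hB0.ne', mul_comm]
    exact N2a_one B (fun i => X i ^ 2) y
  rw [h1, sum_congr rfl fun y _ => (h2 y).trans (by rw [h3 y]), ← sum_mul]
  have hp : (0 : ℝ) < (B : ℝ) ^ Fintype.card ι := pow_pos hB0 _
  field_simp

/-- the centred indicator -/
private theorem N2a_X (B : ℕ) (hB : 1 ≤ B) :
    (∑ i : Fin B, ((if i.val = 0 then (B : ℝ) else 0) - 1 : ℝ)) = 0 ∧
    (∑ i : Fin B, ((if i.val = 0 then (B : ℝ) else 0) - 1 : ℝ) ^ 2) / (B : ℝ) ≤ (B : ℝ) := by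
  have hB0 : (0 : ℝ) < B := by exact_mod_cast hB
  have hs : ∀ c : ℝ, ∑ i : Fin B, (if i.val = 0 then c else 0) = c := by
    intro c
    rw [sum_eq_single (⟨0, hB⟩ : Fin B)]
    · simp
    · intro b _ hb
      rw [if_neg]
      intro h
      exact hb (Fin.ext h)
    · intro h
      exact absurd (mem_univ _) h
  constructor
  · rw [sum_sub_distrib, hs]
    simp
  · have h1 : ∀ i : Fin B, ((if i.val = 0 then (B : ℝ) else 0) - 1) ^ 2 =
        (if i.val = 0 then (B : ℝ) ^ 2 - 2 * B else 0) + 1 := by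
      intro i
      split_ifs <;> ring
    rw [sum_congr rfl fun i _ => h1 i, sum_add_distrib, hs, div_le_iff₀ hB0]
    simp
    nlinarith

theorem sampling (t B : ℕ) (hB : 1 ≤ B) (κ : ℝ) (hκ : ∀ u y : Site d k, Kt t u y ≤ κ) (φ : Site d k → ℝ) (u : Site d k) :
    (∑ ω : Site d k → Fin B, (B * PP^[t] (fun x => if (ω x).val = 0 then φ x else 0) u - PP^[t] φ u) ^ 2) /
      (B : ℝ) ^ Fintype.card (Site d k) ≤ B * κ * PP^[t] (fun x => φ x ^ 2) u := by
  have hB0 : (0 : ℝ) < B := by exact_mod_cast hB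
  obtain ⟨hX, hX2⟩ := N2a_X B hB
  have h1 : ∀ ω : Site d k → Fin B,
      B * PP^[t] (fun x => if (ω x).val = 0 then φ x else 0) u - PP^[t] φ u =
        ∑ y, (Kt t u y * φ y) * ((if (ω y).val = 0 then (B : ℝ) else 0) - 1) := by
    intro ω
    rw [Kt_repr, Kt_repr t φ, mul_sum, ← sum_sub_distrib]
    refine sum_congr rfl fun y _ => ?_
    split_ifs <;> ring
  rw [sum_congr rfl fun ω _ => by rw [h1 ω],
    indep_sq B hB (fun i => (if i.val = 0 then (B : ℝ) else 0) - 1) hX fun y => Kt t u y * φ y]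
  have h2 : ∑ y, (Kt t u y * φ y) ^ 2 ≤ κ * PP^[t] (fun x => φ x ^ 2) u := by
    rw [Kt_repr, mul_sum]
    refine sum_le_sum fun y _ => ?_
    have ha := Kt_nonneg t u y
    have hb := hκ u y
    have hc := sq_nonneg (φ y)
    have : Kt t u y * (Kt t u y * φ y ^ 2) ≤ κ * (Kt t u y * φ y ^ 2) :=
      mul_le_mul_of_nonneg_right hb (mul_nonneg ha hc)
    calc (Kt t u y * φ y) ^ 2 = Kt t u y * (Kt t u y * φ y ^ 2) := by ring
      _ ≤ _ := this
  have h3 : 0 ≤ ∑ y, (Kt t u y * φ y) ^ 2 := sum_nonneg fun y _ => sq_nonneg _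
  calc (∑ y, (Kt t u y * φ y) ^ 2) * ((∑ i : Fin B, ((if i.val = 0 then (B : ℝ) else 0) - 1) ^ 2) / B)
      ≤ (∑ y, (Kt t u y * φ y) ^ 2) * B := mul_le_mul_of_nonneg_left hX2 h3
    _ ≤ κ * PP^[t] (fun x => φ x ^ 2) u * B := mul_le_mul_of_nonneg_right h2 hB0.le
    _ = _ := by ring

open scoped Classical in
theorem sample_card (B : ℕ) (hB : 1 ≤ B) (A : Finset (Site d k)) :
    (∑ ω : Site d k → Fin B, ((A.filter fun x => (ω x).val = 0).card : ℝ)) / (B : ℝ) ^ Fintype.card (Site d k) =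
      A.card / B := by
  have hB0 : (0 : ℝ) < B := by exact_mod_cast hB
  have hs : ∑ i : Fin B, (if i.val = 0 then (1 : ℝ) else 0) = 1 := by
    rw [sum_eq_single (⟨0, hB⟩ : Fin B)]
    · simp
    · intro b _ hb
      rw [if_neg]
      intro h
      exact hb (Fin.ext h)
    · intro h
      exact absurd (mem_univ _) h
  have h1 : ∑ ω : Site d k → Fin B, ((A.filter fun x => (ω x).val = 0).card : ℝ) =
      ∑ x ∈ A, ∑ ω : Site d k → Fin B, (if (ω x).val = 0 then (1 : ℝ) else 0) := by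
    rw [sum_comm]
    refine sum_congr rfl fun ω _ => ?_
    rw [card_filter]
    push_cast
    rfl
  have h2 : ∀ x : Site d k, ∑ ω : Site d k → Fin B, (if (ω x).val = 0 then (1 : ℝ) else 0) =
      (B : ℝ) ^ Fintype.card (Site d k) / B := by
    intro x
    rw [eq_div_iff hB0.ne', mul_comm, N2a_one B (fun i => if i.val = 0 then (1 : ℝ) else 0) x, hs, mul_one]
  have hp : (0 : ℝ) < (B : ℝ) ^ Fintype.card (Site d k) := pow_pos hB0 _
  rw [h1, sum_congr rfl fun x _ => h2 x, sum_const, nsmul_eq_mul]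
  field_simp

end Pool.Agent.THR
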