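import Pool.Agent.Lib_MP_2c424f_thr.N1
import Pool.Agent.Lib_MP_2c424f_thr.N2a

/-!
# THR N2: sampling (paper proof: T4)

`Ω = Site d k → Fin B` uniform, `ζ_x = 1[ω x = 0]`.  `B PP^t(ζ φ)(u) - PP^t φ (u) = ∑_y K(u,y) φ_y (B ζ_y - 1)`; the variables
`B ζ_y - 1` are independent with mean `0` and second moment `B - 1 ≤ B`.  So the mean of the square is
`≤ B ∑ K² φ² ≤ B κ PP^t (φ²)(u)`.  (Means over `Site → Fin B` of products over different sites factorise:
`Finset.prod_univ_sum`, or induct; the builder may prove a general lemma for the second moment of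
`∑_y a_y X(ω y)` with `∑_{i : Fin B} X i = 0`.)
* `net_exists`: functional `B·#{φ ≠ 0, ω = 0}/N + (∑_u |..|)/E₀`, `E₀ = N √(B κ)` (mean `≤ 2`).
-/

set_option autoImplicit false

open Finset Filter

namespace Pool.Agent.THR

open Pool.Agent.LO Pool.Agent.LIN

variable {d k : ℕ}

/-- mean absolute value from the mean square -/
private theorem N2_abs_le {Ω : Type*} [Fintype Ω] (M c : ℝ) (hM : M = Fintype.card Ω) (hM0 : 0 < M)
    (X : Ω → ℝ) (h : (∑ ω, X ω ^ 2) / M ≤ c) : ∑ ω, |X ω| ≤ M * Real.sqrt c := by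
  have h1 : (∑ ω, |X ω|) ^ 2 ≤ M * ∑ ω, X ω ^ 2 := by
    have := sq_sum_le_card_mul_sum_sq (s := (univ : Finset Ω)) (f := fun ω => |X ω|)
    simpa [Finset.card_univ, hM, sq_abs] using this
  have h2 : ∑ ω, X ω ^ 2 ≤ c * M := (div_le_iff₀ hM0).1 h
  have hc : 0 ≤ c := le_trans (div_nonneg (Finset.sum_nonneg fun ω _ => sq_nonneg _) hM0.le) h
  have h3 : (∑ ω, |X ω|) ^ 2 ≤ (M * Real.sqrt c) ^ 2 := by
    rw [mul_pow, Real.sq_sqrt hc]
    calc (∑ ω, |X ω|) ^ 2 ≤ M * ∑ ω, X ω ^ 2 := h1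
      _ ≤ M * (c * M) := mul_le_mul_of_nonneg_left h2 hM0.le
      _ = M ^ 2 * c := by ring
  exact (abs_le_of_sq_le_sq' h3 (by positivity)).2

open scoped Classical in
theorem net_exists (hd : 1 ≤ d) (t B : ℕ) (hB : 1 ≤ B) (κ : ℝ) (hκ0 : 0 < κ) (hκ : ∀ u y : Site d k, Kt t u y ≤ κ)
    (φ : Site d k → ℝ) (hφ : ∀ x, |φ x| ≤ 1) :
    ∃ R : Finset (Site d k), (R.card : ℝ) ≤ 2 * NN d k / B ∧
      ∑ u, |B * PP^[t] (fun x => if x ∈ R then φ x else 0) u - PP^[t] φ u| ≤ 2 * NN d k * Real.sqrt (B * κ) := by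
  set N : ℝ := NN d k with hN
  have hN0 : 0 < N := by rw [hN]; unfold NN; positivity
  have hB0 : (0 : ℝ) < B := by exact_mod_cast hB
  set s : ℝ := Real.sqrt (B * κ) with hs
  have hs0 : 0 < s := Real.sqrt_pos.2 (mul_pos hB0 hκ0)
  set A : Finset (Site d k) := univ.filter fun x => φ x ≠ 0 with hA
  set G : (Site d k → Fin B) → Site d k → ℝ := fun ω u =>
    B * PP^[t] (fun x => if (ω x).val = 0 then φ x else 0) u - PP^[t] φ u with hG
  set M : ℝ := (B : ℝ) ^ Fintype.card (Site d k) with hM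
  have hM0 : 0 < M := by rw [hM]; positivity
  have hMc : M = (Fintype.card (Site d k → Fin B) : ℝ) := by
    have h0 : Fintype.card (Site d k → Fin B) = B ^ Fintype.card (Site d k) := by
      rw [Fintype.card_fun, Fintype.card_fin]
    rw [hM, h0, Nat.cast_pow]
  have : Nonempty (Fin B) := ⟨⟨0, hB⟩⟩
  -- the first functional
  have e1 : ∑ ω : Site d k → Fin B, ((A.filter fun x => (ω x).val = 0).card : ℝ) ≤ M * (N / B) := by
    have h := sample_card B hB A
    have hAc : (A.card : ℝ) ≤ N := by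
      rw [hN, ← card_site]; exact_mod_cast Finset.card_le_univ A
    have h2 : (∑ ω : Site d k → Fin B, ((A.filter fun x => (ω x).val = 0).card : ℝ)) / M ≤ N / B := by
      rw [hM, h]; exact div_le_div_of_nonneg_right hAc hB0.le
    rw [div_le_iff₀ hM0] at h2
    linarith
  -- the second functional
  have e2 : ∑ ω : Site d k → Fin B, ∑ u, |G ω u| ≤ M * (N * s) := by
    rw [Finset.sum_comm]
    have hu : ∀ u : Site d k, ∑ ω : Site d k → Fin B, |G ω u| ≤ M * s := by
      intro u
      have h1 := sampling t B hB κ hκ φ u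
      have h2 : PP^[t] (fun x => φ x ^ 2) u ≤ 1 := by
        calc PP^[t] (fun x => φ x ^ 2) u ≤ PP^[t] (fun _ => (1 : ℝ)) u :=
              PPt_mono t (fun x => by
                have := hφ x
                rw [← sq_abs]; nlinarith [abs_nonneg (φ x)]) u
          _ = 1 := PPt_const hd t 1 u
      have h3 : (∑ ω : Site d k → Fin B, (G ω u) ^ 2) / M ≤ B * κ := by
        refine le_trans h1 ?_
        have : 0 ≤ B * κ := (mul_pos hB0 hκ0).le
        nlinarith
      exact N2_abs_le M (B * κ) hMc hM0 (fun ω => G ω u) h3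
    calc ∑ u, ∑ ω : Site d k → Fin B, |G ω u| ≤ ∑ _u : Site d k, M * s := Finset.sum_le_sum fun u _ => hu u
      _ = M * (N * s) := by
          rw [Finset.sum_const, Finset.card_univ, nsmul_eq_mul, card_site, ← hN]; ring
  -- a good sample
  have e3 : ∑ ω : Site d k → Fin B, (((A.filter fun x => (ω x).val = 0).card : ℝ) * (B / N) + (∑ u, |G ω u|) / (N * s)) ≤
      ∑ _ω : Site d k → Fin B, (2 : ℝ) := by
    rw [Finset.sum_add_distrib, ← Finset.sum_mul, ← Finset.sum_div, Finset.sum_const, Finset.card_univ,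
      nsmul_eq_mul, ← hMc]
    have h1 : (∑ ω : Site d k → Fin B, ((A.filter fun x => (ω x).val = 0).card : ℝ)) * (B / N) ≤ M := by
      calc _ ≤ (M * (N / B)) * (B / N) := mul_le_mul_of_nonneg_right e1 (by positivity)
        _ = M := by field_simp
    have h2 : (∑ ω : Site d k → Fin B, ∑ u, |G ω u|) / (N * s) ≤ M := by
      rw [div_le_iff₀ (by positivity)]; exact e2
    linarith
  obtain ⟨ω, -, hω⟩ := Finset.exists_le_of_sum_le (Finset.univ_nonempty) e3
  have p1 : 0 ≤ ((A.filter fun x => (ω x).val = 0).card : ℝ) * (B / N) := by positivity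
  have p2 : 0 ≤ (∑ u, |G ω u|) / (N * s) :=
    div_nonneg (Finset.sum_nonneg fun u _ => abs_nonneg _) (by positivity)
  refine ⟨A.filter fun x => (ω x).val = 0, ?_, ?_⟩
  · have h1 : ((A.filter fun x => (ω x).val = 0).card : ℝ) * (B / N) ≤ 2 := by linarith
    rw [le_div_iff₀ hB0]
    calc ((A.filter fun x => (ω x).val = 0).card : ℝ) * B
        = (((A.filter fun x => (ω x).val = 0).card : ℝ) * (B / N)) * N := by field_simp
      _ ≤ 2 * N := mul_le_mul_of_nonneg_right h1 hN0.le
  · have h2 : (∑ u, |G ω u|) / (N * s) ≤ 2 := by linarith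
    rw [div_le_iff₀ (by positivity)] at h2
    have h3 : (fun x => if x ∈ (A.filter fun x => (ω x).val = 0) then φ x else 0) =
        fun x => if (ω x).val = 0 then φ x else 0 := by
      funext x
      by_cases h0 : (ω x).val = 0
      · by_cases hx : φ x = 0
        · simp [h0, hx]
        · simp [hA, h0, hx]
      · simp [h0]
    rw [h3]
    calc ∑ u, |B * PP^[t] (fun x => if (ω x).val = 0 then φ x else 0) u - PP^[t] φ u| = ∑ u, |G ω u| := rfl
      _ ≤ 2 * (N * s) := h2
      _ = 2 * N * s := by ring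

end Pool.Agent.THR
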