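import Pool.Agent.Lib_MP_2c424f_thr.N2

/-!
# THR N3a: number of functions with small support (paper proof: N1)

For `0 < x ≤ 1`: the number is at most `x^(-2N/B) ∑_η x^|supp η| = x^(-2N/B) (1+2x)^N ≤ exp ((2N/B) log (1/x) + 2xN)`, `x = 1/B`.
-/

set_option autoImplicit false

open Finset Filter

namespace Pool.Agent.THR

open Pool.Agent.LO Pool.Agent.LIN

/-- the generating function of the support size -/
private theorem N3a_gen {S : Type*} [Fintype S] [DecidableEq S] (x : ℝ) :
    ∑ η : S → Fin 3, ∏ s, (if (η s).val ≠ 0 then x else 1) = (1 + 2 * x) ^ Fintype.card S := by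
  have h := Finset.prod_univ_sum (fun _ : S => (univ : Finset (Fin 3)))
    (fun _ v => if v.val ≠ 0 then x else (1 : ℝ))
  rw [Fintype.piFinset_univ] at h
  rw [← h, Finset.prod_const, Finset.card_univ]
  congr 1
  rw [Fin.sum_univ_three]
  simp
  ring

open scoped Classical in
/-- number of functions with small support -/
theorem net_card {d k : ℕ} (B : ℕ) (hB : 1 ≤ B) :
    (((univ : Finset (Site d k → Fin 3)).filter fun η =>
      ((univ.filter fun x => (η x).val ≠ 0).card : ℝ) ≤ 2 * NN d k / B).card : ℝ) ≤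
      Real.exp (NN d k * (2 * Real.log B + 2) / B) := by
  have hB1 : (1 : ℝ) ≤ B := by exact_mod_cast hB
  have hB0 : (0 : ℝ) < B := by linarith
  have hlog : 0 ≤ Real.log B := Real.log_nonneg hB1
  have hprod : ∀ η : Site d k → Fin 3,
      ∏ s, (if (η s).val ≠ 0 then (1 / (B : ℝ)) else 1) =
        (1 / (B : ℝ)) ^ (univ.filter fun x => (η x).val ≠ 0).card := by
    intro η
    rw [Finset.prod_ite, Finset.prod_const, Finset.prod_const_one, mul_one]
  have hone : ∀ η ∈ (univ : Finset (Site d k → Fin 3)).filter fun η =>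
      ((univ.filter fun x => (η x).val ≠ 0).card : ℝ) ≤ 2 * NN d k / B,
      (1 : ℝ) ≤ Real.exp (2 * NN d k / B * Real.log B) *
        ∏ s, (if (η s).val ≠ 0 then (1 / (B : ℝ)) else 1) := by
    intro η hη
    rw [Finset.mem_filter] at hη
    rw [hprod η]
    have e : (1 / (B : ℝ)) ^ (univ.filter fun x => (η x).val ≠ 0).card =
        Real.exp (-(((univ.filter fun x => (η x).val ≠ 0).card : ℝ) * Real.log B)) := by
      rw [Real.exp_neg, Real.exp_nat_mul, Real.exp_log hB0, one_div, inv_pow]
    rw [e, ← Real.exp_add]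
    apply Real.one_le_exp
    have := mul_le_mul_of_nonneg_right hη.2 hlog
    linarith
  have hsum : (((univ : Finset (Site d k → Fin 3)).filter fun η =>
      ((univ.filter fun x => (η x).val ≠ 0).card : ℝ) ≤ 2 * NN d k / B).card : ℝ) ≤
      Real.exp (2 * NN d k / B * Real.log B) * (1 + 2 * (1 / (B : ℝ))) ^ Fintype.card (Site d k) := by
    rw [← N3a_gen, Finset.mul_sum]
    calc _ = ∑ η ∈ (univ : Finset (Site d k → Fin 3)).filter (fun η =>
      ((univ.filter fun x => (η x).val ≠ 0).card : ℝ) ≤ 2 * NN d k / B), (1 : ℝ) := by simp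
      _ ≤ ∑ η ∈ (univ : Finset (Site d k → Fin 3)).filter (fun η =>
      ((univ.filter fun x => (η x).val ≠ 0).card : ℝ) ≤ 2 * NN d k / B),
        Real.exp (2 * NN d k / B * Real.log B) *
        ∏ s, (if (η s).val ≠ 0 then (1 / (B : ℝ)) else 1) := Finset.sum_le_sum hone
      _ ≤ _ := by
        apply Finset.sum_le_sum_of_subset_of_nonneg (Finset.filter_subset _ _)
        intro η _ _
        refine mul_nonneg (Real.exp_nonneg _) (Finset.prod_nonneg fun s _ => ?_)
        split_ifs
        · positivity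
        · norm_num
  refine hsum.trans ?_
  have hpow : (1 + 2 * (1 / (B : ℝ))) ^ Fintype.card (Site d k) ≤ Real.exp (NN d k * (2 / B)) := by
    have h1 : 1 + 2 * (1 / (B : ℝ)) ≤ Real.exp (2 / B) := by
      have := Real.add_one_le_exp (2 / (B : ℝ))
      have e : 2 * (1 / (B : ℝ)) = 2 / B := by ring
      rw [e]; linarith
    have h0 : 0 ≤ 1 + 2 * (1 / (B : ℝ)) := by positivity
    calc (1 + 2 * (1 / (B : ℝ))) ^ Fintype.card (Site d k)
        ≤ (Real.exp (2 / B)) ^ Fintype.card (Site d k) := pow_le_pow_left₀ h0 h1 _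
      _ = Real.exp ((Fintype.card (Site d k) : ℝ) * (2 / B)) := by rw [Real.exp_nat_mul]
      _ = _ := by rw [card_site]
  calc Real.exp (2 * NN d k / B * Real.log B) * (1 + 2 * (1 / (B : ℝ))) ^ Fintype.card (Site d k)
      ≤ Real.exp (2 * NN d k / B * Real.log B) * Real.exp (NN d k * (2 / B)) :=
        mul_le_mul_of_nonneg_left hpow (Real.exp_nonneg _)
    _ = Real.exp (NN d k * (2 * Real.log B + 2) / B) := by
        rw [← Real.exp_add]
        congr 1
        field_simp

end Pool.Agent.THR
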