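import Pool.Agent.Lib_MP_2c424f_thr.R9
import Pool.Agent.Lib_MP_2c424f_thr.N1a
import Pool.Agent.Lib_MP_2c424f_thr.N2
import Pool.Agent.Lib_MP_2c424f_thr.N3a

/-!
# THR N3: adapted weights (paper proof: N1, N2)

`K = 4`, `C` the exponent of `iso` for `K = 5` (say), `K₂ = C + 3`, `B = d^K₂`, `s = K₂ + 20`, `t = 2s`.
Net: functions `η : Site → Fin 3` (values `-1,0,1`) with at most `2N/B` nonzero values; their number is
`≤ x^(-2N/B) (1+2x)^N`, `x = 1/B`, i.e. `≤ exp ((2N/B) log B + 2N/B) ≤ exp (N/d^(C+2))`, so `Rar_union` (index type = the subtype of the net times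
the finite parameters `Bool, Fin q, Fin q, Stp d, Stp d`) gives: off a rare event `iso` holds for all weights
`w = clip (B PP^t η)` (clipping to `[-1,1]`).
For `φ` with values in `{-1,0,1}` supported in the class `b`: `R` from `net_exists` (`Kt_sup`), `η = 1_R φ`; `|w - PP^t φ| ≤ |B PP^t η - PP^t φ|`
since `|PP^t φ| ≤ 1`; `∑_x φ_x D_x = ∑_u (PP^t φ)_u (sg (u+σ) - sg (u+σ'))` (`PPt_adj`, `PPt_transl`), and `PP^t φ` vanishes off the class `b`.
The errors: `(2 + C₄/q²)·2N √(B κ) ≤ N/(2 d^4)` since `B κ ≤ d^K₂ (8s)^(2s)/(2d)^s`.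
-/

set_option autoImplicit false

open Finset Filter

namespace Pool.Agent.THR

open Pool.Agent.LO Pool.Agent.LIN

/-- clipping to `[-1,1]` -/
private noncomputable def N3_clip (x : ℝ) : ℝ := max (-1) (min 1 x)

private theorem N3_clip_abs (x : ℝ) : |N3_clip x| ≤ 1 := by
  unfold N3_clip
  rw [abs_le]
  exact ⟨le_max_left _ _, max_le (by norm_num) (min_le_left _ _)⟩

private theorem N3_clip_sub (x y : ℝ) (hy : |y| ≤ 1) : |N3_clip x - y| ≤ |x - y| := by
  unfold N3_clip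
  obtain ⟨h1, h2⟩ := abs_le.1 hy
  rcases le_total x 1 with hx | hx
  · rw [min_eq_right hx]
    rcases le_total (-1) x with h3 | h3
    · rw [max_eq_right h3]
    · rw [max_eq_left h3, abs_of_nonpos (by linarith), abs_of_nonpos (by linarith)]
      linarith
  · rw [min_eq_left hx, max_eq_right (by norm_num), abs_of_nonneg (by linarith),
      abs_of_nonneg (by linarith)]
    linarith

/-- value of a code -/
private noncomputable def N3_val (a : Fin 3) : ℝ :=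
  if a.val = 0 then 0 else if a.val = 1 then 1 else -1

/-- code of a value -/
private noncomputable def N3_code (x : ℝ) : Fin 3 := by
  classical exact if x = 0 then 0 else if x = 1 then 1 else 2

private theorem N3_val_code (x : ℝ) (h : x = 0 ∨ x = 1 ∨ x = -1) : N3_val (N3_code x) = x := by
  unfold N3_val N3_code
  rcases h with h | h | h
  · subst h; simp
  · subst h; simp
  · subst h; norm_num

private theorem N3_code_zero : N3_code 0 = 0 := by
  unfold N3_code; simp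

/-- the weight of a code function -/
private noncomputable def N3_w {d k : ℕ} (t B : ℕ) (η : Site d k → Fin 3) (u : Site d k) : ℝ :=
  N3_clip (B * PP^[t] (fun x => N3_val (η x)) u)

private theorem N3_sg_abs {d k q : ℕ} (c c' : Fin q) (f : Site d k → Fin q) (v : Site d k) :
    |sg c c' f v| ≤ 1 := by
  unfold sg
  split_ifs <;> norm_num

open scoped Classical in
private theorem N3_det {d k q : ℕ} (hd : 1 ≤ d) (hk : 1 ≤ k) (t B : ℕ) (ht : Even t) (hB : 1 ≤ B)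
    (κ : ℝ) (hκ0 : 0 < κ) (hκ : ∀ u y : Site d k, Kt t u y ≤ κ) (C₄ e : ℝ) (hC₄ : 0 ≤ C₄)
    (he : 0 ≤ e) (f : Site d k → Fin q)
    (H : ∀ (η : Site d k → Fin 3),
      (((univ.filter fun x => (η x).val ≠ 0).card : ℝ) ≤ 2 * NN d k / B) →
      ∀ (b : Bool) (c c' : Fin q) (σ τ : Stp d), c ≠ c' →
       ∑ u ∈ cls b d k, N3_w t B η u * (sg c c' f (u + sv σ) - sg c c' f (u + sv τ)) ≤
        C₄ / (q : ℝ) ^ 2 * Wt b (N3_w t B η) + e)
    (b : Bool) (c c' : Fin q) (σ τ : Stp d) (φ : Site d k → ℝ)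
    (hφ : ∀ x, φ x = 0 ∨ φ x = 1 ∨ φ x = -1) (hφb : ∀ x, x ∉ cls b d k → φ x = 0) :
    ∑ x, φ x * (PP^[t] (sg c c' f) (x + sv σ) - PP^[t] (sg c c' f) (x + sv τ)) ≤
      C₄ / (q : ℝ) ^ 2 * ∑ x, |φ x| +
        ((C₄ / (q : ℝ) ^ 2 + 2) * (2 * NN d k * Real.sqrt (B * κ)) + e) := by
  have hNN : 0 ≤ NN d k := by unfold NN; positivity
  by_cases hcc : c = c'
  · have h0 : sg c c' f = fun _ => (0 : ℝ) := by
      funext v
      unfold sg
      rw [hcc]; ring
    have h1 : ∀ x, PP^[t] (sg c c' f) x = 0 := fun x => by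
      rw [h0]; exact PPt_const hd t 0 x
    have h2 : ∑ x, φ x * (PP^[t] (sg c c' f) (x + sv σ) - PP^[t] (sg c c' f) (x + sv τ)) = 0 := by
      refine Finset.sum_eq_zero fun x _ => ?_
      rw [h1, h1]; ring
    rw [h2]
    have : 0 ≤ ∑ x, |φ x| := Finset.sum_nonneg fun x _ => abs_nonneg _
    positivity
  have hφ1 : ∀ x, |φ x| ≤ 1 := fun x => by
    rcases hφ x with h | h | h <;> rw [h] <;> norm_num
  obtain ⟨R, hR1, hR2⟩ := net_exists hd t B hB κ hκ0 hκ φ hφ1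
  set E0 : ℝ := 2 * NN d k * Real.sqrt (B * κ) with hE0
  -- the code
  set η : Site d k → Fin 3 := fun x => if x ∈ R then N3_code (φ x) else 0 with hη
  have hval : (fun x => N3_val (η x)) = fun x => if x ∈ R then φ x else 0 := by
    funext x
    simp only [hη]
    by_cases hx : x ∈ R
    · simp only [hx, if_true]; exact N3_val_code _ (hφ x)
    · simp only [hx, if_false]; simp [N3_val]
  have hsupp : (((univ.filter fun x => (η x).val ≠ 0).card : ℝ) ≤ 2 * NN d k / B) := by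
    refine le_trans ?_ hR1
    have : (univ.filter fun x => (η x).val ≠ 0) ⊆ R := by
      intro x hx
      by_contra h
      simp [hη, h] at hx
    exact_mod_cast Finset.card_le_card this
  have hH := H η hsupp b c c' σ τ hcc
  -- abbreviations
  set w := N3_w t B η with hw
  set P : Site d k → ℝ := PP^[t] φ with hP
  have hPabs : ∀ u, |P u| ≤ 1 := fun u => by
    refine (PPt_abs t φ u).trans ?_
    refine (PPt_mono t hφ1 u).trans ?_
    rw [PPt_const hd]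
  have hwP : ∑ u, |w u - P u| ≤ E0 := by
    refine le_trans (Finset.sum_le_sum fun u _ => ?_) hR2
    rw [hw]
    unfold N3_w
    rw [hval]
    exact N3_clip_sub _ _ (hPabs u)
  -- the sum
  have hs1 : ∀ ρ : Stp d, ∑ x, φ x * PP^[t] (sg c c' f) (x + sv ρ) =
      ∑ u, P u * sg c c' f (u + sv ρ) := by
    intro ρ
    rw [hP, PPt_adj t φ (fun u => sg c c' f (u + sv ρ))]
    refine Finset.sum_congr rfl fun x _ => ?_
    rw [PPt_transl]
  have hPoff : ∀ u, u ∉ cls b d k → P u = 0 := by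
    intro u hu
    rw [hP, Kt_repr]
    refine Finset.sum_eq_zero fun y _ => ?_
    by_cases hy : y ∈ cls b d k
    · rw [Kt_cls hk t ht (!b) u y ((cls_not b u).2 hu) (by rw [Bool.not_not]; exact hy), zero_mul]
    · rw [hφb y hy, mul_zero]
  have hsum : ∑ x, φ x * (PP^[t] (sg c c' f) (x + sv σ) - PP^[t] (sg c c' f) (x + sv τ)) =
      ∑ u ∈ cls b d k, P u * (sg c c' f (u + sv σ) - sg c c' f (u + sv τ)) := by
    simp only [mul_sub, Finset.sum_sub_distrib]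
    rw [hs1, hs1]
    congr 1
    · symm
      refine Finset.sum_subset (Finset.subset_univ _) fun u _ hu => ?_
      rw [hPoff u hu, zero_mul]
    · symm
      refine Finset.sum_subset (Finset.subset_univ _) fun u _ hu => ?_
      rw [hPoff u hu, zero_mul]
  have hsplit : ∑ u ∈ cls b d k, P u * (sg c c' f (u + sv σ) - sg c c' f (u + sv τ)) ≤
      ∑ u ∈ cls b d k, w u * (sg c c' f (u + sv σ) - sg c c' f (u + sv τ)) + 2 * E0 := by
    have h1 : ∑ u ∈ cls b d k, P u * (sg c c' f (u + sv σ) - sg c c' f (u + sv τ)) ≤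
        ∑ u ∈ cls b d k, (w u * (sg c c' f (u + sv σ) - sg c c' f (u + sv τ)) +
          2 * |w u - P u|) := by
      refine Finset.sum_le_sum fun u _ => ?_
      have h2 : |sg c c' f (u + sv σ) - sg c c' f (u + sv τ)| ≤ 2 := by
        have a1 := N3_sg_abs c c' f (u + sv σ)
        have a2 := N3_sg_abs c c' f (u + sv τ)
        have := abs_sub (sg c c' f (u + sv σ)) (sg c c' f (u + sv τ))
        linarith
      have h3 : (P u - w u) * (sg c c' f (u + sv σ) - sg c c' f (u + sv τ)) ≤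
          |w u - P u| * 2 := by
        refine (le_abs_self _).trans ?_
        rw [abs_mul, abs_sub_comm]
        exact mul_le_mul_of_nonneg_left h2 (abs_nonneg _)
      linarith
    refine h1.trans ?_
    rw [Finset.sum_add_distrib, ← Finset.mul_sum]
    have h4 : ∑ u ∈ cls b d k, |w u - P u| ≤ ∑ u, |w u - P u| :=
      Finset.sum_le_sum_of_subset_of_nonneg (Finset.subset_univ _) fun _ _ _ => abs_nonneg _
    linarith
  have hWt : Wt b w ≤ ∑ x, |φ x| + E0 := by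
    unfold Wt
    calc ∑ u ∈ cls b d k, |w u| ≤ ∑ u, |w u| :=
          Finset.sum_le_sum_of_subset_of_nonneg (Finset.subset_univ _) fun _ _ _ => abs_nonneg _
      _ ≤ ∑ u, (PP^[t] (fun y => |φ y|) u + |w u - P u|) := by
          refine Finset.sum_le_sum fun u _ => ?_
          have h1 := PPt_abs t φ u
          have h2 : |w u| ≤ |P u| + |w u - P u| := by
            have := abs_add_le (P u) (w u - P u)
            rwa [add_sub_cancel] at this
          have h3 : |P u| ≤ PP^[t] (fun y => |φ y|) u := h1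
          linarith
      _ = ∑ u, PP^[t] (fun y => |φ y|) u + ∑ u, |w u - P u| := Finset.sum_add_distrib
      _ ≤ _ := by
          rw [PPt_total hd]
          linarith
  have hq : 0 ≤ C₄ / (q : ℝ) ^ 2 := by positivity
  rw [hsum]
  have := mul_le_mul_of_nonneg_left hWt hq
  have hE0' : 0 ≤ E0 := by positivity
  nlinarith

open scoped Classical in
/-- index type of the union -/
private abbrev N3_ix (d k q B : ℕ) : Type :=
  {η : Site d k → Fin 3 // (((univ.filter fun x => (η x).val ≠ 0).card : ℝ) ≤ 2 * NN d k / B)} ×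
    (Bool × (Fin q × Fin q) × (Stp d × Stp d))

open scoped Classical in
private noncomputable instance N3_fin (d k q B : ℕ) : Fintype (N3_ix d k q B) := inferInstance

private theorem N3_log {d k q B : ℕ} (hd : 1 ≤ d) (hq : 1 ≤ q) (hB : 1 ≤ B) :
    Real.log (Fintype.card (N3_ix d k q B)) ≤
      NN d k * (2 * Real.log B + 2) / B + Real.log (8 * (q : ℝ) ^ 2 * (d : ℝ) ^ 2) := by
  classical
  have hNN : 0 ≤ NN d k := by unfold NN; positivity
  have hd0 : (0 : ℝ) < d := by exact_mod_cast hd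
  have hq0 : (0 : ℝ) < q := by exact_mod_cast hq
  have h1 := net_card (d := d) (k := k) B hB
  set A : ℕ := ((univ : Finset (Site d k → Fin 3)).filter fun η =>
      ((univ.filter fun x => (η x).val ≠ 0).card : ℝ) ≤ 2 * NN d k / B).card with hA
  have hcard : Fintype.card (N3_ix d k q B) = A * (2 * ((q * q) * ((d * 2) * (d * 2)))) := by
    rw [Fintype.card_prod, Fintype.card_prod, Fintype.card_prod, Fintype.card_prod,
      Fintype.card_prod, Fintype.card_prod, Fintype.card_fin, Fintype.card_fin, Fintype.card_bool,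
      Fintype.card_subtype]
  have hA1 : 1 ≤ A := by
    rw [hA, Nat.one_le_iff_ne_zero, Finset.card_ne_zero]
    refine ⟨fun _ => 0, ?_⟩
    simp only [Finset.mem_filter, Finset.mem_univ, true_and]
    have : (univ.filter fun x : Site d k => ((0 : Fin 3) : Fin 3).val ≠ 0) = ∅ := by
      ext x; simp
    rw [this]
    simp only [Finset.card_empty, Nat.cast_zero]
    positivity
  have hA0 : (0 : ℝ) < A := by exact_mod_cast hA1
  have hp : (0 : ℝ) < 8 * (q : ℝ) ^ 2 * (d : ℝ) ^ 2 := by positivity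
  have e : ((Fintype.card (N3_ix d k q B) : ℕ) : ℝ) = A * (8 * (q : ℝ) ^ 2 * (d : ℝ) ^ 2) := by
    rw [hcard]; push_cast; ring
  rw [e, Real.log_mul hA0.ne' hp.ne']
  have h2 : Real.log A ≤ NN d k * (2 * Real.log B + 2) / B := by
    rw [Real.log_le_iff_le_exp hA0]
    exact h1
  linarith

/-- the numbers -/
private theorem N3_num (C₄ : ℝ) (hC₄ : 0 < C₄) (K₂ s d q : ℕ) (NNr : ℝ) (hN : 0 ≤ NNr)
    (hs : s = K₂ + 20) (hd : 1 ≤ d) (hq : 1 ≤ q)
    (hM : (C₄ + 2) * 2 * (8 * (s : ℝ)) ^ s ≤ d) :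
    (C₄ / (q : ℝ) ^ 2 + 2) * (2 * NNr * Real.sqrt (((d ^ K₂ : ℕ) : ℝ) *
      ((8 * (s : ℝ)) ^ (2 * s) / (2 * (d : ℝ)) ^ s))) + NNr / (d : ℝ) ^ 5 ≤
      2 * NNr / (d : ℝ) ^ 4 := by
  have hd1 : (1 : ℝ) ≤ d := by exact_mod_cast hd
  have hd0 : (0 : ℝ) < d := by linarith
  have hq1 : (1 : ℝ) ≤ q := by exact_mod_cast hq
  have hs0 : (0 : ℝ) ≤ s := Nat.cast_nonneg _
  have h1 : Real.sqrt (((d ^ K₂ : ℕ) : ℝ) * ((8 * (s : ℝ)) ^ (2 * s) / (2 * (d : ℝ)) ^ s)) ≤
      (8 * (s : ℝ)) ^ s / (d : ℝ) ^ 10 := by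
    rw [show (8 * (s : ℝ)) ^ s / (d : ℝ) ^ 10 = Real.sqrt (((8 * (s : ℝ)) ^ s / (d : ℝ) ^ 10) ^ 2)
      from (Real.sqrt_sq (by positivity)).symm]
    apply Real.sqrt_le_sqrt
    have e1 : (2 * (d : ℝ)) ^ s = 2 ^ s * ((d : ℝ) ^ K₂ * (d : ℝ) ^ 20) := by
      rw [mul_pow, hs, pow_add (d : ℝ)]
    have e2 : (((8 * (s : ℝ)) ^ s / (d : ℝ) ^ 10) ^ 2) = (8 * (s : ℝ)) ^ (2 * s) / (d : ℝ) ^ 20 := by
      rw [div_pow, ← pow_mul, ← pow_mul, mul_comm s 2]
    rw [e1, e2]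
    push_cast
    have h2 : (1 : ℝ) ≤ 2 ^ s := one_le_pow₀ (by norm_num)
    have e3 : (d : ℝ) ^ K₂ * ((8 * (s : ℝ)) ^ (2 * s) / (2 ^ s * ((d : ℝ) ^ K₂ * (d : ℝ) ^ 20))) =
        ((8 * (s : ℝ)) ^ (2 * s) / (d : ℝ) ^ 20) / 2 ^ s := by
      field_simp
    rw [e3]
    exact div_le_self (by positivity) h2
  have h3 : C₄ / (q : ℝ) ^ 2 ≤ C₄ := div_le_self hC₄.le (one_le_pow₀ hq1)
  have h4 : (C₄ / (q : ℝ) ^ 2 + 2) * (2 * NNr * Real.sqrt (((d ^ K₂ : ℕ) : ℝ) *
      ((8 * (s : ℝ)) ^ (2 * s) / (2 * (d : ℝ)) ^ s))) ≤ NNr / (d : ℝ) ^ 5 := by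
    calc (C₄ / (q : ℝ) ^ 2 + 2) * (2 * NNr * Real.sqrt (((d ^ K₂ : ℕ) : ℝ) *
      ((8 * (s : ℝ)) ^ (2 * s) / (2 * (d : ℝ)) ^ s)))
        ≤ (C₄ + 2) * (2 * NNr * ((8 * (s : ℝ)) ^ s / (d : ℝ) ^ 10)) := by
          gcongr
      _ = NNr * ((C₄ + 2) * 2 * (8 * (s : ℝ)) ^ s) / (d : ℝ) ^ 10 := by ring
      _ ≤ NNr * (d : ℝ) / (d : ℝ) ^ 10 := by gcongr
      _ = NNr / (d : ℝ) ^ 9 := by field_simp
      _ ≤ NNr / (d : ℝ) ^ 5 := by
          apply div_le_div_of_nonneg_left hN (by positivity)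
          exact pow_le_pow_right₀ hd1 (by norm_num)
  have h5 : NNr / (d : ℝ) ^ 5 ≤ NNr / (d : ℝ) ^ 4 := by
    apply div_le_div_of_nonneg_left hN (by positivity)
    exact pow_le_pow_right₀ hd1 (by norm_num)
  have h6 : 2 * NNr / (d : ℝ) ^ 4 = NNr / (d : ℝ) ^ 4 + NNr / (d : ℝ) ^ 4 := by ring
  rw [h6]
  linarith

theorem iso_adapt {ε : ℝ} (hε : 0 < ε) (hε1 : ε ≤ 1) : ∃ (t : ℕ) (C₄ : ℝ), Even t ∧ 20 ≤ t ∧ 0 < C₄ ∧
    WOP ε fun d k q f => ∀ (b : Bool) (c c' : Fin q) (σ τ : Stp d) (φ : Site d k → ℝ),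
      (∀ x, φ x = 0 ∨ φ x = 1 ∨ φ x = -1) → (∀ x, x ∉ cls b d k → φ x = 0) →
      ∑ x, φ x * (PP^[t] (sg c c' f) (x + sv σ) - PP^[t] (sg c c' f) (x + sv τ)) ≤
        C₄ / (q : ℝ) ^ 2 * ∑ x, |φ x| + 2 * NN d k / (d : ℝ) ^ 4 := by
  obtain ⟨C₄, hC₄, hiso⟩ := iso hε hε1
  obtain ⟨C, hC⟩ := hiso 5
  obtain ⟨K₂, hK₂⟩ : ∃ K₂ : ℕ, K₂ = C + 3 := ⟨_, rfl⟩
  obtain ⟨s, hs⟩ : ∃ s : ℕ, s = K₂ + 20 := ⟨_, rfl⟩
  refine ⟨2 * s, C₄, even_two_mul s, by omega, hC₄, C + 1, ?_⟩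
  have hreg := EvT_reg hε hε1 (2 + (4 * (K₂ : ℝ) + 4) + (C₄ + 2) * 2 * (8 * (s : ℝ)) ^ s)
  have hNNl := EvT_NN (ε := ε) fun d q =>
    2 * ((d : ℝ) ^ (C + 1) * Real.log (8 * (q : ℝ) ^ 2 * (d : ℝ) ^ 2))
  have hpow := EvT_pow (ε := ε) fun _ _ => (2 * (s : ℝ) + 1)
  refine EvT.mono (((hC.and hreg).and hNNl).and hpow) fun d k q h => ?_
  obtain ⟨⟨⟨hR, hMd, hMq, hMk, -⟩, hNl⟩, hk2⟩ := h
  have hX : 0 ≤ (C₄ + 2) * 2 * (8 * (s : ℝ)) ^ s := by positivity
  have hK0 : (0 : ℝ) ≤ K₂ := Nat.cast_nonneg _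
  have hd2 : 2 ≤ d := by
    have : (2 : ℝ) ≤ d := by linarith
    exact_mod_cast this
  have hd1 : 1 ≤ d := by omega
  have hq1 : 1 ≤ q := by
    have : (1 : ℝ) ≤ q := by linarith
    exact_mod_cast this
  have hk1 : 1 ≤ k := by
    have : (1 : ℝ) ≤ k := by linarith
    exact_mod_cast this
  have hd0 : (0 : ℝ) < d := by exact_mod_cast (show 0 < d by omega)
  have hdr : (1 : ℝ) ≤ d := by exact_mod_cast hd1
  have hNN : 0 ≤ NN d k := by unfold NN; positivity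
  obtain ⟨B, hB⟩ : ∃ B : ℕ, B = d ^ K₂ := ⟨_, rfl⟩
  have hB1 : 1 ≤ B := by rw [hB]; exact Nat.one_le_pow _ _ (by omega)
  have hs1 : 1 ≤ s := by omega
  have hs0 : (0 : ℝ) < s := by exact_mod_cast (show 0 < s by omega)
  -- union
  have hlog : (d : ℝ) ^ (C + 1) * Real.log (Fintype.card (N3_ix d k q B)) ≤ NN d k := by
    have h1 := N3_log (k := k) hd1 hq1 hB1
    have h2 : Real.log B = K₂ * Real.log d := by
      rw [hB]; push_cast; rw [Real.log_pow]
    have h3 : Real.log d ≤ d := by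
      have := Real.log_le_sub_one_of_pos hd0
      linarith
    have hBr : (B : ℝ) = (d : ℝ) ^ (C + 1) * (d : ℝ) ^ 2 := by
      rw [hB, hK₂]; push_cast; rw [← pow_add]
    have h4 : (d : ℝ) ^ (C + 1) * (NN d k * (2 * Real.log B + 2) / B) =
        NN d k * ((2 * Real.log B + 2) / (d : ℝ) ^ 2) := by
      rw [hBr]; field_simp
    have h5 : (2 * Real.log B + 2) / (d : ℝ) ^ 2 ≤ 1 / 2 := by
      rw [div_le_iff₀ (by positivity), h2]
      nlinarith
    calc (d : ℝ) ^ (C + 1) * Real.log (Fintype.card (N3_ix d k q B))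
        ≤ (d : ℝ) ^ (C + 1) * (NN d k * (2 * Real.log B + 2) / B +
          Real.log (8 * (q : ℝ) ^ 2 * (d : ℝ) ^ 2)) :=
          mul_le_mul_of_nonneg_left h1 (by positivity)
      _ = NN d k * ((2 * Real.log B + 2) / (d : ℝ) ^ 2) +
          (d : ℝ) ^ (C + 1) * Real.log (8 * (q : ℝ) ^ 2 * (d : ℝ) ^ 2) := by
          rw [mul_add, h4]
      _ ≤ NN d k * (1 / 2) + NN d k / 2 := by
          have := mul_le_mul_of_nonneg_left h5 hNN
          linarith
      _ = NN d k := by ring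
  have hU := Rar_union (ι := N3_ix d k q B) hd2
    (P := fun i f => ¬ (i.2.2.1.1 ≠ i.2.2.1.2 →
      (∀ x, |N3_w (2 * s) B i.1.1 x| ≤ 1) →
      ∑ u ∈ cls i.2.1 d k, N3_w (2 * s) B i.1.1 u *
          (sg i.2.2.1.1 i.2.2.1.2 f (u + sv i.2.2.2.1) -
            sg i.2.2.1.1 i.2.2.1.2 f (u + sv i.2.2.2.2)) ≤
        C₄ / (q : ℝ) ^ 2 * Wt i.2.1 (N3_w (2 * s) B i.1.1) + NN d k / (d : ℝ) ^ 5))
    (fun i => hR (i.2.1, i.2.2.1, i.2.2.2, N3_w (2 * s) B i.1.1)) hlog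
  refine hU.mono fun f _ hf => ?_
  by_contra hno
  push Not at hno
  apply hf
  have hkap : 0 < (8 * (s : ℝ)) ^ (2 * s) / (2 * (d : ℝ)) ^ s := by positivity
  have hkk : 2 * s < 2 ^ k := by
    have : (2 * (s : ℝ) + 1) ≤ 2 ^ k := hk2
    have h2 : 2 * s + 1 ≤ 2 ^ k := by exact_mod_cast this
    omega
  intro b c c' σ τ φ hφ hφb
  have hdet := N3_det hd1 hk1 (2 * s) B (even_two_mul s) hB1 _ hkap
    (fun u y => Kt_sup hd1 s hkk u y) C₄ (NN d k / (d : ℝ) ^ 5) hC₄.le (by positivity) f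
    (fun η hη b c c' σ τ hcc => hno (⟨η, hη⟩, b, (c, c'), (σ, τ)) hcc fun x => by
      unfold N3_w; exact N3_clip_abs _) b c c' σ τ φ hφ hφb
  have hnum := N3_num C₄ hC₄ K₂ s d q (NN d k) hNN hs hd1 hq1 (by linarith)
  rw [hB] at hdet
  linarith

end Pool.Agent.THR
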