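import Pool.Agent.Lib_MP_2c424f_thr.A1

/-!
# THR A2: fixed points of `F ∘ F` (paper proof: A2)

`y = F (F y)`, `z = F y`: `y e^(a z) = z e^(a y) = 1/α*`.
* If `y = z`: `y e^(a y) = 1/α*`, unique `y` (strictly increasing), the point `yM` (`YM`); at `y = 1`: `e^a > e^a / cosh (a m)`, so `yM < 1`.
* If `y ≠ z`, say `y < z`: with `θ = a (z-y)/2 > 0`: `a y = θ e^(-θ)/sinh θ`, `a z = θ e^θ/sinh θ` (from `z/y = e^(a(z-y))`) and
  `log (a/α*) = log (a y) + a z = log (θ/sinh θ) + θ coth θ =: K θ`, `K' = 1/θ - θ/sinh² θ > 0`; `θ = a m` is a solution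
  (`y = 1-m`, `z = 1+m`), so it is the only one.
* `1 - m < yM`: otherwise `yM ≤ 1-m < 1+m = F (1-m) ≤ F yM = yM`, contradiction (`F` is decreasing).
-/

set_option autoImplicit false

open Finset Filter

namespace Pool.Agent.THR

private lemma Fy_anti_A2 (a m : ℝ) (ha : 0 < a) : StrictAnti (Fy a m) := by
  intro y y' hyy
  have h0 := als_pos a m
  unfold Fy
  apply div_lt_div_of_pos_right _ h0
  apply Real.exp_lt_exp.mpr
  have := mul_lt_mul_of_pos_left hyy ha
  linarith

private lemma Fy_pos_A2 (a m y : ℝ) : 0 < Fy a m y := div_pos (Real.exp_pos _) (als_pos a m)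

private lemma one_lt_cosh_A2 (a m : ℝ) (ha : 1 < a) (h : 0 < m) : 1 < Real.cosh (a * m) :=
  Real.one_lt_cosh.mpr (mul_pos (by linarith) h).ne'

theorem ym_exists (a m : ℝ) (ha : 1 < a) (h : MFE a m) : ∃ y : ℝ, YM a m y := by
  have hal := als_pos a m
  have hc := one_lt_cosh_A2 a m ha h.1
  have hcont : ContinuousOn (fun y : ℝ => y - Fy a m y) (Set.Icc 0 1) := by
    apply Continuous.continuousOn
    unfold Fy
    fun_prop
  have h0 : (fun y : ℝ => y - Fy a m y) 0 ≤ 0 := by
    have := Fy_pos_A2 a m 0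
    simp only
    linarith
  have h1 : 0 ≤ (fun y : ℝ => y - Fy a m y) 1 := by
    have : Fy a m 1 ≤ 1 := by
      unfold Fy als
      rw [mul_one, div_le_one (by positivity)]
      exact le_mul_of_one_le_right (Real.exp_pos _).le hc.le
    simp only
    linarith
  obtain ⟨y, hy, hy'⟩ := intermediate_value_Icc (zero_le_one) hcont ⟨h0, h1⟩
  refine ⟨y, hy.1, ?_⟩
  simp only at hy'
  linarith

theorem ym_bounds (a m y : ℝ) (ha : 1 < a) (h : MFE a m) (hy : YM a m y) : 1 - m < y ∧ y < 1 := by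
  have ha0 : 0 < a := by linarith
  have hanti := Fy_anti_A2 a m ha0
  have hc := one_lt_cosh_A2 a m ha h.1
  constructor
  · by_contra hcon
    push Not at hcon
    have h1 := hanti.antitone hcon
    rw [Fy_sub a m h, ← hy.2] at h1
    have := h.1
    linarith
  · by_contra hcon
    push Not at hcon
    have h1 := hanti.antitone hcon
    rw [← hy.2] at h1
    have h2 : Fy a m 1 < 1 := by
      unfold Fy als
      rw [mul_one, div_lt_one (by positivity)]
      exact lt_mul_of_one_lt_right (Real.exp_pos _) hc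
    linarith

theorem ym_unique (a m y y' : ℝ) (ha : 1 < a) (hy : YM a m y) (hy' : YM a m y') : y = y' := by
  have hanti := Fy_anti_A2 a m (by linarith)
  rcases lt_trichotomy y y' with hlt | heq | hgt
  · have := hanti hlt
    rw [← hy.2, ← hy'.2] at this
    linarith
  · exact heq
  · have := hanti hgt
    rw [← hy.2, ← hy'.2] at this
    linarith

/-- the function `K` is strictly increasing -/
theorem K_mono : StrictMonoOn (fun θ : ℝ => Real.log (θ / Real.sinh θ) + θ * Real.cosh θ / Real.sinh θ) (Set.Ioi 0) := by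
  have hder : ∀ θ : ℝ, 0 < θ → HasDerivAt
      (fun θ : ℝ => Real.log (θ / Real.sinh θ) + θ * Real.cosh θ / Real.sinh θ)
      (1 / θ - θ / Real.sinh θ ^ 2) θ := by
    intro θ hθ
    have hs : 0 < Real.sinh θ := Real.sinh_pos_iff.mpr hθ
    have h1 : HasDerivAt (fun θ : ℝ => θ / Real.sinh θ)
        ((1 * Real.sinh θ - θ * Real.cosh θ) / Real.sinh θ ^ 2) θ :=
      (hasDerivAt_id θ).div (Real.hasDerivAt_sinh θ) hs.ne'
    have h2 := h1.log (div_pos hθ hs).ne'
    have h3 : HasDerivAt (fun θ : ℝ => θ * Real.cosh θ / Real.sinh θ)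
        (((1 * Real.cosh θ + θ * Real.sinh θ) * Real.sinh θ - θ * Real.cosh θ * Real.cosh θ) / Real.sinh θ ^ 2) θ :=
      ((hasDerivAt_id θ).mul (Real.hasDerivAt_cosh θ)).div (Real.hasDerivAt_sinh θ) hs.ne'
    have h4 := h2.add h3
    refine h4.congr_deriv ?_
    have hcs : Real.cosh θ ^ 2 = Real.sinh θ ^ 2 + 1 := by
      have := Real.cosh_sq θ
      linarith
    field_simp
    ring_nf
    rw [hcs]
    ring
  apply strictMonoOn_of_deriv_pos (convex_Ioi 0)
  · intro θ hθ
    exact (hder θ hθ).continuousAt.continuousWithinAt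
  · intro θ hθ
    rw [interior_Ioi] at hθ
    have hθ0 : 0 < θ := hθ
    rw [(hder θ hθ0).deriv]
    have hs : θ < Real.sinh θ := Real.self_lt_sinh_iff.mpr hθ0
    have hs0 : 0 < Real.sinh θ := hθ0.trans hs
    rw [sub_pos, div_lt_div_iff₀ (by positivity) hθ0]
    nlinarith

private lemma pair_A2 {a α y z : ℝ} (ha : 0 < a) (hα : 0 < α) (hy : 0 < y) (hyz : y < z)
    (h1 : y * α = Real.exp (-(a * z))) (h2 : z * α = Real.exp (-(a * y))) :
    ∃ θ : ℝ, 0 < θ ∧ a * y = θ * Real.exp (-θ) / Real.sinh θ ∧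
      Real.log (θ / Real.sinh θ) + θ * Real.cosh θ / Real.sinh θ = Real.log (a / α) := by
  have hθ : 0 < a * (z - y) / 2 := by
    have := mul_pos ha (sub_pos.mpr hyz)
    linarith
  refine ⟨a * (z - y) / 2, hθ, ?_⟩
  set θ : ℝ := a * (z - y) / 2 with hθd
  have hs : 0 < Real.sinh θ := Real.sinh_pos_iff.mpr hθ
  have hz : 0 < z := hy.trans hyz
  -- z = y exp (2θ)
  have hz2 : z = y * Real.exp (2 * θ) := by
    have e1 : z * α = y * α * Real.exp (2 * θ) := by
      rw [h1, h2, ← Real.exp_add]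
      congr 1
      rw [hθd]
      ring
    have : (z - y * Real.exp (2 * θ)) * α = 0 := by
      linear_combination e1
    rcases mul_eq_zero.mp this with h | h
    · linarith
    · exact absurd h hα.ne'
  have hexp : Real.exp (2 * θ) = Real.exp θ * Real.exp θ := by
    rw [← Real.exp_add]; congr 1; ring
  have hsinh : Real.sinh θ = (Real.exp θ - Real.exp (-θ)) / 2 := Real.sinh_eq θ
  have hinv : Real.exp θ * Real.exp (-θ) = 1 := by
    rw [← Real.exp_add]; simp
  have hay : a * y = θ * Real.exp (-θ) / Real.sinh θ := by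
    rw [eq_div_iff hs.ne', hsinh]
    have : 2 * θ = a * (y * Real.exp (2 * θ) - y) := by
      rw [← hz2, hθd]; ring
    rw [hexp] at this
    have e2 : a * y * ((Real.exp θ - Real.exp (-θ)) / 2) =
        Real.exp (-θ) * (a * (y * (Real.exp θ * Real.exp θ) - y)) / 2 := by
      linear_combination (-(a * y * Real.exp θ / 2)) * hinv
    rw [e2, ← this]
    ring
  refine ⟨hay, ?_⟩
  have haz : a * z = θ * Real.exp θ / Real.sinh θ := by
    rw [hz2, ← mul_assoc, hay, hexp]
    have : θ * Real.exp (-θ) / Real.sinh θ * (Real.exp θ * Real.exp θ) =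
        θ * (Real.exp θ * Real.exp (-θ)) * Real.exp θ / Real.sinh θ := by ring
    rw [this, hinv, mul_one]
  have hlog1 : Real.log (a / α) = Real.log (a * y) + a * z := by
    have e3 : a / α = a * y * Real.exp (a * z) := by
      rw [div_eq_iff hα.ne']
      have : a * y * Real.exp (a * z) * α = a * (y * α) * Real.exp (a * z) := by ring
      rw [this, h1, mul_assoc, ← Real.exp_add]
      simp
    rw [e3, Real.log_mul (by positivity) (Real.exp_pos _).ne', Real.log_exp]
  have hlog2 : Real.log (a * y) = Real.log (θ / Real.sinh θ) - θ := by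
    rw [hay]
    have : θ * Real.exp (-θ) / Real.sinh θ = θ / Real.sinh θ * Real.exp (-θ) := by ring
    rw [this, Real.log_mul (by positivity) (Real.exp_pos _).ne', Real.log_exp]
    ring
  rw [hlog1, hlog2, haz]
  have hcosh : Real.cosh θ = Real.exp θ - Real.sinh θ := by
    rw [Real.cosh_eq, hsinh]; ring
  rw [hcosh]
  field_simp
  ring

theorem fixed_FF (a m yM y : ℝ) (ha : 1 < a) (h : MFE a m) (hM : YM a m yM) (hy : 0 ≤ y)
    (hF : y = Fy a m (Fy a m y)) : y = 1 - m ∨ y = yM ∨ y = 1 + m := by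
  have ha0 : 0 < a := by linarith
  have hα := als_pos a m
  have hmul : ∀ x w : ℝ, x = Fy a m w → x * als a m = Real.exp (-(a * w)) := by
    intro x w hxw
    rw [hxw]
    unfold Fy
    rw [div_mul_cancel₀ _ hα.ne']
  have hm1 : m < 1 := mfe_lt a m h
  have hm0 : 0 < m := h.1
  have href := pair_A2 ha0 hα (show (0 : ℝ) < 1 - m by linarith) (show 1 - m < 1 + m by linarith)
    (hmul _ _ (Fy_add a m h).symm) (hmul _ _ (Fy_sub a m h).symm)
  obtain ⟨θ₀, hθ₀, hθ₀y, hθ₀K⟩ := href
  have key : ∀ x w : ℝ, 0 < x → x < w → x = Fy a m w → w = Fy a m x → x = 1 - m := by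
    intro x w hx hxw h1 h2
    obtain ⟨θ, hθ, hθy, hθK⟩ := pair_A2 ha0 hα hx hxw (hmul _ _ h1) (hmul _ _ h2)
    have : θ = θ₀ := K_mono.injOn (Set.mem_Ioi.mpr hθ) (Set.mem_Ioi.mpr hθ₀) (by
      show Real.log (θ / Real.sinh θ) + θ * Real.cosh θ / Real.sinh θ =
        Real.log (θ₀ / Real.sinh θ₀) + θ₀ * Real.cosh θ₀ / Real.sinh θ₀
      rw [hθK, hθ₀K])
    rw [this, ← hθ₀y] at hθy
    exact mul_left_cancel₀ ha0.ne' hθy
  set z : ℝ := Fy a m y with hz
  have hz0 : 0 < z := Fy_pos_A2 a m y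
  have hy0 : 0 < y := by rw [hF]; exact Fy_pos_A2 a m z
  rcases lt_trichotomy y z with hlt | heq | hgt
  · left
    exact key y z hy0 hlt hF hz
  · right; left
    exact ym_unique a m y yM ha ⟨hy, by rw [← hz]; exact heq⟩ hM
  · right; right
    have := key z y hz0 hgt hz hF
    rw [hF, this]
    exact Fy_sub a m h

end Pool.Agent.THR
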