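import Pool.Agent.Lib_MP_2c424f_thr.T0

/-!
# THR N1: powers of the averaging operator (paper proof: T5 and elementary facts)

`PP g x = (∑_σ g (x + sv σ)) / (2 d)`.  All statements by induction on `t` (`Function.iterate_succ`).
* `Kt_sup`: number `c(t)` of walks `(σ_1, …, σ_t)` with a given sum (mod `m = 2^k > t`): last step in a direction `i` where the sum
  is `≠ 0`: at most `t` such directions (each has to be used), `2t` choices, the rest is a walk of length `t-1`; otherwise the
  `i`-component of the sum is `0` mod `m`, and since `t < m` the step is cancelled by an earlier step: choose its place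
  (`t-1`), `2d` choices for the step, the rest is a walk of length `t-2` with the same sum.
  `c(t) ≤ 2t c(t-1) + (t-1) 2d c(t-2)`, so `c(t) ≤ (4t)^t (2d)^(t/2)` by induction; `Kt (2s) = c(2s)/(2d)^(2s)`.
* `cls_sum`: for even `t`, `PP^[t] g x` for `x` in the class `b` only depends on `g` on the class `b`.
-/

set_option autoImplicit false

open Finset Filter

namespace Pool.Agent.THR

open Pool.Agent.LO Pool.Agent.LIN

variable {d k : ℕ}

/-! ### the operator itself -/

private theorem N1_card (d : ℕ) : ((univ : Finset (Stp d)).card : ℝ) = 2 * d := by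
  rw [card_univ, Fintype.card_prod, Fintype.card_fin, Fintype.card_bool]
  push_cast
  ring

private theorem N1_sum_add (g : Site d k → ℝ) (a : Site d k) : ∑ x, g (x + a) = ∑ x, g x :=
  Fintype.sum_equiv (Equiv.addRight a) _ _ fun _ => rfl

private theorem N1_opp (σ : Stp d) : (sv (opp σ) : Site d k) = - sv σ := by
  obtain ⟨j, b⟩ := σ
  have h := sv_opp (k := k) j b
  unfold opp
  exact (neg_eq_of_add_eq_zero_right h).symm

private theorem N1_opp_opp (σ : Stp d) : opp (opp σ) = σ := by
  obtain ⟨j, b⟩ := σ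
  simp [opp]

private def N1_oppE (d : ℕ) : Stp d ≃ Stp d where
  toFun := opp
  invFun := opp
  left_inv := N1_opp_opp
  right_inv := N1_opp_opp

private theorem N1_sum_opp (F : Stp d → ℝ) : ∑ σ : Stp d, F (opp σ) = ∑ σ : Stp d, F σ :=
  (N1_oppE d).sum_comp F

private theorem N1_succ (t : ℕ) (g : Site d k → ℝ) (x : Site d k) :
    PP^[t + 1] g x = (∑ σ : Stp d, PP^[t] g (x + sv σ)) / (2 * d) := by
  rw [Function.iterate_succ_apply']
  rfl

private theorem N1_adj (g h : Site d k → ℝ) : ∑ x, PP g x * h x = ∑ x, g x * PP h x := by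
  have e1 : ∑ x, PP g x * h x = (∑ σ : Stp d, ∑ x, g (x + sv σ) * h x) / (2 * d) := by
    rw [sum_comm, sum_div]
    refine sum_congr rfl fun x _ => ?_
    unfold PP
    rw [div_mul_eq_mul_div, sum_mul]
  have e2 : ∑ x, g x * PP h x = (∑ σ : Stp d, ∑ x, g x * h (x + sv σ)) / (2 * d) := by
    rw [sum_comm, sum_div]
    refine sum_congr rfl fun x _ => ?_
    unfold PP
    rw [mul_div_assoc', mul_sum]
  rw [e1, e2, ← N1_sum_opp fun σ => ∑ x, g x * h (x + sv σ)]
  congr 1
  refine sum_congr rfl fun σ _ => ?_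
  rw [← N1_sum_add (fun x => g x * h (x + sv (opp σ))) (sv σ)]
  refine sum_congr rfl fun x _ => ?_
  rw [N1_opp, add_neg_cancel_right]

/-! ### powers -/

theorem PPt_sum (t : ℕ) {ι : Type*} (A : Finset ι) (g : ι → Site d k → ℝ) (x : Site d k) :
    PP^[t] (fun y => ∑ i ∈ A, g i y) x = ∑ i ∈ A, PP^[t] (g i) x := by
  induction t generalizing x with
  | zero => rfl
  | succ t ih =>
    rw [N1_succ]
    simp only [ih]
    rw [sum_comm, sum_div]
    refine sum_congr rfl fun i _ => ?_
    rw [N1_succ]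

theorem PPt_mul (t : ℕ) (c : ℝ) (g : Site d k → ℝ) (x : Site d k) : PP^[t] (fun y => c * g y) x = c * PP^[t] g x := by
  induction t generalizing x with
  | zero => rfl
  | succ t ih =>
    rw [N1_succ, N1_succ]
    simp only [ih]
    rw [← mul_sum, mul_div_assoc]

theorem Kt_repr (t : ℕ) (g : Site d k → ℝ) (u : Site d k) : PP^[t] g u = ∑ y, Kt t u y * g y := by
  have h : g = fun x => ∑ y : Site d k, g y * (if x = y then (1 : ℝ) else 0) := by
    funext x
    simp
  conv_lhs => rw [h]
  rw [PPt_sum]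
  refine sum_congr rfl fun y _ => ?_
  rw [PPt_mul, mul_comm]
  rfl

theorem PPt_mono (t : ℕ) {g h : Site d k → ℝ} (hgh : ∀ x, g x ≤ h x) (x : Site d k) : PP^[t] g x ≤ PP^[t] h x := by
  induction t generalizing x with
  | zero => exact hgh x
  | succ t ih =>
    rw [N1_succ, N1_succ]
    exact div_le_div_of_nonneg_right (sum_le_sum fun σ _ => ih _) (by positivity)

private theorem N1_zero (t : ℕ) (x : Site d k) : PP^[t] (fun _ : Site d k => (0 : ℝ)) x = 0 := by
  have h := PPt_mul (d := d) (k := k) t 0 (fun _ => 0) x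
  simpa using h

theorem Kt_nonneg (t : ℕ) (u y : Site d k) : 0 ≤ Kt t u y := by
  have h := PPt_mono t (g := fun _ => (0 : ℝ)) (h := fun x : Site d k => if x = y then (1 : ℝ) else 0)
    (fun x => by
      split_ifs
      · exact zero_le_one
      · exact le_refl 0) u
  rw [N1_zero] at h
  exact h

theorem PPt_const (hd : 1 ≤ d) (t : ℕ) (c : ℝ) (x : Site d k) : PP^[t] (fun _ => c) x = c := by
  have hd0 : (2 * (d : ℝ)) ≠ 0 := by positivity
  induction t generalizing x with
  | zero => rfl
  | succ t ih =>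
    rw [N1_succ]
    simp only [ih]
    rw [sum_const, nsmul_eq_mul, N1_card]
    field_simp

theorem Kt_one (hd : 1 ≤ d) (t : ℕ) (u : Site d k) : ∑ y, Kt t u y = 1 := by
  have h := Kt_repr t (fun _ : Site d k => (1 : ℝ)) u
  rw [PPt_const hd] at h
  rw [h]
  refine sum_congr rfl fun y _ => ?_
  rw [mul_one]

theorem PPt_adj (t : ℕ) (g h : Site d k → ℝ) : ∑ x, PP^[t] g x * h x = ∑ x, g x * PP^[t] h x := by
  induction t generalizing g h with
  | zero => rfl
  | succ t ih =>
    rw [Function.iterate_succ_apply, Function.iterate_succ_apply', ih (PP g) h, N1_adj]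

theorem Kt_symm (t : ℕ) (u y : Site d k) : Kt t u y = Kt t y u := by
  have h := PPt_adj t (fun x => if x = y then (1 : ℝ) else 0) (fun x => if x = u then (1 : ℝ) else 0)
  simp only [mul_ite, mul_one, mul_zero, ite_mul, one_mul, zero_mul, sum_ite_eq', mem_univ, if_true] at h
  exact h

theorem PPt_transl (t : ℕ) (g : Site d k → ℝ) (v x : Site d k) : PP^[t] (fun y => g (y + v)) x = PP^[t] g (x + v) := by
  induction t generalizing x with
  | zero => rfl
  | succ t ih =>
    rw [N1_succ, N1_succ]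
    congr 1
    refine sum_congr rfl fun σ _ => ?_
    rw [ih, add_right_comm]

theorem Kt_transl (t : ℕ) (u y v : Site d k) : Kt t (u + v) (y + v) = Kt t u y := by
  unfold Kt
  rw [← PPt_transl]
  have h : (fun x : Site d k => if x + v = y + v then (1 : ℝ) else 0) = fun x => if x = y then 1 else 0 := by
    funext x
    simp only [add_left_inj]
  rw [h]

/-- the bound for one more step -/
theorem Kt_succ_le (hd : 1 ≤ d) (t : ℕ) (κ : ℝ) (h : ∀ u y : Site d k, Kt t u y ≤ κ) (u y : Site d k) :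
    Kt (t + 1) u y ≤ κ := by
  have hd0 : 0 < (2 * (d : ℝ)) := by positivity
  unfold Kt
  rw [N1_succ, div_le_iff₀ hd0]
  have h1 : ∑ σ : Stp d, PP^[t] (fun x : Site d k => if x = y then (1 : ℝ) else 0) (u + sv σ) ≤
      ∑ _σ : Stp d, κ := sum_le_sum fun σ _ => h (u + sv σ) y
  rw [sum_const, nsmul_eq_mul, N1_card] at h1
  linarith [mul_comm κ (2 * (d : ℝ))]

theorem PPt_sub (t : ℕ) (g h : Site d k → ℝ) (x : Site d k) :
    PP^[t] (fun y => g y - h y) x = PP^[t] g x - PP^[t] h x := by
  induction t generalizing x with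
  | zero => rfl
  | succ t ih =>
    rw [N1_succ, N1_succ, N1_succ]
    simp only [ih]
    rw [sum_sub_distrib, sub_div]

theorem PPt_abs (t : ℕ) (g : Site d k → ℝ) (x : Site d k) : |PP^[t] g x| ≤ PP^[t] (fun y => |g y|) x := by
  rw [abs_le]
  constructor
  · have h := PPt_mono t (g := fun y => (-1) * |g y|) (h := g) (fun y => by
      have := neg_abs_le (g y)
      linarith) x
    rw [PPt_mul] at h
    linarith
  · exact PPt_mono t (fun y => le_abs_self (g y)) x

theorem PPt_sq (hd : 1 ≤ d) (t : ℕ) (g : Site d k → ℝ) (x : Site d k) :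
    PP^[t] g x ^ 2 ≤ PP^[t] (fun y => g y ^ 2) x := by
  have h1 := PPt_mono t (g := fun _ => (0 : ℝ)) (h := fun y => (g y - PP^[t] g x) ^ 2) (fun y => sq_nonneg _) x
  rw [N1_zero] at h1
  have h2 : (fun y => (g y - PP^[t] g x) ^ 2) =
      fun y => (g y ^ 2 - (2 * PP^[t] g x) * g y) - (-(PP^[t] g x ^ 2)) := by
    funext y
    ring
  rw [h2, PPt_sub t (fun y => g y ^ 2 - (2 * PP^[t] g x) * g y) (fun _ => -(PP^[t] g x ^ 2)),
    PPt_sub t (fun y => g y ^ 2) (fun y => (2 * PP^[t] g x) * g y), PPt_mul, PPt_const hd] at h1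
  nlinarith

theorem PPt_total (hd : 1 ≤ d) (t : ℕ) (g : Site d k → ℝ) : ∑ x, PP^[t] g x = ∑ x, g x := by
  have h := PPt_adj t g (fun _ => 1)
  simp only [mul_one, PPt_const hd] at h
  exact h

/-- contraction -/
theorem PPt_l2 (hd : 1 ≤ d) (t : ℕ) (g : Site d k → ℝ) : ∑ x, PP^[t] g x ^ 2 ≤ ∑ x, g x ^ 2 := by
  rw [← PPt_total hd t fun y => g y ^ 2]
  exact sum_le_sum fun x _ => PPt_sq hd t g x

private theorem N1_cls (hk : 1 ≤ k) (t : ℕ) (b : Bool) (u y : Site d k) (hu : u ∈ cls b d k)
    (hy : (Even t ∧ y ∈ cls (!b) d k) ∨ (¬ Even t ∧ y ∈ cls b d k)) : Kt t u y = 0 := by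
  induction t generalizing b u with
  | zero =>
    unfold Kt
    rw [Function.iterate_zero, id, if_neg]
    rintro rfl
    rcases hy with ⟨_, hy⟩ | ⟨h0, _⟩
    · exact (cls_not b u).1 hy hu
    · exact h0 Even.zero
  | succ t ih =>
    unfold Kt at ih ⊢
    rw [N1_succ]
    have h0 : ∀ σ : Stp d, PP^[t] (fun x : Site d k => if x = y then (1 : ℝ) else 0) (u + sv σ) = 0 := by
      intro σ
      refine ih (!b) (u + sv σ) ?_ ?_
      · rw [mem_cls_step hk, Bool.not_not]
        exact hu
      · rw [Nat.even_add_one, not_not] at hy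
        rw [Bool.not_not]
        exact hy.symm
    simp only [h0, sum_const_zero, zero_div]

/-- support of the kernel -/
theorem Kt_cls (hk : 1 ≤ k) (t : ℕ) (ht : Even t) (b : Bool) (u y : Site d k) (hu : u ∈ cls b d k)
    (hy : y ∈ cls (!b) d k) : Kt t u y = 0 :=
  N1_cls hk t b u y hu (Or.inl ⟨ht, hy⟩)

theorem Kt_cls' (hk : 1 ≤ k) (t : ℕ) (ht : ¬ Even t) (b : Bool) (u y : Site d k) (hu : u ∈ cls b d k)
    (hy : y ∈ cls b d k) : Kt t u y = 0 :=
  N1_cls hk t b u y hu (Or.inr ⟨ht, hy⟩)

end Pool.Agent.THR
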