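import Pool.Agent.Lib_MP_2c424f_thr.R8

/-!
# THR R9: isotropy for fixed weights (paper proof: R7, R9)

* `iso_even`: weights supported on even plane positions, `σ, σ' ∈ pl i j`: `TF_rule` for `σ` and `σ'`, difference
  `∑ w VF (1/q)(sg(u+σ) - sg(u+σ'))`, times `q` (use `K+1` and `q ≤ 2d ≤ d²`... any loss `q·N/d^(K+2) ≤ N/(4 d^K)`), and
  `unweight` for `σ` and `σ'`.
* `iso`: for `σ = σ'` trivial.  Otherwise choose `i ≠ j` with `σ, σ' ∈ pl i j` (`d ≥ 2`).  `w = w' + w''` (even and odd plane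
  positions); for `w''` translate by `e = sv (i,true)`: `∑_{u ∈ b} w''_u sg f (u+σ) = ∑_{u' ∈ !b} w''(u'+e) sg (f(·+e)) (u'+σ)`, and
  `w''(·+e)` is supported on even plane positions (`WOPi.transl`, `WOPi.comap`, `WOPi.and`).  The weights add up to `Wt b w`.
-/

set_option autoImplicit false

open Finset Filter

namespace Pool.Agent.THR

open Pool.Agent.LO Pool.Agent.LIN

/-- parameters: class, colours, steps, weight function -/
abbrev Iw (d k q : ℕ) : Type := Bool × (Fin q × Fin q) × (Stp d × Stp d) × (Site d k → ℝ)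

private theorem R9_NN_nonneg (d k : ℕ) : 0 ≤ NN d k := by
  unfold NN; positivity

private theorem R9_loss {d q : ℕ} {N : ℝ} (hN : 0 ≤ N) (K : ℕ) (hd : (6 : ℝ) ≤ d) (hq : (q : ℝ) ≤ 2 * d) :
    (2 * (q : ℝ) + 2) * (N / (d : ℝ) ^ (K + 2)) ≤ N / (d : ℝ) ^ K := by
  have hd0 : (0 : ℝ) < d := by linarith
  have hp : (0 : ℝ) < (d : ℝ) ^ K := pow_pos hd0 _
  have e1 : N / (d : ℝ) ^ (K + 2) = N / (d : ℝ) ^ K * (1 / (d : ℝ) ^ 2) := by
    rw [pow_add]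
    field_simp
  rw [e1]
  have h1 : (2 * (q : ℝ) + 2) * (1 / (d : ℝ) ^ 2) ≤ 1 := by
    rw [mul_one_div, div_le_one (by positivity)]
    nlinarith
  have h2 : 0 ≤ N / (d : ℝ) ^ K := div_nonneg hN hp.le
  calc (2 * (q : ℝ) + 2) * (N / (d : ℝ) ^ K * (1 / (d : ℝ) ^ 2))
      = (2 * (q : ℝ) + 2) * (1 / (d : ℝ) ^ 2) * (N / (d : ℝ) ^ K) := by ring
    _ ≤ 1 * (N / (d : ℝ) ^ K) := mul_le_mul_of_nonneg_right h1 h2
    _ = N / (d : ℝ) ^ K := one_mul _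

private theorem R9_split {ε : ℝ} {d k q : ℕ} (hq : 0 < q) (i j : Fin d) (c c' : Fin q) (b : Bool)
    (w : Site d k → ℝ) (σ σ' : Stp d) (f : Site d k → Fin q) :
    ∑ u ∈ cls b d k, w u * (sg c c' f (u + sv σ) - sg c c' f (u + sv σ')) =
      (q : ℝ) * (∑ u ∈ cls b d k, w u * TF ε i j c c' σ f u - ∑ u ∈ cls b d k, w u * TF ε i j c c' σ' f u) -
        (∑ u ∈ cls b d k, w u * ((VF ε i j c c' f u - 1) * sg c c' f (u + sv σ))) +
        ∑ u ∈ cls b d k, w u * ((VF ε i j c c' f u - 1) * sg c c' f (u + sv σ')) := by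
  have hq0 : (q : ℝ) ≠ 0 := by exact_mod_cast hq.ne'
  rw [← sum_sub_distrib, mul_sum, ← sum_sub_distrib, ← sum_add_distrib]
  refine sum_congr rfl fun u _ => ?_
  unfold TF
  field_simp
  ring

theorem iso_even {ε : ℝ} (hε : 0 < ε) (hε1 : ε ≤ 1) : ∃ C₄ : ℝ, 0 < C₄ ∧ ∀ K : ℕ,
    WOPi ε (fun d k q => Ixs d k q × Stp d) fun d k q p f => okx p.1.1 → p.1.2 ∈ pl p.1.1.2.1.1 p.1.1.2.1.2 →
      p.2 ∈ pl p.1.1.2.1.1 p.1.1.2.1.2 → (∀ x, ¬ pev p.1.1.2.1.1 p.1.1.2.1.2 x → p.1.1.2.2.2 x = 0) →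
      |∑ u ∈ cls p.1.1.1 d k, p.1.1.2.2.2 u *
          (sg p.1.1.2.2.1.1 p.1.1.2.2.1.2 f (u + sv p.1.2) - sg p.1.1.2.2.1.1 p.1.1.2.2.1.2 f (u + sv p.2))| ≤
        C₄ / (q : ℝ) ^ 2 * Wt p.1.1.1 p.1.1.2.2.2 + NN d k / (d : ℝ) ^ K := by
  obtain ⟨C₃, hC3, hun⟩ := unweight hε hε1
  have hC2 : 0 < C2 ε := by
    unfold C2 CW c1
    positivity
  refine ⟨2 * C2 ε + 2 * C₃, by positivity, fun K => ?_⟩
  have t1 := (TF_rule hε hε1 (K + 2)).comap (ι' := fun d k q => Ixs d k q × Stp d) (fun d k q p => (p.1.1, p.1.2))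
  have t2 := (TF_rule hε hε1 (K + 2)).comap (ι' := fun d k q => Ixs d k q × Stp d) (fun d k q p => (p.1.1, p.2))
  have t3 := (hun (K + 2)).comap (ι' := fun d k q => Ixs d k q × Stp d) (fun d k q p => (p.1.1, p.1.2))
  have t4 := (hun (K + 2)).comap (ι' := fun d k q => Ixs d k q × Stp d) (fun d k q p => (p.1.1, p.2))
  refine (((t1.and t2).and (t3.and t4))).mono ((EvT_reg hε hε1 6).mono ?_)
  rintro d k q ⟨hd, hq6, -, -, hq2, -, -, -⟩ p f - ⟨⟨h1, h2⟩, h3, h4⟩ hok hs1 hs2 hw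
  have hq0 : (0 : ℝ) < q := by linarith
  have hqn : 0 < q := by exact_mod_cast hq0
  have g1 := h1 hok hs1 hw
  have g2 := h2 hok hs2 hw
  have g3 := h3 hok hs1
  have g4 := h4 hok hs2
  have hd0 : (0 : ℝ) ≤ d := by linarith
  have hq2' : (q : ℝ) ≤ 2 * d := by nlinarith
  have hloss := R9_loss (q := q) (R9_NN_nonneg d k) K hd hq2'
  rw [R9_split (ε := ε) hqn p.1.1.2.1.1 p.1.1.2.1.2]
  set W := Wt p.1.1.1 p.1.1.2.2.2 with hW
  set E := NN d k / (d : ℝ) ^ (K + 2) with hE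
  set a := ∑ u ∈ cls p.1.1.1 d k, p.1.1.2.2.2 u * TF ε p.1.1.2.1.1 p.1.1.2.1.2 p.1.1.2.2.1.1 p.1.1.2.2.1.2 p.1.2 f u
    with ha
  set a' := ∑ u ∈ cls p.1.1.1 d k, p.1.1.2.2.2 u * TF ε p.1.1.2.1.1 p.1.1.2.1.2 p.1.1.2.2.1.1 p.1.1.2.2.1.2 p.2 f u
    with ha'
  set m := ∑ u ∈ cls p.1.1.1 d k, p.1.1.2.2.2 u * ((VF ε p.1.1.2.1.1 p.1.1.2.1.2 p.1.1.2.2.1.1 p.1.1.2.2.1.2 f u - 1) *
    sg p.1.1.2.2.1.1 p.1.1.2.2.1.2 f (u + sv p.1.2)) with hm
  set m' := ∑ u ∈ cls p.1.1.1 d k, p.1.1.2.2.2 u * ((VF ε p.1.1.2.1.1 p.1.1.2.1.2 p.1.1.2.2.1.1 p.1.1.2.2.1.2 f u - 1) *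
    sg p.1.1.2.2.1.1 p.1.1.2.2.1.2 f (u + sv p.2)) with hm'
  have hb1 : |a| ≤ C2 ε / (q : ℝ) ^ 3 * W + E := g1
  have hb2 : |a'| ≤ C2 ε / (q : ℝ) ^ 3 * W + E := g2
  have hb3 : |m| ≤ C₃ / (q : ℝ) ^ 2 * W + E := g3
  have hb4 : |m'| ≤ C₃ / (q : ℝ) ^ 2 * W + E := g4
  have hb5 : |(q : ℝ) * (a - a') - m + m'| ≤ (q : ℝ) * (|a| + |a'|) + |m| + |m'| := by
    have e1 : |(q : ℝ) * (a - a') - m + m'| ≤ |(q : ℝ) * (a - a') - m| + |m'| := abs_add_le _ _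
    have e2 : |(q : ℝ) * (a - a') - m| ≤ |(q : ℝ) * (a - a')| + |m| := abs_sub _ _
    have e3 : |(q : ℝ) * (a - a')| ≤ (q : ℝ) * (|a| + |a'|) := by
      rw [abs_mul, abs_of_pos hq0]
      exact mul_le_mul_of_nonneg_left (abs_sub _ _) hq0.le
    linarith
  have hb6 : (q : ℝ) * (|a| + |a'|) ≤ 2 * C2 ε / (q : ℝ) ^ 2 * W + 2 * q * E := by
    calc (q : ℝ) * (|a| + |a'|) ≤ q * (2 * (C2 ε / (q : ℝ) ^ 3 * W + E)) :=
          mul_le_mul_of_nonneg_left (by linarith) hq0.le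
      _ = _ := by
          field_simp
  have e4 : (2 * C2 ε + 2 * C₃) / (q : ℝ) ^ 2 * W = 2 * C2 ε / (q : ℝ) ^ 2 * W + 2 * (C₃ / (q : ℝ) ^ 2 * W) := by
    ring
  rw [e4]
  have e5 : (2 * (q : ℝ) + 2) * E = 2 * q * E + 2 * E := by ring
  rw [e5] at hloss
  linarith

private theorem R9_val_even {k : ℕ} (hk : 1 ≤ k) (n : ℕ) (a : ZMod (2 ^ k)) :
    Even (a.val + n) ↔ ZMod.castHom (dvd_pow_self 2 (by omega : k ≠ 0)) (ZMod 2) a + (n : ZMod 2) = 0 := by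
  rw [← ZMod.natCast_eq_zero_iff_even]
  have h := map_natCast (ZMod.castHom (dvd_pow_self 2 (by omega : k ≠ 0)) (ZMod 2)) a.val
  rw [ZMod.natCast_zmod_val] at h
  rw [h]
  push_cast
  rfl

private theorem R9_pev {d k : ℕ} (hk : 1 ≤ k) {i j : Fin d} (hij : i ≠ j) (x : Site d k) (hx : ¬ pev i j x) :
    pev i j (x + sv (i, true)) := by
  unfold pev at hx ⊢
  have hi : (x + sv (i, true) : Site d k) i = x i + 1 := by
    simp [sv]
  have hj : (x + sv (i, true) : Site d k) j = x j := by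
    simp only [sv, Pi.add_apply]
    rw [Pi.single_eq_of_ne hij.symm, add_zero]
  rw [hi, hj, R9_val_even hk, map_add, map_one]
  rw [R9_val_even hk] at hx
  generalize ZMod.castHom (dvd_pow_self 2 (by omega : k ≠ 0)) (ZMod 2) (x i) = a at hx ⊢
  generalize ((x j).val : ZMod 2) = b at hx ⊢
  revert a b
  decide

open scoped Classical in
private noncomputable def R9_oth {d : ℕ} (i : Fin d) : Fin d := if h : ∃ j, j ≠ i then h.choose else i

private theorem R9_oth_ne {d : ℕ} (hd : 2 ≤ d) (i : Fin d) : R9_oth i ≠ i := by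
  have h : ∃ j, j ≠ i := by
    by_cases h0 : i = ⟨0, by omega⟩
    · refine ⟨⟨1, by omega⟩, ?_⟩
      rw [h0]
      intro h1
      have := congrArg Fin.val h1
      simp at this
    · exact ⟨⟨0, by omega⟩, fun h1 => h0 h1.symm⟩
  unfold R9_oth
  rw [dif_pos h]
  exact h.choose_spec

/-- second direction -/
private noncomputable def R9_jj {d : ℕ} (σ σ' : Stp d) : Fin d := if σ'.1 = σ.1 then R9_oth σ.1 else σ'.1

private theorem R9_jj_ne {d : ℕ} (hd : 2 ≤ d) (σ σ' : Stp d) : σ.1 ≠ R9_jj σ σ' := by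
  unfold R9_jj
  split_ifs with h
  · exact (R9_oth_ne hd σ.1).symm
  · exact fun h1 => h h1.symm

private theorem R9_mem1 {d : ℕ} (σ σ' : Stp d) : σ ∈ pl σ.1 (R9_jj σ σ') := by
  unfold pl
  rw [mem_filter]
  exact ⟨mem_univ _, Or.inl rfl⟩

private theorem R9_mem2 {d : ℕ} (σ σ' : Stp d) : σ' ∈ pl σ.1 (R9_jj σ σ') := by
  unfold pl
  rw [mem_filter]
  refine ⟨mem_univ _, ?_⟩
  unfold R9_jj
  split_ifs with h
  · exact Or.inl h
  · exact Or.inr rfl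

open scoped Classical in
/-- weights on even plane positions -/
private noncomputable def R9_w1 {d k : ℕ} (i j : Fin d) (w : Site d k → ℝ) (x : Site d k) : ℝ :=
  if pev i j x then w x else 0

open scoped Classical in
/-- weights on odd plane positions, translated -/
private noncomputable def R9_w2 {d k : ℕ} (i j : Fin d) (w : Site d k → ℝ) (x : Site d k) : ℝ :=
  if pev i j (x + sv (i, true)) then 0 else w (x + sv (i, true))

private theorem R9_sum_shift {d k : ℕ} (hk : 1 ≤ k) (b : Bool) (i : Fin d) (F : Site d k → ℝ) :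
    ∑ u ∈ cls (!b) d k, F (u + sv (i, true)) = ∑ u ∈ cls b d k, F u := by
  classical
  refine Finset.sum_bij' (fun v _ => v + sv (i, true)) (fun v _ => v + sv (i, false)) ?_ ?_ ?_ ?_ ?_
  · intro v hv
    rw [mem_cls_step hk]
    exact hv
  · intro v hv
    rw [mem_cls_step hk, Bool.not_not]
    exact hv
  · intro v _
    have h := sv_opp (k := k) i true
    simp only [Bool.not_true] at h
    rw [add_assoc, h, add_zero]
  · intro v _
    have h := sv_opp (k := k) i false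
    simp only [Bool.not_false] at h
    rw [add_assoc, h, add_zero]
  · intro v _
    rfl

/-- isotropy of the colour densities, fixed weights -/
theorem iso {ε : ℝ} (hε : 0 < ε) (hε1 : ε ≤ 1) : ∃ C₄ : ℝ, 0 < C₄ ∧ ∀ K : ℕ,
    WOPi ε Iw fun d k q p f => p.2.1.1 ≠ p.2.1.2 → (∀ x, |p.2.2.2 x| ≤ 1) →
      ∑ u ∈ cls p.1 d k, p.2.2.2 u *
          (sg p.2.1.1 p.2.1.2 f (u + sv p.2.2.1.1) - sg p.2.1.1 p.2.1.2 f (u + sv p.2.2.1.2)) ≤
        C₄ / (q : ℝ) ^ 2 * Wt p.1 p.2.2.2 + NN d k / (d : ℝ) ^ K := by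
  classical
  obtain ⟨C₄, hC4, hev⟩ := iso_even hε hε1
  refine ⟨C₄, hC4, fun K => ?_⟩
  have t1 := (hev (K + 1)).comap (ι' := Iw) (fun d k q p =>
    (((p.1, (p.2.2.1.1.1, R9_jj p.2.2.1.1 p.2.2.1.2), p.2.1,
      R9_w1 p.2.2.1.1.1 (R9_jj p.2.2.1.1 p.2.2.1.2) p.2.2.2), p.2.2.1.1), p.2.2.1.2))
  have t2 := ((hev (K + 1)).comap (ι' := Iw) (fun d k q p =>
    ((((!p.1), (p.2.2.1.1.1, R9_jj p.2.2.1.1 p.2.2.1.2), p.2.1,
      R9_w2 p.2.2.1.1.1 (R9_jj p.2.2.1.1 p.2.2.1.2) p.2.2.2), p.2.2.1.1), p.2.2.1.2))).transl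
      (fun d k q p => sv (p.2.2.1.1.1, true))
  refine (t1.and t2).mono ((EvT_reg hε hε1 2).mono ?_)
  rintro d k q ⟨hd, -, hk2, -, -, -, -, -⟩ ⟨b, ⟨c, c'⟩, ⟨σ, σ'⟩, w⟩ f - ⟨h1, h2⟩ hcc hw
  simp only at h1 h2 hcc hw ⊢
  have hd2 : 2 ≤ d := by exact_mod_cast hd
  have hk1 : 1 ≤ k := by
    have : (1 : ℝ) ≤ k := by linarith
    exact_mod_cast this
  set i := σ.1 with hi
  set j := R9_jj σ σ' with hj
  have hij : i ≠ j := R9_jj_ne hd2 σ σ'
  have hw1 : ∀ x, |R9_w1 i j w x| ≤ 1 := by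
    intro x
    unfold R9_w1
    split_ifs
    · exact hw x
    · simp
  have hw2 : ∀ x, |R9_w2 i j w x| ≤ 1 := by
    intro x
    unfold R9_w2
    split_ifs
    · simp
    · exact hw _
  have g1 := h1 ⟨hij, hcc, hw1⟩ (R9_mem1 σ σ') (R9_mem2 σ σ') (fun x hx => by
    unfold R9_w1
    exact if_neg hx)
  have g2 := h2 ⟨hij, hcc, hw2⟩ (R9_mem1 σ σ') (R9_mem2 σ σ') (fun x hx => by
    unfold R9_w2
    exact if_pos (R9_pev hk1 hij x hx))
  -- the two sums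
  have e1 : ∑ u ∈ cls b d k, w u * (sg c c' f (u + sv σ) - sg c c' f (u + sv σ')) =
      ∑ u ∈ cls b d k, R9_w1 i j w u * (sg c c' f (u + sv σ) - sg c c' f (u + sv σ')) +
      ∑ u ∈ cls (!b) d k, R9_w2 i j w u * (sg c c' (fun x => f (x + sv (i, true))) (u + sv σ) -
        sg c c' (fun x => f (x + sv (i, true))) (u + sv σ')) := by
    have e2 : ∑ u ∈ cls (!b) d k, R9_w2 i j w u * (sg c c' (fun x => f (x + sv (i, true))) (u + sv σ) -
        sg c c' (fun x => f (x + sv (i, true))) (u + sv σ')) =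
        ∑ u ∈ cls b d k, (if pev i j u then 0 else w u) * (sg c c' f (u + sv σ) - sg c c' f (u + sv σ')) := by
      rw [← R9_sum_shift hk1 b i (fun u => (if pev i j u then 0 else w u) *
        (sg c c' f (u + sv σ) - sg c c' f (u + sv σ')))]
      refine sum_congr rfl fun u _ => ?_
      unfold R9_w2 sg
      have e3 : ∀ τ : Stp d, u + sv τ + sv (i, true) = u + sv (i, true) + sv τ := fun τ => by abel
      simp only [e3]
    rw [e2, ← sum_add_distrib]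
    refine sum_congr rfl fun u _ => ?_
    unfold R9_w1
    split_ifs <;> ring
  have e4 : Wt b w = Wt b (R9_w1 i j w) + Wt (!b) (R9_w2 i j w) := by
    unfold Wt
    have e5 : ∑ u ∈ cls (!b) d k, |R9_w2 i j w u| = ∑ u ∈ cls b d k, |if pev i j u then 0 else w u| := by
      rw [← R9_sum_shift hk1 b i (fun u => |if pev i j u then 0 else w u|)]
      rfl
    rw [e5, ← sum_add_distrib]
    refine sum_congr rfl fun u _ => ?_
    unfold R9_w1
    split_ifs <;> simp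
  have hd0 : (0 : ℝ) < d := by linarith
  have e6 : NN d k / (d : ℝ) ^ (K + 1) ≤ NN d k / (d : ℝ) ^ K / 2 := by
    rw [pow_succ, ← div_div]
    exact div_le_div_of_nonneg_left (div_nonneg (R9_NN_nonneg d k) (by positivity)) (by norm_num) hd
  have g1' := (le_abs_self _).trans g1
  have g2' := (le_abs_self _).trans g2
  rw [e1, e4, mul_add]
  linarith

end Pool.Agent.THR
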