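import Pool.Agent.Lib_MP_2c424f_thr.Defs

/-!
# MP_2c424f_pr, the sharp threshold on tori: definitions for the block argument

Blocks `t : Blk d k` of the torus of side `2^(k+1)`, points `pt t a b` of `Lib_MP_2c424f_lo`.
-/

set_option autoImplicit false

open Finset Filter

namespace Pool.Agent.THR

open Pool.Agent.LO Pool.Agent.LIN

/-! ## Blocks -/

/-- shapes: the block and its faces -/
abbrev Shp (d : ℕ) := Option (Fin d × Bool)

/-- the pair of bit vectors belongs to the shape -/
def inS {d : ℕ} (s : Shp d) (a b : Bt d) : Prop :=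
  match s with
  | none => True
  | some (j, β) => a j = β ∧ b j = β

open scoped Classical in
/-- odd pairs of bit vectors in the shape -/
noncomputable def oS {d : ℕ} (s : Shp d) : Finset (Bt d × Bt d) := univ.filter fun p => od p.1 p.2 ∧ inS s p.1 p.2

/-- mean over the odd points of the shape -/
noncomputable def Ms {d k : ℕ} (s : Shp d) (t : Blk d k) (φ : Site d (k + 1) → ℝ) : ℝ :=
  (∑ p ∈ oS s, φ (pt t p.1 p.2)) / ((oS s).card : ℝ)

/-- label `1`: high density of the colour `c` -/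
def hiL {d k q : ℕ} (θ : ℝ) (c : Fin q) (f : Site d (k + 1) → Fin q) (t : Blk d k) : Prop :=
  ∀ s, θ ≤ Ms s t (bq c f)

/-- label `0`: low density of the colour `c` -/
def loL {d k q : ℕ} (θ : ℝ) (c : Fin q) (f : Site d (k + 1) → Fin q) (t : Blk d k) : Prop :=
  ∀ s, Ms s t (bq c f) ≤ θ

/-- bad block -/
def bdT {d k q : ℕ} (θ θ' : ℝ) (c : Fin q) (t : Blk d k) (f : Site d (k + 1) → Fin q) : Prop :=
  ¬ hiL θ c f t ∧ ¬ loL θ' c f t

/-- the block is close to one of the three values -/
def tauG {d k q : ℕ} (η m yM : ℝ) (c : Fin q) (f : Site d (k + 1) → Fin q) (t : Blk d k) (τ : ℝ) : Prop :=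
  (τ = 1 - m ∨ τ = yM ∨ τ = 1 + m) ∧ (∀ s, |Ms s t (bq c f) - τ| ≤ η) ∧
    Ms none t (fun v => if η < |ya c f v - τ| then (1 : ℝ) else 0) ≤ η

end Pool.Agent.THR
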