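import Pool.Agent.Lib_MP_2c424f_thr.T1
import Pool.Agent.Lib_MP_2c424f_thr.DefsB

/-!
# THR B0: rare events on the torus of side `2^(k+1)`

`WOPb` is `WOP` with `k + 1` instead of `k`.
* `WOP.blk`, `WOP.blk'`: `EvT.shift`.
* `WOPb.and`, `WOPb.mono`: as in T0 (`Rar.mono`, `Rar_union` or directly).
* `WOPb_tail`: `T1.tail` on the torus of side `2^(k+1)`, for the function `2^d Ψ`: thresholds `N'/d^K`, `N' = NN d (k+1) = 2^d NN d k`; index type finite and
  of size `≤ F d q` (`Rar_union`).  I.e. apply `tail` with `c = d^κ`, `δ = 1/d^K` to `2^d Ψ`.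
-/

set_option autoImplicit false

open Finset Filter

namespace Pool.Agent.THR

open Pool.Agent.LO Pool.Agent.LIN

/-- with overwhelming probability, torus of side `2^(k+1)` -/
def WOPb (ε : ℝ) (P : ∀ d k q : ℕ, (Site d (k + 1) → Fin q) → Prop) : Prop :=
  ∃ C : ℕ, EvT ε fun d k q => Rar C d (k + 1) q fun f => ¬ P d k q f

theorem WOP.blk {ε : ℝ} {P : ∀ d k q : ℕ, (Site d k → Fin q) → Prop} (h : WOP ε P) :
    WOPb ε fun d k q f => P d (k + 1) q f := by
  obtain ⟨C, hC⟩ := h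
  exact ⟨C, hC.shift⟩

theorem WOPb.mono {ε : ℝ} {P Q : ∀ d k q : ℕ, (Site d (k + 1) → Fin q) → Prop} (h : WOPb ε P)
    (hPQ : EvT ε fun d k q => ∀ f ∈ prps d (k + 1) q, P d k q f → Q d k q f) : WOPb ε Q := by
  obtain ⟨C, hC⟩ := h
  refine ⟨C, (hC.and hPQ).mono ?_⟩
  rintro d k q ⟨h1, h2⟩
  exact h1.mono fun f hf hq hp => hq (h2 f hf hp)

private theorem B0_union2 {C d k q : ℕ} {P Q : (Site d k → Fin q) → Prop} (hd : 2 ≤ d)
    (h : Rar C d k q P) (h' : Rar C d k q Q)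
    (hN : (d : ℝ) ^ (C + 1) * Real.log 2 ≤ NN d k) :
    Rar (C + 1) d k q fun f => P f ∨ Q f := by
  have h1 : Rar (C + 1) d k q fun f => ∃ i : Bool, (fun b : Bool => if b then P else Q) i f := by
    refine Rar_union hd ?_ ?_
    · intro i
      cases i
      · simpa using h'
      · simpa using h
    · rw [Fintype.card_bool]
      exact_mod_cast hN
  refine h1.mono ?_
  intro f _ hf
  rcases hf with hf | hf
  · exact ⟨true, by simpa using hf⟩
  · exact ⟨false, by simpa using hf⟩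

theorem WOPb.and {ε : ℝ} {P Q : ∀ d k q : ℕ, (Site d (k + 1) → Fin q) → Prop} (h : WOPb ε P) (h' : WOPb ε Q) :
    WOPb ε fun d k q f => P d k q f ∧ Q d k q f := by
  obtain ⟨C, hC⟩ := h
  obtain ⟨C', hC'⟩ := h'
  refine ⟨max C C' + 1, (((hC.and hC').and (EvT_d (eventually_ge_atTop 2))).and
    (EvT_NN (ε := ε) fun d _ => (d : ℝ) ^ (max C C' + 1) * Real.log 2).shift).mono ?_⟩
  rintro d k q ⟨⟨⟨h1, h2⟩, h3⟩, h4⟩
  have h3' : 1 ≤ d := le_trans (by norm_num) h3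
  refine (B0_union2 h3 (h1.mono_C h3' (le_max_left C C'))
    (h2.mono_C h3' (le_max_right C C')) h4).mono ?_
  intro f _ hf
  exact not_and_or.mp hf

theorem NN_succ (d k : ℕ) : NN d (k + 1) = 2 ^ d * NN d k := by
  unfold NN
  rw [pow_succ, mul_pow, mul_comm]

theorem card_Blk (d k : ℕ) : (Fintype.card (Blk d k) : ℝ) = NN d k := by
  unfold NN
  rw [Fintype.card_fun, ZMod.card, Fintype.card_fin]
  push_cast
  rfl

/-- concentration of block statistics -/
theorem WOPb_tail {ε : ℝ} (hε : 0 < ε) (hε1 : ε ≤ 1) (ι : ℕ → ℕ → ℕ → Type) [∀ d k q, Fintype (ι d k q)] (F : ℕ → ℕ → ℝ)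
    (hF : ∀ d k q, (Fintype.card (ι d k q) : ℝ) ≤ F d q) (b : ∀ d k q, ι d k q → Bool)
    (Ψ : ∀ d k q, ι d k q → (Site d (k + 1) → Fin q) → ℝ) (κ K : ℕ)
    (hL : EvT ε fun d k q => ∀ i, Lip (b d k q i) ((d : ℝ) ^ κ / 2 ^ d) (Ψ d k q i)) :
    WOPb ε fun d k q f => ∀ i, Ψ d k q i f ≤ fm (b d k q i) (Ψ d k q i) f + NN d k / (d : ℝ) ^ K := by
  classical
  refine ⟨2 * K + 2 * κ + 1 + 1, (((hL.and (EvT_reg hε hε1 2)).and (EvT_d (eventually_ge_atTop 2))).and
    (EvT_NN (ε := ε) fun d q => (d : ℝ) ^ (2 * K + 2 * κ + 1 + 1) *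
      Real.log (max 1 (F d q))).shift).mono ?_⟩
  rintro d k q ⟨⟨⟨hl, hreg⟩, hd⟩, hN⟩
  have hk : 2 ≤ k + 1 := by
    have h1 : (2 : ℝ) ≤ k := hreg.2.2.1
    have h2 : 2 ≤ k := by exact_mod_cast h1
    omega
  have hd1 : 1 ≤ d := by omega
  have hdR : (2 : ℝ) ≤ d := by exact_mod_cast hd
  have hd0 : (0 : ℝ) < d := by linarith
  have hpK : (0 : ℝ) < (d : ℝ) ^ K := pow_pos hd0 _
  have hpκ : (0 : ℝ) < (d : ℝ) ^ κ := pow_pos hd0 _
  have h2d : (0 : ℝ) < 2 ^ d := by positivity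
  have hone : ∀ i, Rar (2 * K + 2 * κ + 1) d (k + 1) q fun f =>
      ¬ (Ψ d k q i f ≤ fm (b d k q i) (Ψ d k q i) f + NN d k / (d : ℝ) ^ K) := by
    intro i
    have hδ : (1 : ℝ) / (2 ^ d * (d : ℝ) ^ K) ≤ (d : ℝ) ^ κ / 2 ^ d := by
      rw [div_le_div_iff₀ (by positivity) h2d]
      have h1 : (1 : ℝ) ≤ (d : ℝ) ^ κ := one_le_pow₀ (by linarith)
      have h2 : (1 : ℝ) ≤ (d : ℝ) ^ K := one_le_pow₀ (by linarith)
      nlinarith [mul_le_mul h1 h2 zero_le_one hpκ.le]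
    have ht := tail (q := q) hd1 hk (b d k q i) (Ψ d k q i) ((d : ℝ) ^ κ / 2 ^ d)
      (1 / (2 ^ d * (d : ℝ) ^ K)) (by positivity) (by positivity) hδ (hl i)
    have hthr : 1 / (2 ^ d * (d : ℝ) ^ K) * NN d (k + 1) = NN d k / (d : ℝ) ^ K := by
      rw [NN_succ]
      field_simp
    have hexp : (1 / (2 ^ d * (d : ℝ) ^ K)) ^ 2 * NN d (k + 1) / (2 * ((d : ℝ) ^ κ / 2 ^ d) ^ 2) =
        NN d (k + 1) / (2 * (d : ℝ) ^ (2 * K + 2 * κ)) := by
      rw [pow_add, pow_mul', pow_mul']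
      field_simp
    rw [hthr, hexp] at ht
    unfold Rar
    refine le_trans ?_ (ht.trans ?_)
    · have hsub : (prps d (k + 1) q).filter (fun f =>
          ¬ (Ψ d k q i f ≤ fm (b d k q i) (Ψ d k q i) f + NN d k / (d : ℝ) ^ K)) ⊆
          (prps d (k + 1) q).filter fun f =>
            fm (b d k q i) (Ψ d k q i) f + NN d k / (d : ℝ) ^ K ≤ Ψ d k q i f := by
        intro f hf
        rw [mem_filter] at hf ⊢
        exact ⟨hf.1, (not_le.mp hf.2).le⟩
      refine Nat.cast_le.mpr (card_le_card ?_)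
      convert hsub
    · have hZ : 0 ≤ ZZ d (k + 1) q := by
        unfold ZZ
        positivity
      refine mul_le_mul_of_nonneg_left (Real.exp_le_exp.mpr (neg_le_neg ?_)) hZ
      have hNN : 0 ≤ NN d (k + 1) := by
        unfold NN
        positivity
      refine div_le_div_of_nonneg_left hNN (by positivity) ?_
      rw [pow_succ (d : ℝ) (2 * K + 2 * κ), mul_comm]
      exact mul_le_mul_of_nonneg_left hdR (by positivity)
  have hun := Rar_union (ι := ι d k q) hd hone (by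
    refine le_trans ?_ hN
    refine mul_le_mul_of_nonneg_left ?_ (by positivity)
    rcases Nat.eq_zero_or_pos (Fintype.card (ι d k q)) with h0 | h0
    · rw [h0, Nat.cast_zero, Real.log_zero]
      exact Real.log_nonneg (le_max_left _ _)
    · exact Real.log_le_log (by exact_mod_cast h0) ((hF d k q).trans (le_max_right _ _)))
  refine hun.mono ?_
  intro f _ hf
  exact not_forall.mp hf

end Pool.Agent.THR
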