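import Pool.Agent.Lib_MP_2c424f_thr.A2

/-!
# THR A3: the deficit is nonnegative (paper proof: A3)

For `y > 0`: `L' y = log y + a F y + log α*` (use `ell_eq` and `log (1-m) = - a (1+m) - log α*`, `log (1+m) = -a(1-m) - log α*` from
`Fy_add`, `Fy_sub`), so `L' y = 0 ↔ log y = - a F y - log α* ↔ y = F (F y)`, `L' y > 0 ↔ y > F (F y)`.
`F (F 0) > 0`, `F (F y) ≤ 1/α*`.  `L'' (1-m) = (1 - a²(1-m²))/(1-m) > 0` (`mfe_nondeg`), so `L'` changes sign from `-` to `+` at `1-m`;
zeros of `L'`: `1-m, yM, 1+m`.  So `L' < 0` on `(0,1-m)`, `L' > 0` on `(1-m,yM)`; on `(yM,1+m)` the sign is constant, and it is negative since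
`L (1-m) = L (1+m) = 0`; `L' > 0` on `(1+m,∞)` since `L' > 0` for large `y`.  Hence `L ≥ 0`, with zeros `1 ± m` only (`L` is continuous at `0`:
`negMulLog`, `L 0 > 0` since `L` is strictly decreasing on `[0,1-m]`).
-/

set_option autoImplicit false

open Finset Filter

namespace Pool.Agent.THR

private lemma log_Fy_A3 (a m z : ℝ) : Real.log (Fy a m z) = -(a * z) - Real.log (als a m) := by
  unfold Fy
  rw [Real.log_div (Real.exp_pos _).ne' (als_pos a m).ne', Real.log_exp]

private lemma Fy_pos_A3 (a m y : ℝ) : 0 < Fy a m y := div_pos (Real.exp_pos _) (als_pos a m)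

private lemma Fy_deriv_A3 (a m y : ℝ) : HasDerivAt (Fy a m) (-(a * Fy a m y)) y := by
  have h1 : HasDerivAt (fun y : ℝ => -(a * y)) (-(a * 1)) y := ((hasDerivAt_id y).const_mul a).neg
  have h2 : HasDerivAt (fun y : ℝ => Real.exp (-(a * y)) / als a m)
      (Real.exp (-(a * y)) * (-(a * 1)) / als a m) y := h1.exp.div_const _
  refine h2.congr_deriv ?_
  unfold Fy
  ring

theorem LL_deriv (a m y : ℝ) (ha : 1 < a) (h : MFE a m) (hy : 0 < y) :
    HasDerivAt (LL a m) (Real.log y + a * Fy a m y + Real.log (als a m)) y := by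
  have hs : -Real.log (1 + m) - 1 - a * (1 - m) = Real.log (als a m) - 1 := by
    have := log_Fy_A3 a m (1 - m)
    rw [Fy_sub a m h] at this
    linarith
  have hfun : LL a m = fun y : ℝ => ell a m 1 + (Real.log (als a m) - 1) * (y - 1) -
      (Real.negMulLog y + Fy a m y) := by
    funext z
    unfold LL
    rw [ell_eq a m z h, hs]
    rfl
  rw [hfun]
  have h1 : HasDerivAt (fun y : ℝ => ell a m 1 + (Real.log (als a m) - 1) * (y - 1))
      ((Real.log (als a m) - 1) * 1) y :=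
    (((hasDerivAt_id y).sub_const 1).const_mul _).const_add _
  have h2 : HasDerivAt (fun y : ℝ => Real.negMulLog y + Fy a m y)
      ((-Real.log y - 1) + (-(a * Fy a m y))) y :=
    (Real.hasDerivAt_negMulLog hy.ne').add (Fy_deriv_A3 a m y)
  refine (h1.sub h2).congr_deriv ?_
  ring

theorem LL_sign (a m y : ℝ) (ha : 1 < a) (h : MFE a m) (hy : 0 < y) :
    0 < Real.log y + a * Fy a m y + Real.log (als a m) ↔ Fy a m (Fy a m y) < y := by
  rw [← Real.log_lt_log_iff (Fy_pos_A3 a m _) hy, log_Fy_A3]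
  constructor <;> intro h1 <;> linarith

private noncomputable def DD_A3 (a m y : ℝ) : ℝ := Real.log y + a * Fy a m y + Real.log (als a m)

private lemma DD_zero_A3 (a m yM y : ℝ) (ha : 1 < a) (h : MFE a m) (hM : YM a m yM) (hy : 0 < y)
    (h0 : DD_A3 a m y = 0) : y = 1 - m ∨ y = yM ∨ y = 1 + m := by
  apply fixed_FF a m yM y ha h hM hy.le
  apply Real.log_injOn_pos (Set.mem_Ioi.mpr hy) (Set.mem_Ioi.mpr (Fy_pos_A3 a m _))
  rw [log_Fy_A3]
  unfold DD_A3 at h0
  linarith

private lemma DD_cont_A3 (a m : ℝ) : ContinuousOn (DD_A3 a m) (Set.Ioi 0) := by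
  intro y hy
  have hy' : (y : ℝ) ≠ 0 := (Set.mem_Ioi.mp hy).ne'
  have h1 : HasDerivAt (DD_A3 a m) (y⁻¹ + a * (-(a * Fy a m y))) y :=
    ((Real.hasDerivAt_log hy').add ((Fy_deriv_A3 a m y).const_mul a)).add_const _
  exact h1.continuousAt.continuousWithinAt

private lemma DD_deriv_A3 (a m y : ℝ) (hy : 0 < y) :
    HasDerivAt (DD_A3 a m) (y⁻¹ + a * (-(a * Fy a m y))) y :=
  ((Real.hasDerivAt_log hy.ne').add ((Fy_deriv_A3 a m y).const_mul a)).add_const _

/-- right of a zero with positive derivative the function is positive up to the next zero -/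
private lemma right_A3 (D : ℝ → ℝ) (z w d : ℝ) (hz : 0 < z) (hc : ContinuousOn D (Set.Ioi 0)) (h0 : D z = 0)
    (hd : HasDerivAt D d z) (hd0 : 0 < d) (hn : ∀ x, z < x → x < w → D x ≠ 0) :
    ∀ x, z < x → x < w → 0 < D x := by
  intro x hzx hxw
  by_contra hcon
  push Not at hcon
  have hx : D x < 0 := lt_of_le_of_ne hcon (hn x hzx hxw)
  have h1 := (hasDerivAt_iff_tendsto_slope.mp hd).eventually (lt_mem_nhds hd0)
  have h2 : ∀ᶠ t in nhdsWithin z (Set.Ioi z), 0 < slope D z t :=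
    h1.filter_mono (nhdsWithin_mono z (fun t ht => (Set.mem_Ioi.mp ht).ne'))
  have h3 : ∀ᶠ t in nhdsWithin z (Set.Ioi z), t < x := by
    have : ∀ᶠ t in nhds z, t < x := gt_mem_nhds hzx
    exact this.filter_mono nhdsWithin_le_nhds
  have h4 : ∀ᶠ t in nhdsWithin z (Set.Ioi z), z < t := self_mem_nhdsWithin
  obtain ⟨t, ⟨ht1, ht2⟩, ht3⟩ := ((h2.and h3).and h4).exists
  rw [slope_def_field, h0, sub_zero] at ht1
  have ht0 : 0 < D t := by
    have := mul_pos ht1 (sub_pos.mpr ht3)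
    rwa [div_mul_cancel₀ _ (sub_pos.mpr ht3).ne'] at this
  have hcc : ContinuousOn D (Set.Icc t x) := hc.mono (fun s hs => lt_of_lt_of_le (hz.trans ht3) hs.1)
  obtain ⟨s, hs, hs'⟩ := intermediate_value_Icc' ht2.le hcc ⟨hx.le, ht0.le⟩
  exact hn s (lt_of_lt_of_le ht3 hs.1) (lt_of_le_of_lt hs.2 hxw) hs'

/-- left of a zero with positive derivative the function is negative up to the next zero -/
private lemma left_A3 (D : ℝ → ℝ) (z w d : ℝ) (hw : 0 ≤ w) (hc : ContinuousOn D (Set.Ioi 0)) (h0 : D z = 0)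
    (hd : HasDerivAt D d z) (hd0 : 0 < d) (hn : ∀ x, w < x → x < z → D x ≠ 0) :
    ∀ x, w < x → x < z → D x < 0 := by
  intro x hwx hxz
  by_contra hcon
  push Not at hcon
  have hx : 0 < D x := lt_of_le_of_ne hcon (hn x hwx hxz).symm
  have h1 := (hasDerivAt_iff_tendsto_slope.mp hd).eventually (lt_mem_nhds hd0)
  have h2 : ∀ᶠ t in nhdsWithin z (Set.Iio z), 0 < slope D z t :=
    h1.filter_mono (nhdsWithin_mono z (fun t ht => (Set.mem_Iio.mp ht).ne))
  have h3 : ∀ᶠ t in nhdsWithin z (Set.Iio z), x < t := by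
    have : ∀ᶠ t in nhds z, x < t := lt_mem_nhds hxz
    exact this.filter_mono nhdsWithin_le_nhds
  have h4 : ∀ᶠ t in nhdsWithin z (Set.Iio z), t < z := self_mem_nhdsWithin
  obtain ⟨t, ⟨ht1, ht2⟩, ht3⟩ := ((h2.and h3).and h4).exists
  rw [slope_def_field, h0, sub_zero] at ht1
  have ht0 : D t < 0 := by
    have := mul_neg_of_pos_of_neg ht1 (sub_neg.mpr ht3)
    rwa [div_mul_cancel₀ _ (sub_neg.mpr ht3).ne] at this
  have hcc : ContinuousOn D (Set.Icc x t) := hc.mono (fun s hs => lt_of_lt_of_le (lt_of_le_of_lt hw hwx) hs.1)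
  obtain ⟨s, hs, hs'⟩ := intermediate_value_Icc' ht2.le hcc ⟨ht0.le, hx.le⟩
  exact hn s (lt_of_lt_of_le hwx hs.1) (lt_of_le_of_lt hs.2 ht3) hs'

private lemma LL_cont_A3 (a m : ℝ) : Continuous (LL a m) := by
  unfold LL ell psi Fy
  have := Real.continuous_negMulLog
  fun_prop

/-- everything about the deficit -/
private lemma main_A3 (a m y : ℝ) (ha : 1 < a) (h : MFE a m) (hy : 0 ≤ y) :
    0 ≤ LL a m y ∧ (LL a m y = 0 → y = 1 - m ∨ y = 1 + m) := by
  obtain ⟨yM, hM⟩ := ym_exists a m ha h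
  obtain ⟨hM1, hM2⟩ := ym_bounds a m yM ha h hM
  have hm0 : 0 < m := h.1
  have hm1 : m < 1 := mfe_lt a m h
  have hnd := mfe_nondeg a m ha h
  have hc := DD_cont_A3 a m
  have hz1 : DD_A3 a m (1 - m) = 0 := by
    have := log_Fy_A3 a m (1 + m)
    rw [Fy_add a m h] at this
    unfold DD_A3
    rw [this, Fy_sub a m h]; ring
  have hz2 : DD_A3 a m (1 + m) = 0 := by
    have := log_Fy_A3 a m (1 - m)
    rw [Fy_sub a m h] at this
    unfold DD_A3
    rw [this, Fy_add a m h]; ring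
  have hd1 := DD_deriv_A3 a m (1 - m) (by linarith)
  have hd2 := DD_deriv_A3 a m (1 + m) (by linarith)
  have hp1 : 0 < (1 - m)⁻¹ + a * (-(a * Fy a m (1 - m))) := by
    rw [Fy_sub a m h]
    have e : (1 - m)⁻¹ + a * (-(a * (1 + m))) = (1 - a ^ 2 * (1 - m ^ 2)) / (1 - m) := by
      have : (1 - m) ≠ 0 := by linarith
      field_simp
      ring
    rw [e]
    exact div_pos (by linarith) (by linarith)
  have hp2 : 0 < (1 + m)⁻¹ + a * (-(a * Fy a m (1 + m))) := by
    rw [Fy_add a m h]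
    have e : (1 + m)⁻¹ + a * (-(a * (1 - m))) = (1 - a ^ 2 * (1 - m ^ 2)) / (1 + m) := by
      have : (1 + m) ≠ 0 := by linarith
      field_simp
      ring
    rw [e]
    exact div_pos (by linarith) (by linarith)
  -- signs
  have s1 : ∀ x, 0 < x → x < 1 - m → DD_A3 a m x < 0 := by
    apply left_A3 _ _ 0 _ le_rfl hc hz1 hd1 hp1
    intro x hx0 hx1 h0
    rcases DD_zero_A3 a m yM x ha h hM hx0 h0 with h' | h' | h' <;> linarith
  have s2 : ∀ x, 1 - m < x → x < yM → 0 < DD_A3 a m x := by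
    apply right_A3 _ _ _ _ (by linarith) hc hz1 hd1 hp1
    intro x hx0 hx1 h0
    rcases DD_zero_A3 a m yM x ha h hM (by linarith) h0 with h' | h' | h' <;> linarith
  have s3 : ∀ x, yM < x → x < 1 + m → DD_A3 a m x < 0 := by
    apply left_A3 _ _ _ _ hM.1 hc hz2 hd2 hp2
    intro x hx0 hx1 h0
    rcases DD_zero_A3 a m yM x ha h hM (lt_of_le_of_lt hM.1 hx0) h0 with h' | h' | h' <;> linarith
  have s4 : ∀ x, 1 + m < x → 0 < DD_A3 a m x := by
    intro x hx
    apply right_A3 (DD_A3 a m) (1 + m) (x + 1) _ (by linarith) hc hz2 hd2 hp2 _ x hx (by linarith)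
    intro x hx0 hx1 h0
    rcases DD_zero_A3 a m yM x ha h hM (by linarith) h0 with h' | h' | h' <;> linarith
  have hL := LL_zero a m h
  have hcont := LL_cont_A3 a m
  have hder : ∀ x, 0 < x → deriv (LL a m) x = DD_A3 a m x := fun x hx => (LL_deriv a m x ha h hx).deriv
  rcases le_total y (1 - m) with hy1 | hy1
  · -- first interval
    have hanti : StrictAntiOn (LL a m) (Set.Icc 0 (1 - m)) := by
      apply strictAntiOn_of_deriv_neg (convex_Icc _ _) hcont.continuousOn
      intro x hx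
      rw [interior_Icc] at hx
      rw [hder x hx.1]
      exact s1 x hx.1 hx.2
    rcases hy1.lt_or_eq with hlt | heq
    · have := hanti ⟨hy, hy1⟩ ⟨by linarith, le_rfl⟩ hlt
      rw [hL.2] at this
      exact ⟨this.le, fun h0 => by linarith⟩
    · rw [heq, hL.2]
      exact ⟨le_rfl, fun _ => Or.inl rfl⟩
  rcases le_total y yM with hy2 | hy2
  · have hmono : StrictMonoOn (LL a m) (Set.Icc (1 - m) yM) := by
      apply strictMonoOn_of_deriv_pos (convex_Icc _ _) hcont.continuousOn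
      intro x hx
      rw [interior_Icc] at hx
      rw [hder x (by linarith [hx.1])]
      exact s2 x hx.1 hx.2
    rcases hy1.lt_or_eq with hlt | heq
    · have := hmono ⟨le_rfl, hM1.le⟩ ⟨hy1, hy2⟩ hlt
      rw [hL.2] at this
      exact ⟨this.le, fun h0 => by linarith⟩
    · rw [← heq, hL.2]
      exact ⟨le_rfl, fun _ => Or.inl rfl⟩
  rcases le_total y (1 + m) with hy3 | hy3
  · have hanti : StrictAntiOn (LL a m) (Set.Icc yM (1 + m)) := by
      apply strictAntiOn_of_deriv_neg (convex_Icc _ _) hcont.continuousOn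
      intro x hx
      rw [interior_Icc] at hx
      rw [hder x (lt_of_le_of_lt hM.1 hx.1)]
      exact s3 x hx.1 hx.2
    rcases hy3.lt_or_eq with hlt | heq
    · have := hanti ⟨hy2, hy3⟩ ⟨by linarith, le_rfl⟩ hlt
      rw [hL.1] at this
      exact ⟨this.le, fun h0 => by linarith⟩
    · rw [heq, hL.1]
      exact ⟨le_rfl, fun _ => Or.inr rfl⟩
  · have hmono : StrictMonoOn (LL a m) (Set.Ici (1 + m)) := by
      apply strictMonoOn_of_deriv_pos (convex_Ici _) hcont.continuousOn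
      intro x hx
      rw [interior_Ici] at hx
      have hx' : 1 + m < x := hx
      rw [hder x (by linarith)]
      exact s4 x hx'
    rcases hy3.lt_or_eq with hlt | heq
    · have := hmono (Set.mem_Ici.mpr le_rfl) (Set.mem_Ici.mpr hy3) hlt
      rw [hL.1] at this
      exact ⟨this.le, fun h0 => by linarith⟩
    · rw [← heq, hL.1]
      exact ⟨le_rfl, fun _ => Or.inr rfl⟩

theorem LL_nonneg (a m y : ℝ) (ha : 1 < a) (h : MFE a m) (hy : 0 ≤ y) : 0 ≤ LL a m y := by
  exact (main_A3 a m y ha h hy).1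

theorem LL_eq_zero (a m y : ℝ) (ha : 1 < a) (h : MFE a m) (hy : 0 ≤ y) (hL : LL a m y = 0) : y = 1 - m ∨ y = 1 + m := by
  exact (main_A3 a m y ha h hy).2 hL

end Pool.Agent.THR
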