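import Pool.Agent.Lib_MP_2c424f_thr.A3

/-!
# THR A4: uniform estimates (paper proof: A4)

`cpt`: abstract lemma: on a compact set, `u ≤ η + C v` if `u, v ≥ 0` continuous and `v = 0 → u = 0` (the set `{u ≥ η}` is compact, `v > 0` there, so
`v ≥ δ > 0`, `C = sup u/δ`).
Compact set: `{(a,m,yM,y) : 1 < a₁ ≤ a ≤ A, m ∈ [0,1], m² ≥ 3(a-1)/a³, m = tanh (a m), yM ∈ [0,1], yM = F yM, 0 ≤ y ≤ Y}` (closed and bounded; all functions are continuous
on it: `als ≥ e^(-a)`, `negMulLog` is continuous, `m ≥ √(3(a₁-1)/A³) > 0`).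
* `est1`: `|e^(-ay) - α*(2-y)|` vanishes at `1 ± m`.
* `est2`: `dst2`;  `est3`: `dst3` against `|y - F (F y)|` (`fixed_FF`).
* `gap`: minimum of `yM - (1-m)`, `1 - yM`, `m` over the compact set.
-/

set_option autoImplicit false

open Finset Filter

namespace Pool.Agent.THR

theorem cpt {X : Type*} [TopologicalSpace X] (S : Set X) (hS : IsCompact S) (u v : X → ℝ) (hu : ContinuousOn u S)
    (hv : ContinuousOn v S) (hv0 : ∀ x ∈ S, 0 ≤ v x) (h : ∀ x ∈ S, v x = 0 → u x ≤ 0) (η : ℝ) (hη : 0 < η) :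
    ∃ C : ℝ, 0 < C ∧ ∀ x ∈ S, u x ≤ η + C * v x := by
  obtain ⟨Z, hZ, hZe⟩ := continuousOn_iff_isClosed.1 hu (Set.Ici η) isClosed_Ici
  have hT : IsCompact (Z ∩ S) := hS.inter_left hZ
  rcases (Z ∩ S).eq_empty_or_nonempty with he | hne
  · refine ⟨1, one_pos, fun x hx => ?_⟩
    have h1 : ¬ η ≤ u x := by
      intro hc
      have : x ∈ u ⁻¹' Set.Ici η ∩ S := ⟨hc, hx⟩
      rw [hZe, he] at this
      exact this
    have := hv0 x hx
    push Not at h1
    linarith
  · obtain ⟨x0, hx0, hmin⟩ := hT.exists_isMinOn hne (hv.mono Set.inter_subset_right)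
    obtain ⟨x1, hx1, hmax⟩ := hS.exists_isMaxOn (hne.mono Set.inter_subset_right) hu
    have hx0' : η ≤ u x0 := by
      have : x0 ∈ u ⁻¹' Set.Ici η ∩ S := by rw [hZe]; exact hx0
      exact this.1
    have hδ : 0 < v x0 := by
      rcases (hv0 x0 hx0.2).lt_or_eq with h1 | h1
      · exact h1
      · have := h x0 hx0.2 h1.symm
        linarith
    refine ⟨max (u x1) 1 / v x0, by positivity, fun x hx => ?_⟩
    by_cases hc : η ≤ u x
    · have hxT : x ∈ Z ∩ S := by rw [← hZe]; exact ⟨hc, hx⟩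
      have h1 : v x0 ≤ v x := hmin hxT
      have h2 : u x ≤ u x1 := hmax hx
      have h3 : max (u x1) 1 = max (u x1) 1 / v x0 * v x0 := by field_simp
      have h4 : max (u x1) 1 / v x0 * v x0 ≤ max (u x1) 1 / v x0 * v x :=
        mul_le_mul_of_nonneg_left h1 (by positivity)
      have h5 := le_max_left (u x1) 1
      linarith
    · push Not at hc
      have h1 := hv0 x hx
      have h2 : 0 ≤ max (u x1) 1 / v x0 * v x := mul_nonneg (by positivity) h1
      linarith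

/-- the compact set of parameters -/
def A4S (b₁ A Y : ℝ) : Set (ℝ × ℝ × ℝ × ℝ) :=
  Set.Icc (b₁, 0, 0, 0) (A, 1, 1, Y) ∩
    {p | 3 * (p.1 - 1) ≤ p.2.1 ^ 2 * p.1 ^ 3 ∧ p.2.1 = Real.tanh (p.1 * p.2.1) ∧ p.2.2.1 = Fy p.1 p.2.1 p.2.2.1}

private theorem A4_tanh_cont : Continuous Real.tanh := by
  have : Real.tanh = fun x => Real.sinh x / Real.cosh x := by
    funext x; exact Real.tanh_eq_sinh_div_cosh x
  rw [this]
  exact Real.continuous_sinh.div Real.continuous_cosh fun x => (Real.cosh_pos x).ne'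

private theorem A4_als_cont {X : Type*} [TopologicalSpace X] {f g : X → ℝ} (hf : Continuous f) (hg : Continuous g) :
    Continuous fun x => als (f x) (g x) := by
  unfold als
  exact (Real.continuous_exp.comp hf.neg).mul (Real.continuous_cosh.comp (hf.mul hg))

private theorem A4_Fy_cont {X : Type*} [TopologicalSpace X] {f g h : X → ℝ} (hf : Continuous f) (hg : Continuous g)
    (hh : Continuous h) : Continuous fun x => Fy (f x) (g x) (h x) := by
  unfold Fy
  exact (Real.continuous_exp.comp (hf.mul hh).neg).div (A4_als_cont hf hg) fun x => (als_pos _ _).ne'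

private theorem A4_psi_cont {X : Type*} [TopologicalSpace X] {f g h : X → ℝ} (hf : Continuous f) (hg : Continuous g)
    (hh : Continuous h) : Continuous fun x => psi (f x) (g x) (h x) := by
  unfold psi
  exact (Real.continuous_negMulLog.comp hh).add (A4_Fy_cont hf hg hh)

private theorem A4_LL_cont {X : Type*} [TopologicalSpace X] (S : Set X) {f g h : X → ℝ} (hf : Continuous f) (hg : Continuous g)
    (hh : Continuous h) (hpos : ∀ x ∈ S, g x ≠ 0) : ContinuousOn (fun x => LL (f x) (g x) (h x)) S := by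
  unfold LL ell
  have h1 := A4_psi_cont hf hg (continuous_const.add hg (f := fun _ : X => (1 : ℝ)))
  have h2 := A4_psi_cont hf hg (continuous_const.sub hg (f := fun _ : X => (1 : ℝ)))
  have h3 := A4_psi_cont hf hg hh
  refine (ContinuousOn.add ((h1.add h2).div_const 2).continuousOn ?_).sub h3.continuousOn
  refine ContinuousOn.mul ?_ (hh.sub continuous_const).continuousOn
  refine (h1.sub h2).continuousOn.div (continuous_const.mul hg).continuousOn fun x hx => ?_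
  exact mul_ne_zero two_ne_zero (hpos x hx)

private theorem A4_compact (b₁ A Y : ℝ) : IsCompact (A4S b₁ A Y) := by
  refine isCompact_Icc.inter_right ?_
  have c1 : Continuous fun p : ℝ × ℝ × ℝ × ℝ => p.1 := continuous_fst
  have c2 : Continuous fun p : ℝ × ℝ × ℝ × ℝ => p.2.1 := continuous_fst.comp continuous_snd
  have c3 : Continuous fun p : ℝ × ℝ × ℝ × ℝ => p.2.2.1 := continuous_fst.comp (continuous_snd.comp continuous_snd)
  refine (isClosed_le (continuous_const.mul (c1.sub continuous_const)) ((c2.pow 2).mul (c1.pow 3))).inter ?_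
  exact (isClosed_eq c2 (A4_tanh_cont.comp (c1.mul c2))).inter (isClosed_eq c3 (A4_Fy_cont c1 c2 c3))

private theorem A4_mem (b₁ A Y a m yM y : ℝ) (h1 : 1 < b₁) (ha : b₁ ≤ a) (hA : a ≤ A) (h : MFE a m) (hM : YM a m yM)
    (hy : 0 ≤ y) (hY : y ≤ Y) : (a, m, yM, y) ∈ A4S b₁ A Y := by
  have ha1 : 1 < a := lt_of_lt_of_le h1 ha
  have hb := ym_bounds a m yM ha1 h hM
  refine ⟨Set.mem_Icc.2 ⟨⟨ha, h.1.le, hM.1, hy⟩, ⟨hA, (mfe_lt a m h).le, hb.2.le, hY⟩⟩, ?_, h.2, hM.2⟩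
  have := mfe_lower a m ha1 h
  rw [div_le_iff₀ (by positivity)] at this
  exact this

private theorem A4_of_mem (b₁ A Y : ℝ) (h1 : 1 < b₁) (p : ℝ × ℝ × ℝ × ℝ) (hp : p ∈ A4S b₁ A Y) :
    1 < p.1 ∧ MFE p.1 p.2.1 ∧ YM p.1 p.2.1 p.2.2.1 ∧ 0 ≤ p.2.2.2 := by
  obtain ⟨hI, hl, ht, hF⟩ := hp
  obtain ⟨⟨hb, hm, hM, hy⟩, -⟩ := Set.mem_Icc.1 hI
  simp only at hb hm hM hy
  have ha1 : 1 < p.1 := lt_of_lt_of_le h1 hb
  have hm0 : 0 < p.2.1 := by
    rcases hm.lt_or_eq with h2 | h2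
    · exact h2
    · rw [← h2] at hl
      norm_num at hl
      linarith
  exact ⟨ha1, ⟨hm0, ht⟩, ⟨hM, hF⟩, hy⟩

theorem est1 (b₁ A Y : ℝ) (h1 : 1 < b₁) (η : ℝ) (hη : 0 < η) : ∃ C : ℝ, 0 < C ∧ ∀ a m y : ℝ, b₁ ≤ a → a ≤ A →
    MFE a m → 0 ≤ y → y ≤ Y → |Real.exp (-(a * y)) - als a m * (2 - y)| ≤ η + C * LL a m y := by
  have c1 : Continuous fun p : ℝ × ℝ × ℝ × ℝ => p.1 := continuous_fst
  have c2 : Continuous fun p : ℝ × ℝ × ℝ × ℝ => p.2.1 := continuous_fst.comp continuous_snd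
  have c4 : Continuous fun p : ℝ × ℝ × ℝ × ℝ => p.2.2.2 := continuous_snd.comp (continuous_snd.comp continuous_snd)
  obtain ⟨C, hC, h⟩ := cpt (A4S b₁ A Y) (A4_compact b₁ A Y)
    (fun p => |Real.exp (-(p.1 * p.2.2.2)) - als p.1 p.2.1 * (2 - p.2.2.2)|) (fun p => LL p.1 p.2.1 p.2.2.2)
    (((Real.continuous_exp.comp (c1.mul c4).neg).sub ((A4_als_cont c1 c2).mul (continuous_const.sub c4))).abs).continuousOn
    (A4_LL_cont _ c1 c2 c4 fun p hp => (A4_of_mem b₁ A Y h1 p hp).2.1.1.ne')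
    (fun p hp => by
      obtain ⟨ha, hm, -, hy⟩ := A4_of_mem b₁ A Y h1 p hp
      exact LL_nonneg _ _ _ ha hm hy)
    (fun p hp h0 => by
      obtain ⟨ha, hm, -, hy⟩ := A4_of_mem b₁ A Y h1 p hp
      have hals := als_pos p.1 p.2.1
      rcases LL_eq_zero _ _ _ ha hm hy h0 with e | e
      · have h2 := Fy_sub _ _ hm
        unfold Fy at h2
        rw [div_eq_iff hals.ne'] at h2
        simp only [e]
        rw [h2]
        have : (1 + p.2.1) * als p.1 p.2.1 - als p.1 p.2.1 * (2 - (1 - p.2.1)) = 0 := by ring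
        rw [this, abs_zero]
      · have h2 := Fy_add _ _ hm
        unfold Fy at h2
        rw [div_eq_iff hals.ne'] at h2
        simp only [e]
        rw [h2]
        have : (1 - p.2.1) * als p.1 p.2.1 - als p.1 p.2.1 * (2 - (1 + p.2.1)) = 0 := by ring
        rw [this, abs_zero]) η hη
  refine ⟨C, hC, fun a m y ha hA hm hy hY => ?_⟩
  obtain ⟨yM, hM⟩ := ym_exists a m (lt_of_lt_of_le h1 ha) hm
  exact h (a, m, yM, y) (A4_mem b₁ A Y a m yM y h1 ha hA hm hM hy hY)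

private theorem A4_dst2_cont {X : Type*} [TopologicalSpace X] {g h : X → ℝ} (hg : Continuous g) (hh : Continuous h) :
    Continuous fun x => dst2 (g x) (h x) := by
  unfold dst2
  exact ((hh.sub (continuous_const.sub hg)).abs).min ((hh.sub (continuous_const.add hg)).abs)

theorem est2 (b₁ A Y : ℝ) (h1 : 1 < b₁) (η : ℝ) (hη : 0 < η) : ∃ C : ℝ, 0 < C ∧ ∀ a m y : ℝ, b₁ ≤ a → a ≤ A →
    MFE a m → 0 ≤ y → y ≤ Y → dst2 m y ≤ η + C * LL a m y := by
  have c1 : Continuous fun p : ℝ × ℝ × ℝ × ℝ => p.1 := continuous_fst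
  have c2 : Continuous fun p : ℝ × ℝ × ℝ × ℝ => p.2.1 := continuous_fst.comp continuous_snd
  have c4 : Continuous fun p : ℝ × ℝ × ℝ × ℝ => p.2.2.2 := continuous_snd.comp (continuous_snd.comp continuous_snd)
  obtain ⟨C, hC, h⟩ := cpt (A4S b₁ A Y) (A4_compact b₁ A Y)
    (fun p => dst2 p.2.1 p.2.2.2) (fun p => LL p.1 p.2.1 p.2.2.2)
    (A4_dst2_cont c2 c4).continuousOn
    (A4_LL_cont _ c1 c2 c4 fun p hp => (A4_of_mem b₁ A Y h1 p hp).2.1.1.ne')
    (fun p hp => by
      obtain ⟨ha, hm, -, hy⟩ := A4_of_mem b₁ A Y h1 p hp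
      exact LL_nonneg _ _ _ ha hm hy)
    (fun p hp h0 => by
      obtain ⟨ha, hm, -, hy⟩ := A4_of_mem b₁ A Y h1 p hp
      rcases LL_eq_zero _ _ _ ha hm hy h0 with e | e
      · simp only [e, dst2]
        exact min_le_of_left_le (by simp)
      · simp only [e, dst2]
        exact min_le_of_right_le (by simp)) η hη
  refine ⟨C, hC, fun a m y ha hA hm hy hY => ?_⟩
  obtain ⟨yM, hM⟩ := ym_exists a m (lt_of_lt_of_le h1 ha) hm
  exact h (a, m, yM, y) (A4_mem b₁ A Y a m yM y h1 ha hA hm hM hy hY)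

theorem est3 (b₁ A Y : ℝ) (h1 : 1 < b₁) (η : ℝ) (hη : 0 < η) : ∃ C : ℝ, 0 < C ∧ ∀ a m yM y : ℝ, b₁ ≤ a → a ≤ A →
    MFE a m → YM a m yM → 0 ≤ y → y ≤ Y → dst3 m yM y ≤ η + C * |y - Fy a m (Fy a m y)| := by
  have c1 : Continuous fun p : ℝ × ℝ × ℝ × ℝ => p.1 := continuous_fst
  have c2 : Continuous fun p : ℝ × ℝ × ℝ × ℝ => p.2.1 := continuous_fst.comp continuous_snd
  have c3 : Continuous fun p : ℝ × ℝ × ℝ × ℝ => p.2.2.1 := continuous_fst.comp (continuous_snd.comp continuous_snd)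
  have c4 : Continuous fun p : ℝ × ℝ × ℝ × ℝ => p.2.2.2 := continuous_snd.comp (continuous_snd.comp continuous_snd)
  obtain ⟨C, hC, h⟩ := cpt (A4S b₁ A Y) (A4_compact b₁ A Y)
    (fun p => dst3 p.2.1 p.2.2.1 p.2.2.2) (fun p => |p.2.2.2 - Fy p.1 p.2.1 (Fy p.1 p.2.1 p.2.2.2)|)
    (by
      unfold dst3
      exact ((A4_dst2_cont c2 c4).min ((c4.sub c3).abs)).continuousOn)
    ((c4.sub (A4_Fy_cont c1 c2 (A4_Fy_cont c1 c2 c4))).abs).continuousOn
    (fun p hp => abs_nonneg _)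
    (fun p hp h0 => by
      obtain ⟨ha, hm, hM, hy⟩ := A4_of_mem b₁ A Y h1 p hp
      have h2 := sub_eq_zero.1 (abs_eq_zero.1 h0)
      rcases fixed_FF _ _ _ _ ha hm hM hy h2 with e | e | e
      · simp only [e, dst3, dst2]
        exact min_le_of_left_le (min_le_of_left_le (by simp))
      · simp only [e, dst3, dst2]
        exact min_le_of_right_le (by simp)
      · simp only [e, dst3, dst2]
        exact min_le_of_left_le (min_le_of_right_le (by simp))) η hη
  refine ⟨C, hC, fun a m yM y ha hA hm hM hy hY => ?_⟩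
  exact h (a, m, yM, y) (A4_mem b₁ A Y a m yM y h1 ha hA hm hM hy hY)

theorem gap (b₁ A : ℝ) (h1 : 1 < b₁) : ∃ g : ℝ, 0 < g ∧ g ≤ 1 ∧ ∀ a m yM : ℝ, b₁ ≤ a → a ≤ A → MFE a m → YM a m yM →
    g ≤ m ∧ g ≤ yM - (1 - m) ∧ g ≤ 1 - yM ∧ g ≤ 1 - m := by
  have c2 : Continuous fun p : ℝ × ℝ × ℝ × ℝ => p.2.1 := continuous_fst.comp continuous_snd
  have c3 : Continuous fun p : ℝ × ℝ × ℝ × ℝ => p.2.2.1 := continuous_fst.comp (continuous_snd.comp continuous_snd)
  rcases (A4S b₁ A 0).eq_empty_or_nonempty with he | hne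
  · refine ⟨1, one_pos, le_rfl, fun a m yM ha hA hm hM => ?_⟩
    have := A4_mem b₁ A 0 a m yM 0 h1 ha hA hm hM le_rfl le_rfl
    rw [he] at this
    exact absurd this (Set.notMem_empty _)
  · have hc : Continuous fun p : ℝ × ℝ × ℝ × ℝ =>
        min (min p.2.1 (p.2.2.1 - (1 - p.2.1))) (min (1 - p.2.2.1) (1 - p.2.1)) :=
      (c2.min (c3.sub (continuous_const.sub c2))).min ((continuous_const.sub c3).min (continuous_const.sub c2))
    obtain ⟨p, hp, hmin⟩ := (A4_compact b₁ A 0).exists_isMinOn hne hc.continuousOn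
    obtain ⟨ha, hm, hM, -⟩ := A4_of_mem b₁ A 0 h1 p hp
    have hb := ym_bounds _ _ _ ha hm hM
    have hml := mfe_lt _ _ hm
    have hpos : 0 < min (min p.2.1 (p.2.2.1 - (1 - p.2.1))) (min (1 - p.2.2.1) (1 - p.2.1)) :=
      lt_min (lt_min hm.1 (by linarith)) (lt_min (by linarith) (by linarith))
    refine ⟨min (min (min p.2.1 (p.2.2.1 - (1 - p.2.1))) (min (1 - p.2.2.1) (1 - p.2.1))) 1,
      lt_min hpos one_pos, min_le_right _ _, fun a m yM ha hA hm hM => ?_⟩
    have h2 := hmin (A4_mem b₁ A 0 a m yM 0 h1 ha hA hm hM le_rfl le_rfl)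
    have h3 : min (min p.2.1 (p.2.2.1 - (1 - p.2.1))) (min (1 - p.2.2.1) (1 - p.2.1)) ≤
        min (min m (yM - (1 - m))) (min (1 - yM) (1 - m)) := h2
    have h4 := (min_le_left (min (min p.2.1 (p.2.2.1 - (1 - p.2.1))) (min (1 - p.2.2.1) (1 - p.2.1))) 1).trans h3
    exact ⟨h4.trans ((min_le_left _ _).trans (min_le_left _ _)), h4.trans ((min_le_left _ _).trans (min_le_right _ _)),
      h4.trans ((min_le_right _ _).trans (min_le_left _ _)), h4.trans ((min_le_right _ _).trans (min_le_right _ _))⟩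

private theorem A4_exp_lip (x y : ℝ) (hx : 0 ≤ x) (hy : 0 ≤ y) : |Real.exp (-x) - Real.exp (-y)| ≤ |x - y| := by
  have key : ∀ s t : ℝ, 0 ≤ s → s ≤ t → |Real.exp (-s) - Real.exp (-t)| ≤ |s - t| := by
    intro s t hs hst
    have h1 : Real.exp (-t) ≤ Real.exp (-s) := Real.exp_le_exp.2 (by linarith)
    rw [abs_of_nonneg (by linarith), abs_of_nonpos (by linarith)]
    have h2 : Real.exp (-t) = Real.exp (-s) * Real.exp (-(t - s)) := by rw [← Real.exp_add]; ring_nf
    have h3 := Real.add_one_le_exp (-(t - s))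
    have h4 : Real.exp (-s) ≤ 1 := Real.exp_le_one_iff.2 (by linarith)
    have h5 := Real.exp_pos (-s)
    rw [h2]
    nlinarith
  rcases le_total x y with h | h
  · exact key x y hx h
  · rw [abs_sub_comm, abs_sub_comm x]
    exact key y x hy h

/-- `F` is decreasing and Lipschitz on `[0,∞)` -/
theorem Fy_lip (a m y z : ℝ) (ha : 1 < a) (h : MFE a m) (hy : 0 ≤ y) (hz : 0 ≤ z) :
    |Fy a m y - Fy a m z| ≤ a * Real.exp a * |y - z| ∧ 0 < Fy a m y ∧ Fy a m y ≤ Real.exp a := by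
  have hals := als_pos a m
  have hm1 : |m| ≤ 1 := by rw [abs_of_pos h.1]; exact (mfe_lt a m h).le
  have hb := (als_bounds a m (by linarith) hm1).1
  have ha0 : 0 < a := by linarith
  have hinv : 1 / als a m ≤ Real.exp a := by
    rw [div_le_iff₀ hals]
    calc (1 : ℝ) = Real.exp a * Real.exp (-a) := by rw [← Real.exp_add]; simp
      _ ≤ Real.exp a * als a m := mul_le_mul_of_nonneg_left hb (Real.exp_pos a).le
  refine ⟨?_, by unfold Fy; positivity, ?_⟩
  · unfold Fy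
    rw [← sub_div, abs_div, abs_of_pos hals]
    have h1 := A4_exp_lip (a * y) (a * z) (by positivity) (by positivity)
    rw [← mul_sub, abs_mul, abs_of_pos ha0] at h1
    calc |Real.exp (-(a * y)) - Real.exp (-(a * z))| / als a m
        = 1 / als a m * |Real.exp (-(a * y)) - Real.exp (-(a * z))| := by ring
      _ ≤ Real.exp a * (a * |y - z|) := mul_le_mul hinv h1 (abs_nonneg _) (Real.exp_pos a).le
      _ = a * Real.exp a * |y - z| := by ring
  · unfold Fy
    have h1 : Real.exp (-(a * y)) ≤ 1 := Real.exp_le_one_iff.2 (by nlinarith)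
    calc Real.exp (-(a * y)) / als a m = 1 / als a m * Real.exp (-(a * y)) := by ring
      _ ≤ Real.exp a * 1 := mul_le_mul hinv h1 (Real.exp_pos _).le (Real.exp_pos a).le
      _ = Real.exp a := by ring

end Pool.Agent.THR
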