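import Pool.Agent.Lib_MP_2c424f_thr.DefsB
import Pool.Agent.Lib_MP_2c424f_lo.RP
import Pool.Agent.Lib_MP_2c424f_lo.BSum
import Pool.Agent.Lib_MP_2c424f_lo.Multi

/-!
# THR B1: block means (paper proof: B1)

`Ms s t φ` is the mean of `φ (pt t a b)` over the odd pairs `(a,b)` of the shape `s` (the block or one of its `2d` faces).
* `oS_card`: the block has `4^d/2` odd pairs, a face `4^(d-1)/2` (`d ≥ 2`; flip one free bit).
* `Ms_face`: so a face mean of a nonnegative function is at most `4` times the block mean.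
* `Ms_sum`: `LO.sum_EB` (`Ms none t φ = EB (fun a b => φ (pt t a b))`).
* `bdT_loc`: `bq c f v` depends on `f v` only.
* `bdT_sym`: `LO.rs_pt`, `rs_rs`, `rb_rb`: `Ms s (rb j α t) (bq c (f ∘ rs j α)) = Ms s' t (bq c f)`, `s' = s` with `β` flipped if the direction of `s` is `j`; `od` is
  invariant under flipping both bits.
* `lab_adj`: the face `(j, true)` of `t` is the face `(j, false)` of `nxt t j` (`pt t a b = pt (nxt t j) (flp a j) (flp b j)` for `a j = b j = true`), so if one block is `hiL θ` and the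
  other `loL θ'`, then `θ ≤ mean ≤ θ'`.  See `Lib_MP_2c424f_lin/B1.lean` (`badd_loc`, `badd_sym`, `labd_adj`) for the same statements for other labels.
-/

set_option autoImplicit false

open Finset Filter

namespace Pool.Agent.THR

open Pool.Agent.LO Pool.Agent.LIN

variable {d k q : ℕ}

open scoped Classical in
private theorem B1_sum (s : Shp d) (F : Bt d → Bt d → ℝ) :
    ∑ p ∈ oS s, F p.1 p.2 = ∑ a, ∑ b, if od a b then (if inS s a b then F a b else 0) else 0 := by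
  unfold oS
  rw [Finset.sum_filter, ← Finset.univ_product_univ, Finset.sum_product]
  refine Finset.sum_congr rfl fun a _ => Finset.sum_congr rfl fun b _ => ?_
  by_cases h : od a b
  · by_cases h' : inS s a b
    · rw [if_pos ⟨h, h'⟩, if_pos h, if_pos h']
    · rw [if_neg (fun hc => h' hc.2), if_pos h, if_neg h']
  · rw [if_neg (fun hc => h hc.1), if_neg h]

open scoped Classical in
private theorem B1_sum_EB (s : Shp d) (F : Bt d → Bt d → ℝ) :
    ∑ p ∈ oS s, F p.1 p.2 = (4 : ℝ) ^ d / 2 * EB (fun a b => if inS s a b then F a b else 0) := by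
  rw [B1_sum]
  unfold EB
  have h4 : (4 : ℝ) ^ d ≠ 0 := by positivity
  field_simp

theorem oS_card (hd : 2 ≤ d) (s : Shp d) : ((oS s).card : ℝ) = if s = none then (4 : ℝ) ^ d / 2 else (4 : ℝ) ^ (d - 1) / 2 := by
  classical
  have h1 : ((oS s).card : ℝ) = (4 : ℝ) ^ d / 2 * EB (fun a b => if inS s a b then (1 : ℝ) else 0) := by
    rw [← B1_sum_EB s (fun _ _ => (1 : ℝ))]
    simp
  rw [h1]
  rcases s with _ | ⟨j, β⟩
  · have h2 : EB (fun a b : Bt d => if inS (none : Shp d) a b then (1 : ℝ) else 0) = 1 := by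
      refine Eq.trans (congrArg EB ?_) (card_od (d := d) (by omega))
      funext a b
      simp [inS]
    rw [h2, if_pos rfl, mul_one]
  · have h2 : EB (fun a b : Bt d => if inS (some (j, β) : Shp d) a b then (1 : ℝ) else 0) = 1 / 4 := by
      refine Eq.trans (congrArg EB ?_) (card_od_face hd j β)
      funext a b
      simp [inS]
    rw [h2, if_neg (by simp)]
    obtain ⟨e, rfl⟩ : ∃ e, d = e + 1 := ⟨d - 1, by omega⟩
    rw [Nat.add_sub_cancel, pow_succ]
    ring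

private theorem B1_card_pos (hd : 2 ≤ d) (s : Shp d) : (0 : ℝ) < ((oS s).card : ℝ) := by
  rw [oS_card hd s]
  split_ifs <;> positivity

private theorem B1_mem (s : Shp d) (p : Bt d × Bt d) (hp : p ∈ oS s) : od p.1 p.2 := by
  classical
  unfold oS at hp
  exact (Finset.mem_filter.1 hp).2.1

theorem Ms_mono (s : Shp d) (t : Blk d k) {φ ψ : Site d (k + 1) → ℝ} (h : ∀ a b, od a b → φ (pt t a b) ≤ ψ (pt t a b)) :
    Ms s t φ ≤ Ms s t ψ := by
  unfold Ms
  refine div_le_div_of_nonneg_right ?_ (Nat.cast_nonneg _)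
  exact Finset.sum_le_sum fun p hp => h p.1 p.2 (B1_mem s p hp)

theorem Ms_add (s : Shp d) (t : Blk d k) (φ ψ : Site d (k + 1) → ℝ) :
    Ms s t (fun x => φ x + ψ x) = Ms s t φ + Ms s t ψ := by
  unfold Ms
  rw [Finset.sum_add_distrib, add_div]

theorem Ms_sub (s : Shp d) (t : Blk d k) (φ ψ : Site d (k + 1) → ℝ) :
    Ms s t (fun x => φ x - ψ x) = Ms s t φ - Ms s t ψ := by
  unfold Ms
  rw [Finset.sum_sub_distrib, sub_div]

theorem Ms_mul (s : Shp d) (t : Blk d k) (c : ℝ) (φ : Site d (k + 1) → ℝ) : Ms s t (fun x => c * φ x) = c * Ms s t φ := by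
  unfold Ms
  rw [← Finset.mul_sum, mul_div_assoc]

theorem Ms_const (hd : 2 ≤ d) (s : Shp d) (t : Blk d k) (c : ℝ) : Ms s t (fun _ => c) = c := by
  unfold Ms
  rw [Finset.sum_const, nsmul_eq_mul, mul_comm, mul_div_assoc, div_self (B1_card_pos hd s).ne', mul_one]

theorem Ms_abs (s : Shp d) (t : Blk d k) (φ : Site d (k + 1) → ℝ) : |Ms s t φ| ≤ Ms s t fun x => |φ x| := by
  unfold Ms
  rw [abs_div, Nat.abs_cast]
  exact div_le_div_of_nonneg_right (Finset.abs_sum_le_sum_abs _ _) (Nat.cast_nonneg _)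

theorem Ms_sq (hd : 2 ≤ d) (s : Shp d) (t : Blk d k) (φ : Site d (k + 1) → ℝ) : Ms s t φ ^ 2 ≤ Ms s t fun x => φ x ^ 2 := by
  unfold Ms
  have h0 := B1_card_pos hd s
  have h1 : (∑ p ∈ oS s, φ (pt t p.1 p.2)) ^ 2 ≤ ((oS s).card : ℝ) * ∑ p ∈ oS s, φ (pt t p.1 p.2) ^ 2 :=
    sq_sum_le_card_mul_sum_sq
  rw [div_pow, div_le_div_iff₀ (by positivity) h0]
  calc (∑ p ∈ oS s, φ (pt t p.1 p.2)) ^ 2 * ((oS s).card : ℝ)
      ≤ (((oS s).card : ℝ) * ∑ p ∈ oS s, φ (pt t p.1 p.2) ^ 2) * ((oS s).card : ℝ) :=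
        mul_le_mul_of_nonneg_right h1 h0.le
    _ = (∑ p ∈ oS s, φ (pt t p.1 p.2) ^ 2) * ((oS s).card : ℝ) ^ 2 := by ring

theorem Ms_face (hd : 2 ≤ d) (s : Shp d) (t : Blk d k) (φ : Site d (k + 1) → ℝ) (h : ∀ x, 0 ≤ φ x) :
    Ms s t φ ≤ 4 * Ms none t φ := by
  classical
  have hsub : ∑ p ∈ oS s, φ (pt t p.1 p.2) ≤ ∑ p ∈ oS (none : Shp d), φ (pt t p.1 p.2) := by
    refine Finset.sum_le_sum_of_subset_of_nonneg ?_ fun p _ _ => h _
    intro p hp
    unfold oS at hp ⊢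
    rw [Finset.mem_filter] at hp ⊢
    exact ⟨hp.1, hp.2.1, trivial⟩
  have h0 : 0 ≤ ∑ p ∈ oS (none : Shp d), φ (pt t p.1 p.2) := Finset.sum_nonneg fun p _ => h _
  have hn : ((oS (none : Shp d)).card : ℝ) = (4 : ℝ) ^ d / 2 := by
    rw [oS_card hd, if_pos rfl]
  have hc : (4 : ℝ) ^ d / 2 ≤ 4 * ((oS s).card : ℝ) := by
    rw [oS_card hd s]
    have h4 : (4 : ℝ) ^ d = 4 ^ (d - 1) * 4 := by
      rw [← pow_succ]; congr 1; omega
    have h5 : (0 : ℝ) < 4 ^ (d - 1) := by positivity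
    split_ifs
    · rw [h4]; linarith
    · rw [h4]; linarith
  have hp := B1_card_pos hd s
  have hp4 : (0 : ℝ) < (4 : ℝ) ^ d / 2 := by positivity
  unfold Ms
  rw [hn, ← mul_div_assoc, div_le_div_iff₀ hp hp4]
  calc (∑ p ∈ oS s, φ (pt t p.1 p.2)) * ((4 : ℝ) ^ d / 2)
      ≤ (∑ p ∈ oS (none : Shp d), φ (pt t p.1 p.2)) * ((4 : ℝ) ^ d / 2) :=
        mul_le_mul_of_nonneg_right hsub hp4.le
    _ ≤ (∑ p ∈ oS (none : Shp d), φ (pt t p.1 p.2)) * (4 * ((oS s).card : ℝ)) :=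
        mul_le_mul_of_nonneg_left hc h0
    _ = 4 * (∑ p ∈ oS (none : Shp d), φ (pt t p.1 p.2)) * ((oS s).card : ℝ) := by ring

theorem Ms_sum (hd : 2 ≤ d) (hk : 1 ≤ k) (φ : Site d (k + 1) → ℝ) :
    ∑ t : Blk d k, Ms none t φ = 2 / 2 ^ d * ∑ v ∈ ods d (k + 1), φ v := by
  classical
  rw [← sum_EB (k := k) (by omega) φ]
  refine Finset.sum_congr rfl fun t _ => ?_
  have hn : ((oS (none : Shp d)).card : ℝ) = (4 : ℝ) ^ d / 2 := by
    rw [oS_card hd, if_pos rfl]
  unfold Ms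
  rw [B1_sum_EB (none : Shp d) (fun a b => φ (pt t a b)), hn]
  have hp4 : (0 : ℝ) < (4 : ℝ) ^ d / 2 := by positivity
  rw [mul_comm, mul_div_assoc, div_self hp4.ne', mul_one]
  congr 1
  funext a b
  exact if_pos trivial

end Pool.Agent.THR
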