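import Pool.Agent.Lib_MP_2c424f_thr.DefsB

/-!
# THR B2a: Efron-Stein inequality on the odd half of the cube (paper proof: B2)

* `es_bits`: `G : (Fin n → Bool) → ℝ` (or any finite index type of bits), uniform measure: variance `≤ (1/4) ∑_i mean |G (flip_i ω) - G ω|²`
  (Efron-Stein / Poincaré inequality of the cube; induction on `n`, or: the variance is `(1/2)` mean over independent `ω, ω'` of the squared difference, replace the bits one by one ...; the
  induction is the simplest: conditional variance given the first bit plus the variance of the conditional mean, which is `(1/4) (mean G(1,·) - mean G(0,·))²`, then Jensen).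
* `es_odd`: the odd pairs `(a,b) ∈ Bt d × Bt d` are parametrised by `a` and the bits `b i`, `i ≠ l`: the bit `b l` is determined by the parity.  Flipping one of the free bits means
  flipping this bit and `b l`.
-/

set_option autoImplicit false

open Finset Filter

namespace Pool.Agent.THR

open Pool.Agent.LO Pool.Agent.LIN

private theorem b2a_sum_succ {n : ℕ} (G : Bt (n + 1) → ℝ) :
    ∑ a, G a = ∑ a : Bt n, G (Fin.cons false a) + ∑ a : Bt n, G (Fin.cons true a) := by
  have h : ∑ a, G a = ∑ p : Bool × Bt n, G (Fin.cons p.1 p.2) := by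
    refine (Fintype.sum_equiv (Fin.insertNthEquiv (fun _ : Fin (n + 1) => Bool) 0) _ _ ?_).symm
    intro p
    congr 1
    simp only [Fin.insertNthEquiv, Equiv.coe_fn_mk, Fin.insertNth_zero']
  rw [h, Fintype.sum_prod_type, Fintype.sum_bool, add_comm]

private theorem b2a_flp_zero {n : ℕ} (b : Bool) (a : Bt n) :
    flp (Fin.cons b a : Bt (n + 1)) 0 = Fin.cons (!b) a := by
  unfold flp
  rw [Fin.cons_zero, Fin.update_cons_zero]

private theorem b2a_flp_succ {n : ℕ} (b : Bool) (a : Bt n) (j : Fin n) :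
    flp (Fin.cons b a : Bt (n + 1)) j.succ = Fin.cons b (flp a j) := by
  unfold flp
  rw [Fin.cons_succ, Fin.cons_update]

/-- Efron-Stein on the cube -/
private theorem b2a_es (n : ℕ) (G : Bt n → ℝ) :
    2 ^ n * (∑ a, G a ^ 2) - (∑ a, G a) ^ 2 ≤
      1 / 4 * (2 ^ n * ∑ j, ∑ a, (G (flp a j) - G a) ^ 2) := by
  induction n with
  | zero =>
    simp
  | succ n ih =>
    have i0 := ih (fun a => G (Fin.cons false a))
    have i1 := ih (fun a => G (Fin.cons true a))
    have hcs : (∑ a : Bt n, (G (Fin.cons false a) - G (Fin.cons true a))) ^ 2 ≤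
        2 ^ n * ∑ a : Bt n, (G (Fin.cons false a) - G (Fin.cons true a)) ^ 2 := by
      have h := sq_sum_le_card_mul_sum_sq (s := (Finset.univ : Finset (Bt n)))
        (f := fun a => G (Fin.cons false a) - G (Fin.cons true a))
      rw [Finset.card_univ, Fintype.card_fun, Fintype.card_bool, Fintype.card_fin] at h
      push_cast at h
      exact h
    rw [Finset.sum_sub_distrib] at hcs
    rw [b2a_sum_succ, b2a_sum_succ, Fin.sum_univ_succ]
    simp_rw [b2a_sum_succ]
    simp_rw [b2a_flp_zero, b2a_flp_succ]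
    simp only [Bool.not_false, Bool.not_true]
    rw [Finset.sum_add_distrib]
    have h2 : ∑ a : Bt n, (G (Fin.cons true a) - G (Fin.cons false a)) ^ 2 =
        ∑ a : Bt n, (G (Fin.cons false a) - G (Fin.cons true a)) ^ 2 := by
      refine Finset.sum_congr rfl fun a _ => ?_
      ring
    rw [h2]
    rw [pow_succ (2 : ℝ) n]
    nlinarith

theorem es_bits {ι : Type*} [Fintype ι] [DecidableEq ι] (G : (ι → Bool) → ℝ) :
    (∑ ω, G ω ^ 2) / 2 ^ Fintype.card ι - ((∑ ω, G ω) / 2 ^ Fintype.card ι) ^ 2 ≤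
      1 / 4 * ∑ i, (∑ ω, (G (Function.update ω i (!ω i)) - G ω) ^ 2) / 2 ^ Fintype.card ι := by
  classical
  set n := Fintype.card ι with hn
  let e : ι ≃ Fin n := Fintype.equivFin ι
  let E : Bt n ≃ (ι → Bool) := ⟨fun a i => a (e i), fun ω j => ω (e.symm j), fun a => by
    funext j; simp, fun ω => by funext i; simp⟩
  have hE : ∀ H : (ι → Bool) → ℝ, ∑ a : Bt n, H (E a) = ∑ ω, H ω := fun H => Equiv.sum_comp E H
  have hflip : ∀ (a : Bt n) (i : ι), E (flp a (e i)) = Function.update (E a) i (!(E a) i) := by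
    intro a i
    funext j
    by_cases h : j = i
    · subst h
      simp [E, flp]
    · simp [E, flp, h]
  have key := b2a_es n (fun a => G (E a))
  have e1 : ∑ a : Bt n, G (E a) ^ 2 = ∑ ω, G ω ^ 2 := hE fun ω => G ω ^ 2
  have e2 : ∑ a : Bt n, G (E a) = ∑ ω, G ω := hE G
  have e3 : ∑ j, ∑ a : Bt n, (G (E (flp a j)) - G (E a)) ^ 2 =
      ∑ i, ∑ ω, (G (Function.update ω i (!ω i)) - G ω) ^ 2 := by
    rw [← Equiv.sum_comp e]
    refine Finset.sum_congr rfl fun i _ => ?_
    rw [← hE fun ω => (G (Function.update ω i (!ω i)) - G ω) ^ 2]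
    refine Finset.sum_congr rfl fun a _ => ?_
    rw [hflip]
  simp only [e1, e2, e3] at key
  have hpos : (0 : ℝ) < 2 ^ n := by positivity
  rw [← Finset.sum_div]
  set S2 := ∑ ω, G ω ^ 2
  set S1 := ∑ ω, G ω
  set D := ∑ i, ∑ ω, (G (Function.update ω i (!ω i)) - G ω) ^ 2
  have f1 : S2 / 2 ^ n - (S1 / 2 ^ n) ^ 2 = (2 ^ n * S2 - S1 ^ 2) / (2 ^ n * 2 ^ n) := by
    field_simp
  have f2 : 1 / 4 * (D / 2 ^ n) = (1 / 4 * (2 ^ n * D)) / (2 ^ n * 2 ^ n) := by
    field_simp
  rw [f1, f2]
  gcongr

private theorem b2a_flp_flp {d : ℕ} (a : Bt d) (i : Fin d) : flp (flp a i) i = a := by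
  unfold flp
  simp

private theorem b2a_od_flp {d : ℕ} (a b : Bt d) (i : Fin d) : od (flp a i) b ↔ ¬ od a b := by
  unfold od
  by_cases h : a i = b i
  · have h1 : (univ.filter fun r => flp a i r ≠ b r) = insert i (univ.filter fun r => a r ≠ b r) := by
      ext r
      simp only [Finset.mem_filter, Finset.mem_univ, true_and, Finset.mem_insert]
      by_cases hr : r = i
      · subst hr
        simp [flp, h]
      · simp [flp, hr]
    rw [h1, Finset.card_insert_of_notMem (by simp [h]), Nat.odd_add_one]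
  · have h1 : (univ.filter fun r => a r ≠ b r) = insert i (univ.filter fun r => flp a i r ≠ b r) := by
      ext r
      simp only [Finset.mem_filter, Finset.mem_univ, true_and, Finset.mem_insert]
      by_cases hr : r = i
      · subst hr
        simp [h]
      · simp [flp, hr]
    have h2 : flp a i i = b i := by
      simp only [flp, Function.update_self]
      cases ha : a i <;> cases hb : b i <;> simp_all
    rw [h1, Finset.card_insert_of_notMem (by simp [h2]), Nat.odd_add_one, not_not]

private theorem b2a_od_comm {d : ℕ} (a b : Bt d) : od a b ↔ od b a := by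
  unfold od
  have : (univ.filter fun r => a r ≠ b r) = univ.filter fun r => b r ≠ a r := by
    ext r
    simp [ne_comm]
  rw [this]

private theorem b2a_od_flp' {d : ℕ} (a b : Bt d) (i : Fin d) : od a (flp b i) ↔ ¬ od a b := by
  rw [b2a_od_comm, b2a_od_flp, b2a_od_comm]

private theorem b2a_mem {d : ℕ} (p : Bt d × Bt d) : p ∈ oS (d := d) none ↔ od p.1 p.2 := by
  simp [oS, inS]

/-- free bits of an odd pair -/
private abbrev B2aK {d : ℕ} (l : Fin d) := Fin d ⊕ {i : Fin d // i ≠ l}

/-- restriction to the free bits -/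
private def b2aR {d : ℕ} (l : Fin d) (p : Bt d × Bt d) : B2aK l → Bool :=
  Sum.elim p.1 fun i => p.2 i.1

/-- extension by the bit `false` -/
private def b2aB {d : ℕ} (l : Fin d) (ω : B2aK l → Bool) : Bt d :=
  fun i => if h : i ≠ l then ω (Sum.inr ⟨i, h⟩) else false

open scoped Classical in
/-- the odd pair with given free bits -/
private noncomputable def b2aE {d : ℕ} (l : Fin d) (ω : B2aK l → Bool) : Bt d × Bt d :=
  (fun i => ω (Sum.inl i),
    if od (fun i => ω (Sum.inl i)) (b2aB l ω) then b2aB l ω else flp (b2aB l ω) l)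

private theorem b2aE_mem {d : ℕ} (l : Fin d) (ω : B2aK l → Bool) : b2aE l ω ∈ oS (d := d) none := by
  rw [b2a_mem]
  unfold b2aE
  dsimp only
  split_ifs with h
  · exact h
  · rw [b2a_od_flp']
    exact h

private theorem b2aR_E {d : ℕ} (l : Fin d) (ω : B2aK l → Bool) : b2aR l (b2aE l ω) = ω := by
  funext x
  rcases x with i | i
  · rfl
  · have hi : b2aB l ω i.1 = ω (Sum.inr i) := by
      unfold b2aB
      rw [dif_pos i.2]
    unfold b2aR b2aE
    simp only [Sum.elim_inr]
    split_ifs with h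
    · exact hi
    · unfold flp
      rw [Function.update_of_ne i.2]
      exact hi

private theorem b2aE_R {d : ℕ} (l : Fin d) (p : Bt d × Bt d) (hp : p ∈ oS (d := d) none) :
    b2aE l (b2aR l p) = p := by
  rw [b2a_mem] at hp
  have hB : b2aB l (b2aR l p) = Function.update p.2 l false := by
    funext i
    unfold b2aB b2aR
    by_cases h : i = l
    · subst h
      simp
    · simp [h]
  have h1 : (fun i => b2aR l p (Sum.inl i)) = p.1 := by
    funext i
    rfl
  unfold b2aE
  rw [h1, hB]
  refine Prod.ext rfl ?_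
  dsimp only
  cases hl : p.2 l
  · have h2 : Function.update p.2 l false = p.2 := by
      rw [← hl, Function.update_eq_self]
    rw [h2, if_pos hp]
  · have h2 : Function.update p.2 l false = flp p.2 l := by
      unfold flp
      rw [hl]
      rfl
    rw [h2, if_neg (by rw [b2a_od_flp']; exact not_not.2 hp), b2a_flp_flp]

private theorem b2a_sum {d : ℕ} (l : Fin d) (H : Bt d × Bt d → ℝ) :
    ∑ ω : B2aK l → Bool, H (b2aE l ω) = ∑ p ∈ oS (d := d) none, H p := by
  classical
  refine Finset.sum_nbij' (b2aE l) (b2aR l) (fun ω _ => b2aE_mem l ω) (fun p _ => Finset.mem_univ _)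
    (fun ω _ => b2aR_E l ω) (fun p hp => b2aE_R l p hp) fun ω _ => rfl

private theorem b2a_flip_inl {d : ℕ} (l : Fin d) (ω : B2aK l → Bool) (i : Fin d) :
    b2aE l (Function.update ω (Sum.inl i) (!ω (Sum.inl i))) =
      (flp (b2aE l ω).1 i, flp (b2aE l ω).2 l) := by
  have hm := b2aE_mem l ω
  rw [b2a_mem] at hm
  have hm2 : ((flp (b2aE l ω).1 i, flp (b2aE l ω).2 l) : Bt d × Bt d) ∈ oS (d := d) none := by
    rw [b2a_mem]
    dsimp only
    rw [b2a_od_flp, b2a_od_flp', not_not]
    exact hm
  rw [← b2aE_R l _ hm2]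
  congr 1
  have hR := b2aR_E l ω
  funext x
  rcases x with j | j
  · have h1 : (b2aE l ω).1 = fun i => ω (Sum.inl i) := rfl
    unfold b2aR
    simp only [Sum.elim_inl]
    rw [h1]
    unfold flp
    by_cases h : j = i
    · subst h
      simp
    · have h' : (Sum.inl j : B2aK l) ≠ Sum.inl i := fun hh => h (Sum.inl.inj hh)
      rw [Function.update_of_ne h', Function.update_of_ne h]
  · have h1 : (b2aE l ω).2 j.1 = ω (Sum.inr j) := by
      have := congrFun hR (Sum.inr j)
      exact this
    unfold b2aR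
    simp only [Sum.elim_inr]
    unfold flp
    rw [Function.update_of_ne j.2, h1, Function.update_of_ne (by simp)]

private theorem b2a_flip_inr {d : ℕ} (l : Fin d) (ω : B2aK l → Bool) (i : {i : Fin d // i ≠ l}) :
    b2aE l (Function.update ω (Sum.inr i) (!ω (Sum.inr i))) =
      ((b2aE l ω).1, flp (flp (b2aE l ω).2 i.1) l) := by
  have hm := b2aE_mem l ω
  rw [b2a_mem] at hm
  have hm2 : (((b2aE l ω).1, flp (flp (b2aE l ω).2 i.1) l) : Bt d × Bt d) ∈ oS (d := d) none := by
    rw [b2a_mem]
    dsimp only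
    rw [b2a_od_flp', b2a_od_flp', not_not]
    exact hm
  rw [← b2aE_R l _ hm2]
  congr 1
  have hR := b2aR_E l ω
  funext x
  rcases x with j | j
  · have h1 : (b2aE l ω).1 = fun i => ω (Sum.inl i) := rfl
    unfold b2aR
    simp only [Sum.elim_inl]
    rw [h1, Function.update_of_ne (by simp)]
  · have h1 : ∀ j : {i : Fin d // i ≠ l}, (b2aE l ω).2 j.1 = ω (Sum.inr j) := by
      intro j
      have := congrFun hR (Sum.inr j)
      exact this
    unfold b2aR
    simp only [Sum.elim_inr]
    unfold flp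
    rw [Function.update_of_ne j.2]
    by_cases h : j = i
    · subst h
      rw [Function.update_self, Function.update_self, h1]
    · have h' : (Sum.inr j : B2aK l) ≠ Sum.inr i := fun hh => h (Sum.inr.inj hh)
      have h'' : j.1 ≠ i.1 := fun hh => h (Subtype.ext hh)
      rw [Function.update_of_ne h', Function.update_of_ne h'', h1]

theorem es_odd {d : ℕ} (hd : 2 ≤ d) (l : Fin d) (G : Bt d → Bt d → ℝ) :
    (∑ p ∈ oS (d := d) none, G p.1 p.2 ^ 2) / ((oS (d := d) none).card : ℝ) -
        ((∑ p ∈ oS (d := d) none, G p.1 p.2) / ((oS (d := d) none).card : ℝ)) ^ 2 ≤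
      1 / 4 * (∑ i, (∑ p ∈ oS (d := d) none, (G (flp p.1 i) (flp p.2 l) - G p.1 p.2) ^ 2) / ((oS (d := d) none).card : ℝ) +
        ∑ i ∈ univ.erase l, (∑ p ∈ oS (d := d) none, (G p.1 (flp (flp p.2 i) l) - G p.1 p.2) ^ 2) /
          ((oS (d := d) none).card : ℝ)) := by
  classical
  have hcard : ((oS (d := d) none).card : ℝ) = 2 ^ Fintype.card (B2aK l) := by
    have h := b2a_sum l fun _ => (1 : ℝ)
    simp only [Finset.sum_const, Finset.card_univ, Fintype.card_fun, Fintype.card_bool, nsmul_eq_mul, mul_one] at h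
    rw [← h]
    push_cast
    rfl
  have key := es_bits (ι := B2aK l) fun ω => G (b2aE l ω).1 (b2aE l ω).2
  rw [← hcard] at key
  have e1 := b2a_sum l fun p => G p.1 p.2 ^ 2
  have e2 := b2a_sum l fun p => G p.1 p.2
  have e3 : ∀ i : Fin d, ∑ ω : B2aK l → Bool,
      (G (b2aE l (Function.update ω (Sum.inl i) (!ω (Sum.inl i)))).1
        (b2aE l (Function.update ω (Sum.inl i) (!ω (Sum.inl i)))).2 - G (b2aE l ω).1 (b2aE l ω).2) ^ 2 =
      ∑ p ∈ oS (d := d) none, (G (flp p.1 i) (flp p.2 l) - G p.1 p.2) ^ 2 := by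
    intro i
    rw [← b2a_sum l fun p => (G (flp p.1 i) (flp p.2 l) - G p.1 p.2) ^ 2]
    refine Finset.sum_congr rfl fun ω _ => ?_
    rw [b2a_flip_inl]
  have e4 : ∀ i : {i : Fin d // i ≠ l}, ∑ ω : B2aK l → Bool,
      (G (b2aE l (Function.update ω (Sum.inr i) (!ω (Sum.inr i)))).1
        (b2aE l (Function.update ω (Sum.inr i) (!ω (Sum.inr i)))).2 - G (b2aE l ω).1 (b2aE l ω).2) ^ 2 =
      ∑ p ∈ oS (d := d) none, (G p.1 (flp (flp p.2 i.1) l) - G p.1 p.2) ^ 2 := by
    intro i
    rw [← b2a_sum l fun p => (G p.1 (flp (flp p.2 i.1) l) - G p.1 p.2) ^ 2]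
    refine Finset.sum_congr rfl fun ω _ => ?_
    rw [b2a_flip_inr]
  rw [Fintype.sum_sum_type] at key
  simp only [e3, e4] at key
  rw [e1, e2] at key
  have e5 : ∑ i ∈ univ.erase l, (∑ p ∈ oS (d := d) none, (G p.1 (flp (flp p.2 i) l) - G p.1 p.2) ^ 2) /
          ((oS (d := d) none).card : ℝ) =
      ∑ i : {i : Fin d // i ≠ l}, (∑ p ∈ oS (d := d) none, (G p.1 (flp (flp p.2 i.1) l) - G p.1 p.2) ^ 2) /
          ((oS (d := d) none).card : ℝ) := by
    refine Finset.sum_subtype _ (fun i => ?_) _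
    simp
  rw [e5]
  exact key

end Pool.Agent.THR
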