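import Pool.Agent.Lib_MP_2c424f_thr.B1
import Pool.Agent.Lib_MP_2c424f_thr.B2a
import Pool.Agent.Lib_MP_2c424f_thr.B0

/-!
# THR B2: variance in the blocks (paper proof: B2)

`es_odd` for `G a b = φ (pt t a b)` and some fixed direction `l`.  By `LO.pt_flp`, `pt t (flp a i) (flp b l) = pt t a b + sv (i, !a i) + sv (l, !b l)`, and
`pt t a (flp (flp b i) l) = pt t a b + sv (i, !b i) + sv (l, !b l)` for `i ≠ l`.  So every squared difference is at most
`∑_{β,β'} (φ (x + sv (i,β) + sv (l,β')) - φ x)²`, `x = pt t a b`, and by `LO.sum_pt`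
`∑_t ∑_{a,b} (..) ≤ 2^d ∑_{β,β'} ∑_x (φ (x + sv (i,β) + sv (l,β')) - φ x)²`; with `y = x + sv (l,β')`, `x = y + sv (l, !β')` this is `2^d · 4 · D N'`, `N' = NN d (k+1) = 2^d NN d k`.
Total: `(1/4) · (2/4^d) · 2d · 2^d · 4 · D · 2^d NN d k = 4 d D NN d k`.
-/

set_option autoImplicit false

open Finset Filter

namespace Pool.Agent.THR

open Pool.Agent.LO Pool.Agent.LIN

/-- all squared differences over two steps in the directions `i`, `l` -/
private noncomputable def B2_Q {d k : ℕ} (φ : Site d (k + 1) → ℝ) (i l : Fin d) (x : Site d (k + 1)) : ℝ :=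
  ∑ β : Bool, ∑ β' : Bool, (φ (x + sv (i, β) + sv (l, β')) - φ x) ^ 2

private theorem B2_Q_nonneg {d k : ℕ} (φ : Site d (k + 1) → ℝ) (i l : Fin d) (x : Site d (k + 1)) :
    0 ≤ B2_Q φ i l x :=
  Finset.sum_nonneg fun _ _ => Finset.sum_nonneg fun _ _ => sq_nonneg _

private theorem B2_Q_ge {d k : ℕ} (φ : Site d (k + 1) → ℝ) (i l : Fin d) (x : Site d (k + 1)) (β β' : Bool) :
    (φ (x + sv (i, β) + sv (l, β')) - φ x) ^ 2 ≤ B2_Q φ i l x := by
  unfold B2_Q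
  refine le_trans ?_ (Finset.single_le_sum (f := fun β : Bool =>
    ∑ β' : Bool, (φ (x + sv (i, β) + sv (l, β')) - φ x) ^ 2) (fun _ _ => Finset.sum_nonneg fun _ _ => sq_nonneg _)
    (Finset.mem_univ β))
  exact Finset.single_le_sum (f := fun β' : Bool => (φ (x + sv (i, β) + sv (l, β')) - φ x) ^ 2)
    (fun _ _ => sq_nonneg _) (Finset.mem_univ β')

private theorem B2_sv {d k : ℕ} (l : Fin d) (β : Bool) : (sv (l, β) : Site d k) + sv (l, !β) = 0 := by
  unfold sv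
  rw [← Pi.single_add]
  cases β <;> simp

private theorem B2_Q_sum {d k : ℕ} (D : ℝ) (φ : Site d (k + 1) → ℝ)
    (h : ∀ σ τ : Stp d, ∑ x : Site d (k + 1), (φ (x + sv σ) - φ (x + sv τ)) ^ 2 ≤ D * NN d (k + 1)) (i l : Fin d) :
    ∑ x : Site d (k + 1), B2_Q φ i l x ≤ 4 * (D * NN d (k + 1)) := by
  unfold B2_Q
  rw [Finset.sum_comm]
  have h1 : ∀ β β' : Bool, ∑ x : Site d (k + 1), (φ (x + sv (i, β) + sv (l, β')) - φ x) ^ 2 ≤ D * NN d (k + 1) := by
    intro β β'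
    rw [← Equiv.sum_comp (Equiv.addRight (sv (l, !β') : Site d (k + 1)))]
    refine le_trans (le_of_eq ?_) (h (i, β) (l, !β'))
    refine Finset.sum_congr rfl fun x _ => ?_
    have h2 : (Equiv.addRight (sv (l, !β') : Site d (k + 1))) x = x + sv (l, !β') := rfl
    rw [h2]
    have h3 : x + sv (l, !β') + sv (i, β) + sv (l, β') = x + sv (i, β) := by
      have h4 := B2_sv (k := k + 1) l β'
      calc x + sv (l, !β') + sv (i, β) + sv (l, β') = x + sv (i, β) + (sv (l, β') + sv (l, !β')) := by abel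
        _ = x + sv (i, β) := by rw [h4, add_zero]
    rw [h3]
  calc ∑ β : Bool, ∑ x : Site d (k + 1), ∑ β' : Bool, (φ (x + sv (i, β) + sv (l, β')) - φ x) ^ 2
      = ∑ β : Bool, ∑ β' : Bool, ∑ x : Site d (k + 1), (φ (x + sv (i, β) + sv (l, β')) - φ x) ^ 2 :=
        Finset.sum_congr rfl fun β _ => Finset.sum_comm
    _ ≤ ∑ _β : Bool, ∑ _β' : Bool, D * NN d (k + 1) :=
        Finset.sum_le_sum fun β _ => Finset.sum_le_sum fun β' _ => h1 β β'
    _ = 4 * (D * NN d (k + 1)) := by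
        simp only [Fintype.sum_bool]
        ring

private theorem B2_all {d k : ℕ} (F : Site d (k + 1) → ℝ) (hF : ∀ x, 0 ≤ F x) (t : Blk d k) :
    ∑ p ∈ oS (d := d) none, F (pt t p.1 p.2) ≤ ∑ a : Bt d, ∑ b : Bt d, F (pt t a b) := by
  rw [← Fintype.sum_prod_type' (f := fun a b => F (pt t a b))]
  exact Finset.sum_le_sum_of_subset_of_nonneg (Finset.subset_univ _) fun p _ _ => hF _

theorem var_blocks {d k : ℕ} (hd : 2 ≤ d) (hk : 1 ≤ k) (D : ℝ) (φ : Site d (k + 1) → ℝ)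
    (h : ∀ σ τ : Stp d, ∑ x : Site d (k + 1), (φ (x + sv σ) - φ (x + sv τ)) ^ 2 ≤ D * NN d (k + 1)) :
    ∑ t : Blk d k, (Ms none t (fun x => φ x ^ 2) - Ms none t φ ^ 2) ≤ 4 * d * D * NN d k := by
  classical
  let l : Fin d := ⟨0, by omega⟩
  have hS : ((oS (d := d) none).card : ℝ) = (4 : ℝ) ^ d / 2 := by
    rw [oS_card hd none, if_pos rfl]
  have hS0 : (0 : ℝ) < (4 : ℝ) ^ d / 2 := by positivity
  -- one block
  have h1 : ∀ t : Blk d k, Ms none t (fun x => φ x ^ 2) - Ms none t φ ^ 2 ≤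
      1 / 4 * (∑ i, (∑ a : Bt d, ∑ b : Bt d, B2_Q φ i l (pt t a b)) / ((4 : ℝ) ^ d / 2) +
        ∑ i, (∑ a : Bt d, ∑ b : Bt d, B2_Q φ i l (pt t a b)) / ((4 : ℝ) ^ d / 2)) := by
    intro t
    have e := es_odd hd l (fun a b => φ (pt t a b))
    rw [hS] at e
    have e0 : Ms none t (fun x => φ x ^ 2) - Ms none t φ ^ 2 =
        (∑ p ∈ oS (d := d) none, φ (pt t p.1 p.2) ^ 2) / ((4 : ℝ) ^ d / 2) -
          ((∑ p ∈ oS (d := d) none, φ (pt t p.1 p.2)) / ((4 : ℝ) ^ d / 2)) ^ 2 := by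
      unfold Ms
      rw [hS]
    rw [e0]
    refine le_trans e ?_
    apply mul_le_mul_of_nonneg_left _ (by norm_num)
    have hA : ∀ i : Fin d, (∑ p ∈ oS (d := d) none, (φ (pt t (flp p.1 i) (flp p.2 l)) - φ (pt t p.1 p.2)) ^ 2) /
        ((4 : ℝ) ^ d / 2) ≤ (∑ a : Bt d, ∑ b : Bt d, B2_Q φ i l (pt t a b)) / ((4 : ℝ) ^ d / 2) := by
      intro i
      apply div_le_div_of_nonneg_right _ hS0.le
      refine le_trans ?_ (B2_all (B2_Q φ i l) (B2_Q_nonneg φ i l) t)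
      refine Finset.sum_le_sum fun p _ => ?_
      have e1 : pt t (flp p.1 i) (flp p.2 l) = pt t p.1 p.2 + sv (i, !p.1 i) + sv (l, !p.2 l) := by
        rw [(pt_flp t p.1 (flp p.2 l) i).1, (pt_flp t p.1 p.2 l).2]
        abel
      rw [e1]
      exact B2_Q_ge φ i l _ _ _
    have hB : ∀ i ∈ univ.erase l, (∑ p ∈ oS (d := d) none,
        (φ (pt t p.1 (flp (flp p.2 i) l)) - φ (pt t p.1 p.2)) ^ 2) /
        ((4 : ℝ) ^ d / 2) ≤ (∑ a : Bt d, ∑ b : Bt d, B2_Q φ i l (pt t a b)) / ((4 : ℝ) ^ d / 2) := by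
      intro i hi
      apply div_le_div_of_nonneg_right _ hS0.le
      refine le_trans ?_ (B2_all (B2_Q φ i l) (B2_Q_nonneg φ i l) t)
      refine Finset.sum_le_sum fun p _ => ?_
      have e1 : pt t p.1 (flp (flp p.2 i) l) = pt t p.1 p.2 + sv (i, !p.2 i) + sv (l, !(flp p.2 i) l) := by
        rw [(pt_flp t p.1 (flp p.2 i) l).2, (pt_flp t p.1 p.2 i).2]
      rw [e1]
      exact B2_Q_ge φ i l _ _ _
    refine add_le_add (Finset.sum_le_sum fun i _ => hA i) ?_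
    refine le_trans (Finset.sum_le_sum hB) ?_
    apply Finset.sum_le_sum_of_subset_of_nonneg (Finset.erase_subset _ _)
    intro i _ _
    exact div_nonneg (Finset.sum_nonneg fun a _ => Finset.sum_nonneg fun b _ => B2_Q_nonneg φ i l _) hS0.le
  -- sum over the blocks
  have h2 : ∀ i : Fin d, ∑ t : Blk d k, (∑ a : Bt d, ∑ b : Bt d, B2_Q φ i l (pt t a b)) / ((4 : ℝ) ^ d / 2) ≤
      8 * D * NN d k := by
    intro i
    rw [← Finset.sum_div, div_le_iff₀ hS0]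
    have e := sum_pt (d := d) (k := k) (fun x _ => B2_Q φ i l x)
    rw [e]
    have e2 : ∑ x : Site d (k + 1), ∑ _b : Bt d, B2_Q φ i l x = 2 ^ d * ∑ x : Site d (k + 1), B2_Q φ i l x := by
      rw [Finset.mul_sum]
      refine Finset.sum_congr rfl fun x _ => ?_
      rw [Finset.sum_const, Finset.card_univ, nsmul_eq_mul, Fintype.card_fun, Fintype.card_bool, Fintype.card_fin]
      push_cast
      ring
    rw [e2]
    have e3 := mul_le_mul_of_nonneg_left (B2_Q_sum D φ h i l) (by positivity : (0 : ℝ) ≤ 2 ^ d)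
    refine le_trans e3 (le_of_eq ?_)
    rw [NN_succ]
    have e4 : (4 : ℝ) ^ d = 2 ^ d * 2 ^ d := by
      rw [← mul_pow]
      norm_num
    rw [e4]
    ring
  calc ∑ t : Blk d k, (Ms none t (fun x => φ x ^ 2) - Ms none t φ ^ 2)
      ≤ ∑ t : Blk d k, 1 / 4 * (∑ i, (∑ a : Bt d, ∑ b : Bt d, B2_Q φ i l (pt t a b)) / ((4 : ℝ) ^ d / 2) +
        ∑ i, (∑ a : Bt d, ∑ b : Bt d, B2_Q φ i l (pt t a b)) / ((4 : ℝ) ^ d / 2)) :=
        Finset.sum_le_sum fun t _ => h1 t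
    _ = 1 / 2 * ∑ i, ∑ t : Blk d k, (∑ a : Bt d, ∑ b : Bt d, B2_Q φ i l (pt t a b)) / ((4 : ℝ) ^ d / 2) := by
        rw [← Finset.mul_sum, Finset.sum_add_distrib, Finset.sum_comm]
        ring
    _ ≤ 1 / 2 * ∑ _i : Fin d, 8 * D * NN d k := by
        apply mul_le_mul_of_nonneg_left (Finset.sum_le_sum fun i _ => h2 i) (by norm_num)
    _ = 4 * d * D * NN d k := by
        rw [Finset.sum_const, Finset.card_univ, Fintype.card_fin, nsmul_eq_mul]
        ring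

end Pool.Agent.THR
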