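import Pool.Agent.Lib_MP_2c424f_thr.B1
import Pool.Agent.Lib_MP_2c424f_thr.B0

/-!
# THR B3a: weights of the points (paper proof: B3)

`Ww s t x` = proportion of the odd pairs of the shape whose point is `x`.
* `Ww_repr`: `Ms s t φ = ∑_x Ww s t x φ x`.
* `Ww_max`: a point of the block is `pt t a b` for at most `2^d` pairs (for every `b` at most one `a`), in a face for at most `2^(d-1)` pairs; `|oS| = 4^d/2` resp. `4^(d-1)/2`: at most
  `2/2^d` resp. `4/2^d`.
* `Ww_sum`: for every `x` and `b` there is exactly one `(t, a)` with `pt t a b = x` (`LO.sum_pt` with `H y b = 1[y = x]`, restricted to the bit vectors `b` of the face), so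
  `∑_t Ww s t x ≤ 2^d/(4^d/2)` resp. `2^(d-1)/(4^(d-1)/2)`.
* `Ww_par`: odd sites only (`LO.evn_pt`).
-/

set_option autoImplicit false

open Finset Filter

namespace Pool.Agent.THR

open Pool.Agent.LO Pool.Agent.LIN

variable {d k : ℕ}

open scoped Classical in
/-- weight of a site in the block mean -/
noncomputable def Ww (s : Shp d) (t : Blk d k) (x : Site d (k + 1)) : ℝ :=
  (((oS s).filter fun p => pt t p.1 p.2 = x).card : ℝ) / ((oS s).card : ℝ)

open scoped Classical in
private noncomputable def B3a_ok (s : Shp d) : Finset (Bt d) :=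
  univ.filter fun b => ∀ j β, s = some (j, β) → b j = β

private theorem B3a_ok_card (s : Shp d) : ((B3a_ok s).card : ℝ) = if s = none then (2 : ℝ) ^ d else (2 : ℝ) ^ (d - 1) := by
  classical
  cases s with
  | none =>
    rw [if_pos rfl]
    have : B3a_ok (none : Shp d) = univ := by
      unfold B3a_ok
      ext b
      simp
    rw [this, Finset.card_univ, Fintype.card_fun, Fintype.card_bool, Fintype.card_fin]
    push_cast
    rfl
  | some jb =>
    obtain ⟨j, β⟩ := jb
    rw [if_neg (by simp)]
    have h1 : B3a_ok (some (j, β) : Shp d) = Fintype.piFinset (fun i => if i = j then ({β} : Finset Bool) else univ) := by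
      unfold B3a_ok
      ext b
      simp only [mem_filter, mem_univ, true_and, Option.some.injEq, Prod.mk.injEq, Fintype.mem_piFinset]
      constructor
      · intro h i
        by_cases hi : i = j
        · subst hi
          rw [if_pos rfl, mem_singleton]
          exact h i β ⟨rfl, rfl⟩
        · rw [if_neg hi]
          exact mem_univ _
      · rintro h j' β' ⟨h1, h2⟩
        subst h1 h2
        have := h j
        rw [if_pos rfl, mem_singleton] at this
        exact this
    rw [h1, Fintype.card_piFinset]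
    have h2 : ∀ i : Fin d, (if i = j then ({β} : Finset Bool) else univ).card = if i = j then 1 else 2 := by
      intro i
      by_cases hi : i = j
      · rw [if_pos hi, if_pos hi, card_singleton]
      · rw [if_neg hi, if_neg hi, Finset.card_univ, Fintype.card_bool]
    rw [Finset.prod_congr rfl fun i _ => h2 i, Finset.prod_ite, Finset.prod_const_one, one_mul, Finset.prod_const]
    have h3 : (univ.filter fun i : Fin d => ¬ i = j).card = d - 1 := by
      rw [Finset.filter_not, Finset.card_sdiff_of_subset (Finset.filter_subset _ _), Finset.card_univ, Fintype.card_fin]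
      congr 1
      rw [Finset.card_eq_one]
      exact ⟨j, by ext i; simp⟩
    rw [h3]
    push_cast
    rfl

private theorem B3a_mem_ok {s : Shp d} {a b : Bt d} (h : inS s a b) : b ∈ B3a_ok s := by
  classical
  unfold B3a_ok
  rw [mem_filter]
  refine ⟨mem_univ _, ?_⟩
  rintro j β rfl
  exact h.2

private theorem B3a_mem_oS {s : Shp d} {p : Bt d × Bt d} : p ∈ oS s ↔ od p.1 p.2 ∧ inS s p.1 p.2 := by
  classical
  unfold oS
  simp

private theorem B3a_ratio (hd : 2 ≤ d) (s : Shp d) : ((B3a_ok s).card : ℝ) / ((oS s).card : ℝ) ≤ 4 / 2 ^ d := by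
  rw [B3a_ok_card, oS_card hd]
  by_cases hs : s = none
  · rw [if_pos hs, if_pos hs]
    have h4 : (4 : ℝ) ^ d = 2 ^ d * 2 ^ d := by rw [← mul_pow]; norm_num
    rw [h4, div_le_div_iff₀ (by positivity) (by positivity)]
    have : (0:ℝ) < 2 ^ d := by positivity
    nlinarith
  · rw [if_neg hs, if_neg hs]
    have h4 : (4 : ℝ) ^ (d - 1) = 2 ^ (d - 1) * 2 ^ (d - 1) := by rw [← mul_pow]; norm_num
    have h5 : (2 : ℝ) ^ d = 2 * 2 ^ (d - 1) := by
      rw [← pow_succ']
      congr 1
      omega
    rw [h4, h5, div_le_div_iff₀ (by positivity) (by positivity)]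
    have : (0:ℝ) < 2 ^ (d - 1) := by positivity
    nlinarith

private theorem B3a_bv_inj : Function.Injective (bv : Bt d → Site d (k + 1)) := by
  intro a a' h
  funext i
  have h1 := congrFun h i
  unfold bv at h1
  have h2 : (1 : ZMod (2 ^ (k + 1))) ≠ 0 := by
    have : Fact (1 < 2 ^ (k + 1)) := ⟨Nat.one_lt_two_pow (by omega)⟩
    exact one_ne_zero
  cases ha : a i <;> cases ha' : a' i <;> simp only [ha, ha', if_true, Bool.false_eq_true, if_false] at h1 ⊢
  · exact absurd h1.symm h2
  · exact absurd h1 h2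

private theorem B3a_pt_inj (t : Blk d k) (a a' b : Bt d) (h : pt t a b = pt t a' b) : a = a' := by
  unfold pt at h
  have h1 : bas t + bv a = bas t + bv a' := add_right_cancel h
  exact B3a_bv_inj (add_left_cancel h1)

theorem Ww_nonneg (s : Shp d) (t : Blk d k) (x : Site d (k + 1)) : 0 ≤ Ww s t x := by
  unfold Ww
  positivity

theorem Ww_repr (s : Shp d) (t : Blk d k) (φ : Site d (k + 1) → ℝ) : Ms s t φ = ∑ x, Ww s t x * φ x := by
  classical
  unfold Ms Ww
  have h1 : ∑ p ∈ oS s, φ (pt t p.1 p.2) =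
      ∑ x : Site d (k + 1), (((oS s).filter fun p => pt t p.1 p.2 = x).card : ℝ) * φ x := by
    rw [← Finset.sum_fiberwise (oS s) (fun p => pt t p.1 p.2)]
    refine Finset.sum_congr rfl fun x _ => ?_
    rw [Finset.sum_congr rfl (fun p hp => by rw [(Finset.mem_filter.1 hp).2] : ∀ p ∈ (oS s).filter
      (fun p => pt t p.1 p.2 = x), φ (pt t p.1 p.2) = φ x)]
    rw [Finset.sum_const, nsmul_eq_mul]
  rw [h1, Finset.sum_div]
  refine Finset.sum_congr rfl fun x _ => ?_
  rw [div_mul_eq_mul_div]

theorem Ww_one (hd : 2 ≤ d) (s : Shp d) (t : Blk d k) : ∑ x, Ww s t x = 1 := by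
  have h := Ww_repr s t (fun _ : Site d (k + 1) => (1 : ℝ))
  rw [Ms_const hd] at h
  simp only [mul_one] at h
  exact h.symm

theorem Ww_max (hd : 2 ≤ d) (s : Shp d) (t : Blk d k) (x : Site d (k + 1)) : Ww s t x ≤ 4 / 2 ^ d := by
  classical
  unfold Ww
  refine le_trans ?_ (B3a_ratio hd s)
  refine div_le_div_of_nonneg_right ?_ (Nat.cast_nonneg _)
  have h : ((oS s).filter fun p => pt t p.1 p.2 = x).card ≤ (B3a_ok s).card := by
    refine Finset.card_le_card_of_injOn (fun p => p.2) ?_ ?_
    · intro p hp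
      have hp' := Finset.mem_filter.1 (Finset.mem_coe.1 hp)
      exact B3a_mem_ok (B3a_mem_oS.1 hp'.1).2
    · rintro ⟨a, b⟩ hp ⟨a', b'⟩ hp' hb
      have h1 := (Finset.mem_filter.1 (Finset.mem_coe.1 hp)).2
      have h2 := (Finset.mem_filter.1 (Finset.mem_coe.1 hp')).2
      simp only at hb h1 h2
      subst hb
      rw [B3a_pt_inj t a a' b (h1.trans h2.symm)]
  exact_mod_cast h

theorem Ww_sum (hd : 2 ≤ d) (s : Shp d) (x : Site d (k + 1)) : ∑ t : Blk d k, Ww s t x ≤ 4 / 2 ^ d := by
  classical
  unfold Ww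
  rw [← Finset.sum_div]
  refine le_trans ?_ (B3a_ratio hd s)
  refine div_le_div_of_nonneg_right ?_ (Nat.cast_nonneg _)
  have h := sum_pt (d := d) (k := k) (fun y b => if y = x ∧ b ∈ B3a_ok s then (1:ℝ) else 0)
  have hR : ∑ y : Site d (k + 1), ∑ b : Bt d, (if y = x ∧ b ∈ B3a_ok s then (1:ℝ) else 0) = (B3a_ok s).card := by
    rw [Finset.sum_eq_single x]
    · simp only [true_and]
      rw [← Finset.sum_filter, Finset.filter_univ_mem, Finset.sum_const, nsmul_eq_mul, mul_one]
    · intro y _ hy
      refine Finset.sum_eq_zero fun b _ => ?_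
      rw [if_neg]
      rintro ⟨h1, _⟩
      exact hy h1
    · intro hx
      exact absurd (mem_univ _) hx
  rw [← hR, ← h]
  refine Finset.sum_le_sum fun t _ => ?_
  rw [Finset.card_filter]
  push_cast
  unfold oS
  rw [Finset.sum_filter, ← Finset.univ_product_univ, Finset.sum_product]
  refine Finset.sum_le_sum fun a _ => Finset.sum_le_sum fun b _ => ?_
  by_cases h1 : od a b ∧ inS s a b
  · rw [if_pos h1]
    have h2 : b ∈ B3a_ok s := B3a_mem_ok h1.2
    by_cases h3 : pt t a b = x
    · rw [if_pos h3, if_pos ⟨h3, h2⟩]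
    · rw [if_neg h3]
      positivity
  · rw [if_neg h1]
    positivity

theorem Ww_par (s : Shp d) (t : Blk d k) (x : Site d (k + 1)) (hx : x ∉ cls false d (k + 1)) : Ww s t x = 0 := by
  classical
  unfold Ww
  have h1 : ((oS s).filter fun p => pt t p.1 p.2 = x) = ∅ := by
    rw [Finset.filter_eq_empty_iff]
    intro p hp hpx
    apply hx
    have hod := (B3a_mem_oS.1 hp).1
    show x ∈ cls false d (k + 1)
    unfold cls
    rw [if_neg (by simp)]
    unfold ods
    rw [mem_filter]
    refine ⟨mem_univ _, ?_⟩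
    rw [← hpx, evn_pt]
    exact not_not.2 hod
  rw [h1]
  simp

end Pool.Agent.THR
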