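import Pool.Agent.Lib_MP_2c424f_thr.M1

/-!
# THR B4: deterministic errors (paper proof: B4)

`f` good, `a = ra d q ≤ A0 ε`, `N = NN d k`.
* `gg - zz/al = zz (q/x) (al - x/q)/al`: at regular sites (`Rg`) `≤ (e^a/c1) |x/q - al|`, Cauchy-Schwarz with `avl`; at irregular sites `≤ q + e^a ≤ 2q`... and there are at most `N/d^4` of them (`irr4`),
  `q ≤ 2d`.
* `zt/al - ya = (zt - exp (-hh))/al` (`exp_hh`): at nice sites `≤ e^a a/(c1² q)` (`zt_exp`), at the other sites (at most `2 d irr`, `not_nice`) `≤ e^a` (`zt_exp'`).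
-/

set_option autoImplicit false

open Finset Filter

namespace Pool.Agent.THR

open Pool.Agent.LO Pool.Agent.LIN

private theorem B4_c1_pos (ε : ℝ) : 0 < c1 ε := by
  unfold c1
  have : (0 : ℝ) < (4 : ℝ) ^ (-A0 ε) := Real.rpow_pos_of_pos (by norm_num) _
  positivity

private theorem B4_inv {A x : ℝ} (h : Real.exp (-A) ≤ x) : 0 < x ∧ 1 / x ≤ Real.exp A := by
  have h0 : 0 < x := (Real.exp_pos _).trans_le h
  refine ⟨h0, ?_⟩
  rw [div_le_iff₀ h0]
  calc (1 : ℝ) = Real.exp A * Real.exp (-A) := by rw [← Real.exp_add]; simp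
    _ ≤ _ := mul_le_mul_of_nonneg_left h (Real.exp_pos _).le

private theorem B4_zz {d k q : ℕ} (f : Site d k → Fin q) (v : Site d k) (c : Fin q) :
    0 ≤ zz f v c ∧ zz f v c ≤ 1 := by
  unfold zz
  split_ifs
  · exact ⟨le_rfl, zero_le_one⟩
  · exact ⟨zero_le_one, le_rfl⟩

private theorem B4_pow {d : ℕ} (hd : 1 ≤ d) {C N : ℝ} (hC : 0 ≤ C) (hN : 0 ≤ N) :
    C * d * (N / (d : ℝ) ^ 4) ≤ C / d * N := by
  have hd' : (1 : ℝ) ≤ d := by exact_mod_cast hd
  have hd0 : (0 : ℝ) < d := by linarith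
  have h1 : C * d * (N / (d : ℝ) ^ 4) = C / d * N * (1 / (d : ℝ) ^ 2) := by
    field_simp
  have h2 : 1 / (d : ℝ) ^ 2 ≤ 1 := by
    rw [div_le_iff₀ (by positivity), one_mul]
    exact one_le_pow₀ hd'
  rw [h1]
  exact mul_le_of_le_one_right (by positivity) h2

theorem gg_det {ε : ℝ} (hε : 0 < ε) (hε1 : ε ≤ 1) (C₆ : ℝ) (t : ℕ) (δ : ℝ) (hδ : 0 < δ) : ∃ δ' : ℝ, 0 < δ' ∧
    EvT ε fun d k q => ∀ f ∈ prps d k q, Good ε δ' C₆ t f → ∀ c : Fin q,
      ∑ v : Site d k, |gg c f v - zz f v c / al f v| ≤ δ * NN d k := by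
  classical
  set E : ℝ := Real.exp (A0 ε) with hEdef
  have hE : 0 < E := Real.exp_pos _
  have hc1 := B4_c1_pos ε
  set s : ℝ := δ * c1 ε / (2 * E) with hsdef
  have hs : 0 < s := by positivity
  refine ⟨s ^ 2, by positivity, ?_⟩
  refine (EvT_reg hε hε1 (max 1 (2 * (2 + E) / δ))).mono ?_
  rintro d k q ⟨hdM, hqM, hkM, -, hq2, -, hraA, -⟩ f hf hG c
  have hd1 : (1 : ℝ) ≤ d := (le_max_left _ _).trans hdM
  have hq1 : (1 : ℝ) ≤ q := (le_max_left _ _).trans hqM
  have hdE : 2 * (2 + E) / δ ≤ d := (le_max_right _ _).trans hdM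
  have hd : 1 ≤ d := by exact_mod_cast hd1
  have hq : 1 ≤ q := by exact_mod_cast hq1
  have hqr : (0 : ℝ) < q := by linarith
  have hN : 0 ≤ NN d k := by unfold NN; positivity
  have hprp : Prp f := by simpa [prps] using hf
  have hal : ∀ v, 0 < al f v ∧ 1 / al f v ≤ E := fun v =>
    B4_inv ((Real.exp_le_exp.2 (by linarith : -A0 ε ≤ -ra d q)).trans (al_ge hq hprp v))
  -- one site
  have hone : ∀ v, |gg c f v - zz f v c / al f v| ≤
      E / c1 ε * |(av f v : ℝ) / q - al f v| +
        (q + E) * (if (av f v : ℝ) < c1 ε * q then (1 : ℝ) else 0) := by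
    intro v
    obtain ⟨h0, h1⟩ := hal v
    obtain ⟨z0, z1⟩ := B4_zz f v c
    have hav : (1 : ℝ) ≤ av f v := by exact_mod_cast av_pos hprp v
    have hav0 : (0 : ℝ) < av f v := by linarith
    split_ifs with hr
    · have e1 : |gg c f v| ≤ q := by
        unfold gg
        rw [abs_of_nonneg (by positivity), div_le_iff₀ hav0]
        calc (q : ℝ) * zz f v c ≤ q * 1 := mul_le_mul_of_nonneg_left z1 hqr.le
          _ ≤ q * av f v := mul_le_mul_of_nonneg_left hav hqr.le
      have e2 : |zz f v c / al f v| ≤ E := by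
        rw [abs_of_nonneg (by positivity)]
        calc zz f v c / al f v = zz f v c * (1 / al f v) := by ring
          _ ≤ 1 * (1 / al f v) := mul_le_mul_of_nonneg_right z1 (by positivity)
          _ ≤ E := by rw [one_mul]; exact h1
      have e3 := abs_sub (gg c f v) (zz f v c / al f v)
      have e4 : 0 ≤ E / c1 ε * |(av f v : ℝ) / q - al f v| := by positivity
      linarith
    · have hr' : c1 ε * q ≤ av f v := not_lt.1 hr
      have e1 : gg c f v - zz f v c / al f v =
          zz f v c * (q / av f v) * (1 / al f v) * (al f v - av f v / q) := by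
        unfold gg
        field_simp
      rw [e1, abs_mul, mul_zero, add_zero, abs_sub_comm (al f v)]
      refine mul_le_mul_of_nonneg_right ?_ (abs_nonneg _)
      rw [abs_of_nonneg (by positivity)]
      have e2 : (q : ℝ) / av f v ≤ 1 / c1 ε := by
        rw [div_le_div_iff₀ hav0 hc1]
        linarith
      calc zz f v c * (q / av f v) * (1 / al f v) ≤ 1 * (1 / c1 ε) * E := by
            refine mul_le_mul (mul_le_mul z1 e2 (by positivity) zero_le_one) h1 (by positivity)
              (by positivity)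
        _ = E / c1 ε := by ring
  have hav2 : ∑ v, |(av f v : ℝ) / q - al f v| ≤ s * NN d k := by
    have h3 : ∀ v, |(av f v : ℝ) / q - al f v| ≤
        ((av f v : ℝ) / q - al f v) ^ 2 / (2 * s) + s / 2 := by
      intro v
      set x := |(av f v : ℝ) / q - al f v| with hx
      have e1 : ((av f v : ℝ) / q - al f v) ^ 2 = x ^ 2 := (sq_abs _).symm
      rw [e1]
      have e2 : x ^ 2 / (2 * s) + s / 2 - x = (x - s) ^ 2 / (2 * s) := by
        field_simp
        ring
      have e3 : 0 ≤ (x - s) ^ 2 / (2 * s) := by positivity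
      linarith
    calc ∑ v, |(av f v : ℝ) / q - al f v|
        ≤ ∑ v : Site d k, (((av f v : ℝ) / q - al f v) ^ 2 / (2 * s) + s / 2) :=
          sum_le_sum fun v _ => h3 v
      _ = (∑ v : Site d k, ((av f v : ℝ) / q - al f v) ^ 2) / (2 * s) + NN d k * (s / 2) := by
          rw [sum_add_distrib, sum_div, sum_const, nsmul_eq_mul, card_univ, card_site]
      _ ≤ s ^ 2 * NN d k / (2 * s) + NN d k * (s / 2) :=
          add_le_add (div_le_div_of_nonneg_right hG.avl (by positivity)) le_rfl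
      _ = s * NN d k := by
          field_simp
          ring
  have hirr : ∑ v : Site d k, (if (av f v : ℝ) < c1 ε * q then (1 : ℝ) else 0) ≤
      NN d k / (d : ℝ) ^ 4 := by
    refine le_trans (le_of_eq ?_) hG.irr4
    unfold irr
    rw [sum_boole]
  calc ∑ v : Site d k, |gg c f v - zz f v c / al f v|
      ≤ ∑ v : Site d k, (E / c1 ε * |(av f v : ℝ) / q - al f v| +
        (q + E) * (if (av f v : ℝ) < c1 ε * q then (1 : ℝ) else 0)) := sum_le_sum fun v _ => hone v
    _ = E / c1 ε * ∑ v : Site d k, |(av f v : ℝ) / q - al f v| +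
        (q + E) * ∑ v : Site d k, (if (av f v : ℝ) < c1 ε * q then (1 : ℝ) else 0) := by
        rw [sum_add_distrib, mul_sum, mul_sum]
    _ ≤ E / c1 ε * (s * NN d k) + (q + E) * (NN d k / (d : ℝ) ^ 4) :=
        add_le_add (mul_le_mul_of_nonneg_left hav2 (by positivity))
          (mul_le_mul_of_nonneg_left hirr (by positivity))
    _ ≤ δ / 2 * NN d k + δ / 2 * NN d k := by
        refine add_le_add (le_of_eq ?_) ?_
        · rw [hsdef]
          field_simp
        · have e1 : (q : ℝ) + E ≤ (2 + E) * d := by nlinarith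
          calc (q + E) * (NN d k / (d : ℝ) ^ 4) ≤ (2 + E) * d * (NN d k / (d : ℝ) ^ 4) :=
                mul_le_mul_of_nonneg_right e1 (by positivity)
            _ ≤ (2 + E) / d * NN d k := B4_pow hd (by positivity) hN
            _ ≤ δ / 2 * NN d k := by
                refine mul_le_mul_of_nonneg_right ?_ hN
                rw [div_le_div_iff₀ (by linarith) (by norm_num)]
                rw [div_le_iff₀ hδ] at hdE
                linarith
    _ = δ * NN d k := by ring

theorem zt_det {ε : ℝ} (hε : 0 < ε) (hε1 : ε ≤ 1) (C₆ : ℝ) (t : ℕ) (δ : ℝ) (hδ : 0 < δ) :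
    EvT ε fun d k q => ∀ f ∈ prps d k q, irr ε f ≤ NN d k / (d : ℝ) ^ 4 → ∀ c : Fin q,
      ∑ v : Site d k, |zt f v c / al f v - ya c f v| ≤ δ * NN d k := by
  classical
  set E : ℝ := Real.exp (A0 ε) with hEdef
  have hE : 0 < E := Real.exp_pos _
  have hc1 := B4_c1_pos ε
  have hA0 : 0 < A0 ε := by unfold A0; positivity
  refine (EvT_reg hε hε1 (max (max 1 (2 / c1 ε))
    (max (4 * E / δ) (2 * E * A0 ε / (c1 ε ^ 2 * δ))))).mono ?_
  rintro d k q ⟨hdM, hqM, hkM, -, hq2, -, hraA, -⟩ f hf hG c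
  have hd1 : (1 : ℝ) ≤ d := ((le_max_left _ _).trans (le_max_left _ _)).trans hdM
  have hq1 : (1 : ℝ) ≤ q := ((le_max_left _ _).trans (le_max_left _ _)).trans hqM
  have hqc : 2 / c1 ε ≤ q := ((le_max_right _ _).trans (le_max_left _ _)).trans hqM
  have hdE : 4 * E / δ ≤ d := ((le_max_left _ _).trans (le_max_right _ _)).trans hdM
  have hqE : 2 * E * A0 ε / (c1 ε ^ 2 * δ) ≤ q :=
    ((le_max_right _ _).trans (le_max_right _ _)).trans hqM
  have hd : 1 ≤ d := by exact_mod_cast hd1
  have hq : 1 ≤ q := by exact_mod_cast hq1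
  have hqr : (0 : ℝ) < q := by linarith
  have hN : 0 ≤ NN d k := by unfold NN; positivity
  have hprp : Prp f := by simpa [prps] using hf
  have hra0 : 0 ≤ ra d q := by unfold ra; positivity
  have hal : ∀ v, 0 < al f v ∧ 1 / al f v ≤ E := fun v =>
    B4_inv ((Real.exp_le_exp.2 (by linarith : -A0 ε ≤ -ra d q)).trans (al_ge hq hprp v))
  have hone : ∀ v, |zt f v c / al f v - ya c f v| ≤
      E * (A0 ε / (c1 ε ^ 2 * q)) + E * (if ¬ Nc ε f v then (1 : ℝ) else 0) := by
    intro v
    obtain ⟨h0, h1⟩ := hal v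
    have e1 : zt f v c / al f v - ya c f v = (1 / al f v) * (zt f v c - Real.exp (-hh c f v)) := by
      rw [exp_hh hq f c v]
      field_simp
    rw [e1, abs_mul, abs_of_nonneg (by positivity : 0 ≤ 1 / al f v), ← mul_add]
    refine mul_le_mul h1 ?_ (abs_nonneg _) hE.le
    by_cases hn : Nc ε f v
    · rw [if_neg (not_not.2 hn), add_zero]
      refine (zt_exp hε hqc hprp c v hn).trans ?_
      exact div_le_div_of_nonneg_right hraA (by positivity)
    · rw [if_pos hn]
      have e2 := zt_exp' hprp c v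
      have e3 : 0 ≤ A0 ε / (c1 ε ^ 2 * q) := by positivity
      linarith
  have hnn : ∑ v : Site d k, (if ¬ Nc ε f v then (1 : ℝ) else 0) ≤
      2 * d * (NN d k / (d : ℝ) ^ 4) := by
    refine le_trans (le_of_eq ?_) ((not_nice ε f).trans
      (mul_le_mul_of_nonneg_left hG (by positivity)))
    rw [sum_boole]
  calc ∑ v : Site d k, |zt f v c / al f v - ya c f v|
      ≤ ∑ v : Site d k, (E * (A0 ε / (c1 ε ^ 2 * q)) +
        E * (if ¬ Nc ε f v then (1 : ℝ) else 0)) := sum_le_sum fun v _ => hone v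
    _ = NN d k * (E * (A0 ε / (c1 ε ^ 2 * q))) +
        E * ∑ v : Site d k, (if ¬ Nc ε f v then (1 : ℝ) else 0) := by
        rw [sum_add_distrib, sum_const, nsmul_eq_mul, card_univ, card_site, mul_sum]
    _ ≤ NN d k * (E * (A0 ε / (c1 ε ^ 2 * q))) + E * (2 * d * (NN d k / (d : ℝ) ^ 4)) :=
        add_le_add le_rfl (mul_le_mul_of_nonneg_left hnn hE.le)
    _ ≤ δ / 2 * NN d k + δ / 2 * NN d k := by
        refine add_le_add ?_ ?_
        · rw [mul_comm]
          refine mul_le_mul_of_nonneg_right ?_ hN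
          have e1 : E * (A0 ε / (c1 ε ^ 2 * q)) = E * A0 ε / (c1 ε ^ 2) / q := by
            field_simp
          rw [e1, div_le_iff₀ hqr]
          rw [div_le_iff₀ (by positivity)] at hqE
          rw [div_le_iff₀ (by positivity)]
          linarith
        · have e1 : E * (2 * d * (NN d k / (d : ℝ) ^ 4)) =
              (2 * E) * d * (NN d k / (d : ℝ) ^ 4) := by ring
          rw [e1]
          refine (B4_pow hd (by positivity) hN).trans (mul_le_mul_of_nonneg_right ?_ hN)
          rw [div_le_div_iff₀ (by linarith) (by norm_num)]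
          rw [div_le_iff₀ hδ] at hdE
          linarith
    _ = δ * NN d k := by ring

end Pool.Agent.THR
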