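import Pool.Agent.Lib_MP_2c424f_thr.B1
import Pool.Agent.Lib_MP_2c424f_thr.M1

/-!
# THR B5a: one block (paper proof: B5)

`y = ya c f`, `H = Ms none t G`: `Ms none t |y - G| ≤ √e₁`, `Ms none t |G - H| ≤ √e₂` (`Ms_sq`; `Ms none t ((G - H)²) = Ms none t (G²) - H²`), so `Ms none t |y - H| ≤ 2 √κ`, and `Ms s t |y - H| ≤ 8 √κ` for all `s` (`Ms_face`).
`dst3 m yM H ≤ e₃ + 2 √κ ≤ 3 √κ` (`dst3` is `1`-Lipschitz, `κ ≤ √κ`), so some `τ` of the three values has `|H - τ| ≤ 3 √κ`; `|Ms s t bq - τ| ≤ κ + 8 √κ + 3 √κ ≤ 12 √κ ≤ η`;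
`Ms none t 1[|y-τ| > η] ≤ Ms none t |y - τ|/η ≤ 5 √κ/η ≤ η`.
-/

set_option autoImplicit false

open Finset Filter

namespace Pool.Agent.THR

open Pool.Agent.LO Pool.Agent.LIN

private theorem B5a_dst {m yM y H : ℝ} : dst3 m yM H ≤ dst3 m yM y + |y - H| := by
  unfold dst3 dst2
  have h1 : |H - (1 - m)| ≤ |y - (1 - m)| + |y - H| := by
    have := abs_sub_abs_le_abs_sub (H - (1 - m)) (y - (1 - m))
    have h2 : |H - (1 - m) - (y - (1 - m))| = |y - H| := by
      rw [← abs_neg]
      congr 1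
      ring
    linarith
  have h2 : |H - (1 + m)| ≤ |y - (1 + m)| + |y - H| := by
    have := abs_sub_abs_le_abs_sub (H - (1 + m)) (y - (1 + m))
    have h2 : |H - (1 + m) - (y - (1 + m))| = |y - H| := by
      rw [← abs_neg]
      congr 1
      ring
    linarith
  have h3 : |H - yM| ≤ |y - yM| + |y - H| := by
    have := abs_sub_abs_le_abs_sub (H - yM) (y - yM)
    have h2 : |H - yM - (y - yM)| = |y - H| := by
      rw [← abs_neg]
      congr 1
      ring
    linarith
  rw [← min_add_add_right, ← min_add_add_right]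
  exact min_le_min (min_le_min h1 h2) h3

open scoped Classical in
/-- one block -/
theorem tau_one {d k q : ℕ} (hd : 2 ≤ d) (η κ m yM : ℝ) (hη : 0 < η) (hκ : 0 < κ) (hκ1 : κ ≤ 1) (h1 : 12 * Real.sqrt κ ≤ η)
    (h2 : 5 * Real.sqrt κ ≤ η ^ 2) (c : Fin q) (f : Site d (k + 1) → Fin q) (t : Blk d k) (G : Site d (k + 1) → ℝ)
    (e1 : Ms none t (fun x => (ya c f x - G x) ^ 2) ≤ κ) (e2 : Ms none t (fun x => G x ^ 2) - Ms none t G ^ 2 ≤ κ)
    (e3 : Ms none t (fun x => dst3 m yM (ya c f x)) ≤ κ) (e4 : ∀ s, |Ms s t (fun x => bq c f x - ya c f x)| ≤ κ) :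
    ∃ τ : ℝ, tauG η m yM c f t τ := by
  set r : ℝ := Real.sqrt κ with hr
  have hr0 : 0 ≤ r := Real.sqrt_nonneg κ
  have hrr : r * r = κ := Real.mul_self_sqrt hκ.le
  have hr1 : r ≤ 1 := by
    rw [hr, Real.sqrt_le_one]
    exact hκ1
  have hκr : κ ≤ r := by
    rw [← hrr]
    nlinarith
  set H : ℝ := Ms none t G with hH
  have hsq : ∀ x : ℝ, x ^ 2 ≤ κ → x ≤ r := by
    intro x hx
    rw [hr]
    exact Real.le_sqrt_of_sq_le hx
  -- step 1
  have s1 : Ms none t (fun x => |ya c f x - G x|) ≤ r := by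
    apply hsq
    refine le_trans (Ms_sq hd none t _) (le_trans (le_of_eq ?_) e1)
    congr 1
    funext x
    exact sq_abs _
  -- step 2
  have s2 : Ms none t (fun x => |G x - H|) ≤ r := by
    apply hsq
    refine le_trans (Ms_sq hd none t _) (le_trans (le_of_eq ?_) e2)
    have h3 : (fun x => |G x - H| ^ 2) = fun x => (G x ^ 2 - (2 * H) * G x) + H ^ 2 := by
      funext x
      rw [sq_abs]
      ring
    rw [h3, Ms_add none t (fun x => G x ^ 2 - (2 * H) * G x) (fun _ => H ^ 2), Ms_const hd,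
      Ms_sub none t (fun x => G x ^ 2) (fun x => (2 * H) * G x), Ms_mul]
    rw [← hH]
    ring
  -- step 3
  have s3 : Ms none t (fun x => |ya c f x - H|) ≤ 2 * r := by
    calc Ms none t (fun x => |ya c f x - H|) ≤ Ms none t (fun x => |ya c f x - G x| + |G x - H|) := by
          apply Ms_mono
          intro a b _
          exact abs_sub_le _ _ _
      _ = Ms none t (fun x => |ya c f x - G x|) + Ms none t (fun x => |G x - H|) := Ms_add none t _ _
      _ ≤ 2 * r := by linarith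
  have s4 : ∀ s, Ms s t (fun x => |ya c f x - H|) ≤ 8 * r := by
    intro s
    have := Ms_face hd s t (fun x => |ya c f x - H|) (fun x => abs_nonneg _)
    linarith
  -- step 5
  have s5 : dst3 m yM H ≤ 3 * r := by
    have h3 : Ms none t (fun _ => dst3 m yM H) ≤ Ms none t (fun x => dst3 m yM (ya c f x) + |ya c f x - H|) := by
      apply Ms_mono
      intro a b _
      exact B5a_dst
    rw [Ms_const hd, Ms_add] at h3
    linarith
  obtain ⟨τ, hτ, hτH⟩ : ∃ τ : ℝ, (τ = 1 - m ∨ τ = yM ∨ τ = 1 + m) ∧ |H - τ| ≤ 3 * r := by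
    unfold dst3 dst2 at s5
    rcases min_le_iff.1 s5 with h3 | h3
    · rcases min_le_iff.1 h3 with h4 | h4
      · exact ⟨1 - m, Or.inl rfl, h4⟩
      · exact ⟨1 + m, Or.inr (Or.inr rfl), h4⟩
    · exact ⟨yM, Or.inr (Or.inl rfl), h3⟩
  refine ⟨τ, hτ, ?_, ?_⟩
  · intro s
    have h3 : Ms s t (bq c f) - τ = Ms s t (fun x => bq c f x - ya c f x) + Ms s t (fun x => ya c f x - H) +
        (H - τ) := by
      rw [Ms_sub s t (bq c f) (fun x => ya c f x), Ms_sub s t (fun x => ya c f x) (fun _ => H), Ms_const hd]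
      ring
    rw [h3]
    have h4 : |Ms s t (fun x => ya c f x - H)| ≤ 8 * r := le_trans (Ms_abs s t _) (s4 s)
    have h5 := e4 s
    have h6 := abs_add_le (Ms s t (fun x => bq c f x - ya c f x) + Ms s t (fun x => ya c f x - H)) (H - τ)
    have h7 := abs_add_le (Ms s t (fun x => bq c f x - ya c f x)) (Ms s t (fun x => ya c f x - H))
    linarith
  · have h3 : Ms none t (fun v => if η < |ya c f v - τ| then (1 : ℝ) else 0) ≤
        Ms none t (fun v => (1 / η) * (|ya c f v - H| + 3 * r)) := by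
      apply Ms_mono
      intro a b _
      have h4 : |ya c f (pt t a b) - τ| ≤ |ya c f (pt t a b) - H| + 3 * r := by
        have := abs_sub_le (ya c f (pt t a b)) H τ
        linarith
      split_ifs with h5
      · rw [one_div, ← div_eq_inv_mul, le_div_iff₀ hη, one_mul]
        linarith
      · have := abs_nonneg (ya c f (pt t a b) - H)
        positivity
    refine le_trans h3 ?_
    rw [Ms_mul, Ms_add none t (fun x => |ya c f x - H|) (fun _ => 3 * r), Ms_const hd, one_div, ← div_eq_inv_mul,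
      div_le_iff₀ hη]
    nlinarith

end Pool.Agent.THR
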