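import Pool.Agent.Lib_MP_2c424f_thr.B2
import Pool.Agent.Lib_MP_2c424f_thr.B4
import Pool.Agent.Lib_MP_2c424f_thr.A5
import Pool.Agent.Lib_MP_2c424f_thr.B5a

/-!
# THR B5: almost all blocks are close to one of the three values (paper proof: B5), deterministic

Fix `c`.  `G = PP^[t₀] (gg c f)`, `y = ya c f`, `N = NN d k` = number of blocks, `N' = NN d (k+1) = 2^d N`.  Choose `κ > 0` with `12 √κ ≤ η`, `5 √κ ≤ η²`, `κ ≤ 1`.
For a block `t`: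
* `E₁ = Ms none t ((y - G)²)`: sum over `t` `≤ (2/2^d) δ' N' = 2 δ' N` (`sm0`, `Ms_sum`);
* `E₂ = Ms none t (G²) - (Ms none t G)²`: sum `≤ 4 d (C₆/q²) N ≤ δ' N` (`var_blocks`, `grad`);
* `E₃ = Ms none t (dst3 m yM y)`: sum `≤ 2 δ' N` (`Pin.d3`);
* `E₄ = max_s |Ms s t (bq - y)|`, `bq - y = (bq - gg) + (gg - zz/al) + (zz - zt)/al + (zt/al - y)`: the first and the third part: `∑_t ∑_s (Ms s t ..)² ≤ (2d+1) N/d^4` (hypotheses), the other two: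
  `|Ms s t φ| ≤ 4 Ms none t |φ|` (`Ms_face`), sum over `t` `≤ 8 δ'' N` (`gg_det`, `zt_det`).
So all but `δ N` blocks have `E₁, E₂, E₃ ≤ κ`, `E₄ ≤ κ`.  For such a block let `H = Ms none t G`: `Ms none t |y - H| ≤ √E₁ + √E₂ ≤ 2 √κ` (`Ms_sq`), so `Ms s t |y - H| ≤ 8 √κ` for all `s`;
`dst3 m yM H ≤ E₃ + 2 √κ ≤ 3 √κ` (`dst3` is `1`-Lipschitz), so some `τ` of the three values has `|H - τ| ≤ 3 √κ`; `|Ms s t bq - τ| ≤ κ + 8 √κ + 3 √κ ≤ 12 √κ ≤ η`;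
`Ms none t 1[|y-τ| > η] ≤ Ms none t |y - τ|/η ≤ 5 √κ/η ≤ η`.
-/

set_option autoImplicit false

open Finset Filter

namespace Pool.Agent.THR

open Pool.Agent.LO Pool.Agent.LIN

private theorem B5_shp (d : ℕ) : (Fintype.card (Shp d) : ℝ) = 2 * d + 1 := by
  rw [Fintype.card_option, Fintype.card_prod, Fintype.card_fin, Fintype.card_bool]
  push_cast
  ring

/-- one block, the four parts of the difference -/
private theorem B5_block {d k q : ℕ} (hd : 2 ≤ d) (η κ m yM : ℝ) (hη : 0 < η) (hκ : 0 < κ) (hκ1 : κ ≤ 1)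
    (h1 : 12 * Real.sqrt κ ≤ η) (h2 : 5 * Real.sqrt κ ≤ η ^ 2) (c : Fin q) (f : Site d (k + 1) → Fin q) (t : Blk d k)
    (G : Site d (k + 1) → ℝ)
    (e1 : Ms none t (fun x => (ya c f x - G x) ^ 2) ≤ κ) (e2 : Ms none t (fun x => G x ^ 2) - Ms none t G ^ 2 ≤ κ)
    (e3 : Ms none t (fun x => dst3 m yM (ya c f x)) ≤ κ)
    (p1 : ∀ s, Ms s t (fun x => bq c f x - gg c f x) ^ 2 ≤ (κ / 4) ^ 2)
    (p2 : Ms none t (fun x => |gg c f x - zz f x c / al f x|) ≤ κ / 16)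
    (p3 : ∀ s, Ms s t (fun x => (zz f x c - zt f x c) / al f x) ^ 2 ≤ (κ / 4) ^ 2)
    (p4 : Ms none t (fun x => |zt f x c / al f x - ya c f x|) ≤ κ / 16) :
    ∃ τ : ℝ, tauG η m yM c f t τ := by
  refine tau_one hd η κ m yM hη hκ hκ1 h1 h2 c f t G e1 e2 e3 fun s => ?_
  have hk4 : (0 : ℝ) ≤ κ / 4 := by positivity
  have q1 : |Ms s t (fun x => bq c f x - gg c f x)| ≤ κ / 4 := abs_le_of_sq_le_sq (p1 s) hk4
  have q3 : |Ms s t (fun x => (zz f x c - zt f x c) / al f x)| ≤ κ / 4 := abs_le_of_sq_le_sq (p3 s) hk4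
  have q2 : |Ms s t (fun x => gg c f x - zz f x c / al f x)| ≤ κ / 4 := by
    refine (Ms_abs s t _).trans ?_
    refine (Ms_face hd s t _ fun x => abs_nonneg _).trans ?_
    linarith
  have q4 : |Ms s t (fun x => zt f x c / al f x - ya c f x)| ≤ κ / 4 := by
    refine (Ms_abs s t _).trans ?_
    refine (Ms_face hd s t _ fun x => abs_nonneg _).trans ?_
    linarith
  have key : Ms s t (fun x => bq c f x - ya c f x) =
      Ms s t (fun x => bq c f x - gg c f x) + Ms s t (fun x => gg c f x - zz f x c / al f x) +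
        Ms s t (fun x => (zz f x c - zt f x c) / al f x) + Ms s t (fun x => zt f x c / al f x - ya c f x) := by
    rw [← Ms_add, ← Ms_add, ← Ms_add]
    congr 1
    funext x
    rw [sub_div]
    ring
  rw [key]
  have r1 := abs_le.1 q1
  have r2 := abs_le.1 q2
  have r3 := abs_le.1 q3
  have r4 := abs_le.1 q4
  rw [abs_le]
  constructor <;> linarith [r1.1, r1.2, r2.1, r2.2, r3.1, r3.2, r4.1, r4.2]

/-- sum of the block means of a nonnegative function -/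
private theorem B5_sum {d k : ℕ} (hd : 2 ≤ d) (hk : 1 ≤ k) (D : ℝ) (φ : Site d (k + 1) → ℝ) (h0 : ∀ x, 0 ≤ φ x)
    (h : ∑ x, φ x ≤ D * NN d (k + 1)) : ∑ t : Blk d k, Ms none t φ ≤ 2 * D * NN d k := by
  rw [Ms_sum hd hk]
  have h1 : ∑ v ∈ ods d (k + 1), φ v ≤ ∑ x, φ x :=
    Finset.sum_le_sum_of_subset_of_nonneg (Finset.subset_univ _) fun x _ _ => h0 x
  have h2 := h1.trans h
  rw [NN_succ] at h2
  have h3 : (0 : ℝ) < 2 ^ d := by positivity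
  calc 2 / 2 ^ d * ∑ v ∈ ods d (k + 1), φ v ≤ 2 / 2 ^ d * (D * (2 ^ d * NN d k)) :=
        mul_le_mul_of_nonneg_left h2 (by positivity)
    _ = 2 * D * NN d k := by
        field_simp

private theorem B5_Ms0 {d k : ℕ} (hd : 2 ≤ d) (s : Shp d) (t : Blk d k) (φ : Site d (k + 1) → ℝ) (h : ∀ x, 0 ≤ φ x) :
    0 ≤ Ms s t φ := by
  have h1 := Ms_mono (φ := fun _ => (0 : ℝ)) (ψ := φ) s t fun a b _ => h _
  rwa [Ms_const hd s t 0] at h1

private theorem B5_dst (m yM y : ℝ) : 0 ≤ dst3 m yM y := by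
  unfold dst3 dst2
  exact le_min (le_min (abs_nonneg _) (abs_nonneg _)) (abs_nonneg _)

/-- the weight of the exceptional blocks, abstract form -/
private theorem B5_abs {T S : Type*} [Fintype T] [Fintype S] (κ δ N e : ℝ) (hκ : 0 < κ) (E1 E2 E3 P2 P4 : T → ℝ)
    (P1 P3 : S → T → ℝ) (n1 : ∀ t, 0 ≤ E1 t) (n2 : ∀ t, 0 ≤ E2 t) (n3 : ∀ t, 0 ≤ E3 t) (n4 : ∀ s t, 0 ≤ P1 s t)
    (n5 : ∀ t, 0 ≤ P2 t) (n6 : ∀ s t, 0 ≤ P3 s t) (n7 : ∀ t, 0 ≤ P4 t)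
    (s1 : ∑ t, E1 t ≤ κ * (δ / 8) * N) (s2 : ∑ t, E2 t ≤ κ * (δ / 8) * N) (s3 : ∑ t, E3 t ≤ κ * (δ / 8) * N)
    (s4 : ∀ s, ∑ t, P1 s t ≤ e) (s5 : 16 * ∑ t, P2 t ≤ κ * (δ / 8) * N) (s6 : ∀ s, ∑ t, P3 s t ≤ e)
    (s7 : 16 * ∑ t, P4 t ≤ κ * (δ / 8) * N) (b5 : 16 * ((Fintype.card S : ℝ) * e) ≤ κ ^ 2 * (δ / 8) * N) (hδ : 0 ≤ δ)
    (hN : 0 ≤ N) (P : T → Prop) [DecidablePred P]
    (hP : ∀ t, E1 t ≤ κ → E2 t ≤ κ → E3 t ≤ κ → (∀ s, P1 s t ≤ (κ / 4) ^ 2) → P2 t ≤ κ / 16 →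
      (∀ s, P3 s t ≤ (κ / 4) ^ 2) → P4 t ≤ κ / 16 → ¬ P t) :
    ((univ.filter P).card : ℝ) ≤ δ * N := by
  classical
  have a1 : ∀ t, 0 ≤ ∑ s, P1 s t := fun t => Finset.sum_nonneg fun s _ => n4 s t
  have a2 : ∀ t, 0 ≤ ∑ s, P3 s t := fun t => Finset.sum_nonneg fun s _ => n6 s t
  obtain ⟨W, hW⟩ : ∃ W : T → ℝ, ∀ t, W t = κ * (E1 t + E2 t + E3 t) + 16 * (∑ s, P1 s t + ∑ s, P3 s t) +
    16 * κ * (P2 t + P4 t) := ⟨_, fun t => rfl⟩
  have u1 : ∀ t, 0 ≤ κ * (E1 t + E2 t + E3 t) := fun t =>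
    mul_nonneg hκ.le (add_nonneg (add_nonneg (n1 t) (n2 t)) (n3 t))
  have u2 : ∀ t, 0 ≤ 16 * (∑ s, P1 s t + ∑ s, P3 s t) := fun t =>
    mul_nonneg (by norm_num) (add_nonneg (a1 t) (a2 t))
  have u3 : ∀ t, 0 ≤ 16 * κ * (P2 t + P4 t) := fun t =>
    mul_nonneg (by positivity) (add_nonneg (n5 t) (n7 t))
  have hWn : ∀ t, 0 ≤ W t := by
    intro t
    rw [hW]
    exact add_nonneg (add_nonneg (u1 t) (u2 t)) (u3 t)
  have hWb : ∀ t, W t < κ ^ 2 → ¬ P t := by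
    intro t ht
    rw [hW] at ht
    have v1 := u1 t
    have v2 := u2 t
    have v3 := u3 t
    have c1 : κ * (E1 t + E2 t + E3 t) ≤ κ * κ := by
      rw [← sq]
      linarith
    have c1' : E1 t + E2 t + E3 t ≤ κ := le_of_mul_le_mul_left c1 hκ
    have c2 : κ * (16 * (P2 t + P4 t)) ≤ κ * κ := by
      rw [← sq]
      linarith
    have c2' : 16 * (P2 t + P4 t) ≤ κ := le_of_mul_le_mul_left c2 hκ
    have c3 : 16 * (∑ s, P1 s t + ∑ s, P3 s t) ≤ κ ^ 2 := by linarith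
    have m1 := n1 t
    have m2 := n2 t
    have m3 := n3 t
    have m5 := n5 t
    have m7 := n7 t
    have m4 := a1 t
    have m6 := a2 t
    have e16 : (κ / 4) ^ 2 = κ ^ 2 / 16 := by ring
    refine hP t (by linarith) (by linarith) (by linarith) (fun s => ?_) (by linarith) (fun s => ?_) (by linarith)
    · have : P1 s t ≤ ∑ s, P1 s t := Finset.single_le_sum (f := fun s => P1 s t) (fun s _ => n4 s t) (Finset.mem_univ s)
      rw [e16]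
      linarith
    · have : P3 s t ≤ ∑ s, P3 s t := Finset.single_le_sum (f := fun s => P3 s t) (fun s _ => n6 s t) (Finset.mem_univ s)
      rw [e16]
      linarith
  have hκ2 : 0 < κ ^ 2 := by positivity
  have hcard : κ ^ 2 * ((univ.filter P).card : ℝ) ≤ ∑ t, W t := by
    calc κ ^ 2 * ((univ.filter P).card : ℝ) = ∑ t ∈ univ.filter P, κ ^ 2 := by
          rw [Finset.sum_const, nsmul_eq_mul, mul_comm]
      _ ≤ ∑ t ∈ univ.filter P, W t := by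
          refine Finset.sum_le_sum fun t ht => ?_
          by_contra hc
          exact hWb t (not_le.1 hc) (Finset.mem_filter.1 ht).2
      _ ≤ ∑ t, W t := Finset.sum_le_sum_of_subset_of_nonneg (Finset.subset_univ _) fun t _ _ => hWn t
  have t4 : ∑ t, ∑ s, P1 s t ≤ (Fintype.card S : ℝ) * e := by
    rw [Finset.sum_comm]
    refine (Finset.sum_le_sum fun s _ => s4 s).trans (le_of_eq ?_)
    rw [Finset.sum_const, Finset.card_univ, nsmul_eq_mul]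
  have t6 : ∑ t, ∑ s, P3 s t ≤ (Fintype.card S : ℝ) * e := by
    rw [Finset.sum_comm]
    refine (Finset.sum_le_sum fun s _ => s6 s).trans (le_of_eq ?_)
    rw [Finset.sum_const, Finset.card_univ, nsmul_eq_mul]
  have hsum : ∑ t, W t = κ * ∑ t, E1 t + κ * ∑ t, E2 t + κ * ∑ t, E3 t +
      (16 * ∑ t, ∑ s, P1 s t + 16 * ∑ t, ∑ s, P3 s t) + (κ * (16 * ∑ t, P2 t) + κ * (16 * ∑ t, P4 t)) := by
    rw [Finset.sum_congr rfl fun t _ => hW t]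
    simp only [Finset.sum_add_distrib, ← Finset.mul_sum]
    ring
  have r1 : κ * ∑ t, E1 t ≤ κ * (κ * (δ / 8) * N) := mul_le_mul_of_nonneg_left s1 hκ.le
  have r2 : κ * ∑ t, E2 t ≤ κ * (κ * (δ / 8) * N) := mul_le_mul_of_nonneg_left s2 hκ.le
  have r3 : κ * ∑ t, E3 t ≤ κ * (κ * (δ / 8) * N) := mul_le_mul_of_nonneg_left s3 hκ.le
  have r5 : κ * (16 * ∑ t, P2 t) ≤ κ * (κ * (δ / 8) * N) := mul_le_mul_of_nonneg_left s5 hκ.le
  have r7 : κ * (16 * ∑ t, P4 t) ≤ κ * (κ * (δ / 8) * N) := mul_le_mul_of_nonneg_left s7 hκ.le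
  have n8 : 0 ≤ κ ^ 2 * (δ / 8) * N := by positivity
  have e8 : κ * (κ * (δ / 8) * N) = κ ^ 2 * (δ / 8) * N := by ring
  rw [e8] at r1 r2 r3 r5 r7
  have htot : ∑ t, W t ≤ κ ^ 2 * (δ * N) := by
    rw [hsum]
    have e9 : κ ^ 2 * (δ * N) = 8 * (κ ^ 2 * (δ / 8) * N) := by ring
    rw [e9]
    linarith
  exact le_of_mul_le_mul_left (hcard.trans htot) hκ2

/-- the weight of the exceptional blocks -/
private theorem B5_count {d k q : ℕ} (hd : 2 ≤ d) (hk : 1 ≤ k) (η κ δ δ' δ'' m yM : ℝ) (hη : 0 < η) (hκ : 0 < κ)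
    (hκ1 : κ ≤ 1) (h1 : 12 * Real.sqrt κ ≤ η) (h2 : 5 * Real.sqrt κ ≤ η ^ 2) (c : Fin q) (f : Site d (k + 1) → Fin q)
    (G : Site d (k + 1) → ℝ) (D : ℝ)
    (e1 : ∑ x, (ya c f x - G x) ^ 2 ≤ δ' * NN d (k + 1))
    (e2 : ∑ t : Blk d k, (Ms none t (fun x => G x ^ 2) - Ms none t G ^ 2) ≤ 4 * d * D * NN d k)
    (e3 : ∑ x, dst3 m yM (ya c f x) ≤ δ' * NN d (k + 1))
    (p1 : ∀ s : Shp d, ∑ t : Blk d k, Ms s t (fun x => bq c f x - gg c f x) ^ 2 ≤ NN d k / (d : ℝ) ^ 4)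
    (p2 : ∑ x, |gg c f x - zz f x c / al f x| ≤ δ'' * NN d (k + 1))
    (p3 : ∀ s : Shp d,
      ∑ t : Blk d k, Ms s t (fun x => (zz f x c - zt f x c) / al f x) ^ 2 ≤ NN d k / (d : ℝ) ^ 4)
    (p4 : ∑ x, |zt f x c / al f x - ya c f x| ≤ δ'' * NN d (k + 1))
    (b1 : 2 * δ' ≤ κ * (δ / 8)) (b2 : 4 * d * D ≤ κ * (δ / 8)) (b3 : 32 * δ'' ≤ κ * (δ / 8))
    (b4 : 16 * (2 * (d : ℝ) + 1) ≤ κ ^ 2 * (δ / 8) * (d : ℝ) ^ 4) (hδ : 0 ≤ δ) (P : Blk d k → Prop) [DecidablePred P]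
    (hP : ∀ t, (∃ τ : ℝ, tauG η m yM c f t τ) → ¬ P t) :
    ((univ.filter P).card : ℝ) ≤ δ * NN d k := by
  have nN : 0 ≤ NN d k := by unfold NN; positivity
  have s1 := B5_sum hd hk δ' _ (fun x => sq_nonneg _) e1
  have s3 := B5_sum hd hk δ' _ (fun x => B5_dst _ _ _) e3
  have s5 := B5_sum hd hk δ'' _ (fun x => abs_nonneg _) p2
  have s7 := B5_sum hd hk δ'' _ (fun x => abs_nonneg _) p4
  have c1 : 2 * δ' * NN d k ≤ κ * (δ / 8) * NN d k := mul_le_mul_of_nonneg_right b1 nN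
  have c2 : 4 * d * D * NN d k ≤ κ * (δ / 8) * NN d k := mul_le_mul_of_nonneg_right b2 nN
  have c3 : 32 * δ'' * NN d k ≤ κ * (δ / 8) * NN d k := mul_le_mul_of_nonneg_right b3 nN
  have hd0 : (0 : ℝ) < (d : ℝ) ^ 4 := by
    have : (0 : ℝ) < d := by
      have : 0 < d := by omega
      exact_mod_cast this
    positivity
  refine B5_abs (T := Blk d k) (S := Shp d) κ δ (NN d k) (NN d k / (d : ℝ) ^ 4) hκ
    (fun t => Ms none t (fun x => (ya c f x - G x) ^ 2)) (fun t => Ms none t (fun x => G x ^ 2) - Ms none t G ^ 2)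
    (fun t => Ms none t (fun x => dst3 m yM (ya c f x)))
    (fun t => Ms none t (fun x => |gg c f x - zz f x c / al f x|))
    (fun t => Ms none t (fun x => |zt f x c / al f x - ya c f x|))
    (fun s t => Ms s t (fun x => bq c f x - gg c f x) ^ 2)
    (fun s t => Ms s t (fun x => (zz f x c - zt f x c) / al f x) ^ 2)
    (fun t => B5_Ms0 hd _ _ _ fun x => sq_nonneg _) (fun t => sub_nonneg.2 (Ms_sq hd none t G))
    (fun t => B5_Ms0 hd _ _ _ fun x => B5_dst _ _ _) (fun s t => sq_nonneg _)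
    (fun t => B5_Ms0 hd _ _ _ fun x => abs_nonneg _) (fun s t => sq_nonneg _)
    (fun t => B5_Ms0 hd _ _ _ fun x => abs_nonneg _) (s1.trans c1) (e2.trans c2) (s3.trans c1) p1 ?_ p3 ?_ ?_ hδ nN P ?_
  · linarith
  · linarith
  · rw [B5_shp]
    calc 16 * ((2 * (d : ℝ) + 1) * (NN d k / (d : ℝ) ^ 4)) = 16 * (2 * (d : ℝ) + 1) * (NN d k / (d : ℝ) ^ 4) := by ring
      _ ≤ κ ^ 2 * (δ / 8) * (d : ℝ) ^ 4 * (NN d k / (d : ℝ) ^ 4) := mul_le_mul_of_nonneg_right b4 (by positivity)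
      _ = κ ^ 2 * (δ / 8) * NN d k := by field_simp
  · intro t x1 x2 x3 x4 x5 x6 x7
    exact hP t (B5_block hd η κ m yM hη hκ hκ1 h1 h2 c f t G x1 x2 x3 x4 x5 x6 x7)

open scoped Classical in
/-- number of exceptional blocks -/
theorem tau_det {ε : ℝ} (hε : 0 < ε) (hε1 : ε ≤ 1) (C₆ : ℝ) (t₀ : ℕ) (η δ : ℝ) (hη : 0 < η) (hδ : 0 < δ) : ∃ δ' : ℝ, 0 < δ' ∧
    EvT ε fun d k q => ∀ m yM : ℝ, MFE (ra d q) m → YM (ra d q) m yM → ∀ f ∈ prps d (k + 1) q,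
      Good ε δ' C₆ t₀ f → Pin δ' m yM f →
      (∀ (c : Fin q) (s : Shp d), ∑ t : Blk d k, Ms s t (fun x => bq c f x - gg c f x) ^ 2 ≤ NN d k / (d : ℝ) ^ 4) →
      (∀ (c : Fin q) (s : Shp d),
        ∑ t : Blk d k, Ms s t (fun x => (zz f x c - zt f x c) / al f x) ^ 2 ≤ NN d k / (d : ℝ) ^ 4) →
      ∀ c : Fin q, ((univ.filter fun t : Blk d k => ¬ ∃ τ, tauG η m yM c f t τ).card : ℝ) ≤ δ * NN d k := by
  -- the parameter
  obtain ⟨κ, hκ, hκ1, h1, h2⟩ : ∃ κ : ℝ, 0 < κ ∧ κ ≤ 1 ∧ 12 * Real.sqrt κ ≤ η ∧ 5 * Real.sqrt κ ≤ η ^ 2 := by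
    set r : ℝ := min 1 (min (η / 12) (η ^ 2 / 5)) with hr
    have hr0 : 0 < r := by
      rw [hr]
      refine lt_min one_pos (lt_min ?_ ?_) <;> positivity
    have hr1 : r ≤ 1 := min_le_left _ _
    have hr2 : r ≤ η / 12 := (min_le_right _ _).trans (min_le_left _ _)
    have hr3 : r ≤ η ^ 2 / 5 := (min_le_right _ _).trans (min_le_right _ _)
    refine ⟨r ^ 2, by positivity, pow_le_one₀ hr0.le hr1, ?_, ?_⟩
    · rw [Real.sqrt_sq hr0.le]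
      linarith
    · rw [Real.sqrt_sq hr0.le]
      linarith
  have hδ2 : 0 < κ * δ / 256 := by positivity
  obtain ⟨δ₁, hδ₁, hgg⟩ := gg_det hε hε1 C₆ t₀ (κ * δ / 256) hδ2
  have hzt := zt_det hε hε1 C₆ t₀ (κ * δ / 256) hδ2
  have hreg := EvT_reg hε hε1 (max 2 (max (32 * |C₆| / (ε ^ 2 * (κ * δ))) (384 / (κ ^ 2 * δ))))
  refine ⟨min δ₁ (κ * δ / 16), lt_min hδ₁ (by positivity), ((hgg.shift.and hzt.shift).and hreg).mono ?_⟩
  rintro d k q ⟨⟨hg, hz⟩, hMd, hMq, hMk, hdq, -, -, -, -⟩ m yM hm hyM f hf hG hPin hA hB c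
  have hd2 : (2 : ℝ) ≤ d := (le_max_left _ _).trans hMd
  have hd : 2 ≤ d := by exact_mod_cast hd2
  have hk2 : (2 : ℝ) ≤ k := (le_max_left _ _).trans hMk
  have hk : 1 ≤ k := by
    have : 2 ≤ k := by exact_mod_cast hk2
    omega
  have hM1 : 32 * |C₆| / (ε ^ 2 * (κ * δ)) ≤ d := ((le_max_left _ _).trans (le_max_right _ _)).trans hMd
  have hM2 : 384 / (κ ^ 2 * δ) ≤ d := ((le_max_right _ _).trans (le_max_right _ _)).trans hMd
  have hq0 : (0 : ℝ) < q := lt_of_lt_of_le (by positivity) hdq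
  have hNN : 0 ≤ NN d (k + 1) := by unfold NN; positivity
  have hG1 : Good ε δ₁ C₆ t₀ f := by
    have hle : min δ₁ (κ * δ / 16) * NN d (k + 1) ≤ δ₁ * NN d (k + 1) :=
      mul_le_mul_of_nonneg_right (min_le_left _ _) hNN
    exact ⟨hG.irr4, hG.grad, hG.smo, fun c σ τ => (hG.hom c σ τ).trans hle, hG.avl.trans hle,
      fun c σ => (hG.mf c σ).trans hle, fun c => (hG.sm0 c).trans hle, fun c σ => (hG.sm1 c σ).trans hle,
      fun c => (hG.sm2 c).trans hle⟩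
  refine B5_count hd hk η κ δ (min δ₁ (κ * δ / 16)) (κ * δ / 256) m yM hη hκ hκ1 h1 h2 c f
    (PP^[t₀] (gg c f)) (C₆ / (q : ℝ) ^ 2) ?_ ?_ (hPin.d3 c) (hA c) (hg f hf hG1 c) (hB c) (hz f hf hG.irr4 c)
    ?_ ?_ ?_ ?_ hδ.le _ fun t ht hn => hn ht
  · refine (le_of_eq (Finset.sum_congr rfl fun x _ => ?_)).trans (hG.sm0 c)
    ring
  · refine var_blocks hd hk _ _ fun σ τ => ?_
    refine (hG.grad c σ τ).trans (le_of_eq ?_)
    ring
  · have := min_le_right δ₁ (κ * δ / 16)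
    linarith
  · have h3 : 32 * |C₆| ≤ d * (ε ^ 2 * (κ * δ)) := (div_le_iff₀ (by positivity)).1 hM1
    have h4 : (ε * d) ^ 2 ≤ (q : ℝ) ^ 2 := pow_le_pow_left₀ (by positivity) hdq 2
    have h5 : (0 : ℝ) < (q : ℝ) ^ 2 := by positivity
    have h6 : 4 * (d : ℝ) * (C₆ / (q : ℝ) ^ 2) = 4 * d * C₆ / (q : ℝ) ^ 2 := by ring
    rw [h6, div_le_iff₀ h5]
    have h7 : C₆ ≤ |C₆| := le_abs_self _
    calc 4 * (d : ℝ) * C₆ ≤ 4 * d * |C₆| := mul_le_mul_of_nonneg_left h7 (by positivity)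
      _ = d / 8 * (32 * |C₆|) := by ring
      _ ≤ d / 8 * (d * (ε ^ 2 * (κ * δ))) := mul_le_mul_of_nonneg_left h3 (by positivity)
      _ = κ * (δ / 8) * (ε * d) ^ 2 := by ring
      _ ≤ κ * (δ / 8) * (q : ℝ) ^ 2 := mul_le_mul_of_nonneg_left h4 (by positivity)
  · have : 32 * (κ * δ / 256) = κ * (δ / 8) := by ring
    exact this.le
  · have h3 : 384 ≤ d * (κ ^ 2 * δ) := (div_le_iff₀ (by positivity)).1 hM2
    have hd1 : (1 : ℝ) ≤ d := by linarith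
    have h4 : (1 : ℝ) ≤ (d : ℝ) ^ 2 := one_le_pow₀ hd1
    have h5 : 2 * (d : ℝ) + 1 ≤ 3 * d := by linarith
    calc 16 * (2 * (d : ℝ) + 1) ≤ 16 * (3 * d) := by linarith
      _ = 384 * (d / 8) := by ring
      _ ≤ d * (κ ^ 2 * δ) * (d / 8) := mul_le_mul_of_nonneg_right h3 (by positivity)
      _ = κ ^ 2 * (δ / 8) * (d : ℝ) ^ 2 * 1 := by ring
      _ ≤ κ ^ 2 * (δ / 8) * (d : ℝ) ^ 2 * (d : ℝ) ^ 2 := mul_le_mul_of_nonneg_left h4 (by positivity)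
      _ = κ ^ 2 * (δ / 8) * (d : ℝ) ^ 4 := by ring

end Pool.Agent.THR
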