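import Pool.Agent.Lib_MP_2c424f_thr.A5

/-!
# THR Z0: from overwhelming probability to means at a single site (paper proof: Z, first line)

`F` translation covariant, `0 ≤ F ≤ M d q`, and w.o.p. `∑_v F f v ≤ δ N`.  By `LO.sum_transl`, `∑_f F f v` does not depend on `v`, so it is
`(1/N) ∑_f ∑_v F f v ≤ δ Z + M Z exp (-N/d^C) ≤ 2 δ Z` for `k` large (`N → ∞`).
-/

set_option autoImplicit false

open Finset Filter

namespace Pool.Agent.THR

open Pool.Agent.LO Pool.Agent.LIN

private theorem Z0_exp {t m δ : ℝ} (hδ : 0 < δ) (hm : 0 ≤ m) (ht : m / δ ≤ t) : m * Real.exp (-t) ≤ δ := by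
  have ht0 : 0 ≤ t := le_trans (div_nonneg hm hδ.le) ht
  have h1 : t + 1 ≤ Real.exp t := Real.add_one_le_exp t
  have h2 : m ≤ δ * t := by
    rw [div_le_iff₀ hδ] at ht
    linarith
  have h3 : m ≤ δ * Real.exp t := by nlinarith
  have h4 : Real.exp t * Real.exp (-t) = 1 := by
    rw [← Real.exp_add]
    simp
  calc m * Real.exp (-t) ≤ (δ * Real.exp t) * Real.exp (-t) :=
        mul_le_mul_of_nonneg_right h3 (Real.exp_pos _).le
    _ = δ := by rw [mul_assoc, h4, mul_one]

theorem transl_mean {ε : ℝ} (ι : ℕ → ℕ → ℕ → Type) (F : ∀ d k q : ℕ, ι d k q → (Site d k → Fin q) → Site d k → ℝ)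
    (M : ℕ → ℕ → ℝ) (δ : ℝ) (hδ : 0 < δ)
    (hM : EvT ε fun d k q => ∀ i, ∀ f ∈ prps d k q, ∀ v, 0 ≤ F d k q i f v ∧ F d k q i f v ≤ M d q)
    (hT : ∀ d k q i f v w, F d k q i (fun x => f (x + w)) v = F d k q i f (v + w))
    (h : WOPi ε ι fun d k q i f => ∑ v, F d k q i f v ≤ δ * NN d k) :
    EvT ε fun d k q => ∀ i v, ∑ f ∈ prps d k q, F d k q i f v ≤ 2 * δ * ZZ d k q := by
  classical
  obtain ⟨C, hC⟩ := h
  have hN : EvT ε fun d k q => (d : ℝ) ^ C * (|M d q| / δ) ≤ NN d k :=
    EvT_NN (fun d q => (d : ℝ) ^ C * (|M d q| / δ))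
  have h1 : EvT ε fun d _ _ => 1 ≤ d := EvT_d (eventually_ge_atTop 1)
  refine (((hM.and hC).and hN).and h1).mono ?_
  rintro d k q ⟨⟨⟨hM, hC⟩, hN⟩, hd⟩ i v
  have hd0 : (0 : ℝ) < (d : ℝ) ^ C := by
    have : (0 : ℝ) < d := by exact_mod_cast hd
    positivity
  have hNpos : 0 < NN d k := by
    unfold NN
    positivity
  -- the sum does not depend on the site
  have hS : ∀ w : Site d k, ∑ f ∈ prps d k q, F d k q i f w = ∑ f ∈ prps d k q, F d k q i f v := by
    intro w
    have h2 := sum_transl (d := d) (k := k) (q := q) (w - v) (fun f => F d k q i f v)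
    rw [← h2]
    refine Finset.sum_congr rfl fun f _ => ?_
    rw [hT]
    congr 1
    abel
  have hcard : ((Finset.univ : Finset (Site d k)).card : ℝ) = NN d k := by
    rw [Finset.card_univ]
    exact card_site d k
  have hmul : NN d k * ∑ f ∈ prps d k q, F d k q i f v = ∑ f ∈ prps d k q, ∑ w, F d k q i f w := by
    rw [Finset.sum_comm, Finset.sum_congr rfl fun w _ => hS w, Finset.sum_const, nsmul_eq_mul, hcard]
  -- good and bad colourings
  have hgood : ∑ f ∈ (prps d k q).filter (fun f => ∑ w, F d k q i f w ≤ δ * NN d k), ∑ w, F d k q i f w ≤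
      ZZ d k q * (δ * NN d k) := by
    calc ∑ f ∈ (prps d k q).filter (fun f => ∑ w, F d k q i f w ≤ δ * NN d k), ∑ w, F d k q i f w
        ≤ ∑ _f ∈ (prps d k q).filter (fun f => ∑ w, F d k q i f w ≤ δ * NN d k), δ * NN d k :=
          Finset.sum_le_sum fun f hf => (mem_filter.1 hf).2
      _ = (((prps d k q).filter (fun f => ∑ w, F d k q i f w ≤ δ * NN d k)).card : ℝ) * (δ * NN d k) := by
          rw [Finset.sum_const, nsmul_eq_mul]
      _ ≤ ZZ d k q * (δ * NN d k) := by
          refine mul_le_mul_of_nonneg_right ?_ (mul_nonneg hδ.le hNpos.le)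
          unfold ZZ
          exact_mod_cast card_le_card (filter_subset _ _)
  have hbad : ∑ f ∈ (prps d k q).filter (fun f => ¬ ∑ w, F d k q i f w ≤ δ * NN d k), ∑ w, F d k q i f w ≤
      ZZ d k q * Real.exp (-(NN d k / (d : ℝ) ^ C)) * (NN d k * |M d q|) := by
    calc ∑ f ∈ (prps d k q).filter (fun f => ¬ ∑ w, F d k q i f w ≤ δ * NN d k), ∑ w, F d k q i f w
        ≤ ∑ _f ∈ (prps d k q).filter (fun f => ¬ ∑ w, F d k q i f w ≤ δ * NN d k), NN d k * |M d q| := by
          refine Finset.sum_le_sum fun f hf => ?_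
          have hf' := (mem_filter.1 hf).1
          calc ∑ w, F d k q i f w ≤ ∑ _w : Site d k, |M d q| :=
                Finset.sum_le_sum fun w _ => ((hM i f hf' w).2).trans (le_abs_self _)
            _ = NN d k * |M d q| := by
                rw [Finset.sum_const, nsmul_eq_mul, hcard]
      _ = (((prps d k q).filter (fun f => ¬ ∑ w, F d k q i f w ≤ δ * NN d k)).card : ℝ) * (NN d k * |M d q|) := by
          rw [Finset.sum_const, nsmul_eq_mul]
      _ ≤ ZZ d k q * Real.exp (-(NN d k / (d : ℝ) ^ C)) * (NN d k * |M d q|) := by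
          refine mul_le_mul_of_nonneg_right ?_ (mul_nonneg hNpos.le (abs_nonneg _))
          have h3 := hC i
          unfold Rar at h3
          refine le_trans (le_of_eq ?_) h3
          congr!
  have hexp : |M d q| * Real.exp (-(NN d k / (d : ℝ) ^ C)) ≤ δ := by
    refine Z0_exp hδ (abs_nonneg _) ?_
    rw [le_div_iff₀ hd0]
    linarith
  have hZ : 0 ≤ ZZ d k q := by
    unfold ZZ
    positivity
  have htot : NN d k * ∑ f ∈ prps d k q, F d k q i f v ≤ NN d k * (2 * δ * ZZ d k q) := by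
    rw [hmul, ← Finset.sum_filter_add_sum_filter_not (prps d k q) (fun f => ∑ w, F d k q i f w ≤ δ * NN d k)]
    have h4 : ZZ d k q * Real.exp (-(NN d k / (d : ℝ) ^ C)) * (NN d k * |M d q|) ≤ ZZ d k q * NN d k * δ := by
      have h5 := mul_le_mul_of_nonneg_left hexp (mul_nonneg hZ hNpos.le)
      linarith
    linarith [hgood, hbad, h4]
  exact le_of_mul_le_mul_left htot hNpos

end Pool.Agent.THR
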