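import Pool.Agent.Lib_MP_2c424f_thr.B7b
import Pool.Agent.Lib_MP_2c424f_thr.Z0

/-!
# THR B7c: the labels of two sites of the same parity (paper proof: B7)

`m, yM` exist (`mfe_exists`, `ym_exists`, `1 < ra d q`); `η` small compared with `gap` and `δ`; `w = y - x` is even (`LO.evn_add`).  By `LO.sum_transl` the sum
`S = ∑_f 1[eps_x ≠ eps_{x+w}]` does not depend on `x` (any parity), so `(N'/2) S = ∑_{x odd} ∑_f 1[eps_x ≠ eps_{x+w}]`, `N' = NN d (k+1)`.  For `f` off the rare event of `breg_wop` (`δ₁`) use `lab_two`,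
`lab_sum`: `∑_{x odd} 1[..] ≤ 2 (η + δ₁) N'/2 + 2^(-d) ∑_b ∑_x 1[et (tb x b) ≠ et (tb (x+w) b)]` (`4^d/2 · NN d k = 2^d N'/2`); for `f` in the rare event `≤ N'/2`.  By `pdiffT`
`∑_f 1[et t ≠ et t'] ≤ Z/d^5`.  So `S ≤ Z (2 (η + δ₁) + 1/d^5 + exp (-N'/d^C)) ≤ δ Z`.
-/

set_option autoImplicit false

open Finset Filter

namespace Pool.Agent.THR

open Pool.Agent.LO Pool.Agent.LIN

/-- covariance of the labels -/
private theorem B7c_eps {d k q : ℕ} (c : Fin q) (f : Site d k → Fin q) (v w : Site d k) :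
    eps c (fun x => f (x + w)) v = eps c f (v + w) := by
  unfold eps
  rw [(loc_transl f v w c).2.2.1]

/-- the mean does not depend on the site -/
private theorem B7c_mean {d k q : ℕ} (c : Fin q) (w x v : Site d k) :
    ∑ f ∈ prps d k q, (if eps c f v = eps c f (v + w) then (0 : ℝ) else 1) =
      ∑ f ∈ prps d k q, (if eps c f x = eps c f (x + w) then (0 : ℝ) else 1) := by
  have h := sum_transl (v - x)
    (fun f : Site d k → Fin q => if eps c f x = eps c f (x + w) then (0 : ℝ) else 1)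
  rw [← h]
  refine Finset.sum_congr rfl fun f _ => ?_
  rw [B7c_eps, B7c_eps, show x + (v - x) = v by abel, show x + w + (v - x) = v + w by abel]

/-- labels of two blocks -/
private theorem B7c_et {d k q : ℕ} (θ θ' : ℝ) (c : Fin q) (t t' : Blk d k) (B : ℝ)
    (h : ∀ [DecidablePred fun f : Site d (k + 1) → Fin q =>
        bdT θ θ' c t f ∨ ¬ (hiL θ c f t ↔ hiL θ c f t')],
      (((prps d (k + 1) q).filter fun f =>
        bdT θ θ' c t f ∨ ¬ (hiL θ c f t ↔ hiL θ c f t')).card : ℝ) ≤ B) :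
    ∑ f ∈ prps d (k + 1) q, (if et θ c f t = et θ c f t' then (0 : ℝ) else 1) ≤ B := by
  classical
  refine le_trans ?_ h
  rw [Finset.card_filter]
  push_cast
  refine Finset.sum_le_sum fun f _ => ?_
  by_cases h1 : et θ c f t = et θ c f t'
  · rw [if_pos h1]
    split_ifs <;> norm_num
  · rw [if_neg h1]
    have h2 : ¬ (hiL θ c f t ↔ hiL θ c f t') := by
      intro h3
      apply h1
      unfold et
      by_cases h4 : hiL θ c f t
      · rw [if_pos h4, if_pos (h3.1 h4)]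
      · rw [if_neg h4, if_neg fun h5 => h4 (h3.2 h5)]
    rw [if_pos (Or.inr h2)]

private theorem B7c_a1 {ε : ℝ} (hε : 0 < ε) (hε1 : ε ≤ 1) : 1 < a1 ε := by
  unfold a1
  rw [lt_div_iff₀ (by linarith)]
  linarith

theorem lab_same {ε : ℝ} (hε : 0 < ε) (hε1 : ε ≤ 1) (δ : ℝ) (hδ : 0 < δ) : EvT ε fun d k q => ∀ (c : Fin q)
    (x y : Site d (k + 1)), (evn x ↔ evn y) →
      ∑ f ∈ prps d (k + 1) q, (if eps c f x = eps c f y then (0 : ℝ) else 1) ≤ δ * ZZ d (k + 1) q := by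
  classical
  obtain ⟨g, hg, -, hgap⟩ := gap (a1 ε) (A0 ε) (B7c_a1 hε hε1)
  set η : ℝ := min (g / 2) (δ / 8) with hηdef
  have hη : 0 < η := by rw [hηdef]; positivity
  have hηg : η ≤ g / 2 := min_le_left _ _
  have hηδ : η ≤ δ / 8 := min_le_right _ _
  obtain ⟨C, hC⟩ := breg_wop hε hε1 η (δ / 8) hη (by linarith)
  have hP := pdiffT hε hε1 η hη
  have hN : EvT ε fun d k q => (d : ℝ) ^ C * Real.log (8 / δ) ≤ NN d (k + 1) :=
    (EvT_NN fun d _ => (d : ℝ) ^ C * Real.log (8 / δ)).shift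
  refine (((hC.and hP).and hN).and (EvT_reg hε hε1 (max 2 (8 / δ)))).mono ?_
  rintro d k q ⟨⟨⟨hR, hD⟩, hNN⟩, hM1, -, hM3, -, -, ha1, ha2, -⟩ c x y hxy
  have hd2' : (2 : ℝ) ≤ d := (le_max_left _ _).trans hM1
  have hd2 : 2 ≤ d := by exact_mod_cast hd2'
  have hk2' : (2 : ℝ) ≤ k := (le_max_left _ _).trans hM3
  have hk1 : 1 ≤ k := by
    have : 2 ≤ k := by exact_mod_cast hk2'
    omega
  have hd8 : 8 / δ ≤ d := (le_max_right _ _).trans hM1
  have hd0 : (0 : ℝ) < d := by linarith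
  have ha : 1 < ra d q := lt_of_lt_of_le (B7c_a1 hε hε1) ha1
  obtain ⟨m, hm⟩ := mfe_exists (ra d q) ha
  obtain ⟨yM, hM⟩ := ym_exists (ra d q) m ha hm
  obtain ⟨g1, g2, g3, -⟩ := hgap (ra d q) m yM ha1 ha2 hm hM
  have e1 : η < m := by linarith
  have e2 : yM + η < 1 := by linarith
  have e3 : 1 - m < yM := by linarith
  have hD' := hD m yM hm hM (by linarith) c
  set Z : ℝ := ZZ d (k + 1) q with hZ
  have hZ0 : 0 ≤ Z := by rw [hZ]; unfold ZZ; exact Nat.cast_nonneg _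
  set N : ℝ := NN d (k + 1) with hNdef
  have hNpos : 0 < N := by rw [hNdef]; unfold NN; positivity
  have h5 : 1 / (d : ℝ) ^ 5 ≤ δ / 8 := by
    have h6 : (d : ℝ) ≤ (d : ℝ) ^ 5 := le_self_pow₀ (by linarith) (by norm_num)
    rw [div_le_iff₀ (by positivity)]
    rw [div_le_iff₀ hδ] at hd8
    have h7 : (d : ℝ) * δ ≤ (d : ℝ) ^ 5 * δ := mul_le_mul_of_nonneg_right h6 hδ.le
    linarith
  have hexp : Real.exp (-(N / (d : ℝ) ^ C)) ≤ δ / 8 := by
    have h6 : Real.log (8 / δ) ≤ N / (d : ℝ) ^ C := by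
      rw [le_div_iff₀ (by positivity), mul_comm]
      exact hNN
    calc Real.exp (-(N / (d : ℝ) ^ C)) ≤ Real.exp (-Real.log (8 / δ)) :=
          Real.exp_le_exp.2 (by linarith)
      _ = δ / 8 := by
          rw [Real.exp_neg, Real.exp_log (by positivity), inv_div]
  -- the translation
  set w : Site d (k + 1) := y - x with hw
  have hyw : y = x + w := by rw [hw]; abel
  have hwe : evn w := by
    have h6 := evn_add (d := d) (k := k + 1) (by omega) x w
    rw [← hyw] at h6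
    tauto
  rw [hyw]
  set S : ℝ := ∑ f ∈ prps d (k + 1) q, (if eps c f x = eps c f (x + w) then (0 : ℝ) else 1)
    with hS
  -- sum over the odd sites
  have hcard : ((ods d (k + 1)).card : ℝ) = N / 2 := card_ods (by omega) (by omega)
  have hsum : ∑ f ∈ prps d (k + 1) q, ∑ v ∈ ods d (k + 1),
      (if eps c f v = eps c f (v + w) then (0 : ℝ) else 1) = N / 2 * S := by
    rw [Finset.sum_comm]
    rw [Finset.sum_congr rfl fun v _ => B7c_mean c w x v, Finset.sum_const, nsmul_eq_mul, hcard]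
  have h4d : (4 : ℝ) ^ d / 2 * NN d k = 2 ^ d * (N / 2) := by
    rw [hNdef, NN_succ, show (4 : ℝ) = 2 * 2 by norm_num, mul_pow]
    ring
  -- one colouring
  set θ : ℝ := 1 + m - η with hθ
  have hone : ∀ f ∈ prps d (k + 1) q, 2 ^ d * ∑ v ∈ ods d (k + 1),
      (if eps c f v = eps c f (v + w) then (0 : ℝ) else 1) ≤
      2 * (η + δ / 8) * (2 ^ d * (N / 2)) +
      ∑ b : Bt d, ∑ v ∈ ods d (k + 1), (if et θ c f (tb v b) = et θ c f (tb (v + w) b) then (0 : ℝ) else 1) +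
      (if ¬ (∀ m yM : ℝ, MFE (ra d q) m → YM (ra d q) m yM → ∀ c : Fin q,
        ((univ.filter fun t : Blk d k => ¬ ∃ τ, tauG η m yM c f t τ).card : ℝ) ≤ δ / 8 * NN d k)
        then (1 : ℝ) else 0) * (2 ^ d * (N / 2)) := by
    intro f _
    have hE0 : 0 ≤ ∑ b : Bt d, ∑ v ∈ ods d (k + 1),
        (if et θ c f (tb v b) = et θ c f (tb (v + w) b) then (0 : ℝ) else 1) :=
      Finset.sum_nonneg fun b _ => Finset.sum_nonneg fun v _ => by split_ifs <;> norm_num
    by_cases hf : ∀ m yM : ℝ, MFE (ra d q) m → YM (ra d q) m yM → ∀ c : Fin q,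
        ((univ.filter fun t : Blk d k => ¬ ∃ τ, tauG η m yM c f t τ).card : ℝ) ≤ δ / 8 * NN d k
    · rw [if_neg (not_not.2 hf), zero_mul, add_zero]
      have h6 := lab_two hd2 hk1 θ c f w hwe
      have h7 := lab_sum hd2 η m yM (δ / 8) hη e1 e2 e3 c f (by convert hf m yM hm hM c)
      rw [h4d, ← hθ] at h7
      linarith
    · rw [if_pos hf, one_mul]
      have h6 : ∑ v ∈ ods d (k + 1), (if eps c f v = eps c f (v + w) then (0 : ℝ) else 1) ≤ N / 2 := by
        calc ∑ v ∈ ods d (k + 1), (if eps c f v = eps c f (v + w) then (0 : ℝ) else 1)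
            ≤ ∑ v ∈ ods d (k + 1), (1 : ℝ) :=
              Finset.sum_le_sum fun v _ => by split_ifs <;> norm_num
          _ = N / 2 := by rw [Finset.sum_const, nsmul_eq_mul, mul_one, hcard]
      have h7 : (2 : ℝ) ^ d * ∑ v ∈ ods d (k + 1),
          (if eps c f v = eps c f (v + w) then (0 : ℝ) else 1) ≤ 2 ^ d * (N / 2) :=
        mul_le_mul_of_nonneg_left h6 (by positivity)
      have h8 : 0 ≤ 2 * (η + δ / 8) * (2 ^ d * (N / 2)) := by positivity
      linarith
  have htot := Finset.sum_le_sum hone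
  rw [← Finset.mul_sum, hsum, Finset.sum_add_distrib, Finset.sum_add_distrib, Finset.sum_const,
    nsmul_eq_mul, ← Finset.sum_mul] at htot
  -- the rare event
  have hrare : ∑ f ∈ prps d (k + 1) q, (if ¬ (∀ m yM : ℝ, MFE (ra d q) m → YM (ra d q) m yM → ∀ c : Fin q,
        ((univ.filter fun t : Blk d k => ¬ ∃ τ, tauG η m yM c f t τ).card : ℝ) ≤ δ / 8 * NN d k)
        then (1 : ℝ) else 0) ≤ Z * (δ / 8) := by
    have h6 : ∑ f ∈ prps d (k + 1) q, (if ¬ (∀ m yM : ℝ, MFE (ra d q) m → YM (ra d q) m yM → ∀ c : Fin q,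
        ((univ.filter fun t : Blk d k => ¬ ∃ τ, tauG η m yM c f t τ).card : ℝ) ≤ δ / 8 * NN d k)
        then (1 : ℝ) else 0) ≤ Z * Real.exp (-(N / (d : ℝ) ^ C)) := by
      unfold Rar at hR
      rw [Finset.card_filter] at hR
      push_cast at hR
      convert hR
    exact h6.trans (mul_le_mul_of_nonneg_left hexp hZ0)
  -- labels of blocks
  have hlab : ∑ f ∈ prps d (k + 1) q, ∑ b : Bt d, ∑ v ∈ ods d (k + 1),
      (if et θ c f (tb v b) = et θ c f (tb (v + w) b) then (0 : ℝ) else 1) ≤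
      2 ^ d * (N / 2) * (Z * (δ / 8)) := by
    rw [Finset.sum_comm]
    have h6 : ∀ b ∈ (univ : Finset (Bt d)), ∑ f ∈ prps d (k + 1) q, ∑ v ∈ ods d (k + 1),
        (if et θ c f (tb v b) = et θ c f (tb (v + w) b) then (0 : ℝ) else 1) ≤
        N / 2 * (Z * (δ / 8)) := by
      intro b _
      rw [Finset.sum_comm]
      have h7 : ∀ v ∈ ods d (k + 1), ∑ f ∈ prps d (k + 1) q,
          (if et θ c f (tb v b) = et θ c f (tb (v + w) b) then (0 : ℝ) else 1) ≤ Z * (δ / 8) := by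
        intro v _
        refine B7c_et θ (yM + η) c (tb v b) (tb (v + w) b) (Z * (δ / 8)) ?_
        intro _
        have h8 := hD' (tb v b) (tb (v + w) b)
        have h9 : Z * (1 / (d : ℝ) ^ 5) ≤ Z * (δ / 8) := mul_le_mul_of_nonneg_left h5 hZ0
        refine le_trans (le_of_eq ?_) (h8.trans h9)
        congr 2
        ext f
        simp only [Finset.mem_filter]
      calc ∑ v ∈ ods d (k + 1), ∑ f ∈ prps d (k + 1) q,
          (if et θ c f (tb v b) = et θ c f (tb (v + w) b) then (0 : ℝ) else 1)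
          ≤ ∑ v ∈ ods d (k + 1), Z * (δ / 8) := Finset.sum_le_sum h7
        _ = N / 2 * (Z * (δ / 8)) := by rw [Finset.sum_const, nsmul_eq_mul, hcard]
    refine (Finset.sum_le_sum h6).trans (le_of_eq ?_)
    rw [Finset.sum_const, Finset.card_univ, nsmul_eq_mul]
    have h7 : (Fintype.card (Bt d) : ℝ) = 2 ^ d := by
      rw [Fintype.card_fun, Fintype.card_bool, Fintype.card_fin]
      push_cast
      rfl
    rw [h7]
    ring
  have hK : 0 < (2 : ℝ) ^ d * (N / 2) := by positivity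
  have hrare' := mul_le_mul_of_nonneg_right hrare hK.le
  have hfin : (2 : ℝ) ^ d * (N / 2) * S ≤ 2 ^ d * (N / 2) * (δ * Z) := by
    have h6 : ((prps d (k + 1) q).card : ℝ) * (2 * (η + δ / 8) * (2 ^ d * (N / 2))) ≤
        Z * (δ / 2) * (2 ^ d * (N / 2)) := by
      have h7 : ((prps d (k + 1) q).card : ℝ) = Z := rfl
      rw [h7]
      have h8 : 2 * (η + δ / 8) ≤ δ / 2 := by linarith
      have h9 : Z * (2 * (η + δ / 8)) ≤ Z * (δ / 2) := mul_le_mul_of_nonneg_left h8 hZ0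
      have h10 := mul_le_mul_of_nonneg_right h9 hK.le
      linarith
    have h7 : 0 ≤ 2 ^ d * (N / 2) * (δ * Z) := by positivity
    have h8 : (2 : ℝ) ^ d * (N / 2 * S) = 2 ^ d * (N / 2) * S := by ring
    rw [h8] at htot
    have h9 : Z * (δ / 2) * (2 ^ d * (N / 2)) + 2 ^ d * (N / 2) * (Z * (δ / 8)) +
        Z * (δ / 8) * (2 ^ d * (N / 2)) = 3 / 4 * (2 ^ d * (N / 2) * (δ * Z)) := by ring
    linarith
  exact le_of_mul_le_mul_left hfin hK

end Pool.Agent.THR
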