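import Pool.Agent.Lib_MP_2c424f_thr.B7b
import Pool.Agent.Lib_MP_2c424f_thr.Z0
import Pool.Agent.Lib_MP_2c424f_thr.B7c

/-!
# THR B7: the labels of two sites (paper proof: B7)

* `lab_same`: `m, yM` exist (`mfe_exists`, `ym_exists`, `1 < ra d q`); `η` small compared with `gap` and `δ`; `w = y - x` is even (`LO.evn_add`).  By `LO.sum_transl` the sum
  `S = ∑_f 1[eps_x ≠ eps_{x+w}]` does not depend on `x` (any parity), so `(N'/2) S = ∑_{x odd} ∑_f 1[eps_x ≠ eps_{x+w}]`, `N' = NN d (k+1)`.  For `f` off the rare event of `breg_wop` (`δ₁`) use `lab_two`,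
  `lab_sum`: `∑_{x odd} 1[..] ≤ 2 (η + δ₁) N'/2 + 2^(-d) ∑_b ∑_x 1[et (tb x b) ≠ et (tb (x+w) b)]` (`4^d/2 · NN d k = 2^d N'/2`); for `f` in the rare event `≤ N'/2`.  By `pdiffT`
  `∑_f 1[et t ≠ et t'] ≤ Z/d^5`.  So `S ≤ Z (2 (η + δ₁) + 1/d^5 + exp (-N'/d^C)) ≤ δ Z`.
* `lab_opp`: `y' = y + sv σ` has the parity of `x`; `1[eps_x = eps_y] ≤ 1[eps_x ≠ eps_y'] + 1[eps_y' = eps_y]` (`eps = ± 1`); `lab_same` and `Pin.fl` with `transl_mean` (torus of side `2^(k+1)`: `EvT.shift`).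
-/

set_option autoImplicit false

open Finset Filter

namespace Pool.Agent.THR

open Pool.Agent.LO Pool.Agent.LIN

private theorem B7_a1 {ε : ℝ} (hε : 0 < ε) (hε1 : ε ≤ 1) : 1 < a1 ε := by
  unfold a1
  rw [one_lt_div (by linarith)]
  linarith

private theorem B7_eps {d k q : ℕ} (c : Fin q) (f : Site d k → Fin q) (v w : Site d k) :
    eps c (fun x => f (x + w)) v = eps c f (v + w) := by
  unfold eps
  rw [(loc_transl f v w c).2.2.1]

private theorem B7_mc01 {q : ℕ} (φ : Fin q → ℝ) (h : ∀ c, 0 ≤ φ c ∧ φ c ≤ 1) : 0 ≤ mc φ ∧ mc φ ≤ 1 := by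
  unfold mc
  constructor
  · exact div_nonneg (Finset.sum_nonneg fun c _ => (h c).1) (Nat.cast_nonneg q)
  · rcases Nat.eq_zero_or_pos q with hq | hq
    · subst hq
      simp
    · have hq0 : (0 : ℝ) < q := by exact_mod_cast hq
      rw [div_le_one hq0]
      calc ∑ c, φ c ≤ ∑ _c : Fin q, (1 : ℝ) := Finset.sum_le_sum fun c _ => (h c).2
        _ = q := by simp

private theorem B7_fl {ε : ℝ} (hε : 0 < ε) (hε1 : ε ≤ 1) (δ : ℝ) (hδ : 0 < δ) :
    WOPi ε (fun d _ _ => Stp d) fun d k q σ f =>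
      ∑ v : Site d k, mc (fun c => if eps c f v = eps c f (v + sv σ) then (1 : ℝ) else 0) ≤ δ * NN d k := by
  obtain ⟨t, C₆, _, _, _, h⟩ := pin_wop hε hε1
  refine ((h δ hδ).toi (fun d _ _ => Stp d)).mono ?_
  refine (EvT_reg hε hε1 1).mono ?_
  rintro d k q ⟨_, _, _, _, _, ha1, _, _⟩ σ f _ hP
  have ha : 1 < ra d q := lt_of_lt_of_le (B7_a1 hε hε1) ha1
  obtain ⟨m, hm⟩ := mfe_exists _ ha
  obtain ⟨yM, hy⟩ := ym_exists _ m ha hm
  exact (hP.2 m yM hm hy).fl σ

private theorem B7_site {ε : ℝ} (hε : 0 < ε) (hε1 : ε ≤ 1) (δ : ℝ) (hδ : 0 < δ) :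
    EvT ε fun d k q => ∀ (σ : Stp d) (v : Site d k),
      ∑ f ∈ prps d k q, mc (fun c => if eps c f v = eps c f (v + sv σ) then (1 : ℝ) else 0) ≤ 2 * δ * ZZ d k q := by
  refine transl_mean (ε := ε) (fun d _ _ => Stp d)
    (fun d k q σ f v => mc (fun c : Fin q => if eps c f v = eps c f (v + sv σ) then (1 : ℝ) else 0))
    (fun _ _ => 1) δ hδ ?_ ?_ (B7_fl hε hε1 δ hδ)
  · refine (EvT_reg hε hε1 1).mono ?_
    intro d k q _ σ f _ v
    exact B7_mc01 _ fun c => by split_ifs <;> norm_num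
  · intro d k q σ f v w
    have e : v + sv σ + w = v + w + sv σ := by abel
    simp only [B7_eps, e]

theorem lab_opp {ε : ℝ} (hε : 0 < ε) (hε1 : ε ≤ 1) (δ : ℝ) (hδ : 0 < δ) : EvT ε fun d k q => ∀ (x y : Site d (k + 1)),
    ¬ (evn x ↔ evn y) →
      ∑ f ∈ prps d (k + 1) q, mc (fun c => if eps c f x = eps c f y then (1 : ℝ) else 0) ≤ δ * ZZ d (k + 1) q := by
  refine (((lab_same hε hε1 (δ / 2) (by positivity)).and (B7_site hε hε1 (δ / 4) (by positivity)).shift).and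
    (EvT_reg hε hε1 1)).mono ?_
  rintro d k q ⟨⟨h1, h2⟩, hd, hq, _⟩ x y hxy
  have hd1 : 1 ≤ d := by exact_mod_cast hd
  have hq0 : (0 : ℝ) < q := by linarith
  set σ : Stp d := (⟨0, hd1⟩, true) with hσ
  have hev : evn (y + sv σ) ↔ ¬ evn y := evn_step (by omega) y σ
  have hxy' : evn x ↔ evn (y + sv σ) := by
    rw [hev]
    constructor
    · intro hx hy
      exact hxy ⟨fun _ => hy, fun _ => hx⟩
    · intro hy
      by_contra hx
      exact hxy ⟨fun h => absurd h hx, fun h => absurd h hy⟩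
  have a1 : ∑ f ∈ prps d (k + 1) q, mc (fun c => if eps c f x = eps c f (y + sv σ) then (0 : ℝ) else 1) ≤
      δ / 2 * ZZ d (k + 1) q := by
    unfold mc
    rw [← Finset.sum_div, Finset.sum_comm, div_le_iff₀ hq0]
    calc ∑ c : Fin q, ∑ f ∈ prps d (k + 1) q, (if eps c f x = eps c f (y + sv σ) then (0 : ℝ) else 1)
        ≤ ∑ _c : Fin q, δ / 2 * ZZ d (k + 1) q := Finset.sum_le_sum fun c _ => h1 c x (y + sv σ) hxy'
      _ = δ / 2 * ZZ d (k + 1) q * q := by
          rw [Finset.sum_const, Finset.card_univ, Fintype.card_fin, nsmul_eq_mul]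
          ring
  have a2 := h2 σ y
  have a3 : ∀ f : Site d (k + 1) → Fin q, mc (fun c => if eps c f x = eps c f y then (1 : ℝ) else 0) ≤
      mc (fun c => if eps c f x = eps c f (y + sv σ) then (0 : ℝ) else 1) +
        mc (fun c => if eps c f y = eps c f (y + sv σ) then (1 : ℝ) else 0) := by
    intro f
    unfold mc
    rw [← add_div, ← Finset.sum_add_distrib]
    refine div_le_div_of_nonneg_right (Finset.sum_le_sum fun c _ => ?_) hq0.le
    by_cases e1 : eps c f x = eps c f y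
    · by_cases e2 : eps c f x = eps c f (y + sv σ)
      · have e3 : eps c f y = eps c f (y + sv σ) := by rw [← e1, e2]
        rw [if_pos e1, if_pos e2, if_pos e3]
        norm_num
      · rw [if_pos e1, if_neg e2]
        split_ifs <;> norm_num
    · rw [if_neg e1]
      split_ifs <;> norm_num
  calc ∑ f ∈ prps d (k + 1) q, mc (fun c => if eps c f x = eps c f y then (1 : ℝ) else 0)
      ≤ ∑ f ∈ prps d (k + 1) q, (mc (fun c => if eps c f x = eps c f (y + sv σ) then (0 : ℝ) else 1) +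
        mc (fun c => if eps c f y = eps c f (y + sv σ) then (1 : ℝ) else 0)) := Finset.sum_le_sum fun f _ => a3 f
    _ ≤ δ * ZZ d (k + 1) q := by
        rw [Finset.sum_add_distrib]
        linarith

end Pool.Agent.THR
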