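import Pool.Agent.Lib_MP_2c424f_thr.B1

/-!
# THR B7a: the block of a site for a given bit vector (paper proof: B7)

For every `b` the map `(t, a) ↦ pt t a b` is a bijection from `Blk d k × Bt d` to the sites: coordinatewise `x i = 2 t_i + a_i + b_i` mod `2^(k+1)`.
* `tb x b i = ⌊(x i - b_i)/2⌋`, `ab x b i` = parity of `x i - b_i`.
* `sum_tb`: reindexing (`Equiv` or `LO.sum_pt`).
-/

set_option autoImplicit false

open Finset Filter

namespace Pool.Agent.THR

open Pool.Agent.LO Pool.Agent.LIN

variable {d k q : ℕ}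

/-- the block -/
def tb (x : Site d (k + 1)) (b : Bt d) : Blk d k :=
  fun i => (((x i - (if b i then 1 else 0) : ZMod (2 ^ (k + 1))).val / 2 : ℕ) : ZMod (2 ^ k))

/-- the bits -/
def ab (x : Site d (k + 1)) (b : Bt d) : Bt d :=
  fun i => (x i - (if b i then 1 else 0) : ZMod (2 ^ (k + 1))).val % 2 == 1

private theorem b7a_pt (t : Blk d k) (a b : Bt d) (j : Fin d) :
    pt t a b j = ((2 * (t j).val + (if a j then 1 else 0) : ℕ) : ZMod (2 ^ (k + 1))) + (if b j then 1 else 0) := by
  simp only [pt, bas, bv, Pi.add_apply]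
  push_cast
  rfl

theorem pt_tb (x : Site d (k + 1)) (b : Bt d) : pt (tb x b) (ab x b) b = x := by
  funext i
  rw [b7a_pt]
  have hp : 2 ^ (k + 1) = 2 * 2 ^ k := by ring
  set u : ZMod (2 ^ (k + 1)) := x i - (if b i then 1 else 0) with hu
  have hult : u.val < 2 ^ (k + 1) := ZMod.val_lt u
  have h1 : (tb x b i).val = u.val / 2 := by
    show (((u.val / 2 : ℕ) : ZMod (2 ^ k))).val = u.val / 2
    rw [ZMod.val_natCast, Nat.mod_eq_of_lt]
    omega
  have h2 : (if ab x b i then 1 else 0 : ℕ) = u.val % 2 := by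
    have : ab x b i = (u.val % 2 == 1) := rfl
    rw [this]
    rcases Nat.mod_two_eq_zero_or_one u.val with h | h <;> rw [h] <;> rfl
  rw [h1, h2, Nat.div_add_mod, ZMod.natCast_zmod_val, hu, sub_add_cancel]

theorem tb_pt (t : Blk d k) (a b : Bt d) : tb (pt t a b) b = t ∧ ab (pt t a b) b = a := by
  have hp : 2 ^ (k + 1) = 2 * 2 ^ k := by ring
  have key : ∀ i, (pt t a b i - (if b i then 1 else 0) : ZMod (2 ^ (k + 1))).val =
      2 * (t i).val + (if a i then 1 else 0) := by
    intro i
    rw [b7a_pt, add_sub_cancel_right, ZMod.val_natCast, Nat.mod_eq_of_lt]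
    have := ZMod.val_lt (t i)
    split_ifs <;> omega
  constructor
  · funext i
    unfold tb
    rw [key i]
    have : (2 * (t i).val + (if a i then 1 else 0)) / 2 = (t i).val := by
      split_ifs <;> omega
    rw [this, ZMod.natCast_zmod_val]
  · funext i
    unfold ab
    rw [key i]
    cases h : a i
    · have : (2 * (t i).val + (if false = true then 1 else 0)) % 2 = 0 := by
        simp
      rw [this]; rfl
    · have : (2 * (t i).val + (if true = true then 1 else 0)) % 2 = 1 := by
        simp only [if_true]; omega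
      rw [this]; rfl

open scoped Classical in
/-- sums over the odd pairs of all blocks -/
theorem sum_tb (F : Blk d k → Site d (k + 1) → ℝ) :
    ∑ t : Blk d k, ∑ p ∈ oS (d := d) none, F t (pt t p.1 p.2) = ∑ b : Bt d, ∑ x ∈ ods d (k + 1), F (tb x b) x := by
  have h := sum_pt (d := d) (k := k) (fun x b => if ¬ evn x then F (tb x b) x else 0)
  have hL : ∑ t : Blk d k, ∑ p ∈ oS (d := d) none, F t (pt t p.1 p.2) =
      ∑ t : Blk d k, ∑ a, ∑ b, (if ¬ evn (pt t a b) then F (tb (pt t a b) b) (pt t a b) else 0) := by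
    refine Finset.sum_congr rfl fun t _ => ?_
    rw [← Finset.sum_product', Finset.univ_product_univ]
    unfold oS
    rw [Finset.sum_filter]
    refine Finset.sum_congr rfl fun p _ => ?_
    rw [evn_pt, (tb_pt t p.1 p.2).1]
    by_cases ho : od p.1 p.2
    · rw [if_pos (⟨ho, trivial⟩ : od p.1 p.2 ∧ inS none p.1 p.2), if_pos (not_not.2 ho)]
    · rw [if_neg (fun h => ho h.1), if_neg (not_not.2 ho)]
  rw [hL, h, Finset.sum_comm]
  refine Finset.sum_congr rfl fun b _ => ?_
  unfold ods
  rw [Finset.sum_filter]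

end Pool.Agent.THR
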