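import Pool.Agent.Lib_MP_2c424f_thr.B6
import Pool.Agent.Lib_MP_2c424f_thr.B7a
import Pool.Agent.Lib_MP_2c424f_thr.B0
import Pool.Agent.Lib_MP_2c424f_lo.Trans

/-!
# THR B7b: the label of a site is the label of its blocks (paper proof: B7)

`et θ c f t = 1` if the block has the label high, `-1` otherwise.  `θ = 1 + m - η`.
* `lab_pt`: block with `tauG ... τ`, `η < m`, `yM + η < 1`: if `τ = 1 + m` then the block is high (all `Ms s t bq ≥ 1 + m - η`) and `|ya - τ| ≤ η` implies `ya ≥ 1`, `eps = 1`; otherwise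
  `Ms none t bq ≤ yM + η < 1 ≤ 1 + m - η`, so the block is not high, and `ya ≤ yM + η < 1`, `eps = -1`.  So `1[eps ≠ et] ≤ 1[η < |ya - τ|]`.
* `lab_sum`: blocks which are not close contribute at most the number of their odd pairs; `|oS none| = 4^d/2`.
* `lab_two`: for odd `x` and even `w`, `x + w` is odd; for every `b`, `1[eps_x ≠ eps_{x+w}] ≤ 1[eps_x ≠ et (tb x b)] + 1[et (tb x b) ≠ et (tb (x+w) b)] + 1[et (tb (x+w) b) ≠ eps_{x+w}]`.
  Sum over the odd `x` and over `b`; the third sum equals the first one (`x ↦ x + w` permutes the odd sites: `LO.sum_ods_transl`); `sum_tb`.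
-/

set_option autoImplicit false

open Finset Filter

namespace Pool.Agent.THR

open Pool.Agent.LO Pool.Agent.LIN

open scoped Classical in
/-- label of a block -/
noncomputable def et {d k q : ℕ} (θ : ℝ) (c : Fin q) (f : Site d (k + 1) → Fin q) (t : Blk d k) : ℝ :=
  if hiL θ c f t then 1 else -1

theorem lab_pt {d k q : ℕ} (hd : 2 ≤ d) (η m yM : ℝ) (hη : 0 < η) (h1 : η < m) (h2 : yM + η < 1) (h3 : 1 - m < yM) (c : Fin q)
    (f : Site d (k + 1) → Fin q) (t : Blk d k) (τ : ℝ) (h : tauG η m yM c f t τ) :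
    Ms none t (fun x => if eps c f x = et (1 + m - η) c f t then (0 : ℝ) else 1) ≤ η := by
  obtain ⟨hτ, hs, hn⟩ := h
  refine le_trans (Ms_mono none t fun a b _ => ?_) hn
  beta_reduce
  by_cases hc : η < |ya c f (pt t a b) - τ|
  · rw [if_pos hc]
    split_ifs <;> norm_num
  · rw [if_neg hc]
    push Not at hc
    have hc' := abs_le.1 hc
    have hlow : τ ≤ yM → eps c f (pt t a b) = et (1 + m - η) c f t := by
      intro hle
      have e1 : eps c f (pt t a b) = -1 := by
        unfold eps
        rw [if_neg]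
        intro h5
        linarith [hc'.2]
      have e2 : et (1 + m - η) c f t = -1 := by
        unfold et
        rw [if_neg]
        intro h5
        have h6 := h5 none
        have h7 := (abs_le.1 (hs none)).2
        linarith
      rw [e1, e2]
    have key : eps c f (pt t a b) = et (1 + m - η) c f t := by
      rcases hτ with hτ | hτ | hτ
      · exact hlow (by rw [hτ]; exact h3.le)
      · exact hlow (by rw [hτ])
      · have e1 : eps c f (pt t a b) = 1 := by
          unfold eps
          rw [if_pos]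
          linarith [hc'.1]
        have e2 : et (1 + m - η) c f t = 1 := by
          unfold et
          rw [if_pos]
          intro s
          have h7 := (abs_le.1 (hs s)).1
          linarith
        rw [e1, e2]
    rw [if_pos key]

open scoped Classical in
theorem lab_sum {d k q : ℕ} (hd : 2 ≤ d) (η m yM δ : ℝ) (hη : 0 < η) (h1 : η < m) (h2 : yM + η < 1) (h3 : 1 - m < yM)
    (c : Fin q) (f : Site d (k + 1) → Fin q)
    (h : ((univ.filter fun t : Blk d k => ¬ ∃ τ, tauG η m yM c f t τ).card : ℝ) ≤ δ * NN d k) :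
    ∑ b : Bt d, ∑ x ∈ ods d (k + 1), (if eps c f x = et (1 + m - η) c f (tb x b) then (0 : ℝ) else 1) ≤
      (η + δ) * (4 ^ d / 2 * NN d k) := by
  rw [← sum_tb fun t x => if eps c f x = et (1 + m - η) c f t then (0 : ℝ) else 1]
  have hS : ((oS (d := d) none).card : ℝ) = (4 : ℝ) ^ d / 2 := by
    rw [oS_card hd none, if_pos rfl]
  have hS0 : (0 : ℝ) < (4 : ℝ) ^ d / 2 := by positivity
  have hone : ∀ t : Blk d k, ∑ p ∈ oS (d := d) none,
      (if eps c f (pt t p.1 p.2) = et (1 + m - η) c f t then (0 : ℝ) else 1) ≤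
      η * (4 ^ d / 2) + (if ¬ ∃ τ, tauG η m yM c f t τ then (4 : ℝ) ^ d / 2 else 0) := by
    intro t
    by_cases ht : ∃ τ, tauG η m yM c f t τ
    · rw [if_neg (not_not.2 ht), add_zero]
      obtain ⟨τ, hτ⟩ := ht
      have h4 := lab_pt hd η m yM hη h1 h2 h3 c f t τ hτ
      unfold Ms at h4
      rw [hS, div_le_iff₀ hS0] at h4
      exact h4
    · rw [if_pos ht]
      have h4 : ∑ p ∈ oS (d := d) none,
          (if eps c f (pt t p.1 p.2) = et (1 + m - η) c f t then (0 : ℝ) else 1) ≤
          ∑ p ∈ oS (d := d) none, (1 : ℝ) := by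
        refine sum_le_sum fun p _ => ?_
        split_ifs <;> norm_num
      rw [sum_const, nsmul_eq_mul, mul_one, hS] at h4
      have h5 : 0 ≤ η * (4 ^ d / 2) := (mul_pos hη hS0).le
      linarith
  refine le_trans (sum_le_sum fun t _ => hone t) ?_
  rw [sum_add_distrib, sum_const, nsmul_eq_mul, card_univ, card_Blk, ← sum_filter, sum_const, nsmul_eq_mul]
  have h6 := mul_le_mul_of_nonneg_right h hS0.le
  calc NN d k * (η * (4 ^ d / 2)) +
        ((univ.filter fun t : Blk d k => ¬ ∃ τ, tauG η m yM c f t τ).card : ℝ) * (4 ^ d / 2)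
      ≤ NN d k * (η * (4 ^ d / 2)) + δ * NN d k * (4 ^ d / 2) := by linarith
    _ = (η + δ) * (4 ^ d / 2 * NN d k) := by ring

theorem lab_two {d k q : ℕ} (hd : 2 ≤ d) (hk : 1 ≤ k) (θ : ℝ) (c : Fin q) (f : Site d (k + 1) → Fin q) (w : Site d (k + 1))
    (hw : evn w) :
    2 ^ d * ∑ x ∈ ods d (k + 1), (if eps c f x = eps c f (x + w) then (0 : ℝ) else 1) ≤
      2 * ∑ b : Bt d, ∑ x ∈ ods d (k + 1), (if eps c f x = et θ c f (tb x b) then (0 : ℝ) else 1) +
        ∑ b : Bt d, ∑ x ∈ ods d (k + 1), (if et θ c f (tb x b) = et θ c f (tb (x + w) b) then (0 : ℝ) else 1) := by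
  have hone : ∀ b : Bt d, ∑ x ∈ ods d (k + 1), (if eps c f x = eps c f (x + w) then (0 : ℝ) else 1) ≤
      2 * ∑ x ∈ ods d (k + 1), (if eps c f x = et θ c f (tb x b) then (0 : ℝ) else 1) +
        ∑ x ∈ ods d (k + 1), (if et θ c f (tb x b) = et θ c f (tb (x + w) b) then (0 : ℝ) else 1) := by
    intro b
    have h3 : ∑ x ∈ ods d (k + 1), (if eps c f (x + w) = et θ c f (tb (x + w) b) then (0 : ℝ) else 1) =
        ∑ x ∈ ods d (k + 1), (if eps c f x = et θ c f (tb x b) then (0 : ℝ) else 1) :=
      sum_ods_transl (by omega) hw fun v => if eps c f v = et θ c f (tb v b) then (0 : ℝ) else 1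
    have h4 : ∑ x ∈ ods d (k + 1), (if eps c f x = eps c f (x + w) then (0 : ℝ) else 1) ≤
        ∑ x ∈ ods d (k + 1), ((if eps c f x = et θ c f (tb x b) then (0 : ℝ) else 1) +
          (if et θ c f (tb x b) = et θ c f (tb (x + w) b) then (0 : ℝ) else 1) +
          (if eps c f (x + w) = et θ c f (tb (x + w) b) then (0 : ℝ) else 1)) := by
      refine sum_le_sum fun x _ => ?_
      by_cases a1 : eps c f x = et θ c f (tb x b)
      · by_cases a2 : et θ c f (tb x b) = et θ c f (tb (x + w) b)
        · by_cases a3 : eps c f (x + w) = et θ c f (tb (x + w) b)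
          · rw [if_pos (a1.trans (a2.trans a3.symm)), if_pos a1, if_pos a2, if_pos a3]
            norm_num
          · rw [if_pos a1, if_pos a2, if_neg a3]
            split_ifs <;> norm_num
        · rw [if_pos a1, if_neg a2]
          split_ifs <;> norm_num
      · rw [if_neg a1]
        split_ifs <;> norm_num
    rw [sum_add_distrib, sum_add_distrib, h3] at h4
    linarith
  have h5 := sum_le_sum fun (b : Bt d) (_ : b ∈ (univ : Finset (Bt d))) => hone b
  rw [sum_const, nsmul_eq_mul, card_univ, sum_add_distrib, ← mul_sum] at h5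
  have h6 : ((Fintype.card (Bt d) : ℕ) : ℝ) = 2 ^ d := by
    rw [Fintype.card_fun, Fintype.card_bool, Fintype.card_fin]
    push_cast
    rfl
  rw [h6] at h5
  exact h5

end Pool.Agent.THR
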