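import Pool.Agent.Lib_MP_2c424f_thr.M1

/-!
# THR C1: the code (paper proof: C1)

Split `F` according to the colours on `R` (at most `q^|R|` classes, one of them may be empty).  In a class `hhat f = H` is fixed.  For `f` in
the class: `1 ≤ exp (Λ - J f) = exp Λ · ∏_{u ∈ b} (exp (-H u (f u))/∑_γ exp (-H u γ)) · ∏_{v ∈ !b} 1/av f v`.  Sum over all proper `f`: for fixed colours on the
class `b` the sum over the colours on `!b` (each `v` has `av f v` allowed colours, and `av f v` depends on the class `b` only) of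
`∏ 1/av` is at most `1`; the sum over all colourings of the class `b` of the product of probabilities is `1`.
(For instance: `∑_{f ∈ prps} G f = ∑_{f : Site → Fin q} ...`; use functions `cls b → Fin q` or sum over all `f` with a factor `q^(-|!b|)`; see
`LIN.resum` for this trick.)
-/

set_option autoImplicit false

open Finset Filter

namespace Pool.Agent.THR

open Pool.Agent.LO Pool.Agent.LIN

variable {d k q : ℕ}

/-- code length -/
noncomputable def JJ (b : Bool) (H : Site d k → Fin q → ℝ) (f : Site d k → Fin q) : ℝ :=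
  ∑ u ∈ cls b d k, (H u (f u) + Real.log (∑ γ, Real.exp (-H u γ))) + ∑ v ∈ cls (!b) d k, Real.log (av f v)

private theorem C1_mem_SS (f : Site d k → Fin q) (v : Site d k) (c : Fin q) :
    c ∈ SS f v ↔ ∃ σ : Stp d, f (v + sv σ) = c := by
  simp only [SS, mem_image, mem_univ, true_and]

/-- properness is tested on one class -/
private theorem C1_prp (hk : 1 ≤ k) (b : Bool) (f : Site d k → Fin q) :
    Prp f ↔ ∀ v ∈ cls b d k, f v ∉ SS f v := by
  constructor
  · intro hf v _ hv
    obtain ⟨σ, hσ⟩ := (C1_mem_SS f v (f v)).1 hv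
    exact hf v σ hσ
  · intro h x σ hx
    by_cases hb : x ∈ cls b d k
    · exact h x hb ((C1_mem_SS f x (f x)).2 ⟨σ, hx⟩)
    · have h1 : x + sv σ ∈ cls b d k := (mem_cls_step hk b x σ).2 ((cls_not b x).2 hb)
      refine h _ h1 ((C1_mem_SS f _ _).2 ⟨(σ.1, !σ.2), ?_⟩)
      rw [add_assoc, show (sv σ : Site d k) + sv (σ.1, !σ.2) = 0 from sv_opp σ.1 σ.2, add_zero, hx]

open scoped Classical in
/-- sum over the colours of one class, the weight depends on the other class only -/
private theorem C1_resum (hk : 1 ≤ k) (b : Bool) (p : Site d k → Fin q → ℝ) (hp : ∀ u c, 0 ≤ p u c)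
    (hs : ∀ u, ∑ c, p u c = 1) :
    ∑ f ∈ prps d k q, (∏ u ∈ cls b d k, p u (f u)) * ∏ v ∈ cls (!b) d k, (1 / (av f v : ℝ)) ≤ 1 := by
  set e := Equiv.piEquivPiSubtypeProd (fun x : Site d k => x ∈ cls (!b) d k) (fun _ => Fin q) with he
  have hcb : ∀ x : Site d k, x ∈ cls b d k ↔ ¬ x ∈ cls (!b) d k := by
    intro x
    rw [cls_not]
    exact not_not.symm
  have h0 : ∑ f ∈ prps d k q, (∏ u ∈ cls b d k, p u (f u)) * ∏ v ∈ cls (!b) d k, (1 / (av f v : ℝ)) =
      ∑ f : Site d k → Fin q, (∏ u ∈ cls b d k, p u (f u)) *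
        ∏ v ∈ cls (!b) d k, (if f v ∉ SS f v then 1 / (av f v : ℝ) else 0) := by
    unfold prps
    rw [sum_filter]
    refine sum_congr rfl fun f _ => ?_
    by_cases hf : Prp f
    · rw [if_pos hf]
      congr 1
      refine prod_congr rfl fun v hv => ?_
      rw [if_pos ((C1_prp hk (!b) f).1 hf v hv)]
    · rw [if_neg hf]
      rw [C1_prp hk (!b) f] at hf
      push Not at hf
      obtain ⟨v, hv, h1⟩ := hf
      symm
      refine mul_eq_zero_of_right _ (prod_eq_zero hv ?_)
      rw [if_neg (not_not.2 h1)]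
  rw [h0, ← e.symm.sum_comp, Fintype.sum_prod_type_right]
  -- the colours seen from the class do not depend on the colours of the class
  have hSS : ∀ (h : {x // ¬ x ∈ cls (!b) d k} → Fin q) (g g' : {x // x ∈ cls (!b) d k} → Fin q), ∀ v ∈ cls (!b) d k,
      SS (e.symm (g, h)) v = SS (e.symm (g', h)) v := by
    intro h g g' v hv
    unfold SS
    refine image_congr ?_
    intro σ _
    have h1 : v + sv σ ∉ cls (!b) d k := by
      rw [mem_cls_step hk, Bool.not_not]
      intro hc
      exact (hcb v).1 hc hv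
    simp only [he, Equiv.piEquivPiSubtypeProd_symm_apply, dif_neg h1]
  have hstep : ∀ h : {x // ¬ x ∈ cls (!b) d k} → Fin q,
      ∑ g : {x // x ∈ cls (!b) d k} → Fin q, (∏ u ∈ cls b d k, p u (e.symm (g, h) u)) *
        ∏ v ∈ cls (!b) d k, (if e.symm (g, h) v ∉ SS (e.symm (g, h)) v then 1 / (av (e.symm (g, h)) v : ℝ) else 0) ≤
      ∏ u : {x // ¬ x ∈ cls (!b) d k}, p u.1 (h u) := by
    intro h
    rcases isEmpty_or_nonempty ({x // x ∈ cls (!b) d k} → Fin q) with hE | ⟨⟨g₀⟩⟩
    · rw [Fintype.sum_empty]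
      exact prod_nonneg fun u _ => hp _ _
    have hP : ∀ g : {x // x ∈ cls (!b) d k} → Fin q, ∏ u ∈ cls b d k, p u (e.symm (g, h) u) =
        ∏ u : {x // ¬ x ∈ cls (!b) d k}, p u.1 (h u) := by
      intro g
      rw [prod_subtype (cls b d k) hcb]
      refine prod_congr rfl fun u _ => ?_
      simp only [he, Equiv.piEquivPiSubtypeProd_symm_apply, dif_neg u.2, Subtype.coe_eta]
    have hL : ∀ g : {x // x ∈ cls (!b) d k} → Fin q,
        ∏ v ∈ cls (!b) d k, (if e.symm (g, h) v ∉ SS (e.symm (g, h)) v then 1 / (av (e.symm (g, h)) v : ℝ) else 0) =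
        ∏ v : {x // x ∈ cls (!b) d k}, (if g v ∉ SS (e.symm (g₀, h)) v.1
          then 1 / (av (e.symm (g₀, h)) v.1 : ℝ) else 0) := by
      intro g
      rw [← prod_coe_sort]
      refine prod_congr rfl fun v _ => ?_
      have h1 := hSS h g g₀ v.1 v.2
      have h2 : av (e.symm (g, h)) v.1 = av (e.symm (g₀, h)) v.1 := by
        unfold av
        rw [h1]
      have h3 : e.symm (g, h) v.1 = g v := by
        simp only [he, Equiv.piEquivPiSubtypeProd_symm_apply, dif_pos v.2, Subtype.coe_eta]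
      rw [h1, h2, h3]
    rw [sum_congr rfl fun g _ => by rw [hP g, hL g], ← mul_sum]
    have h3 := prod_univ_sum (fun _ : {x // x ∈ cls (!b) d k} => (univ : Finset (Fin q)))
      (fun v c => if c ∉ SS (e.symm (g₀, h)) v.1
          then 1 / (av (e.symm (g₀, h)) v.1 : ℝ) else 0)
    rw [Fintype.piFinset_univ] at h3
    rw [← h3]
    have h4 : ∏ v : {x // x ∈ cls (!b) d k}, ∑ c : Fin q, (if c ∉ SS (e.symm (g₀, h)) v.1
          then 1 / (av (e.symm (g₀, h)) v.1 : ℝ) else 0) ≤ 1 := by
      refine prod_le_one (fun v _ => sum_nonneg fun c _ => by split_ifs <;> positivity) fun v _ => ?_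
      rw [← sum_filter, sum_const, nsmul_eq_mul]
      have h5 : (univ.filter fun c : Fin q => c ∉ SS (e.symm (g₀, h)) v.1).card = av (e.symm (g₀, h)) v.1 := by
        rw [filter_not, card_sdiff_of_subset (filter_subset _ _)]
        have h6 : (univ.filter fun c : Fin q => c ∈ SS (e.symm (g₀, h)) v.1) =
            SS (e.symm (g₀, h)) v.1 := by
          ext c
          simp
        rw [h6, card_univ, Fintype.card_fin]
        rfl
      rw [h5, mul_one_div]
      exact div_self_le_one _
    have h5 : 0 ≤ ∏ u : {x // ¬ x ∈ cls (!b) d k}, p u.1 (h u) := prod_nonneg fun u _ => hp _ _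
    calc _ ≤ (∏ u : {x // ¬ x ∈ cls (!b) d k}, p u.1 (h u)) * 1 := mul_le_mul_of_nonneg_left h4 h5
      _ = _ := mul_one _
  refine (sum_le_sum fun h _ => hstep h).trans ?_
  have h6 := prod_univ_sum (fun _ : {x // ¬ x ∈ cls (!b) d k} => (univ : Finset (Fin q)))
      (fun u c => p u.1 c)
  rw [Fintype.piFinset_univ] at h6
  rw [← h6]
  exact (prod_eq_one fun u _ => hs _).le

theorem code_fixed (hk : 1 ≤ k) (hq : 1 ≤ q) (b : Bool) (H : Site d k → Fin q → ℝ) :
    ∑ f ∈ prps d k q, Real.exp (-JJ b H f) ≤ 1 := by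
  classical
  have : NeZero q := ⟨by omega⟩
  have hpos : ∀ u, 0 < ∑ γ, Real.exp (-H u γ) := fun u =>
    sum_pos (fun γ _ => Real.exp_pos _) ⟨0, mem_univ _⟩
  refine le_trans (le_of_eq ?_) (C1_resum (d := d) (k := k) hk b
    (fun u c => Real.exp (-H u c) / ∑ γ, Real.exp (-H u γ))
    (fun u c => by have := hpos u; positivity)
    (fun u => by rw [← sum_div, div_self (hpos u).ne']))
  refine sum_congr rfl fun f hf => ?_
  have hPf : Prp f := by
    simpa [prps] using hf
  unfold JJ
  rw [neg_add, Real.exp_add, ← sum_neg_distrib, ← sum_neg_distrib, Real.exp_sum, Real.exp_sum]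
  congr 1
  · refine prod_congr rfl fun u _ => ?_
    rw [neg_add, Real.exp_add, Real.exp_neg (Real.log _), Real.exp_log (hpos u), div_eq_mul_inv]
  · refine prod_congr rfl fun v hv => ?_
    have hav : 0 < av f v := by
      have h1 := (C1_prp hk (!b) f).1 hPf v hv
      unfold av
      have h2 : (SS f v).card < q := by
        have := card_lt_card (s := SS f v) (t := univ) ⟨subset_univ _, fun hc => h1 (hc (mem_univ _))⟩
        rwa [card_univ, Fintype.card_fin] at this
      omega
    have hav' : (0 : ℝ) < (av f v : ℝ) := by exact_mod_cast hav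
    rw [Real.exp_neg, Real.exp_log hav', one_div]

theorem code (hk : 1 ≤ k) (hq : 1 ≤ q) (b : Bool) (R : Finset (Site d k))
    (Hf : (Site d k → Fin q) → Site d k → Fin q → ℝ) (hloc : ∀ f g, (∀ x ∈ R, f x = g x) → Hf f = Hf g)
    (F : Finset (Site d k → Fin q)) (hF : F ⊆ prps d k q) (Λ : ℝ) (h : ∀ f ∈ F, JJ b (Hf f) f ≤ Λ) :
    (F.card : ℝ) ≤ (q : ℝ) ^ R.card * Real.exp Λ := by
  classical
  let ρ : (Site d k → Fin q) → (R → Fin q) := fun f x => f x.1
  have h1 := card_eq_sum_card_fiberwise (s := F) (t := (univ : Finset (R → Fin q))) (f := ρ) fun f _ => by simp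
  have h2 : ∀ r : R → Fin q, (((F.filter fun f => ρ f = r).card : ℕ) : ℝ) ≤ Real.exp Λ := by
    intro r
    rcases (F.filter fun f => ρ f = r).eq_empty_or_nonempty with he | ⟨f₀, hf₀⟩
    · rw [he, card_empty, Nat.cast_zero]
      exact (Real.exp_pos _).le
    · have hf₀' := mem_filter.1 hf₀
      have h3 : ∀ f ∈ F.filter fun f => ρ f = r, (1 : ℝ) ≤ Real.exp Λ * Real.exp (-JJ b (Hf f₀) f) := by
        intro f hf
        have hf' := mem_filter.1 hf
        have h4 : Hf f = Hf f₀ := hloc f f₀ fun x hx => by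
          have h5 : ρ f = ρ f₀ := hf'.2.trans hf₀'.2.symm
          exact congrFun h5 ⟨x, hx⟩
        have h5 := h f hf'.1
        rw [h4] at h5
        rw [← Real.exp_add]
        exact Real.one_le_exp (by linarith)
      calc (((F.filter fun f => ρ f = r).card : ℕ) : ℝ)
          = ∑ f ∈ F.filter fun f => ρ f = r, (1 : ℝ) := by simp
        _ ≤ ∑ f ∈ F.filter fun f => ρ f = r, Real.exp Λ * Real.exp (-JJ b (Hf f₀) f) := sum_le_sum h3
        _ = Real.exp Λ * ∑ f ∈ F.filter fun f => ρ f = r, Real.exp (-JJ b (Hf f₀) f) := by rw [mul_sum]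
        _ ≤ Real.exp Λ * ∑ f ∈ prps d k q, Real.exp (-JJ b (Hf f₀) f) := by
            refine mul_le_mul_of_nonneg_left ?_ (Real.exp_pos _).le
            exact sum_le_sum_of_subset_of_nonneg ((filter_subset _ _).trans hF) fun f _ _ => (Real.exp_pos _).le
        _ ≤ Real.exp Λ * 1 := mul_le_mul_of_nonneg_left (code_fixed hk hq b (Hf f₀)) (Real.exp_pos _).le
        _ = Real.exp Λ := mul_one _
  rw [h1, Nat.cast_sum]
  calc ∑ r : R → Fin q, (((F.filter fun f => ρ f = r).card : ℕ) : ℝ) ≤ ∑ _r : R → Fin q, Real.exp Λ :=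
        sum_le_sum fun r _ => h2 r
    _ = (q : ℝ) ^ R.card * Real.exp Λ := by
        rw [sum_const, card_univ, Fintype.card_fun, Fintype.card_fin, Fintype.card_coe, nsmul_eq_mul, Nat.cast_pow]

end Pool.Agent.THR
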