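import Pool.Agent.Lib_MP_2c424f_thr.N1a
import Pool.Agent.Lib_MP_2c424f_thr.N2
import Pool.Agent.Lib_MP_2c424f_thr.M1

/-!
# THR C2: estimating the densities from a sample (paper proof: C2)

`B = d`, `Hs R f u γ = a B PP^(2t+1) (bq γ 1_R) u`.  For uniform `ω`, `R = {ω = 0}`: mean of `|R|` is `N/B`; by `sampling` (applied to `bq γ f/q`, values in
`{0,1}`, `PP^(2t+1) (..)² ≤ 1`) the mean of `|Hs u γ - a PP^(2t+1)(bq γ f) u|` is at most `a q √(B κ)`, `κ = (8t)^(2t)/(2d)^t` (`Kt_sup`, `Kt_succ_le`), which tends to `0` for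
`t ≥ 20`.  Functional `B|R|/N + (errors)/(mean)`: some `ω` has value `≤ 3`.
-/

set_option autoImplicit false

open Finset Filter

namespace Pool.Agent.THR

open Pool.Agent.LO Pool.Agent.LIN

open scoped Classical in
/-- estimate from the sample `R` -/
noncomputable def Hs {d k q : ℕ} (t : ℕ) (R : Finset (Site d k)) (f : Site d k → Fin q) (u : Site d k) (γ : Fin q) : ℝ :=
  ra d q * d * PP^[2 * t + 1] (fun x => if x ∈ R then bq γ f x else 0) u

theorem Hs_loc {d k q : ℕ} (t : ℕ) (R : Finset (Site d k)) (f g : Site d k → Fin q) (h : ∀ x ∈ R, f x = g x) :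
    Hs t R f = Hs t R g := by
  classical
  funext u γ
  unfold Hs
  have h1 : (fun x => if x ∈ R then bq γ f x else 0) = (fun x => if x ∈ R then bq γ g x else 0) := by
    funext x
    by_cases hx : x ∈ R
    · rw [if_pos hx, if_pos hx]
      unfold bq
      rw [h x hx]
    · rw [if_neg hx, if_neg hx]
  rw [h1]

open scoped Classical in
/-- mean error of one estimate -/
private theorem C2_one {d k q : ℕ} (hd : 1 ≤ d) (hq : 1 ≤ q) (t : ℕ) (κ η : ℝ) (hη : 0 < η)
    (hκ : ∀ u y : Site d k, Kt (2 * t) u y ≤ κ) (hs : (d : ℝ) * κ ≤ (η / (2 * d)) ^ 2)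
    (f : Site d k → Fin q) (u : Site d k) (γ : Fin q) :
    (∑ ω : Site d k → Fin d, |Hs t (univ.filter fun x => (ω x).val = 0) f u γ - ra d q * PP^[2 * t + 1] (bq γ f) u|) ≤
      η * (d : ℝ) ^ Fintype.card (Site d k) := by
  have hd0 : (0 : ℝ) < d := by exact_mod_cast hd
  have hq0 : (0 : ℝ) < q := by exact_mod_cast hq
  set θ : ℝ := η / (2 * d) with hθ
  have hθ0 : 0 < θ := by positivity
  set φ : Site d k → ℝ := fun x => if f x = γ then (1 : ℝ) else 0 with hφ
  have hbq : ∀ x, bq γ f x = q * φ x := by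
    intro x
    simp only [hφ]
    unfold bq
    split_ifs <;> simp
  set M : ℝ := (d : ℝ) ^ Fintype.card (Site d k) with hM
  have hM0 : 0 < M := by positivity
  set D : (Site d k → Fin d) → ℝ := fun ω =>
    (d : ℕ) * PP^[2 * t + 1] (fun x => if (ω x).val = 0 then φ x else 0) u - PP^[2 * t + 1] φ u with hD
  have e1 : ∀ ω : Site d k → Fin d,
      Hs t (univ.filter fun x => (ω x).val = 0) f u γ - ra d q * PP^[2 * t + 1] (bq γ f) u = 2 * d * D ω := by
    intro ω
    have h1 : ∀ R : Finset (Site d k), (∀ x, x ∈ R ↔ (ω x).val = 0) →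
        PP^[2 * t + 1] (fun x => if x ∈ R then bq γ f x else 0) u =
        q * PP^[2 * t + 1] (fun x => if (ω x).val = 0 then φ x else 0) u := by
      intro R hR
      have hfun : (fun x => if x ∈ R then bq γ f x else 0) =
          fun y => (q : ℝ) * (if (ω y).val = 0 then φ y else 0) := by
        funext x
        by_cases hx : (ω x).val = 0
        · rw [if_pos ((hR x).2 hx), if_pos hx, hbq]
        · rw [if_neg (fun h => hx ((hR x).1 h)), if_neg hx, mul_zero]
      rw [hfun, PPt_mul]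
    have h2 : PP^[2 * t + 1] (bq γ f) u = q * PP^[2 * t + 1] φ u := by
      have hfun : bq γ f = fun y => (q : ℝ) * φ y := by
        funext x
        rw [hbq]
      rw [hfun, PPt_mul]
    unfold Hs
    rw [h1 _ (fun x => by simp), h2]
    simp only [hD]
    unfold ra
    field_simp
  have hκ1 : ∀ u y : Site d k, Kt (2 * t + 1) u y ≤ κ := fun u y => Kt_succ_le hd (2 * t) κ hκ u y
  have hκ0 : 0 ≤ κ := le_trans (Kt_nonneg (2 * t) u u) (hκ u u)
  have h3 := sampling (2 * t + 1) d hd κ hκ1 φ u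
  have h4 : PP^[2 * t + 1] (fun x => φ x ^ 2) u ≤ 1 := by
    have h5 : PP^[2 * t + 1] (fun x => φ x ^ 2) u ≤ PP^[2 * t + 1] (fun _ => (1 : ℝ)) u := by
      apply PPt_mono
      intro x
      simp only [hφ]
      split_ifs <;> norm_num
    rw [PPt_const hd] at h5
    exact h5
  have h6 : ∑ ω : Site d k → Fin d, D ω ^ 2 ≤ θ ^ 2 * M := by
    have h7 : (∑ ω : Site d k → Fin d, D ω ^ 2) / M ≤ θ ^ 2 := by
      refine le_trans h3 (le_trans ?_ hs)
      calc (d : ℝ) * κ * PP^[2 * t + 1] (fun x => φ x ^ 2) u ≤ (d : ℝ) * κ * 1 := by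
            apply mul_le_mul_of_nonneg_left h4
            positivity
        _ = (d : ℝ) * κ := mul_one _
    rwa [div_le_iff₀ hM0] at h7
  have h8 : ∀ ω : Site d k → Fin d, |D ω| ≤ (D ω ^ 2 / θ + θ) / 2 := by
    intro ω
    have h9 : 0 ≤ (|D ω| - θ) ^ 2 := sq_nonneg _
    have h10 : 2 * |D ω| * θ ≤ D ω ^ 2 + θ ^ 2 := by
      have := sq_abs (D ω)
      nlinarith
    rw [le_div_iff₀ (by norm_num : (0 : ℝ) < 2)]
    have h11 : D ω ^ 2 / θ + θ = (D ω ^ 2 + θ ^ 2) / θ := by
      field_simp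
    rw [h11, le_div_iff₀ hθ0]
    linarith
  have hcard : (Fintype.card (Site d k → Fin d) : ℝ) = M := by
    rw [Fintype.card_fun, Fintype.card_fin, hM]
    push_cast
    rfl
  have h12 : ∑ ω : Site d k → Fin d, |D ω| ≤ θ * M := by
    calc ∑ ω : Site d k → Fin d, |D ω| ≤ ∑ ω : Site d k → Fin d, (D ω ^ 2 / θ + θ) / 2 :=
          Finset.sum_le_sum fun ω _ => h8 ω
      _ = ((∑ ω : Site d k → Fin d, D ω ^ 2) / θ + θ * M) / 2 := by
          rw [← Finset.sum_div, Finset.sum_add_distrib, ← Finset.sum_div, Finset.sum_const, Finset.card_univ,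
            nsmul_eq_mul, hcard]
          ring
      _ ≤ (θ ^ 2 * M / θ + θ * M) / 2 := by
          have : (∑ ω : Site d k → Fin d, D ω ^ 2) / θ ≤ θ ^ 2 * M / θ := by
            apply div_le_div_of_nonneg_right h6 hθ0.le
          linarith
      _ = θ * M := by
          field_simp
          ring
  calc (∑ ω : Site d k → Fin d, |Hs t (univ.filter fun x => (ω x).val = 0) f u γ -
        ra d q * PP^[2 * t + 1] (bq γ f) u|) = ∑ ω : Site d k → Fin d, 2 * d * |D ω| := by
        refine Finset.sum_congr rfl fun ω _ => ?_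
        rw [e1 ω, abs_mul, abs_of_pos (by positivity : (0 : ℝ) < 2 * d)]
    _ = 2 * d * ∑ ω : Site d k → Fin d, |D ω| := by rw [Finset.mul_sum]
    _ ≤ 2 * d * (θ * M) := by
        apply mul_le_mul_of_nonneg_left h12
        positivity
    _ = η * M := by
        rw [hθ]
        field_simp

open scoped Classical in
private theorem C2_main {d k q : ℕ} (hd : 1 ≤ d) (hq : 1 ≤ q) (t : ℕ) (κ δ : ℝ) (hδ : 0 < δ)
    (hκ : ∀ u y : Site d k, Kt (2 * t) u y ≤ κ) (hs : (d : ℝ) * κ ≤ (δ / 3 / (2 * d)) ^ 2)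
    (f : Site d k → Fin q) (A : Finset (Site d k)) :
    ∃ R : Finset (Site d k), (R.card : ℝ) ≤ 3 * NN d k / d ∧
      ∑ u ∈ A, |Hs t R f u (f u) - ra d q * PP^[2 * t + 1] (bq (f u) f) u| ≤ δ * NN d k ∧
      ∑ u ∈ A, mc (fun γ => |Hs t R f u γ - ra d q * PP^[2 * t + 1] (bq γ f) u|) ≤ δ * NN d k := by
  have hd0 : (0 : ℝ) < d := by exact_mod_cast hd
  have hq0 : (0 : ℝ) < q := by exact_mod_cast hq
  have hN0 : 0 < NN d k := by unfold NN; positivity
  set M : ℝ := (d : ℝ) ^ Fintype.card (Site d k) with hM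
  have hM0 : 0 < M := by positivity
  have hcard : (Fintype.card (Site d k → Fin d) : ℝ) = M := by
    rw [Fintype.card_fun, Fintype.card_fin, hM]
    push_cast
    rfl
  have hA : (A.card : ℝ) ≤ NN d k := by
    rw [← card_site]
    exact_mod_cast Finset.card_le_univ A
  let Rf : (Site d k → Fin d) → Finset (Site d k) := fun ω => univ.filter fun x => (ω x).val = 0
  let S1 : (Site d k → Fin d) → ℝ := fun ω =>
    ∑ u ∈ A, |Hs t (Rf ω) f u (f u) - ra d q * PP^[2 * t + 1] (bq (f u) f) u|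
  let S2 : (Site d k → Fin d) → ℝ := fun ω =>
    ∑ u ∈ A, mc (fun γ => |Hs t (Rf ω) f u γ - ra d q * PP^[2 * t + 1] (bq γ f) u|)
  have hone : ∀ (u : Site d k) (γ : Fin q),
      (∑ ω : Site d k → Fin d, |Hs t (Rf ω) f u γ - ra d q * PP^[2 * t + 1] (bq γ f) u|) ≤ δ / 3 * M :=
    fun u γ => C2_one hd hq t κ (δ / 3) (by positivity) hκ hs f u γ
  have hS1 : ∑ ω : Site d k → Fin d, S1 ω ≤ NN d k * (δ / 3 * M) := by
    calc ∑ ω : Site d k → Fin d, S1 ω
        = ∑ u ∈ A, ∑ ω : Site d k → Fin d, |Hs t (Rf ω) f u (f u) - ra d q * PP^[2 * t + 1] (bq (f u) f) u| :=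
          Finset.sum_comm
      _ ≤ ∑ u ∈ A, δ / 3 * M := Finset.sum_le_sum fun u _ => hone u (f u)
      _ = A.card * (δ / 3 * M) := by rw [Finset.sum_const, nsmul_eq_mul]
      _ ≤ NN d k * (δ / 3 * M) := by
          apply mul_le_mul_of_nonneg_right hA
          positivity
  have hS2 : ∑ ω : Site d k → Fin d, S2 ω ≤ NN d k * (δ / 3 * M) := by
    calc ∑ ω : Site d k → Fin d, S2 ω
        = ∑ u ∈ A, (∑ γ : Fin q, ∑ ω : Site d k → Fin d,
            |Hs t (Rf ω) f u γ - ra d q * PP^[2 * t + 1] (bq γ f) u|) / q := by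
          simp only [S2, mc]
          rw [Finset.sum_comm]
          refine Finset.sum_congr rfl fun u _ => ?_
          rw [← Finset.sum_div, Finset.sum_comm]
      _ ≤ ∑ u ∈ A, δ / 3 * M := by
          refine Finset.sum_le_sum fun u _ => ?_
          rw [div_le_iff₀ hq0]
          calc (∑ γ : Fin q, ∑ ω : Site d k → Fin d,
                |Hs t (Rf ω) f u γ - ra d q * PP^[2 * t + 1] (bq γ f) u|)
              ≤ ∑ γ : Fin q, δ / 3 * M := Finset.sum_le_sum fun γ _ => hone u γ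
            _ = δ / 3 * M * q := by
                rw [Finset.sum_const, Finset.card_univ, Fintype.card_fin, nsmul_eq_mul]
                ring
      _ = A.card * (δ / 3 * M) := by rw [Finset.sum_const, nsmul_eq_mul]
      _ ≤ NN d k * (δ / 3 * M) := by
          apply mul_le_mul_of_nonneg_right hA
          positivity
  have hS0 : ∑ ω : Site d k → Fin d, ((Rf ω).card : ℝ) = NN d k / d * M := by
    have h1 := sample_card (d := d) (k := k) d hd univ
    rw [div_eq_iff hM0.ne', Finset.card_univ, card_site] at h1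
    exact h1
  let Φ : (Site d k → Fin d) → ℝ := fun ω =>
    d / NN d k * ((Rf ω).card : ℝ) + 3 / (δ * NN d k) * S1 ω + 3 / (δ * NN d k) * S2 ω
  have hΦ : ∑ ω : Site d k → Fin d, Φ ω ≤ ∑ _ω : Site d k → Fin d, (3 : ℝ) := by
    have hc : 0 ≤ 3 / (δ * NN d k) := by positivity
    calc ∑ ω : Site d k → Fin d, Φ ω
        = d / NN d k * (∑ ω : Site d k → Fin d, ((Rf ω).card : ℝ)) + 3 / (δ * NN d k) * (∑ ω : Site d k → Fin d, S1 ω) +
            3 / (δ * NN d k) * (∑ ω : Site d k → Fin d, S2 ω) := by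
          simp only [Φ]
          rw [Finset.sum_add_distrib, Finset.sum_add_distrib, Finset.mul_sum, Finset.mul_sum, Finset.mul_sum]
      _ ≤ d / NN d k * (NN d k / d * M) + 3 / (δ * NN d k) * (NN d k * (δ / 3 * M)) +
            3 / (δ * NN d k) * (NN d k * (δ / 3 * M)) := by
          rw [hS0]
          have := mul_le_mul_of_nonneg_left hS1 hc
          have := mul_le_mul_of_nonneg_left hS2 hc
          linarith
      _ = ∑ _ω : Site d k → Fin d, (3 : ℝ) := by
          rw [Finset.sum_const, Finset.card_univ, nsmul_eq_mul, hcard]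
          field_simp
          ring
  haveI : Nonempty (Site d k → Fin d) := ⟨fun _ => ⟨0, hd⟩⟩
  obtain ⟨ω, -, hω⟩ := Finset.exists_le_of_sum_le (Finset.univ_nonempty) hΦ
  have p0 : 0 ≤ d / NN d k * ((Rf ω).card : ℝ) := by positivity
  have q1 : 0 ≤ S1 ω := Finset.sum_nonneg fun u _ => abs_nonneg _
  have q2 : 0 ≤ S2 ω := Finset.sum_nonneg fun u _ => div_nonneg (Finset.sum_nonneg fun γ _ => abs_nonneg _) hq0.le
  have p1 : 0 ≤ 3 / (δ * NN d k) * S1 ω := by positivity
  have p2 : 0 ≤ 3 / (δ * NN d k) * S2 ω := by positivity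
  have hω' : d / NN d k * ((Rf ω).card : ℝ) + 3 / (δ * NN d k) * S1 ω + 3 / (δ * NN d k) * S2 ω ≤ 3 := hω
  refine ⟨Rf ω, ?_, ?_, ?_⟩
  · have h1 : d / NN d k * ((Rf ω).card : ℝ) ≤ 3 := by linarith
    rw [le_div_iff₀ hd0]
    rw [div_mul_eq_mul_div, div_le_iff₀ hN0] at h1
    linarith
  · have h1 : 3 / (δ * NN d k) * S1 ω ≤ 3 := by linarith
    rw [div_mul_eq_mul_div, div_le_iff₀ (by positivity)] at h1
    change S1 ω ≤ _
    linarith
  · have h1 : 3 / (δ * NN d k) * S2 ω ≤ 3 := by linarith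
    rw [div_mul_eq_mul_div, div_le_iff₀ (by positivity)] at h1
    change S2 ω ≤ _
    linarith

theorem sample_H {ε : ℝ} (hε : 0 < ε) (hε1 : ε ≤ 1) (t : ℕ) (ht : 20 ≤ t) (δ : ℝ) (hδ : 0 < δ) :
    EvT ε fun d k q => ∀ (b : Bool), ∀ f ∈ prps d k q, ∃ R : Finset (Site d k), (R.card : ℝ) ≤ 3 * NN d k / d ∧
      ∑ u ∈ cls b d k, |Hs t R f u (f u) - ra d q * PP^[2 * t + 1] (bq (f u) f) u| ≤ δ * NN d k ∧
      ∑ u ∈ cls b d k, mc (fun γ => |Hs t R f u γ - ra d q * PP^[2 * t + 1] (bq γ f) u|) ≤ δ * NN d k := by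
  obtain ⟨d₀, hd₀⟩ := exists_nat_ge (36 * (8 * (t : ℝ)) ^ (2 * t) / δ ^ 2)
  refine ⟨d₀ + 1, fun d q hd hq _ => ?_⟩
  have hd1 : 1 ≤ d := by omega
  have hd0 : (0 : ℝ) < d := by exact_mod_cast hd1
  have hq1 : 1 ≤ q := by
    have h1 : (0 : ℝ) < q := lt_of_lt_of_le (by positivity) hq
    exact_mod_cast h1
  filter_upwards [eventually_ge_atTop (2 * t + 1)] with k hk b f _
  have hk' : 2 * t < 2 ^ k := lt_of_lt_of_le (by omega : 2 * t < k + 1) (Nat.succ_le_of_lt k.lt_two_pow_self)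
  refine C2_main hd1 hq1 t ((8 * (t : ℝ)) ^ (2 * t) / (2 * (d : ℝ)) ^ t) δ hδ
    (fun u y => Kt_sup hd1 t hk' u y) ?_ f (cls b d k)
  have h36 : 36 * (8 * (t : ℝ)) ^ (2 * t) ≤ δ ^ 2 * d := by
    have h1 : 36 * (8 * (t : ℝ)) ^ (2 * t) / δ ^ 2 ≤ d := by
      refine le_trans hd₀ ?_
      exact_mod_cast (by omega : d₀ ≤ d)
    rw [div_le_iff₀ (by positivity)] at h1
    linarith
  have hpow : (d : ℝ) ^ 4 ≤ (2 * (d : ℝ)) ^ t := by
    have h1 : (1 : ℝ) ≤ 2 * d := by
      have : (1 : ℝ) ≤ d := by exact_mod_cast hd1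
      linarith
    calc (d : ℝ) ^ 4 ≤ (2 * (d : ℝ)) ^ 4 := by
          apply pow_le_pow_left₀ hd0.le
          linarith
      _ ≤ (2 * (d : ℝ)) ^ t := pow_le_pow_right₀ h1 (by omega)
  have h2d : 0 < (2 * (d : ℝ)) ^ t := by positivity
  have hE : (δ / 3 / (2 * (d : ℝ))) ^ 2 = δ ^ 2 / (36 * (d : ℝ) ^ 2) := by
    field_simp
    ring
  rw [hE, ← mul_div_assoc, div_le_div_iff₀ h2d (by positivity)]
  calc (d : ℝ) * (8 * (t : ℝ)) ^ (2 * t) * (36 * (d : ℝ) ^ 2)
      = (36 * (8 * (t : ℝ)) ^ (2 * t)) * (d : ℝ) ^ 3 := by ring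
    _ ≤ (δ ^ 2 * d) * (d : ℝ) ^ 3 := by
        apply mul_le_mul_of_nonneg_right h36
        positivity
    _ = δ ^ 2 * (d : ℝ) ^ 4 := by ring
    _ ≤ δ ^ 2 * (2 * (d : ℝ)) ^ t := by
        apply mul_le_mul_of_nonneg_left hpow
        positivity

/-- number of samples -/
theorem sample_num {ε : ℝ} (hε : 0 < ε) (hε1 : ε ≤ 1) (δ : ℝ) (hδ : 0 < δ) :
    EvT ε fun d k q => (((univ : Finset (Finset (Site d k))).filter fun R => (R.card : ℝ) ≤ 3 * NN d k / d).card : ℝ) *
      (q : ℝ) ^ (3 * NN d k / d) ≤ Real.exp (δ * NN d k) := by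
  classical
  have hlim : Tendsto (fun x : ℝ => (1 + 3 * Real.log x + 3 * Real.log (2 * x)) / x) atTop (nhds 0) := by
    have h1 : Tendsto (fun x : ℝ => Real.log x / x) atTop (nhds 0) := by
      have := Real.tendsto_pow_log_div_mul_add_atTop 1 0 1 one_ne_zero
      simpa using this
    have h2 : Tendsto (fun x : ℝ => x⁻¹) atTop (nhds 0) := tendsto_inv_atTop_zero
    have h3 : Tendsto (fun x : ℝ => (1 + 3 * Real.log 2) * x⁻¹ + 6 * (Real.log x / x)) atTop (nhds 0) := by
      have := (h2.const_mul (1 + 3 * Real.log 2)).add (h1.const_mul 6)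
      simpa using this
    refine h3.congr' ?_
    filter_upwards [eventually_gt_atTop (0 : ℝ)] with x hx
    rw [Real.log_mul (by norm_num) hx.ne']
    field_simp
    ring
  have hev : ∀ᶠ x : ℝ in atTop, (1 + 3 * Real.log x + 3 * Real.log (2 * x)) / x < δ :=
    hlim.eventually (gt_mem_nhds hδ)
  have hev' : ∀ᶠ n : ℕ in atTop, (1 + 3 * Real.log (n : ℝ) + 3 * Real.log (2 * (n : ℝ))) / (n : ℝ) < δ :=
    tendsto_natCast_atTop_atTop.eventually hev
  obtain ⟨d₀, hd₀⟩ := eventually_atTop.1 hev'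
  refine ⟨d₀ + 1, fun d q hd hq hq2 => Eventually.of_forall fun k => ?_⟩
  have hd1 : 1 ≤ d := by omega
  have hd0 : (0 : ℝ) < d := by exact_mod_cast hd1
  have hd1' : (1 : ℝ) ≤ d := by exact_mod_cast hd1
  have hq0 : (0 : ℝ) < q := lt_of_lt_of_le (by positivity) hq
  have hN0 : 0 < NN d k := by unfold NN; positivity
  have hmain := hd₀ d (by omega)
  set r : ℝ := 3 * NN d k / d with hr
  have hr0 : 0 ≤ r := by positivity
  -- number of sets
  have hcount : (((univ : Finset (Finset (Site d k))).filter fun R => (R.card : ℝ) ≤ r).card : ℝ) ≤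
      (d : ℝ) ^ r * (1 / (d : ℝ) + 1) ^ Fintype.card (Site d k) := by
    have hsum : ∑ R : Finset (Site d k), (1 / (d : ℝ)) ^ R.card = (1 / (d : ℝ) + 1) ^ Fintype.card (Site d k) := by
      have := Fintype.sum_pow_mul_eq_add_pow (Site d k) (1 / (d : ℝ)) 1
      simpa using this
    calc (((univ : Finset (Finset (Site d k))).filter fun R => (R.card : ℝ) ≤ r).card : ℝ)
        = ∑ R ∈ (univ : Finset (Finset (Site d k))).filter (fun R => (R.card : ℝ) ≤ r), (1 : ℝ) := by
          rw [Finset.sum_const, nsmul_eq_mul, mul_one]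
      _ ≤ ∑ R ∈ (univ : Finset (Finset (Site d k))).filter (fun R => (R.card : ℝ) ≤ r),
            (d : ℝ) ^ r * (1 / (d : ℝ)) ^ R.card := by
          refine Finset.sum_le_sum fun R hR => ?_
          have hR' : (R.card : ℝ) ≤ r := (Finset.mem_filter.1 hR).2
          have h1 : (d : ℝ) ^ (R.card : ℕ) ≤ (d : ℝ) ^ r := by
            rw [← Real.rpow_natCast]
            exact Real.rpow_le_rpow_of_exponent_le hd1' hR'
          rw [one_div, inv_pow, ← div_eq_mul_inv, le_div_iff₀ (by positivity), one_mul]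
          exact h1
      _ ≤ ∑ R : Finset (Site d k), (d : ℝ) ^ r * (1 / (d : ℝ)) ^ R.card := by
          apply Finset.sum_le_sum_of_subset_of_nonneg (Finset.filter_subset _ _)
          intro R _ _
          positivity
      _ = (d : ℝ) ^ r * (1 / (d : ℝ) + 1) ^ Fintype.card (Site d k) := by
          rw [← Finset.mul_sum, hsum]
  have hexp1 : (1 / (d : ℝ) + 1) ^ Fintype.card (Site d k) ≤ Real.exp (NN d k / d) := by
    calc (1 / (d : ℝ) + 1) ^ Fintype.card (Site d k) ≤ (Real.exp (1 / (d : ℝ))) ^ Fintype.card (Site d k) := by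
          apply pow_le_pow_left₀ (by positivity)
          exact Real.add_one_le_exp _
      _ = Real.exp (NN d k / d) := by
          rw [← Real.exp_nat_mul, card_site]
          congr 1
          field_simp
  have hdr : (d : ℝ) ^ r = Real.exp (Real.log d * r) := Real.rpow_def_of_pos hd0 r
  have hqr : (q : ℝ) ^ r = Real.exp (Real.log q * r) := Real.rpow_def_of_pos hq0 r
  have hlogq : Real.log q ≤ Real.log (2 * d) := by
    apply Real.log_le_log hq0
    nlinarith
  calc (((univ : Finset (Finset (Site d k))).filter fun R => (R.card : ℝ) ≤ r).card : ℝ) * (q : ℝ) ^ r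
      ≤ ((d : ℝ) ^ r * Real.exp (NN d k / d)) * (q : ℝ) ^ r := by
        apply mul_le_mul_of_nonneg_right _ (by positivity)
        refine le_trans hcount ?_
        apply mul_le_mul_of_nonneg_left hexp1
        positivity
    _ = Real.exp (Real.log d * r + NN d k / d + Real.log q * r) := by
        rw [hdr, hqr, ← Real.exp_add, ← Real.exp_add]
    _ ≤ Real.exp (δ * NN d k) := by
        apply Real.exp_le_exp.2
        have h1 : Real.log q * r ≤ Real.log (2 * d) * r := mul_le_mul_of_nonneg_right hlogq hr0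
        have h2 : Real.log d * r + NN d k / d + Real.log (2 * d) * r =
            ((1 + 3 * Real.log (d : ℝ) + 3 * Real.log (2 * (d : ℝ))) / (d : ℝ)) * NN d k := by
          rw [hr]
          field_simp
          ring
        have h3 := mul_le_mul_of_nonneg_right hmain.le hN0.le
        linarith

end Pool.Agent.THR
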