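import Pool.Agent.Lib_MP_2c424f_thr.C2
import Pool.Agent.Lib_MP_2c424f_thr.N6

/-!
# THR C3b: the smoothed indicators and the densities (paper proof: C3 (ii)), deterministic

`a PP^(2t+1) bq ≈ a PP^(2t+1) gg = PP^(2t) hh ≈ hh`: `smo` and `PPt_l2` (applied to `PP^(t+1)`), `hh_eq`, `sm2`; Cauchy-Schwarz from `ℓ²` to `ℓ¹`, mean over the colours.
-/

set_option autoImplicit false

open Finset Filter

namespace Pool.Agent.THR

open Pool.Agent.LO Pool.Agent.LIN

private theorem C3b_NN (d k : ℕ) : 0 < NN d k := by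
  unfold NN; positivity

private theorem C3b_l1 {d k : ℕ} (φ : Site d k → ℝ) (M : ℝ) (hM : 0 ≤ M)
    (h : ∑ u, φ u ^ 2 ≤ M ^ 2 * NN d k) : ∑ u, |φ u| ≤ M * NN d k := by
  have hN := C3b_NN d k
  have h1 : (∑ u, |φ u|) ^ 2 ≤ (M * NN d k) ^ 2 := by
    have h2 := sq_sum_le_card_mul_sum_sq (s := (Finset.univ : Finset (Site d k))) (f := fun u => |φ u|)
    rw [Finset.card_univ, card_site] at h2
    simp only [sq_abs] at h2
    calc (∑ u, |φ u|) ^ 2 ≤ NN d k * ∑ u, φ u ^ 2 := h2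
      _ ≤ NN d k * (M ^ 2 * NN d k) := mul_le_mul_of_nonneg_left h hN.le
      _ = (M * NN d k) ^ 2 := by ring
  exact (sq_le_sq₀ (Finset.sum_nonneg fun u _ => abs_nonneg _) (mul_nonneg hM hN.le)).mp h1

private theorem C3b_split {d k q : ℕ} (hd : 1 ≤ d) (hq : 1 ≤ q) (t : ℕ) (c : Fin q) (f : Site d k → Fin q)
    (u : Site d k) : ra d q * PP^[2 * t + 1] (bq c f) u - hh c f u =
      ra d q * PP^[t + 1] (fun x => PP^[t] (bq c f) x - PP^[t] (gg c f) x) u +
        (PP^[2 * t] (hh c f) u - hh c f u) := by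
  have h1 : PP^[2 * t] (hh c f) u = ra d q * PP^[2 * t + 1] (gg c f) u := by
    have h2 : hh c f = fun v => ra d q * PP (gg c f) v := funext fun v => hh_eq hd hq c f v
    rw [h2, PPt_mul, Function.iterate_succ_apply]
  have h3 : ∀ g : Site d k → ℝ, PP^[2 * t + 1] g = PP^[t + 1] (PP^[t] g) := by
    intro g
    rw [← Function.iterate_add_apply, show t + 1 + t = 2 * t + 1 by omega]
  rw [h1, PPt_sub, h3 (bq c f), h3 (gg c f)]
  ring

/-- (ii) -/
theorem dens_det {ε : ℝ} (hε : 0 < ε) (hε1 : ε ≤ 1) (C₆ : ℝ) (t : ℕ) (ht : Even t) (ht' : 20 ≤ t) (δ : ℝ) (hδ : 0 < δ) :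
    ∃ δ' : ℝ, 0 < δ' ∧ EvT ε fun d k q => ∀ f ∈ prps d k q, Good ε δ' C₆ t f →
      ∑ u : Site d k, mc (fun γ => |ra d q * PP^[2 * t + 1] (bq γ f) u - hh γ f u|) ≤ δ * NN d k := by
  have hA0 : 0 < A0 ε := by unfold A0; positivity
  refine ⟨(δ / 2) ^ 2, by positivity, ⌈2 * A0 ε / δ⌉₊ + 1, fun d q hd hq1 _ =>
    Filter.Eventually.of_forall fun k f _ hG => ?_⟩
  have hd1 : 1 ≤ d := by omega
  have hdR : (1 : ℝ) ≤ d := by exact_mod_cast hd1
  have hqR : (0 : ℝ) < q := lt_of_lt_of_le (by positivity) hq1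
  have hq : 1 ≤ q := by exact_mod_cast hqR
  have hN := C3b_NN d k
  have hdA : 2 * A0 ε / δ ≤ d := by
    refine (Nat.le_ceil _).trans ?_
    exact_mod_cast (by omega : ⌈2 * A0 ε / δ⌉₊ ≤ d)
  have hra0 : 0 ≤ ra d q := by unfold ra; positivity
  have hra : ra d q ≤ A0 ε := by
    unfold ra A0
    rw [div_le_div_iff₀ hqR hε]
    nlinarith
  have hsmall : ra d q / (d : ℝ) ^ 2 ≤ δ / 2 := by
    rw [div_le_iff₀ (by positivity)]
    have h1 : 2 * A0 ε ≤ d * δ := by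
      rwa [div_le_iff₀ hδ] at hdA
    have h2 : (d : ℝ) ≤ (d : ℝ) ^ 2 := by nlinarith
    have h3 : (d : ℝ) * δ ≤ (d : ℝ) ^ 2 * δ := mul_le_mul_of_nonneg_right h2 hδ.le
    linarith
  have key : ∀ γ : Fin q, ∑ u : Site d k, |ra d q * PP^[2 * t + 1] (bq γ f) u - hh γ f u| ≤
      δ * NN d k := by
    intro γ
    have h1 : ∑ u : Site d k, (ra d q * PP^[t + 1] (fun x => PP^[t] (bq γ f) x - PP^[t] (gg γ f) x) u) ^ 2 ≤
        (δ / 2) ^ 2 * NN d k := by
      have h2 := PPt_l2 hd1 (t + 1) (fun x => PP^[t] (bq γ f) x - PP^[t] (gg γ f) x)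
      have h3 := hG.smo γ
      calc ∑ u : Site d k, (ra d q * PP^[t + 1] (fun x => PP^[t] (bq γ f) x - PP^[t] (gg γ f) x) u) ^ 2
          = ra d q ^ 2 * ∑ u : Site d k, PP^[t + 1] (fun x => PP^[t] (bq γ f) x - PP^[t] (gg γ f) x) u ^ 2 := by
            rw [Finset.mul_sum]
            exact Finset.sum_congr rfl fun u _ => by ring
        _ ≤ ra d q ^ 2 * (NN d k / (d : ℝ) ^ 4) :=
            mul_le_mul_of_nonneg_left (h2.trans h3) (by positivity)
        _ = (ra d q / (d : ℝ) ^ 2) ^ 2 * NN d k := by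
            field_simp
        _ ≤ (δ / 2) ^ 2 * NN d k := by
            apply mul_le_mul_of_nonneg_right _ hN.le
            exact pow_le_pow_left₀ (by positivity) hsmall 2
    have h4 := C3b_l1 _ (δ / 2) (by positivity) h1
    have h5 := C3b_l1 (fun u => PP^[2 * t] (hh γ f) u - hh γ f u) (δ / 2) (by positivity) (hG.sm2 γ)
    calc ∑ u : Site d k, |ra d q * PP^[2 * t + 1] (bq γ f) u - hh γ f u|
        ≤ ∑ u : Site d k, (|ra d q * PP^[t + 1] (fun x => PP^[t] (bq γ f) x - PP^[t] (gg γ f) x) u| +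
            |PP^[2 * t] (hh γ f) u - hh γ f u|) := by
          refine Finset.sum_le_sum fun u _ => ?_
          rw [C3b_split hd1 hq]
          exact abs_add_le _ _
      _ ≤ δ / 2 * NN d k + δ / 2 * NN d k := by
          rw [Finset.sum_add_distrib]
          exact add_le_add h4 h5
      _ = δ * NN d k := by ring
  unfold mc
  rw [← Finset.sum_div, Finset.sum_comm, div_le_iff₀ hqR]
  calc ∑ γ : Fin q, ∑ u : Site d k, |ra d q * PP^[2 * t + 1] (bq γ f) u - hh γ f u|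
      ≤ ∑ _γ : Fin q, δ * NN d k := Finset.sum_le_sum fun γ _ => key γ
    _ = δ * NN d k * q := by
        rw [Finset.sum_const, Finset.card_univ, Fintype.card_fin, nsmul_eq_mul]
        ring

end Pool.Agent.THR
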