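import Pool.Agent.Lib_MP_2c424f_thr.M1
import Pool.Agent.Lib_MP_2c424f_thr.A1

/-!
# THR C3c: the energy-entropy estimate (paper proof: C3 (iv)), deterministic

`x = u + σ`.  `-mc (ya_u log ya_u) = mc (ya_u hh_u) + log al_u` (`exp_hh`, `ya_mean`), so
`a mc (ya_u ya_x) + log al_u + log al_x = -mc (ya_u log ya_u) + mc (ya_u (a ya_x - hh_u)) + log al_x`, and `∑_u mc |a ya_x - hh_u|` is small by `mf` and Cauchy-Schwarz, `ya ≤ e^a`;
`log al_x ≤ log α* + (al_x-α*)/α*`, `al_x = mc exp (-hh_x)`, `|hh_x - a ya_u|` is small in mean (`mf` at the site `x` with the opposite step),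
so `al_x ≤ mc exp (-a ya_u) + small`, `α* ≥ e^(-a)` (`als_bounds`).  So the left side is at most
`∑_u (mc (ψ(ya_u)) - 1 + log α*) + errors = ∑_u (Phi - mc (L (ya_u))) + errors` since `mc ya_u = 1` (`mc (ell (ya_u)) = ell 1`); `|cls b| = N/2`.
-/

set_option autoImplicit false

open Finset Filter

namespace Pool.Agent.THR

open Pool.Agent.LO Pool.Agent.LIN

private theorem C3c_add {q : ℕ} (F G : Fin q → ℝ) : mc (fun c => F c + G c) = mc F + mc G := by
  unfold mc
  rw [sum_add_distrib, add_div]

private theorem C3c_mul {q : ℕ} (r : ℝ) (F : Fin q → ℝ) : mc (fun c => r * F c) = r * mc F := by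
  unfold mc
  rw [← mul_sum, mul_div_assoc]

private theorem C3c_mono {q : ℕ} {F G : Fin q → ℝ} (h : ∀ c, F c ≤ G c) : mc F ≤ mc G := by
  unfold mc
  exact div_le_div_of_nonneg_right (sum_le_sum fun c _ => h c) (Nat.cast_nonneg q)

private theorem C3c_one {q : ℕ} (hq : 1 ≤ q) (r : ℝ) : mc (fun _ : Fin q => r) = r := by
  unfold mc
  have : (0 : ℝ) < q := by exact_mod_cast hq
  rw [sum_const, card_univ, Fintype.card_fin, nsmul_eq_mul, mul_div_cancel_left₀ _ this.ne']

private theorem C3c_exp {x y : ℝ} (hx : 0 ≤ x) : Real.exp (-x) ≤ Real.exp (-y) + |x - y| := by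
  by_cases h : y ≤ x
  · have : Real.exp (-x) ≤ Real.exp (-y) := Real.exp_le_exp.2 (by linarith)
    have h2 := abs_nonneg (x - y)
    linarith
  · push Not at h
    have h1 : Real.exp (-x) ≤ 1 := by
      rw [← Real.exp_zero]
      exact Real.exp_le_exp.2 (by linarith)
    have h2 : 1 - (y - x) ≤ Real.exp (-(y - x)) := by
      have := Real.add_one_le_exp (-(y - x))
      linarith
    have h3 : Real.exp (-y) = Real.exp (-x) * Real.exp (-(y - x)) := by
      rw [← Real.exp_add]
      congr 1
      ring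
    have h4 : |x - y| = y - x := by
      rw [abs_sub_comm]
      exact abs_of_pos (by linarith)
    have h5 := Real.exp_pos (-x)
    rw [h3, h4]
    have h6 : Real.exp (-x) * (1 - (y - x)) ≤ Real.exp (-x) * Real.exp (-(y - x)) :=
      mul_le_mul_of_nonneg_left h2 h5.le
    nlinarith

private theorem C3c_site {d k q : ℕ} (hq : 1 ≤ q) {f : Site d k → Fin q} (hf : Prp f) (m : ℝ) (hm : |m| ≤ 1)
    (u x : Site d k) :
    ra d q * mc (fun c => ya c f u * ya c f x) + Real.log (al f u) + Real.log (al f x) ≤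
      Phi (ra d q) m - mc (fun c => LL (ra d q) m (ya c f u)) +
      Real.exp (ra d q) * mc (fun c => |hh c f u - ra d q * ya c f x|) +
      Real.exp (ra d q) * mc (fun c => |hh c f x - ra d q * ya c f u|) := by
  set a := ra d q with ha
  have ha0 : 0 ≤ a := by
    rw [ha]
    unfold ra
    positivity
  have hals := als_bounds a m ha0 hm
  have hαs := als_pos a m
  have halu : 0 < al f u := (Real.exp_pos _).trans_le (al_ge hq hf u)
  have halx : 0 < al f x := (Real.exp_pos _).trans_le (al_ge hq hf x)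
  have h1 : ∀ c, Real.log (ya c f u) = -hh c f u - Real.log (al f u) := by
    intro c
    have h2 := exp_hh hq f c u
    have h3 := (ya_bound hq hf c u).1
    have h4 := congrArg Real.log h2
    rw [Real.log_exp, Real.log_mul halu.ne' h3.ne'] at h4
    linarith
  have hA : a * mc (fun c => ya c f u * ya c f x) + Real.log (al f u) ≤
      mc (fun c => Real.negMulLog (ya c f u)) +
        Real.exp a * mc (fun c => |hh c f u - a * ya c f x|) := by
    have h6 : mc (fun c => a * (ya c f u * ya c f x) + Real.log (al f u) * ya c f u) ≤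
        mc (fun c => Real.negMulLog (ya c f u) + Real.exp a * |hh c f u - a * ya c f x|) := by
      refine C3c_mono fun c => ?_
      obtain ⟨h3, h4⟩ := ya_bound hq hf c u
      rw [Real.negMulLog, h1 c]
      have h5 : ya c f u * (a * ya c f x - hh c f u) ≤ Real.exp a * |hh c f u - a * ya c f x| := by
        calc ya c f u * (a * ya c f x - hh c f u) ≤ ya c f u * |hh c f u - a * ya c f x| :=
              mul_le_mul_of_nonneg_left (by rw [abs_sub_comm]; exact le_abs_self _) h3.le
          _ ≤ _ := mul_le_mul_of_nonneg_right h4 (abs_nonneg _)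
      nlinarith
    rw [C3c_add, C3c_add, C3c_mul, C3c_mul, C3c_mul, ya_mean hq f u, mul_one] at h6
    exact h6
  have hB : Real.log (al f x) ≤ Real.log (als a m) - 1 + mc (fun c => Fy a m (ya c f u)) +
      Real.exp a * mc (fun c => |hh c f x - a * ya c f u|) := by
    have h2 : Real.log (al f x) ≤ Real.log (als a m) + (al f x / als a m - 1) := by
      have h3 := Real.log_le_sub_one_of_pos (div_pos halx hαs)
      rw [Real.log_div halx.ne' hαs.ne'] at h3
      linarith
    have h4 : al f x / als a m ≤ mc (fun c => Fy a m (ya c f u)) +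
        Real.exp a * mc (fun c => |hh c f x - a * ya c f u|) := by
      have h5 : al f x / als a m = mc (fun c => (1 / als a m) * Real.exp (-hh c f x)) := by
        rw [C3c_mul]
        unfold al mc
        ring
      rw [h5, ← C3c_mul (Real.exp a), ← C3c_add]
      refine C3c_mono fun c => ?_
      have h6 := C3c_exp (y := a * ya c f u) (hh_nonneg c f x)
      have h7 : 1 / als a m ≤ Real.exp a := by
        rw [div_le_iff₀ hαs]
        have h8 := mul_le_mul_of_nonneg_left hals.1 (Real.exp_pos a).le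
        rw [← Real.exp_add, add_neg_cancel, Real.exp_zero] at h8
        exact h8
      calc 1 / als a m * Real.exp (-hh c f x)
          ≤ 1 / als a m * (Real.exp (-(a * ya c f u)) + |hh c f x - a * ya c f u|) :=
            mul_le_mul_of_nonneg_left h6 (by positivity)
        _ = Fy a m (ya c f u) + 1 / als a m * |hh c f x - a * ya c f u| := by
            unfold Fy
            ring
        _ ≤ Fy a m (ya c f u) + Real.exp a * |hh c f x - a * ya c f u| := by
            have := mul_le_mul_of_nonneg_right h7 (abs_nonneg (hh c f x - a * ya c f u))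
            linarith
    linarith
  have hC : mc (fun c => Real.negMulLog (ya c f u)) + mc (fun c => Fy a m (ya c f u)) =
      ell a m 1 - mc (fun c => LL a m (ya c f u)) := by
    have h2 : mc (fun c => ell a m (ya c f u)) = ell a m 1 := by
      have h3 : (fun c => ell a m (ya c f u)) = fun c =>
          (ell a m 1 - (psi a m (1 + m) - psi a m (1 - m)) / (2 * m)) +
            (psi a m (1 + m) - psi a m (1 - m)) / (2 * m) * ya c f u := by
        funext c
        unfold ell
        ring
      rw [h3, C3c_add, C3c_one hq, C3c_mul, ya_mean hq f u]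
      ring
    have h3 : mc (fun c => Real.negMulLog (ya c f u)) + mc (fun c => Fy a m (ya c f u)) +
        mc (fun c => LL a m (ya c f u)) = mc (fun c => ell a m (ya c f u)) := by
      rw [← C3c_add, ← C3c_add]
      congr 1
      funext c
      unfold LL psi
      ring
    linarith
  have hP : Phi a m = ell a m 1 - 1 + Real.log (als a m) := rfl
  rw [hP]
  linarith

private theorem C3c_card (d k : ℕ) : (Fintype.card (Site d k) : ℝ) = NN d k := by
  rw [Fintype.card_fun, Fintype.card_fin, ZMod.card]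
  push_cast
  rfl

private theorem C3c_cs {d k q : ℕ} (hq : 1 ≤ q) (s : ℝ) (hs : 0 < s) (F : Fin q → Site d k → ℝ)
    (h : ∀ c, ∑ u, F c u ^ 2 ≤ s ^ 2 * NN d k) : ∑ u, mc (fun c => |F c u|) ≤ s * NN d k := by
  have h1 : ∑ u, mc (fun c => |F c u|) = mc (fun c => ∑ u, |F c u|) := by
    unfold mc
    rw [← sum_div, sum_comm]
  rw [h1]
  have h2 : ∀ c, ∑ u, |F c u| ≤ s * NN d k := by
    intro c
    have h3 : ∀ u, |F c u| ≤ F c u ^ 2 / (2 * s) + s / 2 := by
      intro u
      have h4 : 0 ≤ (|F c u| - s) ^ 2 := sq_nonneg _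
      have h5 : |F c u| ^ 2 = F c u ^ 2 := sq_abs _
      have h6 : F c u ^ 2 / (2 * s) + s / 2 - |F c u| = (|F c u| - s) ^ 2 / (2 * s) := by
        rw [sub_sq, h5]
        field_simp
        ring
      have h7 : 0 ≤ (|F c u| - s) ^ 2 / (2 * s) := by positivity
      linarith
    calc ∑ u, |F c u| ≤ ∑ u, (F c u ^ 2 / (2 * s) + s / 2) := sum_le_sum fun u _ => h3 u
      _ = (∑ u, F c u ^ 2) / (2 * s) + NN d k * (s / 2) := by
          rw [sum_add_distrib, ← sum_div, sum_const, card_univ, nsmul_eq_mul, C3c_card]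
      _ ≤ (s ^ 2 * NN d k) / (2 * s) + NN d k * (s / 2) := by
          have := div_le_div_of_nonneg_right (h c) (by positivity : 0 ≤ 2 * s)
          linarith
      _ = s * NN d k := by
          field_simp
          ring
  calc mc (fun c => ∑ u, |F c u|) ≤ mc (fun _ : Fin q => s * NN d k) := C3c_mono h2
    _ = _ := C3c_one hq _

private theorem C3c_prp {d k q : ℕ} {f : Site d k → Fin q} (hf : f ∈ prps d k q) : Prp f := by
  classical
  unfold prps at hf
  exact (mem_filter.1 hf).2

/-- (iv) -/
theorem env_det {ε : ℝ} (hε : 0 < ε) (hε1 : ε ≤ 1) (C₆ : ℝ) (t : ℕ) (δ : ℝ) (hδ : 0 < δ) :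
    ∃ δ' : ℝ, 0 < δ' ∧ EvT ε fun d k q => ∀ (b : Bool) (σ : Stp d) (m : ℝ), MFE (ra d q) m → ∀ f ∈ prps d k q,
      Good ε δ' C₆ t f →
      ∑ u ∈ cls b d k, (ra d q * mc (fun c => ya c f u * ya c f (u + sv σ)) + Real.log (al f u) +
          Real.log (al f (u + sv σ))) ≤
        NN d k / 2 * Phi (ra d q) m - ∑ u ∈ cls b d k, mc (fun c => LL (ra d q) m (ya c f u)) + δ * NN d k := by
  classical
  set s : ℝ := δ / (2 * Real.exp (A0 ε)) with hs
  have hE := Real.exp_pos (A0 ε)
  have hs0 : 0 < s := by positivity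
  refine ⟨s ^ 2, by positivity, (EvT_reg hε hε1 1).mono fun d k q hr b σ m hm f hf hG => ?_⟩
  obtain ⟨hd, hq, hk, -, -, -, hA0, -⟩ := hr
  have hd' : 1 ≤ d := by exact_mod_cast hd
  have hk' : 1 ≤ k := by exact_mod_cast hk
  have hq' : 1 ≤ q := by exact_mod_cast hq
  have hP := C3c_prp hf
  have hm1 : |m| ≤ 1 := by
    have h1 := mfe_lt _ m hm
    rw [abs_of_pos hm.1]
    exact h1.le
  have hN : 0 ≤ NN d k := by
    unfold NN
    positivity
  have hea : Real.exp (ra d q) ≤ Real.exp (A0 ε) := Real.exp_le_exp.2 hA0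
  have hnn : ∀ F : Fin q → ℝ, 0 ≤ mc (fun c => |F c|) := by
    intro F
    unfold mc
    exact div_nonneg (sum_nonneg fun c _ => abs_nonneg _) (Nat.cast_nonneg q)
  have h1 : ∑ u ∈ cls b d k, mc (fun c => |hh c f u - ra d q * ya c f (u + sv σ)|) ≤ s * NN d k := by
    refine (sum_le_sum_of_subset_of_nonneg (subset_univ _) fun u _ _ =>
      hnn fun c => hh c f u - ra d q * ya c f (u + sv σ)).trans ?_
    exact C3c_cs hq' s hs0 (fun c u => hh c f u - ra d q * ya c f (u + sv σ)) fun c => hG.mf c σ
  have h2 : ∑ u ∈ cls b d k, mc (fun c => |hh c f (u + sv σ) - ra d q * ya c f u|) ≤ s * NN d k := by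
    refine (sum_le_sum_of_subset_of_nonneg (subset_univ _) fun u _ _ =>
      hnn fun c => hh c f (u + sv σ) - ra d q * ya c f u).trans ?_
    have h3 := C3c_cs hq' s hs0 (fun c u => hh c f u - ra d q * ya c f (u + sv (opp σ))) fun c => hG.mf c (opp σ)
    have h4 : ∑ u : Site d k, mc (fun c => |hh c f (u + sv σ) - ra d q * ya c f u|) =
        ∑ u : Site d k, mc (fun c => |hh c f u - ra d q * ya c f (u + sv (opp σ))|) := by
      refine Fintype.sum_equiv (Equiv.addRight (sv σ)) _ _ fun u => ?_
      have h5 : u + sv σ + sv (opp σ) = u := by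
        have h6 : (sv σ : Site d k) + sv (opp σ) = 0 := sv_opp σ.1 σ.2
        rw [add_assoc, h6, add_zero]
      rw [Equiv.coe_addRight, h5]
    rw [h4]
    exact h3
  have h3 : ∑ u ∈ cls b d k, (ra d q * mc (fun c => ya c f u * ya c f (u + sv σ)) + Real.log (al f u) +
          Real.log (al f (u + sv σ))) ≤
      ∑ u ∈ cls b d k, (Phi (ra d q) m - mc (fun c => LL (ra d q) m (ya c f u)) +
      Real.exp (ra d q) * mc (fun c => |hh c f u - ra d q * ya c f (u + sv σ)|) +
      Real.exp (ra d q) * mc (fun c => |hh c f (u + sv σ) - ra d q * ya c f u|)) :=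
    sum_le_sum fun u _ => C3c_site hq' hP m hm1 u (u + sv σ)
  refine h3.trans ?_
  rw [sum_add_distrib, sum_add_distrib, sum_sub_distrib, ← mul_sum, ← mul_sum, sum_const, nsmul_eq_mul,
    card_cls hd' hk' b]
  have h4 : Real.exp (ra d q) * ∑ u ∈ cls b d k, mc (fun c => |hh c f u - ra d q * ya c f (u + sv σ)|) ≤
      Real.exp (A0 ε) * (s * NN d k) :=
    mul_le_mul hea h1 (sum_nonneg fun u _ => hnn fun c => hh c f u - ra d q * ya c f (u + sv σ)) hE.le
  have h5 : Real.exp (ra d q) * ∑ u ∈ cls b d k, mc (fun c => |hh c f (u + sv σ) - ra d q * ya c f u|) ≤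
      Real.exp (A0 ε) * (s * NN d k) :=
    mul_le_mul hea h2 (sum_nonneg fun u _ => hnn fun c => hh c f (u + sv σ) - ra d q * ya c f u) hE.le
  have h6 : Real.exp (A0 ε) * (s * NN d k) = δ / 2 * NN d k := by
    rw [hs]
    field_simp
  rw [h6] at h4 h5
  linarith

end Pool.Agent.THR
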