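import Pool.Agent.Lib_MP_2c424f_lin.Main

/-!
# MP_2c424f_pr, the sharp threshold on tori: definitions

Paper proof: `/team-store/thr_proof.md`.  Notation of `Lib_MP_2c424f_lo`, `Lib_MP_2c424f_lin`: `Site d k = (ℤ/2^k)^d`,
steps `Stp d`, `sv`, classes `cls b`, `NN`, `Prp`, `prps`, `ZZ`, `SS`, `av`, `zz`, `PP`, `fib`, `fm`, `zt`, `pl i j`.
-/

set_option autoImplicit false

open Finset Filter

namespace Pool.Agent.THR

open Pool.Agent.LO Pool.Agent.LIN

/-! ## Regime and rare events -/

open scoped Classical in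
/-- at most `Z exp(-N/d^C)` proper colourings have the property `P` -/
def Rar (C d k q : ℕ) (P : (Site d k → Fin q) → Prop) : Prop :=
  (((prps d k q).filter P).card : ℝ) ≤ ZZ d k q * Real.exp (-(NN d k / (d : ℝ) ^ C))

/-- the statement holds for `d` large, `ε d ≤ q ≤ (2-ε) d` and all large `k` -/
def EvT (ε : ℝ) (P : ℕ → ℕ → ℕ → Prop) : Prop :=
  ∃ d₀ : ℕ, ∀ d q : ℕ, d₀ ≤ d → ε * d ≤ q → (q : ℝ) ≤ (2 - ε) * d → ∀ᶠ k : ℕ in atTop, P d k q

/-- with overwhelming probability -/
def WOP (ε : ℝ) (P : ∀ d k q : ℕ, (Site d k → Fin q) → Prop) : Prop :=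
  ∃ C : ℕ, EvT ε fun d k q => Rar C d k q fun f => ¬ P d k q f

/-- with overwhelming probability, uniformly in a parameter `i`.  Hypotheses on `i` are part of `P` (as premises) -/
def WOPi (ε : ℝ) (ι : ℕ → ℕ → ℕ → Type) (P : ∀ d k q : ℕ, ι d k q → (Site d k → Fin q) → Prop) : Prop :=
  ∃ C : ℕ, EvT ε fun d k q => ∀ i : ι d k q, Rar C d k q fun f => ¬ P d k q i f

/-- `a = 2 d / q` -/
noncomputable def ra (d q : ℕ) : ℝ := 2 * d / q

/-- upper bound of `a` -/
noncomputable def A0 (ε : ℝ) : ℝ := 2 / ε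

/-- lower bound of `a` -/
noncomputable def a1 (ε : ℝ) : ℝ := 2 / (2 - ε)

/-- threshold for regular sites -/
noncomputable def c1 (ε : ℝ) : ℝ := (4 : ℝ) ^ (-A0 ε) / 4

/-- the opposite step -/
def opp {d : ℕ} (σ : Stp d) : Stp d := (σ.1, !σ.2)

section stats
variable {d k q : ℕ}

/-- bounded differences: changing one colour of a colouring of a fibre changes `Ψ` by at most `c` -/
def Lip (b : Bool) (c : ℝ) (Ψ : (Site d k → Fin q) → ℝ) : Prop :=
  ∀ f ∈ prps d k q, ∀ h ∈ fib b f, ∀ v ∈ cls b d k, ∀ γ, γ ∉ SS f v → |Ψ (Function.update h v γ) - Ψ h| ≤ c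

/-! ## Availability -/

open scoped Classical in
/-- number of colours not used on the neighbours `u` of `v` which have not exactly one available colour -/
noncomputable def Vn (f : Site d k → Fin q) (v : Site d k) : ℕ :=
  (univ.filter fun c : Fin q => ∀ σ : Stp d, f (v + sv σ) = c → av f (v + sv σ) = 1).card

open scoped Classical in
/-- frozen sites of the class `b` -/
noncomputable def Fz (b : Bool) (f : Site d k → Fin q) : Finset (Site d k) :=
  (cls b d k).filter fun v => av f v = 1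

open scoped Classical in
/-- exceptional sites of the class `b` -/
noncomputable def Bd (b : Bool) (f : Site d k → Fin q) : Finset (Site d k) :=
  (cls b d k).filter fun v => (Vn f v : ℝ) < q * (4 : ℝ) ^ (-ra d q) / 2

open scoped Classical in
/-- number of irregular sites -/
noncomputable def irr (ε : ℝ) (f : Site d k → Fin q) : ℝ :=
  ((univ.filter fun v : Site d k => (av f v : ℝ) < c1 ε * q).card : ℝ)

/-- regular site -/
def Rg (ε : ℝ) (f : Site d k → Fin q) (v : Site d k) : Prop := c1 ε * q ≤ (av f v : ℝ)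

/-- all neighbours are regular -/
def Nc (ε : ℝ) (f : Site d k → Fin q) (v : Site d k) : Prop := ∀ σ : Stp d, Rg ε f (v + sv σ)

/-! ## The sum rule -/

open scoped Classical in
/-- fibre steps of the plane `i j` -/
noncomputable def fs (i j : Fin d) : Finset (Stp d) := univ.filter fun σ => σ.1 ≠ i ∧ σ.1 ≠ j

open scoped Classical in
/-- number of colours which no fibre neighbour of `u` has -/
noncomputable def aF (i j : Fin d) (f : Site d k → Fin q) (u : Site d k) : ℕ :=
  (univ.filter fun γ : Fin q => ∀ σ ∈ fs i j, f (u + sv σ) ≠ γ).card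

open scoped Classical in
/-- `1` if no fibre neighbour of `u` has colour `c` or `c'` -/
noncomputable def BF (i j : Fin d) (c c' : Fin q) (f : Site d k → Fin q) (u : Site d k) : ℝ :=
  if ∀ σ ∈ fs i j, f (u + sv σ) ≠ c ∧ f (u + sv σ) ≠ c' then 1 else 0

open scoped Classical in
/-- colours which no fibre neighbour of `u + τ`, except `u`, has -/
noncomputable def xS (i j : Fin d) (f : Site d k → Fin q) (u : Site d k) (τ : Stp d) : Finset (Fin q) :=
  univ.filter fun γ => ∀ ρ ∈ fs i j, ρ ≠ opp τ → f (u + sv τ + sv ρ) ≠ γ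

open scoped Classical in
/-- probability of `c` or `c'` in `xS` -/
noncomputable def pF (i j : Fin d) (c c' : Fin q) (f : Site d k → Fin q) (u : Site d k) (τ : Stp d) : ℝ :=
  ((if c ∈ xS i j f u τ then (1 : ℝ) else 0) + (if c' ∈ xS i j f u τ then (1 : ℝ) else 0)) /
    ((xS i j f u τ).card : ℝ)

/-- weight which compensates `BF` -/
noncomputable def WF (i j : Fin d) (c c' : Fin q) (f : Site d k → Fin q) (u : Site d k) : ℝ :=
  ∏ τ ∈ fs i j, (1 - pF i j c c' f u τ)⁻¹

/-- regularity used in the weight `WF` -/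
def r1 (ε : ℝ) (i j : Fin d) (f : Site d k → Fin q) (u : Site d k) : Prop :=
  ∀ τ ∈ fs i j, c1 ε * q ≤ ((xS i j f u τ).card : ℝ)

open scoped Classical in
/-- the weight, without the condition on `aF` -/
noncomputable def V1 (ε : ℝ) (i j : Fin d) (c c' : Fin q) (f : Site d k → Fin q) (u : Site d k) : ℝ :=
  if r1 ε i j f u then WF i j c c' f u * BF i j c c' f u else 0

open scoped Classical in
/-- the weight -/
noncomputable def VF (ε : ℝ) (i j : Fin d) (c c' : Fin q) (f : Site d k → Fin q) (u : Site d k) : ℝ :=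
  if c1 ε * q ≤ (aF i j f u : ℝ) then V1 ε i j c c' f u else 0

/-- upper bound of the weights -/
noncomputable def CW (ε : ℝ) : ℝ := (4 : ℝ) ^ (2 * A0 ε / c1 ε)

open scoped Classical in
/-- difference of two colour indicators -/
noncomputable def sg (c c' : Fin q) (f : Site d k → Fin q) (v : Site d k) : ℝ :=
  (if f v = c then (1 : ℝ) else 0) - (if f v = c' then (1 : ℝ) else 0)

/-- summand of the sum rule -/
noncomputable def GF (ε : ℝ) (i j : Fin d) (c c' : Fin q) (f : Site d k → Fin q) (u : Site d k) : ℝ :=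
  VF ε i j c c' f u * ((aF i j f u : ℝ) / q * sg c c' f u + 1 / q * ∑ σ ∈ pl i j, sg c c' f (u + sv σ))

/-- the part of the summand which belongs to the step `σ` -/
noncomputable def TF (ε : ℝ) (i j : Fin d) (c c' : Fin q) (σ : Stp d) (f : Site d k → Fin q) (u : Site d k) : ℝ :=
  VF ε i j c c' f u * (1 / q * sg c c' f (u + sv σ) + (aF i j f u : ℝ) / (4 * q) * sg c c' f u)

/-- number of plane neighbours of `u` with colour `c` -/
def nP (i j : Fin d) (c : Fin q) (f : Site d k → Fin q) (u : Site d k) : ℕ :=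
  ((pl i j).filter fun σ => f (u + sv σ) = c).card

/-- total weight -/
noncomputable def Wt (b : Bool) (w : Site d k → ℝ) : ℝ := ∑ u ∈ cls b d k, |w u|

/-- even plane position -/
def pev (i j : Fin d) (v : Site d k) : Prop := Even ((v i).val + (v j).val)

/-- constant of the sum rule -/
noncomputable def C2 (ε : ℝ) : ℝ := 136 * CW ε / c1 ε ^ 2

/-! ## Local densities -/

open scoped Classical in
/-- `q` times the indicator of the colour `c` -/
noncomputable def bq (c : Fin q) (f : Site d k → Fin q) (v : Site d k) : ℝ := if f v = c then (q : ℝ) else 0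

/-- conditional mean of `bq` -/
noncomputable def gg (c : Fin q) (f : Site d k → Fin q) (v : Site d k) : ℝ := q * zz f v c / (av f v : ℝ)

/-- kernel of the `t`-th power of the averaging operator -/
noncomputable def Kt (t : ℕ) (u y : Site d k) : ℝ := PP^[t] (fun x => if x = y then (1 : ℝ) else 0) u

/-- `∑_{u ~ v} z_u / x_u` -/
noncomputable def hh (c : Fin q) (f : Site d k → Fin q) (v : Site d k) : ℝ :=
  ∑ σ : Stp d, zz f (v + sv σ) c / (av f (v + sv σ) : ℝ)

/-- mean-field value of `x_v / q` -/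
noncomputable def al (f : Site d k → Fin q) (v : Site d k) : ℝ := (∑ c : Fin q, Real.exp (-hh c f v)) / q

/-- mean-field density -/
noncomputable def ya (c : Fin q) (f : Site d k → Fin q) (v : Site d k) : ℝ := Real.exp (-hh c f v) / al f v

/-- mean over the colours -/
noncomputable def mc (φ : Fin q → ℝ) : ℝ := (∑ c, φ c) / q

/-- good colourings -/
structure Good (ε δ C₆ : ℝ) (t : ℕ) (f : Site d k → Fin q) : Prop where
  irr4 : irr ε f ≤ NN d k / (d : ℝ) ^ 4
  grad : ∀ (c : Fin q) (σ τ : Stp d),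
    ∑ x, (PP^[t] (gg c f) (x + sv σ) - PP^[t] (gg c f) (x + sv τ)) ^ 2 ≤ C₆ * NN d k / (q : ℝ) ^ 2
  smo : ∀ c : Fin q, ∑ x, (PP^[t] (bq c f) x - PP^[t] (gg c f) x) ^ 2 ≤ NN d k / (d : ℝ) ^ 4
  hom : ∀ (c : Fin q) (σ τ : Stp d), ∑ x, (hh c f (x + sv σ) - hh c f (x + sv τ)) ^ 2 ≤ δ * NN d k
  avl : ∑ v, ((av f v : ℝ) / q - al f v) ^ 2 ≤ δ * NN d k
  mf : ∀ (c : Fin q) (σ : Stp d), ∑ u, (hh c f u - ra d q * ya c f (u + sv σ)) ^ 2 ≤ δ * NN d k
  sm0 : ∀ c : Fin q, ∑ u, (PP^[t] (gg c f) u - ya c f u) ^ 2 ≤ δ * NN d k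
  sm1 : ∀ (c : Fin q) (σ : Stp d), ∑ u, (PP^[t + 1] (gg c f) u - ya c f (u + sv σ)) ^ 2 ≤ δ * NN d k
  sm2 : ∀ c : Fin q, ∑ u, (PP^[2 * t] (hh c f) u - hh c f u) ^ 2 ≤ δ * NN d k

end stats

/-! ## Mean-field numbers -/

/-- `α* = e^{-a} cosh (a m)` -/
noncomputable def als (a m : ℝ) : ℝ := Real.exp (-a) * Real.cosh (a * m)

/-- `F y = e^{-a y} / α*` -/
noncomputable def Fy (a m y : ℝ) : ℝ := Real.exp (-(a * y)) / als a m

/-- `ψ y = - y log y + e^{-a y} / α*` -/
noncomputable def psi (a m y : ℝ) : ℝ := Real.negMulLog y + Fy a m y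

/-- the common tangent of `ψ` at `1 ± m` -/
noncomputable def ell (a m y : ℝ) : ℝ :=
  (psi a m (1 + m) + psi a m (1 - m)) / 2 + (psi a m (1 + m) - psi a m (1 - m)) / (2 * m) * (y - 1)

/-- the deficit -/
noncomputable def LL (a m y : ℝ) : ℝ := ell a m y - psi a m y

/-- the maximal value of the functional -/
noncomputable def Phi (a m : ℝ) : ℝ := ell a m 1 - 1 + Real.log (als a m)

/-- the mean-field equation -/
def MFE (a m : ℝ) : Prop := 0 < m ∧ m = Real.tanh (a * m)

/-- the symmetric fixed point -/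
def YM (a m y : ℝ) : Prop := 0 ≤ y ∧ y = Fy a m y

/-- distance to `1 ± m` -/
noncomputable def dst2 (m y : ℝ) : ℝ := min |y - (1 - m)| |y - (1 + m)|

/-- distance to `1 - m, y_M, 1 + m` -/
noncomputable def dst3 (m yM y : ℝ) : ℝ := min (dst2 m y) |y - yM|

/-- the label `± 1` -/
noncomputable def eps {d k q : ℕ} (c : Fin q) (f : Site d k → Fin q) (v : Site d k) : ℝ :=
  if 1 ≤ ya c f v then 1 else -1

end Pool.Agent.THR
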