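import Pool.Agent.Lib_MP_2c424f_thr.M1
import Pool.Agent.Lib_MP_2c424f_thr.T1
import Pool.Agent.Lib_MP_2c424f_thr.S4

/-!
# THR M2: available colours (paper proof: M2)

`v` in the class `b`, resample `!b`: mean of `av f v` is `∑_c zt` (`LIN.fm_zz`, `LO.av_eq`), `fm_var` with influence `1` of the `2d` neighbours:
variance `≤ 8d`.  `|mc zt - al| ≤ a/(c1² q)` at nice sites, `≤ 1` elsewhere (at most `2 d irr` sites).
Mean of `Ψ = ∑_{v ∈ b} (av/q - al)²` is `≤ 2 (N 8d/q² + N (a/(c1² q))² + 2 d irr) ≤ δN/4` for `d` large (`avail 3`).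
`WOPi_tail`: a change of one colour changes `av` at `2d` sites by at most `1` (`κ = 2`: `2d · 2 · (2/q) .. ≤ d²`), `K = 1`.
-/

set_option autoImplicit false

open Finset Filter

namespace Pool.Agent.THR

open Pool.Agent.LO Pool.Agent.LIN

section M2aux
variable {d k q : ℕ}

private theorem M2_upd_fib (b : Bool) {f h : Site d k → Fin q} (hh : h ∈ fib b f) (v : Site d k)
    (hv : v ∈ cls b d k) (γ : Fin q) (hγ : γ ∉ SS f v) : Function.update h v γ ∈ fib b f := by
  classical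
  unfold fib at hh ⊢
  rw [Fintype.mem_piFinset] at hh ⊢
  intro x
  by_cases hx : x = v
  · subst hx
    rw [Function.update_self, if_pos hv]
    exact mem_compl.2 hγ
  · rw [Function.update_of_ne hx]
    exact hh x

private theorem M2_SS_sub (h : Site d k → Fin q) (v w : Site d k) (γ : Fin q) :
    SS (Function.update h w γ) v ⊆ insert γ (SS h v) := by
  classical
  intro c hc
  obtain ⟨σ, -, hσ⟩ := mem_image.1 hc
  by_cases hw : v + sv σ = w
  · rw [hw, Function.update_self] at hσ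
    exact mem_insert.2 (Or.inl hσ.symm)
  · rw [Function.update_of_ne hw] at hσ
    exact mem_insert.2 (Or.inr (mem_image.2 ⟨σ, mem_univ _, hσ⟩))

open scoped Classical in
private theorem M2_av_upd (h : Site d k → Fin q) (v w : Site d k) (γ : Fin q) :
    |(av (Function.update h w γ) v : ℝ) - av h v| ≤ if ∃ σ : Stp d, v + sv σ = w then 1 else 0 := by
  have hav : ∀ g : Site d k → Fin q, (av g v : ℝ) = q - (SS g v).card := by
    intro g
    have h1 : (SS g v).card ≤ q := by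
      have := Finset.card_le_univ (SS g v)
      rwa [Fintype.card_fin] at this
    unfold av
    rw [Nat.cast_sub h1]
  split_ifs with hw
  · have h1 : (SS (Function.update h w γ) v).card ≤ (SS h v).card + 1 :=
      (card_le_card (M2_SS_sub h v w γ)).trans (card_insert_le _ _)
    have h2 : (SS h v).card ≤ (SS (Function.update h w γ) v).card + 1 := by
      have h3 := M2_SS_sub (Function.update h w γ) v w (h w)
      rw [Function.update_idem, Function.update_eq_self] at h3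
      exact (card_le_card h3).trans (card_insert_le _ _)
    have h1' : ((SS (Function.update h w γ) v).card : ℝ) ≤ (SS h v).card + 1 := by exact_mod_cast h1
    have h2' : ((SS h v).card : ℝ) ≤ (SS (Function.update h w γ) v).card + 1 := by exact_mod_cast h2
    rw [hav, hav, abs_le]
    constructor <;> linarith
  · have h1 : SS (Function.update h w γ) v = SS h v := by
      unfold SS
      refine image_congr fun σ _ => ?_
      exact Function.update_of_ne (fun h2 => hw ⟨σ, h2⟩) _ _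
    rw [hav, hav, h1, sub_self, abs_zero]

private theorem M2_card_stp (d : ℕ) : (Fintype.card (Stp d) : ℝ) = 2 * d := by
  rw [Fintype.card_prod, Fintype.card_fin, Fintype.card_bool]
  push_cast
  ring

open scoped Classical in
private theorem M2_cnt1 (v : Site d k) (A : Finset (Site d k)) :
    ((A.filter fun w => ∃ σ : Stp d, v + sv σ = w).card : ℝ) ≤ 2 * d := by
  have h1 : (A.filter fun w => ∃ σ : Stp d, v + sv σ = w) ⊆ univ.image fun σ : Stp d => v + sv σ := by
    intro w hw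
    obtain ⟨σ, hσ⟩ := (mem_filter.1 hw).2
    exact mem_image.2 ⟨σ, mem_univ _, hσ⟩
  have h2 : (A.filter fun w => ∃ σ : Stp d, v + sv σ = w).card ≤ Fintype.card (Stp d) := by
    refine (card_le_card h1).trans (card_image_le.trans ?_)
    rw [card_univ]
  rw [← M2_card_stp]
  exact_mod_cast h2

open scoped Classical in
private theorem M2_cnt2 (w : Site d k) (A : Finset (Site d k)) :
    ((A.filter fun v => ∃ σ : Stp d, v + sv σ = w).card : ℝ) ≤ 2 * d := by
  have h1 : (A.filter fun v => ∃ σ : Stp d, v + sv σ = w) ⊆ univ.image fun σ : Stp d => w - sv σ := by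
    intro v hv
    obtain ⟨σ, hσ⟩ := (mem_filter.1 hv).2
    exact mem_image.2 ⟨σ, mem_univ _, by rw [← hσ, add_sub_cancel_right]⟩
  have h2 : (A.filter fun v => ∃ σ : Stp d, v + sv σ = w).card ≤ Fintype.card (Stp d) := by
    refine (card_le_card h1).trans (card_image_le.trans ?_)
    rw [card_univ]
  rw [← M2_card_stp]
  exact_mod_cast h2

open scoped Classical in
private theorem M2_notNc (ε : ℝ) (f : Site d k → Fin q) (A : Finset (Site d k)) :
    ((A.filter fun v => ¬ Nc ε f v).card : ℝ) ≤ 2 * d * irr ε f := by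
  have h1 : (A.filter fun v => ¬ Nc ε f v) ⊆
      (univ.filter fun v : Site d k => (av f v : ℝ) < c1 ε * q).biUnion
        fun u => univ.image fun σ : Stp d => u - sv σ := by
    intro v hv
    have h2 := (mem_filter.1 hv).2
    unfold Nc Rg at h2
    push Not at h2
    obtain ⟨σ, hσ⟩ := h2
    refine mem_biUnion.2 ⟨v + sv σ, mem_filter.2 ⟨mem_univ _, hσ⟩, ?_⟩
    exact mem_image.2 ⟨σ, mem_univ _, by rw [add_sub_cancel_right]⟩
  have h2 : (A.filter fun v => ¬ Nc ε f v).card ≤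
      (univ.filter fun v : Site d k => (av f v : ℝ) < c1 ε * q).card * Fintype.card (Stp d) := by
    refine (card_le_card h1).trans (card_biUnion_le_card_mul _ _ _ fun u _ => ?_)
    refine card_image_le.trans ?_
    rw [card_univ]
  have h3 : ((A.filter fun v => ¬ Nc ε f v).card : ℝ) ≤
      ((univ.filter fun v : Site d k => (av f v : ℝ) < c1 ε * q).card : ℝ) * (Fintype.card (Stp d) : ℝ) := by
    exact_mod_cast h2
  rw [M2_card_stp] at h3
  unfold irr
  linarith

/-- the mean of `av` -/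
private theorem M2_mean (hk : 2 ≤ k) (b : Bool) {f : Site d k → Fin q} (hf : Prp f) (v : Site d k)
    (hv : v ∈ cls b d k) : fm (!b) (fun h => (av h v : ℝ) / q) f = (∑ c, zt f v c) / q := by
  have h1 : fm (!b) (fun h => (av h v : ℝ) / q) f = fm (!b) (fun h => (1 / (q : ℝ)) * ∑ c, zz h v c) f := by
    refine fm_congr _ fun h _ => ?_
    rw [av_eq]
    ring
  rw [h1, fm_mul, fm_sum, sum_congr rfl fun c _ => fm_zz hk b hf v hv c]
  ring

private theorem M2_al_diff {ε : ℝ} (hε : 0 < ε) (hq1 : 1 ≤ q) (hq : 2 / c1 ε ≤ q) {f : Site d k → Fin q} (hf : Prp f)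
    (v : Site d k) : |(∑ c, zt f v c) / q - al f v| ≤ 1 ∧
      (Nc ε f v → |(∑ c, zt f v c) / q - al f v| ≤ ra d q / (c1 ε ^ 2 * q)) := by
  have hq0 : (0 : ℝ) < q := by exact_mod_cast hq1
  have key : ∀ B : ℝ, (∀ c, |zt f v c - Real.exp (-hh c f v)| ≤ B) → |(∑ c, zt f v c) / q - al f v| ≤ B := by
    intro B hB
    have h1 : (∑ c, zt f v c) / q - al f v = (∑ c, (zt f v c - Real.exp (-hh c f v))) / q := by
      unfold al
      rw [sum_sub_distrib]
      ring
    rw [h1, abs_div, abs_of_pos hq0, div_le_iff₀ hq0]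
    refine (abs_sum_le_sum_abs _ _).trans ((sum_le_sum fun c _ => hB c).trans ?_)
    rw [sum_const, card_univ, Fintype.card_fin, nsmul_eq_mul]
    linarith
  exact ⟨key _ fun c => zt_exp' hf c v, fun hN => key _ fun c => zt_exp hε hq hf c v hN⟩

private theorem M2_var (hk : 2 ≤ k) (b : Bool) {f : Site d k → Fin q} (hf : Prp f) (v : Site d k) (hq1 : 1 ≤ q) :
    fm (!b) (fun h => ((av h v : ℝ) / q - fm (!b) (fun h => (av h v : ℝ) / q) f) ^ 2) f ≤ 8 * d / (q : ℝ) ^ 2 := by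
  classical
  have hq0 : (0 : ℝ) < q := by exact_mod_cast hq1
  have h1 := fm_var hk (!b) hf (fun h => (av h v : ℝ) / q)
    (fun w => if ∃ σ : Stp d, v + sv σ = w then 1 / (q : ℝ) else 0)
    (fun w => by split_ifs <;> positivity)
    (fun h _ w _ γ _ => by
      have h2 := M2_av_upd h v w γ
      have h3 : (av (Function.update h w γ) v : ℝ) / q - (av h v : ℝ) / q =
          ((av (Function.update h w γ) v : ℝ) - av h v) / q := by ring
      rw [h3, abs_div, abs_of_pos hq0, div_le_iff₀ hq0]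
      refine h2.trans (le_of_eq ?_)
      split_ifs
      · field_simp
      · ring)
  refine h1.trans ?_
  have h2 : ∑ w ∈ cls (!b) d k, (if ∃ σ : Stp d, v + sv σ = w then 1 / (q : ℝ) else 0) ^ 2 =
      (((cls (!b) d k).filter fun w => ∃ σ : Stp d, v + sv σ = w).card : ℝ) * (1 / (q : ℝ)) ^ 2 := by
    rw [card_filter, Nat.cast_sum, sum_mul]
    refine sum_congr rfl fun w _ => ?_
    split_ifs
    · push_cast; ring
    · push_cast; ring
  rw [h2]
  have h3 := M2_cnt1 v (cls (!b) d k)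
  have h4 : (((cls (!b) d k).filter fun w => ∃ σ : Stp d, v + sv σ = w).card : ℝ) * (1 / (q : ℝ)) ^ 2 ≤
      2 * d * (1 / (q : ℝ)) ^ 2 := mul_le_mul_of_nonneg_right h3 (by positivity)
  calc 4 * ((((cls (!b) d k).filter fun w => ∃ σ : Stp d, v + sv σ = w).card : ℝ) * (1 / (q : ℝ)) ^ 2)
      ≤ 4 * (2 * d * (1 / (q : ℝ)) ^ 2) := by linarith
    _ = 8 * d / (q : ℝ) ^ 2 := by ring

/-- the functional -/
private noncomputable def M2Psi (b : Bool) (f : Site d k → Fin q) : ℝ :=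
  ∑ v ∈ cls b d k, ((av f v : ℝ) / q - al f v) ^ 2

private theorem M2_site {ε : ℝ} (hε : 0 < ε) (hk : 2 ≤ k) (hq1 : 1 ≤ q) (hq : 2 / c1 ε ≤ q) (b : Bool)
    {f : Site d k → Fin q} (hf : Prp f) (v : Site d k) (hv : v ∈ cls b d k) (Y : ℝ)
    (hY : |(∑ c, zt f v c) / q - al f v| ≤ Y) :
    fm (!b) (fun h => ((av h v : ℝ) / q - al h v) ^ 2) f ≤ 16 * d / (q : ℝ) ^ 2 + 2 * Y ^ 2 := by
  obtain ⟨μ, hμ⟩ : ∃ μ : ℝ, μ = fm (!b) (fun h => (av h v : ℝ) / q) f := ⟨_, rfl⟩
  have h1 : fm (!b) (fun h => ((av h v : ℝ) / q - al h v) ^ 2) f ≤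
      fm (!b) (fun h => 2 * ((av h v : ℝ) / q - μ) ^ 2 + 2 * (μ - al f v) ^ 2) f := by
    refine fm_mono _ hf fun h hh => ?_
    rw [(loc_fib hk b hh v hv (f v)).2.1]
    nlinarith [sq_nonneg (((av h v : ℝ) / q - μ) - (μ - al f v))]
  refine h1.trans ?_
  rw [fm_add, fm_mul, fm_const _ hf]
  have h2 := M2_var hk b hf v hq1
  rw [← hμ] at h2
  have h3 : (μ - al f v) ^ 2 ≤ Y ^ 2 := by
    rw [hμ, M2_mean hk b hf v hv]
    exact sq_le_sq' (by linarith [abs_le.1 hY]) (abs_le.1 hY).2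
  have h4 : 16 * (d : ℝ) / (q : ℝ) ^ 2 = 2 * (8 * d / (q : ℝ) ^ 2) := by ring
  rw [h4]
  linarith

private theorem M2_fm {ε : ℝ} (hε : 0 < ε) (hd : 1 ≤ d) (hk : 2 ≤ k) (hq1 : 1 ≤ q) (hq : 2 / c1 ε ≤ q) (b : Bool)
    {f : Site d k → Fin q} (hf : Prp f) :
    fm (!b) (M2Psi b) f ≤ NN d k / 2 * (16 * d / (q : ℝ) ^ 2 + 2 * (ra d q / (c1 ε ^ 2 * q)) ^ 2) +
      2 * (2 * d * irr ε f) := by
  classical
  unfold M2Psi
  rw [fm_sum]
  have h1 : ∀ v ∈ cls b d k, fm (!b) (fun h => ((av h v : ℝ) / q - al h v) ^ 2) f ≤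
      (16 * d / (q : ℝ) ^ 2 + 2 * (ra d q / (c1 ε ^ 2 * q)) ^ 2) + 2 * (if ¬ Nc ε f v then (1 : ℝ) else 0) := by
    intro v hv
    obtain ⟨h2, h3⟩ := M2_al_diff hε hq1 hq hf v
    by_cases hN : Nc ε f v
    · have h4 := M2_site hε hk hq1 hq b hf v hv _ (h3 hN)
      rw [if_neg (not_not.2 hN)]
      linarith
    · have h4 := M2_site hε hk hq1 hq b hf v hv _ h2
      rw [if_pos hN]
      have h5 : 0 ≤ (ra d q / (c1 ε ^ 2 * q)) ^ 2 := sq_nonneg _
      linarith
  refine (sum_le_sum h1).trans ?_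
  rw [sum_add_distrib, sum_const, nsmul_eq_mul, card_cls hd (by omega), ← mul_sum]
  have h6 : ∑ v ∈ cls b d k, (if ¬ Nc ε f v then (1 : ℝ) else 0) =
      (((cls b d k).filter fun v => ¬ Nc ε f v).card : ℝ) := by
    rw [card_filter, Nat.cast_sum]
    refine sum_congr rfl fun v _ => ?_
    split_ifs <;> simp
  rw [h6]
  have h7 := M2_notNc ε f (cls b d k)
  linarith

private theorem M2_lip (hd : 2 ≤ d) (hk : 2 ≤ k) (hq1 : 1 ≤ q) (b : Bool) :
    Lip (!b) ((d : ℝ) ^ 2) (M2Psi b : (Site d k → Fin q) → ℝ) := by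
  classical
  intro f hf h hh w hw γ hγ
  have hfP : Prp f := (mem_filter.1 hf).2
  have hq0 : (0 : ℝ) < q := by exact_mod_cast hq1
  have hh' := M2_upd_fib (!b) hh w hw γ hγ
  have hd' : (2 : ℝ) ≤ d := by exact_mod_cast hd
  unfold M2Psi
  rw [← sum_sub_distrib]
  refine (abs_sum_le_sum_abs _ _).trans ?_
  have h1 : ∀ v ∈ cls b d k,
      |((av (Function.update h w γ) v : ℝ) / q - al (Function.update h w γ) v) ^ 2 -
        ((av h v : ℝ) / q - al h v) ^ 2| ≤ if ∃ σ : Stp d, v + sv σ = w then (1 : ℝ) else 0 := by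
    intro v hv
    have e1 : al (Function.update h w γ) v = al f v := (loc_fib hk b hh' v hv (f v)).2.1
    have e2 : al h v = al f v := (loc_fib hk b hh v hv (f v)).2.1
    have e3 := M2_av_upd h v w γ
    rw [e1, e2]
    have a1 : 0 ≤ al f v := (Real.exp_pos _).le.trans (al_ge hq1 hfP v)
    have a2 : al f v ≤ 1 := al_le hq1 f v
    have bnd : ∀ g : Site d k → Fin q, 0 ≤ (av g v : ℝ) / q ∧ (av g v : ℝ) / q ≤ 1 := by
      intro g
      refine ⟨by positivity, ?_⟩
      rw [div_le_one hq0]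
      have : av g v ≤ q := Nat.sub_le _ _
      exact_mod_cast this
    obtain ⟨b1, b2⟩ := bnd (Function.update h w γ)
    obtain ⟨b3, b4⟩ := bnd h
    split_ifs with hnb
    · rw [abs_le]
      constructor
      · nlinarith [sq_nonneg ((av (Function.update h w γ) v : ℝ) / q - al f v)]
      · nlinarith [sq_nonneg ((av h v : ℝ) / q - al f v)]
    · rw [if_neg hnb] at e3
      have e4 : (av (Function.update h w γ) v : ℝ) = av h v := by
        have := abs_nonpos_iff.1 e3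
        linarith
      rw [e4, sub_self, abs_zero]
  refine (sum_le_sum h1).trans ?_
  have h2 : ∑ v ∈ cls b d k, (if ∃ σ : Stp d, v + sv σ = w then (1 : ℝ) else 0) =
      (((cls b d k).filter fun v => ∃ σ : Stp d, v + sv σ = w).card : ℝ) := by
    rw [card_filter, Nat.cast_sum]
    refine sum_congr rfl fun v _ => ?_
    split_ifs <;> simp
  rw [h2]
  refine (M2_cnt2 w _).trans ?_
  nlinarith

private theorem M2_prp {f : Site d k → Fin q} (hf : f ∈ prps d k q) : Prp f := by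
  classical
  exact (mem_filter.1 hf).2

private theorem M2_sum (f : Site d k → Fin q) :
    ∑ v : Site d k, ((av f v : ℝ) / q - al f v) ^ 2 = M2Psi true f + M2Psi false f := by
  classical
  unfold M2Psi cls evs ods
  simp only [if_true, Bool.false_eq_true, if_false]
  rw [← sum_filter_add_sum_filter_not univ (fun v : Site d k => evn v)]

end M2aux

theorem avl_wop {ε : ℝ} (hε : 0 < ε) (hε1 : ε ≤ 1) (δ : ℝ) (hδ : 0 < δ) :
    WOP ε fun d k q f => ∑ v : Site d k, ((av f v : ℝ) / q - al f v) ^ 2 ≤ δ * NN d k := by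
  have hc1 : 0 < c1 ε := by
    unfold c1
    positivity
  obtain ⟨W, hW⟩ : ∃ W : ℝ, W = 16 / ε + 2 * (A0 ε / c1 ε ^ 2) ^ 2 + 10 := ⟨_, rfl⟩
  have hW0 : 0 < W := by
    rw [hW]
    positivity
  obtain ⟨M, hM⟩ : ∃ M : ℝ, M = W / δ + 2 / c1 ε + 2 := ⟨_, rfl⟩
  have hWδ : 0 < W / δ := by positivity
  have hc2 : 0 < 2 / c1 ε := by positivity
  have hreg := EvT_reg hε hε1 M
  have hL : EvT ε fun d k q => ∀ b : Bool, True → Lip (!b) ((d : ℝ) ^ 2) (M2Psi b : (Site d k → Fin q) → ℝ) := by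
    refine hreg.mono fun d k q h b _ => ?_
    obtain ⟨h1, h2, h3, -⟩ := h
    have g1 : 2 ≤ d := by
      have : (2 : ℝ) ≤ d := by linarith
      exact_mod_cast this
    have g2 : 2 ≤ k := by
      have : (2 : ℝ) ≤ k := by linarith
      exact_mod_cast this
    have g3 : 1 ≤ q := by
      have : (1 : ℝ) ≤ q := by linarith
      exact_mod_cast this
    exact M2_lip g1 g2 g3 b
  have hT := WOPi_tail hε hε1 (fun _ _ _ => Bool) (fun _ _ _ b => !b) (fun _ _ _ _ => True)
    (fun _ _ _ b => M2Psi b) 2 1 hL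
  have hT2 := WOPi.all hT (fun _ _ => 2) (fun _ _ _ => by simp)
  refine (hT2.and (avail hε hε1 3)).mono ?_
  refine hreg.mono fun d k q h f hf hP => ?_
  obtain ⟨h1, h2, h3, h4, h5, h6, h7, h8⟩ := h
  obtain ⟨hP1, hP2⟩ := hP
  have hfP : Prp f := M2_prp hf
  have hM2 : 2 ≤ M := by linarith
  have hMc : 2 / c1 ε ≤ M := by linarith
  have hMW : W / δ ≤ M := by linarith
  have g1 : 2 ≤ d := by
    have : (2 : ℝ) ≤ d := by linarith
    exact_mod_cast this
  have g2 : 2 ≤ k := by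
    have : (2 : ℝ) ≤ k := by linarith
    exact_mod_cast this
  have g3 : 1 ≤ q := by
    have : (1 : ℝ) ≤ q := by linarith
    exact_mod_cast this
  have hd0 : (0 : ℝ) < d := by linarith
  have hq0 : (0 : ℝ) < q := by linarith
  have hM0 : 0 < M := by linarith
  have hN0 : 0 ≤ NN d k := by unfold NN; positivity
  have hqc : 2 / c1 ε ≤ (q : ℝ) := hMc.trans h2
  have hf1 := M2_fm hε (by omega) g2 g3 hqc true hfP
  have hf2 := M2_fm hε (by omega) g2 g3 hqc false hfP
  have ht1 := hP1 true trivial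
  have ht2 := hP1 false trivial
  rw [pow_one] at ht1 ht2
  rw [M2_sum]
  have ha0 : 0 ≤ ra d q := by unfold ra; positivity
  have hA0 : 0 ≤ A0 ε := ha0.trans h7
  have e1 : 16 * (d : ℝ) / (q : ℝ) ^ 2 ≤ 16 / ε / M := by
    have : (d : ℝ) ≤ q / ε := by
      rw [le_div_iff₀ hε]
      linarith
    calc 16 * (d : ℝ) / (q : ℝ) ^ 2 ≤ 16 * (q / ε) / (q : ℝ) ^ 2 := by gcongr
      _ = 16 / ε / q := by
        field_simp
      _ ≤ 16 / ε / M := by gcongr
  have e2 : 2 * (ra d q / (c1 ε ^ 2 * q)) ^ 2 ≤ 2 * (A0 ε / c1 ε ^ 2) ^ 2 / M := by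
    have h9 : ra d q / (c1 ε ^ 2 * q) ≤ A0 ε / c1 ε ^ 2 / M := by
      calc ra d q / (c1 ε ^ 2 * q) = ra d q / c1 ε ^ 2 / q := by rw [div_div]
        _ ≤ A0 ε / c1 ε ^ 2 / M := by gcongr
    have h10 : 0 ≤ ra d q / (c1 ε ^ 2 * q) := by positivity
    have h11 : (ra d q / (c1 ε ^ 2 * q)) ^ 2 ≤ (A0 ε / c1 ε ^ 2 / M) ^ 2 := by gcongr
    have h12 : (A0 ε / c1 ε ^ 2 / M) ^ 2 ≤ (A0 ε / c1 ε ^ 2) ^ 2 / M := by
      rw [div_pow]
      have : M ≤ M ^ 2 := by nlinarith
      gcongr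
    calc 2 * (ra d q / (c1 ε ^ 2 * q)) ^ 2 ≤ 2 * ((A0 ε / c1 ε ^ 2) ^ 2 / M) := by linarith
      _ = 2 * (A0 ε / c1 ε ^ 2) ^ 2 / M := by ring
  have e3 : 8 * (d : ℝ) * irr ε f ≤ 8 / M * NN d k := by
    have h9 : 8 * (d : ℝ) * irr ε f ≤ 8 * d * (NN d k / (d : ℝ) ^ 3) := by gcongr
    have h10 : 8 * (d : ℝ) * (NN d k / (d : ℝ) ^ 3) = 8 / (d : ℝ) ^ 2 * NN d k := by
      field_simp
    have h11 : 8 / (d : ℝ) ^ 2 ≤ 8 / M := by
      have : M ≤ (d : ℝ) ^ 2 := by nlinarith
      gcongr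
    have h12 : 8 / (d : ℝ) ^ 2 * NN d k ≤ 8 / M * NN d k := by gcongr
    linarith
  have e4 : 2 * (NN d k / d) ≤ 2 / M * NN d k := by
    have h11 : 2 / (d : ℝ) ≤ 2 / M := by gcongr
    have h12 : 2 / (d : ℝ) * NN d k ≤ 2 / M * NN d k := by gcongr
    calc 2 * (NN d k / d) = 2 / (d : ℝ) * NN d k := by ring
      _ ≤ _ := h12
  have e5 : W / M ≤ δ := by
    rw [div_le_iff₀ hM0]
    rw [div_le_iff₀ hδ] at hMW
    linarith
  have e6 : NN d k * (16 * d / (q : ℝ) ^ 2 + 2 * (ra d q / (c1 ε ^ 2 * q)) ^ 2) ≤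
      NN d k * (16 / ε / M + 2 * (A0 ε / c1 ε ^ 2) ^ 2 / M) := by
    gcongr
  have e7 : W / M * NN d k ≤ δ * NN d k := by gcongr
  have e8 : W / M * NN d k = NN d k * (16 / ε / M + 2 * (A0 ε / c1 ε ^ 2) ^ 2 / M) + 8 / M * NN d k +
      2 / M * NN d k := by
    rw [hW]
    ring
  simp only [Bool.not_true, Bool.not_false] at hf1 hf2 ht1 ht2
  linarith

end Pool.Agent.THR
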