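import Pool.Agent.Lib_MP_2c424f_thr.N3

/-!
# THR N4: gradients of the smoothed indicators (paper proof: N3, N4)

`φ = sign D · 1[|D| > C₄/q²]` on the class `b`: `∑_{x ∈ b} (|D_x| - C₄/q²)_+ ≤ 2N/d^4`, both classes: `4N/d^4`.
`bq c f x - 1 = ∑_{c'} sg c c' f x` (for `c' = c` the term is `0`), so with `PPt_sum`, `PPt_const`, `PPt_sub`:
`PP^t (bq c)(x+σ) - PP^t (bq c)(x+τ) = ∑_{c'} D^{c,c'}_x`; absolute value `≤ C₄/q + E_x`, `E_x = ∑_{c'} (|D|-C₄/q²)_+ ≤ 2q`, square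
`≤ 2C₄²/q² + 2E_x² ≤ 2C₄²/q² + 4q E_x`, `∑_x E_x ≤ q · 4N/d^4`; `16 q²/d^4 ≤ 256/q²` since `q ≤ 2d`.  `C₅ = 2C₄² + 256`.
-/

set_option autoImplicit false

open Finset Filter

namespace Pool.Agent.THR

open Pool.Agent.LO Pool.Agent.LIN

/-- positive part of `|D| - θ` -/
private noncomputable def N4_m (θ y : ℝ) : ℝ := max (|y| - θ) 0

open scoped Classical in
/-- the test function -/
private noncomputable def N4_phi {d k : ℕ} (θ : ℝ) (D : Site d k → ℝ) (b : Bool) (x : Site d k) : ℝ :=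
  if x ∈ cls b d k ∧ θ < |D x| then (if 0 < D x then 1 else -1) else 0

open scoped Classical in
private theorem N4_phi_eq {d k : ℕ} {θ : ℝ} (D : Site d k → ℝ) (b : Bool) (x : Site d k) :
    N4_phi θ D b x * D x - θ * |N4_phi θ D b x| = if x ∈ cls b d k then N4_m θ (D x) else 0 := by
  unfold N4_phi N4_m
  by_cases h1 : x ∈ cls b d k
  · by_cases h2 : θ < |D x|
    · rw [if_pos ⟨h1, h2⟩, if_pos h1]
      by_cases h3 : 0 < D x
      · rw [if_pos h3, abs_one, abs_of_pos h3] at *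
        rw [max_eq_left (by linarith)]
        ring
      · have h4 : D x ≤ 0 := not_lt.1 h3
        rw [if_neg h3, abs_neg, abs_one, abs_of_nonpos h4] at *
        rw [max_eq_left (by linarith)]
        ring
    · rw [if_neg (fun h => h2 h.2), if_pos h1, max_eq_right (by linarith)]
      simp
  · rw [if_neg (fun h => h1 h.1), if_neg h1]
    simp

private theorem N4_m_nonneg (θ y : ℝ) : 0 ≤ N4_m θ y := le_max_right _ _

private theorem N4_abs_le (θ y : ℝ) : |y| ≤ θ + N4_m θ y := by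
  have := le_max_left (|y| - θ) 0
  unfold N4_m
  linarith

private theorem N4_m_le {θ y : ℝ} (hθ : 0 < θ) (hy : |y| ≤ 2) : N4_m θ y ≤ 2 := by
  unfold N4_m
  exact max_le (by linarith) (by norm_num)

open scoped Classical in
private theorem N4_two {d k : ℕ} (g : Site d k → ℝ) :
    ∑ x, (if x ∈ cls true d k then g x else 0) + ∑ x, (if x ∈ cls false d k then g x else 0) =
      ∑ x, g x := by
  rw [← Finset.sum_add_distrib]
  refine Finset.sum_congr rfl fun x _ => ?_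
  have h1 := cls_not (d := d) (k := k) true x
  by_cases h2 : x ∈ cls true d k
  · have h3 : x ∉ cls false d k := fun h => (h1.1 h) h2
    rw [if_pos h2, if_neg h3, add_zero]
  · have h3 : x ∈ cls false d k := h1.2 h2
    rw [if_neg h2, if_pos h3, zero_add]

private theorem N4_class {d k : ℕ} {θ M : ℝ} (D : Site d k → ℝ)
    (h : ∀ (b : Bool) (φ : Site d k → ℝ), (∀ x, φ x = 0 ∨ φ x = 1 ∨ φ x = -1) →
      (∀ x, x ∉ cls b d k → φ x = 0) → ∑ x, φ x * D x ≤ θ * ∑ x, |φ x| + M) :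
    ∑ x, N4_m θ (D x) ≤ 2 * M := by
  classical
  have hb : ∀ b : Bool, ∑ x, (if x ∈ cls b d k then N4_m θ (D x) else 0) ≤ M := by
    intro b
    have h1 := h b (N4_phi θ D b) (fun x => by
      unfold N4_phi
      split_ifs <;> simp) (fun x hx => by
      unfold N4_phi
      rw [if_neg (fun h => hx h.1)])
    have h2 : ∑ x, (if x ∈ cls b d k then N4_m θ (D x) else 0) =
        ∑ x, N4_phi θ D b x * D x - θ * ∑ x, |N4_phi θ D b x| := by
      rw [Finset.mul_sum, ← Finset.sum_sub_distrib]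
      exact Finset.sum_congr rfl fun x _ => (N4_phi_eq D b x).symm
    rw [h2]
    linarith
  rw [← N4_two]
  have h1 := hb true
  have h2 := hb false
  linarith

private theorem N4_sg_sum {d k q : ℕ} (c : Fin q) (f : Site d k → Fin q) (x : Site d k) :
    ∑ c', sg c c' f x = bq c f x - 1 := by
  classical
  unfold sg bq
  rw [Finset.sum_sub_distrib]
  congr 1
  · rw [Finset.sum_const, Finset.card_univ, Fintype.card_fin]
    by_cases h : f x = c
    · simp [h]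
    · simp [h]
  · rw [Finset.sum_ite_eq]
    simp

private theorem N4_bq {d k q : ℕ} (hd : 1 ≤ d) (t : ℕ) (c : Fin q) (f : Site d k → Fin q) (x : Site d k) :
    PP^[t] (bq c f) x = 1 + ∑ c', PP^[t] (sg c c' f) x := by
  have h1 : PP^[t] (fun y => ∑ c', sg c c' f y) x = ∑ c', PP^[t] (sg c c' f) x :=
    PPt_sum t univ (fun c' => sg c c' f) x
  have h2 : (fun y => ∑ c', sg c c' f y) = fun y => bq c f y - (fun _ => (1 : ℝ)) y := by
    funext y
    exact N4_sg_sum c f y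
  rw [h2, PPt_sub, PPt_const hd] at h1
  rw [← h1]
  ring

private theorem N4_sg_le {d k q : ℕ} (c c' : Fin q) (f : Site d k → Fin q) (x : Site d k) :
    |sg c c' f x| ≤ 1 := by
  classical
  unfold sg
  split_ifs <;> norm_num

private theorem N4_PP_le {d k q : ℕ} (hd : 1 ≤ d) (t : ℕ) (c c' : Fin q) (f : Site d k → Fin q)
    (x : Site d k) : |PP^[t] (sg c c' f) x| ≤ 1 := by
  refine (PPt_abs t _ x).trans ?_
  refine (PPt_mono t (h := fun _ => (1 : ℝ)) (fun y => N4_sg_le c c' f y) x).trans ?_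
  rw [PPt_const hd]

private theorem N4_det {d k q : ℕ} (hd : 1 ≤ d) (hq : 1 ≤ q) (hqd : (q : ℝ) ≤ 2 * d) {C₄ : ℝ}
    (hC : 0 < C₄) (t : ℕ) (f : Site d k → Fin q) (c : Fin q) (σ τ : Stp d)
    (h : ∀ (b : Bool) (c' : Fin q) (φ : Site d k → ℝ),
      (∀ x, φ x = 0 ∨ φ x = 1 ∨ φ x = -1) → (∀ x, x ∉ cls b d k → φ x = 0) →
      ∑ x, φ x * (PP^[t] (sg c c' f) (x + sv σ) - PP^[t] (sg c c' f) (x + sv τ)) ≤
        C₄ / (q : ℝ) ^ 2 * ∑ x, |φ x| + 2 * NN d k / (d : ℝ) ^ 4) :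
    ∑ x : Site d k, (PP^[t] (bq c f) (x + sv σ) - PP^[t] (bq c f) (x + sv τ)) ^ 2 ≤
      (2 * C₄ ^ 2 + 256) * NN d k / (q : ℝ) ^ 2 := by
  have hq0 : (0 : ℝ) < q := by exact_mod_cast hq
  have hd0 : (0 : ℝ) < d := by exact_mod_cast hd
  have hθ : 0 < C₄ / (q : ℝ) ^ 2 := by positivity
  obtain ⟨D, hD⟩ : ∃ D : Fin q → Site d k → ℝ, D = fun c' x =>
      PP^[t] (sg c c' f) (x + sv σ) - PP^[t] (sg c c' f) (x + sv τ) := ⟨_, rfl⟩
  obtain ⟨θ, hθe⟩ : ∃ θ : ℝ, θ = C₄ / (q : ℝ) ^ 2 := ⟨_, rfl⟩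
  have hN : 0 ≤ NN d k := by unfold NN; positivity
  have h1 : ∀ c', ∑ x, N4_m θ (D c' x) ≤ 4 * NN d k / (d : ℝ) ^ 4 := by
    intro c'
    have h2 := N4_class (θ := θ) (M := 2 * NN d k / (d : ℝ) ^ 4) (D c')
      (fun b φ h3 h4 => by rw [hD, hθe]; exact h b c' φ h3 h4)
    refine h2.trans (le_of_eq ?_)
    ring
  obtain ⟨E, hE⟩ : ∃ E : Site d k → ℝ, E = fun x => ∑ c', N4_m θ (D c' x) := ⟨_, rfl⟩
  have hE0 : ∀ x, 0 ≤ E x := by
    intro x
    rw [hE]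
    exact Finset.sum_nonneg fun c' _ => N4_m_nonneg _ _
  have hD2 : ∀ c' x, |D c' x| ≤ 2 := by
    intro c' x
    rw [hD]
    refine (abs_sub _ _).trans ?_
    have h2 := N4_PP_le hd t c c' f (x + sv σ)
    have h3 := N4_PP_le hd t c c' f (x + sv τ)
    linarith
  have hE2 : ∀ x, E x ≤ 2 * q := by
    intro x
    rw [hE]
    refine (Finset.sum_le_sum fun c' _ => N4_m_le (by rw [hθe]; exact hθ) (hD2 c' x)).trans ?_
    rw [Finset.sum_const, Finset.card_univ, Fintype.card_fin, nsmul_eq_mul, mul_comm]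
  have hEs : ∑ x, E x ≤ q * (4 * NN d k / (d : ℝ) ^ 4) := by
    rw [hE, Finset.sum_comm]
    refine (Finset.sum_le_sum fun c' _ => h1 c').trans ?_
    rw [Finset.sum_const, Finset.card_univ, Fintype.card_fin, nsmul_eq_mul]
  have hterm : ∀ x : Site d k, (PP^[t] (bq c f) (x + sv σ) - PP^[t] (bq c f) (x + sv τ)) ^ 2 ≤
      2 * C₄ ^ 2 / (q : ℝ) ^ 2 + 4 * q * E x := by
    intro x
    have h2 : PP^[t] (bq c f) (x + sv σ) - PP^[t] (bq c f) (x + sv τ) = ∑ c', D c' x := by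
      rw [N4_bq hd, N4_bq hd, hD, Finset.sum_sub_distrib]
      ring
    have h3 : |∑ c', D c' x| ≤ C₄ / q + E x := by
      refine (Finset.abs_sum_le_sum_abs _ _).trans ?_
      refine (Finset.sum_le_sum fun c' _ => N4_abs_le θ (D c' x)).trans ?_
      rw [Finset.sum_add_distrib, Finset.sum_const, Finset.card_univ, Fintype.card_fin,
        nsmul_eq_mul, hE, hθe]
      refine add_le_add (le_of_eq ?_) le_rfl
      field_simp
    rw [h2, ← sq_abs]
    have h4 := hE0 x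
    have h5 := hE2 x
    have h6 : 0 ≤ C₄ / (q : ℝ) := by positivity
    have h7 : |∑ c', D c' x| ^ 2 ≤ (C₄ / q + E x) ^ 2 := pow_le_pow_left₀ (abs_nonneg _) h3 2
    have h8 : (C₄ / q + E x) ^ 2 ≤ 2 * (C₄ / q) ^ 2 + 2 * E x ^ 2 := by
      nlinarith [sq_nonneg (C₄ / (q : ℝ) - E x)]
    have h9 : 2 * E x ^ 2 ≤ 4 * q * E x := by nlinarith
    have h10 : 2 * (C₄ / (q : ℝ)) ^ 2 = 2 * C₄ ^ 2 / (q : ℝ) ^ 2 := by
      rw [div_pow]; ring
    linarith
  have hcard : ∑ _x : Site d k, (1 : ℝ) = NN d k := by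
    rw [Finset.sum_const, Finset.card_univ, nsmul_eq_mul, mul_one]
    exact card_site d k
  calc ∑ x : Site d k, (PP^[t] (bq c f) (x + sv σ) - PP^[t] (bq c f) (x + sv τ)) ^ 2
      ≤ ∑ x : Site d k, (2 * C₄ ^ 2 / (q : ℝ) ^ 2 + 4 * q * E x) :=
        Finset.sum_le_sum fun x _ => hterm x
    _ = 2 * C₄ ^ 2 / (q : ℝ) ^ 2 * NN d k + 4 * q * ∑ x, E x := by
        have h2 : ∑ _x : Site d k, 2 * C₄ ^ 2 / (q : ℝ) ^ 2 = 2 * C₄ ^ 2 / (q : ℝ) ^ 2 * NN d k := by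
          rw [← hcard, Finset.mul_sum]
          exact Finset.sum_congr rfl fun _ _ => (mul_one _).symm
        rw [Finset.sum_add_distrib, ← Finset.mul_sum, h2]
    _ ≤ 2 * C₄ ^ 2 / (q : ℝ) ^ 2 * NN d k + 4 * q * (q * (4 * NN d k / (d : ℝ) ^ 4)) := by
        have := mul_le_mul_of_nonneg_left hEs (by positivity : (0 : ℝ) ≤ 4 * q)
        linarith
    _ ≤ (2 * C₄ ^ 2 + 256) * NN d k / (q : ℝ) ^ 2 := by
        have h2 : (q : ℝ) ^ 4 ≤ 16 * (d : ℝ) ^ 4 := by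
          calc (q : ℝ) ^ 4 ≤ (2 * (d : ℝ)) ^ 4 := pow_le_pow_left₀ hq0.le hqd 4
            _ = 16 * (d : ℝ) ^ 4 := by ring
        have h3 : 4 * (q : ℝ) * (q * (4 * NN d k / (d : ℝ) ^ 4)) ≤ 256 * NN d k / (q : ℝ) ^ 2 := by
          rw [le_div_iff₀ (by positivity)]
          have h4 : 4 * (q : ℝ) * (q * (4 * NN d k / (d : ℝ) ^ 4)) * (q : ℝ) ^ 2 =
              16 * NN d k * (q ^ 4 / (d : ℝ) ^ 4) := by
            field_simp
            ring
          rw [h4]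
          have h5 : (q : ℝ) ^ 4 / (d : ℝ) ^ 4 ≤ 16 := by
            rw [div_le_iff₀ (by positivity)]
            exact h2
          nlinarith [mul_le_mul_of_nonneg_left h5 (by positivity : (0 : ℝ) ≤ 16 * NN d k)]
        have h6 : (2 * C₄ ^ 2 + 256) * NN d k / (q : ℝ) ^ 2 =
            2 * C₄ ^ 2 / (q : ℝ) ^ 2 * NN d k + 256 * NN d k / (q : ℝ) ^ 2 := by
          ring
        rw [h6]
        linarith

theorem grad_bq {ε : ℝ} (hε : 0 < ε) (hε1 : ε ≤ 1) : ∃ (t : ℕ) (C₅ : ℝ), Even t ∧ 20 ≤ t ∧ 0 < C₅ ∧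
    WOP ε fun d k q f => ∀ (c : Fin q) (σ τ : Stp d),
      ∑ x : Site d k, (PP^[t] (bq c f) (x + sv σ) - PP^[t] (bq c f) (x + sv τ)) ^ 2 ≤ C₅ * NN d k / (q : ℝ) ^ 2 := by
  obtain ⟨t, C₄, ht, ht20, hC, hW⟩ := iso_adapt hε hε1
  refine ⟨t, 2 * C₄ ^ 2 + 256, ht, ht20, by positivity, ?_⟩
  refine hW.mono ⟨1, fun d q hd hq1 hq2 => Eventually.of_forall fun k f _ hP c σ τ => ?_⟩
  have hq : 1 ≤ q := by
    have := c.2
    omega
  have hqd : (q : ℝ) ≤ 2 * d := by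
    have : 0 ≤ ε * (d : ℝ) := by positivity
    linarith [sub_mul 2 ε (d : ℝ)]
  exact N4_det hd hq hqd hC t f c σ τ (fun b c' φ h1 h2 => hP b c c' σ τ φ h1 h2)

end Pool.Agent.THR
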