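import Pool.Agent.Lib_MP_2c424f_thr.T2c

/-!
# THR R1: the weights of the sum rule (paper proof: R, first lines)

Elementary.  `CW = 4^(2 A0/c1)`.  If `r1` holds and `4/c1 ≤ q`, then `0 ≤ pF ≤ 2/(c1 q) ≤ 1/2`, `(1-p)⁻¹ ≤ 4^p`,
`∑_τ pF ≤ 2d · 2/(c1 q) = 2a/c1 ≤ 2 A0/c1`.
Dependence: `aF`, `BF` depend on the colours at `u + sv σ`, `σ ∈ fs`; `xS` on the colours at `u + sv τ + sv ρ`, `ρ ≠ opp τ` (never `u`).
`VF_fat`: for two colourings which agree on all sites with the plane coordinates of `u` the weights are equal.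
`av_aF`: the colours of the at most four plane neighbours are removed.
-/

set_option autoImplicit false

open Finset Filter

namespace Pool.Agent.THR

open Pool.Agent.LO Pool.Agent.LIN

variable {d k q : ℕ}

theorem pl_fs (i j : Fin d) (F : Stp d → ℝ) : ∑ σ : Stp d, F σ = ∑ σ ∈ pl i j, F σ + ∑ σ ∈ fs i j, F σ := by
  classical
  have h1 : fs i j = univ.filter fun σ : Stp d => ¬ (σ.1 = i ∨ σ.1 = j) := by
    ext σ
    simp only [fs, mem_filter, mem_univ, true_and, not_or, ne_eq]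
  have h2 : pl i j = univ.filter fun σ : Stp d => σ.1 = i ∨ σ.1 = j := by
    ext σ
    simp only [pl, mem_filter, mem_univ, true_and]
  rw [h1, h2]
  exact (Finset.sum_filter_add_sum_filter_not univ (fun σ : Stp d => σ.1 = i ∨ σ.1 = j) F).symm

theorem card_pl (i j : Fin d) (hij : i ≠ j) : (pl i j).card = 4 := by
  classical
  have h2 : pl i j = ({i, j} : Finset (Fin d)) ×ˢ (univ : Finset Bool) := by
    ext σ
    simp only [pl, mem_filter, mem_univ, true_and, mem_product, mem_insert, mem_singleton, and_true]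
  rw [h2, card_product, card_pair hij]
  rfl

theorem sv_opp' (σ : Stp d) : (sv σ : Site d k) + sv (opp σ) = 0 := sv_opp σ.1 σ.2

private theorem R1_c1pos (ε : ℝ) : 0 < c1 ε := by
  unfold c1
  positivity

private theorem R1_c1le {ε : ℝ} (hε : 0 < ε) : c1 ε ≤ 1 / 4 := by
  unfold c1
  have h : (4 : ℝ) ^ (-A0 ε) ≤ 1 := by
    apply Real.rpow_le_one_of_one_le_of_nonpos (by norm_num)
    have : 0 ≤ A0 ε := by
      unfold A0
      positivity
    linarith
  linarith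

private theorem R1_qpos {ε : ℝ} (hq : 4 / c1 ε ≤ q) : (0 : ℝ) < q :=
  lt_of_lt_of_le (div_pos (by norm_num) (R1_c1pos ε)) hq

private theorem R1_cq {ε : ℝ} (hq : 4 / c1 ε ≤ q) : 4 ≤ c1 ε * q := by
  have h := (div_le_iff₀ (R1_c1pos ε)).1 hq
  linarith [mul_comm (q : ℝ) (c1 ε)]

private theorem R1_CW {ε : ℝ} : 0 < CW ε := by
  unfold CW
  positivity

theorem pF_bound {ε : ℝ} (hε : 0 < ε) (hq : 4 / c1 ε ≤ q) (i j : Fin d) (c c' : Fin q) (f : Site d k → Fin q)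
    (u : Site d k) (τ : Stp d) (h : c1 ε * q ≤ ((xS i j f u τ).card : ℝ)) :
    0 ≤ pF i j c c' f u τ ∧ pF i j c c' f u τ ≤ 2 / (c1 ε * q) ∧ 2 / (c1 ε * q) ≤ 1 / 2 := by
  have h4 := R1_cq hq
  have hpos : 0 < c1 ε * q := by linarith
  have hc : (0 : ℝ) < ((xS i j f u τ).card : ℝ) := lt_of_lt_of_le hpos h
  have hn : 0 ≤ (if c ∈ xS i j f u τ then (1 : ℝ) else 0) + (if c' ∈ xS i j f u τ then (1 : ℝ) else 0) := by
    split_ifs <;> norm_num
  have hn2 : (if c ∈ xS i j f u τ then (1 : ℝ) else 0) + (if c' ∈ xS i j f u τ then (1 : ℝ) else 0) ≤ 2 := by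
    split_ifs <;> norm_num
  refine ⟨div_nonneg hn hc.le, ?_, ?_⟩
  · unfold pF
    exact div_le_div₀ (by norm_num) hn2 hpos h
  · rw [div_le_iff₀ hpos]
    linarith

private theorem R1_four {p : ℝ} (h0 : 0 ≤ p) (h1 : p ≤ 1 / 2) : (1 - p)⁻¹ ≤ (4 : ℝ) ^ p := by
  have hl : Real.log 4 = 2 * Real.log 2 := by
    rw [show (4 : ℝ) = 2 ^ (2 : ℕ) by norm_num, Real.log_pow]
    norm_num
  have hc := convexOn_exp.2 (Set.mem_univ (-Real.log 2)) (Set.mem_univ (0 : ℝ))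
    (show (0 : ℝ) ≤ 2 * p by linarith) (show (0 : ℝ) ≤ 1 - 2 * p by linarith) (by ring)
  simp only [smul_eq_mul, mul_zero, add_zero, Real.exp_zero, mul_one] at hc
  rw [Real.exp_neg, Real.exp_log (by norm_num : (0 : ℝ) < 2)] at hc
  have h2 : Real.exp (2 * p * -Real.log 2) = ((4 : ℝ) ^ p)⁻¹ := by
    rw [Real.rpow_def_of_pos (by norm_num : (0 : ℝ) < 4), ← Real.exp_neg, hl]
    congr 1
    ring
  rw [h2] at hc
  have hp : 0 < 1 - p := by linarith
  have h3 : ((4 : ℝ) ^ p)⁻¹ ≤ 1 - p := by linarith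
  have h5 : (0 : ℝ) < (4 : ℝ) ^ p := by positivity
  exact inv_le_of_inv_le₀ h5 h3

private theorem R1_WF {ε : ℝ} (hε : 0 < ε) (hq : 4 / c1 ε ≤ q) (ha : ra d q ≤ A0 ε) (i j : Fin d) (c c' : Fin q)
    (f : Site d k → Fin q) (u : Site d k) (hr : r1 ε i j f u) :
    0 ≤ WF i j c c' f u ∧ WF i j c c' f u ≤ CW ε := by
  have h4 := R1_cq hq
  have hpos : 0 < c1 ε * q := by linarith
  have hb := fun τ hτ => pF_bound hε hq i j c c' f u τ (hr τ hτ)
  have hinv : ∀ τ ∈ fs i j, 0 ≤ (1 - pF i j c c' f u τ)⁻¹ := by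
    intro τ hτ
    obtain ⟨-, h2, h3⟩ := hb τ hτ
    exact inv_nonneg.2 (by linarith)
  refine ⟨prod_nonneg hinv, ?_⟩
  have h1 : WF i j c c' f u ≤ ∏ τ ∈ fs i j, (4 : ℝ) ^ (2 / (c1 ε * q)) := by
    unfold WF
    refine prod_le_prod hinv fun τ hτ => ?_
    obtain ⟨h1, h2, h3⟩ := hb τ hτ
    refine (R1_four h1 (h2.trans h3)).trans ?_
    exact Real.rpow_le_rpow_of_exponent_le (by norm_num) h2
  refine h1.trans ?_
  rw [prod_const, ← Real.rpow_natCast, ← Real.rpow_mul (by norm_num)]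
  unfold CW
  apply Real.rpow_le_rpow_of_exponent_le (by norm_num)
  have hq0 := R1_qpos hq
  have hc0 := R1_c1pos ε
  have hcard : ((fs i j : Finset (Stp d)).card : ℝ) ≤ 2 * d := by
    have : (fs i j : Finset (Stp d)).card ≤ (univ : Finset (Stp d)).card := card_le_card (subset_univ _)
    have h2 : (univ : Finset (Stp d)).card = d * 2 := by
      rw [card_univ, Fintype.card_prod, Fintype.card_fin, Fintype.card_bool]
    rw [h2] at this
    calc ((fs i j : Finset (Stp d)).card : ℝ) ≤ ((d * 2 : ℕ) : ℝ) := by exact_mod_cast this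
      _ = 2 * d := by push_cast; ring
  calc 2 / (c1 ε * q) * ((fs i j : Finset (Stp d)).card : ℝ) ≤ 2 / (c1 ε * q) * (2 * d) :=
        mul_le_mul_of_nonneg_left hcard (by positivity)
    _ = 2 * ra d q / c1 ε := by
        unfold ra
        field_simp
    _ ≤ 2 * A0 ε / c1 ε := by
        apply div_le_div_of_nonneg_right _ hc0.le
        linarith

theorem V1_bound {ε : ℝ} (hε : 0 < ε) (hq : 4 / c1 ε ≤ q) (ha : ra d q ≤ A0 ε) (i j : Fin d) (c c' : Fin q)
    (f : Site d k → Fin q) (u : Site d k) : 0 ≤ V1 ε i j c c' f u ∧ V1 ε i j c c' f u ≤ CW ε := by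
  unfold V1
  split_ifs with hr
  · obtain ⟨h1, h2⟩ := R1_WF hε hq ha i j c c' f u hr
    have hB : 0 ≤ BF i j c c' f u ∧ BF i j c c' f u ≤ 1 := by
      unfold BF
      split_ifs <;> norm_num
    refine ⟨mul_nonneg h1 hB.1, ?_⟩
    calc WF i j c c' f u * BF i j c c' f u ≤ WF i j c c' f u * 1 := mul_le_mul_of_nonneg_left hB.2 h1
      _ ≤ CW ε := by rw [mul_one]; exact h2
  · exact ⟨le_rfl, R1_CW.le⟩

theorem VF_bound {ε : ℝ} (hε : 0 < ε) (hq : 4 / c1 ε ≤ q) (ha : ra d q ≤ A0 ε) (i j : Fin d) (c c' : Fin q)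
    (f : Site d k → Fin q) (u : Site d k) : 0 ≤ VF ε i j c c' f u ∧ VF ε i j c c' f u ≤ CW ε := by
  unfold VF
  split_ifs
  · exact V1_bound hε hq ha i j c c' f u
  · exact ⟨le_rfl, R1_CW.le⟩

theorem aF_le (i j : Fin d) (f : Site d k → Fin q) (u : Site d k) : aF i j f u ≤ q := by
  unfold aF
  refine (card_filter_le _ _).trans ?_
  rw [card_univ, Fintype.card_fin]

theorem sg_abs (c c' : Fin q) (f : Site d k → Fin q) (v : Site d k) : |sg c c' f v| ≤ 1 := by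
  unfold sg
  split_ifs <;> norm_num

theorem GF_bound {ε : ℝ} (hε : 0 < ε) (hq : 4 / c1 ε ≤ q) (ha : ra d q ≤ A0 ε) (i j : Fin d) (hij : i ≠ j)
    (c c' : Fin q) (f : Site d k → Fin q) (u : Site d k) : |GF ε i j c c' f u| ≤ 2 * CW ε := by
  have hq0 := R1_qpos hq
  have h4 := R1_cq hq
  have hq4 : (4 : ℝ) ≤ q := by
    have h1 := R1_c1le hε
    have h2 : c1 ε * q ≤ 1 / 4 * q := mul_le_mul_of_nonneg_right h1 hq0.le
    linarith
  obtain ⟨hV0, hV1⟩ := VF_bound hε hq ha i j c c' f u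
  have h1 : |(aF i j f u : ℝ) / q * sg c c' f u| ≤ 1 := by
    rw [abs_mul]
    have h2 : |(aF i j f u : ℝ) / q| ≤ 1 := by
      rw [abs_of_nonneg (by positivity), div_le_one hq0]
      exact_mod_cast aF_le i j f u
    calc |(aF i j f u : ℝ) / q| * |sg c c' f u| ≤ 1 * 1 :=
          mul_le_mul h2 (sg_abs c c' f u) (abs_nonneg _) (by norm_num)
      _ = 1 := one_mul 1
  have h2 : |1 / (q : ℝ) * ∑ σ ∈ pl i j, sg c c' f (u + sv σ)| ≤ 1 := by
    rw [abs_mul]
    have h3 : |∑ σ ∈ pl i j, sg c c' f (u + sv σ)| ≤ 4 := by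
      refine (abs_sum_le_sum_abs _ _).trans ?_
      calc ∑ σ ∈ pl i j, |sg c c' f (u + sv σ)| ≤ ∑ _σ ∈ pl i j, (1 : ℝ) :=
            sum_le_sum fun σ _ => sg_abs c c' f _
        _ = 4 := by
            rw [sum_const, card_pl i j hij]
            norm_num
    have h5 : |1 / (q : ℝ)| = 1 / q := abs_of_nonneg (by positivity)
    rw [h5]
    calc 1 / (q : ℝ) * |∑ σ ∈ pl i j, sg c c' f (u + sv σ)| ≤ 1 / q * 4 :=
          mul_le_mul_of_nonneg_left h3 (by positivity)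
      _ ≤ 1 := by
          rw [div_mul_eq_mul_div, one_mul, div_le_one hq0]
          exact hq4
  unfold GF
  rw [abs_mul, abs_of_nonneg hV0]
  have h6 := abs_add_le ((aF i j f u : ℝ) / q * sg c c' f u) (1 / (q : ℝ) * ∑ σ ∈ pl i j, sg c c' f (u + sv σ))
  calc VF ε i j c c' f u * |(aF i j f u : ℝ) / q * sg c c' f u + 1 / q * ∑ σ ∈ pl i j, sg c c' f (u + sv σ)|
      ≤ CW ε * 2 := mul_le_mul hV1 (by linarith) (abs_nonneg _) R1_CW.le
    _ = 2 * CW ε := mul_comm _ _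

end Pool.Agent.THR
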