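import Pool.Agent.Lib_MP_2c424f_thr.R1

/-!
# THR R1d: dependence of the weights (paper proof: R, first lines)

`aF`, `BF` depend on the colours at `u + sv σ`, `σ ∈ fs`; `xS` on the colours at `u + sv τ + sv ρ`, `τ, ρ ∈ fs`, `ρ ≠ opp τ` (never the site `u`, as the side is `≥ 4`).
* `VF_fat`: for two colourings which agree on all sites with the plane coordinates of `u` the weights are equal.
* `av_aF`: the colours of the at most four plane neighbours are removed.
* `zz_nP`: `zz f u c = 1` iff no neighbour has the colour `c`; the fibre neighbours do not have it.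
* `TF_sum`: `card_pl`, four summands `aF/(4q) sg`.
-/

set_option autoImplicit false

open Finset Filter

namespace Pool.Agent.THR

open Pool.Agent.LO Pool.Agent.LIN

variable {d k q : ℕ}

/-- congruence: the weights only depend on the colours of the fibre neighbours and of the second fibre neighbours -/
private theorem congr_R1d (ε : ℝ) (i j : Fin d) (c c' : Fin q) (f g : Site d k → Fin q) (u u' : Site d k)
    (h1 : ∀ σ ∈ fs i j, f (u + sv σ) = g (u' + sv σ))
    (h2 : ∀ τ ∈ fs i j, ∀ ρ ∈ fs i j, ρ ≠ opp τ → f (u + sv τ + sv ρ) = g (u' + sv τ + sv ρ)) :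
    VF ε i j c c' f u = VF ε i j c c' g u' ∧ aF i j f u = aF i j g u' := by
  classical
  have ha : aF i j f u = aF i j g u' := by
    unfold aF
    congr 1
    apply Finset.filter_congr
    intro γ _
    constructor
    · intro h σ hσ
      rw [← h1 σ hσ]
      exact h σ hσ
    · intro h σ hσ
      rw [h1 σ hσ]
      exact h σ hσ
  have hx : ∀ τ ∈ fs i j, xS i j f u τ = xS i j g u' τ := by
    intro τ hτ
    unfold xS
    apply Finset.filter_congr
    intro γ _
    constructor
    · intro h ρ hρ hne
      rw [← h2 τ hτ ρ hρ hne]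
      exact h ρ hρ hne
    · intro h ρ hρ hne
      rw [h2 τ hτ ρ hρ hne]
      exact h ρ hρ hne
  have hB : BF i j c c' f u = BF i j c c' g u' := by
    unfold BF
    congr 1
    apply propext
    constructor
    · intro h σ hσ
      rw [← h1 σ hσ]
      exact h σ hσ
    · intro h σ hσ
      rw [h1 σ hσ]
      exact h σ hσ
  have hW : WF i j c c' f u = WF i j c c' g u' := by
    unfold WF
    apply Finset.prod_congr rfl
    intro τ hτ
    unfold pF
    rw [hx τ hτ]
  have hr : r1 ε i j f u ↔ r1 ε i j g u' := by
    unfold r1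
    constructor
    · intro h τ hτ
      rw [← hx τ hτ]
      exact h τ hτ
    · intro h τ hτ
      rw [hx τ hτ]
      exact h τ hτ
  have hV : V1 ε i j c c' f u = V1 ε i j c c' g u' := by
    unfold V1
    rw [hB, hW]
    by_cases h : r1 ε i j f u
    · rw [if_pos h, if_pos (hr.mp h)]
    · rw [if_neg h, if_neg (fun h' => h (hr.mpr h'))]
  refine ⟨?_, ha⟩
  unfold VF
  rw [ha, hV]

private theorem sv_fs_R1d {i j : Fin d} {σ : Stp d} (h : σ ∈ fs i j) :
    (sv σ : Site d k) i = 0 ∧ (sv σ : Site d k) j = 0 := by
  classical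
  simp only [fs, mem_filter, mem_univ, true_and] at h
  constructor
  · simp only [sv]
    exact Pi.single_eq_of_ne (Ne.symm h.1) _
  · simp only [sv]
    exact Pi.single_eq_of_ne (Ne.symm h.2) _

private theorem sv_ne_zero_R1d (hk : 2 ≤ k) (σ : Stp d) : (sv σ : Site d k) ≠ 0 := by
  intro h
  have h1 : (sv σ : Site d k) + sv (opp σ) = 0 := sv_opp' σ
  rw [h, zero_add] at h1
  have h2 : σ = opp σ := sv_inj hk (h.trans h1.symm)
  have h3 := congrArg Prod.snd h2
  simp [opp] at h3

/-- the weight does not depend on the colour of `u` -/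
theorem VF_self (hk : 2 ≤ k) (ε : ℝ) (i j : Fin d) (c c' : Fin q) (f : Site d k → Fin q) (u : Site d k) (γ : Fin q) :
    VF ε i j c c' (Function.update f u γ) u = VF ε i j c c' f u ∧
      aF i j (Function.update f u γ) u = aF i j f u := by
  apply congr_R1d
  · intro σ _
    rw [Function.update_of_ne]
    intro h
    exact sv_ne_zero_R1d hk σ (by simpa using h)
  · intro τ _ ρ _ hne
    rw [Function.update_of_ne]
    intro h
    apply hne
    have h1 : (sv τ : Site d k) + sv ρ = 0 := by
      rw [add_assoc] at h
      simpa using h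
    have h2 : (sv τ : Site d k) + sv (opp τ) = 0 := sv_opp' τ
    have h3 : (sv ρ : Site d k) = sv (opp τ) := add_left_cancel (h1.trans h2.symm)
    exact sv_inj hk h3

/-- the weight depends on the plane position of `u` only -/
theorem VF_fat (ε : ℝ) (i j : Fin d) (c c' : Fin q) (f g : Site d k → Fin q) (u : Site d k)
    (h : ∀ x, x i = u i → x j = u j → f x = g x) :
    VF ε i j c c' f u = VF ε i j c c' g u ∧ aF i j f u = aF i j g u := by
  apply congr_R1d
  · intro σ hσ
    obtain ⟨h1, h2⟩ := sv_fs_R1d (k := k) hσ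
    apply h
    · rw [Pi.add_apply, h1, add_zero]
    · rw [Pi.add_apply, h2, add_zero]
  · intro τ hτ ρ hρ _
    obtain ⟨h1, h2⟩ := sv_fs_R1d (k := k) hτ
    obtain ⟨h3, h4⟩ := sv_fs_R1d (k := k) hρ
    apply h
    · rw [Pi.add_apply, Pi.add_apply, h1, h3, add_zero, add_zero]
    · rw [Pi.add_apply, Pi.add_apply, h2, h4, add_zero, add_zero]

/-- translation -/
theorem VF_transl (ε : ℝ) (i j : Fin d) (c c' : Fin q) (f : Site d k → Fin q) (u v : Site d k) :
    VF ε i j c c' (fun x => f (x + v)) u = VF ε i j c c' f (u + v) ∧ aF i j (fun x => f (x + v)) u = aF i j f (u + v) := by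
  apply congr_R1d
  · intro σ _
    show f (u + sv σ + v) = f (u + v + sv σ)
    rw [add_right_comm]
  · intro τ _ ρ _ _
    show f (u + sv τ + sv ρ + v) = f (u + v + sv τ + sv ρ)
    rw [add_right_comm, add_right_comm u (sv τ) v]

/-- a change at a site at a distance `> 2`, or at distance two through a plane step, does not matter -/
theorem VF_far (ε : ℝ) (i j : Fin d) (c c' : Fin q) (f : Site d k → Fin q) (u x : Site d k) (γ : Fin q)
    (h1 : ∀ σ ∈ fs i j, u + sv σ ≠ x) (h2 : ∀ τ ∈ fs i j, ∀ ρ ∈ fs i j, ρ ≠ opp τ → u + sv τ + sv ρ ≠ x) :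
    VF ε i j c c' (Function.update f x γ) u = VF ε i j c c' f u := by
  refine (congr_R1d ε i j c c' _ _ u u ?_ ?_).1
  · intro σ hσ
    exact Function.update_of_ne (h1 σ hσ) _ _
  · intro τ hτ ρ hρ hne
    exact Function.update_of_ne (h2 τ hτ ρ hρ hne) _ _

theorem av_aF (i j : Fin d) (hij : i ≠ j) (f : Site d k → Fin q) (u : Site d k) :
    av f u ≤ aF i j f u ∧ aF i j f u ≤ av f u + 4 := by
  classical
  have hav : av f u = (univ.filter fun γ : Fin q => γ ∉ SS f u).card := by
    unfold av
    have h1 := Finset.card_filter_add_card_filter_not (s := (univ : Finset (Fin q))) (fun γ => γ ∈ SS f u)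
    rw [Finset.card_univ, Fintype.card_fin] at h1
    have h2 : (univ.filter fun γ : Fin q => γ ∈ SS f u) = SS f u := by
      ext γ
      simp
    rw [h2] at h1
    omega
  have haF : aF i j f u = (univ.filter fun γ : Fin q => ∀ σ ∈ fs i j, f (u + sv σ) ≠ γ).card := by
    unfold aF
    congr 1
  rw [hav, haF]
  constructor
  · apply Finset.card_le_card
    intro γ hγ
    simp only [mem_filter, mem_univ, true_and, SS, mem_image, not_exists] at hγ ⊢
    intro σ _
    exact hγ σ
  · have hsub : (univ.filter fun γ : Fin q => ∀ σ ∈ fs i j, f (u + sv σ) ≠ γ) ⊆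
        (univ.filter fun γ : Fin q => γ ∉ SS f u) ∪ (pl i j).image (fun σ => f (u + sv σ)) := by
      intro γ hγ
      simp only [mem_filter, mem_univ, true_and] at hγ
      simp only [mem_union, mem_filter, mem_univ, true_and, mem_image]
      by_cases hs : γ ∈ SS f u
      · right
        simp only [SS, mem_image, mem_univ, true_and] at hs
        obtain ⟨σ, hσ⟩ := hs
        refine ⟨σ, ?_, hσ⟩
        by_contra hpl
        apply hγ σ _ hσ
        simp only [pl, mem_filter, mem_univ, true_and, not_or] at hpl
        simp only [fs, mem_filter, mem_univ, true_and]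
        exact hpl
      · left
        exact hs
    calc _ ≤ _ := Finset.card_le_card hsub
      _ ≤ _ := Finset.card_union_le _ _
      _ ≤ _ := by
        have h1 : ((pl i j).image (fun σ => f (u + sv σ))).card ≤ 4 := by
          rw [← card_pl i j hij]
          exact Finset.card_image_le
        omega

/-- if no fibre neighbour has the colour `c`, then `c` is available iff no plane neighbour has it -/
theorem zz_nP (i j : Fin d) (c : Fin q) (f : Site d k → Fin q) (u : Site d k) (h : ∀ σ ∈ fs i j, f (u + sv σ) ≠ c) :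
    zz f u c = if nP i j c f u = 0 then 1 else 0 := by
  classical
  have hiff : nP i j c f u = 0 ↔ c ∉ SS f u := by
    unfold nP
    rw [Finset.card_eq_zero, Finset.filter_eq_empty_iff]
    simp only [SS, mem_image, mem_univ, true_and, not_exists]
    constructor
    · intro h1 σ
      by_cases hσ : σ ∈ fs i j
      · exact h σ hσ
      · apply h1
        simp only [fs, mem_filter, mem_univ, true_and, not_and_or, not_not] at hσ
        simp only [pl, mem_filter, mem_univ, true_and]
        exact hσ
    · intro h1 σ _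
      exact h1 σ
  unfold zz
  by_cases hc : c ∈ SS f u
  · rw [if_pos hc, if_neg (fun h0 => hiff.mp h0 hc)]
  · rw [if_neg hc, if_pos (hiff.mpr hc)]

theorem sum_sg (i j : Fin d) (c c' : Fin q) (f : Site d k → Fin q) (u : Site d k) :
    ∑ σ ∈ pl i j, sg c c' f (u + sv σ) = (nP i j c f u : ℝ) - nP i j c' f u := by
  classical
  have h : ∀ e : Fin q, ∑ σ ∈ pl i j, (if f (u + sv σ) = e then (1 : ℝ) else 0) = (nP i j e f u : ℝ) := by
    intro e
    unfold nP
    rw [Finset.sum_boole]
  rw [← h c, ← h c', ← Finset.sum_sub_distrib]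
  apply Finset.sum_congr rfl
  intro σ _
  unfold sg
  congr 1

theorem TF_sum (ε : ℝ) (i j : Fin d) (hij : i ≠ j) (c c' : Fin q) (f : Site d k → Fin q) (u : Site d k) :
    ∑ σ ∈ pl i j, TF ε i j c c' σ f u = GF ε i j c c' f u := by
  classical
  unfold TF GF
  rw [← Finset.mul_sum, Finset.sum_add_distrib, ← Finset.mul_sum, Finset.sum_const, card_pl i j hij]
  congr 1
  rw [nsmul_eq_mul]
  by_cases hq : (q : ℝ) = 0
  · rw [hq]
    simp
  · field_simp
    push_cast
    ring

end Pool.Agent.THR
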