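import Pool.Agent.Lib_MP_2c424f_thr.R1d

/-!
# THR R2: conditional mean of a summand (paper proof: R1)

`u` in the class `b`, `f` proper.  Average over the colour of `u` first, the other colours of the class `b` fixed (`fm_indep`
applied to `φ (h u) = sg`, `F = VF · aF/q`; `VF`, `aF`, `sg (u+σ)` do not depend on the colour of `u`, and `aF`, `sg (u + σ)`,
`nP`, `av` are constant on the fibre): `fm b GF = fm b VF · [ (aF/q) (z^c - z^c')/x + (1/q)(n_c - n_c') ]`.
If `VF ≠ 0` somewhere on the fibre then `c1 q ≤ aF`, `BF = 1` (constant on the fibre), `z^c = 1[n_c = 0]` (`zz_nP`),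
`aF - 4 ≤ x ≤ aF`, `x ≥ c1 q/2` (`q ≥ 8/c1`).  With `D_c = n_c - 1[n_c ≥ 1] ≤ 3·1[n_c ≥ 2]` (`n_c ≤ 4`):
bracket `= (1/q)[(1 - aF/x)(n_c - n_c') + (aF/x)(D_c - D_c')]`, `|1 - aF/x| ≤ 4/x ≤ 8/(c1 q)`, `aF/x ≤ 2`.
-/

set_option autoImplicit false

open Finset Filter

namespace Pool.Agent.THR

open Pool.Agent.LO Pool.Agent.LIN

private theorem R2_nbr {d k : ℕ} (hk : 1 ≤ k) (b : Bool) (x : Site d k) (hx : x ∈ cls b d k) (σ : Stp d) :
    x + sv σ ∉ cls b d k := by
  have h := evn_step hk x σ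
  cases b
  · simp only [cls, ods, Bool.false_eq_true, if_false, mem_filter, mem_univ, true_and] at hx ⊢
    simp only [not_not]
    tauto
  · simp only [cls, evs, if_true, mem_filter, mem_univ, true_and] at hx ⊢
    tauto

private theorem R2_off {d k q : ℕ} (hk : 1 ≤ k) (b : Bool) {f h : Site d k → Fin q} (hh : h ∈ fib b f) (u : Site d k)
    (hu : u ∈ cls b d k) (σ : Stp d) : h (u + sv σ) = f (u + sv σ) :=
  fib_off b hh _ (R2_nbr hk b u hu σ)

private theorem R2_aF {d k q : ℕ} (hk : 1 ≤ k) (b : Bool) {f h : Site d k → Fin q} (hh : h ∈ fib b f) (u : Site d k)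
    (hu : u ∈ cls b d k) (i j : Fin d) : aF i j h u = aF i j f u := by
  unfold aF
  simp_rw [R2_off hk b hh u hu]

private theorem R2_BF {d k q : ℕ} (hk : 1 ≤ k) (b : Bool) {f h : Site d k → Fin q} (hh : h ∈ fib b f) (u : Site d k)
    (hu : u ∈ cls b d k) (i j : Fin d) (c c' : Fin q) : BF i j c c' h u = BF i j c c' f u := by
  unfold BF
  simp_rw [R2_off hk b hh u hu]

private theorem R2_sgsum {d k q : ℕ} (hk : 1 ≤ k) (b : Bool) {f h : Site d k → Fin q} (hh : h ∈ fib b f) (u : Site d k)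
    (hu : u ∈ cls b d k) (i j : Fin d) (c c' : Fin q) :
    ∑ σ ∈ pl i j, sg c c' h (u + sv σ) = (nP i j c f u : ℝ) - nP i j c' f u := by
  rw [← sum_sg]
  refine sum_congr rfl fun σ _ => ?_
  unfold THR.sg
  rw [R2_off hk b hh u hu]

private theorem R2_nP_le {d k q : ℕ} (i j : Fin d) (hij : i ≠ j) (c : Fin q) (f : Site d k → Fin q) (u : Site d k) :
    nP i j c f u ≤ 4 := by
  unfold nP
  exact (card_filter_le _ _).trans (card_pl i j hij).le

private theorem R2_D (n : ℕ) (hn : n ≤ 4) :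
    0 ≤ (if n = 0 then (1 : ℝ) else 0) + n - 1 ∧
      (if n = 0 then (1 : ℝ) else 0) + n - 1 ≤ 3 * (if 2 ≤ n then (1 : ℝ) else 0) := by
  interval_cases n <;> norm_num

/-- the bound of the bracket -/
private theorem R2_br {ε : ℝ} (hc1 : 0 < c1 ε) {q : ℕ} (hq0 : (0 : ℝ) < q) (hq : 8 / c1 ε ≤ q) (a x : ℝ) (n m : ℕ)
    (hn : n ≤ 4) (hm : m ≤ 4) (ha : c1 ε * q ≤ a) (h1 : x ≤ a) (h2 : a ≤ x + 4) :
    |a / q * (((if n = 0 then (1 : ℝ) else 0) - (if m = 0 then (1 : ℝ) else 0)) / x) + 1 / q * ((n : ℝ) - m)| ≤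
      8 / (c1 ε * q ^ 2) * ((n : ℝ) + m) +
        6 / q * ((if 2 ≤ n then (1 : ℝ) else 0) + (if 2 ≤ m then (1 : ℝ) else 0)) := by
  have h8 : 8 ≤ c1 ε * q := by
    rw [div_le_iff₀ hc1] at hq
    linarith
  have hx : c1 ε * q / 2 ≤ x := by linarith
  have hx0 : 0 < x := by linarith
  obtain ⟨hD1, hD2⟩ := R2_D n hn
  obtain ⟨hE1, hE2⟩ := R2_D m hm
  set A : ℝ := if n = 0 then (1 : ℝ) else 0 with hA
  set B : ℝ := if m = 0 then (1 : ℝ) else 0 with hB
  set P : ℝ := if 2 ≤ n then (1 : ℝ) else 0 with hP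
  set Q : ℝ := if 2 ≤ m then (1 : ℝ) else 0 with hQ
  have e1 : a / q * ((A - B) / x) + 1 / q * ((n : ℝ) - m) =
      1 / q * ((1 - a / x) * ((n : ℝ) - m) + a / x * ((A + n - 1) - (B + m - 1))) := by
    field_simp
    ring
  rw [e1, abs_mul, abs_of_pos (by positivity)]
  have hr : a / x ≤ 2 := by
    rw [div_le_iff₀ hx0]
    linarith
  have hr0 : 0 ≤ a / x := by
    apply div_nonneg _ hx0.le
    linarith
  have hr1 : |1 - a / x| ≤ 8 / (c1 ε * q) := by
    have : 1 - a / x = -((a - x) / x) := by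
      field_simp
      ring
    rw [this, abs_neg, abs_of_nonneg (div_nonneg (by linarith) hx0.le), div_le_div_iff₀ hx0 (by linarith)]
    nlinarith
  have hnm : |(n : ℝ) - m| ≤ n + m := by
    rw [abs_le]
    constructor
    · have : (0 : ℝ) ≤ n := Nat.cast_nonneg _
      linarith
    · have : (0 : ℝ) ≤ m := Nat.cast_nonneg _
      linarith
  have hDE : |(A + n - 1) - (B + m - 1)| ≤ 3 * (P + Q) := by
    rw [abs_le]
    constructor <;> linarith
  have hPQ : 0 ≤ P + Q := by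
    have : 0 ≤ P := by rw [hP]; split_ifs <;> norm_num
    have : 0 ≤ Q := by rw [hQ]; split_ifs <;> norm_num
    linarith
  have h3 : |(1 - a / x) * ((n : ℝ) - m) + a / x * ((A + n - 1) - (B + m - 1))| ≤
      8 / (c1 ε * q) * (n + m) + 2 * (3 * (P + Q)) := by
    refine (abs_add_le _ _).trans ?_
    rw [abs_mul, abs_mul, abs_of_nonneg hr0]
    refine add_le_add ?_ ?_
    · exact mul_le_mul hr1 hnm (abs_nonneg _) ((abs_nonneg _).trans hr1)
    · exact mul_le_mul hr hDE (abs_nonneg _) (by norm_num)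
  calc 1 / (q : ℝ) * |(1 - a / x) * ((n : ℝ) - m) + a / x * ((A + n - 1) - (B + m - 1))|
      ≤ 1 / q * (8 / (c1 ε * q) * (n + m) + 2 * (3 * (P + Q))) := by
        exact mul_le_mul_of_nonneg_left h3 (by positivity)
    _ = _ := by
        field_simp
        ring

theorem GF_mean {ε : ℝ} (hε : 0 < ε) {d k q : ℕ} (hk : 2 ≤ k) (hq : 8 / c1 ε ≤ q) (ha : ra d q ≤ A0 ε)
    (i j : Fin d) (hij : i ≠ j) (c c' : Fin q) (hc : c ≠ c') (b : Bool) {f : Site d k → Fin q} (hf : Prp f)
    (u : Site d k) (hu : u ∈ cls b d k) :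
    |fm b (fun h => GF ε i j c c' h u) f| ≤ CW ε *
      (8 / (c1 ε * q ^ 2) * ((nP i j c f u : ℝ) + nP i j c' f u) +
        6 / q * ((if 2 ≤ nP i j c f u then (1 : ℝ) else 0) + (if 2 ≤ nP i j c' f u then (1 : ℝ) else 0))) := by
  classical
  have hk1 : 1 ≤ k := by omega
  have hc1 : 0 < c1 ε := by
    unfold c1
    positivity
  have hq0 : (0 : ℝ) < q := lt_of_lt_of_le (by positivity) hq
  have hq4 : 4 / c1 ε ≤ q := by
    refine le_trans ?_ hq
    gcongr
    norm_num
  have hCW : 0 ≤ CW ε := by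
    unfold CW
    positivity
  have hR : 0 ≤ 8 / (c1 ε * q ^ 2) * ((nP i j c f u : ℝ) + nP i j c' f u) +
        6 / q * ((if 2 ≤ nP i j c f u then (1 : ℝ) else 0) + (if 2 ≤ nP i j c' f u then (1 : ℝ) else 0)) := by
    have h1 : (0 : ℝ) ≤ if 2 ≤ nP i j c f u then (1 : ℝ) else 0 := by split_ifs <;> norm_num
    have h2 : (0 : ℝ) ≤ if 2 ≤ nP i j c' f u then (1 : ℝ) else 0 := by split_ifs <;> norm_num
    positivity
  -- the mean
  have hφ : fm b (fun h => (if h u = c then (1 : ℝ) else 0) - (if h u = c' then (1 : ℝ) else 0)) f =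
      (zz f u c - zz f u c') / (av f u : ℝ) := by
    rw [fm_sub, fm_ind hk1 b hf u hu c, fm_ind hk1 b hf u hu c']
    ring
  have hmean : fm b (fun h => GF ε i j c c' h u) f =
      fm b (fun h => VF ε i j c c' h u) f *
        ((aF i j f u : ℝ) / q * ((zz f u c - zz f u c') / (av f u : ℝ)) +
          1 / q * ((nP i j c f u : ℝ) - nP i j c' f u)) := by
    have e1 : fm b (fun h => GF ε i j c c' h u) f =
        fm b (fun h => ((if h u = c then (1 : ℝ) else 0) - (if h u = c' then (1 : ℝ) else 0)) *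
          ((aF i j f u : ℝ) / q * VF ε i j c c' h u) +
          (1 / q * ((nP i j c f u : ℝ) - nP i j c' f u)) * VF ε i j c c' h u) f := by
      refine fm_congr b fun h hh => ?_
      unfold GF
      rw [R2_sgsum hk1 b hh u hu, R2_aF hk1 b hh u hu]
      unfold THR.sg
      ring
    rw [e1, fm_add, fm_mul, fm_indep hk1 b hf u hu
      (fun γ => (if γ = c then (1 : ℝ) else 0) - (if γ = c' then (1 : ℝ) else 0))
      (fun h => (aF i j f u : ℝ) / q * VF ε i j c c' h u)
      (fun h _ γ _ => by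
        show (aF i j f u : ℝ) / q * VF ε i j c c' (Function.update h u γ) u =
          (aF i j f u : ℝ) / q * VF ε i j c c' h u
        rw [(VF_self hk ε i j c c' h u γ).1]), fm_mul, hφ]
    ring
  rw [hmean, abs_mul]
  by_cases hz : ∀ h ∈ fib b f, VF ε i j c c' h u = 0
  · have : fm b (fun h => VF ε i j c c' h u) f = 0 := by
      rw [fm_congr b hz, fm_const b hf]
    rw [this, abs_zero, zero_mul]
    exact mul_nonneg hCW hR
  · push_neg at hz
    obtain ⟨h, hh, hV⟩ := hz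
    -- the condition
    have haF : c1 ε * q ≤ (aF i j f u : ℝ) := by
      rw [← R2_aF hk1 b hh u hu]
      by_contra hcon
      exact hV (by unfold VF; rw [if_neg hcon])
    have hBF : BF i j c c' f u ≠ 0 := by
      rw [← R2_BF hk1 b hh u hu]
      intro hcon
      apply hV
      unfold VF V1
      rw [hcon]
      simp
    have hB : ∀ σ ∈ fs i j, f (u + sv σ) ≠ c ∧ f (u + sv σ) ≠ c' := by
      by_contra hcon
      exact hBF (by unfold BF; rw [if_neg hcon])
    have hzc := zz_nP i j c f u fun σ hσ => (hB σ hσ).1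
    have hzc' := zz_nP i j c' f u fun σ hσ => (hB σ hσ).2
    have hav := av_aF i j hij f u
    have hVm : |fm b (fun h => VF ε i j c c' h u) f| ≤ CW ε := by
      refine (fm_abs b f _).trans ?_
      refine (fm_mono b hf (G := fun _ => CW ε) fun h _ => ?_).trans (fm_const b hf _).le
      have := VF_bound hε hq4 ha i j c c' h u
      rw [abs_of_nonneg this.1]
      exact this.2
    refine mul_le_mul hVm ?_ (abs_nonneg _) hCW
    rw [hzc, hzc']
    refine R2_br hc1 hq0 hq _ _ _ _ (R2_nP_le i j hij c f u) (R2_nP_le i j hij c' f u) haF ?_ ?_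
    · exact_mod_cast hav.1
    · exact_mod_cast hav.2

end Pool.Agent.THR
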