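import Pool.Agent.Lib_MP_2c424f_thr.R2
import Pool.Agent.Lib_MP_2c424f_thr.S4

/-!
# THR R3a: two sums (paper proof: R3)

Index type of the uniform statements: `Ix d k q = Bool × Fin d × Fin d × Fin q × Fin q × (Site d k → ℝ)`.
* `nP_sum`: `WOPi_tail` for the class `!b`; `∑_{u ∈ b} |w_u| n_c(u) = ∑_u ∑_{σ ∈ pl} |w_u| 1[f(u+σ) = c]`, mean (`fm_ind`)
  `∑∑ |w_u| z/x ≤ (4/(c1 q)) W + 4 irr` (every irregular site is `u + σ` at most once for each of the four `σ`), `avail (K+1)`; bounded differences `≤ 4`.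
* `nP2_sum`: `1[n_c ≥ 2] ≤ ∑_{pairs σ ≠ σ'} 1[..] 1[..]` (6 pairs), mean of a product over two different neighbours (`fm_two`)
  `≤ 1/(c1 q)² + 1[u+σ irregular] + 1[u+σ' irregular]`; total `≤ 6/(c1 q)² W + 12 irr`.
-/

set_option autoImplicit false

open Finset Filter

namespace Pool.Agent.THR

open Pool.Agent.LO Pool.Agent.LIN

/-- parameters: class, plane, two colours, weight function -/
abbrev Ix (d k q : ℕ) : Type := Bool × (Fin d × Fin d) × (Fin q × Fin q) × (Site d k → ℝ)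

/-- admissible parameters -/
def okx {d k q : ℕ} (p : Ix d k q) : Prop := p.2.1.1 ≠ p.2.1.2 ∧ p.2.2.1.1 ≠ p.2.2.1.2 ∧ ∀ x, |p.2.2.2 x| ≤ 1

private theorem R3a_c1 (ε : ℝ) : 0 < c1 ε := by
  unfold c1
  have : (0 : ℝ) < (4 : ℝ) ^ (-A0 ε) := Real.rpow_pos_of_pos (by norm_num) _
  positivity

private theorem R3a_NN (d k : ℕ) : 0 < NN d k := by
  unfold NN
  positivity

private theorem R3a_prp {d k q : ℕ} {f : Site d k → Fin q} (hf : f ∈ prps d k q) : Prp f := by
  classical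
  unfold prps at hf
  exact (mem_filter.1 hf).2

private theorem R3a_nP {d k q : ℕ} (i j : Fin d) (c : Fin q) (f : Site d k → Fin q) (u : Site d k) :
    (nP i j c f u : ℝ) = ∑ σ ∈ pl i j, (if f (u + sv σ) = c then (1 : ℝ) else 0) := by
  unfold nP
  rw [card_filter]
  push_cast
  rfl

private theorem R3a_lip {d k q : ℕ} (i j : Fin d) (hij : i ≠ j) (c : Fin q) (b : Bool)
    (w : Site d k → ℝ) (hw : ∀ x, |w x| ≤ 1) (φ : ℕ → ℝ) (hφ : ∀ m n : ℕ, |φ m - φ n| ≤ |(m : ℝ) - n|) :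
    Lip (!b) 4 fun f => ∑ u ∈ cls b d k, |w u| * φ (nP i j c f u) := by
  classical
  intro f hf h hh v hv γ hγ
  rw [← sum_sub_distrib]
  refine (abs_sum_le_sum_abs _ _).trans ?_
  calc ∑ u ∈ cls b d k, |(|w u| * φ (nP i j c (Function.update h v γ) u) - |w u| * φ (nP i j c h u))|
      ≤ ∑ u ∈ cls b d k, ∑ σ ∈ pl i j, (if u + sv σ = v then (1 : ℝ) else 0) := by
        refine sum_le_sum fun u _ => ?_
        rw [← mul_sub, abs_mul, abs_abs]
        have h1 : |φ (nP i j c (Function.update h v γ) u) - φ (nP i j c h u)| ≤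
            ∑ σ ∈ pl i j, (if u + sv σ = v then (1 : ℝ) else 0) := by
          refine (hφ _ _).trans ?_
          rw [R3a_nP, R3a_nP, ← sum_sub_distrib]
          refine (abs_sum_le_sum_abs _ _).trans (sum_le_sum fun σ _ => ?_)
          by_cases hv' : u + sv σ = v
          · rw [if_pos hv']
            split_ifs <;> norm_num
          · rw [if_neg hv', Function.update_of_ne hv', sub_self, abs_zero]
        calc |w u| * |φ (nP i j c (Function.update h v γ) u) - φ (nP i j c h u)|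
            ≤ 1 * |φ (nP i j c (Function.update h v γ) u) - φ (nP i j c h u)| :=
              mul_le_mul_of_nonneg_right (hw u) (abs_nonneg _)
          _ ≤ _ := by
              rw [one_mul]
              exact h1
    _ ≤ ∑ u : Site d k, ∑ σ ∈ pl i j, (if u + sv σ = v then (1 : ℝ) else 0) :=
        sum_le_sum_of_subset_of_nonneg (subset_univ _) fun _ _ _ =>
          sum_nonneg fun _ _ => by split_ifs <;> norm_num
    _ = ∑ σ ∈ pl i j, (1 : ℝ) := by
        rw [sum_comm]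
        refine sum_congr rfl fun σ _ => ?_
        have h3 : ∀ u : Site d k, (u + sv σ = v) ↔ u = v - sv σ := fun u => eq_sub_iff_add_eq.symm
        simp_rw [h3]
        rw [sum_ite_eq' univ (v - sv σ) fun _ => (1 : ℝ), if_pos (mem_univ _)]
    _ = 4 := by
        rw [sum_const, card_pl i j hij]
        norm_num

open scoped Classical in
private theorem R3a_irr {d k q : ℕ} (ε : ℝ) (f : Site d k → Fin q) (σ : Stp d) :
    ∑ u : Site d k, (if Rg ε f (u + sv σ) then (0 : ℝ) else 1) = irr ε f := by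
  have h1 : ∑ u : Site d k, (if Rg ε f (u + sv σ) then (0 : ℝ) else 1) =
      ∑ v : Site d k, (if Rg ε f v then (0 : ℝ) else 1) :=
    Fintype.sum_equiv (Equiv.addRight (sv σ)) _ _ fun u => rfl
  rw [h1]
  unfold irr
  rw [card_filter]
  push_cast
  refine sum_congr rfl fun v _ => ?_
  unfold Rg
  by_cases h : c1 ε * (q : ℝ) ≤ (av f v : ℝ)
  · rw [if_pos h, if_neg (not_lt.2 h)]
  · rw [if_neg h, if_pos (not_le.1 h)]

open scoped Classical in
/-- the sum of `|w|` times an indicator of irregularity of `u + σ` -/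
private theorem R3a_wirr {d k q : ℕ} (ε : ℝ) (f : Site d k → Fin q) (σ : Stp d) (b : Bool) (w : Site d k → ℝ)
    (hw : ∀ x, |w x| ≤ 1) :
    ∑ u ∈ cls b d k, |w u| * (if Rg ε f (u + sv σ) then (0 : ℝ) else 1) ≤ irr ε f := by
  rw [← R3a_irr ε f σ]
  refine (sum_le_sum fun u _ => ?_).trans
    (sum_le_sum_of_subset_of_nonneg (subset_univ (cls b d k)) fun _ _ _ => ?_)
  · have h2 : (0 : ℝ) ≤ if Rg ε f (u + sv σ) then (0 : ℝ) else 1 := by split_ifs <;> norm_num
    calc |w u| * (if Rg ε f (u + sv σ) then (0 : ℝ) else 1)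
        ≤ 1 * (if Rg ε f (u + sv σ) then (0 : ℝ) else 1) := mul_le_mul_of_nonneg_right (hw u) h2
      _ = _ := one_mul _
  · split_ifs <;> norm_num

open scoped Classical in
private theorem R3a_fi {ε : ℝ} {d k q : ℕ} (hk : 2 ≤ k) (hq : 1 ≤ q) (c : Fin q) (b : Bool)
    {f : Site d k → Fin q} (hf : Prp f) (u : Site d k) (hu : u ∈ cls b d k) (σ : Stp d) :
    0 ≤ fm (!b) (fun h => if h (u + sv σ) = c then (1 : ℝ) else 0) f ∧
    fm (!b) (fun h => if h (u + sv σ) = c then (1 : ℝ) else 0) f ≤ 1 ∧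
    fm (!b) (fun h => if h (u + sv σ) = c then (1 : ℝ) else 0) f ≤
      1 / (c1 ε * q) + (if Rg ε f (u + sv σ) then (0 : ℝ) else 1) := by
  have hv : u + sv σ ∈ cls (!b) d k := (mem_cls_step (by omega) (!b) u σ).2 (by simpa using hu)
  rw [fm_ind (by omega) (!b) hf _ hv c]
  have h1 := zz_av_le hf (u + sv σ) c
  refine ⟨h1.1, h1.2, ?_⟩
  by_cases hR : Rg ε f (u + sv σ)
  · rw [if_pos hR, add_zero]
    exact zz_reg hq (u + sv σ) hR c
  · rw [if_neg hR]
    have h2 : 0 ≤ 1 / (c1 ε * (q : ℝ)) := by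
      have := R3a_c1 ε
      positivity
    linarith [h1.2]

private theorem R3a_mean1 {ε : ℝ} {d k q : ℕ} (hk : 2 ≤ k) (hq : 1 ≤ q) (i j : Fin d) (hij : i ≠ j)
    (c : Fin q) (b : Bool) (w : Site d k → ℝ) (hw : ∀ x, |w x| ≤ 1) {f : Site d k → Fin q} (hf : Prp f) :
    fm (!b) (fun f => ∑ u ∈ cls b d k, |w u| * (nP i j c f u : ℝ)) f ≤
      4 / (c1 ε * q) * Wt b w + 4 * irr ε f := by
  classical
  rw [fm_sum]
  have h1 : ∀ u ∈ cls b d k, fm (!b) (fun h => |w u| * (nP i j c h u : ℝ)) f ≤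
      |w u| * (4 / (c1 ε * q)) + ∑ σ ∈ pl i j, |w u| * (if Rg ε f (u + sv σ) then (0 : ℝ) else 1) := by
    intro u hu
    rw [fm_mul, ← mul_sum, ← mul_add]
    refine mul_le_mul_of_nonneg_left ?_ (abs_nonneg _)
    have h2 : (fun h : Site d k → Fin q => (nP i j c h u : ℝ)) =
        fun h => ∑ σ ∈ pl i j, (if h (u + sv σ) = c then (1 : ℝ) else 0) := by
      funext h
      exact R3a_nP i j c h u
    rw [h2, fm_sum]
    have h3 : (4 : ℝ) / (c1 ε * q) = ∑ σ ∈ pl i j, 1 / (c1 ε * (q : ℝ)) := by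
      rw [sum_const, card_pl i j hij, nsmul_eq_mul]
      push_cast
      ring
    rw [h3, ← sum_add_distrib]
    exact sum_le_sum fun σ _ => (R3a_fi hk hq c b hf u hu σ).2.2
  refine (sum_le_sum h1).trans ?_
  rw [sum_add_distrib, ← sum_mul, sum_comm]
  have h4 : ∑ σ ∈ pl i j, ∑ u ∈ cls b d k, |w u| * (if Rg ε f (u + sv σ) then (0 : ℝ) else 1) ≤ 4 * irr ε f := by
    refine (sum_le_sum fun σ _ => R3a_wirr ε f σ b w hw).trans ?_
    rw [sum_const, card_pl i j hij, nsmul_eq_mul]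
    norm_num
  have h5 : (∑ u ∈ cls b d k, |w u|) * (4 / (c1 ε * q)) = 4 / (c1 ε * q) * Wt b w := by
    unfold Wt
    ring
  rw [h5]
  linarith

private theorem R3a_two_le {d k q : ℕ} (i j : Fin d) (c : Fin q) (f : Site d k → Fin q) (u : Site d k) :
    (if 2 ≤ nP i j c f u then (1 : ℝ) else 0) ≤
      ∑ p ∈ (pl i j).offDiag, (1 / 2) * ((if f (u + sv p.1) = c then (1 : ℝ) else 0) *
        (if f (u + sv p.2) = c then (1 : ℝ) else 0)) := by
  classical
  have hnn : ∀ p : Stp d × Stp d, (0 : ℝ) ≤ (1 / 2) * ((if f (u + sv p.1) = c then (1 : ℝ) else 0) *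
        (if f (u + sv p.2) = c then (1 : ℝ) else 0)) := by
    intro p
    split_ifs <;> norm_num
  by_cases h : 2 ≤ nP i j c f u
  · rw [if_pos h]
    unfold nP at h
    obtain ⟨a, ha, b, hb, hab⟩ := one_lt_card.1 (show 1 < _ from h)
    rw [mem_filter] at ha hb
    have hsub : ({(a, b), (b, a)} : Finset (Stp d × Stp d)) ⊆ (pl i j).offDiag := by
      intro p hp
      rw [mem_insert, mem_singleton] at hp
      rw [mem_offDiag]
      rcases hp with rfl | rfl
      · exact ⟨ha.1, hb.1, hab⟩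
      · exact ⟨hb.1, ha.1, hab.symm⟩
    refine le_trans ?_ (sum_le_sum_of_subset_of_nonneg hsub fun p _ _ => hnn p)
    have hne : ((a, b) : Stp d × Stp d) ≠ (b, a) := by
      intro h'
      exact hab (congrArg Prod.fst h')
    rw [sum_pair hne]
    simp only [ha.2, hb.2, if_true]
    norm_num
  · rw [if_neg h]
    exact sum_nonneg fun p _ => hnn p

private theorem R3a_mean2 {ε : ℝ} {d k q : ℕ} (hk : 2 ≤ k) (hq : 1 ≤ q) (i j : Fin d) (hij : i ≠ j)
    (c : Fin q) (b : Bool) (w : Site d k → ℝ) (hw : ∀ x, |w x| ≤ 1) {f : Site d k → Fin q} (hf : Prp f) :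
    fm (!b) (fun f => ∑ u ∈ cls b d k, |w u| * (if 2 ≤ nP i j c f u then (1 : ℝ) else 0)) f ≤
      6 / (c1 ε * q) ^ 2 * Wt b w + 12 * irr ε f := by
  classical
  rw [fm_sum]
  have hc := R3a_c1 ε
  have hq' : (0 : ℝ) < q := by exact_mod_cast hq
  have hcard : ((pl i j).offDiag).card = 12 := by
    rw [offDiag_card, card_pl i j hij]
  have h1 : ∀ u ∈ cls b d k, fm (!b) (fun h => |w u| * (if 2 ≤ nP i j c h u then (1 : ℝ) else 0)) f ≤
      |w u| * (6 / (c1 ε * q) ^ 2) + ∑ p ∈ (pl i j).offDiag, (1 / 2) *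
        (|w u| * (if Rg ε f (u + sv p.1) then (0 : ℝ) else 1) +
          |w u| * (if Rg ε f (u + sv p.2) then (0 : ℝ) else 1)) := by
    intro u hu
    rw [fm_mul]
    have h2 : fm (!b) (fun h => if 2 ≤ nP i j c h u then (1 : ℝ) else 0) f ≤
        6 / (c1 ε * q) ^ 2 + ∑ p ∈ (pl i j).offDiag, (1 / 2) *
          ((if Rg ε f (u + sv p.1) then (0 : ℝ) else 1) + (if Rg ε f (u + sv p.2) then (0 : ℝ) else 1)) := by
      refine (fm_mono (!b) hf fun h _ => R3a_two_le i j c h u).trans ?_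
      rw [fm_sum]
      have h3 : (6 : ℝ) / (c1 ε * q) ^ 2 = ∑ p ∈ (pl i j).offDiag, (1 / 2) * (1 / (c1 ε * (q : ℝ))) ^ 2 := by
        rw [sum_const, hcard, nsmul_eq_mul]
        push_cast
        rw [div_pow, one_pow]
        ring
      rw [h3, ← sum_add_distrib]
      refine sum_le_sum fun p hp => ?_
      rw [mem_offDiag] at hp
      rw [fm_mul, ← mul_add]
      refine mul_le_mul_of_nonneg_left ?_ (by norm_num)
      have hne : u + sv p.1 ≠ u + sv p.2 := fun h => hp.2.2 (sv_inj hk (add_left_cancel h))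
      have hv1 : u + sv p.1 ∈ cls (!b) d k := (mem_cls_step (by omega) (!b) u p.1).2 (by simpa using hu)
      have hv2 : u + sv p.2 ∈ cls (!b) d k := (mem_cls_step (by omega) (!b) u p.2).2 (by simpa using hu)
      have h4 := fm_two (by omega) (!b) hf (u + sv p.1) (u + sv p.2) hv1 hv2 hne
        (fun γ => if γ = c then (1 : ℝ) else 0) (fun γ => if γ = c then (1 : ℝ) else 0)
      rw [h4]
      obtain ⟨a1, a2, a3⟩ := R3a_fi (ε := ε) hk hq c b hf u hu p.1
      obtain ⟨b1, b2, b3⟩ := R3a_fi (ε := ε) hk hq c b hf u hu p.2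
      have hpos : 0 ≤ 1 / (c1 ε * (q : ℝ)) := by positivity
      by_cases hR1 : Rg ε f (u + sv p.1)
      · by_cases hR2 : Rg ε f (u + sv p.2)
        · rw [if_pos hR1, add_zero] at a3
          rw [if_pos hR2, add_zero] at b3
          rw [if_pos hR1, if_pos hR2, add_zero, add_zero, pow_two]
          exact mul_le_mul a3 b3 b1 hpos
        · rw [if_pos hR1, if_neg hR2]
          have h5 : 0 ≤ (1 / (c1 ε * (q : ℝ))) ^ 2 := by positivity
          nlinarith
      · rw [if_neg hR1]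
        have h5 : 0 ≤ (1 / (c1 ε * (q : ℝ))) ^ 2 := by positivity
        have h6 : (0 : ℝ) ≤ if Rg ε f (u + sv p.2) then (0 : ℝ) else 1 := by split_ifs <;> norm_num
        nlinarith
    calc |w u| * fm (!b) (fun h => if 2 ≤ nP i j c h u then (1 : ℝ) else 0) f
        ≤ |w u| * (6 / (c1 ε * q) ^ 2 + ∑ p ∈ (pl i j).offDiag, (1 / 2) *
          ((if Rg ε f (u + sv p.1) then (0 : ℝ) else 1) + (if Rg ε f (u + sv p.2) then (0 : ℝ) else 1))) :=
          mul_le_mul_of_nonneg_left h2 (abs_nonneg _)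
      _ = _ := by
          rw [mul_add, mul_sum]
          congr 1
          refine sum_congr rfl fun p _ => ?_
          ring
  refine (sum_le_sum h1).trans ?_
  rw [sum_add_distrib, ← sum_mul, sum_comm]
  have h4 : ∑ p ∈ (pl i j).offDiag, ∑ u ∈ cls b d k, (1 / 2) *
        (|w u| * (if Rg ε f (u + sv p.1) then (0 : ℝ) else 1) +
          |w u| * (if Rg ε f (u + sv p.2) then (0 : ℝ) else 1)) ≤ 12 * irr ε f := by
    have h6 : ∀ p ∈ (pl i j).offDiag, ∑ u ∈ cls b d k, (1 / 2) *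
        (|w u| * (if Rg ε f (u + sv p.1) then (0 : ℝ) else 1) +
          |w u| * (if Rg ε f (u + sv p.2) then (0 : ℝ) else 1)) ≤ irr ε f := by
      intro p _
      rw [← mul_sum, sum_add_distrib]
      have h7 := R3a_wirr ε f p.1 b w hw
      have h8 := R3a_wirr ε f p.2 b w hw
      linarith
    refine (sum_le_sum h6).trans ?_
    rw [sum_const, hcard, nsmul_eq_mul]
    norm_num
  have h5 : (∑ u ∈ cls b d k, |w u|) * (6 / (c1 ε * q) ^ 2) = 6 / (c1 ε * q) ^ 2 * Wt b w := by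
    unfold Wt
    ring
  rw [h5]
  linarith

private theorem R3a_fin {N d : ℝ} (hN : 0 < N) (hd : 13 ≤ d) (K : ℕ) {A W : ℝ} {m : ℝ} (hm : 0 ≤ m) (hm' : m ≤ 12)
    {F M I : ℝ} (h1 : F ≤ M + N / d ^ (K + 1)) (h2 : M ≤ A * W + m * I) (h3 : I ≤ N / d ^ (K + 1)) :
    F ≤ A * W + N / d ^ K := by
  have h4 : (13 : ℝ) * (N / d ^ (K + 1)) ≤ N / d ^ K := by
    have h5 : N / d ^ (K + 1) = (N / d ^ K) / d := by
      rw [pow_succ, div_mul_eq_div_div]
    have h6 : 0 < N / d ^ K := by positivity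
    rw [h5, mul_div_assoc', div_le_iff₀ (by linarith)]
    nlinarith
  have h7 : 0 < N / d ^ (K + 1) := by
    have : (0 : ℝ) < d := by linarith
    positivity
  nlinarith

theorem nP_sum {ε : ℝ} (hε : 0 < ε) (hε1 : ε ≤ 1) (K : ℕ) : WOPi ε Ix fun d k q p f => okx p →
    ∑ u ∈ cls p.1 d k, |p.2.2.2 u| * (nP p.2.1.1 p.2.1.2 p.2.2.1.1 f u : ℝ) ≤
      4 / (c1 ε * q) * Wt p.1 p.2.2.2 + NN d k / (d : ℝ) ^ K := by
  have hK := avail hε hε1 (K + 1)
  have hT := WOPi_tail hε hε1 Ix (fun _ _ _ p => !p.1) (fun _ _ _ p => okx p)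
    (fun d k q p f => ∑ u ∈ cls p.1 d k, |p.2.2.2 u| * (nP p.2.1.1 p.2.1.2 p.2.2.1.1 f u : ℝ)) 1 (K + 1)
    ((EvT_reg hε hε1 4).mono fun d k q hr p hok f hf h hh v hv γ hγ => by
      have h1 := R3a_lip p.2.1.1 p.2.1.2 hok.1 p.2.2.1.1 p.1 p.2.2.2 hok.2.2 (fun n => (n : ℝ))
        (fun m n => le_refl _) f hf h hh v hv γ hγ
      refine h1.trans ?_
      rw [pow_one]
      exact hr.1)
  refine (hT.and (hK.toi Ix)).mono ((EvT_reg hε hε1 13).mono fun d k q hr p f hf hP hok => ?_)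
  obtain ⟨hd, hq, hk, -⟩ := hr
  have hk' : 2 ≤ k := by
    have : (2 : ℝ) ≤ k := by linarith
    exact_mod_cast this
  have hq' : 1 ≤ q := by
    have : (1 : ℝ) ≤ q := by linarith
    exact_mod_cast this
  exact R3a_fin (R3a_NN d k) hd K (m := 4) (by norm_num) (by norm_num) (hP.1 hok)
    (R3a_mean1 hk' hq' p.2.1.1 p.2.1.2 hok.1 p.2.2.1.1 p.1 p.2.2.2 hok.2.2 (R3a_prp hf)) hP.2

theorem nP2_sum {ε : ℝ} (hε : 0 < ε) (hε1 : ε ≤ 1) (K : ℕ) : WOPi ε Ix fun d k q p f => okx p →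
    ∑ u ∈ cls p.1 d k, |p.2.2.2 u| * (if 2 ≤ nP p.2.1.1 p.2.1.2 p.2.2.1.1 f u then (1 : ℝ) else 0) ≤
      6 / (c1 ε * q) ^ 2 * Wt p.1 p.2.2.2 + NN d k / (d : ℝ) ^ K := by
  have hK := avail hε hε1 (K + 1)
  have hφ : ∀ m n : ℕ, |(if 2 ≤ m then (1 : ℝ) else 0) - (if 2 ≤ n then (1 : ℝ) else 0)| ≤ |(m : ℝ) - n| := by
    intro m n
    by_cases hmn : m = n
    · subst hmn
      rw [sub_self, sub_self]
    · have h1 : (1 : ℝ) ≤ |(m : ℝ) - n| := by
        have h2 : (1 : ℤ) ≤ |(m : ℤ) - n| := by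
          refine Int.one_le_abs ?_
          omega
        have h3 : ((1 : ℤ) : ℝ) ≤ ((|(m : ℤ) - n| : ℤ) : ℝ) := by exact_mod_cast h2
        simpa using h3
      refine le_trans ?_ h1
      split_ifs <;> norm_num
  have hT := WOPi_tail hε hε1 Ix (fun _ _ _ p => !p.1) (fun _ _ _ p => okx p)
    (fun d k q p f => ∑ u ∈ cls p.1 d k, |p.2.2.2 u| *
      (if 2 ≤ nP p.2.1.1 p.2.1.2 p.2.2.1.1 f u then (1 : ℝ) else 0)) 1 (K + 1)
    ((EvT_reg hε hε1 4).mono fun d k q hr p hok f hf h hh v hv γ hγ => by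
      have h1 := R3a_lip p.2.1.1 p.2.1.2 hok.1 p.2.2.1.1 p.1 p.2.2.2 hok.2.2
        (fun n => if 2 ≤ n then (1 : ℝ) else 0) hφ f hf h hh v hv γ hγ
      refine h1.trans ?_
      rw [pow_one]
      exact hr.1)
  refine (hT.and (hK.toi Ix)).mono ((EvT_reg hε hε1 13).mono fun d k q hr p f hf hP hok => ?_)
  obtain ⟨hd, hq, hk, -⟩ := hr
  have hk' : 2 ≤ k := by
    have : (2 : ℝ) ≤ k := by linarith
    exact_mod_cast this
  have hq' : 1 ≤ q := by
    have : (1 : ℝ) ≤ q := by linarith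
    exact_mod_cast this
  exact R3a_fin (R3a_NN d k) hd K (m := 12) (by norm_num) (by norm_num) (hP.1 hok)
    (R3a_mean2 hk' hq' p.2.1.1 p.2.1.2 hok.1 p.2.2.1.1 p.1 p.2.2.2 hok.2.2 (R3a_prp hf)) hP.2

end Pool.Agent.THR
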