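import Pool.Agent.Lib_MP_2c424f_thr.R2
import Pool.Agent.Lib_MP_2c424f_thr.S4
import Pool.Agent.Lib_MP_2c424f_thr.R3a

/-!
# THR R3: the sum rule (paper proof: R2, R3, R4)

Index type of the uniform statements: `Ix d k q = Bool × Fin d × Fin d × Fin q × Fin q × (Site d k → ℝ)`.
* `nP_sum`: resample the class `!b`; `∑_{u ∈ b} |w_u| n_c(u) = ∑_u ∑_{σ ∈ pl} |w_u| 1[f(u+σ) = c]`, mean
  `∑∑ |w_u| z/x ≤ (4/(c1 q)) W + 4 irr` (each site is `u + σ` for at most... once per `σ`); bounded differences `≤ 4`.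
* `nP2_sum`: `1[n_c ≥ 2] ≤ ∑_{σ < σ'} 1[..] 1[..]` (6 pairs), mean of a product over two different neighbours
  `≤ 1/(c1 q)² + 1[u+σ irregular] + 1[u+σ' irregular]`; total `≤ 6/(c1 q)² W + 12 irr`.
* `sum_rule`: `WOPi_tail` for `Ψ = ∑_{u ∈ b} w_u GF_u` and for `-Ψ` (a change at `v ∈ b` changes `GF_u` only for `u = v` and for
  `u = v - τ - ρ`: at most `1 + 4d²` summands, each by at most `4 CW`: `κ = 4`), `GF_mean`, `nP_sum`, `nP2_sum`, `avail`:
  `CW [ (8/(c1 q²)) · 2 · (4/(c1 q)) + (6/q) · 2 · 6/(c1 q)² ] = 136 CW/(c1² q³)`.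
-/

set_option autoImplicit false

open Finset Filter

namespace Pool.Agent.THR

open Pool.Agent.LO Pool.Agent.LIN

private theorem R3_c1 (ε : ℝ) : 0 < c1 ε := by
  unfold c1
  have : (0 : ℝ) < (4 : ℝ) ^ (-A0 ε) := Real.rpow_pos_of_pos (by norm_num) _
  positivity

private theorem R3_CW (ε : ℝ) : 0 < CW ε := by
  unfold CW
  exact Real.rpow_pos_of_pos (by norm_num) _

private theorem R3_NN (d k : ℕ) : 0 < NN d k := by
  unfold NN
  positivity

private theorem R3_prp {d k q : ℕ} {f : Site d k → Fin q} (hf : f ∈ prps d k q) : Prp f := by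
  classical
  unfold prps at hf
  exact (mem_filter.1 hf).2

private theorem R3_loc {d k q : ℕ} (ε : ℝ) (i j : Fin d) (c c' : Fin q) (h : Site d k → Fin q) (u v : Site d k)
    (γ : Fin q) (h0 : u ≠ v) (h1 : ∀ σ : Stp d, u + sv σ ≠ v) (h2 : ∀ τ ρ : Stp d, u + sv τ + sv ρ ≠ v) :
    GF ε i j c c' (Function.update h v γ) u = GF ε i j c c' h u := by
  classical
  unfold GF
  rw [VF_far ε i j c c' h u v γ (fun σ _ => h1 σ) (fun τ _ ρ _ _ => h2 τ ρ)]
  have h3 : aF i j (Function.update h v γ) u = aF i j h u := by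
    unfold aF
    congr 1
    refine filter_congr fun x _ => ?_
    refine forall₂_congr fun σ _ => ?_
    rw [Function.update_of_ne (h1 σ)]
  have h4 : sg c c' (Function.update h v γ) u = sg c c' h u := by
    unfold sg
    rw [Function.update_of_ne h0]
  have h5 : ∀ σ : Stp d, sg c c' (Function.update h v γ) (u + sv σ) = sg c c' h (u + sv σ) := by
    intro σ
    unfold sg
    rw [Function.update_of_ne (h1 σ)]
  rw [h3, h4, sum_congr rfl fun σ _ => h5 σ]

private theorem R3_lip {ε : ℝ} (hε : 0 < ε) {d k q : ℕ} (hq : 4 / c1 ε ≤ q) (ha : ra d q ≤ A0 ε)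
    (i j : Fin d) (hij : i ≠ j) (c c' : Fin q) (b : Bool) (w : Site d k → ℝ) (hw : ∀ x, |w x| ≤ 1) :
    Lip b (4 * CW ε * (1 + 2 * d + (2 * d) * (2 * d))) fun f => ∑ u ∈ cls b d k, w u * GF ε i j c c' f u := by
  classical
  intro f hf h hh v hv γ hγ
  have hCW := R3_CW ε
  rw [← sum_sub_distrib]
  refine (abs_sum_le_sum_abs _ _).trans ?_
  calc ∑ u ∈ cls b d k, |(w u * GF ε i j c c' (Function.update h v γ) u - w u * GF ε i j c c' h u)|
      ≤ ∑ u ∈ cls b d k, 4 * CW ε * ((if u = v then (1 : ℝ) else 0) + ∑ σ : Stp d, (if u + sv σ = v then (1 : ℝ) else 0) +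
          ∑ τ : Stp d, ∑ ρ : Stp d, (if u + sv τ + sv ρ = v then (1 : ℝ) else 0)) := by
        refine sum_le_sum fun u _ => ?_
        rw [← mul_sub, abs_mul]
        have hnn1 : (0 : ℝ) ≤ ∑ σ : Stp d, (if u + sv σ = v then (1 : ℝ) else 0) :=
          sum_nonneg fun _ _ => by split_ifs <;> norm_num
        have hnn2 : (0 : ℝ) ≤ ∑ τ : Stp d, ∑ ρ : Stp d, (if u + sv τ + sv ρ = v then (1 : ℝ) else 0) :=
          sum_nonneg fun _ _ => sum_nonneg fun _ _ => by split_ifs <;> norm_num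
        have hnn0 : (0 : ℝ) ≤ (if u = v then (1 : ℝ) else 0) := by split_ifs <;> norm_num
        have hG : |GF ε i j c c' (Function.update h v γ) u - GF ε i j c c' h u| ≤ 4 * CW ε := by
          have g1 := abs_le.1 (GF_bound hε hq ha i j hij c c' (Function.update h v γ) u)
          have g2 := abs_le.1 (GF_bound hε hq ha i j hij c c' h u)
          rw [abs_le]
          constructor <;> linarith [g1.1, g1.2, g2.1, g2.2]
        have hmain : |GF ε i j c c' (Function.update h v γ) u - GF ε i j c c' h u| ≤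
            4 * CW ε * ((if u = v then (1 : ℝ) else 0) + ∑ σ : Stp d, (if u + sv σ = v then (1 : ℝ) else 0) +
              ∑ τ : Stp d, ∑ ρ : Stp d, (if u + sv τ + sv ρ = v then (1 : ℝ) else 0)) := by
          by_cases h0 : u = v
          · refine hG.trans ?_
            rw [if_pos h0]
            nlinarith
          by_cases h1 : ∀ σ : Stp d, u + sv σ ≠ v
          swap
          · push Not at h1
            obtain ⟨σ, hσ⟩ := h1
            refine hG.trans ?_
            have h3 : (1 : ℝ) ≤ ∑ σ : Stp d, (if u + sv σ = v then (1 : ℝ) else 0) := by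
              have := single_le_sum (f := fun σ : Stp d => (if u + sv σ = v then (1 : ℝ) else 0))
                (fun _ _ => by split_ifs <;> norm_num) (mem_univ σ)
              simpa [hσ] using this
            nlinarith
          by_cases h2 : ∀ τ ρ : Stp d, u + sv τ + sv ρ ≠ v
          swap
          · push Not at h2
            obtain ⟨τ, ρ, hτ⟩ := h2
            refine hG.trans ?_
            have h3 : (1 : ℝ) ≤ ∑ ρ : Stp d, (if u + sv τ + sv ρ = v then (1 : ℝ) else 0) := by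
              have := single_le_sum (f := fun ρ : Stp d => (if u + sv τ + sv ρ = v then (1 : ℝ) else 0))
                (fun _ _ => by split_ifs <;> norm_num) (mem_univ ρ)
              simpa [hτ] using this
            have h4 : ∑ ρ : Stp d, (if u + sv τ + sv ρ = v then (1 : ℝ) else 0) ≤
                ∑ τ : Stp d, ∑ ρ : Stp d, (if u + sv τ + sv ρ = v then (1 : ℝ) else 0) :=
              single_le_sum (f := fun τ : Stp d => ∑ ρ : Stp d, (if u + sv τ + sv ρ = v then (1 : ℝ) else 0))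
                (fun _ _ => sum_nonneg fun _ _ => by split_ifs <;> norm_num) (mem_univ τ)
            nlinarith
          rw [R3_loc ε i j c c' h u v γ h0 h1 h2, sub_self, abs_zero]
          positivity
        calc |w u| * |GF ε i j c c' (Function.update h v γ) u - GF ε i j c c' h u|
            ≤ 1 * |GF ε i j c c' (Function.update h v γ) u - GF ε i j c c' h u| :=
              mul_le_mul_of_nonneg_right (hw u) (abs_nonneg _)
          _ ≤ _ := by
              rw [one_mul]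
              exact hmain
    _ ≤ ∑ u : Site d k, 4 * CW ε * ((if u = v then (1 : ℝ) else 0) + ∑ σ : Stp d, (if u + sv σ = v then (1 : ℝ) else 0) +
          ∑ τ : Stp d, ∑ ρ : Stp d, (if u + sv τ + sv ρ = v then (1 : ℝ) else 0)) :=
        sum_le_sum_of_subset_of_nonneg (subset_univ _) fun u _ _ => by
          have hnn1 : (0 : ℝ) ≤ ∑ σ : Stp d, (if u + sv σ = v then (1 : ℝ) else 0) :=
            sum_nonneg fun _ _ => by split_ifs <;> norm_num
          have hnn2 : (0 : ℝ) ≤ ∑ τ : Stp d, ∑ ρ : Stp d, (if u + sv τ + sv ρ = v then (1 : ℝ) else 0) :=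
            sum_nonneg fun _ _ => sum_nonneg fun _ _ => by split_ifs <;> norm_num
          have hnn0 : (0 : ℝ) ≤ (if u = v then (1 : ℝ) else 0) := by split_ifs <;> norm_num
          positivity
    _ = 4 * CW ε * (1 + 2 * d + (2 * d) * (2 * d)) := by
        rw [← mul_sum, sum_add_distrib, sum_add_distrib]
        have e0 : ∑ u : Site d k, (if u = v then (1 : ℝ) else 0) = 1 := by
          rw [sum_ite_eq' univ v fun _ => (1 : ℝ), if_pos (mem_univ _)]
        have hcard : (Fintype.card (Stp d) : ℝ) = 2 * d := by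
          rw [Fintype.card_prod, Fintype.card_fin, Fintype.card_bool]
          push_cast
          ring
        have e1 : ∑ u : Site d k, ∑ σ : Stp d, (if u + sv σ = v then (1 : ℝ) else 0) = 2 * d := by
          rw [sum_comm, ← hcard, ← Finset.card_univ, ← nsmul_one, ← sum_const]
          refine sum_congr rfl fun σ _ => ?_
          have h3 : ∀ u : Site d k, (u + sv σ = v) ↔ u = v - sv σ := fun u => eq_sub_iff_add_eq.symm
          simp_rw [h3]
          rw [sum_ite_eq' univ (v - sv σ) fun _ => (1 : ℝ), if_pos (mem_univ _)]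
        have e2 : ∑ u : Site d k, ∑ τ : Stp d, ∑ ρ : Stp d, (if u + sv τ + sv ρ = v then (1 : ℝ) else 0) =
            (2 * d) * (2 * d) := by
          rw [sum_comm]
          have e3 : ∀ τ : Stp d, ∑ u : Site d k, ∑ ρ : Stp d, (if u + sv τ + sv ρ = v then (1 : ℝ) else 0) = 2 * d := by
            intro τ
            rw [← e1]
            exact Fintype.sum_equiv (Equiv.addRight (sv τ)) _ _ fun u => rfl
          rw [sum_congr rfl fun τ _ => e3 τ, sum_const, Finset.card_univ, nsmul_eq_mul, hcard]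
        rw [e0, e1, e2]

private theorem R3_mean {ε : ℝ} (hε : 0 < ε) {d k q : ℕ} (hk : 2 ≤ k) (hq : 8 / c1 ε ≤ q) (ha : ra d q ≤ A0 ε)
    (i j : Fin d) (hij : i ≠ j) (c c' : Fin q) (hc : c ≠ c') (b : Bool) (w : Site d k → ℝ) {f : Site d k → Fin q}
    (hf : Prp f) :
    fm b (fun h => ∑ u ∈ cls b d k, w u * GF ε i j c c' h u) f ≤ CW ε *
      (8 / (c1 ε * q ^ 2) * (∑ u ∈ cls b d k, |w u| * (nP i j c f u : ℝ) + ∑ u ∈ cls b d k, |w u| * (nP i j c' f u : ℝ)) +
        6 / q * (∑ u ∈ cls b d k, |w u| * (if 2 ≤ nP i j c f u then (1 : ℝ) else 0) +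
          ∑ u ∈ cls b d k, |w u| * (if 2 ≤ nP i j c' f u then (1 : ℝ) else 0))) := by
  classical
  rw [fm_sum]
  have h1 : ∀ u ∈ cls b d k, fm b (fun h => w u * GF ε i j c c' h u) f ≤ CW ε *
      (8 / (c1 ε * q ^ 2) * (|w u| * (nP i j c f u : ℝ) + |w u| * (nP i j c' f u : ℝ)) +
        6 / q * (|w u| * (if 2 ≤ nP i j c f u then (1 : ℝ) else 0) +
          |w u| * (if 2 ≤ nP i j c' f u then (1 : ℝ) else 0))) := by
    intro u hu
    rw [fm_mul]
    refine (le_abs_self _).trans ?_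
    rw [abs_mul]
    have h2 := GF_mean hε hk hq ha i j hij c c' hc b hf u hu
    calc |w u| * |fm b (fun h => GF ε i j c c' h u) f|
        ≤ |w u| * (CW ε * (8 / (c1 ε * q ^ 2) * ((nP i j c f u : ℝ) + nP i j c' f u) +
        6 / q * ((if 2 ≤ nP i j c f u then (1 : ℝ) else 0) + (if 2 ≤ nP i j c' f u then (1 : ℝ) else 0)))) :=
          mul_le_mul_of_nonneg_left h2 (abs_nonneg _)
      _ = _ := by ring
  refine (sum_le_sum h1).trans (le_of_eq ?_)
  rw [← mul_sum, sum_add_distrib, ← mul_sum, ← mul_sum, sum_add_distrib, sum_add_distrib]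

private theorem R3_fin {N d q C e : ℝ} (hN : 0 < N) (hd : 2 ≤ d) (hC : 0 < C) (he : 0 < e) (hq : 0 < q)
    (hq1 : 8 / e ≤ q) (hq2 : 14 * C ≤ q) (K : ℕ) {W F M S1 S2 T1 T2 : ℝ}
    (h1 : F ≤ M + N / d ^ (K + 1)) (h2 : M ≤ C * (8 / (e * q ^ 2) * (S1 + S2) + 6 / q * (T1 + T2)))
    (hS1 : S1 ≤ 4 / (e * q) * W + N / d ^ (K + 1)) (hS2 : S2 ≤ 4 / (e * q) * W + N / d ^ (K + 1))
    (hT1 : T1 ≤ 6 / (e * q) ^ 2 * W + N / d ^ (K + 1)) (hT2 : T2 ≤ 6 / (e * q) ^ 2 * W + N / d ^ (K + 1)) :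
    F ≤ 136 * C / e ^ 2 / q ^ 3 * W + N / d ^ K := by
  have hx : 0 < N / d ^ (K + 1) := by
    have : (0 : ℝ) < d := by linarith
    positivity
  have h4 : 2 * (N / d ^ (K + 1)) ≤ N / d ^ K := by
    have h5 : N / d ^ (K + 1) = (N / d ^ K) / d := by
      rw [pow_succ, div_mul_eq_div_div]
    have h6 : 0 < N / d ^ K := by
      have : (0 : ℝ) < d := by linarith
      positivity
    rw [h5, mul_div_assoc', div_le_iff₀ (by linarith)]
    nlinarith
  obtain ⟨x, hx'⟩ : ∃ x, x = N / d ^ (K + 1) := ⟨_, rfl⟩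
  rw [← hx'] at h1 hS1 hS2 hT1 hT2 hx h4
  have h7 : M ≤ C * (8 / (e * q ^ 2) * (2 * (4 / (e * q) * W + x)) + 6 / q * (2 * (6 / (e * q) ^ 2 * W + x))) := by
    refine h2.trans (mul_le_mul_of_nonneg_left ?_ hC.le)
    refine add_le_add (mul_le_mul_of_nonneg_left ?_ (by positivity)) (mul_le_mul_of_nonneg_left ?_ (by positivity)) <;>
      linarith
  have h8 : C * (8 / (e * q ^ 2) * (2 * (4 / (e * q) * W + x)) + 6 / q * (2 * (6 / (e * q) ^ 2 * W + x))) =
      136 * C / e ^ 2 / q ^ 3 * W + C * (16 / (e * q ^ 2) + 12 / q) * x := by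
    field_simp
    ring
  have h9 : C * (16 / (e * q ^ 2) + 12 / q) ≤ 1 := by
    have h10 : 16 / (e * q ^ 2) ≤ 2 / q := by
      rw [div_le_div_iff₀ (by positivity) hq]
      rw [div_le_iff₀ he] at hq1
      nlinarith [mul_pos he hq]
    have h11 : C * (16 / (e * q ^ 2) + 12 / q) ≤ C * (14 / q) := by
      refine mul_le_mul_of_nonneg_left ?_ hC.le
      have : (14 : ℝ) / q = 2 / q + 12 / q := by rw [← add_div]; norm_num
      linarith
    refine h11.trans ?_
    rw [mul_div_assoc', div_le_one hq]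
    linarith
  have h12 : C * (16 / (e * q ^ 2) + 12 / q) * x ≤ 1 * x := mul_le_mul_of_nonneg_right h9 hx.le
  linarith

private theorem R3_half {ε : ℝ} (hε : 0 < ε) (hε1 : ε ≤ 1) (K : ℕ) : WOPi ε Ix fun d k q p f => okx p →
    ∑ u ∈ cls p.1 d k, p.2.2.2 u * GF ε p.2.1.1 p.2.1.2 p.2.2.1.1 p.2.2.1.2 f u ≤
      C2 ε / (q : ℝ) ^ 3 * Wt p.1 p.2.2.2 + NN d k / (d : ℝ) ^ K := by
  have hCW := R3_CW ε
  have hc1 := R3_c1 ε
  have hT := WOPi_tail hε hε1 Ix (fun _ _ _ p => p.1) (fun _ _ _ p => okx p)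
    (fun d k q p f => ∑ u ∈ cls p.1 d k, p.2.2.2 u * GF ε p.2.1.1 p.2.1.2 p.2.2.1.1 p.2.2.1.2 f u) 4 (K + 1)
    ((EvT_reg hε hε1 (28 * CW ε + 4 / c1 ε + 1)).mono fun d k q hr p hok f hf h hh v hv γ hγ => by
      have hpos : 0 < 4 / c1 ε := by positivity
      have hq : 4 / c1 ε ≤ q := by linarith [hr.2.1]
      have ha : ra d q ≤ A0 ε := hr.2.2.2.2.2.2.1
      have h1 := R3_lip hε hq ha p.2.1.1 p.2.1.2 hok.1 p.2.2.1.1 p.2.2.1.2 p.1 p.2.2.2 hok.2.2
        f hf h hh v hv γ hγ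
      refine h1.trans ?_
      have hd1 : (1 : ℝ) ≤ d := by linarith [hr.1]
      have hd2 : 28 * CW ε ≤ (d : ℝ) := by linarith [hr.1]
      have hd3 : (d : ℝ) ≤ (d : ℝ) ^ 2 := by nlinarith
      have hd4 : (1 : ℝ) ≤ (d : ℝ) ^ 2 := by nlinarith
      have h5 : 4 * CW ε * (1 + 2 * (d : ℝ) + (2 * d) * (2 * d)) ≤ 4 * CW ε * (7 * (d : ℝ) ^ 2) := by
        refine mul_le_mul_of_nonneg_left ?_ (by positivity)
        nlinarith
      refine h5.trans ?_
      have h6 : (d : ℝ) ^ 4 = (d : ℝ) ^ 2 * (d : ℝ) ^ 2 := by ring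
      rw [h6]
      have h7 : 28 * CW ε ≤ (d : ℝ) ^ 2 := hd2.trans hd3
      nlinarith)
  have hS := nP_sum hε hε1 (K + 1)
  have hS' := hS.comap (ι' := Ix) fun _ _ _ p => (p.1, p.2.1, (p.2.2.1.2, p.2.2.1.1), p.2.2.2)
  have hR := nP2_sum hε hε1 (K + 1)
  have hR' := hR.comap (ι' := Ix) fun _ _ _ p => (p.1, p.2.1, (p.2.2.1.2, p.2.2.1.1), p.2.2.2)
  refine ((hT.and (hS.and hS')).and (hR.and hR')).mono
    ((EvT_reg hε hε1 (14 * CW ε + 8 / c1 ε + 2)).mono fun d k q hr p f hf hP hok => ?_)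
  have hpos : 0 < 8 / c1 ε := by positivity
  have hd : (2 : ℝ) ≤ d := by linarith [hr.1]
  have hq1 : 8 / c1 ε ≤ q := by linarith [hr.2.1]
  have hq2 : 14 * CW ε ≤ q := by linarith [hr.2.1]
  have hq3 : (0 : ℝ) < q := by linarith
  have hk : 2 ≤ k := by
    have : (2 : ℝ) ≤ k := by linarith [hr.2.2.1]
    exact_mod_cast this
  have ha : ra d q ≤ A0 ε := hr.2.2.2.2.2.2.1
  have hok' : okx ((p.1, p.2.1, (p.2.2.1.2, p.2.2.1.1), p.2.2.2) : Ix d k q) := ⟨hok.1, hok.2.1.symm, hok.2.2⟩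
  obtain ⟨⟨hA, hB, hC⟩, hD, hE⟩ := hP
  exact R3_fin (R3_NN d k) hd hCW hc1 hq3 hq1 hq2 K (hA hok)
    (R3_mean hε hk hq1 ha p.2.1.1 p.2.1.2 hok.1 p.2.2.1.1 p.2.2.1.2 hok.2.1 p.1 p.2.2.2 (R3_prp hf))
    (hB hok) (hC hok') (hD hok) (hE hok')

/-- the sum rule -/
theorem sum_rule {ε : ℝ} (hε : 0 < ε) (hε1 : ε ≤ 1) (K : ℕ) : WOPi ε Ix fun d k q p f => okx p →
    |∑ u ∈ cls p.1 d k, p.2.2.2 u * GF ε p.2.1.1 p.2.1.2 p.2.2.1.1 p.2.2.1.2 f u| ≤
      C2 ε / (q : ℝ) ^ 3 * Wt p.1 p.2.2.2 + NN d k / (d : ℝ) ^ K := by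
  have h1 := R3_half hε hε1 K
  have h2 := h1.comap (ι' := Ix) fun _ _ _ p => (p.1, p.2.1, p.2.2.1, fun x => -p.2.2.2 x)
  refine (h1.and h2).mono ((EvT_reg hε hε1 0).mono fun d k q _ p f _ hP hok => ?_)
  obtain ⟨hA, hB⟩ := hP
  have hok' : okx ((p.1, p.2.1, p.2.2.1, fun x => -p.2.2.2 x) : Ix d k q) :=
    ⟨hok.1, hok.2.1, fun x => by
      show |(-p.2.2.2 x)| ≤ 1
      rw [abs_neg]
      exact hok.2.2 x⟩
  have hA' := hA hok
  have hB' := hB hok'
  have hW : Wt p.1 (fun x => -p.2.2.2 x) = Wt p.1 p.2.2.2 := by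
    unfold Wt
    exact sum_congr rfl fun u _ => abs_neg _
  have hB'' : -(∑ u ∈ cls p.1 d k, p.2.2.2 u * GF ε p.2.1.1 p.2.1.2 p.2.2.1.1 p.2.2.1.2 f u) ≤
      C2 ε / (q : ℝ) ^ 3 * Wt p.1 p.2.2.2 + NN d k / (d : ℝ) ^ K := by
    rw [← hW, ← sum_neg_distrib]
    refine le_trans (le_of_eq ?_) hB'
    refine sum_congr rfl fun u _ => ?_
    show -(p.2.2.2 u * _) = -p.2.2.2 u * _
    rw [neg_mul]
  exact abs_le.2 ⟨by linarith, hA'⟩

end Pool.Agent.THR
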