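import Pool.Agent.Lib_MP_2c424f_thr.R1d

/-!
# THR R4: edge chessboard with fat spins (paper proof: R5)

`X = Yf i j k → Fin q`; the fat spin of `f` at the plane position `(x,y)` is `fat i j f x y = fun u => f (stt i j x y u)`.
`f ↦ fat` is a bijection with the functions `ZMod (2^k) × ZMod (2^k) → X` (see `E6a1_e` in LIN).
`K0 α β = 1[α, β proper in the fibre directions, α u ≠ β u for all u]` (symmetric).
`f` is proper iff `∏ over plane edges of K0 = 1` (otherwise the product is `0`).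
Kernels: for `σ = (i,true)`: `Kh x y = K0 exp (Y x y)` for `x+y` even, `K0` for odd, `Kv = K0`.  `σ = (i,false)`:
`Kh x y α β = K0 exp (Y (x+1) y β α)` for `x+y` odd (then `(x+1,y)` is even), `K0` otherwise.  Similarly for `j`.
So `Zg k Kh Kv = ∑_{f ∈ prps} exp (∑_{P even} Y_P (f_P) (f_{P+σ}))`, and `LIN.two_dim` gives the claim with
`Zh k K0 = Z`, `Zh k (K0 exp (Y_P)) = Zh k (transposed)` (`LIN.Zh_tr`)
`= ∑_{f ∈ prps} exp (∑_{P' even} ∑_{σ' ∈ pl} Y_P (f_{P'}) (f_{P'+σ'}))` (every plane edge has exactly one even end).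
There are `(2^k)²/2` even positions: each of them contributes one factor, the other `2 (2^k)² - (2^k)²/2` factors are `Z`.
-/

set_option autoImplicit false

open Finset Filter

namespace Pool.Agent.THR

open Pool.Agent.LO Pool.Agent.LIN

variable {d k q : ℕ}

/-- the fat spin at a plane position -/
def fat (i j : Fin d) (f : Site d k → Fin q) (x y : ZMod (2 ^ k)) : Yf i j k → Fin q := fun u => f (stt i j x y u.1)

/-- step in the plane: new plane position -/
def plx (i : Fin d) (σ : Stp d) (x : ZMod (2 ^ k)) : ZMod (2 ^ k) := x + (sv σ : Site d k) i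

open scoped Classical in
/-- even plane positions -/
noncomputable def evp (k : ℕ) : Finset (ZMod (2 ^ k) × ZMod (2 ^ k)) := univ.filter fun p => Even (p.1.val + p.2.val)

/-- the sum over the edges from even plane positions in the direction `σ` -/
noncomputable def EY (i j : Fin d) (σ : Stp d) (Y : (Yf i j k → Fin q) → (Yf i j k → Fin q) → ℝ)
    (f : Site d k → Fin q) (p : ZMod (2 ^ k) × ZMod (2 ^ k)) : ℝ :=
  Y (fat i j f p.1 p.2) (fat i j f (plx i σ p.1) (plx j σ p.2))

/-! ### coordinates -/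

private theorem R4_stt_i (i j : Fin d) (hij : i ≠ j) (x y : ZMod (2 ^ k)) (u : Site d k) :
    stt i j x y u i = x := by
  unfold stt
  rw [Function.update_of_ne hij, Function.update_self]

private theorem R4_stt_j (i j : Fin d) (x y : ZMod (2 ^ k)) (u : Site d k) :
    stt i j x y u j = y := by
  unfold stt
  rw [Function.update_self]

private theorem R4_stt_l (i j l : Fin d) (hi : l ≠ i) (hj : l ≠ j) (x y : ZMod (2 ^ k))
    (u : Site d k) : stt i j x y u l = u l := by
  unfold stt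
  rw [Function.update_of_ne hj, Function.update_of_ne hi]

/-- the bijection of the sites with plane positions and fibre sites -/
private def R4_e (i j : Fin d) (hij : i ≠ j) :
    (ZMod (2 ^ k) × ZMod (2 ^ k)) × Yf i j k ≃ Site d k where
  toFun q := stt i j q.1.1 q.1.2 q.2.1
  invFun s := ((s i, s j), ⟨stt i j 0 0 s, R4_stt_i i j hij 0 0 s, R4_stt_j i j 0 0 s⟩)
  left_inv := by
    rintro ⟨⟨x, y⟩, ⟨u, hu1, hu2⟩⟩
    refine Prod.ext (Prod.ext ?_ ?_) (Subtype.ext ?_)
    · exact R4_stt_i i j hij x y u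
    · exact R4_stt_j i j x y u
    · funext l
      change stt i j 0 0 (stt i j x y u) l = u l
      by_cases hj : l = j
      · subst hj; rw [R4_stt_j, hu2]
      · by_cases hi : l = i
        · subst hi; rw [R4_stt_i l j hij, hu1]
        · rw [R4_stt_l i j l hi hj, R4_stt_l i j l hi hj]
  right_inv := by
    intro s
    funext l
    change stt i j (s i) (s j) (stt i j 0 0 s) l = s l
    by_cases hj : l = j
    · subst hj; rw [R4_stt_j]
    · by_cases hi : l = i
      · subst hi; rw [R4_stt_i l j hij]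
      · rw [R4_stt_l i j l hi hj, R4_stt_l i j l hi hj]

private theorem R4_add_i (i j : Fin d) (hij : i ≠ j) (x y : ZMod (2 ^ k)) (u : Site d k) :
    stt i j x y u + sv (i, true) = stt i j (x + 1) y u := by
  funext l
  rw [Pi.add_apply]
  unfold sv
  by_cases hi : l = i
  · subst hi; rw [R4_stt_i l j hij, R4_stt_i l j hij]; simp
  · simp only [if_true]
    rw [Pi.single_eq_of_ne hi, add_zero]
    by_cases hj : l = j
    · subst hj; rw [R4_stt_j, R4_stt_j]
    · rw [R4_stt_l i j l hi hj, R4_stt_l i j l hi hj]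

private theorem R4_add_j (i j : Fin d) (hij : i ≠ j) (x y : ZMod (2 ^ k)) (u : Site d k) :
    stt i j x y u + sv (j, true) = stt i j x (y + 1) u := by
  funext l
  rw [Pi.add_apply]
  unfold sv
  by_cases hj : l = j
  · subst hj; rw [R4_stt_j, R4_stt_j]; simp
  · simp only [if_true]
    rw [Pi.single_eq_of_ne hj, add_zero]
    by_cases hi : l = i
    · subst hi; rw [R4_stt_i l j hij, R4_stt_i l j hij]
    · rw [R4_stt_l i j l hi hj, R4_stt_l i j l hi hj]

private theorem R4_add_l (i j : Fin d) (l : Fin d) (h : l ≠ i ∧ l ≠ j)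
    (x y : ZMod (2 ^ k)) (u : Yf i j k) :
    stt i j x y u.1 + sv (l, true) = stt i j x y (shf i j l u).1 := by
  funext m
  rw [Pi.add_apply]
  unfold shf
  rw [dif_pos h]
  unfold sv
  simp only [if_true]
  by_cases hj : m = j
  · subst hj; rw [R4_stt_j, R4_stt_j, Pi.single_eq_of_ne h.2.symm, add_zero]
  · by_cases hi : m = i
    · subst hi
      unfold stt
      rw [Function.update_of_ne hj, Function.update_self, Function.update_of_ne hj, Function.update_self,
        Pi.single_eq_of_ne h.1.symm, add_zero]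
    · rw [R4_stt_l i j m hi hj, R4_stt_l i j m hi hj, Pi.add_apply]

/-! ### the hard-core kernel -/

/-- proper in the fibre directions -/
private def R4_pr (i j : Fin d) (α : Yf i j k → Fin q) : Prop :=
  ∀ (u : Yf i j k) (l : Fin d), l ≠ i ∧ l ≠ j → α (shf i j l u) ≠ α u

open scoped Classical in
/-- the kernel of proper colourings -/
private noncomputable def R4_K (i j : Fin d) (α β : Yf i j k → Fin q) : ℝ :=
  if R4_pr i j α ∧ R4_pr i j β ∧ ∀ u, α u ≠ β u then 1 else 0

private theorem R4_K_symm (i j : Fin d) (α β : Yf i j k → Fin q) : R4_K i j α β = R4_K i j β α := by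
  unfold R4_K
  congr 1
  refine propext ⟨fun h => ⟨h.2.1, h.1, fun u => (h.2.2 u).symm⟩, fun h => ⟨h.2.1, h.1, fun u => (h.2.2 u).symm⟩⟩

private theorem R4_K_nonneg (i j : Fin d) (α β : Yf i j k → Fin q) : 0 ≤ R4_K i j α β := by
  unfold R4_K
  split_ifs
  · exact zero_le_one
  · exact le_refl _

private theorem R4_prp (i j : Fin d) (hij : i ≠ j) (f : Site d k → Fin q) :
    Prp f ↔ ∀ p : ZMod (2 ^ k) × ZMod (2 ^ k), R4_pr i j (fat i j f p.1 p.2) ∧
      (∀ u, fat i j f p.1 p.2 u ≠ fat i j f (p.1 + 1) p.2 u) ∧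
      (∀ u, fat i j f p.1 p.2 u ≠ fat i j f p.1 (p.2 + 1) u) := by
  constructor
  · intro h p
    refine ⟨fun u l hl => ?_, fun u => ?_, fun u => ?_⟩
    · unfold fat
      rw [← R4_add_l i j l hl]
      exact h _ _
    · unfold fat
      rw [← R4_add_i i j hij]
      exact (h _ _).symm
    · unfold fat
      rw [← R4_add_j i j hij]
      exact (h _ _).symm
  · intro h
    have key : ∀ (x : Site d k) (l : Fin d), f (x + sv (l, true)) ≠ f x := by
      intro x l
      obtain ⟨⟨p, u⟩, rfl⟩ := (R4_e i j hij).surjective x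
      change f (stt i j p.1 p.2 u.1 + sv (l, true)) ≠ f (stt i j p.1 p.2 u.1)
      by_cases hi : l = i
      · subst hi
        rw [R4_add_i l j hij]
        exact ((h p).2.1 u).symm
      · by_cases hj : l = j
        · subst hj
          rw [R4_add_j i l hij]
          exact ((h p).2.2 u).symm
        · rw [R4_add_l i j l ⟨hi, hj⟩]
          exact (h p).1 u l ⟨hi, hj⟩
    rintro x ⟨l, b⟩
    cases b
    · have h2 := key (x + sv (l, false)) l
      have h3 : x + sv (l, false) + sv (l, true) = x := by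
        rw [add_assoc]
        have := sv_opp (k := k) l false
        rw [Bool.not_false] at this
        rw [this, add_zero]
      rw [h3] at h2
      exact h2.symm
    · exact key x l

open scoped Classical in
private theorem R4_prod (i j : Fin d) (hij : i ≠ j) (f : Site d k → Fin q) :
    ∏ p : ZMod (2 ^ k) × ZMod (2 ^ k), (R4_K i j (fat i j f p.1 p.2) (fat i j f (p.1 + 1) p.2) *
      R4_K i j (fat i j f p.1 p.2) (fat i j f p.1 (p.2 + 1))) = if Prp f then 1 else 0 := by
  by_cases h : Prp f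
  · rw [if_pos h]
    rw [R4_prp i j hij] at h
    refine prod_eq_one fun p _ => ?_
    have h1 := h p
    have h2 := h (p.1 + 1, p.2)
    have h3 := h (p.1, p.2 + 1)
    unfold R4_K
    rw [if_pos ⟨h1.1, h2.1, h1.2.1⟩, if_pos ⟨h1.1, h3.1, h1.2.2⟩, one_mul]
  · rw [if_neg h]
    rw [R4_prp i j hij, not_forall] at h
    obtain ⟨p, hp⟩ := h
    refine prod_eq_zero (mem_univ p) ?_
    by_contra hc
    apply hp
    rw [mul_eq_zero, not_or] at hc
    unfold R4_K at hc
    obtain ⟨hc1, hc2⟩ := hc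
    rw [ite_eq_right_iff, Classical.not_imp] at hc1 hc2
    exact ⟨hc1.1.1, hc1.1.2.2, hc2.1.2.2⟩

/-! ### the partition function of the model with fat spins -/

open scoped Classical in
private theorem R4_Zg (i j : Fin d) (hij : i ≠ j)
    (a b : ZMod (2 ^ k) → ZMod (2 ^ k) → (Yf i j k → Fin q) → (Yf i j k → Fin q) → ℝ) :
    Zg k (fun x y α β => R4_K i j α β * Real.exp (a x y α β)) (fun x y α β => R4_K i j α β * Real.exp (b x y α β)) =
      ∑ f ∈ prps d k q, Real.exp (∑ p : ZMod (2 ^ k) × ZMod (2 ^ k),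
        (a p.1 p.2 (fat i j f p.1 p.2) (fat i j f (p.1 + 1) p.2) +
          b p.1 p.2 (fat i j f p.1 p.2) (fat i j f p.1 (p.2 + 1)))) := by
  unfold Zg
  let E : (Site d k → Fin q) ≃ (ZMod (2 ^ k) × ZMod (2 ^ k) → Yf i j k → Fin q) :=
    ((R4_e i j hij).symm.arrowCongr (Equiv.refl (Fin q))).trans (Equiv.curry _ _ _)
  rw [← E.sum_comp]
  unfold prps
  rw [sum_filter]
  refine sum_congr rfl fun f _ => ?_
  have hE : ∀ p : ZMod (2 ^ k) × ZMod (2 ^ k), E f p = fat i j f p.1 p.2 := fun p => rfl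
  have h1 : ∏ p : ZMod (2 ^ k) × ZMod (2 ^ k),
      (R4_K i j (E f p) (E f (p.1 + 1, p.2)) * Real.exp (a p.1 p.2 (E f p) (E f (p.1 + 1, p.2)))) *
        (R4_K i j (E f p) (E f (p.1, p.2 + 1)) * Real.exp (b p.1 p.2 (E f p) (E f (p.1, p.2 + 1)))) =
      (∏ p : ZMod (2 ^ k) × ZMod (2 ^ k), (R4_K i j (fat i j f p.1 p.2) (fat i j f (p.1 + 1) p.2) *
        R4_K i j (fat i j f p.1 p.2) (fat i j f p.1 (p.2 + 1)))) *
      Real.exp (∑ p : ZMod (2 ^ k) × ZMod (2 ^ k),
        (a p.1 p.2 (fat i j f p.1 p.2) (fat i j f (p.1 + 1) p.2) +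
          b p.1 p.2 (fat i j f p.1 p.2) (fat i j f p.1 (p.2 + 1)))) := by
    rw [Real.exp_sum, ← prod_mul_distrib]
    refine prod_congr rfl fun p _ => ?_
    rw [hE, hE, hE, Real.exp_add]
    ring
  rw [h1, R4_prod i j hij f]
  split_ifs
  · rw [one_mul]
  · rw [zero_mul]

/-! ### parity of plane positions, shifts -/

private theorem R4_par (hk : 1 ≤ k) (x y : ZMod (2 ^ k)) :
    Even ((x + 1).val + y.val) ↔ ¬ Even (x.val + y.val) := by
  have h0 : 1 < 2 ^ k := Nat.one_lt_two_pow (by omega)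
  have : Fact (1 < 2 ^ k) := ⟨h0⟩
  have h1 : (1 : ZMod (2 ^ k)).val = 1 := ZMod.val_one _
  have h2 : Even (2 ^ k) := (Nat.even_pow.2 ⟨even_two, by omega⟩)
  have h3 : x.val < 2 ^ k := ZMod.val_lt x
  rw [ZMod.val_add, h1]
  rcases Nat.lt_or_ge (x.val + 1) (2 ^ k) with h | h
  · rw [Nat.mod_eq_of_lt h]
    rw [show x.val + 1 + y.val = (x.val + y.val) + 1 by ring, Nat.even_add_one]
  · have he : x.val + 1 = 2 ^ k := by omega
    rw [he, Nat.mod_self, Nat.zero_add]
    rw [← he] at h2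
    rw [Nat.even_add_one] at h2
    rw [Nat.even_add]
    tauto

private theorem R4_par' (hk : 1 ≤ k) (x y : ZMod (2 ^ k)) :
    Even (x.val + (y + 1).val) ↔ ¬ Even (x.val + y.val) := by
  rw [add_comm, R4_par hk, add_comm]

private theorem R4_sh1 {β : Type*} [CommMonoid β] (G : ZMod (2 ^ k) × ZMod (2 ^ k) → β) :
    ∏ p : ZMod (2 ^ k) × ZMod (2 ^ k), G (p.1 + 1, p.2) = ∏ p, G p :=
  ((Equiv.addRight (1 : ZMod (2 ^ k))).prodCongr (Equiv.refl _)).prod_comp G

private theorem R4_sh2 {β : Type*} [CommMonoid β] (G : ZMod (2 ^ k) × ZMod (2 ^ k) → β) :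
    ∏ p : ZMod (2 ^ k) × ZMod (2 ^ k), G (p.1, p.2 + 1) = ∏ p, G p :=
  ((Equiv.refl _).prodCongr (Equiv.addRight (1 : ZMod (2 ^ k)))).prod_comp G

private theorem R4_sh1s (G : ZMod (2 ^ k) × ZMod (2 ^ k) → ℝ) :
    ∑ p : ZMod (2 ^ k) × ZMod (2 ^ k), G (p.1 + 1, p.2) = ∑ p, G p :=
  ((Equiv.addRight (1 : ZMod (2 ^ k))).prodCongr (Equiv.refl _)).sum_comp G

private theorem R4_sh2s (G : ZMod (2 ^ k) × ZMod (2 ^ k) → ℝ) :
    ∑ p : ZMod (2 ^ k) × ZMod (2 ^ k), G (p.1, p.2 + 1) = ∑ p, G p :=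
  ((Equiv.refl _).prodCongr (Equiv.addRight (1 : ZMod (2 ^ k)))).sum_comp G

open scoped Classical in
private theorem R4_ev (G : ZMod (2 ^ k) × ZMod (2 ^ k) → ℝ) :
    ∑ p : ZMod (2 ^ k) × ZMod (2 ^ k), (if Even (p.1.val + p.2.val) then G p else 0) = ∑ p ∈ evp k, G p := by
  unfold evp
  rw [sum_filter]

open scoped Classical in
private theorem R4_od1 (hk : 1 ≤ k) (G : ZMod (2 ^ k) × ZMod (2 ^ k) → ℝ) :
    ∑ p : ZMod (2 ^ k) × ZMod (2 ^ k), (if Even (p.1.val + p.2.val) then 0 else G (p.1 + 1, p.2)) =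
      ∑ p ∈ evp k, G p := by
  rw [← R4_ev, ← R4_sh1s (fun p => if Even (p.1.val + p.2.val) then G p else 0)]
  refine sum_congr rfl fun p _ => ?_
  dsimp only
  by_cases h : Even (p.1.val + p.2.val)
  · rw [if_pos h, if_neg (by rw [R4_par hk]; exact not_not.2 h)]
  · rw [if_neg h, if_pos ((R4_par hk _ _).2 h)]

open scoped Classical in
private theorem R4_od2 (hk : 1 ≤ k) (G : ZMod (2 ^ k) × ZMod (2 ^ k) → ℝ) :
    ∑ p : ZMod (2 ^ k) × ZMod (2 ^ k), (if Even (p.1.val + p.2.val) then 0 else G (p.1, p.2 + 1)) =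
      ∑ p ∈ evp k, G p := by
  rw [← R4_ev, ← R4_sh2s (fun p => if Even (p.1.val + p.2.val) then G p else 0)]
  refine sum_congr rfl fun p _ => ?_
  dsimp only
  by_cases h : Even (p.1.val + p.2.val)
  · rw [if_pos h, if_neg (by rw [R4_par' hk]; exact not_not.2 h)]
  · rw [if_neg h, if_pos ((R4_par' hk _ _).2 h)]

private theorem R4_pl (i j : Fin d) (hij : i ≠ j) (g : Stp d → ℝ) :
    ∑ τ ∈ pl i j, g τ = g (i, true) + g (i, false) + (g (j, true) + g (j, false)) := by
  classical
  have h : pl i j = {(i, true), (i, false), (j, true), (j, false)} := by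
    ext ⟨l, b⟩
    unfold pl
    cases b <;> simp
  rw [h, sum_insert, sum_insert, sum_insert, sum_singleton]
  · ring
  · simp
  · simp [hij]
  · simp [hij]

private theorem R4_plx_t (i : Fin d) (x : ZMod (2 ^ k)) : plx i (i, true) x = x + 1 := by
  simp [plx, sv]

private theorem R4_plx_f (i : Fin d) (x : ZMod (2 ^ k)) : plx i (i, false) x = x - 1 := by
  simp [plx, sv, sub_eq_add_neg]

private theorem R4_plx_o (i j : Fin d) (hij : i ≠ j) (b : Bool) (x : ZMod (2 ^ k)) : plx i (j, b) x = x := by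
  simp [plx, sv, Pi.single_eq_of_ne hij]

/-! ### the homogeneous model -/

open scoped Classical in
private theorem R4_Zh (hk : 1 ≤ k) (i j : Fin d) (hij : i ≠ j)
    (Y : (Yf i j k → Fin q) → (Yf i j k → Fin q) → ℝ) :
    Zh k (fun α β => R4_K i j α β * Real.exp (Y α β)) =
      ∑ f ∈ prps d k q, Real.exp (∑ p ∈ evp k, ∑ τ ∈ pl i j, EY i j τ Y f p) := by
  have h0 : ori k (fun α β : Yf i j k → Fin q => R4_K i j α β * Real.exp (Y α β)) =
      fun x y α β => R4_K i j α β * Real.exp (if Even (x.val + y.val) then Y α β else Y β α) := by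
    funext x y α β
    unfold ori
    split_ifs
    · rfl
    · dsimp only
      rw [R4_K_symm]
  unfold Zh
  rw [h0, R4_Zg i j hij]
  refine sum_congr rfl fun f _ => ?_
  congr 1
  rw [sum_add_distrib]
  have e1 : ∑ p : ZMod (2 ^ k) × ZMod (2 ^ k), (if Even (p.1.val + p.2.val) then
      Y (fat i j f p.1 p.2) (fat i j f (p.1 + 1) p.2) else Y (fat i j f (p.1 + 1) p.2) (fat i j f p.1 p.2)) =
      ∑ p ∈ evp k, EY i j (i, true) Y f p + ∑ p ∈ evp k, EY i j (i, false) Y f p := by
    rw [← R4_ev, ← R4_od1 hk, ← sum_add_distrib]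
    refine sum_congr rfl fun p _ => ?_
    unfold EY
    rw [R4_plx_t, R4_plx_o j i hij.symm, R4_plx_f, R4_plx_o j i hij.symm]
    split_ifs
    · rw [add_zero]
    · rw [zero_add, add_sub_cancel_right]
  have e2 : ∑ p : ZMod (2 ^ k) × ZMod (2 ^ k), (if Even (p.1.val + p.2.val) then
      Y (fat i j f p.1 p.2) (fat i j f p.1 (p.2 + 1)) else Y (fat i j f p.1 (p.2 + 1)) (fat i j f p.1 p.2)) =
      ∑ p ∈ evp k, EY i j (j, true) Y f p + ∑ p ∈ evp k, EY i j (j, false) Y f p := by
    rw [← R4_ev, ← R4_od2 hk, ← sum_add_distrib]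
    refine sum_congr rfl fun p _ => ?_
    unfold EY
    rw [R4_plx_t, R4_plx_o i j hij, R4_plx_f, R4_plx_o i j hij]
    split_ifs
    · rw [add_zero]
    · rw [zero_add, add_sub_cancel_right]
  rw [e1, e2, ← sum_add_distrib, ← sum_add_distrib, ← sum_add_distrib]
  refine sum_congr rfl fun p _ => ?_
  rw [R4_pl i j hij]

private theorem R4_Zh0 (hk : 1 ≤ k) (i j : Fin d) (hij : i ≠ j) :
    Zh k (fun α β : Yf i j k → Fin q => R4_K i j α β * Real.exp 0) = ZZ d k q := by
  rw [R4_Zh hk i j hij (fun _ _ => 0)]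
  have h : ∀ f : Site d k → Fin q,
      Real.exp (∑ p ∈ evp k, ∑ τ ∈ pl i j, EY i j τ (fun _ _ => (0 : ℝ)) f p) = 1 := by
    intro f
    have h1 : ∑ p ∈ evp k, ∑ τ ∈ pl i j, EY i j τ (fun _ _ => (0 : ℝ)) f p = 0 :=
      sum_eq_zero fun p _ => sum_eq_zero fun τ _ => rfl
    rw [h1, Real.exp_zero]
  rw [sum_congr rfl fun f _ => h f, sum_const, nsmul_eq_mul, mul_one]
  rfl

/-- the product of the homogeneous factors -/
private theorem R4_fin (Z : ℝ) (Q : ZMod (2 ^ k) × ZMod (2 ^ k) → ℝ) :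
    (∏ p : ZMod (2 ^ k) × ZMod (2 ^ k), (if Even (p.1.val + p.2.val) then Q p else Z)) *
      ∏ _p : ZMod (2 ^ k) × ZMod (2 ^ k), Z = Z ^ (2 * (2 ^ k) ^ 2 - (evp k).card) * ∏ p ∈ evp k, Q p := by
  classical
  have hc : Fintype.card (ZMod (2 ^ k) × ZMod (2 ^ k)) = (2 ^ k) ^ 2 := by
    rw [Fintype.card_prod, ZMod.card, sq]
  rw [prod_ite, prod_const, prod_const]
  have h1 : (univ.filter fun p : ZMod (2 ^ k) × ZMod (2 ^ k) => Even (p.1.val + p.2.val)) = evp k := by
    unfold evp
    exact filter_congr_decidable _ _ _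
  have h2 : (univ.filter fun p : ZMod (2 ^ k) × ZMod (2 ^ k) => ¬ Even (p.1.val + p.2.val)).card =
      (2 ^ k) ^ 2 - (evp k).card := by
    rw [← h1, ← hc, ← Finset.card_univ]
    have := Finset.card_filter_add_card_filter_not (s := (univ : Finset (ZMod (2 ^ k) × ZMod (2 ^ k))))
      (fun p : ZMod (2 ^ k) × ZMod (2 ^ k) => Even (p.1.val + p.2.val))
    omega
  have h3 : (evp k).card ≤ (2 ^ k) ^ 2 := by
    rw [← hc, ← Finset.card_univ]
    exact card_le_card (subset_univ _)
  rw [h1, h2, Finset.card_univ, hc, mul_assoc, ← pow_add, mul_comm]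
  congr 2
  omega

theorem fat_chess (hk : 1 ≤ k) (i j : Fin d) (hij : i ≠ j) (σ : Stp d) (hσ : σ ∈ pl i j)
    (Y : ZMod (2 ^ k) × ZMod (2 ^ k) → (Yf i j k → Fin q) → (Yf i j k → Fin q) → ℝ) :
    (∑ f ∈ prps d k q, Real.exp (∑ p ∈ evp k, EY i j σ (Y p) f p)) ^ (2 * (2 ^ k) ^ 2) ≤
      ((q : ℝ) ^ Fintype.card (Yf i j k)) ^ ((2 ^ k) ^ 3) * ZZ d k q ^ (2 * (2 ^ k) ^ 2 - (evp k).card) *
        ∏ p ∈ evp k, ∑ f ∈ prps d k q, Real.exp (∑ p' ∈ evp k, ∑ τ ∈ pl i j, EY i j τ (Y p) f p') := by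
  classical
  set K := R4_K (q := q) (k := k) i j with hK
  have hK0 : ∀ α β, 0 ≤ K α β := R4_K_nonneg i j
  obtain ⟨Q, hQ⟩ : ∃ Q : ZMod (2 ^ k) × ZMod (2 ^ k) → ℝ, ∀ p, Q p =
      ∑ f ∈ prps d k q, Real.exp (∑ p' ∈ evp k, ∑ τ ∈ pl i j, EY i j τ (Y p) f p') := ⟨_, fun _ => rfl⟩
  rw [prod_congr rfl fun p _ => (hQ p).symm]
  have hZh : ∀ p, Zh k (fun α β => K α β * Real.exp (Y p α β)) = Q p := fun p => by
    rw [hQ, hK, R4_Zh hk i j hij]
  have hZt : ∀ p, Zh k (fun α β => K α β * Real.exp (Y p β α)) = Q p := fun p => by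
    rw [← hZh, ← Zh_tr k hk fun α β => K α β * Real.exp (Y p α β)]
    congr 1
    funext α β
    rw [hK, R4_K_symm]
  have hZ0 : Zh k (fun α β : Yf i j k → Fin q => K α β * Real.exp 0) = ZZ d k q := R4_Zh0 hk i j hij
  have hX : (Fintype.card (Yf i j k → Fin q) : ℝ) = (q : ℝ) ^ Fintype.card (Yf i j k) := by
    rw [Fintype.card_fun, Fintype.card_fin, Nat.cast_pow]
  -- the inequality for given exponents
  have main : ∀ a b : ZMod (2 ^ k) → ZMod (2 ^ k) → (Yf i j k → Fin q) → (Yf i j k → Fin q) → ℝ,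
      (∀ f ∈ prps d k q, ∑ p : ZMod (2 ^ k) × ZMod (2 ^ k),
        (a p.1 p.2 (fat i j f p.1 p.2) (fat i j f (p.1 + 1) p.2) +
          b p.1 p.2 (fat i j f p.1 p.2) (fat i j f p.1 (p.2 + 1))) = ∑ p ∈ evp k, EY i j σ (Y p) f p) →
      (∏ p : ZMod (2 ^ k) × ZMod (2 ^ k), Zh k (fun α β => K α β * Real.exp (a p.1 p.2 α β))) *
        (∏ p : ZMod (2 ^ k) × ZMod (2 ^ k), Zh k (fun α β => K α β * Real.exp (b p.1 p.2 α β))) =
        ZZ d k q ^ (2 * (2 ^ k) ^ 2 - (evp k).card) * ∏ p ∈ evp k, Q p →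
      (∑ f ∈ prps d k q, Real.exp (∑ p ∈ evp k, EY i j σ (Y p) f p)) ^ (2 * (2 ^ k) ^ 2) ≤
        ((q : ℝ) ^ Fintype.card (Yf i j k)) ^ ((2 ^ k) ^ 3) * ZZ d k q ^ (2 * (2 ^ k) ^ 2 - (evp k).card) *
          ∏ p ∈ evp k, Q p := by
    intro a b h1 h2
    have h3 := two_dim k hk (fun x y α β => K α β * Real.exp (a x y α β))
      (fun x y α β => K α β * Real.exp (b x y α β))
      (fun x y α β => mul_nonneg (hK0 _ _) (Real.exp_nonneg _))
      (fun x y α β => mul_nonneg (hK0 _ _) (Real.exp_nonneg _))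
    rw [hK, R4_Zg i j hij a b, ← hK, sum_congr rfl fun f hf => by rw [h1 f hf], hX] at h3
    refine h3.trans (le_of_eq ?_)
    rw [mul_assoc, ← h2, ← prod_mul_distrib, Fintype.prod_prod_type]
  have hfin := R4_fin (k := k) (ZZ d k q) Q
  have hpl : σ = (i, true) ∨ σ = (i, false) ∨ σ = (j, true) ∨ σ = (j, false) := by
    obtain ⟨l, b⟩ := σ
    unfold pl at hσ
    rw [mem_filter] at hσ
    rcases hσ.2 with h | h <;> simp only at h <;> subst h <;> cases b <;> simp
  rcases hpl with rfl | rfl | rfl | rfl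
  · refine main (fun x y α β => if Even (x.val + y.val) then Y (x, y) α β else 0) (fun _ _ _ _ => 0) ?_ ?_
    · intro f _
      rw [← R4_ev]
      refine sum_congr rfl fun p _ => ?_
      unfold EY
      rw [R4_plx_t, R4_plx_o j i hij.symm, add_zero]
    · rw [← hfin]
      congr 1
      · refine prod_congr rfl fun p _ => ?_
        by_cases h : Even (p.1.val + p.2.val)
        · simp only [if_pos h]
          exact hZh p
        · simp only [if_neg h]
          exact hZ0
      · exact prod_congr rfl fun p _ => hZ0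
  · refine main (fun x y α β => if Even (x.val + y.val) then 0 else Y (x + 1, y) β α) (fun _ _ _ _ => 0) ?_ ?_
    · intro f _
      rw [← R4_od1 hk]
      refine sum_congr rfl fun p _ => ?_
      unfold EY
      rw [R4_plx_f, R4_plx_o j i hij.symm, add_zero]
      dsimp only
      rw [add_sub_cancel_right]
    · rw [← hfin, ← R4_sh1 (fun p => if Even (p.1.val + p.2.val) then Q p else ZZ d k q)]
      congr 1
      · refine prod_congr rfl fun p _ => ?_
        by_cases h : Even (p.1.val + p.2.val)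
        · simp only [if_pos h]
          rw [if_neg (by rw [R4_par hk]; exact not_not.2 h)]
          exact hZ0
        · simp only [if_neg h]
          rw [if_pos ((R4_par hk _ _).2 h)]
          exact hZt _
      · exact prod_congr rfl fun p _ => hZ0
  · refine main (fun _ _ _ _ => 0) (fun x y α β => if Even (x.val + y.val) then Y (x, y) α β else 0) ?_ ?_
    · intro f _
      rw [← R4_ev]
      refine sum_congr rfl fun p _ => ?_
      unfold EY
      rw [R4_plx_t, R4_plx_o i j hij, zero_add]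
    · rw [← hfin, mul_comm]
      congr 1
      · refine prod_congr rfl fun p _ => ?_
        by_cases h : Even (p.1.val + p.2.val)
        · simp only [if_pos h]
          exact hZh p
        · simp only [if_neg h]
          exact hZ0
      · exact prod_congr rfl fun p _ => hZ0
  · refine main (fun _ _ _ _ => 0) (fun x y α β => if Even (x.val + y.val) then 0 else Y (x, y + 1) β α) ?_ ?_
    · intro f _
      rw [← R4_od2 hk]
      refine sum_congr rfl fun p _ => ?_
      unfold EY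
      rw [R4_plx_f, R4_plx_o i j hij, zero_add]
      dsimp only
      rw [add_sub_cancel_right]
    · rw [← hfin, ← R4_sh2 (fun p => if Even (p.1.val + p.2.val) then Q p else ZZ d k q), mul_comm]
      congr 1
      · refine prod_congr rfl fun p _ => ?_
        by_cases h : Even (p.1.val + p.2.val)
        · simp only [if_pos h]
          rw [if_neg (by rw [R4_par' hk]; exact not_not.2 h)]
          exact hZ0
        · simp only [if_neg h]
          rw [if_pos ((R4_par' hk _ _).2 h)]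
          exact hZt _
      · exact prod_congr rfl fun p _ => hZ0

end Pool.Agent.THR
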