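import Pool.Agent.Lib_MP_2c424f_thr.R4

/-!
# THR R5: exponential moments of `∑ w TF` (paper proof: R6, first half)

`fat_chess` with `Y p α β = l ∑_{u : Yf, stt p u ∈ cls b} w (stt p u) (VF(ext α) u ((1/q) sg β u + aF(ext α) u/(4q) sg α u))`, where
`ext α x = α (x with the coordinates i, j set to 0)`; by `VF_fat` (and `VF_transl`, or directly) the weights at `stt i j p.1 p.2 u` of a colouring `f` with
fat spin `α` at `p` are those of `ext α`.  Then `EY i j σ (Y p) f p = l ∑_{u over p} w_u TF_u`, and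
`∑_{τ ∈ pl} EY i j τ (Y p) f p' = l ∑_{v over p', v ∈ cls b} w (stt p v) GF_v` (`TF_sum`).
A site `v` over an even position `p'` and the site `stt i j p.1 p.2 v` over the even position `p` are in the same class.
-/

set_option autoImplicit false

open Finset Filter

namespace Pool.Agent.THR

open Pool.Agent.LO Pool.Agent.LIN

variable {d k q : ℕ}

/-! ## Coordinates -/

private theorem R5_stt_i (i j : Fin d) (hij : i ≠ j) (x y : ZMod (2 ^ k)) (u : Site d k) :
    stt i j x y u i = x := by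
  unfold stt
  rw [Function.update_of_ne hij, Function.update_self]

private theorem R5_stt_j (i j : Fin d) (x y : ZMod (2 ^ k)) (u : Site d k) :
    stt i j x y u j = y := by
  unfold stt
  rw [Function.update_self]

private theorem R5_stt_l (i j l : Fin d) (hi : l ≠ i) (hj : l ≠ j) (x y : ZMod (2 ^ k))
    (u : Site d k) : stt i j x y u l = u l := by
  unfold stt
  rw [Function.update_of_ne hj, Function.update_of_ne hi]

private theorem R5_stt_stt (i j : Fin d) (hij : i ≠ j) (x y x' y' : ZMod (2 ^ k)) (u : Site d k) :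
    stt i j x y (stt i j x' y' u) = stt i j x y u := by
  funext l
  by_cases hj : l = j
  · subst hj; rw [R5_stt_j, R5_stt_j]
  · by_cases hi : l = i
    · subst hi; rw [R5_stt_i l j hij, R5_stt_i l j hij]
    · rw [R5_stt_l i j l hi hj, R5_stt_l i j l hi hj, R5_stt_l i j l hi hj]

/-- the bijection -/
private def R5_e (i j : Fin d) (hij : i ≠ j) :
    (ZMod (2 ^ k) × ZMod (2 ^ k)) × Yf i j k ≃ Site d k where
  toFun q := stt i j q.1.1 q.1.2 q.2.1
  invFun s := ((s i, s j), ⟨stt i j 0 0 s, R5_stt_i i j hij 0 0 s, R5_stt_j i j 0 0 s⟩)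
  left_inv := by
    rintro ⟨⟨x, y⟩, ⟨u, hu1, hu2⟩⟩
    refine Prod.ext (Prod.ext ?_ ?_) (Subtype.ext ?_)
    · exact R5_stt_i i j hij x y u
    · exact R5_stt_j i j x y u
    · funext l
      change stt i j 0 0 (stt i j x y u) l = u l
      by_cases hj : l = j
      · subst hj; rw [R5_stt_j, hu2]
      · by_cases hi : l = i
        · subst hi; rw [R5_stt_i l j hij, hu1]
        · rw [R5_stt_l i j l hi hj, R5_stt_l i j l hi hj]
  right_inv := by
    intro s
    funext l
    change stt i j (s i) (s j) (stt i j 0 0 s) l = s l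
    by_cases hj : l = j
    · subst hj; rw [R5_stt_j]
    · by_cases hi : l = i
      · subst hi; rw [R5_stt_i l j hij]
      · rw [R5_stt_l i j l hi hj, R5_stt_l i j l hi hj]

/-- parity of a site over an even plane position -/
private theorem R5_evn (i j : Fin d) (hij : i ≠ j) (p : ZMod (2 ^ k) × ZMod (2 ^ k)) (u : Site d k)
    (hp : Even (p.1.val + p.2.val)) :
    evn (stt i j p.1 p.2 u) ↔ Even (∑ l ∈ (univ.erase i).erase j, (u l).val) := by
  classical
  have hj : j ∈ univ.erase i := mem_erase.2 ⟨hij.symm, mem_univ j⟩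
  have h : ∑ l, (stt i j p.1 p.2 u l).val =
      (p.1.val + p.2.val) + ∑ l ∈ (univ.erase i).erase j, (u l).val := by
    rw [← add_sum_erase univ _ (mem_univ i), ← add_sum_erase _ _ hj, ← add_assoc]
    congr 1
    · rw [R5_stt_i i j hij, R5_stt_j]
    · refine sum_congr rfl fun l hl => ?_
      rw [mem_erase, mem_erase] at hl
      rw [R5_stt_l i j l hl.2.1 hl.1]
  unfold evn
  rw [h, Nat.even_add]
  exact ⟨fun h => h.1 hp, fun h => ⟨fun _ => h, fun _ => hp⟩⟩

private theorem R5_cls (i j : Fin d) (hij : i ≠ j) (b : Bool) (p p' : ZMod (2 ^ k) × ZMod (2 ^ k))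
    (u : Site d k) (hp : p ∈ evp k) (hp' : p' ∈ evp k) :
    stt i j p.1 p.2 u ∈ cls b d k ↔ stt i j p'.1 p'.2 u ∈ cls b d k := by
  classical
  unfold evp at hp hp'
  rw [mem_filter] at hp hp'
  have h : evn (stt i j p.1 p.2 u) ↔ evn (stt i j p'.1 p'.2 u) := by
    rw [R5_evn i j hij p u hp.2, R5_evn i j hij p' u hp'.2]
  unfold cls
  cases b
  · simp only [Bool.false_eq_true, if_false, ods, mem_filter, mem_univ, true_and]
    rw [h]
  · simp only [if_true, evs, mem_filter, mem_univ, true_and]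
    exact h

open scoped Classical in
/-- sums over the even positions -/
private theorem R5_sum (i j : Fin d) (hij : i ≠ j) (b : Bool) (F : Site d k → ℝ) :
    ∑ v ∈ cls b d k, (if pev i j v then F v else 0) =
      ∑ p ∈ evp k, ∑ u : Yf i j k,
        if stt i j p.1 p.2 u.1 ∈ cls b d k then F (stt i j p.1 p.2 u.1) else 0 := by
  have h1 : ∑ v ∈ cls b d k, (if pev i j v then F v else 0) =
      ∑ v : Site d k, if v ∈ cls b d k then (if pev i j v then F v else 0) else 0 := by
    rw [sum_ite_mem, univ_inter]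
  rw [h1, ← (R5_e (k := k) i j hij).sum_comp, Fintype.sum_prod_type]
  unfold evp
  rw [sum_filter]
  refine sum_congr rfl fun p _ => ?_
  by_cases hp : Even (p.1.val + p.2.val)
  · rw [if_pos hp]
    refine sum_congr rfl fun u _ => ?_
    change (if stt i j p.1 p.2 u.1 ∈ cls b d k then
      (if pev i j (stt i j p.1 p.2 u.1) then F (stt i j p.1 p.2 u.1) else 0) else 0) = _
    have hpe : pev i j (stt i j p.1 p.2 u.1) := by
      unfold pev
      rw [R5_stt_i i j hij, R5_stt_j]
      exact hp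
    rw [if_pos hpe]
  · rw [if_neg hp]
    refine sum_eq_zero fun u _ => ?_
    change (if stt i j p.1 p.2 u.1 ∈ cls b d k then
      (if pev i j (stt i j p.1 p.2 u.1) then F (stt i j p.1 p.2 u.1) else 0) else 0) = _
    have hpe : ¬ pev i j (stt i j p.1 p.2 u.1) := by
      unfold pev
      rw [R5_stt_i i j hij, R5_stt_j]
      exact hp
    rw [if_neg hpe, ite_self]

private theorem R5_card (hk : 1 ≤ k) : ((evp k).card : ℝ) = (2 ^ k) ^ 2 / 2 := by
  classical
  have h1 : ∑ p : ZMod (2 ^ k) × ZMod (2 ^ k), (if Even (p.1.val + p.2.val) then (1 : ℝ) else 0) =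
      (evp k).card := by
    unfold evp
    rw [sum_ite, sum_const_zero, add_zero, sum_const, nsmul_eq_mul, mul_one]
  have h2 : ∑ p : ZMod (2 ^ k) × ZMod (2 ^ k), (if Even (p.1.val + p.2.val) then (1 : ℝ) else 0) =
      ∑ p : ZMod (2 ^ k) × ZMod (2 ^ k), (if Even (p.1.val + p.2.val) then (0 : ℝ) else 1) := by
    rw [← ((Equiv.addRight (1 : ZMod (2 ^ k))).prodCongr (Equiv.refl _)).sum_comp
      (fun p : ZMod (2 ^ k) × ZMod (2 ^ k) => if Even (p.1.val + p.2.val) then (1 : ℝ) else 0)]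
    refine sum_congr rfl fun p _ => ?_
    change (if Even ((p.1 + 1).val + p.2.val) then (1 : ℝ) else 0) = _
    have h3 : Even ((p.1 + 1).val + p.2.val) ↔ ¬ Even (p.1.val + p.2.val) := by
      rw [Nat.even_add, Nat.even_add, E7_even hk]
      tauto
    by_cases h : Even (p.1.val + p.2.val)
    · rw [if_neg (fun h' => (h3.1 h') h), if_pos h]
    · rw [if_pos (h3.2 h), if_neg h]
  have h4 : ∑ p : ZMod (2 ^ k) × ZMod (2 ^ k), (if Even (p.1.val + p.2.val) then (1 : ℝ) else 0) +
      ∑ p : ZMod (2 ^ k) × ZMod (2 ^ k), (if Even (p.1.val + p.2.val) then (0 : ℝ) else 1) =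
      (2 ^ k) ^ 2 := by
    rw [← sum_add_distrib]
    have h5 : ∀ p : ZMod (2 ^ k) × ZMod (2 ^ k), (if Even (p.1.val + p.2.val) then (1 : ℝ) else 0) +
        (if Even (p.1.val + p.2.val) then (0 : ℝ) else 1) = 1 := by
      intro p
      split_ifs <;> norm_num
    rw [sum_congr rfl fun p _ => h5 p, sum_const, card_univ, Fintype.card_prod, ZMod.card]
    simp
    ring
  rw [← h2, h1] at h4
  linarith

/-! ## Weights -/

open scoped Classical in
/-- the weights over the plane position `p`, copied to all even plane positions -/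
noncomputable def wP (i j : Fin d) (w : Site d k → ℝ) (p : ZMod (2 ^ k) × ZMod (2 ^ k)) (v : Site d k) : ℝ :=
  if pev i j v then w (stt i j p.1 p.2 v) else 0

/-- total weights -/
theorem wP_sum (hk : 1 ≤ k) (i j : Fin d) (hij : i ≠ j) (b : Bool) (w : Site d k → ℝ)
    (hw : ∀ x, ¬ pev i j x → w x = 0) :
    ∑ p ∈ evp k, Wt b (wP i j w p) = (2 ^ k) ^ 2 / 2 * Wt b w ∧ ((evp k).card : ℝ) = (2 ^ k) ^ 2 / 2 := by
  classical
  refine ⟨?_, R5_card hk⟩
  have h1 : Wt b w = ∑ p ∈ evp k, ∑ u : Yf i j k,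
        if stt i j p.1 p.2 u.1 ∈ cls b d k then |w (stt i j p.1 p.2 u.1)| else 0 := by
    rw [← R5_sum i j hij b (fun v => |w v|)]
    unfold Wt
    refine sum_congr rfl fun v _ => ?_
    by_cases hv : pev i j v
    · rw [if_pos hv]
    · rw [if_neg hv, hw v hv, abs_zero]
  have h2 : ∀ p ∈ evp k, Wt b (wP i j w p) = ((evp k).card : ℝ) * ∑ u : Yf i j k,
        if stt i j p.1 p.2 u.1 ∈ cls b d k then |w (stt i j p.1 p.2 u.1)| else 0 := by
    intro p hp
    have h3 : Wt b (wP i j w p) =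
        ∑ v ∈ cls b d k, (if pev i j v then |w (stt i j p.1 p.2 v)| else 0) := by
      unfold Wt wP
      refine sum_congr rfl fun v _ => ?_
      by_cases hv : pev i j v
      · rw [if_pos hv, if_pos hv]
      · rw [if_neg hv, if_neg hv, abs_zero]
    rw [h3, R5_sum i j hij b (fun v => |w (stt i j p.1 p.2 v)|)]
    rw [← nsmul_eq_mul, ← sum_const]
    refine sum_congr rfl fun p' hp' => sum_congr rfl fun u _ => ?_
    rw [R5_stt_stt i j hij]
    by_cases h : stt i j p.1 p.2 u.1 ∈ cls b d k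
    · rw [if_pos h, if_pos ((R5_cls i j hij b p p' u.1 hp hp').1 h)]
    · rw [if_neg h, if_neg (fun h' => h ((R5_cls i j hij b p p' u.1 hp hp').2 h'))]
  rw [sum_congr rfl h2, ← mul_sum, ← h1, R5_card hk]

/-! ## Kernels -/

/-- a fat spin, copied to all plane positions -/
private def R5_ext (i j : Fin d) (hij : i ≠ j) (α : Yf i j k → Fin q) (x : Site d k) : Fin q :=
  α ⟨stt i j 0 0 x, R5_stt_i i j hij 0 0 x, R5_stt_j i j 0 0 x⟩

open scoped Classical in
private noncomputable def R5_Y (ε l : ℝ) (i j : Fin d) (hij : i ≠ j) (c c' : Fin q) (b : Bool)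
    (w : Site d k → ℝ) (p : ZMod (2 ^ k) × ZMod (2 ^ k)) (α β : Yf i j k → Fin q) : ℝ :=
  l * ∑ u : Yf i j k, if stt i j p.1 p.2 u.1 ∈ cls b d k then
    w (stt i j p.1 p.2 u.1) * (VF ε i j c c' (R5_ext i j hij α) u.1 *
      (1 / q * sg c c' (R5_ext i j hij β) u.1 +
        (aF i j (R5_ext i j hij α) u.1 : ℝ) / (4 * q) * sg c c' (R5_ext i j hij α) u.1)) else 0

private theorem R5_ext_fat (i j : Fin d) (hij : i ≠ j) (f : Site d k → Fin q) (x y : ZMod (2 ^ k))
    (v : Site d k) : R5_ext i j hij (fat i j f x y) v = f (stt i j x y v) := by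
  unfold R5_ext fat
  rw [R5_stt_stt i j hij]

private theorem R5_add (i j : Fin d) (hij : i ≠ j) (x y : ZMod (2 ^ k)) (v : Site d k)
    (h1 : v i = 0) (h2 : v j = 0) : v + stt i j x y 0 = stt i j x y v := by
  funext l
  rw [Pi.add_apply]
  by_cases hj : l = j
  · subst hj; rw [R5_stt_j, R5_stt_j, h2, zero_add]
  · by_cases hi : l = i
    · subst hi; rw [R5_stt_i l j hij, R5_stt_i l j hij, h1, zero_add]
    · rw [R5_stt_l i j l hi hj, R5_stt_l i j l hi hj, Pi.zero_apply, add_zero]

/-- the weights of the copied fat spin -/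
private theorem R5_VF (ε : ℝ) (i j : Fin d) (hij : i ≠ j) (c c' : Fin q) (f : Site d k → Fin q)
    (x y : ZMod (2 ^ k)) (u : Yf i j k) :
    VF ε i j c c' (R5_ext i j hij (fat i j f x y)) u.1 = VF ε i j c c' f (stt i j x y u.1) ∧
      aF i j (R5_ext i j hij (fat i j f x y)) u.1 = aF i j f (stt i j x y u.1) := by
  have h1 := VF_fat ε i j c c' (R5_ext i j hij (fat i j f x y))
    (fun v => f (v + stt i j x y 0)) u.1 (by
      intro v hv1 hv2
      rw [R5_ext_fat, R5_add i j hij x y v (by rw [hv1, u.2.1]) (by rw [hv2, u.2.2])])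
  have h2 := VF_transl ε i j c c' f u.1 (stt i j x y 0)
  rw [R5_add i j hij x y u.1 u.2.1 u.2.2] at h2
  exact ⟨h1.1.trans h2.1, h1.2.trans h2.2⟩

private theorem R5_sg (i j : Fin d) (hij : i ≠ j) (c c' : Fin q) (f : Site d k → Fin q)
    (x y : ZMod (2 ^ k)) (u : Site d k) :
    sg c c' (R5_ext i j hij (fat i j f x y)) u = sg c c' f (stt i j x y u) := by
  unfold sg
  rw [R5_ext_fat]

private theorem R5_step (i j : Fin d) (hij : i ≠ j) (σ : Stp d) (hσ : σ ∈ pl i j)
    (x y : ZMod (2 ^ k)) (u : Site d k) :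
    stt i j (plx i σ x) (plx j σ y) u = stt i j x y u + sv σ := by
  unfold pl at hσ
  rw [mem_filter] at hσ
  funext l
  rw [Pi.add_apply]
  unfold plx
  by_cases hj : l = j
  · subst hj; rw [R5_stt_j, R5_stt_j]
  · by_cases hi : l = i
    · subst hi; rw [R5_stt_i l j hij, R5_stt_i l j hij]
    · rw [R5_stt_l i j l hi hj, R5_stt_l i j l hi hj]
      have h : (sv σ : Site d k) l = 0 := by
        unfold sv
        rw [Pi.single_eq_of_ne]
        rcases hσ.2 with h | h
        · rw [h]; exact hi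
        · rw [h]; exact hj
      rw [h, add_zero]

open scoped Classical in
/-- the kernel at the position `p'` -/
private theorem R5_EY (ε l : ℝ) (i j : Fin d) (hij : i ≠ j) (c c' : Fin q) (b : Bool)
    (w : Site d k → ℝ) (p p' : ZMod (2 ^ k) × ZMod (2 ^ k)) (σ : Stp d) (hσ : σ ∈ pl i j)
    (f : Site d k → Fin q) :
    EY i j σ (R5_Y ε l i j hij c c' b w p) f p' =
      l * ∑ u : Yf i j k, if stt i j p.1 p.2 u.1 ∈ cls b d k then
        w (stt i j p.1 p.2 u.1) * TF ε i j c c' σ f (stt i j p'.1 p'.2 u.1) else 0 := by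
  unfold EY R5_Y TF
  congr 1
  refine sum_congr rfl fun u _ => ?_
  rw [(R5_VF ε i j hij c c' f p'.1 p'.2 u).1, (R5_VF ε i j hij c c' f p'.1 p'.2 u).2,
    R5_sg i j hij, R5_sg i j hij, R5_step i j hij σ hσ]

theorem TF_moment (hk : 1 ≤ k) (ε l : ℝ) (i j : Fin d) (hij : i ≠ j) (c c' : Fin q) (b : Bool) (w : Site d k → ℝ)
    (hw : ∀ x, ¬ pev i j x → w x = 0) (σ : Stp d) (hσ : σ ∈ pl i j) :
    (∑ f ∈ prps d k q, Real.exp (l * ∑ u ∈ cls b d k, w u * TF ε i j c c' σ f u)) ^ (2 * (2 ^ k) ^ 2) ≤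
      ((q : ℝ) ^ Fintype.card (Yf i j k)) ^ ((2 ^ k) ^ 3) * ZZ d k q ^ (2 * (2 ^ k) ^ 2 - (evp k).card) *
        ∏ p ∈ evp k, ∑ f ∈ prps d k q, Real.exp (l * ∑ v ∈ cls b d k, wP i j w p v * GF ε i j c c' f v) := by
  classical
  have h := fat_chess (q := q) hk i j hij σ hσ (R5_Y ε l i j hij c c' b w)
  have h1 : ∀ f : Site d k → Fin q,
      ∑ p ∈ evp k, EY i j σ (R5_Y ε l i j hij c c' b w p) f p =
        l * ∑ u ∈ cls b d k, w u * TF ε i j c c' σ f u := by
    intro f
    have h2 : ∑ u ∈ cls b d k, w u * TF ε i j c c' σ f u =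
        ∑ u ∈ cls b d k, (if pev i j u then w u * TF ε i j c c' σ f u else 0) := by
      refine sum_congr rfl fun u _ => ?_
      by_cases hu : pev i j u
      · rw [if_pos hu]
      · rw [if_neg hu, hw u hu, zero_mul]
    rw [h2, R5_sum i j hij b (fun u => w u * TF ε i j c c' σ f u), mul_sum]
    exact sum_congr rfl fun p _ => R5_EY ε l i j hij c c' b w p p σ hσ f
  have h3 : ∀ p ∈ evp k, ∀ f : Site d k → Fin q,
      ∑ p' ∈ evp k, ∑ τ ∈ pl i j, EY i j τ (R5_Y ε l i j hij c c' b w p) f p' =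
        l * ∑ v ∈ cls b d k, wP i j w p v * GF ε i j c c' f v := by
    intro p hp f
    have h4 : ∑ v ∈ cls b d k, wP i j w p v * GF ε i j c c' f v =
        ∑ v ∈ cls b d k, (if pev i j v then w (stt i j p.1 p.2 v) * GF ε i j c c' f v else 0) := by
      refine sum_congr rfl fun v _ => ?_
      unfold wP
      by_cases hv : pev i j v
      · rw [if_pos hv, if_pos hv]
      · rw [if_neg hv, if_neg hv, zero_mul]
    rw [h4, R5_sum i j hij b (fun v => w (stt i j p.1 p.2 v) * GF ε i j c c' f v), mul_sum]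
    refine sum_congr rfl fun p' hp' => ?_
    rw [sum_congr rfl fun τ hτ => R5_EY ε l i j hij c c' b w p p' τ hτ f, ← mul_sum, sum_comm]
    congr 1
    refine sum_congr rfl fun u _ => ?_
    rw [R5_stt_stt i j hij]
    by_cases h : stt i j p.1 p.2 u.1 ∈ cls b d k
    · rw [if_pos ((R5_cls i j hij b p p' u.1 hp hp').1 h)]
      rw [sum_congr rfl fun τ _ => if_pos h, ← mul_sum, TF_sum ε i j hij]
    · rw [if_neg (fun h' => h ((R5_cls i j hij b p p' u.1 hp hp').2 h'))]
      exact sum_eq_zero fun τ _ => if_neg h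
  rw [sum_congr rfl fun f _ => by rw [h1 f]] at h
  rw [prod_congr rfl fun p hp => sum_congr rfl fun f _ => by rw [h3 p hp f]] at h
  exact h

end Pool.Agent.THR
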