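import Pool.Agent.Lib_MP_2c424f_thr.R3
import Pool.Agent.Lib_MP_2c424f_thr.R5

/-!
# THR R6: the sum over one direction (paper proof: R6)

`C` = exponent of `sum_rule` for `K`, `l₀ = 1/d^(C+1)`, `l = ± l₀`.  For every `p`: on the good event of `sum_rule`
`|∑ wP GF| ≤ (C2/q³) Wt (wP p) + N/d^K`, off it `≤ 2 CW N` (`GF_bound`), so
`∑_f exp (l ∑ wP GF) ≤ Z · (exp (l₀ (..)) + exp (2 CW l₀ N - N/d^C)) ≤ 2 Z exp (l₀ (..))` (`2 CW ≤ d`).
With `TF_moment`, `wP_sum`, `card_Yf` (`m² |Yf| = N`), `m = 2^k`: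
`∑_f exp (l ∑ w TF) ≤ Z · q^(N/(2m)) · 2 · exp (l₀ ((C2/(4q³)) W + N/(4 d^K)))`.  Markov at level `(C2/q³) W + N/d^K`:
`≤ Z q^(N/(2m)) 2 exp (-(3/4) l₀ N/d^K) ≤ Z exp (-N/d^(C+K+2))` for `k` large (`q^(N/2m) = exp (N log q/(2m))`).
-/

set_option autoImplicit false

open Finset Filter

namespace Pool.Agent.THR

open Pool.Agent.LO Pool.Agent.LIN

/-- parameters with a step -/
abbrev Ixs (d k q : ℕ) : Type := Ix d k q × Stp d

private theorem R6_CW (ε : ℝ) : 0 < CW ε := by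
  unfold CW
  exact Real.rpow_pos_of_pos (by norm_num) _

private theorem R6_c1 (ε : ℝ) : 0 < c1 ε := by
  unfold c1
  have : (0 : ℝ) < (4 : ℝ) ^ (-A0 ε) := Real.rpow_pos_of_pos (by norm_num) _
  positivity

private theorem R6_NN (d k : ℕ) : 0 < NN d k := by
  unfold NN
  positivity

private theorem R6_C2 (ε : ℝ) : 0 ≤ C2 ε := by
  unfold C2
  have := R6_CW ε
  positivity

private theorem R6_cls (b : Bool) (d k : ℕ) : ((cls b d k).card : ℝ) ≤ NN d k := by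
  classical
  have h1 : (cls b d k).card ≤ Fintype.card (Site d k) := card_le_univ _
  have h2 : Fintype.card (Site d k) = (2 ^ k) ^ d := by
    show Fintype.card (Fin d → ZMod (2 ^ k)) = _
    rw [Fintype.card_fun, ZMod.card, Fintype.card_fin]
  rw [h2] at h1
  unfold NN
  exact_mod_cast h1

/-- the moment of the summands `GF` -/
private theorem R6_one {d k q : ℕ} {ε : ℝ} (hε : 0 < ε) (hq : 4 / c1 ε ≤ q) (ha : ra d q ≤ A0 ε)
    (hd1 : 1 ≤ d) (hd : 2 * CW ε ≤ d) (C K : ℕ) (i j : Fin d) (hij : i ≠ j) (c c' : Fin q) (b : Bool)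
    (w : Site d k → ℝ) (hw : ∀ x, |w x| ≤ 1) (l : ℝ) (hl : |l| = 1 / (d : ℝ) ^ (C + 1))
    (hR : Rar C d k q fun f => ¬ |∑ u ∈ cls b d k, w u * GF ε i j c c' f u| ≤
      C2 ε / (q : ℝ) ^ 3 * Wt b w + NN d k / (d : ℝ) ^ K) :
    ∑ f ∈ prps d k q, Real.exp (l * ∑ v ∈ cls b d k, w v * GF ε i j c c' f v) ≤
      2 * ZZ d k q * Real.exp (1 / (d : ℝ) ^ (C + 1) * (C2 ε / (q : ℝ) ^ 3 * Wt b w + NN d k / (d : ℝ) ^ K)) := by
  classical
  set L : ℝ := C2 ε / (q : ℝ) ^ 3 * Wt b w + NN d k / (d : ℝ) ^ K with hL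
  set l0 : ℝ := 1 / (d : ℝ) ^ (C + 1) with hl0
  have hdR : (1 : ℝ) ≤ d := by exact_mod_cast hd1
  have hd0 : (0 : ℝ) < d := by linarith
  have hl0p : 0 < l0 := by positivity
  have hN := R6_NN d k
  have hWt : 0 ≤ Wt b w := by
    unfold Wt
    exact sum_nonneg fun _ _ => abs_nonneg _
  have hC2 := R6_C2 ε
  have hLp : 0 ≤ L := by
    have h1 : 0 ≤ C2 ε / (q : ℝ) ^ 3 * Wt b w := by positivity
    have h2 : 0 ≤ NN d k / (d : ℝ) ^ K := by positivity
    linarith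
  set S : (Site d k → Fin q) → ℝ := fun f => ∑ v ∈ cls b d k, w v * GF ε i j c c' f v with hS
  have hSall : ∀ f, |S f| ≤ 2 * CW ε * NN d k := by
    intro f
    calc |S f| ≤ ∑ v ∈ cls b d k, |w v * GF ε i j c c' f v| := abs_sum_le_sum_abs _ _
      _ ≤ ∑ v ∈ cls b d k, 2 * CW ε := by
          refine sum_le_sum fun v _ => ?_
          rw [abs_mul]
          have h1 := GF_bound hε hq ha i j hij c c' f v
          calc |w v| * |GF ε i j c c' f v| ≤ 1 * (2 * CW ε) :=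
                mul_le_mul (hw v) h1 (abs_nonneg _) (by norm_num)
            _ = _ := one_mul _
      _ = 2 * CW ε * ((cls b d k).card : ℝ) := by
          rw [sum_const, nsmul_eq_mul]
          ring
      _ ≤ 2 * CW ε * NN d k := mul_le_mul_of_nonneg_left (R6_cls b d k) (by have := R6_CW ε; positivity)
  have hlS : ∀ f, l * S f ≤ l0 * |S f| := by
    intro f
    calc l * S f ≤ |l * S f| := le_abs_self _
      _ = l0 * |S f| := by rw [abs_mul, hl]
  -- split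
  have hsplit : ∑ f ∈ prps d k q, Real.exp (l * S f) ≤
      ∑ f ∈ prps d k q, (Real.exp (l0 * L) + if ¬ |S f| ≤ L then Real.exp (l0 * (2 * CW ε * NN d k)) else 0) := by
    refine sum_le_sum fun f _ => ?_
    by_cases h : |S f| ≤ L
    · rw [if_neg (not_not.2 h), add_zero]
      exact Real.exp_le_exp.2 ((hlS f).trans (mul_le_mul_of_nonneg_left h hl0p.le))
    · rw [if_pos h]
      have h1 : Real.exp (l * S f) ≤ Real.exp (l0 * (2 * CW ε * NN d k)) :=
        Real.exp_le_exp.2 ((hlS f).trans (mul_le_mul_of_nonneg_left (hSall f) hl0p.le))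
      have h2 := Real.exp_pos (l0 * L)
      linarith
  refine hsplit.trans ?_
  rw [sum_add_distrib, sum_const, nsmul_eq_mul, ← sum_filter, sum_const, nsmul_eq_mul]
  have hcard : (((prps d k q).filter fun f => ¬ |S f| ≤ L).card : ℝ) ≤
      ZZ d k q * Real.exp (-(NN d k / (d : ℝ) ^ C)) := by
    unfold Rar at hR
    refine le_trans (le_of_eq ?_) hR
    congr 2
    ext f
    simp only [mem_filter, hS]
  have hZ : 0 ≤ ZZ d k q := by
    unfold ZZ
    positivity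
  have h3 : l0 * (2 * CW ε * NN d k) ≤ NN d k / (d : ℝ) ^ C := by
    have h4 : NN d k / (d : ℝ) ^ C = l0 * (d * NN d k) := by
      rw [hl0, pow_succ]
      field_simp
    rw [h4]
    exact mul_le_mul_of_nonneg_left (mul_le_mul_of_nonneg_right hd hN.le) hl0p.le
  have h5 : (((prps d k q).filter fun f => ¬ |S f| ≤ L).card : ℝ) * Real.exp (l0 * (2 * CW ε * NN d k)) ≤
      ZZ d k q * Real.exp (l0 * L) := by
    calc (((prps d k q).filter fun f => ¬ |S f| ≤ L).card : ℝ) * Real.exp (l0 * (2 * CW ε * NN d k))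
        ≤ (ZZ d k q * Real.exp (-(NN d k / (d : ℝ) ^ C))) * Real.exp (l0 * (2 * CW ε * NN d k)) :=
          mul_le_mul_of_nonneg_right hcard (Real.exp_pos _).le
      _ = ZZ d k q * Real.exp (-(NN d k / (d : ℝ) ^ C) + l0 * (2 * CW ε * NN d k)) := by
          rw [mul_assoc, ← Real.exp_add]
      _ ≤ ZZ d k q * Real.exp (l0 * L) := by
          refine mul_le_mul_of_nonneg_left (Real.exp_le_exp.2 ?_) hZ
          have : 0 ≤ l0 * L := mul_nonneg hl0p.le hLp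
          linarith
  have h6 : ((prps d k q).card : ℝ) = ZZ d k q := rfl
  rw [h6]
  linarith

/-- the moment of the summands `TF` -/
private theorem R6_two {d k q : ℕ} (hk : 1 ≤ k) (hq : 0 < q) {ε : ℝ} (i j : Fin d) (hij : i ≠ j) (c c' : Fin q)
    (b : Bool) (w : Site d k → ℝ) (hw : ∀ x, ¬ pev i j x → w x = 0) (σ : Stp d) (hσ : σ ∈ pl i j) (l l0 A B : ℝ)
    (h : ∀ p ∈ evp k, ∑ f ∈ prps d k q, Real.exp (l * ∑ v ∈ cls b d k, wP i j w p v * GF ε i j c c' f v) ≤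
      2 * ZZ d k q * Real.exp (l0 * (A * Wt b (wP i j w p) + B))) :
    ∑ f ∈ prps d k q, Real.exp (l * ∑ u ∈ cls b d k, w u * TF ε i j c c' σ f u) ≤
      ZZ d k q * Real.exp (NN d k * Real.log q / (2 * 2 ^ k) + Real.log 2 + l0 * (A * Wt b w + B) / 4) := by
  classical
  set m : ℝ := (2 : ℝ) ^ k with hm
  have hm1 : 1 ≤ m := one_le_pow₀ (by norm_num)
  have hm0 : 0 < m := by linarith
  have hZ : 0 ≤ ZZ d k q := by
    unfold ZZ
    positivity
  have hmom := TF_moment hk ε l i j hij c c' b w hw σ hσ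
  obtain ⟨hs1, hs2⟩ := wP_sum hk i j hij b w hw
  have hY := card_Yf (k := k) i j hij
  have hE : (2 * (2 ^ k) ^ 2 : ℕ) ≠ 0 := by positivity
  refine (pow_le_pow_iff_left₀ (sum_nonneg fun _ _ => (Real.exp_pos _).le)
    (mul_nonneg hZ (Real.exp_pos _).le) hE).1 ?_
  refine hmom.trans ?_
  have hprod : ∏ p ∈ evp k, ∑ f ∈ prps d k q, Real.exp (l * ∑ v ∈ cls b d k, wP i j w p v * GF ε i j c c' f v) ≤
      ∏ p ∈ evp k, (2 * ZZ d k q * Real.exp (l0 * (A * Wt b (wP i j w p) + B))) :=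
    prod_le_prod (fun _ _ => sum_nonneg fun _ _ => (Real.exp_pos _).le) h
  have hq0 : (0 : ℝ) < q := by exact_mod_cast hq
  refine (mul_le_mul_of_nonneg_left hprod (by positivity)).trans ?_
  rw [prod_mul_distrib, prod_const, mul_pow, ← Real.exp_sum]
  have hsum : ∑ p ∈ evp k, l0 * (A * Wt b (wP i j w p) + B) = l0 * (m ^ 2 / 2 * (A * Wt b w + B)) := by
    rw [← mul_sum, sum_add_distrib, ← mul_sum, hs1, sum_const, nsmul_eq_mul, hs2]
    ring
  rw [hsum]
  have hcardle : (evp k).card ≤ 2 * (2 ^ k) ^ 2 := by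
    have h1 : ((evp k).card : ℝ) ≤ ((2 * (2 ^ k) ^ 2 : ℕ) : ℝ) := by
      rw [hs2]
      push_cast
      nlinarith [sq_nonneg ((2 : ℝ) ^ k)]
    exact_mod_cast h1
  have hZpow : ZZ d k q ^ (2 * (2 ^ k) ^ 2 - (evp k).card) * ZZ d k q ^ (evp k).card =
      ZZ d k q ^ (2 * (2 ^ k) ^ 2) := by
    rw [← pow_add, Nat.sub_add_cancel hcardle]
  have e1 : ((q : ℝ) ^ Fintype.card (Yf i j k)) ^ ((2 ^ k) ^ 3) = Real.exp (NN d k * m * Real.log q) := by
    rw [← pow_mul, ← Real.exp_log (pow_pos hq0 _), Real.log_pow]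
    congr 1
    push_cast
    rw [← hY]
    ring
  have e2 : (2 : ℝ) ^ (evp k).card = Real.exp (m ^ 2 / 2 * Real.log 2) := by
    rw [← Real.exp_log (pow_pos (by norm_num : (0 : ℝ) < 2) (evp k).card), Real.log_pow, hs2]
  rw [e1, e2]
  have e3 : Real.exp (NN d k * m * Real.log q) * ZZ d k q ^ (2 * (2 ^ k) ^ 2 - (evp k).card) *
      (Real.exp (m ^ 2 / 2 * Real.log 2) * ZZ d k q ^ (evp k).card *
        Real.exp (l0 * (m ^ 2 / 2 * (A * Wt b w + B)))) =
      ZZ d k q ^ (2 * (2 ^ k) ^ 2) * Real.exp (NN d k * m * Real.log q + m ^ 2 / 2 * Real.log 2 +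
        l0 * (m ^ 2 / 2 * (A * Wt b w + B))) := by
    rw [← hZpow, Real.exp_add, Real.exp_add]
    ring
  rw [e3, mul_pow, ← Real.exp_nat_mul]
  refine mul_le_mul_of_nonneg_left (Real.exp_le_exp.2 ?_) (by positivity)
  push_cast
  have hlog2 : 0 < Real.log 2 := Real.log_pos (by norm_num)
  have e4 : 2 * ((2 : ℝ) ^ k) ^ 2 * (NN d k * Real.log q / (2 * 2 ^ k) + Real.log 2 + l0 * (A * Wt b w + B) / 4) =
      NN d k * m * Real.log q + 2 * m ^ 2 * Real.log 2 + l0 * (m ^ 2 / 2 * (A * Wt b w + B)) := by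
    rw [← hm]
    field_simp
    ring
  rw [e4]
  nlinarith [mul_pos (pow_pos hm0 2) hlog2]

/-- Markov -/
private theorem R6_mark {d k q : ℕ} (T : (Site d k → Fin q) → ℝ) (l0 L R : ℝ) (hl0 : 0 ≤ l0)
    (h1 : ∑ f ∈ prps d k q, Real.exp (l0 * T f) ≤ ZZ d k q * Real.exp R)
    (h2 : ∑ f ∈ prps d k q, Real.exp (-l0 * T f) ≤ ZZ d k q * Real.exp R) (P : (Site d k → Fin q) → Prop)
    [DecidablePred P] (hP : ∀ f, P f → ¬ |T f| ≤ L) :
    (((prps d k q).filter P).card : ℝ) ≤ ZZ d k q * Real.exp (Real.log 2 + R - l0 * L) := by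
  have h3 : (((prps d k q).filter P).card : ℝ) * Real.exp (l0 * L) ≤ 2 * (ZZ d k q * Real.exp R) := by
    calc (((prps d k q).filter P).card : ℝ) * Real.exp (l0 * L)
        = ∑ f ∈ (prps d k q).filter P, Real.exp (l0 * L) := by
          rw [sum_const, nsmul_eq_mul]
      _ ≤ ∑ f ∈ (prps d k q).filter P, (Real.exp (l0 * T f) + Real.exp (-l0 * T f)) := by
          refine sum_le_sum fun f hf => ?_
          have h4 := hP f (mem_filter.1 hf).2
          rw [not_le] at h4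
          rcases lt_abs.1 h4 with h5 | h5
          · have h6 : Real.exp (l0 * L) ≤ Real.exp (l0 * T f) :=
              Real.exp_le_exp.2 (mul_le_mul_of_nonneg_left h5.le hl0)
            have := Real.exp_pos (-l0 * T f)
            linarith
          · have h6 : Real.exp (l0 * L) ≤ Real.exp (-l0 * T f) := by
              refine Real.exp_le_exp.2 ?_
              nlinarith
            have := Real.exp_pos (l0 * T f)
            linarith
      _ ≤ ∑ f ∈ prps d k q, (Real.exp (l0 * T f) + Real.exp (-l0 * T f)) :=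
          sum_le_sum_of_subset_of_nonneg (filter_subset _ _) fun _ _ _ => by positivity
      _ ≤ 2 * (ZZ d k q * Real.exp R) := by
          rw [sum_add_distrib]
          linarith
  have h7 : (((prps d k q).filter P).card : ℝ) =
      (((prps d k q).filter P).card : ℝ) * Real.exp (l0 * L) * Real.exp (-(l0 * L)) := by
    rw [mul_assoc, ← Real.exp_add, add_neg_cancel, Real.exp_zero, mul_one]
  rw [h7]
  refine (mul_le_mul_of_nonneg_right h3 (Real.exp_pos _).le).trans (le_of_eq ?_)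
  rw [show Real.log 2 + R - l0 * L = Real.log 2 + (R + -(l0 * L)) by ring, Real.exp_add, Real.exp_log (by norm_num),
    Real.exp_add]
  ring

private theorem R6_rar0 {C d k q : ℕ} {P : (Site d k → Fin q) → Prop} (h : ∀ f, ¬ P f) : Rar C d k q P := by
  classical
  unfold Rar
  have h0 : (((prps d k q).filter P).card : ℝ) = 0 := by
    rw [filter_false_of_mem fun f _ => h f, card_empty, Nat.cast_zero]
  refine le_trans (le_of_eq ?_) (le_trans h0.le ?_)
  · congr 2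
  · unfold ZZ
    positivity

private theorem R6_num {d k q : ℕ} {C K : ℕ} {X : ℝ} (hd : 4 ≤ d) (hX : 0 ≤ X)
    (hm : 2 * (d : ℝ) ^ (C + K + 1) * Real.log q ≤ (2 : ℝ) ^ k)
    (hN : 8 * Real.log 2 * (d : ℝ) ^ (C + K + 1) ≤ NN d k) :
    Real.log 2 + (NN d k * Real.log q / (2 * 2 ^ k) + Real.log 2 +
      1 / (d : ℝ) ^ (C + 1) * (X + NN d k / (d : ℝ) ^ K) / 4) -
      1 / (d : ℝ) ^ (C + 1) * (X + NN d k / (d : ℝ) ^ K) ≤ -(NN d k / (d : ℝ) ^ (C + K + 2)) := by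
  have hN0 := R6_NN d k
  have hd4 : (4 : ℝ) ≤ d := by exact_mod_cast hd
  have hd0 : (0 : ℝ) < d := by linarith
  have hm0 : (0 : ℝ) < (2 : ℝ) ^ k := by positivity
  set D : ℝ := (d : ℝ) ^ (C + K + 1) with hD
  have hD0 : 0 < D := by positivity
  have e1 : 1 / (d : ℝ) ^ (C + 1) * (NN d k / (d : ℝ) ^ K) = NN d k / D := by
    rw [hD, show C + K + 1 = (C + 1) + K by ring, pow_add _ (C + 1) K, div_mul_div_comm, one_mul]
  have e2 : NN d k / (d : ℝ) ^ (C + K + 2) = NN d k / D / d := by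
    rw [hD, show C + K + 2 = (C + K + 1) + 1 by ring, pow_succ, div_div]
  have e3 : 0 ≤ 1 / (d : ℝ) ^ (C + 1) * X := by positivity
  have e4 : NN d k / D / d ≤ NN d k / D / 4 := by
    have : 0 < NN d k / D := by positivity
    exact div_le_div_of_nonneg_left this.le (by norm_num) hd4
  have e5 : NN d k * Real.log q / (2 * 2 ^ k) ≤ NN d k / D / 4 := by
    rw [div_div, div_le_div_iff₀ (by positivity) (by positivity)]
    have : NN d k * Real.log q * (D * 4) = 2 * NN d k * (2 * D * Real.log q) := by ring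
    rw [this]
    have h2 := mul_le_mul_of_nonneg_left hm (show 0 ≤ 2 * NN d k by positivity)
    linarith
  have e6 : 2 * Real.log 2 ≤ NN d k / D / 4 := by
    rw [div_div, le_div_iff₀ (by positivity)]
    linarith
  rw [mul_add, e1, e2]
  linarith

theorem TF_rule {ε : ℝ} (hε : 0 < ε) (hε1 : ε ≤ 1) (K : ℕ) : WOPi ε Ixs fun d k q p f => okx p.1 →
    p.2 ∈ pl p.1.2.1.1 p.1.2.1.2 → (∀ x, ¬ pev p.1.2.1.1 p.1.2.1.2 x → p.1.2.2.2 x = 0) →
    |∑ u ∈ cls p.1.1 d k, p.1.2.2.2 u * TF ε p.1.2.1.1 p.1.2.1.2 p.1.2.2.1.1 p.1.2.2.1.2 p.2 f u| ≤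
      C2 ε / (q : ℝ) ^ 3 * Wt p.1.1 p.1.2.2.2 + NN d k / (d : ℝ) ^ K := by
  classical
  obtain ⟨C, hC⟩ := sum_rule hε hε1 K
  refine ⟨C + K + 2, (((hC.and (EvT_reg hε hε1 (2 * CW ε + 4 / c1 ε + 4))).and
    (EvT_pow fun d q => 2 * (d : ℝ) ^ (C + K + 1) * Real.log q)).and
    (EvT_NN fun d _ => 8 * Real.log 2 * (d : ℝ) ^ (C + K + 1))).mono ?_⟩
  rintro d k q ⟨⟨⟨h1, hr⟩, h2⟩, h3⟩ ⟨⟨b, ⟨i, j⟩, ⟨c, c'⟩, w⟩, σ⟩
  dsimp only at h2 h3 ⊢
  have hCW := R6_CW ε
  have hc1 := R6_c1 ε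
  have hpos : 0 < 4 / c1 ε := by positivity
  have hq4 : 4 / c1 ε ≤ q := by linarith [hr.2.1]
  have hq0 : 0 < q := by
    have : (0 : ℝ) < q := by linarith
    exact_mod_cast this
  have hd4 : 4 ≤ d := by
    have : (4 : ℝ) ≤ d := by linarith [hr.1]
    exact_mod_cast this
  have hdCW : 2 * CW ε ≤ d := by linarith [hr.1]
  have hk : 1 ≤ k := by
    have : (1 : ℝ) ≤ k := by linarith [hr.2.2.1]
    exact_mod_cast this
  have ha : ra d q ≤ A0 ε := hr.2.2.2.2.2.2.1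
  have hd1 : 1 ≤ d := by omega
  by_cases hok : okx ((b, (i, j), (c, c'), w) : Ix d k q) ∧ σ ∈ pl i j ∧ (∀ x, ¬ pev i j x → w x = 0)
  swap
  · -- the premises fail: the event is empty
    refine R6_rar0 fun f hf => hf fun g1 g2 g3 => absurd ⟨g1, g2, g3⟩ hok
  obtain ⟨hok1, hσ, hw⟩ := hok
  have hij : i ≠ j := hok1.1
  have hwb : ∀ x, |w x| ≤ 1 := hok1.2.2
  have hWt : 0 ≤ Wt b w := by
    unfold Wt
    exact sum_nonneg fun _ _ => abs_nonneg _
  have hwP : ∀ p : ZMod (2 ^ k) × ZMod (2 ^ k), ∀ x, |wP i j w p x| ≤ 1 := by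
    intro p x
    unfold wP
    split_ifs
    · exact hwb _
    · simp
  have hone : ∀ l : ℝ, |l| = 1 / (d : ℝ) ^ (C + 1) → ∀ p ∈ evp k,
      ∑ f ∈ prps d k q, Real.exp (l * ∑ v ∈ cls b d k, wP i j w p v * GF ε i j c c' f v) ≤
      2 * ZZ d k q * Real.exp (1 / (d : ℝ) ^ (C + 1) *
        (C2 ε / (q : ℝ) ^ 3 * Wt b (wP i j w p) + NN d k / (d : ℝ) ^ K)) := by
    intro l hl p _
    refine R6_one hε hq4 ha hd1 hdCW C K i j hij c c' b (wP i j w p) (hwP p) l hl ?_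
    refine (h1 ((b, (i, j), (c, c'), wP i j w p) : Ix d k q)).mono fun f _ hf hg => hf (hg ?_)
    exact ⟨hij, hok1.2.1, hwP p⟩
  have hl0 : (0 : ℝ) < 1 / (d : ℝ) ^ (C + 1) := by
    have : (0 : ℝ) < d := by exact_mod_cast hd1
    positivity
  have hA := R6_two hk hq0 i j hij c c' b w hw σ hσ (1 / (d : ℝ) ^ (C + 1)) (1 / (d : ℝ) ^ (C + 1))
    (C2 ε / (q : ℝ) ^ 3) (NN d k / (d : ℝ) ^ K) (hone _ (abs_of_pos hl0))
  have hB := R6_two hk hq0 i j hij c c' b w hw σ hσ (-(1 / (d : ℝ) ^ (C + 1))) (1 / (d : ℝ) ^ (C + 1))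
    (C2 ε / (q : ℝ) ^ 3) (NN d k / (d : ℝ) ^ K) (hone _ (by rw [abs_neg, abs_of_pos hl0]))
  have hM := R6_mark (fun f => ∑ u ∈ cls b d k, w u * TF ε i j c c' σ f u) (1 / (d : ℝ) ^ (C + 1))
    (C2 ε / (q : ℝ) ^ 3 * Wt b w + NN d k / (d : ℝ) ^ K) _ hl0.le hA hB
    (fun f => ¬ (okx ((b, (i, j), (c, c'), w) : Ix d k q) → σ ∈ pl i j → (∀ x, ¬ pev i j x → w x = 0) →
      |∑ u ∈ cls b d k, w u * TF ε i j c c' σ f u| ≤ C2 ε / (q : ℝ) ^ 3 * Wt b w + NN d k / (d : ℝ) ^ K))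
    (fun f hf hg => hf fun _ _ _ => hg)
  unfold Rar
  refine le_trans (le_of_eq ?_) (hM.trans ?_)
  · congr 2
    ext f
    simp only [mem_filter]
  · refine mul_le_mul_of_nonneg_left (Real.exp_le_exp.2 ?_) (by unfold ZZ; positivity)
    have hC2 := R6_C2 ε
    exact R6_num hd4 (by positivity) h2 h3

end Pool.Agent.THR
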