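import Pool.Agent.Lib_MP_2c424f_thr.R1d

/-!
# THR R7: unweighting, pointwise (paper proof: R8)

`u ∈ cls b`, all neighbours of `u` regular, `σ ∈ pl`.  On the fibre of the class `!b`: `WF`, `r1` are constant (they depend on
sites of the class `b`), `r1` holds (`xS_{u,τ}` contains the available colours of `u+τ`), `BF` depends on the fibre
neighbours, `sg (u+σ)` on the plane neighbour `u+σ` (`fm_indep2`).  `fm BF = ∏_{τ ∈ fs} (1 - p_{u+τ})`,
`p_v = (z_v^c + z_v^c')/x_v` (`fm_prod`), `fm sg = (z^c - z^c')/x` at `u+σ`, absolute value `≤ 1/(c1 q)`.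
`|WF ∏ (1-p) - 1| ≤ 2 CW ∑_τ |pF - p|` (`pF, p ∈ [0,1/2]`, `|log ((1-p)/(1-pF))| ≤ 2|p - pF|`, `WF ≤ CW`,
`|R - 1| ≤ max 1 R · |log R|`).
`xS_{u,τ} \ available (u+τ) ⊆ {f u} ∪ {f (u+τ+ρ) : ρ ∈ pl}`, so `card xS - x ≤ 5` and
`|pF - p| ≤ (1/(c1 q)) (1[f u ∈ {c,c'}] + nP c + nP c' at u+τ) + 2·5/(c1 q)²`.  Sum over at most `2d` steps; `2d/(c1 q) = a/c1`.
-/

set_option autoImplicit false

open Finset Filter

namespace Pool.Agent.THR

open Pool.Agent.LO Pool.Agent.LIN

private theorem R7_c1 (ε : ℝ) : 0 < c1 ε := by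
  unfold c1
  positivity

private theorem R7_xS_sub {d k q : ℕ} (i j : Fin d) (f : Site d k → Fin q) (u : Site d k) (τ : Stp d) :
    (SS f (u + sv τ))ᶜ ⊆ xS i j f u τ := by
  classical
  intro γ hγ
  rw [mem_compl] at hγ
  unfold xS
  rw [mem_filter]
  refine ⟨mem_univ _, fun ρ _ _ h => hγ ?_⟩
  unfold SS
  exact mem_image.2 ⟨ρ, mem_univ _, h⟩

private theorem R7_xS_diff {d k q : ℕ} (i j : Fin d) (f : Site d k → Fin q) (u : Site d k) (τ : Stp d)
    (γ : Fin q) (h1 : γ ∈ xS i j f u τ) (h2 : γ ∈ SS f (u + sv τ)) :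
    γ = f u ∨ ∃ ρ ∈ pl i j, f (u + sv τ + sv ρ) = γ := by
  classical
  unfold SS at h2
  obtain ⟨ρ, -, hρ⟩ := mem_image.1 h2
  unfold xS at h1
  rw [mem_filter] at h1
  by_cases hp : ρ ∈ pl i j
  · exact Or.inr ⟨ρ, hp, hρ⟩
  · have hfs : ρ ∈ fs i j := by
      unfold fs
      unfold pl at hp
      rw [mem_filter] at hp ⊢
      refine ⟨mem_univ _, ?_⟩
      push Not at hp
      exact hp (mem_univ _)
    by_cases ho : ρ = opp τ
    · left
      rw [← hρ, ho, add_assoc, sv_opp', add_zero]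
    · exact absurd hρ (h1.2 ρ hfs ho)

private theorem R7_card_av {d k q : ℕ} (f : Site d k → Fin q) (v : Site d k) : ((SS f v)ᶜ).card = av f v := by
  rw [card_compl, Fintype.card_fin]
  rfl

private theorem R7_card_xS {d k q : ℕ} (i j : Fin d) (hij : i ≠ j) (f : Site d k → Fin q) (u : Site d k)
    (τ : Stp d) :
    av f (u + sv τ) ≤ (xS i j f u τ).card ∧ (xS i j f u τ).card ≤ av f (u + sv τ) + 5 := by
  classical
  rw [← R7_card_av]
  refine ⟨card_le_card (R7_xS_sub i j f u τ), ?_⟩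
  have hsub : xS i j f u τ ⊆ (SS f (u + sv τ))ᶜ ∪ (insert (f u) ((pl i j).image fun ρ => f (u + sv τ + sv ρ))) := by
    intro γ hγ
    by_cases h : γ ∈ SS f (u + sv τ)
    · rcases R7_xS_diff i j f u τ γ hγ h with h3 | ⟨ρ, hρ, h3⟩
      · exact mem_union_right _ (mem_insert.2 (Or.inl h3))
      · exact mem_union_right _ (mem_insert.2 (Or.inr (mem_image.2 ⟨ρ, hρ, h3⟩)))
    · exact mem_union_left _ (mem_compl.2 h)
  have h1 := card_le_card hsub
  have h2 := card_union_le (SS f (u + sv τ))ᶜ (insert (f u) ((pl i j).image fun ρ => f (u + sv τ + sv ρ)))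
  have h3 := card_insert_le (f u) ((pl i j).image fun ρ => f (u + sv τ + sv ρ))
  have h4 : ((pl i j).image fun ρ => f (u + sv τ + sv ρ)).card ≤ (pl i j).card := card_image_le
  have h5 := card_pl i j hij
  omega

open scoped Classical in
private theorem R7_ind {d k q : ℕ} (i j : Fin d) (f : Site d k → Fin q) (u : Site d k) (τ : Stp d) (c : Fin q) :
    zz f (u + sv τ) c ≤ (if c ∈ xS i j f u τ then (1 : ℝ) else 0) ∧
      (if c ∈ xS i j f u τ then (1 : ℝ) else 0) ≤ zz f (u + sv τ) c +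
        ((if f u = c then (1 : ℝ) else 0) + nP i j c f (u + sv τ)) := by
  have hn : (0 : ℝ) ≤ nP i j c f (u + sv τ) := Nat.cast_nonneg _
  have hi : (0 : ℝ) ≤ (if f u = c then (1 : ℝ) else 0) := by split_ifs <;> norm_num
  by_cases h2 : c ∈ SS f (u + sv τ)
  · have hz : zz f (u + sv τ) c = 0 := by
      unfold zz
      rw [if_pos h2]
    rw [hz]
    by_cases h1 : c ∈ xS i j f u τ
    · rw [if_pos h1]
      refine ⟨zero_le_one, ?_⟩
      rcases R7_xS_diff i j f u τ c h1 h2 with h3 | ⟨ρ, hρ, h3⟩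
      · rw [if_pos h3.symm]
        linarith
      · have h4 : 1 ≤ nP i j c f (u + sv τ) := by
          unfold nP
          exact card_pos.2 ⟨ρ, mem_filter.2 ⟨hρ, h3⟩⟩
        have h5 : (1 : ℝ) ≤ nP i j c f (u + sv τ) := by exact_mod_cast h4
        linarith
    · rw [if_neg h1]
      exact ⟨le_rfl, by linarith⟩
  · have hz : zz f (u + sv τ) c = 1 := by
      unfold zz
      rw [if_neg h2]
    have h1 : c ∈ xS i j f u τ := R7_xS_sub i j f u τ (mem_compl.2 h2)
    rw [hz, if_pos h1]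
    exact ⟨le_rfl, by linarith⟩

private theorem R7_real {m x X s1 s2 z1 z2 I n1 n2 : ℝ} (hm : 0 < m) (hx : m ≤ x) (hX1 : x ≤ X)
    (hX2 : X ≤ x + 5) (hs1 : s1 ≤ 1) (hs2 : s2 ≤ 1) (h1 : z1 ≤ s1) (h2 : z2 ≤ s2) (hz1 : 0 ≤ z1) (hz2 : 0 ≤ z2)
    (h : (s1 + s2) - (z1 + z2) ≤ I + n1 + n2) :
    |(s1 + s2) / X - (z1 + z2) / x| ≤ 1 / m * (I + n1 + n2) + 10 / m ^ 2 := by
  have hx0 : 0 < x := lt_of_lt_of_le hm hx
  have hX0 : 0 < X := lt_of_lt_of_le hx0 hX1
  have hdec : (s1 + s2) / X - (z1 + z2) / x = ((s1 + s2) - (z1 + z2)) / x - (s1 + s2) * (X - x) / (x * X) := by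
    field_simp
    ring
  have h0 : 0 ≤ (s1 + s2) - (z1 + z2) := by linarith
  have e1 : ((s1 + s2) - (z1 + z2)) / x ≤ 1 / m * (I + n1 + n2) := by
    have e3 : ((s1 + s2) - (z1 + z2)) / x ≤ ((s1 + s2) - (z1 + z2)) / m := div_le_div_of_nonneg_left h0 hm hx
    have e4 : ((s1 + s2) - (z1 + z2)) / m ≤ (I + n1 + n2) / m := div_le_div_of_nonneg_right h hm.le
    have e5 : (I + n1 + n2) / m = 1 / m * (I + n1 + n2) := by ring
    linarith
  have e1' : 0 ≤ ((s1 + s2) - (z1 + z2)) / x := div_nonneg h0 hx0.le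
  have h3 : (s1 + s2) * (X - x) ≤ 10 := by
    have h4 : (s1 + s2) * (X - x) ≤ 2 * (X - x) := mul_le_mul_of_nonneg_right (by linarith) (by linarith)
    linarith
  have h5 : m ^ 2 ≤ x * X := by
    rw [sq]
    exact mul_le_mul hx (le_trans hx hX1) hm.le hx0.le
  have e2 : (s1 + s2) * (X - x) / (x * X) ≤ 10 / m ^ 2 := by
    have e3 : (s1 + s2) * (X - x) / (x * X) ≤ 10 / (x * X) := div_le_div_of_nonneg_right h3 (by positivity)
    have e4 : 10 / (x * X) ≤ 10 / m ^ 2 := div_le_div_of_nonneg_left (by norm_num) (by positivity) h5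
    linarith
  have e2' : 0 ≤ (s1 + s2) * (X - x) / (x * X) :=
    div_nonneg (mul_nonneg (by linarith) (by linarith)) (by positivity)
  have h6 : (0 : ℝ) ≤ 10 / m ^ 2 := by positivity
  rw [hdec, abs_le]
  constructor <;> linarith

theorem pF_diff {ε : ℝ} (hε : 0 < ε) {d k q : ℕ} (hk : 2 ≤ k) (hq : 8 / c1 ε ≤ q) (i j : Fin d) (hij : i ≠ j)
    (c c' : Fin q) (hc : c ≠ c') {f : Site d k → Fin q} (hf : Prp f) (u : Site d k) (τ : Stp d) (hτ : τ ∈ fs i j)
    (h : Rg ε f (u + sv τ)) :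
    |pF i j c c' f u τ - (zz f (u + sv τ) c + zz f (u + sv τ) c') / (av f (u + sv τ) : ℝ)| ≤
      1 / (c1 ε * q) * ((if f u = c ∨ f u = c' then (1 : ℝ) else 0) + nP i j c f (u + sv τ) + nP i j c' f (u + sv τ)) +
        10 / (c1 ε * q) ^ 2 := by
  classical
  have hc1 := R7_c1 ε
  have _ := hε
  have _ := hk
  have _ := hf
  have _ := hτ
  have hm8 : 8 ≤ c1 ε * q := by
    rw [div_le_iff₀ hc1] at hq
    linarith
  obtain ⟨hX1, hX2⟩ := R7_card_xS i j hij f u τ
  have hX1' : (av f (u + sv τ) : ℝ) ≤ ((xS i j f u τ).card : ℝ) := by exact_mod_cast hX1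
  have hX2' : ((xS i j f u τ).card : ℝ) ≤ (av f (u + sv τ) : ℝ) + 5 := by exact_mod_cast hX2
  obtain ⟨a1, a2⟩ := R7_ind i j f u τ c
  obtain ⟨b1, b2⟩ := R7_ind i j f u τ c'
  have hs1b : (if c ∈ xS i j f u τ then (1 : ℝ) else 0) ≤ 1 := by
    split_ifs <;> norm_num
  have hs2b : (if c' ∈ xS i j f u τ then (1 : ℝ) else 0) ≤ 1 := by
    split_ifs <;> norm_num
  have hz1 : 0 ≤ zz f (u + sv τ) c := by
    unfold zz
    split_ifs <;> norm_num
  have hz2 : 0 ≤ zz f (u + sv τ) c' := by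
    unfold zz
    split_ifs <;> norm_num
  have hind : (if f u = c then (1 : ℝ) else 0) + (if f u = c' then (1 : ℝ) else 0) =
      (if f u = c ∨ f u = c' then (1 : ℝ) else 0) := by
    by_cases h1 : f u = c
    · simp [h1, hc]
    · by_cases h2 : f u = c'
      · simp [h2, hc.symm]
      · simp [h1, h2]
  unfold pF
  refine R7_real (by linarith) h hX1' hX2' hs1b hs2b a1 b1 hz1 hz2 ?_
  rw [← hind]
  linarith

private theorem R7_four {p : ℝ} (h0 : 0 ≤ p) (h1 : p ≤ 1 / 2) : (1 - p)⁻¹ ≤ (4 : ℝ) ^ p := by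
  have h := rpow_one_add_le_one_add_mul_self (s := -(1 / 2 : ℝ)) (by norm_num) (p := 2 * p) (by linarith)
    (by linarith)
  have h2 : (1 + -(1 / 2 : ℝ)) ^ (2 * p) = ((4 : ℝ) ^ p)⁻¹ := by
    have h3 : (1 + -(1 / 2 : ℝ)) = (2 : ℝ)⁻¹ := by norm_num
    have h4 : (4 : ℝ) = 2 ^ (2 : ℝ) := by
      rw [Real.rpow_two]
      norm_num
    rw [h3, Real.inv_rpow (by norm_num), h4, ← Real.rpow_mul (by norm_num)]
  rw [h2] at h
  have h5 : (0 : ℝ) < (4 : ℝ) ^ p := by positivity
  have h6 : 0 < 1 - p := by linarith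
  rw [inv_le_comm₀ h6 h5]
  linarith

private theorem R7_prod_diff {ι : Type*} (s : Finset ι) (a b : ι → ℝ) (ha : ∀ x ∈ s, 0 ≤ a x ∧ a x ≤ 1)
    (hb : ∀ x ∈ s, 0 ≤ b x ∧ b x ≤ 1) : |∏ x ∈ s, a x - ∏ x ∈ s, b x| ≤ ∑ x ∈ s, |a x - b x| := by
  classical
  induction s using Finset.induction_on with
  | empty => simp
  | insert y s hy ih =>
    rw [prod_insert hy, prod_insert hy, sum_insert hy]
    have h1 := ih (fun x hx => ha x (mem_insert_of_mem hx)) (fun x hx => hb x (mem_insert_of_mem hx))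
    obtain ⟨a0, a1⟩ := ha y (mem_insert_self y s)
    have hb0 : 0 ≤ ∏ x ∈ s, b x := prod_nonneg fun x hx => (hb x (mem_insert_of_mem hx)).1
    have hb1 : ∏ x ∈ s, b x ≤ 1 := prod_le_one (fun x hx => (hb x (mem_insert_of_mem hx)).1)
      fun x hx => (hb x (mem_insert_of_mem hx)).2
    have h2 : a y * ∏ x ∈ s, a x - b y * ∏ x ∈ s, b x =
        a y * (∏ x ∈ s, a x - ∏ x ∈ s, b x) + (a y - b y) * ∏ x ∈ s, b x := by ring
    rw [h2]
    calc |a y * (∏ x ∈ s, a x - ∏ x ∈ s, b x) + (a y - b y) * ∏ x ∈ s, b x|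
        ≤ |a y * (∏ x ∈ s, a x - ∏ x ∈ s, b x)| + |(a y - b y) * ∏ x ∈ s, b x| := abs_add_le _ _
      _ = a y * |∏ x ∈ s, a x - ∏ x ∈ s, b x| + |a y - b y| * ∏ x ∈ s, b x := by
          rw [abs_mul, abs_mul, abs_of_nonneg a0, abs_of_nonneg hb0]
      _ ≤ 1 * (∑ x ∈ s, |a x - b x|) + |a y - b y| * 1 := by
          refine add_le_add (mul_le_mul a1 h1 (abs_nonneg _) zero_le_one) ?_
          exact mul_le_mul_of_nonneg_left hb1 (abs_nonneg _)
      _ = _ := by ring

private theorem R7_xS_fib {d k q : ℕ} (hk : 1 ≤ k) (i j : Fin d) (b : Bool) {f h : Site d k → Fin q}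
    (hh : h ∈ fib (!b) f) (u : Site d k) (hu : u ∈ cls b d k) (τ : Stp d) : xS i j h u τ = xS i j f u τ := by
  classical
  unfold xS
  refine filter_congr fun γ _ => ?_
  have h1 : ∀ ρ : Stp d, h (u + sv τ + sv ρ) = f (u + sv τ + sv ρ) := by
    intro ρ
    refine fib_off (!b) hh _ ?_
    rw [mem_cls_step hk, Bool.not_not, mem_cls_step hk, cls_not]
    exact fun h => h hu
  simp only [h1]

private theorem R7_card_fs {d : ℕ} (i j : Fin d) : ((fs i j).card : ℝ) ≤ 2 * d := by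
  classical
  have h1 : (fs i j).card ≤ (univ : Finset (Stp d)).card := card_le_card (subset_univ _)
  have h2 : (univ : Finset (Stp d)).card = 2 * d := by
    rw [card_univ, Fintype.card_prod, Fintype.card_fin, Fintype.card_bool]
    ring
  have : ((fs i j).card : ℝ) ≤ ((2 * d : ℕ) : ℝ) := by exact_mod_cast h2 ▸ h1
  simpa using this

theorem V1_mean {ε : ℝ} (hε : 0 < ε) {d k q : ℕ} (hk : 2 ≤ k) (hq : 8 / c1 ε ≤ q) (ha : ra d q ≤ A0 ε)
    (i j : Fin d) (hij : i ≠ j) (c c' : Fin q) (hc : c ≠ c') (b : Bool) {f : Site d k → Fin q} (hf : Prp f)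
    (u : Site d k) (hu : u ∈ cls b d k) (hn : Nc ε f u) (σ : Stp d) (hσ : σ ∈ pl i j) :
    |fm (!b) (fun h => (V1 ε i j c c' h u - 1) * sg c c' h (u + sv σ)) f| ≤
      2 * CW ε / (c1 ε * q) * (ra d q / c1 ε * (if f u = c ∨ f u = c' then (1 : ℝ) else 0) +
        1 / (c1 ε * q) * ∑ τ ∈ fs i j, ((nP i j c f (u + sv τ) : ℝ) + nP i j c' f (u + sv τ)) +
        10 * ra d q / (c1 ε ^ 2 * q)) := by
  classical
  have hc1 := R7_c1 ε
  have hk1 : 1 ≤ k := by omega
  have hm8 : 8 ≤ c1 ε * q := by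
    have := hq
    rw [div_le_iff₀ hc1] at this
    linarith
  have hq4 : 4 / c1 ε ≤ q := le_trans (div_le_div_of_nonneg_right (by norm_num) hc1.le) hq
  have hqpos : 1 ≤ q := by
    rcases Nat.eq_zero_or_pos q with h | h
    · exfalso
      rw [h] at hm8
      norm_num at hm8
    · exact h
  have hq0 : (0 : ℝ) < q := by exact_mod_cast hqpos
  set m : ℝ := c1 ε * q with hm
  have hm0 : 0 < m := by linarith
  have hcard : ∀ τ : Stp d, m ≤ ((xS i j f u τ).card : ℝ) := by
    intro τ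
    have h1 := (R7_card_xS i j hij f u τ).1
    have h2 : (av f (u + sv τ) : ℝ) ≤ ((xS i j f u τ).card : ℝ) := by exact_mod_cast h1
    exact le_trans (hn τ) h2
  have hpF : ∀ τ : Stp d, 0 ≤ pF i j c c' f u τ ∧ pF i j c c' f u τ ≤ 2 / m ∧ 2 / m ≤ 1 / 2 := fun τ =>
    pF_bound hε hq4 i j c c' f u τ (hcard τ)
  -- the weight
  have hV : ∀ h ∈ fib (!b) f, V1 ε i j c c' h u = WF i j c c' f u * BF i j c c' h u := by
    intro h hh
    unfold V1
    have hr : r1 ε i j h u := by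
      intro τ _
      rw [R7_xS_fib hk1 i j b hh u hu τ]
      exact hcard τ
    rw [if_pos hr]
    congr 1
    unfold WF
    refine prod_congr rfl fun τ _ => ?_
    unfold pF
    rw [R7_xS_fib hk1 i j b hh u hu τ]
  have hWF0 : 0 ≤ WF i j c c' f u := by
    unfold WF
    refine prod_nonneg fun τ _ => inv_nonneg.2 ?_
    have := hpF τ
    linarith
  have hWF : WF i j c c' f u ≤ CW ε := by
    unfold WF
    calc ∏ τ ∈ fs i j, (1 - pF i j c c' f u τ)⁻¹ ≤ ∏ τ ∈ fs i j, (4 : ℝ) ^ (2 / m) := by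
          refine prod_le_prod (fun τ _ => inv_nonneg.2 ?_) fun τ _ => ?_
          · have := hpF τ
            linarith
          · obtain ⟨p0, p1, p2⟩ := hpF τ
            exact le_trans (R7_four p0 (by linarith)) (Real.rpow_le_rpow_of_exponent_le (by norm_num) p1)
      _ = (4 : ℝ) ^ (2 / m * (fs i j).card) := by
          rw [prod_const, Real.rpow_mul (by norm_num), Real.rpow_natCast]
      _ ≤ CW ε := by
          unfold CW
          refine Real.rpow_le_rpow_of_exponent_le (by norm_num) ?_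
          have h1 := R7_card_fs (d := d) i j
          have h2 : 2 / m * (fs i j).card ≤ 2 / m * (2 * d) :=
            mul_le_mul_of_nonneg_left h1 (by positivity)
          have h3 : 2 / m * (2 * d) = 2 * ra d q / c1 ε := by
            rw [hm]
            unfold ra
            field_simp
          have h4 : 2 * ra d q / c1 ε ≤ 2 * A0 ε / c1 ε :=
            div_le_div_of_nonneg_right (by linarith) hc1.le
          linarith
  -- independence
  have hfm : fm (!b) (fun h => (V1 ε i j c c' h u - 1) * sg c c' h (u + sv σ)) f =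
      fm (!b) (fun h => sg c c' h (u + sv σ)) f * fm (!b) (fun h => WF i j c c' f u * BF i j c c' h u - 1) f := by
    rw [← fm_indep2 hk1 (!b) hf {u + sv σ} (fun h => sg c c' h (u + sv σ))
      (fun h => WF i j c c' f u * BF i j c c' h u - 1)]
    · refine fm_congr (!b) fun h hh => ?_
      rw [hV h hh]
      ring
    · intro h _ h' _ hv
      simp only [sg]
      rw [hv (u + sv σ) (mem_singleton_self _)]
    · intro h _ h' _ hv
      have h1 : ∀ τ ∈ fs i j, h (u + sv τ) = h' (u + sv τ) := by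
        intro τ hτ
        refine hv _ ?_
        rw [mem_singleton]
        intro h2
        have h3 : τ = σ := sv_inj hk (add_left_cancel h2)
        subst h3
        unfold fs at hτ
        unfold pl at hσ
        rw [mem_filter] at hτ hσ
        rcases hσ.2 with h4 | h4
        · exact hτ.2.1 h4
        · exact hτ.2.2 h4
      have h2 : BF i j c c' h u = BF i j c c' h' u := by
        unfold BF
        refine if_congr ?_ rfl rfl
        exact forall₂_congr fun τ hτ => by rw [h1 τ hτ]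
      simp only [h2]
  have hvσ : u + sv σ ∈ cls (!b) d k := by
    rw [mem_cls_step hk1, Bool.not_not]
    exact hu
  have hsg : |fm (!b) (fun h => sg c c' h (u + sv σ)) f| ≤ 1 / m := by
    have h1 : fm (!b) (fun h => sg c c' h (u + sv σ)) f =
        zz f (u + sv σ) c / (av f (u + sv σ) : ℝ) - zz f (u + sv σ) c' / (av f (u + sv σ) : ℝ) := by
      unfold sg
      rw [fm_sub, fm_ind hk1 (!b) hf _ hvσ c, fm_ind hk1 (!b) hf _ hvσ c']
    rw [h1]
    have h2 := zz_reg (ε := ε) (f := f) hqpos (u + sv σ) (hn σ) c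
    have h3 := zz_reg (ε := ε) (f := f) hqpos (u + sv σ) (hn σ) c'
    have h4 := (zz_av_le hf (u + sv σ) c).1
    have h5 := (zz_av_le hf (u + sv σ) c').1
    rw [abs_le]
    constructor <;> linarith
  have hBF : fm (!b) (fun h => BF i j c c' h u) f =
      ∏ τ ∈ fs i j, (1 - (zz f (u + sv τ) c + zz f (u + sv τ) c') / (av f (u + sv τ) : ℝ)) := by
    have hinj : Set.InjOn (fun τ : Stp d => u + sv τ) (fs i j : Set (Stp d)) := fun a _ b' _ h =>
      sv_inj hk (add_left_cancel h)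
    have h1 : ∀ h : Site d k → Fin q, BF i j c c' h u =
        ∏ v ∈ (fs i j).image (fun τ : Stp d => (u + sv τ : Site d k)),
          (fun (_ : Site d k) (γ : Fin q) => if γ ≠ c ∧ γ ≠ c' then (1 : ℝ) else 0) v (h v) := by
      intro h
      rw [prod_image hinj]
      unfold BF
      by_cases hall : ∀ σ ∈ fs i j, h (u + sv σ) ≠ c ∧ h (u + sv σ) ≠ c'
      · rw [if_pos hall]
        symm
        refine prod_eq_one fun τ hτ => ?_
        exact if_pos (hall τ hτ)
      · rw [if_neg hall]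
        push Not at hall
        obtain ⟨τ, hτ, h2⟩ := hall
        symm
        refine prod_eq_zero hτ ?_
        refine if_neg fun h3 => ?_
        exact h3.2 (h2 h3.1)
    simp only [h1]
    rw [fm_prod hk1 (!b) hf ((fs i j).image (fun τ : Stp d => (u + sv τ : Site d k))) ?_
      (fun (_ : Site d k) (γ : Fin q) => if γ ≠ c ∧ γ ≠ c' then (1 : ℝ) else 0)]
    · rw [prod_image hinj]
      refine prod_congr rfl fun τ _ => ?_
      have hav := av_pos hf (u + sv τ)
      have hav0 : (av f (u + sv τ) : ℝ) ≠ 0 := by exact_mod_cast (by omega : av f (u + sv τ) ≠ 0)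
      have h2 : ∀ γ : Fin q, (if γ ≠ c ∧ γ ≠ c' then (1 : ℝ) else 0) =
          1 - (if γ = c then (1 : ℝ) else 0) - (if γ = c' then (1 : ℝ) else 0) := by
        intro γ
        by_cases h3 : γ = c
        · have h4 : γ ≠ c' := fun h5 => hc (h3.symm.trans h5)
          simp [h3, hc]
        · by_cases h4 : γ = c'
          · simp [h4, hc.symm]
          · simp [h3, h4]
      have h3 : ∀ γ : Fin q, ∑ x ∈ (SS f (u + sv τ))ᶜ, (if x = γ then (1 : ℝ) else 0) = zz f (u + sv τ) γ := by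
        intro γ
        rw [sum_ite_eq' (SS f (u + sv τ))ᶜ γ]
        unfold zz
        by_cases h4 : γ ∈ SS f (u + sv τ)
        · rw [if_pos h4, if_neg (by simpa using h4)]
        · rw [if_neg h4, if_pos (by simpa using h4)]
      have h4 : ∑ γ ∈ (SS f (u + sv τ))ᶜ, (if γ ≠ c ∧ γ ≠ c' then (1 : ℝ) else 0) =
          (av f (u + sv τ) : ℝ) - (zz f (u + sv τ) c + zz f (u + sv τ) c') := by
        simp only [h2]
        rw [sum_sub_distrib, sum_sub_distrib, h3 c, h3 c', sum_const, R7_card_av, nsmul_eq_mul, mul_one]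
        ring
      rw [h4, sub_div, div_self hav0]
    · intro v hv
      obtain ⟨τ, _, rfl⟩ := mem_image.1 hv
      rw [mem_cls_step hk1, Bool.not_not]
      exact hu
  have hp01 : ∀ τ : Stp d, 0 ≤ (zz f (u + sv τ) c + zz f (u + sv τ) c') / (av f (u + sv τ) : ℝ) ∧
      (zz f (u + sv τ) c + zz f (u + sv τ) c') / (av f (u + sv τ) : ℝ) ≤ 2 / m := by
    intro τ
    have h2 := zz_reg (ε := ε) (f := f) hqpos (u + sv τ) (hn τ) c
    have h3 := zz_reg (ε := ε) (f := f) hqpos (u + sv τ) (hn τ) c'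
    have h4 := (zz_av_le hf (u + sv τ) c).1
    have h5 := (zz_av_le hf (u + sv τ) c').1
    rw [add_div]
    refine ⟨by linarith, ?_⟩
    have h6 : 2 / m = 1 / m + 1 / m := by ring
    rw [h6]
    linarith
  have hWeq : WF i j c c' f u * ∏ τ ∈ fs i j, (1 - pF i j c c' f u τ) = 1 := by
    unfold WF
    rw [← prod_mul_distrib]
    refine prod_eq_one fun τ _ => ?_
    refine inv_mul_cancel₀ ?_
    have := hpF τ
    intro h0
    linarith
  have hG : |fm (!b) (fun h => WF i j c c' f u * BF i j c c' h u - 1) f| ≤ CW ε *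
      ∑ τ ∈ fs i j, |pF i j c c' f u τ - (zz f (u + sv τ) c + zz f (u + sv τ) c') / (av f (u + sv τ) : ℝ)| := by
    rw [fm_sub, fm_mul, fm_const _ hf, hBF]
    have h1 : WF i j c c' f u *
        ∏ τ ∈ fs i j, (1 - (zz f (u + sv τ) c + zz f (u + sv τ) c') / (av f (u + sv τ) : ℝ)) - 1 =
        WF i j c c' f u *
        (∏ τ ∈ fs i j, (1 - (zz f (u + sv τ) c + zz f (u + sv τ) c') / (av f (u + sv τ) : ℝ)) -
          ∏ τ ∈ fs i j, (1 - pF i j c c' f u τ)) := by
      rw [mul_sub, hWeq]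
    rw [h1, abs_mul, abs_of_nonneg hWF0]
    refine mul_le_mul hWF ?_ (abs_nonneg _) (le_trans hWF0 hWF)
    refine le_trans (R7_prod_diff _ _ _ (fun τ _ => ?_) fun τ _ => ?_) ?_
    · have h2 := hp01 τ
      have h3 := hpF τ
      constructor <;> linarith
    · have h3 := hpF τ
      constructor <;> linarith
    · refine sum_le_sum fun τ _ => le_of_eq ?_
      congr 1
      ring
  have hS : ∑ τ ∈ fs i j, |pF i j c c' f u τ - (zz f (u + sv τ) c + zz f (u + sv τ) c') / (av f (u + sv τ) : ℝ)| ≤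
      ra d q / c1 ε * (if f u = c ∨ f u = c' then (1 : ℝ) else 0) +
        1 / m * ∑ τ ∈ fs i j, ((nP i j c f (u + sv τ) : ℝ) + nP i j c' f (u + sv τ)) +
        10 * ra d q / (c1 ε ^ 2 * q) := by
    have h1 : ∀ τ ∈ fs i j, |pF i j c c' f u τ -
        (zz f (u + sv τ) c + zz f (u + sv τ) c') / (av f (u + sv τ) : ℝ)| ≤
        (1 / m * (if f u = c ∨ f u = c' then (1 : ℝ) else 0) + 10 / m ^ 2) +
          1 / m * ((nP i j c f (u + sv τ) : ℝ) + nP i j c' f (u + sv τ)) := by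
      intro τ hτ
      have h2 := pF_diff hε hk hq i j hij c c' hc hf u τ hτ (hn τ)
      rw [← hm] at h2
      refine le_trans h2 (le_of_eq ?_)
      ring
    refine le_trans (sum_le_sum h1) ?_
    rw [sum_add_distrib, sum_const, nsmul_eq_mul, ← mul_sum]
    have h2 := R7_card_fs (d := d) i j
    have hi : (0 : ℝ) ≤ (if f u = c ∨ f u = c' then (1 : ℝ) else 0) := by split_ifs <;> norm_num
    have h3 : ((fs i j).card : ℝ) * (1 / m * (if f u = c ∨ f u = c' then (1 : ℝ) else 0) + 10 / m ^ 2) ≤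
        2 * d * (1 / m * (if f u = c ∨ f u = c' then (1 : ℝ) else 0) + 10 / m ^ 2) :=
      mul_le_mul_of_nonneg_right h2 (by positivity)
    have h4 : 2 * d * (1 / m * (if f u = c ∨ f u = c' then (1 : ℝ) else 0) + 10 / m ^ 2) =
        ra d q / c1 ε * (if f u = c ∨ f u = c' then (1 : ℝ) else 0) + 10 * ra d q / (c1 ε ^ 2 * q) := by
      rw [hm]
      unfold ra
      field_simp
    linarith
  rw [hfm, abs_mul]
  have hCW : 0 ≤ CW ε := le_trans hWF0 hWF
  have hS0 : 0 ≤ ra d q / c1 ε * (if f u = c ∨ f u = c' then (1 : ℝ) else 0) +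
        1 / m * ∑ τ ∈ fs i j, ((nP i j c f (u + sv τ) : ℝ) + nP i j c' f (u + sv τ)) +
        10 * ra d q / (c1 ε ^ 2 * q) := le_trans (sum_nonneg fun _ _ => abs_nonneg _) hS
  calc |fm (!b) (fun h => sg c c' h (u + sv σ)) f| *
      |fm (!b) (fun h => WF i j c c' f u * BF i j c c' h u - 1) f| ≤ 1 / m * (CW ε *
        (ra d q / c1 ε * (if f u = c ∨ f u = c' then (1 : ℝ) else 0) +
        1 / m * ∑ τ ∈ fs i j, ((nP i j c f (u + sv τ) : ℝ) + nP i j c' f (u + sv τ)) +
        10 * ra d q / (c1 ε ^ 2 * q))) :=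
        mul_le_mul hsg (le_trans hG (mul_le_mul_of_nonneg_left hS hCW)) (abs_nonneg _) (by positivity)
    _ ≤ 2 * (1 / m * (CW ε *
        (ra d q / c1 ε * (if f u = c ∨ f u = c' then (1 : ℝ) else 0) +
        1 / m * ∑ τ ∈ fs i j, ((nP i j c f (u + sv τ) : ℝ) + nP i j c' f (u + sv τ)) +
        10 * ra d q / (c1 ε ^ 2 * q)))) := by
        have : 0 ≤ 1 / m * (CW ε *
        (ra d q / c1 ε * (if f u = c ∨ f u = c' then (1 : ℝ) else 0) +
        1 / m * ∑ τ ∈ fs i j, ((nP i j c f (u + sv τ) : ℝ) + nP i j c' f (u + sv τ)) +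
        10 * ra d q / (c1 ε ^ 2 * q))) := mul_nonneg (by positivity) (mul_nonneg hCW hS0)
        linarith
    _ = _ := by ring

end Pool.Agent.THR
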