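import Pool.Agent.Lib_MP_2c424f_thr.R3

/-!
# THR R8a: two more sums (paper proof: R8)

* `one_sum`: `WOPi_tail` for the class `b`: mean `∑_{u ∈ b} |w_u| (z^c + z^c')/x ≤ (2/(c1 q)) W + 2 irr`.
* `two_sum`: `∑_{u ∈ b} |w_u| ∑_{τ ∈ fs} ∑_{ρ ∈ pl} 1[f(u+τ+ρ) ∈ {c,c'}]`, sites of the class `b`; resample `b`: mean
  `≤ ∑_u |w_u| · (2d · 4) · 2/(c1 q) + 16 d · irr`; `16 d/(c1 q) = 8 a/c1`; bounded differences `≤ 16 d`.
-/

set_option autoImplicit false

open Finset Filter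

namespace Pool.Agent.THR

open Pool.Agent.LO Pool.Agent.LIN

/-- number of the sites `u + D t`, `t ∈ T`, with colour `c` or `c'`, weighted sum over the class -/
private noncomputable def R8aPs {d k q : ℕ} {ι : Type} (b : Bool) (w : Site d k → ℝ) (T : Finset ι) (D : ι → Site d k)
    (c c' : Fin q) (f : Site d k → Fin q) : ℝ :=
  ∑ u ∈ cls b d k, |w u| * ∑ t ∈ T,
    ((if f (u + D t) = c then (1 : ℝ) else 0) + (if f (u + D t) = c' then (1 : ℝ) else 0))

private theorem R8a_c1_pos (ε : ℝ) : 0 < c1 ε := by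
  unfold c1
  positivity

private theorem R8a_diff {q : ℕ} (a e c c' : Fin q) :
    |((if a = c then (1 : ℝ) else 0) + (if a = c' then (1 : ℝ) else 0)) -
      ((if e = c then (1 : ℝ) else 0) + (if e = c' then (1 : ℝ) else 0))| ≤ 2 := by
  have h1 : ∀ (x y : Fin q), 0 ≤ (if x = y then (1 : ℝ) else 0) ∧ (if x = y then (1 : ℝ) else 0) ≤ 1 := by
    intro x y
    split_ifs <;> norm_num
  have ha := h1 a c
  have hb := h1 a c'
  have hc := h1 e c
  have hd := h1 e c'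
  rw [abs_le]
  constructor <;> linarith [ha.1, ha.2, hb.1, hb.2, hc.1, hc.2, hd.1, hd.2]

private theorem R8a_lip {d k q : ℕ} {ι : Type} (b : Bool) (w : Site d k → ℝ) (hw : ∀ x, |w x| ≤ 1)
    (T : Finset ι) (D : ι → Site d k) (c c' : Fin q) :
    Lip b (2 * (T.card : ℝ)) (R8aPs b w T D c c') := by
  classical
  intro f _ h _ v _ γ _
  unfold R8aPs
  rw [← Finset.sum_sub_distrib]
  calc |∑ u ∈ cls b d k, (|w u| * ∑ t ∈ T,
        ((if Function.update h v γ (u + D t) = c then (1 : ℝ) else 0) +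
          (if Function.update h v γ (u + D t) = c' then (1 : ℝ) else 0)) -
        |w u| * ∑ t ∈ T, ((if h (u + D t) = c then (1 : ℝ) else 0) + (if h (u + D t) = c' then (1 : ℝ) else 0)))|
      ≤ ∑ u ∈ cls b d k, ∑ t ∈ T, (if u + D t = v then (2 : ℝ) else 0) := by
        refine (Finset.abs_sum_le_sum_abs _ _).trans (Finset.sum_le_sum fun u _ => ?_)
        rw [← mul_sub, ← Finset.sum_sub_distrib, abs_mul, abs_abs]
        calc |w u| * |∑ t ∈ T, (((if Function.update h v γ (u + D t) = c then (1 : ℝ) else 0) +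
              (if Function.update h v γ (u + D t) = c' then (1 : ℝ) else 0)) -
              ((if h (u + D t) = c then (1 : ℝ) else 0) + (if h (u + D t) = c' then (1 : ℝ) else 0)))|
            ≤ 1 * |∑ t ∈ T, (((if Function.update h v γ (u + D t) = c then (1 : ℝ) else 0) +
              (if Function.update h v γ (u + D t) = c' then (1 : ℝ) else 0)) -
              ((if h (u + D t) = c then (1 : ℝ) else 0) + (if h (u + D t) = c' then (1 : ℝ) else 0)))| :=
              mul_le_mul_of_nonneg_right (hw u) (abs_nonneg _)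
          _ ≤ ∑ t ∈ T, (if u + D t = v then (2 : ℝ) else 0) := by
              rw [one_mul]
              refine (Finset.abs_sum_le_sum_abs _ _).trans (Finset.sum_le_sum fun t _ => ?_)
              by_cases hv : u + D t = v
              · rw [if_pos hv]
                exact R8a_diff _ _ _ _
              · rw [if_neg hv, Function.update_of_ne hv, sub_self, abs_zero]
    _ = ∑ t ∈ T, ∑ u ∈ cls b d k, (if u + D t = v then (2 : ℝ) else 0) := Finset.sum_comm
    _ ≤ ∑ t ∈ T, (2 : ℝ) := by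
        refine Finset.sum_le_sum fun t _ => ?_
        have h2 : ∀ u : Site d k, (u + D t = v) = (u = v - D t) := by
          intro u
          exact propext ⟨fun h => by rw [← h, add_sub_cancel_right], fun h => by rw [h, sub_add_cancel]⟩
        simp only [h2]
        rw [Finset.sum_ite_eq']
        split_ifs <;> norm_num
    _ = 2 * (T.card : ℝ) := by
        rw [Finset.sum_const, nsmul_eq_mul, mul_comm]

private theorem R8a_zz {ε : ℝ} {d k q : ℕ} (hq : 1 ≤ q) {f : Site d k → Fin q} (hf : Prp f) (v : Site d k) (c : Fin q) :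
    zz f v c / (av f v : ℝ) ≤ 1 / (c1 ε * q) + (if (av f v : ℝ) < c1 ε * q then (1 : ℝ) else 0) := by
  by_cases h : (av f v : ℝ) < c1 ε * q
  · rw [if_pos h]
    have h1 := (zz_av_le hf v c).2
    have h2 : 0 ≤ 1 / (c1 ε * q) := by
      have := R8a_c1_pos ε
      positivity
    linarith
  · rw [if_neg h, add_zero]
    exact zz_reg hq v (not_lt.mp h) c

private theorem R8a_irr (ε : ℝ) {d k q : ℕ} (b : Bool) (f : Site d k → Fin q) (s : Site d k) :
    ∑ u ∈ cls b d k, (if (av f (u + s) : ℝ) < c1 ε * q then (1 : ℝ) else 0) ≤ irr ε f := by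
  classical
  have h1 : ∑ u : Site d k, (if (av f (u + s) : ℝ) < c1 ε * q then (1 : ℝ) else 0) = irr ε f := by
    have h2 : irr ε f = ∑ x : Site d k, (if (av f x : ℝ) < c1 ε * q then (1 : ℝ) else 0) := by
      unfold irr
      rw [Finset.sum_ite, Finset.sum_const_zero, add_zero, Finset.sum_const, nsmul_eq_mul, mul_one]
    rw [h2]
    exact Fintype.sum_equiv (Equiv.addRight s) _ _ (fun x => by simp)
  rw [← h1]
  refine Finset.sum_le_univ_sum_of_nonneg fun u => ?_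
  split_ifs <;> norm_num

private theorem R8a_mean {ε : ℝ} {d k q : ℕ} {ι : Type} (hk : 1 ≤ k) (hq : 1 ≤ q) (b : Bool) (w : Site d k → ℝ)
    (hw : ∀ x, |w x| ≤ 1) (T : Finset ι) (D : ι → Site d k)
    (hD : ∀ u ∈ cls b d k, ∀ t ∈ T, u + D t ∈ cls b d k) (c c' : Fin q) {f : Site d k → Fin q} (hf : Prp f) :
    fm b (R8aPs b w T D c c') f ≤
      2 * (T.card : ℝ) / (c1 ε * q) * Wt b w + 2 * (T.card : ℝ) * irr ε f := by
  classical
  have hc1 := R8a_c1_pos ε
  have e1 : fm b (R8aPs b w T D c c') f = ∑ u ∈ cls b d k, |w u| * ∑ t ∈ T,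
      (zz f (u + D t) c / (av f (u + D t) : ℝ) + zz f (u + D t) c' / (av f (u + D t) : ℝ)) := by
    unfold R8aPs
    rw [fm_sum b f (cls b d k) (fun u h => |w u| * ∑ t ∈ T,
      ((if h (u + D t) = c then (1 : ℝ) else 0) + (if h (u + D t) = c' then (1 : ℝ) else 0)))]
    refine Finset.sum_congr rfl fun u hu => ?_
    rw [fm_mul, fm_sum b f T (fun t h =>
      ((if h (u + D t) = c then (1 : ℝ) else 0) + (if h (u + D t) = c' then (1 : ℝ) else 0)))]
    congr 1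
    refine Finset.sum_congr rfl fun t ht => ?_
    rw [fm_add b f (fun h => if h (u + D t) = c then (1 : ℝ) else 0)
      (fun h => if h (u + D t) = c' then (1 : ℝ) else 0)]
    rw [fm_ind hk b hf (u + D t) (hD u hu t ht) c, fm_ind hk b hf (u + D t) (hD u hu t ht) c']
  rw [e1]
  have e2 : ∀ u ∈ cls b d k, |w u| * ∑ t ∈ T,
      (zz f (u + D t) c / (av f (u + D t) : ℝ) + zz f (u + D t) c' / (av f (u + D t) : ℝ)) ≤
      2 * (T.card : ℝ) / (c1 ε * q) * |w u| +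
        2 * ∑ t ∈ T, (if (av f (u + D t) : ℝ) < c1 ε * q then (1 : ℝ) else 0) := by
    intro u _
    have e3 : ∑ t ∈ T, (zz f (u + D t) c / (av f (u + D t) : ℝ) + zz f (u + D t) c' / (av f (u + D t) : ℝ)) ≤
        2 * (T.card : ℝ) / (c1 ε * q) +
        2 * ∑ t ∈ T, (if (av f (u + D t) : ℝ) < c1 ε * q then (1 : ℝ) else 0) := by
      have e4 : 2 * (T.card : ℝ) / (c1 ε * q) = ∑ t ∈ T, 2 * (1 / (c1 ε * q)) := by
        rw [Finset.sum_const, nsmul_eq_mul]
        ring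
      rw [e4, Finset.mul_sum, ← Finset.sum_add_distrib]
      refine Finset.sum_le_sum fun t _ => ?_
      have := R8a_zz (ε := ε) hq hf (u + D t) c
      have := R8a_zz (ε := ε) hq hf (u + D t) c'
      linarith
    have e5 : 0 ≤ ∑ t ∈ T, (if (av f (u + D t) : ℝ) < c1 ε * q then (1 : ℝ) else 0) := by
      refine Finset.sum_nonneg fun t _ => ?_
      split_ifs <;> norm_num
    have e6 := mul_le_mul_of_nonneg_left e3 (abs_nonneg (w u))
    have e7 := mul_le_mul_of_nonneg_right (hw u) (mul_nonneg (by norm_num : (0 : ℝ) ≤ 2) e5)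
    linarith
  refine (Finset.sum_le_sum e2).trans ?_
  rw [Finset.sum_add_distrib, ← Finset.mul_sum, ← Finset.mul_sum, Finset.sum_comm]
  have e8 : ∑ t ∈ T, ∑ u ∈ cls b d k, (if (av f (u + D t) : ℝ) < c1 ε * q then (1 : ℝ) else 0) ≤
      (T.card : ℝ) * irr ε f := by
    refine (Finset.sum_le_sum fun t _ => R8a_irr ε b f (D t)).trans ?_
    rw [Finset.sum_const, nsmul_eq_mul]
  unfold Wt
  linarith

private theorem R8a_cls {d k : ℕ} (hk : 1 ≤ k) (b : Bool) {u : Site d k} (hu : u ∈ cls b d k) (σ τ : Stp d) :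
    u + (sv σ + sv τ) ∈ cls b d k := by
  rw [← add_assoc]
  cases b
  · simp only [cls, ods, Bool.false_eq_true, if_false, Finset.mem_filter, Finset.mem_univ, true_and] at hu ⊢
    rw [evn_step hk, evn_step hk, not_not]
    exact hu
  · simp only [cls, evs, if_true, Finset.mem_filter, Finset.mem_univ, true_and] at hu ⊢
    rw [evn_step hk, evn_step hk, not_not]
    exact hu

/-- absorb the error terms -/
private theorem R8a_err {d : ℕ} (N x a : ℝ) (K s : ℕ) (hd : 1 ≤ d) (hN : 0 ≤ N) (ha : 0 ≤ a)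
    (hx : x ≤ N / (d : ℝ) ^ (K + 1 + s)) (had : a + 1 ≤ d) :
    a * (d : ℝ) ^ s * x + N / (d : ℝ) ^ (K + 1) ≤ N / (d : ℝ) ^ K := by
  have hd0 : (0 : ℝ) < d := by exact_mod_cast hd
  have h1 : a * (d : ℝ) ^ s * x ≤ a * (d : ℝ) ^ s * (N / (d : ℝ) ^ (K + 1 + s)) :=
    mul_le_mul_of_nonneg_left hx (by positivity)
  have h2 : a * (d : ℝ) ^ s * (N / (d : ℝ) ^ (K + 1 + s)) = a * (N / (d : ℝ) ^ (K + 1)) := by
    rw [pow_add (d : ℝ) (K + 1) s]
    field_simp
  have h3 : N / (d : ℝ) ^ K = d * (N / (d : ℝ) ^ (K + 1)) := by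
    rw [pow_succ]
    field_simp
  have h4 : 0 ≤ N / (d : ℝ) ^ (K + 1) := by positivity
  have h5 := mul_le_mul_of_nonneg_right had h4
  rw [h3]
  linarith

private theorem R8a_NN (d k : ℕ) : 0 ≤ NN d k := by
  unfold NN
  positivity

theorem one_sum {ε : ℝ} (hε : 0 < ε) (hε1 : ε ≤ 1) (K : ℕ) : WOPi ε Ix fun d k q p f => okx p →
    ∑ u ∈ cls p.1 d k, |p.2.2.2 u| * (if f u = p.2.2.1.1 ∨ f u = p.2.2.1.2 then (1 : ℝ) else 0) ≤
      2 / (c1 ε * q) * Wt p.1 p.2.2.2 + NN d k / (d : ℝ) ^ K := by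
  have h1 := WOPi_tail hε hε1 Ix (fun _ _ _ p => p.1) (fun _ _ _ p => okx p)
    (fun d k q p f => R8aPs p.1 p.2.2.2 (univ : Finset Unit) (fun _ => 0) p.2.2.1.1 p.2.2.1.2 f) 1 (K + 1)
    (by
      refine (EvT_reg hε hε1 3).mono fun d k q h p hp => ?_
      have h2 := R8a_lip p.1 p.2.2.2 hp.2.2 (univ : Finset Unit) (fun _ => 0) p.2.2.1.1 p.2.2.1.2
      intro f hf h' hh v hv γ hγ
      refine (h2 f hf h' hh v hv γ hγ).trans ?_
      rw [pow_one]
      have h3 : ((univ : Finset Unit).card : ℝ) = 1 := by simp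
      rw [h3]
      linarith [h.1])
  refine (h1.and ((avail hε hε1 (K + 1)).toi Ix)).mono ?_
  refine (EvT_reg hε hε1 3).mono fun d k q h p f hf hpf hp => ?_
  obtain ⟨ha, hb⟩ := hpf
  have ha := ha hp
  have hfp : Prp f := by
    simpa [prps] using hf
  have hd : 1 ≤ d := by
    have : (1 : ℝ) ≤ d := by linarith [h.1]
    exact_mod_cast this
  have hq : 1 ≤ q := by
    have : (1 : ℝ) ≤ q := by linarith [h.2.1]
    exact_mod_cast this
  have hk : 1 ≤ k := by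
    have : (1 : ℝ) ≤ k := by linarith [h.2.2.1]
    exact_mod_cast this
  have hm := R8a_mean (ε := ε) hk hq p.1 p.2.2.2 hp.2.2 (univ : Finset Unit) (fun _ => 0)
    (fun u hu t _ => by simpa using hu) p.2.2.1.1 p.2.2.1.2 hfp
  have h3 : ((univ : Finset Unit).card : ℝ) = 1 := by simp
  rw [h3] at hm
  have he := R8a_err (NN d k) (irr ε f) 2 K 0 hd (R8a_NN d k) (by norm_num) (by simpa using hb) (by linarith [h.1])
  have h4 : ∑ u ∈ cls p.1 d k, |p.2.2.2 u| * (if f u = p.2.2.1.1 ∨ f u = p.2.2.1.2 then (1 : ℝ) else 0) ≤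
      R8aPs p.1 p.2.2.2 (univ : Finset Unit) (fun _ => 0) p.2.2.1.1 p.2.2.1.2 f := by
    unfold R8aPs
    refine Finset.sum_le_sum fun u _ => mul_le_mul_of_nonneg_left ?_ (abs_nonneg _)
    simp only [Finset.univ_unique, Finset.sum_singleton, add_zero]
    by_cases hc : f u = p.2.2.1.1
    · rw [if_pos (Or.inl hc), if_pos hc]
      split_ifs <;> norm_num
    · by_cases hc' : f u = p.2.2.1.2
      · rw [if_pos (Or.inr hc'), if_neg hc, if_pos hc']
        norm_num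
      · rw [if_neg (not_or.mpr ⟨hc, hc'⟩), if_neg hc, if_neg hc']
        norm_num
  rw [pow_zero] at he
  have hm' : fm p.1 (R8aPs p.1 p.2.2.2 (univ : Finset Unit) (fun _ => 0) p.2.2.1.1 p.2.2.1.2) f ≤
      2 / (c1 ε * q) * Wt p.1 p.2.2.2 + 2 * irr ε f := by
    simpa using hm
  have ha' : R8aPs p.1 p.2.2.2 (univ : Finset Unit) (fun _ => 0) p.2.2.1.1 p.2.2.1.2 f ≤
      fm p.1 (R8aPs p.1 p.2.2.2 (univ : Finset Unit) (fun _ => 0) p.2.2.1.1 p.2.2.1.2) f +
        NN d k / (d : ℝ) ^ (K + 1) := ha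
  linarith

theorem two_sum {ε : ℝ} (hε : 0 < ε) (hε1 : ε ≤ 1) (K : ℕ) : WOPi ε Ix fun d k q p f => okx p →
    ∑ u ∈ cls p.1 d k, |p.2.2.2 u| * ∑ τ ∈ fs p.2.1.1 p.2.1.2,
      ((nP p.2.1.1 p.2.1.2 p.2.2.1.1 f (u + sv τ) : ℝ) + nP p.2.1.1 p.2.1.2 p.2.2.1.2 f (u + sv τ)) ≤
      8 * A0 ε / c1 ε * Wt p.1 p.2.2.2 + NN d k / (d : ℝ) ^ K := by
  have hcard : ∀ {d : ℕ} (i j : Fin d), i ≠ j →
      ((fs i j ×ˢ pl i j).card : ℝ) ≤ 8 * d := by
    intro d i j hij
    rw [Finset.card_product, card_pl i j hij]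
    have h1 : (fs i j).card ≤ 2 * d := by
      refine (Finset.card_le_univ _).trans ?_
      simp only [Fintype.card_prod, Fintype.card_fin, Fintype.card_bool]
      omega
    have h2 : ((fs i j).card : ℝ) ≤ 2 * d := by exact_mod_cast h1
    push_cast
    linarith
  have h1 := WOPi_tail hε hε1 Ix (fun _ _ _ p => p.1) (fun _ _ _ p => okx p)
    (fun d k q p f => R8aPs p.1 p.2.2.2 (fs p.2.1.1 p.2.1.2 ×ˢ pl p.2.1.1 p.2.1.2)
      (fun s => sv s.1 + sv s.2) p.2.2.1.1 p.2.2.1.2 f) 2 (K + 1)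
    (by
      refine (EvT_reg hε hε1 17).mono fun d k _ h p hp => ?_
      have h2 := R8a_lip p.1 p.2.2.2 hp.2.2 (fs p.2.1.1 p.2.1.2 ×ˢ pl p.2.1.1 p.2.1.2)
        (fun s => (sv s.1 + sv s.2 : Site d k)) p.2.2.1.1 p.2.2.1.2
      intro f hf h' hh v hv γ hγ
      refine (h2 f hf h' hh v hv γ hγ).trans ?_
      have h3 := hcard p.2.1.1 p.2.1.2 hp.1
      have h4 : (16 : ℝ) * d ≤ d ^ 2 := by nlinarith [h.1]
      linarith)
  refine (h1.and ((avail hε hε1 (K + 2)).toi Ix)).mono ?_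
  refine (EvT_reg hε hε1 17).mono fun d k q h p f hf hpf hp => ?_
  obtain ⟨ha, hb⟩ := hpf
  have ha := ha hp
  have hfp : Prp f := by
    simpa [prps] using hf
  have hd : 1 ≤ d := by
    have : (1 : ℝ) ≤ d := by linarith [h.1]
    exact_mod_cast this
  have hq0 : (1 : ℝ) ≤ q := by linarith [h.2.1]
  have hq : 1 ≤ q := by
    exact_mod_cast hq0
  have hk : 1 ≤ k := by
    have : (1 : ℝ) ≤ k := by linarith [h.2.2.1]
    exact_mod_cast this
  have hm := R8a_mean (ε := ε) hk hq p.1 p.2.2.2 hp.2.2 (fs p.2.1.1 p.2.1.2 ×ˢ pl p.2.1.1 p.2.1.2)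
    (fun s => (sv s.1 + sv s.2 : Site d k))
    (fun u hu t _ => R8a_cls hk p.1 hu t.1 t.2) p.2.2.1.1 p.2.2.1.2 hfp
  have h3 := hcard p.2.1.1 p.2.1.2 hp.1
  have he := R8a_err (NN d k) (irr ε f) 16 K 1 hd (R8a_NN d k) (by norm_num) hb (by linarith [h.1])
  have h4 : ∑ u ∈ cls p.1 d k, |p.2.2.2 u| * ∑ τ ∈ fs p.2.1.1 p.2.1.2,
      ((nP p.2.1.1 p.2.1.2 p.2.2.1.1 f (u + sv τ) : ℝ) + nP p.2.1.1 p.2.1.2 p.2.2.1.2 f (u + sv τ)) =
      R8aPs p.1 p.2.2.2 (fs p.2.1.1 p.2.1.2 ×ˢ pl p.2.1.1 p.2.1.2)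
        (fun s => sv s.1 + sv s.2) p.2.2.1.1 p.2.2.1.2 f := by
    unfold R8aPs
    refine Finset.sum_congr rfl fun u _ => ?_
    congr 1
    rw [Finset.sum_product]
    refine Finset.sum_congr rfl fun τ _ => ?_
    rw [Finset.sum_add_distrib]
    simp only [nP, Finset.card_filter, Nat.cast_sum, Nat.cast_ite, Nat.cast_one, Nat.cast_zero, add_assoc]
  rw [h4]
  have hc1 := R8a_c1_pos ε
  have hW : 0 ≤ Wt p.1 p.2.2.2 := Finset.sum_nonneg fun _ _ => abs_nonneg _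
  have hirr : 0 ≤ irr ε f := by
    unfold irr
    positivity
  have h5 : 2 * ((fs p.2.1.1 p.2.1.2 ×ˢ pl p.2.1.1 p.2.1.2).card : ℝ) / (c1 ε * q) ≤ 8 * A0 ε / c1 ε := by
    have h6 : 2 * ((fs p.2.1.1 p.2.1.2 ×ˢ pl p.2.1.1 p.2.1.2).card : ℝ) ≤ 8 * ra d q * q := by
      have := h.2.2.2.2.2.2.2
      linarith
    have h7 : 8 * ra d q * q ≤ 8 * A0 ε * q := by
      have := h.2.2.2.2.2.2.1
      have hq1 : (0 : ℝ) ≤ q := by linarith
      nlinarith
    rw [div_le_div_iff₀ (by positivity) hc1]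
    have h8 := mul_le_mul_of_nonneg_right (h6.trans h7) hc1.le
    linarith
  have h6 := mul_le_mul_of_nonneg_right h5 hW
  have h7 : 2 * ((fs p.2.1.1 p.2.1.2 ×ˢ pl p.2.1.1 p.2.1.2).card : ℝ) * irr ε f ≤ 16 * (d : ℝ) * irr ε f :=
    mul_le_mul_of_nonneg_right (by linarith) hirr
  rw [pow_one] at he
  have ha' : R8aPs p.1 p.2.2.2 (fs p.2.1.1 p.2.1.2 ×ˢ pl p.2.1.1 p.2.1.2)
        (fun s => sv s.1 + sv s.2) p.2.2.1.1 p.2.2.1.2 f ≤
      fm p.1 (R8aPs p.1 p.2.2.2 (fs p.2.1.1 p.2.1.2 ×ˢ pl p.2.1.1 p.2.1.2)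
        (fun s => sv s.1 + sv s.2) p.2.2.1.1 p.2.2.1.2) f + NN d k / (d : ℝ) ^ (K + 1) := ha
  linarith

end Pool.Agent.THR
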