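import Pool.Agent.Lib_MP_2c424f_thr.R3
import Pool.Agent.Lib_MP_2c424f_thr.R6
import Pool.Agent.Lib_MP_2c424f_thr.R7
import Pool.Agent.Lib_MP_2c424f_thr.R8a

/-!
# THR R8: unweighting (paper proof: R8)

* `one_sum`: resample the class `b`: mean `∑_{u ∈ b} |w_u| (z^c + z^c')/x ≤ (2/(c1 q)) W + 2 irr`.
* `two_sum`: `∑_{u ∈ b} |w_u| ∑_{τ ∈ fs} ∑_{ρ ∈ pl} 1[f(u+τ+ρ) ∈ {c,c'}]`, sites of the class `b`; resample `b`: mean
  `≤ ∑_u |w_u| · (2d · 4) · 2/(c1 q) + 16 d · irr`; `16 d/(c1 q) = 8 a/c1`; bounded differences `≤ 8 d · 2`.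
* `unweight`: `|VF - V1| ≤ CW 1[av f u < c1 q]` (`av_aF`).  `Ψ = ± ∑ w_u (V1_u - 1) sg(u+σ)`, class `!b` (a change at a
  site changes at most `2d + 1` summands by `≤ 2 (CW+1)`), `V1_mean` at nice `u`, `≤ CW + 1` at the other `u`
  (at most `2 d irr`, `not_nice`), `one_sum`, `two_sum`, `avail`.
-/

set_option autoImplicit false

open Finset Filter

namespace Pool.Agent.THR

open Pool.Agent.LO Pool.Agent.LIN

private theorem R8_c1_pos (ε : ℝ) : 0 < c1 ε := by
  unfold c1; positivity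

private theorem R8_CW_pos (ε : ℝ) : 0 < CW ε := by
  unfold CW; positivity

private theorem R8_NN_pos (d k : ℕ) : 0 < NN d k := by
  unfold NN; positivity

/-- the sum whose mean is computed -/
private noncomputable def R8Psi (ε : ℝ) {d k q : ℕ} (p : Ixs d k q) (f : Site d k → Fin q) : ℝ :=
  ∑ u ∈ cls p.1.1 d k, p.1.2.2.2 u *
    ((V1 ε p.1.2.1.1 p.1.2.1.2 p.1.2.2.1.1 p.1.2.2.1.2 f u - 1) * sg p.1.2.2.1.1 p.1.2.2.1.2 f (u + sv p.2))

section
variable {d k q : ℕ}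

private theorem R8_two (hk : 1 ≤ k) (b : Bool) (u : Site d k) (hu : u ∈ cls b d k) (τ ρ : Stp d) :
    u + sv τ + sv ρ ∈ cls b d k := by
  rw [mem_cls_step hk, mem_cls_step hk, Bool.not_not]
  exact hu

private theorem R8_eq (hk : 1 ≤ k) (ε : ℝ) (i j : Fin d) (c c' : Fin q) (b : Bool) (u : Site d k) (hu : u ∈ cls b d k)
    (v : Site d k) (hv : v ∈ cls (!b) d k) (h : Site d k → Fin q) (γ : Fin q) (σ : Stp d)
    (hne : ∀ ρ : Stp d, u + sv ρ ≠ v) :
    V1 ε i j c c' (Function.update h v γ) u = V1 ε i j c c' h u ∧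
      sg c c' (Function.update h v γ) (u + sv σ) = sg c c' h (u + sv σ) := by
  have h2 : ∀ τ ρ : Stp d, Function.update h v γ (u + sv τ + sv ρ) = h (u + sv τ + sv ρ) := by
    intro τ ρ
    refine Function.update_of_ne ?_ _ _
    intro h3
    have h4 := R8_two hk b u hu τ ρ
    rw [h3] at h4
    exact (cls_not b v).1 hv h4
  have h1 : ∀ τ : Stp d, Function.update h v γ (u + sv τ) = h (u + sv τ) := by
    intro τ
    exact Function.update_of_ne (hne τ) _ _
  have hx : ∀ τ : Stp d, xS i j (Function.update h v γ) u τ = xS i j h u τ := by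
    intro τ
    unfold xS
    simp only [h2]
  have hp : ∀ τ : Stp d, pF i j c c' (Function.update h v γ) u τ = pF i j c c' h u τ := by
    intro τ
    unfold pF
    rw [hx τ]
  have hr : r1 ε i j (Function.update h v γ) u = r1 ε i j h u := by
    unfold r1
    simp only [hx]
  have hW : WF i j c c' (Function.update h v γ) u = WF i j c c' h u := by
    unfold WF
    simp only [hp]
  have hB : BF i j c c' (Function.update h v γ) u = BF i j c c' h u := by
    unfold BF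
    simp only [h1]
  constructor
  · unfold V1
    rw [hW, hB]
    by_cases hrr : r1 ε i j h u
    · rw [if_pos hrr, if_pos (hr.symm ▸ hrr)]
    · rw [if_neg hrr, if_neg (hr.symm ▸ hrr)]
  · unfold sg
    rw [h1 σ]

private theorem R8_term {ε : ℝ} (hε : 0 < ε) (hq : 8 / c1 ε ≤ q) (ha : ra d q ≤ A0 ε) (i j : Fin d) (c c' : Fin q)
    (f : Site d k → Fin q) (u v : Site d k) :
    |(V1 ε i j c c' f u - 1) * sg c c' f v| ≤ CW ε + 1 := by
  have hc := R8_c1_pos ε
  have hq4 : 4 / c1 ε ≤ q := by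
    refine le_trans ?_ hq
    gcongr
    norm_num
  have h1 := V1_bound hε hq4 ha i j c c' f u
  have h2 := sg_abs c c' f v
  have h3 : |V1 ε i j c c' f u - 1| ≤ CW ε + 1 := by
    rw [abs_le]
    constructor <;> linarith [h1.1, h1.2]
  rw [abs_mul]
  calc |V1 ε i j c c' f u - 1| * |sg c c' f v| ≤ (CW ε + 1) * 1 :=
        mul_le_mul h3 h2 (abs_nonneg _) (by linarith [R8_CW_pos ε])
    _ = CW ε + 1 := mul_one _

open scoped Classical in
private theorem R8_card (v : Site d k) :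
    (((univ : Finset (Site d k)).filter fun u => ∃ ρ : Stp d, u + sv ρ = v).card : ℝ) ≤ 2 * d := by
  have h1 : ((univ : Finset (Site d k)).filter fun u => ∃ ρ : Stp d, u + sv ρ = v) ⊆
      (univ : Finset (Stp d)).image fun ρ => v - sv ρ := by
    intro u hu
    rw [mem_filter] at hu
    obtain ⟨-, ρ, hρ⟩ := hu
    rw [mem_image]
    exact ⟨ρ, mem_univ _, by rw [← hρ]; abel⟩
  have h2 := (card_le_card h1).trans card_image_le
  have h3 : (univ : Finset (Stp d)).card = d * 2 := by simp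
  rw [h3] at h2
  have h4 : (((univ : Finset (Site d k)).filter fun u => ∃ ρ : Stp d, u + sv ρ = v).card : ℝ) ≤ ((d * 2 : ℕ) : ℝ) := by
    exact_mod_cast h2
  push_cast at h4
  linarith

private theorem R8_lip (hk : 1 ≤ k) {ε : ℝ} (hε : 0 < ε) (hq : 8 / c1 ε ≤ q) (ha : ra d q ≤ A0 ε)
    (hd : 4 * (CW ε + 1) ≤ d) (p : Ixs d k q) (hp : okx p.1) : Lip (!p.1.1) ((d : ℝ) ^ 2) (R8Psi ε p) := by
  classical
  intro f _ h _ v hv γ _
  obtain ⟨⟨b, ⟨i, j⟩, ⟨c, c'⟩, w⟩, σ⟩ := p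
  obtain ⟨_, _, hw⟩ := hp
  simp only at hv hw
  unfold R8Psi
  simp only
  rw [← sum_sub_distrib]
  refine (abs_sum_le_sum_abs _ _).trans ?_
  have h1 : ∀ u ∈ cls b d k,
      |w u * ((V1 ε i j c c' (Function.update h v γ) u - 1) * sg c c' (Function.update h v γ) (u + sv σ)) -
        w u * ((V1 ε i j c c' h u - 1) * sg c c' h (u + sv σ))| ≤
      if (∃ ρ : Stp d, u + sv ρ = v) then 2 * (CW ε + 1) else 0 := by
    intro u hu
    split_ifs with hex
    · rw [← mul_sub, abs_mul]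
      have h2 := R8_term hε hq ha i j c c' (Function.update h v γ) u (u + sv σ)
      have h3 := R8_term hε hq ha i j c c' h u (u + sv σ)
      have h4 : |(V1 ε i j c c' (Function.update h v γ) u - 1) * sg c c' (Function.update h v γ) (u + sv σ) -
          (V1 ε i j c c' h u - 1) * sg c c' h (u + sv σ)| ≤ 2 * (CW ε + 1) := by
        refine (abs_sub _ _).trans ?_
        linarith
      calc |w u| * |(V1 ε i j c c' (Function.update h v γ) u - 1) * sg c c' (Function.update h v γ) (u + sv σ) -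
          (V1 ε i j c c' h u - 1) * sg c c' h (u + sv σ)| ≤ 1 * (2 * (CW ε + 1)) :=
            mul_le_mul (hw u) h4 (abs_nonneg _) zero_le_one
        _ = 2 * (CW ε + 1) := one_mul _
    · push Not at hex
      obtain ⟨h2, h3⟩ := R8_eq hk ε i j c c' b u hu v hv h γ σ hex
      rw [h2, h3, sub_self, abs_zero]
  refine (sum_le_sum h1).trans ?_
  have h2 : ∑ u ∈ cls b d k, (if (∃ ρ : Stp d, u + sv ρ = v) then 2 * (CW ε + 1) else 0) ≤
      ∑ u : Site d k, (if (∃ ρ : Stp d, u + sv ρ = v) then 2 * (CW ε + 1) else 0) := by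
    refine sum_le_sum_of_subset_of_nonneg (subset_univ _) ?_
    intro u _ _
    have := R8_CW_pos ε
    split_ifs
    · linarith
    · exact le_refl _
  refine h2.trans ?_
  rw [← sum_filter, sum_const, nsmul_eq_mul]
  have h3 := R8_card (d := d) (k := k) v
  have hCW := R8_CW_pos ε
  calc (((univ : Finset (Site d k)).filter fun u => ∃ ρ : Stp d, u + sv ρ = v).card : ℝ) * (2 * (CW ε + 1)) ≤
      (2 * d) * (2 * (CW ε + 1)) := by
        refine mul_le_mul_of_nonneg_right h3 ?_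
        linarith
    _ = d * (4 * (CW ε + 1)) := by ring
    _ ≤ d * d := by
        refine mul_le_mul_of_nonneg_left hd ?_
        positivity
    _ = (d : ℝ) ^ 2 := by ring

open scoped Classical in
private theorem R8_not_nice (ε : ℝ) (f : Site d k → Fin q) :
    (((univ : Finset (Site d k)).filter fun u => ¬ Nc ε f u).card : ℝ) ≤ 2 * d * irr ε f := by
  have h1 : ((univ : Finset (Site d k)).filter fun u => ¬ Nc ε f u) ⊆
      (univ : Finset (Stp d)).biUnion fun σ => (univ : Finset (Site d k)).filter fun u => ¬ Rg ε f (u + sv σ) := by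
    intro u hu
    rw [mem_filter] at hu
    have h2 := hu.2
    unfold Nc at h2
    push Not at h2
    obtain ⟨σ, hσ⟩ := h2
    rw [mem_biUnion]
    exact ⟨σ, mem_univ _, mem_filter.2 ⟨mem_univ _, hσ⟩⟩
  have h2 : ∀ σ : Stp d, ((((univ : Finset (Site d k)).filter fun u => ¬ Rg ε f (u + sv σ)).card : ℕ) : ℝ) =
      irr ε f := by
    intro σ
    unfold irr
    congr 1
    refine card_bij (fun u _ => u + sv σ) ?_ ?_ ?_
    · intro u hu
      rw [mem_filter] at hu ⊢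
      refine ⟨mem_univ _, ?_⟩
      have h3 := hu.2
      unfold Rg at h3
      exact not_le.1 h3
    · intro u _ v _ huv
      exact add_right_cancel huv
    · intro v hv
      rw [mem_filter] at hv
      refine ⟨v - sv σ, mem_filter.2 ⟨mem_univ _, ?_⟩, sub_add_cancel _ _⟩
      rw [sub_add_cancel]
      unfold Rg
      exact not_le.2 hv.2
  have h3 : (((univ : Finset (Site d k)).filter fun u => ¬ Nc ε f u).card : ℝ) ≤
      ∑ σ : Stp d, ((((univ : Finset (Site d k)).filter fun u => ¬ Rg ε f (u + sv σ)).card : ℕ) : ℝ) := by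
    have h4 := (card_le_card h1).trans card_biUnion_le
    exact_mod_cast h4
  refine h3.trans (le_of_eq ?_)
  rw [sum_congr rfl fun σ _ => h2 σ, sum_const, nsmul_eq_mul]
  have h5 : ((univ : Finset (Stp d)).card : ℝ) = 2 * d := by
    simp
    ring
  rw [h5]

open scoped Classical in
private theorem R8_VF (ε : ℝ) (hε : 0 < ε) (hq : 8 / c1 ε ≤ q) (ha : ra d q ≤ A0 ε) (i j : Fin d) (hij : i ≠ j)
    (c c' : Fin q) (f : Site d k → Fin q) (u : Site d k) :
    |VF ε i j c c' f u - V1 ε i j c c' f u| ≤ CW ε * if (av f u : ℝ) < c1 ε * q then 1 else 0 := by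
  have hc := R8_c1_pos ε
  have hCW := R8_CW_pos ε
  have hq4 : 4 / c1 ε ≤ q := by
    refine le_trans ?_ hq
    gcongr
    norm_num
  have h1 := V1_bound hε hq4 ha i j c c' f u
  have h2 : (av f u : ℝ) ≤ aF i j f u := by exact_mod_cast (av_aF i j hij f u).1
  unfold VF
  by_cases h : c1 ε * q ≤ (aF i j f u : ℝ)
  · rw [if_pos h, sub_self, abs_zero]
    refine mul_nonneg hCW.le ?_
    split_ifs <;> norm_num
  · rw [if_neg h, if_pos (lt_of_le_of_lt h2 (not_le.1 h)), zero_sub, abs_neg, mul_one, abs_of_nonneg h1.1]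
    exact h1.2

open scoped Classical in
private theorem R8_mean (hk : 2 ≤ k) {ε : ℝ} (hε : 0 < ε) (hq : 8 / c1 ε ≤ q) (ha : ra d q ≤ A0 ε) (ha0 : 0 ≤ ra d q)
    (b : Bool) (i j : Fin d) (c c' : Fin q) (w : Site d k → ℝ) (σ : Stp d) (hij : i ≠ j) (hc : c ≠ c')
    (hw : ∀ x, |w x| ≤ 1) (hσ : σ ∈ pl i j) {f : Site d k → Fin q} (hf : Prp f) :
    |fm (!b) (R8Psi ε (((b, (i, j), (c, c'), w) : Ix d k q), σ)) f| ≤
      2 * CW ε / (c1 ε * q) * (ra d q / c1 ε * (∑ u ∈ cls b d k, |w u| * (if f u = c ∨ f u = c' then (1 : ℝ) else 0)) +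
        1 / (c1 ε * q) * (∑ u ∈ cls b d k, |w u| * ∑ τ ∈ fs i j,
          ((nP i j c f (u + sv τ) : ℝ) + nP i j c' f (u + sv τ))) +
        10 * ra d q / (c1 ε ^ 2 * q) * Wt b w) + (CW ε + 1) * (2 * d * irr ε f) := by
  have hc1 := R8_c1_pos ε
  have hCW := R8_CW_pos ε
  have h0 : fm (!b) (R8Psi ε (((b, (i, j), (c, c'), w) : Ix d k q), σ)) f =
      ∑ u ∈ cls b d k, w u * fm (!b) (fun h => (V1 ε i j c c' h u - 1) * sg c c' h (u + sv σ)) f := by
    unfold R8Psi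
    simp only
    rw [fm_sum]
    refine sum_congr rfl fun u _ => ?_
    rw [← fm_mul]
  rw [h0]
  refine (abs_sum_le_sum_abs _ _).trans ?_
  set X : Site d k → ℝ := fun u => 2 * CW ε / (c1 ε * q) * (ra d q / c1 ε * (if f u = c ∨ f u = c' then (1 : ℝ) else 0) +
        1 / (c1 ε * q) * ∑ τ ∈ fs i j, ((nP i j c f (u + sv τ) : ℝ) + nP i j c' f (u + sv τ)) +
        10 * ra d q / (c1 ε ^ 2 * q)) with hX
  have hX0 : ∀ u, 0 ≤ X u := by
    intro u
    simp only [hX]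
    have h1 : (0 : ℝ) ≤ if f u = c ∨ f u = c' then (1 : ℝ) else 0 := by split_ifs <;> norm_num
    positivity
  have h1 : ∀ u ∈ cls b d k, |w u * fm (!b) (fun h => (V1 ε i j c c' h u - 1) * sg c c' h (u + sv σ)) f| ≤
      |w u| * X u + (CW ε + 1) * (if ¬ Nc ε f u then 1 else 0) := by
    intro u hu
    rw [abs_mul]
    by_cases hn : Nc ε f u
    · rw [if_neg (not_not.2 hn), mul_zero, add_zero]
      exact mul_le_mul_of_nonneg_left (V1_mean hε hk hq ha i j hij c c' hc b hf u hu hn σ hσ) (abs_nonneg _)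
    · rw [if_pos hn, mul_one]
      have h2 : |fm (!b) (fun h => (V1 ε i j c c' h u - 1) * sg c c' h (u + sv σ)) f| ≤ CW ε + 1 := by
        refine (fm_abs _ _ _).trans ?_
        refine (fm_mono (!b) hf (G := fun _ => CW ε + 1) fun h _ => ?_).trans (le_of_eq (fm_const (!b) hf _))
        exact R8_term hε hq ha i j c c' h u (u + sv σ)
      calc |w u| * |fm (!b) (fun h => (V1 ε i j c c' h u - 1) * sg c c' h (u + sv σ)) f| ≤ 1 * (CW ε + 1) :=
            mul_le_mul (hw u) h2 (abs_nonneg _) zero_le_one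
        _ ≤ |w u| * X u + (CW ε + 1) := by
            have := mul_nonneg (abs_nonneg (w u)) (hX0 u)
            linarith
  refine (sum_le_sum h1).trans ?_
  rw [sum_add_distrib]
  refine add_le_add (le_of_eq ?_) ?_
  · have h2 : ∀ u ∈ cls b d k, |w u| * X u = 2 * CW ε / (c1 ε * q) *
        (ra d q / c1 ε * (|w u| * (if f u = c ∨ f u = c' then (1 : ℝ) else 0)) +
        1 / (c1 ε * q) * (|w u| * ∑ τ ∈ fs i j, ((nP i j c f (u + sv τ) : ℝ) + nP i j c' f (u + sv τ))) +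
        10 * ra d q / (c1 ε ^ 2 * q) * |w u|) := by
      intro u _
      simp only [hX]
      ring
    rw [sum_congr rfl h2, ← mul_sum, sum_add_distrib, sum_add_distrib, ← mul_sum, ← mul_sum, ← mul_sum]
    rfl
  · rw [← mul_sum]
    refine mul_le_mul_of_nonneg_left ?_ (by linarith)
    refine le_trans ?_ (R8_not_nice ε f)
    rw [← sum_filter, sum_const, nsmul_eq_mul, mul_one]
    have h3 : ((cls b d k).filter fun u => ¬ Nc ε f u).card ≤ ((univ : Finset (Site d k)).filter fun u => ¬ Nc ε f u).card :=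
      card_le_card (filter_subset_filter _ (subset_univ _))
    exact_mod_cast h3

open scoped Classical in
private theorem R8_split (ε : ℝ) (hε : 0 < ε) (hq : 8 / c1 ε ≤ q) (ha : ra d q ≤ A0 ε) (b : Bool) (i j : Fin d)
    (hij : i ≠ j) (c c' : Fin q) (w : Site d k → ℝ) (hw : ∀ x, |w x| ≤ 1) (σ : Stp d) (f : Site d k → Fin q) :
    |∑ u ∈ cls b d k, w u * ((VF ε i j c c' f u - 1) * sg c c' f (u + sv σ))| ≤
      |R8Psi ε (((b, (i, j), (c, c'), w) : Ix d k q), σ) f| + CW ε * irr ε f := by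
  have hCW := R8_CW_pos ε
  have h1 : ∑ u ∈ cls b d k, w u * ((VF ε i j c c' f u - 1) * sg c c' f (u + sv σ)) =
      R8Psi ε (((b, (i, j), (c, c'), w) : Ix d k q), σ) f +
        ∑ u ∈ cls b d k, w u * ((VF ε i j c c' f u - V1 ε i j c c' f u) * sg c c' f (u + sv σ)) := by
    unfold R8Psi
    simp only
    rw [← sum_add_distrib]
    refine sum_congr rfl fun u _ => ?_
    ring
  rw [h1]
  refine (abs_add_le _ _).trans ?_
  refine add_le_add le_rfl ?_
  refine (abs_sum_le_sum_abs _ _).trans ?_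
  have h2 : ∀ u ∈ cls b d k, |w u * ((VF ε i j c c' f u - V1 ε i j c c' f u) * sg c c' f (u + sv σ))| ≤
      CW ε * (if (av f u : ℝ) < c1 ε * q then 1 else 0) := by
    intro u _
    have h3 := R8_VF ε hε hq ha i j hij c c' f u
    have h4 := sg_abs c c' f (u + sv σ)
    have h5 : (0 : ℝ) ≤ CW ε * (if (av f u : ℝ) < c1 ε * q then 1 else 0) := (abs_nonneg _).trans h3
    rw [abs_mul, abs_mul]
    calc |w u| * (|VF ε i j c c' f u - V1 ε i j c c' f u| * |sg c c' f (u + sv σ)|) ≤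
        1 * ((CW ε * (if (av f u : ℝ) < c1 ε * q then 1 else 0)) * 1) :=
          mul_le_mul (hw u) (mul_le_mul h3 h4 (abs_nonneg _) h5) (mul_nonneg (abs_nonneg _) (abs_nonneg _)) zero_le_one
      _ = CW ε * (if (av f u : ℝ) < c1 ε * q then 1 else 0) := by ring
  refine (sum_le_sum h2).trans ?_
  rw [← mul_sum]
  refine mul_le_mul_of_nonneg_left ?_ hCW.le
  rw [← sum_filter, sum_const, nsmul_eq_mul, mul_one]
  unfold irr
  have h3 : ((cls b d k).filter fun u => (av f u : ℝ) < c1 ε * q).card ≤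
      ((univ : Finset (Site d k)).filter fun u => (av f u : ℝ) < c1 ε * q).card :=
    card_le_card (filter_subset_filter _ (subset_univ _))
  exact_mod_cast h3

end

theorem unweight {ε : ℝ} (hε : 0 < ε) (hε1 : ε ≤ 1) : ∃ C₃ : ℝ, 0 < C₃ ∧ ∀ K : ℕ,
    WOPi ε Ixs fun d k q p f => okx p.1 → p.2 ∈ pl p.1.2.1.1 p.1.2.1.2 →
      |∑ u ∈ cls p.1.1 d k, p.1.2.2.2 u *
          ((VF ε p.1.2.1.1 p.1.2.1.2 p.1.2.2.1.1 p.1.2.2.1.2 f u - 1) * sg p.1.2.2.1.1 p.1.2.2.1.2 f (u + sv p.2))| ≤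
        C₃ / (q : ℝ) ^ 2 * Wt p.1.1 p.1.2.2.2 + NN d k / (d : ℝ) ^ K := by
  have hc1 := R8_c1_pos ε
  have hCW := R8_CW_pos ε
  have hA0 : 0 < A0 ε := by unfold A0; positivity
  refine ⟨40 * CW ε * A0 ε / c1 ε ^ 3, by positivity, fun K => ?_⟩
  set M : ℝ := 2 + 4 * (CW ε + 1) + 8 / c1 ε + 2 * CW ε / c1 ε * (A0 ε / c1 ε + 1 / c1 ε) + (3 * CW ε + 4) with hM
  have hM2 : 2 ≤ M := by
    have : 0 ≤ 4 * (CW ε + 1) + 8 / c1 ε + 2 * CW ε / c1 ε * (A0 ε / c1 ε + 1 / c1 ε) + (3 * CW ε + 4) := by positivity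
    linarith
  have hMa : 4 * (CW ε + 1) ≤ M := by
    have : 0 ≤ 2 + 8 / c1 ε + 2 * CW ε / c1 ε * (A0 ε / c1 ε + 1 / c1 ε) + (3 * CW ε + 4) := by positivity
    linarith
  have hMb : 8 / c1 ε ≤ M := by
    have : 0 ≤ 2 + 4 * (CW ε + 1) + 2 * CW ε / c1 ε * (A0 ε / c1 ε + 1 / c1 ε) + (3 * CW ε + 4) := by positivity
    linarith
  have hMc : 2 * CW ε / c1 ε * (A0 ε / c1 ε + 1 / c1 ε) ≤ M := by
    have : 0 ≤ 2 + 4 * (CW ε + 1) + 8 / c1 ε + (3 * CW ε + 4) := by positivity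
    linarith
  have hMd : 3 * CW ε + 4 ≤ M := by
    have : 0 ≤ 2 + 4 * (CW ε + 1) + 8 / c1 ε + 2 * CW ε / c1 ε * (A0 ε / c1 ε + 1 / c1 ε) := by positivity
    linarith
  have hreg := EvT_reg hε hε1 M
  have hL : EvT ε fun d k q => ∀ i : Ixs d k q, (okx i.1 ∧ i.2 ∈ pl i.1.2.1.1 i.1.2.1.2) →
      Lip (!i.1.1) ((d : ℝ) ^ 2) (R8Psi ε i) := by
    refine hreg.mono ?_
    intro d k q h i hi
    obtain ⟨h1, h2, h3, -, -, -, h7, -⟩ := h
    refine R8_lip ?_ hε (hMb.trans h2) h7 (hMa.trans h1) i hi.1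
    have h4 : (1 : ℝ) ≤ k := by linarith
    exact_mod_cast h4
  have hL' : EvT ε fun d k q => ∀ i : Ixs d k q, (okx i.1 ∧ i.2 ∈ pl i.1.2.1.1 i.1.2.1.2) →
      Lip (!i.1.1) ((d : ℝ) ^ 2) (fun f => - R8Psi ε i f) := by
    refine hL.mono ?_
    intro d k q h i hi f hf g hg v hv γ hγ
    have h1 := h i hi f hf g hg v hv γ hγ
    rw [neg_sub_neg, abs_sub_comm]
    exact h1
  have t1 := WOPi_tail hε hε1 Ixs (fun d k q p => !p.1.1) (fun d k q p => okx p.1 ∧ p.2 ∈ pl p.1.2.1.1 p.1.2.1.2)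
    (fun d k q p => R8Psi ε p) 2 (K + 2) hL
  have t2 := WOPi_tail hε hε1 Ixs (fun d k q p => !p.1.1) (fun d k q p => okx p.1 ∧ p.2 ∈ pl p.1.2.1.1 p.1.2.1.2)
    (fun d k q p f => - R8Psi ε p f) 2 (K + 2) hL'
  have t3 := (one_sum hε hε1 (K + 2)).comap (ι' := Ixs) (fun d k q p => p.1)
  have t4 := (two_sum hε hε1 (K + 2)).comap (ι' := Ixs) (fun d k q p => p.1)
  have t5 := (avail hε hε1 (K + 3)).toi Ixs
  refine (t1.and (t2.and (t3.and (t4.and t5)))).mono ?_
  refine hreg.mono ?_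
  intro d k q hr p f hf hall hok hσ
  obtain ⟨hd, hqM, hkM, hq1, hq2, ha1, haA, h2d⟩ := hr
  obtain ⟨u1, u2, u3, u4, u5⟩ := hall
  have hfP : Prp f := by
    classical
    unfold prps at hf
    exact (mem_filter.1 hf).2
  obtain ⟨⟨b, ⟨i, j⟩, ⟨c, c'⟩, w⟩, σ⟩ := p
  have u1' := u1 ⟨hok, hσ⟩
  have u2' := u2 ⟨hok, hσ⟩
  have u3' := u3 hok
  have u4' := u4 hok
  obtain ⟨hij, hcc, hw⟩ := hok
  simp only at u1' u2' u3' u4' hij hcc hw hσ ⊢
  have hk2 : 2 ≤ k := by
    have h4 : (2 : ℝ) ≤ k := by linarith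
    exact_mod_cast h4
  have hq8 : 8 / c1 ε ≤ q := hMb.trans hqM
  have ha0 : 0 ≤ ra d q := by unfold ra; positivity
  have hdpos : (0 : ℝ) < d := by linarith
  have hqpos : (0 : ℝ) < q := by linarith
  have hN := R8_NN_pos d k
  have hmean := R8_mean hk2 hε hq8 haA ha0 b i j c c' w σ hij hcc hw hσ hfP
  have hsplit := R8_split ε hε hq8 haA b i j hij c c' w hw σ f
  -- the value of the sum
  have hΨ : |R8Psi ε (((b, (i, j), (c, c'), w) : Ix d k q), σ) f| ≤
      |fm (!b) (R8Psi ε (((b, (i, j), (c, c'), w) : Ix d k q), σ)) f| + NN d k / (d : ℝ) ^ (K + 2) := by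
    have hneg : fm (!b) (fun f => - R8Psi ε (((b, (i, j), (c, c'), w) : Ix d k q), σ) f) f =
        - fm (!b) (R8Psi ε (((b, (i, j), (c, c'), w) : Ix d k q), σ)) f := by
      have := fm_mul (!b) f (-1) (R8Psi ε (((b, (i, j), (c, c'), w) : Ix d k q), σ))
      simp only [neg_mul, one_mul] at this
      exact this
    rw [hneg] at u2'
    rw [abs_le]
    constructor
    · have := neg_abs_le (fm (!b) (R8Psi ε (((b, (i, j), (c, c'), w) : Ix d k q), σ)) f)
      linarith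
    · have := le_abs_self (fm (!b) (R8Psi ε (((b, (i, j), (c, c'), w) : Ix d k q), σ)) f)
      linarith
  set W := Wt b w with hW
  have hW0 : 0 ≤ W := by
    rw [hW]
    unfold Wt
    positivity
  set S1 := ∑ u ∈ cls b d k, |w u| * (if f u = c ∨ f u = c' then (1 : ℝ) else 0) with hS1
  set S2 := ∑ u ∈ cls b d k, |w u| * ∑ τ ∈ fs i j, ((nP i j c f (u + sv τ) : ℝ) + nP i j c' f (u + sv τ)) with hS2
  set D := NN d k / (d : ℝ) ^ (K + 2) with hD
  have hD0 : 0 < D := by positivity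
  have hirr : irr ε f ≤ D / d := by
    refine u5.trans (le_of_eq ?_)
    rw [hD, pow_succ (d : ℝ) (K + 2), div_div]
  have hDK : NN d k / (d : ℝ) ^ K = D * (d : ℝ) ^ 2 := by
    rw [hD, pow_add]
    field_simp
  -- main term
  have m1 : 2 * CW ε / (c1 ε * q) * (ra d q / c1 ε * S1 + 1 / (c1 ε * q) * S2 + 10 * ra d q / (c1 ε ^ 2 * q) * W) ≤
      2 * CW ε / (c1 ε * q) * (A0 ε / c1 ε * (2 / (c1 ε * q) * W + D) + 1 / (c1 ε * q) * (8 * A0 ε / c1 ε * W + D) +
        10 * A0 ε / (c1 ε ^ 2 * q) * W) := by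
    have hS10 : 0 ≤ 2 / (c1 ε * q) * W + D := by positivity
    gcongr
  have m2 : 2 * CW ε / (c1 ε * q) * (A0 ε / c1 ε * (2 / (c1 ε * q) * W + D) + 1 / (c1 ε * q) * (8 * A0 ε / c1 ε * W + D) +
        10 * A0 ε / (c1 ε ^ 2 * q) * W) = 40 * CW ε * A0 ε / c1 ε ^ 3 / (q : ℝ) ^ 2 * W +
        2 * CW ε / c1 ε * (A0 ε / c1 ε + 1 / (c1 ε * q)) / q * D := by
    field_simp
    ring
  have m3 : 2 * CW ε / c1 ε * (A0 ε / c1 ε + 1 / (c1 ε * q)) / q ≤ 1 := by
    rw [div_le_one hqpos]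
    refine le_trans ?_ (hMc.trans hqM)
    have hq1' : (1 : ℝ) ≤ q := by linarith
    gcongr
    exact le_mul_of_one_le_right hc1.le hq1'
  have m4 : (CW ε + 1) * (2 * d * irr ε f) ≤ (CW ε + 1) * (2 * D) := by
    have h1 : 2 * d * irr ε f ≤ 2 * D := by
      calc 2 * d * irr ε f ≤ 2 * d * (D / d) := by gcongr
        _ = 2 * D := by field_simp
    exact mul_le_mul_of_nonneg_left h1 (by linarith)
  have m5 : CW ε * irr ε f ≤ CW ε * D := by
    refine mul_le_mul_of_nonneg_left (hirr.trans ?_) hCW.le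
    rw [div_le_iff₀ hdpos]
    have : (1 : ℝ) ≤ d := by linarith
    exact le_mul_of_one_le_right hD0.le this
  have m6 : 2 * CW ε / c1 ε * (A0 ε / c1 ε + 1 / (c1 ε * q)) / q * D ≤ 1 * D :=
    mul_le_mul_of_nonneg_right m3 hD0.le
  have m7 : (3 * CW ε + 4) * D ≤ D * (d : ℝ) ^ 2 := by
    rw [mul_comm]
    refine mul_le_mul_of_nonneg_left ?_ hD0.le
    have h1 : 3 * CW ε + 4 ≤ d := hMd.trans hd
    have h2 : (1 : ℝ) ≤ d := by linarith
    calc 3 * CW ε + 4 ≤ d := h1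
      _ = d * 1 := (mul_one _).symm
      _ ≤ d * d := mul_le_mul_of_nonneg_left h2 hdpos.le
      _ = (d : ℝ) ^ 2 := by ring
  rw [hDK]
  linarith

end Pool.Agent.THR
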