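import Pool.Agent.Lib_MP_2c424f_thr.T0

/-!
# THR S1: frozen sites (paper proof: S1)

`LIN.ecb_extra` with `w = q`: `∏_{v ∈ U} (1 + q / av f v) ≥ (1+q)^|U|` on the event, and `≥ 1`... (all factors are `≥ 1`), so
`#(event) (1+q)^|U| ≤ exp ((1 - 2|U|/N) log Z + (2|U|/N) log WW(q) + err)`.  `WW d k q b q ≤ q^N/... `: every factor
`(av + q)/q ≤ 2`, so `WW ≤ q^N 2^(N/2)`, and `Z ≥ exp (N/2 · log (q1 q2)) ≥ ((q²-1)/4)^(N/2)` (`LO.ZZ_ge`).  So
`log WW - log Z ≤ (N/2) log (8 q²/(q²-1))`, which contributes `|U| log (8q²/(q²-1))`; `8 q²/((q²-1)(1+q)) ≤ 9/q` for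
`q ≥ 3`.  `err = 4·2^d d² N log (q+1)/2^k ≤ ν N` for `k` large.
-/

set_option autoImplicit false

open Finset Filter

namespace Pool.Agent.THR

open Pool.Agent.LO Pool.Agent.LIN

variable {d k q : ℕ}

private theorem S1_WW (hd : 1 ≤ d) (hk : 1 ≤ k) (hq : 2 ≤ q) (b : Bool) :
    Real.log (WW d k q b q) ≤ NN d k / 2 * Real.log (2 * (q : ℝ) ^ 2) := by
  have hq0 : (0 : ℝ) < q := by exact_mod_cast (by omega : 0 < q)
  have hpos : 0 < WW d k q b q := by
    refine lt_of_lt_of_le ?_ (WW_mono b (le_refl 0) hq0.le)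
    rw [WW_zero hk (by omega) b]
    exact (Real.exp_pos _).trans_le (ZZ_ge hd hk hq)
  have h1 : WW d k q b q ≤ (q : ℝ) ^ Fintype.card (Site d k) * 2 ^ (cls b d k).card := by
    unfold WW
    calc ∑ f : Site d k → Fin q, ∏ v ∈ cls b d k, (((av f v : ℝ) + q) / q)
        ≤ ∑ _f : Site d k → Fin q, (2 : ℝ) ^ (cls b d k).card := by
          refine sum_le_sum fun f _ => ?_
          rw [← prod_const]
          refine prod_le_prod (fun v _ => by positivity) fun v _ => ?_
          rw [div_le_iff₀ hq0]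
          have h2 : (av f v : ℝ) ≤ q := by
            unfold av
            exact_mod_cast Nat.sub_le _ _
          linarith
      _ = (q : ℝ) ^ Fintype.card (Site d k) * 2 ^ (cls b d k).card := by
          rw [sum_const, card_univ, Fintype.card_fun, Fintype.card_fin, nsmul_eq_mul, Nat.cast_pow]
  calc Real.log (WW d k q b q) ≤ Real.log ((q : ℝ) ^ Fintype.card (Site d k) * 2 ^ (cls b d k).card) :=
        Real.log_le_log hpos h1
    _ = NN d k / 2 * Real.log (2 * (q : ℝ) ^ 2) := by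
      rw [Real.log_mul (by positivity) (by positivity), Real.log_pow, Real.log_pow, card_site,
        card_cls hd hk b, Real.log_mul (by norm_num) (by positivity), Real.log_pow]
      push_cast
      ring

private theorem S1_ZZ (hd : 1 ≤ d) (hk : 1 ≤ k) (hq : 2 ≤ q) :
    NN d k / 2 * Real.log (((q : ℝ) ^ 2 - 1) / 4) ≤ Real.log (ZZ d k q) := by
  have h1 := ZZ_ge (d := d) (k := k) (q := q) hd hk hq
  have h2 : NN d k / 2 * Real.log ((q1 q : ℝ) * q2 q) ≤ Real.log (ZZ d k q) := by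
    rw [Real.le_log_iff_exp_le ((Real.exp_pos _).trans_le h1)]
    exact h1
  refine le_trans (mul_le_mul_of_nonneg_left (Real.log_le_log ?_ ?_) ?_) h2
  · have h3 : (2 : ℝ) ≤ q := by exact_mod_cast hq
    nlinarith
  · have h3 : q = q1 q + q2 q := by unfold q1 q2; omega
    have h4 : q2 q ≤ q1 q + 1 := by unfold q1 q2; omega
    have h5 : q1 q ≤ q2 q := by unfold q1 q2; omega
    have h3' : (q : ℝ) = q1 q + q2 q := by exact_mod_cast h3
    have h4' : (q2 q : ℝ) ≤ q1 q + 1 := by exact_mod_cast h4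
    have h5' : (q1 q : ℝ) ≤ q2 q := by exact_mod_cast h5
    rw [h3']
    nlinarith
  · unfold NN
    positivity

open scoped Classical in
private theorem S1_main (hd : 2 ≤ d) (hk : 2 ≤ k) (hq : 3 ≤ q) (ν : ℝ)
    (he : 4 * 2 ^ d * (d : ℝ) ^ 2 * NN d k * Real.log (q + 1) / 2 ^ k ≤ ν * NN d k) (b : Bool)
    (U : Finset (Site d k)) (hU : U ⊆ cls b d k) :
    (((prps d k q).filter fun f => ∀ v ∈ U, av f v = 1).card : ℝ) ≤
      ZZ d k q * (9 / (q : ℝ)) ^ U.card * Real.exp (ν * NN d k) := by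
  have hN : 0 < NN d k := by unfold NN; positivity
  have hZ : 0 < ZZ d k q := (Real.exp_pos _).trans_le (ZZ_ge (by omega) (by omega) (by omega))
  have hq3 : (3 : ℝ) ≤ q := by exact_mod_cast hq
  have hq0 : (0 : ℝ) < q := by linarith
  obtain ⟨E, hE⟩ : ∃ E : ℝ, E = (((prps d k q).filter fun f => ∀ v ∈ U, av f v = 1).card : ℝ) := ⟨_, rfl⟩
  rw [← hE]
  have hE0 : 0 ≤ E := by rw [hE]; positivity
  rcases hE0.eq_or_lt with h0 | h0
  · rw [← h0]
    positivity
  have h1 := ecb_extra (q := q) hd hk (by omega) (q : ℝ) hq0.le b U hU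
  have h2 : E * (1 + (q : ℝ)) ^ U.card ≤ ∑ f ∈ prps d k q, ∏ v ∈ U, (1 + (q : ℝ) / (av f v : ℝ)) := by
    calc E * (1 + (q : ℝ)) ^ U.card =
          ∑ f ∈ (prps d k q).filter (fun f => ∀ v ∈ U, av f v = 1), (1 + (q : ℝ)) ^ U.card := by
          rw [sum_const, nsmul_eq_mul, hE]
      _ = ∑ f ∈ (prps d k q).filter (fun f => ∀ v ∈ U, av f v = 1), ∏ v ∈ U, (1 + (q : ℝ) / (av f v : ℝ)) := by
          refine sum_congr rfl fun f hf => ?_
          have h3 := (mem_filter.1 hf).2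
          rw [prod_congr rfl fun v hv => by rw [h3 v hv, Nat.cast_one, div_one], prod_const]
      _ ≤ ∑ f ∈ prps d k q, ∏ v ∈ U, (1 + (q : ℝ) / (av f v : ℝ)) :=
          sum_le_sum_of_subset_of_nonneg (filter_subset _ _) fun f _ _ =>
            prod_nonneg fun v _ => by positivity
  have h3 : Real.log E + U.card * Real.log (1 + (q : ℝ)) ≤
      Real.log (∑ f ∈ prps d k q, ∏ v ∈ U, (1 + (q : ℝ) / (av f v : ℝ))) := by
    rw [← Real.log_pow, ← Real.log_mul h0.ne' (by positivity)]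
    exact Real.log_le_log (by positivity) h2
  have h4 := S1_WW (d := d) (k := k) (q := q) (by omega) (by omega) (by omega) b
  have h5 := S1_ZZ (d := d) (k := k) (q := q) (by omega) (by omega) (by omega)
  have h6 : 2 * (U.card : ℝ) / NN d k * (Real.log (WW d k q b q) - Real.log (ZZ d k q)) ≤
      U.card * (Real.log (2 * (q : ℝ) ^ 2) - Real.log (((q : ℝ) ^ 2 - 1) / 4)) := by
    have h7 : Real.log (WW d k q b q) - Real.log (ZZ d k q) ≤
        NN d k / 2 * (Real.log (2 * (q : ℝ) ^ 2) - Real.log (((q : ℝ) ^ 2 - 1) / 4)) := by linarith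
    calc 2 * (U.card : ℝ) / NN d k * (Real.log (WW d k q b q) - Real.log (ZZ d k q)) ≤
          2 * (U.card : ℝ) / NN d k *
            (NN d k / 2 * (Real.log (2 * (q : ℝ) ^ 2) - Real.log (((q : ℝ) ^ 2 - 1) / 4))) :=
          mul_le_mul_of_nonneg_left h7 (by positivity)
      _ = U.card * (Real.log (2 * (q : ℝ) ^ 2) - Real.log (((q : ℝ) ^ 2 - 1) / 4)) := by
          field_simp
  have hq1 : (0 : ℝ) < (q : ℝ) ^ 2 - 1 := by nlinarith
  have h8 : Real.log (2 * (q : ℝ) ^ 2) - Real.log (((q : ℝ) ^ 2 - 1) / 4) - Real.log (1 + (q : ℝ)) ≤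
      Real.log (9 / (q : ℝ)) := by
    rw [← Real.log_div (by positivity) (by positivity), ← Real.log_div (by positivity) (by positivity)]
    refine Real.log_le_log (by positivity) ?_
    rw [div_div, div_le_div_iff₀ (by positivity) hq0]
    nlinarith [mul_nonneg (sub_nonneg.2 hq3) (sub_nonneg.2 hq3), mul_nonneg (mul_nonneg (sub_nonneg.2 hq3)
      (sub_nonneg.2 hq3)) (sub_nonneg.2 hq3)]
  have h9 : Real.log E ≤ Real.log (ZZ d k q) + U.card * Real.log (9 / (q : ℝ)) + ν * NN d k := by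
    have h10 : (U.card : ℝ) * (Real.log (2 * (q : ℝ) ^ 2) - Real.log (((q : ℝ) ^ 2 - 1) / 4) -
        Real.log (1 + (q : ℝ))) ≤ U.card * Real.log (9 / (q : ℝ)) :=
      mul_le_mul_of_nonneg_left h8 (by positivity)
    have h11 : (1 - 2 * (U.card : ℝ) / NN d k) * Real.log (ZZ d k q) +
        2 * (U.card : ℝ) / NN d k * Real.log (WW d k q b q) = Real.log (ZZ d k q) +
        2 * (U.card : ℝ) / NN d k * (Real.log (WW d k q b q) - Real.log (ZZ d k q)) := by ring
    linarith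
  calc E = Real.exp (Real.log E) := (Real.exp_log h0).symm
    _ ≤ Real.exp (Real.log (ZZ d k q) + U.card * Real.log (9 / (q : ℝ)) + ν * NN d k) :=
        Real.exp_le_exp.2 h9
    _ = ZZ d k q * (9 / (q : ℝ)) ^ U.card * Real.exp (ν * NN d k) := by
        rw [Real.exp_add, Real.exp_add, Real.exp_log hZ, ← Real.log_pow, Real.exp_log (by positivity)]

open scoped Classical in
theorem av_one {ε : ℝ} (hε : 0 < ε) (hε1 : ε ≤ 1) (ν : ℕ → ℕ → ℝ) (hν : ∀ d q, 0 < ν d q) :
    EvT ε fun d k q => ∀ (b : Bool) (U : Finset (Site d k)), U ⊆ cls b d k →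
      (((prps d k q).filter fun f => ∀ v ∈ U, av f v = 1).card : ℝ) ≤
        ZZ d k q * (9 / (q : ℝ)) ^ U.card * Real.exp (ν d q * NN d k) := by
  refine EvT.mono ((EvT_reg hε hε1 3).and
    (EvT_pow fun d q => 4 * 2 ^ d * (d : ℝ) ^ 2 * Real.log (q + 1) / ν d q)) ?_
  rintro d k q ⟨⟨hd3, hq3, hk3, -⟩, hpow⟩ b U hU
  have hd : 3 ≤ d := by exact_mod_cast hd3
  have hq : 3 ≤ q := by exact_mod_cast hq3
  have hk : 3 ≤ k := by exact_mod_cast hk3
  refine S1_main (by omega) (by omega) hq (ν d q) ?_ b U hU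
  have hN : 0 < NN d k := by unfold NN; positivity
  rw [div_le_iff₀ (by positivity)]
  rw [div_le_iff₀ (hν d q)] at hpow
  have h1 := mul_le_mul_of_nonneg_right hpow hN.le
  linarith

end Pool.Agent.THR
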