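import Pool.Agent.Lib_MP_2c424f_thr.Defs

/-!
# THR T0e: statements which hold in the regime

All statements are elementary.  `EvT.and`: maximum of the two thresholds.  `EvT_reg`: `d₀ ≥ M/ε`; `k ≥ M`; `ra d q = 2d/q`.
`EvT_NN`, `EvT_pow`: `NN d k = (2^k)^d → ∞` for `d ≥ 1`.
-/

set_option autoImplicit false

open Finset Filter

namespace Pool.Agent.THR

open Pool.Agent.LO Pool.Agent.LIN

theorem EvT.mono {ε : ℝ} {P Q : ℕ → ℕ → ℕ → Prop} (h : EvT ε P) (hPQ : ∀ d k q, P d k q → Q d k q) : EvT ε Q := by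
  obtain ⟨d₀, h⟩ := h
  exact ⟨d₀, fun d q hd h1 h2 => (h d q hd h1 h2).mono fun k hk => hPQ d k q hk⟩

theorem EvT.and {ε : ℝ} {P Q : ℕ → ℕ → ℕ → Prop} (h : EvT ε P) (h' : EvT ε Q) :
    EvT ε fun d k q => P d k q ∧ Q d k q := by
  obtain ⟨d₀, h⟩ := h
  obtain ⟨d₁, h'⟩ := h'
  exact ⟨max d₀ d₁, fun d q hd h1 h2 =>
    (h d q (le_trans (le_max_left _ _) hd) h1 h2).and (h' d q (le_trans (le_max_right _ _) hd) h1 h2)⟩

/-- shift of `k` -/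
theorem EvT.shift {ε : ℝ} {P : ℕ → ℕ → ℕ → Prop} (h : EvT ε P) : EvT ε fun d k q => P d (k + 1) q := by
  obtain ⟨d₀, h⟩ := h
  exact ⟨d₀, fun d q hd h1 h2 => (tendsto_add_atTop_nat 1).eventually (h d q hd h1 h2)⟩

/-- facts about the regime -/
theorem EvT_reg {ε : ℝ} (hε : 0 < ε) (hε1 : ε ≤ 1) (M : ℝ) : EvT ε fun d k q =>
    M ≤ d ∧ M ≤ q ∧ M ≤ k ∧ ε * d ≤ q ∧ (q : ℝ) ≤ (2 - ε) * d ∧ a1 ε ≤ ra d q ∧ ra d q ≤ A0 ε ∧ 2 * (d : ℝ) = ra d q * q := by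
  obtain ⟨m, hm⟩ := exists_nat_ge (|M| / ε)
  refine ⟨max m 1, fun d q hd h1 h2 => ?_⟩
  have hd1 : 1 ≤ d := le_trans (le_max_right _ _) hd
  have hdm : m ≤ d := le_trans (le_max_left _ _) hd
  have hd1' : (1 : ℝ) ≤ d := by exact_mod_cast hd1
  have hdm' : (m : ℝ) ≤ d := by exact_mod_cast hdm
  have hd0 : (0 : ℝ) < d := by linarith
  have hq0 : (0 : ℝ) < q := lt_of_lt_of_le (mul_pos hε hd0) h1
  have hM : |M| ≤ ε * d := by
    have := le_trans hm hdm'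
    rw [div_le_iff₀ hε] at this
    linarith
  have hM1 : M ≤ ε * d := le_trans (le_abs_self M) hM
  have hMd : M ≤ d := by nlinarith
  have h2ε : (0 : ℝ) < 2 - ε := by linarith
  have hk : ∀ᶠ k : ℕ in atTop, M ≤ (k : ℝ) := tendsto_natCast_atTop_atTop.eventually_ge_atTop M
  filter_upwards [hk] with k hk
  refine ⟨hMd, hM1.trans h1, hk, h1, h2, ?_, ?_, ?_⟩
  · unfold a1 ra
    rw [div_le_div_iff₀ h2ε hq0]
    linarith
  · unfold A0 ra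
    rw [div_le_div_iff₀ hq0 hε]
    linarith
  · unfold ra
    field_simp

theorem EvT_d {ε : ℝ} {P : ℕ → Prop} (h : ∀ᶠ d : ℕ in atTop, P d) : EvT ε fun d _ _ => P d := by
  obtain ⟨d₀, h⟩ := eventually_atTop.1 h
  exact ⟨d₀, fun d q hd _ _ => Eventually.of_forall fun _ => h d hd⟩

theorem EvT_NN {ε : ℝ} (F : ℕ → ℕ → ℝ) : EvT ε fun d k q => F d q ≤ NN d k := by
  refine ⟨1, fun d q hd _ _ => ?_⟩
  have h := (tendsto_pow_atTop_atTop_of_one_lt (by norm_num : (1 : ℝ) < 2)).eventually_ge_atTop (F d q)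
  filter_upwards [h] with k hk
  refine le_trans hk ?_
  unfold NN
  have h1 : (2 : ℝ) ^ k ≤ ((2 : ℝ) ^ k) ^ d := by
    apply le_self_pow₀ (one_le_pow₀ (by norm_num)) (by omega)
  exact h1

theorem EvT_pow {ε : ℝ} (F : ℕ → ℕ → ℝ) : EvT ε fun d k q => F d q ≤ (2 : ℝ) ^ k := by
  refine ⟨0, fun d q _ _ _ => ?_⟩
  exact (tendsto_pow_atTop_atTop_of_one_lt (by norm_num : (1 : ℝ) < 2)).eventually_ge_atTop (F d q)

end Pool.Agent.THR
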