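import Pool.Agent.Lib_MP_2c424f_thr.Defs
import Pool.Agent.Lib_MP_2c424f_thr.T0e

/-!
# THR T0: statements which hold in the regime; rare events

All statements are elementary.  `EvT.and`: maximum of the two thresholds.  `EvT_large`: `q ≥ ε d`.
`Rar` is monotone in the exponent since `d ≥ 1`.  For a finite union use that `N/d^C - N/d^(C+1) ≥ log F` for `k` large
(`N = (2^k)^d → ∞`, `d ≥ 2`).
-/

set_option autoImplicit false

open Finset Filter

namespace Pool.Agent.THR

open Pool.Agent.LO Pool.Agent.LIN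

private theorem T0_NN_nonneg (d k : ℕ) : 0 ≤ NN d k := by
  unfold NN
  positivity

private theorem T0_ZZ_nonneg (d k q : ℕ) : 0 ≤ ZZ d k q := by
  unfold ZZ
  positivity

private theorem T0_mem_prps {d k q : ℕ} (f : Site d k → Fin q) : f ∈ prps d k q ↔ Prp f := by
  unfold prps
  simp only [mem_filter, mem_univ, true_and]

private theorem T0_prps_transl {d k q : ℕ} {f : Site d k → Fin q} (τ : Site d k)
    (hf : f ∈ prps d k q) : (fun x => f (x + τ)) ∈ prps d k q := by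
  rw [T0_mem_prps] at hf ⊢
  intro x σ
  have h := hf (x + τ) σ
  have e : x + τ + sv σ = x + sv σ + τ := by abel
  rw [e] at h
  exact h

theorem Rar.mono_C {C C' d k q : ℕ} {P : (Site d k → Fin q) → Prop} (h : Rar C d k q P) (hd : 1 ≤ d) (hC : C ≤ C') :
    Rar C' d k q P := by
  unfold Rar at *
  refine h.trans ?_
  have hN : 0 ≤ NN d k := T0_NN_nonneg d k
  have hZ : 0 ≤ ZZ d k q := T0_ZZ_nonneg d k q
  have hd1 : (1 : ℝ) ≤ (d : ℝ) := by exact_mod_cast hd
  have hp : 0 < (d : ℝ) ^ C := pow_pos (by linarith) _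
  have hpp : (d : ℝ) ^ C ≤ (d : ℝ) ^ C' := pow_le_pow_right₀ hd1 hC
  refine mul_le_mul_of_nonneg_left (Real.exp_le_exp.mpr ?_) hZ
  refine neg_le_neg ?_
  exact div_le_div_of_nonneg_left hN hp hpp

theorem Rar.mono {C d k q : ℕ} {P Q : (Site d k → Fin q) → Prop} (h : Rar C d k q P)
    (hQ : ∀ f ∈ prps d k q, Q f → P f) : Rar C d k q Q := by
  classical
  unfold Rar at *
  refine le_trans ?_ h
  have hsub : (prps d k q).filter Q ⊆ (prps d k q).filter P := by
    intro f hf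
    rw [mem_filter] at hf ⊢
    exact ⟨hf.1, hQ f hf.1 hf.2⟩
  exact_mod_cast card_le_card (by convert hsub)

/-- translation invariance -/
theorem Rar.transl {C d k q : ℕ} {P : (Site d k → Fin q) → Prop} (h : Rar C d k q P) (τ : Site d k) :
    Rar C d k q fun f => P fun x => f (x + τ) := by
  classical
  unfold Rar at *
  refine le_trans ?_ h
  have hcard : ((prps d k q).filter fun f => P fun x => f (x + τ)).card ≤
      ((prps d k q).filter P).card := by
    refine card_le_card_of_injOn (fun f => fun x => f (x + τ)) ?_ ?_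
    · intro f hf
      rw [mem_coe, mem_filter] at hf
      rw [mem_coe, mem_filter]
      exact ⟨T0_prps_transl τ hf.1, hf.2⟩
    · intro f _ g _ hfg
      funext x
      have h1 := congrFun hfg (x - τ)
      simpa using h1
  exact_mod_cast (by convert hcard)

/-- finite unions -/
theorem Rar_union {C d k q : ℕ} {ι : Type} [Fintype ι] {P : ι → (Site d k → Fin q) → Prop} (hd : 2 ≤ d)
    (h : ∀ i, Rar C d k q (P i)) (hι : (d : ℝ) ^ (C + 1) * Real.log (Fintype.card ι) ≤ NN d k) :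
    Rar (C + 1) d k q fun f => ∃ i, P i f := by
  classical
  have hN : 0 ≤ NN d k := T0_NN_nonneg d k
  have hZ : 0 ≤ ZZ d k q := T0_ZZ_nonneg d k q
  have hd2 : (2 : ℝ) ≤ (d : ℝ) := by exact_mod_cast hd
  have hd0 : (0 : ℝ) < (d : ℝ) := by linarith
  have hcard : (((prps d k q).filter fun f => ∃ i, P i f).card : ℝ) ≤
      ∑ i : ι, (((prps d k q).filter (P i)).card : ℝ) := by
    have h1 : ((prps d k q).filter fun f => ∃ i, P i f) ⊆
        (univ : Finset ι).biUnion fun i => (prps d k q).filter (P i) := by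
      intro f hf
      rw [mem_filter] at hf
      obtain ⟨hf1, i, hi⟩ := hf
      rw [mem_biUnion]
      exact ⟨i, mem_univ _, mem_filter.mpr ⟨hf1, hi⟩⟩
    have h2 := (card_le_card h1).trans card_biUnion_le
    exact_mod_cast h2
  have hsum : ∑ i : ι, (((prps d k q).filter (P i)).card : ℝ) ≤
      (Fintype.card ι : ℝ) * (ZZ d k q * Real.exp (-(NN d k / (d : ℝ) ^ C))) := by
    have h3 : ∀ i ∈ (univ : Finset ι), (((prps d k q).filter (P i)).card : ℝ) ≤
        ZZ d k q * Real.exp (-(NN d k / (d : ℝ) ^ C)) := by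
      intro i _
      have := h i
      unfold Rar at this
      convert this
    have h4 := sum_le_card_nsmul univ _ _ h3
    rw [nsmul_eq_mul, card_univ] at h4
    exact h4
  have hfin : (Fintype.card ι : ℝ) * (ZZ d k q * Real.exp (-(NN d k / (d : ℝ) ^ C))) ≤
      ZZ d k q * Real.exp (-(NN d k / (d : ℝ) ^ (C + 1))) := by
    rcases Nat.eq_zero_or_pos (Fintype.card ι) with h0 | h0
    · rw [h0, Nat.cast_zero, zero_mul]
      exact mul_nonneg hZ (Real.exp_pos _).le
    · have hc : (0 : ℝ) < (Fintype.card ι : ℝ) := by exact_mod_cast h0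
      rw [mul_left_comm]
      refine mul_le_mul_of_nonneg_left ?_ hZ
      have hlog : (Fintype.card ι : ℝ) * Real.exp (-(NN d k / (d : ℝ) ^ C)) =
          Real.exp (Real.log (Fintype.card ι : ℝ) + -(NN d k / (d : ℝ) ^ C)) := by
        rw [Real.exp_add, Real.exp_log hc]
      rw [hlog, Real.exp_le_exp]
      have hp : 0 < (d : ℝ) ^ C := pow_pos hd0 _
      have hp1 : 0 < (d : ℝ) ^ (C + 1) := pow_pos hd0 _
      have e1 : NN d k / (d : ℝ) ^ C = d * (NN d k / (d : ℝ) ^ (C + 1)) := by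
        rw [pow_succ]
        field_simp
      have h5 : Real.log (Fintype.card ι) ≤ NN d k / (d : ℝ) ^ (C + 1) := by
        rw [le_div_iff₀ hp1, mul_comm]
        exact hι
      have h6 : 0 ≤ NN d k / (d : ℝ) ^ (C + 1) := div_nonneg hN hp1.le
      rw [e1]
      nlinarith
  unfold Rar
  have hres := hcard.trans (hsum.trans hfin)
  refine le_trans (le_of_eq ?_) hres
  congr 2
  ext f
  simp only [mem_filter]

private theorem T0_union2 {C d k q : ℕ} {P Q : (Site d k → Fin q) → Prop} (hd : 2 ≤ d)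
    (h : Rar C d k q P) (h' : Rar C d k q Q)
    (hN : (d : ℝ) ^ (C + 1) * Real.log 2 ≤ NN d k) :
    Rar (C + 1) d k q fun f => P f ∨ Q f := by
  have h1 : Rar (C + 1) d k q fun f => ∃ i : Bool, (fun b : Bool => if b then P else Q) i f := by
    refine Rar_union hd ?_ ?_
    · intro i
      cases i
      · simpa using h'
      · simpa using h
    · rw [Fintype.card_bool]
      exact_mod_cast hN
  refine h1.mono ?_
  intro f _ hf
  rcases hf with hf | hf
  · exact ⟨true, by simpa using hf⟩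
  · exact ⟨false, by simpa using hf⟩

theorem WOP.mono {ε : ℝ} {P Q : ∀ d k q : ℕ, (Site d k → Fin q) → Prop} (h : WOP ε P)
    (hPQ : EvT ε fun d k q => ∀ f ∈ prps d k q, P d k q f → Q d k q f) : WOP ε Q := by
  obtain ⟨C, hC⟩ := h
  refine ⟨C, (hC.and hPQ).mono ?_⟩
  rintro d k q ⟨h1, h2⟩
  exact h1.mono fun f hf hq hp => hq (h2 f hf hp)

theorem WOP.and {ε : ℝ} {P Q : ∀ d k q : ℕ, (Site d k → Fin q) → Prop} (h : WOP ε P) (h' : WOP ε Q) :
    WOP ε fun d k q f => P d k q f ∧ Q d k q f := by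
  obtain ⟨C, hC⟩ := h
  obtain ⟨C', hC'⟩ := h'
  refine ⟨max C C' + 1, (((hC.and hC').and (EvT_d (eventually_ge_atTop 2))).and
    (EvT_NN fun d _ => (d : ℝ) ^ (max C C' + 1) * Real.log 2)).mono ?_⟩
  rintro d k q ⟨⟨⟨h1, h2⟩, h3⟩, h4⟩
  have h3' : 1 ≤ d := le_trans (by norm_num) h3
  refine (T0_union2 h3 (h1.mono_C h3' (le_max_left C C'))
    (h2.mono_C h3' (le_max_right C C')) h4).mono ?_
  intro f _ hf
  exact not_and_or.mp hf

/-- translation invariance, the vector may depend on `d` and `k` -/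
theorem WOP.transl {ε : ℝ} {P : ∀ d k q : ℕ, (Site d k → Fin q) → Prop} (h : WOP ε P) (τ : ∀ d k : ℕ, Site d k) :
    WOP ε fun d k q f => P d k q fun x => f (x + τ d k) := by
  obtain ⟨C, hC⟩ := h
  refine ⟨C, hC.mono ?_⟩
  intro d k q h1
  exact h1.transl (τ d k)

theorem WOPi.mono {ε : ℝ} {ι : ℕ → ℕ → ℕ → Type} {P Q : ∀ d k q : ℕ, ι d k q → (Site d k → Fin q) → Prop}
    (h : WOPi ε ι P) (hPQ : EvT ε fun d k q => ∀ i, ∀ f ∈ prps d k q, P d k q i f → Q d k q i f) : WOPi ε ι Q := by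
  obtain ⟨C, hC⟩ := h
  refine ⟨C, (hC.and hPQ).mono ?_⟩
  rintro d k q ⟨h1, h2⟩ i
  exact (h1 i).mono fun f hf hq hp => hq (h2 i f hf hp)

theorem WOPi.and {ε : ℝ} {ι : ℕ → ℕ → ℕ → Type} {P Q : ∀ d k q : ℕ, ι d k q → (Site d k → Fin q) → Prop}
    (h : WOPi ε ι P) (h' : WOPi ε ι Q) : WOPi ε ι fun d k q i f => P d k q i f ∧ Q d k q i f := by
  obtain ⟨C, hC⟩ := h
  obtain ⟨C', hC'⟩ := h'
  refine ⟨max C C' + 1, (((hC.and hC').and (EvT_d (eventually_ge_atTop 2))).and
    (EvT_NN fun d _ => (d : ℝ) ^ (max C C' + 1) * Real.log 2)).mono ?_⟩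
  rintro d k q ⟨⟨⟨h1, h2⟩, h3⟩, h4⟩ i
  have h3' : 1 ≤ d := le_trans (by norm_num) h3
  refine (T0_union2 h3 ((h1 i).mono_C h3' (le_max_left C C'))
    ((h2 i).mono_C h3' (le_max_right C C')) h4).mono ?_
  intro f _ hf
  exact not_and_or.mp hf

theorem WOP.toi {ε : ℝ} {P : ∀ d k q : ℕ, (Site d k → Fin q) → Prop} (h : WOP ε P) (ι : ℕ → ℕ → ℕ → Type) :
    WOPi ε ι fun d k q _ f => P d k q f := by
  obtain ⟨C, hC⟩ := h
  exact ⟨C, hC.mono fun d k q h1 _ => h1⟩

/-- change of the parameter -/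
theorem WOPi.comap {ε : ℝ} {ι ι' : ℕ → ℕ → ℕ → Type} {P : ∀ d k q : ℕ, ι d k q → (Site d k → Fin q) → Prop}
    (h : WOPi ε ι P) (g : ∀ d k q, ι' d k q → ι d k q) : WOPi ε ι' fun d k q i f => P d k q (g d k q i) f := by
  obtain ⟨C, hC⟩ := h
  exact ⟨C, hC.mono fun d k q h1 i => h1 (g d k q i)⟩

/-- finitely many parameters -/
theorem WOPi.all {ε : ℝ} {ι : ℕ → ℕ → ℕ → Type} [∀ d k q, Fintype (ι d k q)]
    {P : ∀ d k q : ℕ, ι d k q → (Site d k → Fin q) → Prop} (h : WOPi ε ι P) (F : ℕ → ℕ → ℝ)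
    (hF : ∀ d k q, (Fintype.card (ι d k q) : ℝ) ≤ F d q) : WOP ε fun d k q f => ∀ i, P d k q i f := by
  obtain ⟨C, hC⟩ := h
  refine ⟨C + 1, ((hC.and (EvT_d (eventually_ge_atTop 2))).and
    (EvT_NN fun d q => (d : ℝ) ^ (C + 1) * Real.log (max 1 (F d q)))).mono ?_⟩
  rintro d k q ⟨⟨h1, h2⟩, h3⟩
  have h4 : Rar (C + 1) d k q fun f => ∃ i, ¬ P d k q i f := by
    refine Rar_union h2 h1 (le_trans ?_ h3)
    refine mul_le_mul_of_nonneg_left ?_ (by positivity)
    rcases Nat.eq_zero_or_pos (Fintype.card (ι d k q)) with h0 | h0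
    · rw [h0, Nat.cast_zero, Real.log_zero]
      exact Real.log_nonneg (le_max_left _ _)
    · exact Real.log_le_log (by exact_mod_cast h0) ((hF d k q).trans (le_max_right _ _))
  refine h4.mono ?_
  intro f _ hf
  exact not_forall.mp hf

/-- translation invariance -/
theorem WOPi.transl {ε : ℝ} {ι : ℕ → ℕ → ℕ → Type} {P : ∀ d k q : ℕ, ι d k q → (Site d k → Fin q) → Prop}
    (h : WOPi ε ι P) (τ : ∀ d k q, ι d k q → Site d k) :
    WOPi ε ι fun d k q i f => P d k q i fun x => f (x + τ d k q i) := by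
  obtain ⟨C, hC⟩ := h
  exact ⟨C, hC.mono fun d k q h1 i => (h1 i).transl (τ d k q i)⟩

end Pool.Agent.THR
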