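import Pool.Agent.Lib_MP_2c424f_thr.Z0
import Pool.Agent.Lib_MP_2c424f_thr.B4

/-!
# THR Z1: means at a single site (paper proof: Z1)

`pin_wop` (fixes `t, C₆`), `transl_mean`, `loc_transl`; `als ≥ e^(-a)` (`als_bounds`).
* `av_mean`: `|q/x - 1/al| ≤ (e^a/c1) |x/q - al|` at regular sites (`avl`, Cauchy-Schwarz), `≤ q + e^a` at the others (`≤ N/d^4`, `q ≤ 2d`, `x ≥ 1`: `LIN` or `av_pos` in LO for proper colourings);
  `|1/al - 1/α*| ≤ e^(2a) |al - α*|` (`Pin.al`).  Bound `M = q + e^A0`.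
* `zt_mean`: `|zt - exp (-hh)|` (`zt_det` times `al ≤ 1`), `exp (-hh) = al ya`, `|al ya - α* ya| ≤ e^a |al - α*|`, `α* |ya - (1 + m eps)|` (`Pin.d2`).
* `eps_mean`: `Pin.me`.
-/

set_option autoImplicit false

open Finset Filter

namespace Pool.Agent.THR

open Pool.Agent.LO Pool.Agent.LIN

private theorem Z1_a1 {ε : ℝ} (hε : 0 < ε) (hε1 : ε ≤ 1) : 1 < a1 ε := by
  unfold a1
  rw [one_lt_div (by linarith)]
  linarith

private theorem Z1_c1 (ε : ℝ) : 0 < c1 ε := by
  unfold c1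
  have : (0 : ℝ) < (4 : ℝ) ^ (-A0 ε) := Real.rpow_pos_of_pos (by norm_num) _
  positivity

private theorem Z1_inv {A x : ℝ} (h : Real.exp (-A) ≤ x) : 0 < x ∧ 1 / x ≤ Real.exp A := by
  have h0 : 0 < x := (Real.exp_pos _).trans_le h
  refine ⟨h0, ?_⟩
  rw [div_le_iff₀ h0]
  calc (1 : ℝ) = Real.exp A * Real.exp (-A) := by rw [← Real.exp_add]; simp
    _ ≤ _ := mul_le_mul_of_nonneg_left h (Real.exp_pos _).le

private theorem Z1_eps {d k q : ℕ} (c : Fin q) (f : Site d k → Fin q) (v w : Site d k) :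
    eps c (fun x => f (x + w)) v = eps c f (v + w) := by
  unfold eps
  rw [(loc_transl f v w c).2.2.1]

private theorem Z1_eps_abs {d k q : ℕ} (c : Fin q) (f : Site d k → Fin q) (v : Site d k) : |eps c f v| ≤ 1 := by
  unfold eps
  split_ifs <;> norm_num

private theorem Z1_mc_mono {q : ℕ} (φ ψ : Fin q → ℝ) (h : ∀ c, φ c ≤ ψ c) : mc φ ≤ mc ψ := by
  unfold mc
  exact div_le_div_of_nonneg_right (sum_le_sum fun c _ => h c) (Nat.cast_nonneg _)

private theorem Z1_mc_add {q : ℕ} (φ ψ : Fin q → ℝ) : mc (fun c => φ c + ψ c) = mc φ + mc ψ := by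
  unfold mc
  rw [sum_add_distrib, add_div]

private theorem Z1_mc_mul {q : ℕ} (a : ℝ) (φ : Fin q → ℝ) : mc (fun c => a * φ c) = a * mc φ := by
  unfold mc
  rw [← mul_sum, mul_div_assoc]

private theorem Z1_mc_const {q : ℕ} (hq : 1 ≤ q) (a : ℝ) : mc (fun _ : Fin q => a) = a := by
  have hq' : (1 : ℝ) ≤ q := by exact_mod_cast hq
  unfold mc
  rw [sum_const, card_univ, Fintype.card_fin, nsmul_eq_mul]
  field_simp

private theorem Z1_mc_abs {q : ℕ} (φ : Fin q → ℝ) : |mc φ| ≤ mc fun c => |φ c| := by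
  unfold mc
  rw [abs_div, abs_of_nonneg (Nat.cast_nonneg q : (0 : ℝ) ≤ q)]
  exact div_le_div_of_nonneg_right (abs_sum_le_sum_abs _ _) (Nat.cast_nonneg _)

private theorem Z1_mc_sum {d k q : ℕ} (hq : 1 ≤ q) (g : Fin q → Site d k → ℝ) (B : ℝ) (h : ∀ c, ∑ v, g c v ≤ B) :
    ∑ v, mc (fun c => g c v) ≤ B := by
  have hq' : (1 : ℝ) ≤ q := by exact_mod_cast hq
  unfold mc
  rw [← sum_div, sum_comm, div_le_iff₀ (by linarith)]
  calc ∑ c, ∑ v, g c v ≤ ∑ _c : Fin q, B := sum_le_sum fun c _ => h c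
    _ = B * q := by
        rw [sum_const, card_univ, Fintype.card_fin, nsmul_eq_mul, mul_comm]

private theorem Z1_avl {d k q : ℕ} (f : Site d k → Fin q) (s : ℝ) (hs : 0 < s)
    (h : ∑ v, ((av f v : ℝ) / q - al f v) ^ 2 ≤ s ^ 2 * NN d k) :
    ∑ v, |(av f v : ℝ) / q - al f v| ≤ s * NN d k := by
  have h3 : ∀ v, |(av f v : ℝ) / q - al f v| ≤
      ((av f v : ℝ) / q - al f v) ^ 2 / (2 * s) + s / 2 := by
    intro v
    set x := |(av f v : ℝ) / q - al f v| with hx
    have e1 : ((av f v : ℝ) / q - al f v) ^ 2 = x ^ 2 := (sq_abs _).symm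
    rw [e1]
    have e2 : x ^ 2 / (2 * s) + s / 2 - x = (x - s) ^ 2 / (2 * s) := by
      field_simp
      ring
    have e3 : 0 ≤ (x - s) ^ 2 / (2 * s) := by positivity
    linarith
  calc ∑ v, |(av f v : ℝ) / q - al f v|
      ≤ ∑ v : Site d k, (((av f v : ℝ) / q - al f v) ^ 2 / (2 * s) + s / 2) :=
        sum_le_sum fun v _ => h3 v
    _ = (∑ v : Site d k, ((av f v : ℝ) / q - al f v) ^ 2) / (2 * s) + NN d k * (s / 2) := by
        rw [sum_add_distrib, sum_div, sum_const, nsmul_eq_mul, card_univ, card_site]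
    _ ≤ s ^ 2 * NN d k / (2 * s) + NN d k * (s / 2) :=
        add_le_add (div_le_div_of_nonneg_right h (by positivity)) le_rfl
    _ = s * NN d k := by
        field_simp
        ring

private theorem Z1_pow {d : ℕ} (hd : 1 ≤ d) {C N : ℝ} (hC : 0 ≤ C) (hN : 0 ≤ N) :
    C * d * (N / (d : ℝ) ^ 4) ≤ C / d * N := by
  have hd' : (1 : ℝ) ≤ d := by exact_mod_cast hd
  have hd0 : (0 : ℝ) < d := by linarith
  have h1 : C * d * (N / (d : ℝ) ^ 4) = C / d * N * (1 / (d : ℝ) ^ 2) := by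
    field_simp
  have h2 : 1 / (d : ℝ) ^ 2 ≤ 1 := by
    rw [div_le_iff₀ (by positivity), one_mul]
    exact one_le_pow₀ hd'
  rw [h1]
  exact mul_le_of_le_one_right (by positivity) h2

/-- deterministic part of `av_mean` -/
private theorem Z1_av_det {ε : ℝ} (hε : 0 < ε) (hε1 : ε ≤ 1) (C₆ : ℝ) (t : ℕ) (δ : ℝ) (hδ : 0 < δ) : ∃ δ' : ℝ, 0 < δ' ∧
    EvT ε fun d k q => ∀ f ∈ prps d k q, Good ε δ' C₆ t f → ∀ m : ℝ, MFE (ra d q) m →
      ∑ v : Site d k, |al f v - als (ra d q) m| ≤ δ' * NN d k →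
      ∑ v : Site d k, |q / (av f v : ℝ) - 1 / als (ra d q) m| ≤ δ * NN d k := by
  classical
  set E : ℝ := Real.exp (A0 ε) with hEdef
  have hE : 0 < E := Real.exp_pos _
  have hc1 := Z1_c1 ε
  set s : ℝ := δ * c1 ε / (3 * E) with hsdef
  have hs : 0 < s := by positivity
  refine ⟨min (s ^ 2) (δ / (3 * E ^ 2)), by positivity, ?_⟩
  refine (EvT_reg hε hε1 (max 1 (3 * (2 + E) / δ))).mono ?_
  rintro d k q ⟨hdM, hqM, hkM, -, hq2, -, hraA, -⟩ f hf hG m hm hal2
  have hd1 : (1 : ℝ) ≤ d := (le_max_left _ _).trans hdM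
  have hq1 : (1 : ℝ) ≤ q := (le_max_left _ _).trans hqM
  have hdE : 3 * (2 + E) / δ ≤ d := (le_max_right _ _).trans hdM
  have hd : 1 ≤ d := by exact_mod_cast hd1
  have hq : 1 ≤ q := by exact_mod_cast hq1
  have hqr : (0 : ℝ) < q := by linarith
  have hN : 0 ≤ NN d k := by unfold NN; positivity
  have hprp : Prp f := by simpa [prps] using hf
  have hra0 : 0 ≤ ra d q := by unfold ra; positivity
  have hal : ∀ v, 0 < al f v ∧ 1 / al f v ≤ E := fun v =>
    Z1_inv ((Real.exp_le_exp.2 (by linarith : -A0 ε ≤ -ra d q)).trans (al_ge hq hprp v))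
  have hm1 := mfe_lt _ _ hm
  have hals : 0 < als (ra d q) m ∧ 1 / als (ra d q) m ≤ E :=
    Z1_inv ((Real.exp_le_exp.2 (by linarith : -A0 ε ≤ -ra d q)).trans
      (als_bounds (ra d q) m hra0 (by rw [abs_of_pos hm.1]; exact hm1.le)).1)
  obtain ⟨hA, hA1⟩ := hals
  -- one site
  have hone : ∀ v, |q / (av f v : ℝ) - 1 / als (ra d q) m| ≤
      E / c1 ε * |(av f v : ℝ) / q - al f v| +
        (q + E) * (if (av f v : ℝ) < c1 ε * q then (1 : ℝ) else 0) +
        E ^ 2 * |al f v - als (ra d q) m| := by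
    intro v
    obtain ⟨h0, h1⟩ := hal v
    have hav : (1 : ℝ) ≤ av f v := by exact_mod_cast av_pos hprp v
    have hav0 : (0 : ℝ) < av f v := by linarith
    have e0 : |q / (av f v : ℝ) - 1 / als (ra d q) m| ≤
        |q / (av f v : ℝ) - 1 / al f v| + |1 / al f v - 1 / als (ra d q) m| := by
      have := abs_add_le (q / (av f v : ℝ) - 1 / al f v) (1 / al f v - 1 / als (ra d q) m)
      rwa [sub_add_sub_cancel] at this
    have e1 : |1 / al f v - 1 / als (ra d q) m| ≤ E ^ 2 * |al f v - als (ra d q) m| := by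
      have e2 : 1 / al f v - 1 / als (ra d q) m =
          (1 / al f v) * (1 / als (ra d q) m) * (als (ra d q) m - al f v) := by
        field_simp
      rw [e2, abs_mul, abs_sub_comm (als (ra d q) m)]
      refine mul_le_mul_of_nonneg_right ?_ (abs_nonneg _)
      rw [abs_of_nonneg (by positivity), sq]
      exact mul_le_mul h1 hA1 (by positivity) hE.le
    have e3 : |q / (av f v : ℝ) - 1 / al f v| ≤ E / c1 ε * |(av f v : ℝ) / q - al f v| +
        (q + E) * (if (av f v : ℝ) < c1 ε * q then (1 : ℝ) else 0) := by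
      split_ifs with hr
      · have f1 : |q / (av f v : ℝ)| ≤ q := by
          rw [abs_of_nonneg (by positivity), div_le_iff₀ hav0]
          calc (q : ℝ) = q * 1 := (mul_one _).symm
            _ ≤ q * av f v := mul_le_mul_of_nonneg_left hav hqr.le
        have f2 : |1 / al f v| ≤ E := by
          rw [abs_of_nonneg (by positivity)]
          exact h1
        have f3 := abs_sub (q / (av f v : ℝ)) (1 / al f v)
        have f4 : 0 ≤ E / c1 ε * |(av f v : ℝ) / q - al f v| := by positivity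
        linarith
      · have hr' : c1 ε * q ≤ av f v := not_lt.1 hr
        have f1 : q / (av f v : ℝ) - 1 / al f v =
            (q / av f v) * (1 / al f v) * (al f v - av f v / q) := by
          field_simp
        rw [f1, abs_mul, mul_zero, add_zero, abs_sub_comm (al f v)]
        refine mul_le_mul_of_nonneg_right ?_ (abs_nonneg _)
        rw [abs_of_nonneg (by positivity)]
        have f2 : (q : ℝ) / av f v ≤ 1 / c1 ε := by
          rw [div_le_div_iff₀ hav0 hc1]
          linarith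
        calc (q / av f v : ℝ) * (1 / al f v) ≤ (1 / c1 ε) * E :=
              mul_le_mul f2 h1 (by positivity) (by positivity)
          _ = E / c1 ε := by ring
    linarith
  have hav2 : ∑ v, |(av f v : ℝ) / q - al f v| ≤ s * NN d k :=
    Z1_avl f s hs (hG.avl.trans (mul_le_mul_of_nonneg_right (min_le_left _ _) hN))
  have hal3 : ∑ v : Site d k, |al f v - als (ra d q) m| ≤ δ / (3 * E ^ 2) * NN d k :=
    hal2.trans (mul_le_mul_of_nonneg_right (min_le_right _ _) hN)
  have hirr : ∑ v : Site d k, (if (av f v : ℝ) < c1 ε * q then (1 : ℝ) else 0) ≤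
      NN d k / (d : ℝ) ^ 4 := by
    refine le_trans (le_of_eq ?_) hG.irr4
    unfold irr
    rw [sum_boole]
  calc ∑ v : Site d k, |q / (av f v : ℝ) - 1 / als (ra d q) m|
      ≤ ∑ v : Site d k, (E / c1 ε * |(av f v : ℝ) / q - al f v| +
        (q + E) * (if (av f v : ℝ) < c1 ε * q then (1 : ℝ) else 0) +
        E ^ 2 * |al f v - als (ra d q) m|) := sum_le_sum fun v _ => hone v
    _ = E / c1 ε * ∑ v : Site d k, |(av f v : ℝ) / q - al f v| +
        (q + E) * ∑ v : Site d k, (if (av f v : ℝ) < c1 ε * q then (1 : ℝ) else 0) +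
        E ^ 2 * ∑ v : Site d k, |al f v - als (ra d q) m| := by
        rw [sum_add_distrib, sum_add_distrib, mul_sum, mul_sum, mul_sum]
    _ ≤ E / c1 ε * (s * NN d k) + (q + E) * (NN d k / (d : ℝ) ^ 4) +
        E ^ 2 * (δ / (3 * E ^ 2) * NN d k) :=
        add_le_add (add_le_add (mul_le_mul_of_nonneg_left hav2 (by positivity))
          (mul_le_mul_of_nonneg_left hirr (by positivity)))
          (mul_le_mul_of_nonneg_left hal3 (by positivity))
    _ ≤ δ / 3 * NN d k + δ / 3 * NN d k + δ / 3 * NN d k := by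
        refine add_le_add (add_le_add (le_of_eq ?_) ?_) (le_of_eq ?_)
        · rw [hsdef]
          field_simp
        · have e1 : (q : ℝ) + E ≤ (2 + E) * d := by nlinarith
          calc (q + E) * (NN d k / (d : ℝ) ^ 4) ≤ (2 + E) * d * (NN d k / (d : ℝ) ^ 4) :=
                mul_le_mul_of_nonneg_right e1 (by positivity)
            _ ≤ (2 + E) / d * NN d k := Z1_pow hd (by positivity) hN
            _ ≤ δ / 3 * NN d k := by
                refine mul_le_mul_of_nonneg_right ?_ hN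
                rw [div_le_div_iff₀ (by linarith) (by norm_num)]
                rw [div_le_iff₀ hδ] at hdE
                linarith
        · field_simp
    _ = δ * NN d k := by ring

theorem av_mean {ε : ℝ} (hε : 0 < ε) (hε1 : ε ≤ 1) (δ : ℝ) (hδ : 0 < δ) : EvT ε fun d k q => ∀ m : ℝ, MFE (ra d q) m →
    ∀ x : Site d k, ∑ f ∈ prps d k q, |q / (av f x : ℝ) - 1 / als (ra d q) m| ≤ δ * ZZ d k q := by
  obtain ⟨t, C₆, _, _, _, h⟩ := pin_wop hε hε1
  obtain ⟨δ', hδ', hdet⟩ := Z1_av_det hε hε1 C₆ t (δ / 2) (by positivity)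
  have hw : WOPi ε (fun d _ q => {m : ℝ // MFE (ra d q) m}) fun d k q i f =>
      ∑ v : Site d k, |q / (av f v : ℝ) - 1 / als (ra d q) i.1| ≤ δ / 2 * NN d k := by
    refine ((h δ' hδ').toi (fun d _ q => {m : ℝ // MFE (ra d q) m})).mono ?_
    refine (hdet.and (EvT_reg hε hε1 1)).mono ?_
    rintro d k q ⟨h1, _, _, _, _, _, ha1, _, _⟩ ⟨m, hm⟩ f hf hP
    have ha : 1 < ra d q := lt_of_lt_of_le (Z1_a1 hε hε1) ha1
    obtain ⟨yM, hy⟩ := ym_exists _ m ha hm
    exact h1 f hf hP.1 m hm (hP.2 m yM hm hy).al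
  have htm := transl_mean (ε := ε) (fun d _ q => {m : ℝ // MFE (ra d q) m})
    (fun d k q i f v => |q / (av f v : ℝ) - 1 / als (ra d q) i.1|)
    (fun _ q => q + Real.exp (A0 ε)) (δ / 2) (by positivity) ?_ ?_ hw
  · refine htm.mono fun d k q h1 m hm x => ?_
    have h2 := h1 ⟨m, hm⟩ x
    have e : 2 * (δ / 2) * ZZ d k q = δ * ZZ d k q := by ring
    rw [e] at h2
    exact h2
  · refine (EvT_reg hε hε1 1).mono ?_
    rintro d k q ⟨_, hq1, _, _, _, _, hraA, _⟩ ⟨m, hm⟩ f hf v
    refine ⟨abs_nonneg _, ?_⟩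
    have hprp : Prp f := by simpa [prps] using hf
    have hav : (1 : ℝ) ≤ av f v := by exact_mod_cast av_pos hprp v
    have hav0 : (0 : ℝ) < av f v := by linarith
    have hra0 : 0 ≤ ra d q := by unfold ra; positivity
    have hm1 := mfe_lt _ _ hm
    obtain ⟨hA, hA1⟩ : 0 < als (ra d q) m ∧ 1 / als (ra d q) m ≤ Real.exp (A0 ε) :=
      Z1_inv ((Real.exp_le_exp.2 (by linarith : -A0 ε ≤ -ra d q)).trans
        (als_bounds (ra d q) m hra0 (by rw [abs_of_pos hm.1]; exact hm1.le)).1)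
    have f1 : |q / (av f v : ℝ)| ≤ q := by
      rw [abs_of_nonneg (by positivity), div_le_iff₀ hav0]
      calc (q : ℝ) = q * 1 := (mul_one _).symm
        _ ≤ q * av f v := mul_le_mul_of_nonneg_left hav (Nat.cast_nonneg _)
    have f2 : |1 / als (ra d q) m| ≤ Real.exp (A0 ε) := by
      rw [abs_of_nonneg (by positivity)]
      exact hA1
    have f3 := abs_sub (q / (av f v : ℝ)) (1 / als (ra d q) m)
    show |q / (av f v : ℝ) - 1 / als (ra d q) m| ≤ q + Real.exp (A0 ε)
    linarith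
  · intro d k q i f v w
    rcases Nat.eq_zero_or_pos q with hq | hq
    · subst hq
      exact (f 0).elim0
    · show |q / (av (fun x => f (x + w)) v : ℝ) - 1 / als (ra d q) i.1| =
        |q / (av f (v + w) : ℝ) - 1 / als (ra d q) i.1|
      rw [(loc_transl f v w ⟨0, hq⟩).2.2.2.2.1]

/-- deterministic part of `zt_mean` -/
private theorem Z1_zt_det {ε : ℝ} (hε : 0 < ε) (hε1 : ε ≤ 1) (C₆ : ℝ) (t : ℕ) (δ : ℝ) (hδ : 0 < δ) :
    EvT ε fun d k q => ∀ f ∈ prps d k q, Good ε δ C₆ t f → ∀ m : ℝ, MFE (ra d q) m →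
      ∑ v : Site d k, |al f v - als (ra d q) m| ≤ δ * NN d k →
      ∑ v : Site d k, mc (fun c => |ya c f v - (1 + m * eps c f v)|) ≤ δ * NN d k →
      ∑ v : Site d k, mc (fun c => |zt f v c - als (ra d q) m * (1 + m * eps c f v)|) ≤ 3 * δ * NN d k := by
  refine ((zt_det hε hε1 C₆ t δ hδ).and (EvT_reg hε hε1 1)).mono ?_
  rintro d k q ⟨hz, hd1, hq1, _, _, hq2, _, hraA, _⟩ f hf hG m hm h1 h2
  have hq : 1 ≤ q := by exact_mod_cast hq1
  have hprp : Prp f := by simpa [prps] using hf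
  have hra0 : 0 ≤ ra d q := by unfold ra; positivity
  have hm1 := mfe_lt _ _ hm
  obtain ⟨-, hA1⟩ := als_bounds (ra d q) m hra0 (by rw [abs_of_pos hm.1]; exact hm1.le)
  have hA0 := als_pos (ra d q) m
  have h3 : ∑ v : Site d k, mc (fun c => |zt f v c / al f v - ya c f v|) ≤ δ * NN d k :=
    Z1_mc_sum hq (fun c v => |zt f v c / al f v - ya c f v|) _ fun c => hz f hf hG.irr4 c
  have hone : ∀ v, mc (fun c => |zt f v c - als (ra d q) m * (1 + m * eps c f v)|) ≤
      mc (fun c => |zt f v c / al f v - ya c f v|) + |al f v - als (ra d q) m| +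
        mc (fun c => |ya c f v - (1 + m * eps c f v)|) := by
    intro v
    have hal0 : 0 < al f v := (Real.exp_pos _).trans_le (al_ge hq hprp v)
    have hal1 := al_le hq f v
    have e1 : mc (fun c => |zt f v c / al f v - ya c f v|) + |al f v - als (ra d q) m| +
        mc (fun c => |ya c f v - (1 + m * eps c f v)|) =
        mc (fun c => |zt f v c / al f v - ya c f v| + |al f v - als (ra d q) m| * ya c f v +
          |ya c f v - (1 + m * eps c f v)|) := by
      rw [Z1_mc_add, Z1_mc_add, Z1_mc_mul, ya_mean hq, mul_one]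
    rw [e1]
    refine Z1_mc_mono _ _ fun c => ?_
    have hy := (ya_bound hq hprp c v).1
    have e2 : zt f v c - als (ra d q) m * (1 + m * eps c f v) =
        al f v * (zt f v c / al f v - ya c f v) + (al f v - als (ra d q) m) * ya c f v +
          als (ra d q) m * (ya c f v - (1 + m * eps c f v)) := by
      field_simp
      ring
    rw [e2]
    refine (abs_add_le _ _).trans (add_le_add ((abs_add_le _ _).trans (add_le_add ?_ ?_)) ?_)
    · rw [abs_mul, abs_of_pos hal0]
      exact mul_le_of_le_one_left (abs_nonneg _) hal1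
    · rw [abs_mul, abs_of_pos hy]
    · rw [abs_mul, abs_of_pos hA0]
      exact mul_le_of_le_one_left (abs_nonneg _) hA1
  calc ∑ v : Site d k, mc (fun c => |zt f v c - als (ra d q) m * (1 + m * eps c f v)|)
      ≤ ∑ v : Site d k, (mc (fun c => |zt f v c / al f v - ya c f v|) + |al f v - als (ra d q) m| +
        mc (fun c => |ya c f v - (1 + m * eps c f v)|)) := sum_le_sum fun v _ => hone v
    _ = ∑ v : Site d k, mc (fun c => |zt f v c / al f v - ya c f v|) + ∑ v : Site d k, |al f v - als (ra d q) m| +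
        ∑ v : Site d k, mc (fun c => |ya c f v - (1 + m * eps c f v)|) := by
        rw [sum_add_distrib, sum_add_distrib]
    _ ≤ 3 * δ * NN d k := by linarith

theorem zt_mean {ε : ℝ} (hε : 0 < ε) (hε1 : ε ≤ 1) (δ : ℝ) (hδ : 0 < δ) : EvT ε fun d k q => ∀ m : ℝ, MFE (ra d q) m →
    ∀ x : Site d k, ∑ f ∈ prps d k q, mc (fun c => |zt f x c - als (ra d q) m * (1 + m * eps c f x)|) ≤ δ * ZZ d k q := by
  obtain ⟨t, C₆, _, _, _, h⟩ := pin_wop hε hε1
  have hdet := Z1_zt_det hε hε1 C₆ t (δ / 6) (by positivity)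
  have hw : WOPi ε (fun d _ q => {m : ℝ // MFE (ra d q) m}) fun d k q i f =>
      ∑ v : Site d k, mc (fun c => |zt f v c - als (ra d q) i.1 * (1 + i.1 * eps c f v)|) ≤ δ / 2 * NN d k := by
    refine ((h (δ / 6) (by positivity)).toi (fun d _ q => {m : ℝ // MFE (ra d q) m})).mono ?_
    refine (hdet.and (EvT_reg hε hε1 1)).mono ?_
    rintro d k q ⟨h1, _, _, _, _, _, ha1, _, _⟩ ⟨m, hm⟩ f hf hP
    have ha : 1 < ra d q := lt_of_lt_of_le (Z1_a1 hε hε1) ha1
    obtain ⟨yM, hy⟩ := ym_exists _ m ha hm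
    have h2 := h1 f hf hP.1 m hm (hP.2 m yM hm hy).al (hP.2 m yM hm hy).d2
    have e : 3 * (δ / 6) * NN d k = δ / 2 * NN d k := by ring
    rw [e] at h2
    exact h2
  have htm := transl_mean (ε := ε) (fun d _ q => {m : ℝ // MFE (ra d q) m})
    (fun d k q i f v => mc (fun c => |zt f v c - als (ra d q) i.1 * (1 + i.1 * eps c f v)|))
    (fun _ _ => 3) (δ / 2) (by positivity) ?_ ?_ hw
  · refine htm.mono fun d k q h1 m hm x => ?_
    have h2 := h1 ⟨m, hm⟩ x
    have e : 2 * (δ / 2) * ZZ d k q = δ * ZZ d k q := by ring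
    rw [e] at h2
    exact h2
  · refine (EvT_reg hε hε1 1).mono ?_
    rintro d k q ⟨_, hq1, _, _, _, _, hraA, _⟩ ⟨m, hm⟩ f hf v
    have hq : 1 ≤ q := by exact_mod_cast hq1
    have hra0 : 0 ≤ ra d q := by unfold ra; positivity
    have hm1 := mfe_lt _ _ hm
    obtain ⟨-, hA1⟩ := als_bounds (ra d q) m hra0 (by rw [abs_of_pos hm.1]; exact hm1.le)
    have hA0 := als_pos (ra d q) m
    have h1 : ∀ c : Fin q, |zt f v c - als (ra d q) m * (1 + m * eps c f v)| ≤ 3 := by
      intro c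
      have z0 := zt_nonneg f v c
      have z1 := zt_le_one f v c
      have e0 := Z1_eps_abs c f v
      have e1 : |m * eps c f v| ≤ 1 := by
        rw [abs_mul, abs_of_pos hm.1]
        calc m * |eps c f v| ≤ 1 * 1 := mul_le_mul hm1.le e0 (abs_nonneg _) zero_le_one
          _ = 1 := one_mul _
      have e2 : |1 + m * eps c f v| ≤ 2 := by
        refine (abs_add_le _ _).trans ?_
        rw [abs_one]
        linarith
      have e3 : |als (ra d q) m * (1 + m * eps c f v)| ≤ 2 := by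
        rw [abs_mul, abs_of_pos hA0]
        calc als (ra d q) m * |1 + m * eps c f v| ≤ 1 * 2 := mul_le_mul hA1 e2 (abs_nonneg _) zero_le_one
          _ = 2 := one_mul _
      have e4 := abs_sub (zt f v c) (als (ra d q) m * (1 + m * eps c f v))
      rw [abs_of_nonneg z0] at e4
      linarith
    constructor
    · show 0 ≤ mc (fun c => |zt f v c - als (ra d q) m * (1 + m * eps c f v)|)
      unfold mc
      exact div_nonneg (sum_nonneg fun c _ => abs_nonneg _) (Nat.cast_nonneg _)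
    · show mc (fun c => |zt f v c - als (ra d q) m * (1 + m * eps c f v)|) ≤ 3
      refine (Z1_mc_mono _ (fun _ => 3) h1).trans (le_of_eq (Z1_mc_const hq 3))
  · intro d k q i f v w
    show mc (fun c => |zt (fun x => f (x + w)) v c - als (ra d q) i.1 * (1 + i.1 * eps c (fun x => f (x + w)) v)|) =
      mc (fun c => |zt f (v + w) c - als (ra d q) i.1 * (1 + i.1 * eps c f (v + w))|)
    congr 1
    funext c
    rw [(loc_transl f v w c).2.2.2.2.2.2, Z1_eps]

theorem eps_mean {ε : ℝ} (hε : 0 < ε) (hε1 : ε ≤ 1) (δ : ℝ) (hδ : 0 < δ) : EvT ε fun d k q =>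
    ∀ x : Site d k, ∑ f ∈ prps d k q, |mc (fun c => eps c f x)| ≤ δ * ZZ d k q := by
  obtain ⟨t, C₆, _, _, _, h⟩ := pin_wop hε hε1
  have hw : WOPi ε (fun _ _ _ => Unit) fun d k q _ f =>
      ∑ v : Site d k, |mc (fun c => eps c f v)| ≤ δ / 2 * NN d k := by
    refine ((h (δ / 2) (by positivity)).toi (fun _ _ _ => Unit)).mono ?_
    refine (EvT_reg hε hε1 1).mono ?_
    rintro d k q ⟨_, _, _, _, _, ha1, _, _⟩ _ f _ hP
    have ha : 1 < ra d q := lt_of_lt_of_le (Z1_a1 hε hε1) ha1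
    obtain ⟨m, hm⟩ := mfe_exists _ ha
    obtain ⟨yM, hy⟩ := ym_exists _ m ha hm
    exact (hP.2 m yM hm hy).me
  have htm := transl_mean (ε := ε) (fun _ _ _ => Unit)
    (fun d k q _ f v => |mc (fun c : Fin q => eps c f v)|)
    (fun _ _ => 1) (δ / 2) (by positivity) ?_ ?_ hw
  · refine htm.mono fun d k q h1 x => ?_
    have h2 := h1 () x
    have e : 2 * (δ / 2) * ZZ d k q = δ * ZZ d k q := by ring
    rw [e] at h2
    exact h2
  · refine (EvT_reg hε hε1 1).mono ?_
    rintro d k q ⟨_, hq1, _, _, _, _, _, _⟩ _ f hf v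
    have hq : 1 ≤ q := by exact_mod_cast hq1
    refine ⟨abs_nonneg _, ?_⟩
    show |mc (fun c : Fin q => eps c f v)| ≤ 1
    refine (Z1_mc_abs _).trans ?_
    exact (Z1_mc_mono _ (fun _ => 1) fun c => Z1_eps_abs c f v).trans (le_of_eq (Z1_mc_const hq 1))
  · intro d k q _ f v w
    show |mc (fun c : Fin q => eps c (fun x => f (x + w)) v)| = |mc (fun c : Fin q => eps c f (v + w))|
    simp only [Z1_eps]

end Pool.Agent.THR
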