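import Pool.Agent.Lib_MP_2c424f_thr.Z1

/-!
# THR Z2: the two-point function (paper proof: Z2)

`α* = als a m ≥ e^(-a)`, `E` = mean over `prps d k q`.
`x, y` different and not adjacent: `LIN.one_pt`: `q P(f x = f y) = E (q/x_x) z_x (f y)`, replace `q/x_x` by `1/α*` (`0 ≤ z ≤ 1`, `av_mean`); `LIN.one_pt'`:
  `E z_x (f y) = E mc (z_x z_y) (q/x_y)`, replace `q/x_y` by `1/α*`.
-/

set_option autoImplicit false

open Finset Filter

namespace Pool.Agent.THR

open Pool.Agent.LO Pool.Agent.LIN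

private theorem Z2_zz {d k q : ℕ} (f : Site d k → Fin q) (v : Site d k) (c : Fin q) : 0 ≤ zz f v c ∧ zz f v c ≤ 1 := by
  rcases zz_zero_or_one f v c with h | h <;> rw [h] <;> norm_num

private theorem Z2_mc {d k q : ℕ} (hq : 1 ≤ q) (f : Site d k → Fin q) (x y : Site d k) :
    0 ≤ mc (fun c => zz f x c * zz f y c) ∧ mc (fun c => zz f x c * zz f y c) ≤ 1 := by
  have hq' : (1 : ℝ) ≤ q := by exact_mod_cast hq
  unfold mc
  constructor
  · exact div_nonneg (Finset.sum_nonneg fun c _ => mul_nonneg (Z2_zz f x c).1 (Z2_zz f y c).1) (by linarith)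
  · rw [div_le_one (by linarith)]
    calc ∑ c, zz f x c * zz f y c ≤ ∑ _c : Fin q, (1 : ℝ) :=
          Finset.sum_le_sum fun c _ => mul_le_one₀ (Z2_zz f x c).2 (Z2_zz f y c).1 (Z2_zz f y c).2
      _ = q := by simp

/-- replacing a random factor by a constant -/
private theorem Z2_rep {α : Type*} (s : Finset α) (X w : α → ℝ) (A B : ℝ) (hw : ∀ f ∈ s, 0 ≤ w f ∧ w f ≤ 1)
    (h : ∑ f ∈ s, |X f - A| ≤ B) : |∑ f ∈ s, X f * w f - A * ∑ f ∈ s, w f| ≤ B := by
  have h1 : ∑ f ∈ s, X f * w f - A * ∑ f ∈ s, w f = ∑ f ∈ s, (X f - A) * w f := by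
    rw [Finset.mul_sum, ← Finset.sum_sub_distrib]
    exact Finset.sum_congr rfl fun f _ => by ring
  rw [h1]
  refine ((Finset.abs_sum_le_sum_abs _ _).trans (Finset.sum_le_sum fun f hf => ?_)).trans h
  rw [abs_mul, abs_of_nonneg (hw f hf).1]
  exact mul_le_of_le_one_right (abs_nonneg _) (hw f hf).2

theorem two_red {ε : ℝ} (hε : 0 < ε) (hε1 : ε ≤ 1) (δ : ℝ) (hδ : 0 < δ) : EvT ε fun d k q => ∀ m : ℝ, MFE (ra d q) m →
    ∀ x y : Site d k, x ≠ y → (∀ σ : Stp d, x + sv σ ≠ y) →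
      |q * (((prps d k q).filter fun f => f x = f y).card : ℝ) -
        (∑ f ∈ prps d k q, mc (fun c => zz f x c * zz f y c)) / als (ra d q) m ^ 2| ≤ δ * ZZ d k q := by
  have hE : 0 < Real.exp (A0 ε) := Real.exp_pos _
  have hδ' : 0 < δ / (1 + Real.exp (A0 ε)) := by positivity
  refine ((EvT_reg hε hε1 2).and (av_mean hε hε1 _ hδ')).mono ?_
  rintro d k q ⟨⟨_, hq2, hk2, _, _, _, ha, _⟩, hav⟩ m hm x y hxy hn
  have hk : 2 ≤ k := by exact_mod_cast hk2
  have hq1 : 1 ≤ q := by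
    have : (1 : ℝ) ≤ q := by linarith
    exact_mod_cast this
  have hq0 : (0 : ℝ) < q := by linarith
  have hZ : 0 ≤ ZZ d k q := by
    unfold ZZ
    exact Nat.cast_nonneg _
  have hal : Real.exp (-ra d q) ≤ als (ra d q) m := by
    unfold als
    exact le_mul_of_one_le_right (Real.exp_pos _).le (Real.one_le_cosh _)
  have hal0 : 0 < als (ra d q) m := lt_of_lt_of_le (Real.exp_pos _) hal
  have hA : 1 / als (ra d q) m ≤ Real.exp (A0 ε) := by
    rw [div_le_iff₀ hal0]
    have h1 : 1 = Real.exp (ra d q) * Real.exp (-ra d q) := by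
      rw [← Real.exp_add]
      simp
    calc (1 : ℝ) = Real.exp (ra d q) * Real.exp (-ra d q) := h1
      _ ≤ Real.exp (A0 ε) * als (ra d q) m :=
        mul_le_mul (Real.exp_le_exp.2 ha) hal (Real.exp_pos _).le hE.le
  have hA0 : 0 ≤ 1 / als (ra d q) m := by positivity
  set A := 1 / als (ra d q) m with hAdef
  -- first step
  have e1 : (q : ℝ) * (((prps d k q).filter fun f => f x = f y).card : ℝ) =
      ∑ f ∈ prps d k q, (q / (av f x : ℝ)) * zz f x (f y) := by
    have h0 := one_pt (q := q) hk x y hxy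
    have h1 : (((prps d k q).filter fun f => f x = f y).card : ℝ) =
        ∑ f ∈ prps d k q, zz f x (f y) / (av f x : ℝ) := by
      rw [← h0]
    rw [h1, Finset.mul_sum]
    exact Finset.sum_congr rfl fun f _ => by ring
  have e2 := Z2_rep (prps d k q) (fun f => q / (av f x : ℝ)) (fun f => zz f x (f y)) A _
    (fun f _ => Z2_zz f x (f y)) (hav m hm x)
  -- second step
  have e3 : ∑ f ∈ prps d k q, zz f x (f y) =
      ∑ f ∈ prps d k q, (q / (av f y : ℝ)) * mc (fun c => zz f x c * zz f y c) := by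
    rw [one_pt' hk x y hxy hn]
    refine Finset.sum_congr rfl fun f _ => ?_
    unfold mc
    field_simp
  have e4 := Z2_rep (prps d k q) (fun f => q / (av f y : ℝ)) (fun f => mc (fun c => zz f x c * zz f y c)) A _
    (fun f _ => Z2_mc hq1 f x y) (hav m hm y)
  rw [← e1] at e2
  rw [← e3] at e4
  set S := ∑ f ∈ prps d k q, mc (fun c => zz f x c * zz f y c) with hS
  set T := ∑ f ∈ prps d k q, zz f x (f y) with hT
  set P := (q : ℝ) * (((prps d k q).filter fun f => f x = f y).card : ℝ) with hP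
  have e5 : S / als (ra d q) m ^ 2 = A * (A * S) := by
    rw [hAdef]
    field_simp
  rw [e5]
  have e6 : P - A * (A * S) = (P - A * T) + A * (T - A * S) := by ring
  rw [e6]
  calc |P - A * T + A * (T - A * S)| ≤ |P - A * T| + |A * (T - A * S)| := abs_add_le _ _
    _ = |P - A * T| + A * |T - A * S| := by rw [abs_mul, abs_of_nonneg hA0]
    _ ≤ δ / (1 + Real.exp (A0 ε)) * ZZ d k q + Real.exp (A0 ε) * (δ / (1 + Real.exp (A0 ε)) * ZZ d k q) :=
      add_le_add e2 (mul_le_mul hA e4 (abs_nonneg _) hE.le)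
    _ = δ * ZZ d k q := by
      field_simp

end Pool.Agent.THR
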