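import Pool.Agent.Lib_MP_2c424f_thr.Z1
import Pool.Agent.Lib_MP_2c424f_thr.B7

/-!
# THR Z3a: the correlation of the availabilities, same parity (paper proof: Z3)

`E` = mean over `prps`, `b` = class of `x`.  For `v` in the class `b`: `zz f v`, `av f v` depend on the colours of the class `!b`; `zt f v`, `ya c f v`, `eps c f v` depend on the colours of
the class `b` (through `zz, av` of the neighbours): they are constant on the fibres of the class `!b` (`loc_fib`).  `LIN.fib_sum`: `∑_f G = ∑_f fm (!b) G f`.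
`x ≠ y` in the class `b`: resample `!b`: `|E mc (z_x z_y) - E mc (zt_x zt_y)| ≤ 2/q` (`cov_zz`, `cmn_card` (side `≥ 8`), `∑_c zz/av = 1`).  Replace `zt` by `α* (1 + m eps)` (`zt_mean`; `0 ≤ zt ≤ 1`,
`|α* (1 + m eps)| ≤ 2`): `E mc (zt_x zt_y) ≈ α*² E mc ((1 + m eps_x)(1 + m eps_y)) = α*² (1 + m E mc eps_x + m E mc eps_y + m² E mc (eps_x eps_y))`, `eps_mean`,
`eps_x eps_y = 1 - 2·1[eps_x ≠ eps_y]`, `lab_same` (mean over the colours).
-/

set_option autoImplicit false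

open Finset Filter

namespace Pool.Agent.THR

open Pool.Agent.LO Pool.Agent.LIN

section Z3aaux
variable {d k q : ℕ}

private theorem Z3a_prp {f : Site d k → Fin q} (hf : f ∈ prps d k q) : Prp f := by
  classical
  exact (mem_filter.1 hf).2

private theorem Z3a_cls (x : Site d k) : ∃ b : Bool, ∀ y : Site d k, (evn x ↔ evn y) → y ∈ cls b d k := by
  classical
  by_cases hx : evn x
  · refine ⟨true, fun y hy => ?_⟩
    simp only [cls, evs, if_true, mem_filter, mem_univ, true_and]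
    exact hy.1 hx
  · refine ⟨false, fun y hy => ?_⟩
    simp only [cls, ods, Bool.false_eq_true, if_false, mem_filter, mem_univ, true_and]
    exact fun h => hx (hy.2 h)

private theorem Z3a_mc_mono {φ ψ : Fin q → ℝ} (h : ∀ c, φ c ≤ ψ c) : mc φ ≤ mc ψ := by
  unfold mc
  exact div_le_div_of_nonneg_right (sum_le_sum fun c _ => h c) (Nat.cast_nonneg q)

private theorem Z3a_mc_abs (φ : Fin q → ℝ) : |mc φ| ≤ mc fun c => |φ c| := by
  unfold mc
  rw [abs_div, abs_of_nonneg (Nat.cast_nonneg q : (0 : ℝ) ≤ q)]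
  exact div_le_div_of_nonneg_right (abs_sum_le_sum_abs _ _) (Nat.cast_nonneg q)

private theorem Z3a_mc_add (φ ψ : Fin q → ℝ) : mc (fun c => φ c + ψ c) = mc φ + mc ψ := by
  unfold mc
  rw [sum_add_distrib, add_div]

private theorem Z3a_mc_sub (φ ψ : Fin q → ℝ) : mc (fun c => φ c - ψ c) = mc φ - mc ψ := by
  unfold mc
  rw [sum_sub_distrib, sub_div]

private theorem Z3a_mc_mul (a : ℝ) (φ : Fin q → ℝ) : mc (fun c => a * φ c) = a * mc φ := by
  unfold mc
  rw [← mul_sum]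
  ring

private theorem Z3a_mc_const (hq : 1 ≤ q) (a : ℝ) : mc (fun _ : Fin q => a) = a := by
  unfold mc
  have hq0 : (q : ℝ) ≠ 0 := by
    rw [Nat.cast_ne_zero]
    omega
  rw [sum_const, card_univ, Fintype.card_fin, nsmul_eq_mul]
  field_simp

/-- resampling -/
private theorem Z3a_res (hk : 3 ≤ k) (hq : 1 ≤ q) (b : Bool) {f : Site d k → Fin q} (hf : Prp f) (x y : Site d k)
    (hx : x ∈ cls b d k) (hy : y ∈ cls b d k) (hxy : x ≠ y) :
    |fm (!b) (fun h => mc fun c => zz h x c * zz h y c) f - mc (fun c => zt f x c * zt f y c)| ≤ 2 / q := by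
  have hq0 : (0 : ℝ) < q := by exact_mod_cast hq
  have h1 : fm (!b) (fun h => mc fun c => zz h x c * zz h y c) f =
      mc fun c => fm (!b) (fun h => zz h x c * zz h y c) f := by
    unfold mc
    rw [← fm_sum]
    have h2 := fm_mul (!b) f (1 / (q : ℝ)) (fun h => ∑ c, zz h x c * zz h y c)
    have h3 : (fun h : Site d k → Fin q => (∑ c, zz h x c * zz h y c) / (q : ℝ)) =
        fun h => 1 / (q : ℝ) * ∑ c, zz h x c * zz h y c := by
      funext h
      ring
    rw [h3, h2]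
    ring
  have h2 : ∑ c, ∑ u ∈ cmn x y, zz f u c / (av f u : ℝ) = ((cmn x y).card : ℝ) := by
    rw [sum_comm, sum_congr rfl fun u _ => sum_zz_av hf u]
    simp
  have h3 : ((cmn x y).card : ℝ) ≤ 2 := by exact_mod_cast cmn_card hk x y hxy
  rw [h1, ← Z3a_mc_sub]
  refine (Z3a_mc_abs _).trans ?_
  have h4 : mc (fun c => |fm (!b) (fun h => zz h x c * zz h y c) f - zt f x c * zt f y c|) ≤
      mc fun c => ∑ u ∈ cmn x y, zz f u c / (av f u : ℝ) := by
    refine Z3a_mc_mono fun c => ?_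
    obtain ⟨h5, h6⟩ := cov_zz (by omega) b hf x y hx hy c
    rw [abs_of_nonneg (by linarith)]
    linarith
  refine h4.trans ?_
  unfold mc
  rw [h2]
  exact div_le_div_of_nonneg_right h3 hq0.le

private theorem Z3a_eps (c : Fin q) (f : Site d k → Fin q) (v : Site d k) : eps c f v = 1 ∨ eps c f v = -1 := by
  unfold eps
  split_ifs
  · exact Or.inl rfl
  · exact Or.inr rfl

private theorem Z3a_eps_abs (c : Fin q) (f : Site d k → Fin q) (v : Site d k) : |eps c f v| ≤ 1 := by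
  rcases Z3a_eps c f v with h | h <;> rw [h] <;> norm_num

/-- replacement of `zt` -/
private theorem Z3a_rep (f : Site d k → Fin q) (x y : Site d k) (α m : ℝ) (hα : 0 ≤ α) (hα1 : α ≤ 1) (hm : 0 ≤ m)
    (hm1 : m ≤ 1) :
    |mc (fun c => zt f x c * zt f y c) - mc (fun c => (α * (1 + m * eps c f x)) * (α * (1 + m * eps c f y)))| ≤
      mc (fun c => |zt f x c - α * (1 + m * eps c f x)|) + 2 * mc (fun c => |zt f y c - α * (1 + m * eps c f y)|) := by
  rw [← Z3a_mc_sub, ← Z3a_mc_mul, ← Z3a_mc_add]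
  refine (Z3a_mc_abs _).trans (Z3a_mc_mono fun c => ?_)
  have h1 := zt_nonneg f y c
  have h2 := zt_le_one f y c
  have h3 : |α * (1 + m * eps c f x)| ≤ 2 := by
    rw [abs_mul, abs_of_nonneg hα]
    have h4 : |1 + m * eps c f x| ≤ 2 := by
      rcases Z3a_eps c f x with h | h <;> rw [h, abs_le] <;> constructor <;> linarith
    calc α * |1 + m * eps c f x| ≤ 1 * 2 := mul_le_mul hα1 h4 (abs_nonneg _) (by norm_num)
      _ = 2 := by norm_num
  have h4 : zt f x c * zt f y c - (α * (1 + m * eps c f x)) * (α * (1 + m * eps c f y)) =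
      (zt f x c - α * (1 + m * eps c f x)) * zt f y c +
        (α * (1 + m * eps c f x)) * (zt f y c - α * (1 + m * eps c f y)) := by ring
  rw [h4]
  refine (abs_add_le _ _).trans ?_
  rw [abs_mul, abs_mul, abs_of_nonneg h1]
  have h5 : |zt f x c - α * (1 + m * eps c f x)| * zt f y c ≤ |zt f x c - α * (1 + m * eps c f x)| * 1 :=
    mul_le_mul_of_nonneg_left h2 (abs_nonneg _)
  have h6 : |α * (1 + m * eps c f x)| * |zt f y c - α * (1 + m * eps c f y)| ≤
      2 * |zt f y c - α * (1 + m * eps c f y)| := mul_le_mul_of_nonneg_right h3 (abs_nonneg _)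
  linarith

/-- the product of the labels -/
private theorem Z3a_lab (hq : 1 ≤ q) (f : Site d k → Fin q) (x y : Site d k) (α m : ℝ) (hα : 0 ≤ α) (hα1 : α ≤ 1)
    (hm : 0 ≤ m) (hm1 : m ≤ 1) :
    |mc (fun c => (α * (1 + m * eps c f x)) * (α * (1 + m * eps c f y))) - α ^ 2 * (1 + m ^ 2)| ≤
      |mc (fun c => eps c f x)| + |mc (fun c => eps c f y)| +
        2 * mc (fun c => if eps c f x = eps c f y then (0 : ℝ) else 1) := by
  have h1 : (fun c => (α * (1 + m * eps c f x)) * (α * (1 + m * eps c f y))) = fun c =>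
      (α ^ 2 * (1 + m ^ 2) + ((α ^ 2 * m) * eps c f x + (α ^ 2 * m) * eps c f y)) -
        (2 * α ^ 2 * m ^ 2) * (if eps c f x = eps c f y then (0 : ℝ) else 1) := by
    funext c
    rcases Z3a_eps c f x with h | h <;> rcases Z3a_eps c f y with h' | h' <;> rw [h, h']
    · rw [if_pos rfl]; ring
    · rw [if_neg (by norm_num)]; ring
    · rw [if_neg (by norm_num)]; ring
    · rw [if_pos rfl]; ring
  rw [h1, Z3a_mc_sub, Z3a_mc_add, Z3a_mc_const hq, Z3a_mc_add, Z3a_mc_mul, Z3a_mc_mul, Z3a_mc_mul]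
  have hD : 0 ≤ mc (fun c => if eps c f x = eps c f y then (0 : ℝ) else 1) := by
    have := Z3a_mc_mono (q := q) (φ := fun _ => (0 : ℝ)) (ψ := fun c => if eps c f x = eps c f y then (0 : ℝ) else 1)
      (fun c => by split_ifs <;> norm_num)
    rwa [Z3a_mc_const hq] at this
  obtain ⟨X, hX⟩ : ∃ X : ℝ, X = mc fun c => eps c f x := ⟨_, rfl⟩
  obtain ⟨Y, hY⟩ : ∃ Y : ℝ, Y = mc fun c => eps c f y := ⟨_, rfl⟩
  obtain ⟨D, hDD⟩ : ∃ D : ℝ, D = mc fun c => if eps c f x = eps c f y then (0 : ℝ) else 1 := ⟨_, rfl⟩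
  rw [← hX, ← hY, ← hDD]
  rw [← hDD] at hD
  have hα2 : α ^ 2 ≤ 1 := pow_le_one₀ hα hα1
  have hm2 : m ^ 2 ≤ 1 := pow_le_one₀ hm hm1
  have e1 : 0 ≤ α ^ 2 * m := by positivity
  have e2 : α ^ 2 * m ≤ 1 := by
    calc α ^ 2 * m ≤ 1 * 1 := mul_le_mul hα2 hm1 hm (by norm_num)
      _ = 1 := by norm_num
  have e3 : 0 ≤ α ^ 2 * m ^ 2 := by positivity
  have e4 : α ^ 2 * m ^ 2 ≤ 1 := by
    calc α ^ 2 * m ^ 2 ≤ 1 * 1 := mul_le_mul hα2 hm2 (by positivity) (by norm_num)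
      _ = 1 := by norm_num
  have h2 : α ^ 2 * (1 + m ^ 2) + (α ^ 2 * m * X + α ^ 2 * m * Y) - 2 * α ^ 2 * m ^ 2 * D - α ^ 2 * (1 + m ^ 2) =
      α ^ 2 * m * X + α ^ 2 * m * Y + -(2 * (α ^ 2 * m ^ 2) * D) := by ring
  rw [h2]
  refine (abs_add_le _ _).trans ?_
  refine add_le_add ((abs_add_le _ _).trans ?_) ?_
  · rw [abs_mul (α ^ 2 * m) X, abs_mul (α ^ 2 * m) Y, abs_of_nonneg e1]
    have h3 := mul_le_mul_of_nonneg_right e2 (abs_nonneg X)
    have h4 := mul_le_mul_of_nonneg_right e2 (abs_nonneg Y)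
    linarith
  · rw [abs_neg, abs_of_nonneg (by positivity)]
    have h3 := mul_le_mul_of_nonneg_right e4 hD
    linarith

end Z3aaux

theorem cor_same {ε : ℝ} (hε : 0 < ε) (hε1 : ε ≤ 1) (δ : ℝ) (hδ : 0 < δ) : EvT ε fun d k q => ∀ m : ℝ, MFE (ra d q) m →
    ∀ x y : Site d (k + 1), x ≠ y → (evn x ↔ evn y) →
      |∑ f ∈ prps d (k + 1) q, mc (fun c => zz f x c * zz f y c) - als (ra d q) m ^ 2 * (1 + m ^ 2) * ZZ d (k + 1) q| ≤
        δ * ZZ d (k + 1) q := by
  have hδ8 : 0 < δ / 8 := by positivity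
  have E1 := (zt_mean hε hε1 (δ / 8) hδ8).shift
  have E2 := (eps_mean hε hε1 (δ / 8) hδ8).shift
  have E3 := lab_same hε hε1 (δ / 8) hδ8
  have E4 := EvT_reg hε hε1 (16 / δ + 3)
  refine ((E1.and E2).and (E3.and E4)).mono fun d k q h m hm x y hxy hpar => ?_
  obtain ⟨⟨h1, h2⟩, h3, h4, h5, h6, -, -, -, h7, -⟩ := h
  have hd16 : 0 < 16 / δ := by positivity
  have hq1 : 1 ≤ q := by
    have : (1 : ℝ) ≤ q := by linarith
    exact_mod_cast this
  have hk2 : 3 ≤ k + 1 := by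
    have : (2 : ℝ) ≤ k := by linarith
    have : 2 ≤ k := by exact_mod_cast this
    omega
  have hq0 : (0 : ℝ) < q := by exact_mod_cast hq1
  have hqδ : 2 / (q : ℝ) ≤ δ / 8 := by
    rw [div_le_iff₀ hq0]
    have h8 : 16 / δ ≤ q := by linarith
    rw [div_le_iff₀ hδ] at h8
    linarith
  have hm0 : 0 ≤ m := hm.1.le
  have hm1 : m ≤ 1 := (mfe_lt _ _ hm).le
  have hra : 0 ≤ ra d q := by unfold ra; positivity
  have hα0 : 0 ≤ als (ra d q) m := (als_pos _ _).le
  have hα1 : als (ra d q) m ≤ 1 := (als_bounds (ra d q) m hra (by rw [abs_of_nonneg hm0]; exact hm1)).2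
  obtain ⟨α, hα⟩ : ∃ α : ℝ, α = als (ra d q) m := ⟨_, rfl⟩
  have g1 := h1 m hm x
  have g1' := h1 m hm y
  have g2 := h2 x
  have g2' := h2 y
  rw [← hα] at hα0 hα1 g1 g1' ⊢
  obtain ⟨b, hb⟩ := Z3a_cls x
  have hx := hb x Iff.rfl
  have hy := hb y hpar
  have g3 : ∑ f ∈ prps d (k + 1) q, mc (fun c => if eps c f x = eps c f y then (0 : ℝ) else 1) ≤
      δ / 8 * ZZ d (k + 1) q := by
    unfold mc
    rw [← sum_div, sum_comm, div_le_iff₀ hq0]
    refine (sum_le_sum fun c _ => h3 c x y hpar).trans (le_of_eq ?_)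
    rw [sum_const, card_univ, Fintype.card_fin, nsmul_eq_mul]
    ring
  rw [fib_sum (by omega) (!b)]
  have hZ : α ^ 2 * (1 + m ^ 2) * ZZ d (k + 1) q = ∑ f ∈ prps d (k + 1) q, α ^ 2 * (1 + m ^ 2) := by
    rw [sum_const, nsmul_eq_mul]
    unfold ZZ
    ring
  rw [hZ, ← sum_sub_distrib]
  refine (abs_sum_le_sum_abs _ _).trans ?_
  have h8 : ∀ f ∈ prps d (k + 1) q,
      |fm (!b) (fun h => mc fun c => zz h x c * zz h y c) f - α ^ 2 * (1 + m ^ 2)| ≤
        2 / (q : ℝ) + (mc (fun c => |zt f x c - α * (1 + m * eps c f x)|) +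
          2 * mc (fun c => |zt f y c - α * (1 + m * eps c f y)|)) +
        (|mc (fun c => eps c f x)| + |mc (fun c => eps c f y)| +
          2 * mc (fun c => if eps c f x = eps c f y then (0 : ℝ) else 1)) := by
    intro f hf
    have r1 := Z3a_res hk2 hq1 b (Z3a_prp hf) x y hx hy hxy
    have r2 := Z3a_rep f x y α m hα0 hα1 hm0 hm1
    have r3 := Z3a_lab hq1 f x y α m hα0 hα1 hm0 hm1
    rw [abs_le] at r1 r2 r3 ⊢
    constructor
    · linarith [r1.1, r2.1, r3.1]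
    · linarith [r1.2, r2.2, r3.2]
  refine (sum_le_sum h8).trans ?_
  rw [sum_add_distrib, sum_add_distrib, sum_add_distrib, sum_add_distrib, sum_add_distrib, ← mul_sum, ← mul_sum,
    sum_const, nsmul_eq_mul]
  have hZ0 : (0 : ℝ) ≤ ZZ d (k + 1) q := Nat.cast_nonneg _
  have h9 : ((prps d (k + 1) q).card : ℝ) * (2 / (q : ℝ)) ≤ δ / 8 * ZZ d (k + 1) q := by
    have h10 : ((prps d (k + 1) q).card : ℝ) = ZZ d (k + 1) q := rfl
    rw [h10]
    calc ZZ d (k + 1) q * (2 / (q : ℝ)) ≤ ZZ d (k + 1) q * (δ / 8) := mul_le_mul_of_nonneg_left hqδ hZ0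
      _ = δ / 8 * ZZ d (k + 1) q := by ring
  linarith

end Pool.Agent.THR
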