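import Pool.Agent.Lib_MP_2c424f_thr.Z1
import Pool.Agent.Lib_MP_2c424f_thr.B7
import Pool.Agent.Lib_MP_2c424f_thr.Z3a

/-!
# THR Z3b: the correlation of the availabilities, different parity (paper proof: Z3)

`E` = mean over `prps`, `b` = class of `x`.  For `v` in the class `b`: `zz f v`, `av f v` depend on the colours of the class `!b`; `zt f v`, `ya c f v`, `eps c f v` depend on the colours of
the class `b` (through `zz, av` of the neighbours): they are constant on the fibres of the class `!b` (`loc_fib`).  `LIN.fib_sum`: `∑_f G = ∑_f fm (!b) G f`.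
`x` in the class `b`, `y` in the class `!b`: resample `!b`: `z_y` is constant, `z_x` has mean `zt_x` (`LIN.fm_zz`): `E mc (z_x z_y) = E mc (zt_x z_y) ≈ α* E mc ((1 + m eps_x) z_y)`
(`zt_mean`, `0 ≤ z_y ≤ 1`) `≈ α* E mc ((1 - m eps_y) z_y)` (`lab_opp`: `eps_x = -eps_y` up to probability `δ`) `= α* E mc ((1 - m eps_y) zt_y)` (resample the class `b`: `eps_y` is constant on the fibres of the
class `b`, `z_y` has mean `zt_y`) `≈ α*² E mc ((1 - m eps_y)(1 + m eps_y)) = α*² (1 - m²)` (`eps_y² = 1`).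
-/

set_option autoImplicit false

open Finset Filter

namespace Pool.Agent.THR

open Pool.Agent.LO Pool.Agent.LIN

section Z3b
variable {d k q : ℕ}

private theorem Z3b_mc_sub (φ ψ : Fin q → ℝ) : mc φ - mc ψ = mc (fun c => φ c - ψ c) := by
  unfold mc
  rw [Finset.sum_sub_distrib, sub_div]

private theorem Z3b_mc_mono (φ ψ : Fin q → ℝ) (h : ∀ c, φ c ≤ ψ c) : mc φ ≤ mc ψ := by
  unfold mc
  exact div_le_div_of_nonneg_right (Finset.sum_le_sum fun c _ => h c) (Nat.cast_nonneg q)

private theorem Z3b_mc_abs (φ : Fin q → ℝ) : |mc φ| ≤ mc (fun c => |φ c|) := by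
  unfold mc
  rw [abs_div, abs_of_nonneg (show (0 : ℝ) ≤ (q : ℝ) from Nat.cast_nonneg q)]
  exact div_le_div_of_nonneg_right (Finset.abs_sum_le_sum_abs _ _) (Nat.cast_nonneg q)

private theorem Z3b_mc_mul (a : ℝ) (φ : Fin q → ℝ) : mc (fun c => a * φ c) = a * mc φ := by
  unfold mc
  rw [← Finset.mul_sum, mul_div_assoc]

private theorem Z3b_mc_const (hq : 1 ≤ q) (a : ℝ) : mc (fun _ : Fin q => a) = a := by
  unfold mc
  have h : (0 : ℝ) < q := by exact_mod_cast hq
  rw [Finset.sum_const, Finset.card_univ, Fintype.card_fin, nsmul_eq_mul]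
  field_simp

/-- comparison of two sums -/
private theorem Z3b_cmp (P : Finset (Site d k → Fin q)) (F G H : (Site d k → Fin q) → Fin q → ℝ) (M E : ℝ)
    (h : ∀ f ∈ P, ∀ c, |F f c - G f c| ≤ M * H f c) (hH : ∑ f ∈ P, mc (H f) ≤ E) (hM : 0 ≤ M) :
    |∑ f ∈ P, mc (F f) - ∑ f ∈ P, mc (G f)| ≤ M * E := by
  rw [← Finset.sum_sub_distrib]
  refine (Finset.abs_sum_le_sum_abs _ _).trans ?_
  calc ∑ f ∈ P, |mc (F f) - mc (G f)| ≤ ∑ f ∈ P, M * mc (H f) := by
        refine Finset.sum_le_sum fun f hf => ?_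
        rw [Z3b_mc_sub]
        refine (Z3b_mc_abs _).trans ?_
        rw [← Z3b_mc_mul]
        exact Z3b_mc_mono _ _ fun c => h f hf c
    _ = M * ∑ f ∈ P, mc (H f) := by rw [Finset.mul_sum]
    _ ≤ M * E := mul_le_mul_of_nonneg_left hH hM

/-- resampling of the class which contains the neighbours of `x` -/
private theorem Z3b_res (hk : 2 ≤ k) (b : Bool) (x : Site d k) (hx : x ∈ cls b d k)
    (Φ : Fin q → (Site d k → Fin q) → ℝ)
    (hΦ : ∀ f ∈ prps d k q, ∀ h ∈ fib (!b) f, ∀ c, Φ c h = Φ c f) :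
    ∑ f ∈ prps d k q, mc (fun c => zz f x c * Φ c f) = ∑ f ∈ prps d k q, mc (fun c => zt f x c * Φ c f) := by
  rw [fib_sum (by omega) (!b) (fun f => mc (fun c => zz f x c * Φ c f))]
  refine Finset.sum_congr rfl fun f hf => ?_
  have hp : Prp f := by
    simpa [prps] using hf
  have h1 : fm (!b) (fun f => mc (fun c => zz f x c * Φ c f)) f =
      fm (!b) (fun h => (1 / (q : ℝ)) * ∑ c, Φ c f * zz h x c) f := by
    refine fm_congr (!b) fun h hh' => ?_
    unfold mc
    rw [div_eq_mul_one_div, mul_comm]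
    congr 1
    refine Finset.sum_congr rfl fun c _ => ?_
    show zz h x c * Φ c h = Φ c f * zz h x c
    rw [hΦ f hf h hh' c, mul_comm]
  rw [h1, fm_mul, fm_sum]
  unfold mc
  rw [div_eq_mul_one_div (∑ c, zt f x c * Φ c f), mul_comm (1 / (q : ℝ))]
  congr 1
  refine Finset.sum_congr rfl fun c _ => ?_
  rw [fm_mul, fm_zz hk b hp x hx c, mul_comm]

private theorem Z3b_zz (f : Site d k → Fin q) (v : Site d k) (c : Fin q) : 0 ≤ zz f v c ∧ zz f v c ≤ 1 := by
  unfold zz
  split_ifs <;> norm_num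

private theorem Z3b_eps (c : Fin q) (f : Site d k → Fin q) (v : Site d k) : eps c f v = 1 ∨ eps c f v = -1 := by
  unfold eps
  split_ifs
  · exact Or.inl rfl
  · exact Or.inr rfl

/-- the main estimate -/
private theorem Z3b_main (hk : 2 ≤ k) (hq : 1 ≤ q) (α m δ : ℝ) (hα : 0 ≤ α) (hα1 : α ≤ 1) (hm : 0 ≤ m) (hm1 : m ≤ 1)
    (hδ : 0 < δ) (b : Bool) (x y : Site d k) (hx : x ∈ cls b d k) (hy : y ∈ cls (!b) d k)
    (h1 : ∀ v : Site d k, ∑ f ∈ prps d k q, mc (fun c => |zt f v c - α * (1 + m * eps c f v)|) ≤ δ / 6 * ZZ d k q)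
    (h2 : ∑ f ∈ prps d k q, mc (fun c => if eps c f x = eps c f y then (1 : ℝ) else 0) ≤ δ / 8 * ZZ d k q) :
    |∑ f ∈ prps d k q, mc (fun c => zz f x c * zz f y c) - α ^ 2 * (1 - m ^ 2) * ZZ d k q| ≤ δ * ZZ d k q := by
  have hZ : 0 ≤ ZZ d k q := by unfold ZZ; positivity
  -- resample the class `!b`
  have e1 := Z3b_res (q := q) hk b x hx (fun c f => zz f y c) (fun f _ h hh' c => by
    show zz h y c = zz f y c
    unfold zz
    rw [fib_SS (by omega) (!b) hh' y hy])
  have e2 := Z3b_cmp (prps d k q) (fun f c => zt f x c * zz f y c)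
    (fun f c => α * (1 + m * eps c f x) * zz f y c)
    (fun f c => |zt f x c - α * (1 + m * eps c f x)|) 1 (δ / 6 * ZZ d k q) (fun f _ c => by
      have hz := Z3b_zz f y c
      have e : zt f x c * zz f y c - α * (1 + m * eps c f x) * zz f y c =
        (zt f x c - α * (1 + m * eps c f x)) * zz f y c := by ring
      rw [e, abs_mul, abs_of_nonneg hz.1, one_mul]
      exact mul_le_of_le_one_right (abs_nonneg _) hz.2) (h1 x) (by norm_num)
  have e3 := Z3b_cmp (prps d k q) (fun f c => α * (1 + m * eps c f x) * zz f y c)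
    (fun f c => zz f y c * (α * (1 - m * eps c f y)))
    (fun f c => if eps c f x = eps c f y then (1 : ℝ) else 0) 2 (δ / 8 * ZZ d k q) (fun f _ c => by
      have hz := Z3b_zz f y c
      have e : α * (1 + m * eps c f x) * zz f y c - zz f y c * (α * (1 - m * eps c f y)) =
        (α * m * zz f y c) * (eps c f x + eps c f y) := by ring
      rw [e]
      have ham : α * m * zz f y c ≤ 1 := by
        have : α * m ≤ 1 := mul_le_one₀ hα1 hm hm1
        exact mul_le_one₀ this hz.1 hz.2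
      have ham0 : 0 ≤ α * m * zz f y c := mul_nonneg (mul_nonneg hα hm) hz.1
      rcases Z3b_eps c f x with hX | hX <;> rcases Z3b_eps c f y with hY | hY <;> rw [hX, hY]
      · rw [if_pos rfl, abs_mul, abs_of_nonneg ham0]
        norm_num
        exact ham
      · rw [if_neg (by norm_num)]
        norm_num
      · rw [if_neg (by norm_num)]
        norm_num
      · rw [if_pos rfl, abs_mul, abs_of_nonneg ham0]
        norm_num
        exact ham) h2 (by norm_num)
  -- resample the class `b`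
  have e4 := Z3b_res (q := q) hk (!b) y hy (fun c f => α * (1 - m * eps c f y)) (fun f _ h hh' c => by
    show α * (1 - m * eps c h y) = α * (1 - m * eps c f y)
    have h3 := (loc_fib hk (!b) hh' y hy c).2.2
    unfold eps
    rw [h3])
  have e5 := Z3b_cmp (prps d k q) (fun f c => zt f y c * (α * (1 - m * eps c f y)))
    (fun _ _ => α ^ 2 * (1 - m ^ 2))
    (fun f c => |zt f y c - α * (1 + m * eps c f y)|) 2 (δ / 6 * ZZ d k q) (fun f _ c => by
      have he2 : eps c f y * eps c f y = 1 := by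
        rcases Z3b_eps c f y with h | h <;> rw [h] <;> norm_num
      have e : zt f y c * (α * (1 - m * eps c f y)) - α ^ 2 * (1 - m ^ 2) =
          (zt f y c - α * (1 + m * eps c f y)) * (α * (1 - m * eps c f y)) := by
        have : α ^ 2 * (1 - m ^ 2) = α * (1 + m * eps c f y) * (α * (1 - m * eps c f y)) := by
          have h4 : α * (1 + m * eps c f y) * (α * (1 - m * eps c f y)) =
            α ^ 2 * (1 - m ^ 2 * (eps c f y * eps c f y)) := by ring
          rw [h4, he2, mul_one]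
        rw [this]
        ring
      rw [e, abs_mul, mul_comm]
      refine mul_le_mul_of_nonneg_right ?_ (abs_nonneg _)
      have h5 : 0 ≤ α * (1 - m * eps c f y) ∧ α * (1 - m * eps c f y) ≤ 2 := by
        rcases Z3b_eps c f y with h | h <;> rw [h] <;> constructor <;> nlinarith
      rw [abs_of_nonneg h5.1]
      exact h5.2) (h1 y) (by norm_num)
  have e6 : ∑ f ∈ prps d k q, mc (fun _ : Fin q => α ^ 2 * (1 - m ^ 2)) = α ^ 2 * (1 - m ^ 2) * ZZ d k q := by
    rw [Z3b_mc_const hq, Finset.sum_const, nsmul_eq_mul]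
    unfold ZZ
    ring
  rw [e6] at e5
  rw [e1]
  rw [← e4] at e5
  rw [abs_le] at e2 e3 e5 ⊢
  obtain ⟨a1, a2⟩ := e2
  obtain ⟨b1, b2⟩ := e3
  obtain ⟨c1, c2⟩ := e5
  have hdz : 0 ≤ δ * ZZ d k q := mul_nonneg hδ.le hZ
  constructor <;> linarith

end Z3b

theorem cor_opp {ε : ℝ} (hε : 0 < ε) (hε1 : ε ≤ 1) (δ : ℝ) (hδ : 0 < δ) : EvT ε fun d k q => ∀ m : ℝ, MFE (ra d q) m →
    ∀ x y : Site d (k + 1), ¬ (evn x ↔ evn y) →
      |∑ f ∈ prps d (k + 1) q, mc (fun c => zz f x c * zz f y c) - als (ra d q) m ^ 2 * (1 - m ^ 2) * ZZ d (k + 1) q| ≤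
        δ * ZZ d (k + 1) q := by
  refine (((zt_mean hε hε1 (δ / 6) (by positivity)).shift.and (lab_opp hε hε1 (δ / 8) (by positivity))).and
    (EvT_reg hε hε1 1)).mono ?_
  rintro d k q ⟨⟨h1, h2⟩, h3, h4, h5, -⟩ m hm x y hxy
  have hq : 1 ≤ q := by exact_mod_cast h4
  have hk : 1 ≤ k := by exact_mod_cast h5
  have ha : 0 ≤ ra d q := by unfold ra; positivity
  have hm0 : 0 < m := hm.1
  have hm1 : m < 1 := mfe_lt _ _ hm
  obtain ⟨hb1, hb2⟩ := als_bounds (ra d q) m ha (by rw [abs_of_pos hm0]; exact hm1.le)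
  have hα : 0 ≤ als (ra d q) m := (Real.exp_pos _).le.trans hb1
  have hcls : ∃ b : Bool, x ∈ cls b d (k + 1) ∧ y ∈ cls (!b) d (k + 1) := by
    by_cases hx : evn x
    · refine ⟨true, ?_, ?_⟩
      · simp only [cls, if_true, evs, mem_filter, mem_univ, true_and]
        exact hx
      · simp only [cls, Bool.not_true, Bool.false_eq_true, if_false, ods, mem_filter, mem_univ, true_and]
        intro hy
        exact hxy ⟨fun _ => hy, fun _ => hx⟩
    · refine ⟨false, ?_, ?_⟩
      · simp only [cls, Bool.false_eq_true, if_false, ods, mem_filter, mem_univ, true_and]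
        exact hx
      · simp only [cls, Bool.not_false, if_true, evs, mem_filter, mem_univ, true_and]
        by_contra hy
        exact hxy ⟨fun h => absurd h hx, fun h => absurd h hy⟩
  obtain ⟨b, hbx, hby⟩ := hcls
  exact Z3b_main (by omega) hq (als (ra d q) m) m δ hα hb2 hm0.le hm1.le hδ b x y hbx hby (h1 m hm) (h2 x y hxy)

end Pool.Agent.THR
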