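import Pool.Agent.Lib_MP_2c424f_thr.Z2
import Pool.Agent.Lib_MP_2c424f_thr.Z3a
import Pool.Agent.Lib_MP_2c424f_thr.Z3b

/-!
# THR Z4: the theorem on tori

* `two_fin`: `m` from `mfe_exists`; `α*² ≥ e^(-2 A0)`; `two_red` (on the torus of side `2^(k+1)`: `EvT.shift`) and `cor_same`, `cor_opp`.  Sites `x ≠ y` of the same parity are not
  adjacent (`LO.evn_add` or `LO.evn_step`).
* `main_tori`: `m₁ = gap`; for `ε > 1` there is no `q` (`d ≥ 1`), otherwise `EvT` unfolded; `2 d m/q = ra d q · m`; `k ≥ 1` is `(k-1)+1`.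
-/

set_option autoImplicit false

open Finset Filter

namespace Pool.Agent.THR

open Pool.Agent.LO Pool.Agent.LIN

private theorem Z4_key (q Z S α s β η N : ℝ) (hZ : 0 < Z) (hβ : 0 < β) (hα : β ≤ α ^ 2) (hη : 0 < η)
    (h1 : |q * N - S / α ^ 2| ≤ η / 2 * Z) (h2 : |S - α ^ 2 * s * Z| ≤ η * β / 2 * Z) :
    |q * (N / Z) - s| ≤ η := by
  have hα0 : 0 < α ^ 2 := lt_of_lt_of_le hβ hα
  have h3 : |S / α ^ 2 - s * Z| ≤ η / 2 * Z := by
    have e : S / α ^ 2 - s * Z = (S - α ^ 2 * s * Z) / α ^ 2 := by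
      rw [sub_div, mul_assoc, mul_div_cancel_left₀ _ hα0.ne']
    rw [e, abs_div, abs_of_pos hα0, div_le_iff₀ hα0]
    refine h2.trans ?_
    have : η / 2 * Z * β ≤ η / 2 * Z * α ^ 2 := mul_le_mul_of_nonneg_left hα (by positivity)
    calc η * β / 2 * Z = η / 2 * Z * β := by ring
      _ ≤ _ := this
  have h4 : |q * N - s * Z| ≤ η * Z := by
    calc |q * N - s * Z| = |(q * N - S / α ^ 2) + (S / α ^ 2 - s * Z)| := by ring_nf
      _ ≤ |q * N - S / α ^ 2| + |S / α ^ 2 - s * Z| := abs_add_le _ _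
      _ ≤ η * Z := by linarith
  have e : q * (N / Z) - s = (q * N - s * Z) / Z := by
    field_simp
  rw [e, abs_div, abs_of_pos hZ, div_le_iff₀ hZ]
  exact h4

theorem two_fin {ε : ℝ} (hε : 0 < ε) (hε1 : ε ≤ 1) (η : ℝ) (hη : 0 < η) : EvT ε fun d k q => ∀ m : ℝ, MFE (ra d q) m →
    ∀ x y : Site d (k + 1), x ≠ y →
      ((evn x ↔ evn y) →
        |q * ((((prps d (k + 1) q).filter fun f => f x = f y).card : ℝ) / ZZ d (k + 1) q) - (1 + m ^ 2)| ≤ η) ∧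
      (¬ (evn x ↔ evn y) → (∀ σ : Stp d, x + sv σ ≠ y) →
        |q * ((((prps d (k + 1) q).filter fun f => f x = f y).card : ℝ) / ZZ d (k + 1) q) - (1 - m ^ 2)| ≤ η) := by
  have hβ : 0 < Real.exp (-(2 * A0 ε)) := Real.exp_pos _
  have h1 := (two_red hε hε1 (η / 2) (by positivity)).shift
  have h2 := cor_same hε hε1 (η * Real.exp (-(2 * A0 ε)) / 2) (by positivity)
  have h3 := cor_opp hε hε1 (η * Real.exp (-(2 * A0 ε)) / 2) (by positivity)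
  have h4 := EvT_reg hε hε1 2
  refine (((h1.and h2).and h3).and h4).mono ?_
  rintro d k q ⟨⟨⟨h1, h2⟩, h3⟩, -, hq, -, -, -, ha1, haA, -⟩ m hm x y hxy
  have hq2 : 2 ≤ q := by exact_mod_cast hq
  have hZ : 0 < ZZ d (k + 1) q := ZZ_pos (by omega) hq2
  have ha0 : 0 ≤ ra d q := by
    unfold ra
    positivity
  have hm0 := hm.1
  have hm1 := mfe_lt _ _ hm
  have hals := (als_bounds (ra d q) m ha0 (abs_le.2 ⟨by linarith, hm1.le⟩)).1
  have hα : Real.exp (-(2 * A0 ε)) ≤ als (ra d q) m ^ 2 := by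
    have e1 : Real.exp (-(2 * A0 ε)) = Real.exp (-A0 ε) ^ 2 := by
      rw [← Real.exp_nat_mul]
      congr 1
      push_cast
      ring
    rw [e1]
    have e2 : Real.exp (-A0 ε) ≤ als (ra d q) m := (Real.exp_le_exp.2 (by linarith)).trans hals
    exact pow_le_pow_left₀ (Real.exp_pos _).le e2 2
  constructor
  · intro hev
    have hna : ∀ σ : Stp d, x + sv σ ≠ y := by
      intro σ he
      have := evn_step (k := k + 1) (by omega) x σ
      rw [he] at this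
      tauto
    exact Z4_key q (ZZ d (k + 1) q) _ _ _ _ η _ hZ hβ hα hη (h1 m hm x y hxy hna) (h2 m hm x y hxy hev)
  · intro hev hna
    exact Z4_key q (ZZ d (k + 1) q) _ _ _ _ η _ hZ hβ hα hη (h1 m hm x y hxy hna) (h3 m hm x y hev)

theorem main_tori (ε : ℝ) (hε : 0 < ε) : ∃ m₁ : ℝ, 0 < m₁ ∧ ∀ η : ℝ, 0 < η → ∃ d₀ : ℕ, ∀ d : ℕ, d₀ ≤ d → ∀ q : ℕ,
    ε * d ≤ q → (q : ℝ) ≤ (2 - ε) * d → ∃ m : ℝ, m₁ ≤ m ∧ m < 1 ∧ m = Real.tanh (2 * d * m / q) ∧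
      ∃ k₀ : ℕ, ∀ k : ℕ, k₀ ≤ k → ∀ x y : Site d k, x ≠ y →
      ((evn x ↔ evn y) →
        |q * ((((prps d k q).filter fun f => f x = f y).card : ℝ) / ZZ d k q) - (1 + m ^ 2)| ≤ η) ∧
      (¬ (evn x ↔ evn y) → (∀ σ : Stp d, x + sv σ ≠ y) →
        |q * ((((prps d k q).filter fun f => f x = f y).card : ℝ) / ZZ d k q) - (1 - m ^ 2)| ≤ η) := by
  rcases lt_or_ge 1 ε with h1 | hε1
  · refine ⟨1, one_pos, fun η _ => ⟨1, fun d hd q hq1 hq2 => ?_⟩⟩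
    exfalso
    have hd' : (1 : ℝ) ≤ d := by exact_mod_cast hd
    nlinarith
  have hb1 : 1 < a1 ε := by
    unfold a1
    rw [lt_div_iff₀ (by linarith)]
    linarith
  obtain ⟨g, hg0, -, hg⟩ := gap (a1 ε) (A0 ε) hb1
  refine ⟨g, hg0, fun η hη => ?_⟩
  obtain ⟨d₀, H⟩ := (two_fin hε hε1 η hη).and (EvT_reg hε hε1 1)
  refine ⟨d₀, fun d hd q hq1 hq2 => ?_⟩
  obtain ⟨k₁, hk₁⟩ := eventually_atTop.1 (H d q hd hq1 hq2)
  obtain ⟨-, -, -, -, -, -, ha1, haA, -⟩ := hk₁ k₁ le_rfl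
  have ha : 1 < ra d q := by linarith
  obtain ⟨m, hm⟩ := mfe_exists (ra d q) ha
  obtain ⟨yM, hyM⟩ := ym_exists (ra d q) m ha hm
  refine ⟨m, (hg (ra d q) m yM ha1 haA hm hyM).1, mfe_lt _ _ hm, ?_, k₁ + 1, ?_⟩
  · have := hm.2
    have e : 2 * (d : ℝ) * m / q = ra d q * m := by
      unfold ra
      ring
    rw [e]
    exact this
  · intro k hk x y hxy
    obtain ⟨k', rfl⟩ : ∃ k', k = k' + 1 := ⟨k - 1, by omega⟩
    exact (hk₁ k' (by omega)).1 m hm x y hxy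

end Pool.Agent.THR
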