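import Pool.Agent.Lib_MP_2c424f_thr.Defs

/-!
# THR Z5a: conditioning on the colours outside of a set (paper proof: Z4)

Partition `prps` into the classes of the colourings which agree off `B`; in the class of `g` the condition `f w = f y` is `f w = g y` (`y ∉ B`).  If the inequality fails for every `g`, sum over
all `g ∈ prps` the inequalities `q · #{f ∈ class g, f w = g y}/#class g < κ`, or sum over the classes: contradiction to the hypothesis.
-/

set_option autoImplicit false

open Finset Filter

namespace Pool.Agent.THR

open Pool.Agent.LO Pool.Agent.LIN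

open scoped Classical in
theorem ball_cond {d k q : ℕ} (B : Finset (Site d k)) (w y : Site d k) (hy : y ∉ B) (κ : ℝ) (hne : (prps d k q).Nonempty)
    (h : κ * ZZ d k q ≤ (((prps d k q).filter fun f => f w = f y).card : ℝ)) :
    ∃ g ∈ prps d k q, κ * (((prps d k q).filter fun f => ∀ x, x ∉ B → f x = g x).card : ℝ) ≤
      (((prps d k q).filter fun f => (∀ x, x ∉ B → f x = g x) ∧ f w = g y).card : ℝ) := by
  by_contra hcon
  push Not at hcon
  set π : (Site d k → Fin q) → (Site d k → Option (Fin q)) := fun f x => if x ∈ B then none else some (f x) with hπ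
  have hπiff : ∀ f g : Site d k → Fin q, π f = π g ↔ ∀ x, x ∉ B → f x = g x := by
    intro f g
    constructor
    · intro h x hx
      have := congrFun h x
      simp only [hπ, if_neg hx, Option.some.injEq] at this
      exact this
    · intro h
      funext x
      by_cases hx : x ∈ B
      · simp [hπ, hx]
      · simp [hπ, hx, h x hx]
  have h1 : ((prps d k q).filter fun f => f w = f y).card =
      ∑ c ∈ (prps d k q).image π, (((prps d k q).filter fun f => f w = f y).filter fun f => π f = c).card := by
    apply Finset.card_eq_sum_card_fiberwise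
    intro f hf
    exact Finset.mem_coe.2 (Finset.mem_image_of_mem _ (Finset.mem_filter.1 (Finset.mem_coe.1 hf)).1)
  have h2 : (prps d k q).card = ∑ c ∈ (prps d k q).image π, ((prps d k q).filter fun f => π f = c).card := by
    apply Finset.card_eq_sum_card_fiberwise
    intro f hf
    exact Finset.mem_coe.2 (Finset.mem_image_of_mem _ (Finset.mem_coe.1 hf))
  have h3 : ∀ c ∈ (prps d k q).image π, ((((prps d k q).filter fun f => f w = f y).filter fun f => π f = c).card : ℝ) <
      κ * (((prps d k q).filter fun f => π f = c).card : ℝ) := by
    intro c hc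
    obtain ⟨g, hg, rfl⟩ := Finset.mem_image.1 hc
    have := hcon g hg
    have e1 : (((prps d k q).filter fun f => f w = f y).filter fun f => π f = π g) =
        (prps d k q).filter fun f => (∀ x, x ∉ B → f x = g x) ∧ f w = g y := by
      ext f
      simp only [Finset.mem_filter, hπiff]
      constructor
      · rintro ⟨⟨a, b⟩, c⟩
        exact ⟨a, c, by rw [b, c y hy]⟩
      · rintro ⟨a, b, c⟩
        exact ⟨⟨a, by rw [c, b y hy]⟩, b⟩
    have e2 : ((prps d k q).filter fun f => π f = π g) =
        (prps d k q).filter fun f => ∀ x, x ∉ B → f x = g x := by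
      ext f
      simp only [Finset.mem_filter, hπiff]
    rw [e1, e2]
    exact this
  have h4 : (((prps d k q).filter fun f => f w = f y).card : ℝ) < κ * ZZ d k q := by
    rw [h1, ZZ, h2, Nat.cast_sum, Nat.cast_sum, Finset.mul_sum]
    exact Finset.sum_lt_sum_of_nonempty (hne.image _) h3
  linarith

end Pool.Agent.THR
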