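import Pool.Agent.Lib_MP_2c424f_thr.Defs
import Pool.Agent.Lib_MP_2c424f_pr.Defs

/-!
# THR Z5b: a box in the torus (paper proof: Z4)

Side `M = 2^k`, box `{0, …, M-2}^d`, `emb x = (x_i mod M)`, injective; `x, y` adjacent in the box iff `emb y = emb x + sv σ` for some `σ` (`0` and `M-1` are adjacent in the torus, but `M - 1` is not in the box).
Ball `B = {emb x : bd w x < r}`, `w` = centre, all coordinates `M/2 - 1`, `4 r + 8 ≤ M`: all the neighbours of the sites of the ball are images of points of the box.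
`box_card`: restriction `f ↦ f ∘ emb` is a bijection from the proper colourings of the torus which agree with `g` off `B` to the proper colourings of the box which agree with `g ∘ emb` at all `x` with
`r ≤ bd w x`; the inverse map extends by `g`.
-/

set_option autoImplicit false

open Finset Filter

namespace Pool.Agent.THR

open Pool.Agent.LO Pool.Agent.LIN

/-- embedding of the box -/
def emb {d : ℕ} (k n : ℕ) (x : QC.Bx d n) : Site d k := fun i => ((x i).val : ZMod (2 ^ k))

open scoped Classical in
/-- image of the open ball -/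
noncomputable def ballT {d : ℕ} (k n : ℕ) (w : QC.Bx d n) (r : ℕ) : Finset (Site d k) :=
  (univ.filter fun x : QC.Bx d n => QC.bd w x < r).image (emb k n)

theorem emb_inj {d k n : ℕ} (hn : n + 2 ≤ 2 ^ k) : Function.Injective (emb (d := d) k n) := by
  intro x y hxy
  funext i
  have h1 : (((x i).val : ℕ) : ZMod (2 ^ k)) = (((y i).val : ℕ) : ZMod (2 ^ k)) := congrFun hxy i
  have h2 := congrArg ZMod.val h1
  have hx := (x i).isLt
  have hy := (y i).isLt
  rw [ZMod.val_cast_of_lt (by omega), ZMod.val_cast_of_lt (by omega)] at h2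
  exact Fin.ext h2

private theorem Z5b_cast {M a b : ℕ} (ha : a < M) (hb : b < M) (h : (a : ZMod M) = (b : ZMod M)) : a = b := by
  have h2 := congrArg ZMod.val h
  rwa [ZMod.val_cast_of_lt ha, ZMod.val_cast_of_lt hb] at h2

private theorem Z5b_bd {d n : ℕ} (x y : QC.Bx d n) (j : Fin d) (h : ∀ i, i ≠ j → x i = y i)
    (hj : ((x j : ℤ) - (y j : ℤ)).natAbs = 1) : QC.bd x y = 1 := by
  unfold QC.bd
  rw [Finset.sum_eq_single j]
  · exact hj
  · intro i _ hij
    rw [h i hij]
    simp
  · intro h; exact absurd (Finset.mem_univ j) h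

private theorem Z5b_bd_inv {d n : ℕ} (x y : QC.Bx d n) (h : QC.bd x y = 1) :
    ∃ j, (∀ i, i ≠ j → x i = y i) ∧ ((x j : ℤ) - (y j : ℤ)).natAbs = 1 := by
  unfold QC.bd at h
  obtain ⟨j, -, hj⟩ : ∃ j ∈ (univ : Finset (Fin d)), ((x j : ℤ) - (y j : ℤ)).natAbs ≠ 0 :=
    Finset.exists_ne_zero_of_sum_ne_zero (by rw [h]; exact one_ne_zero)
  rw [← Finset.add_sum_erase _ _ (Finset.mem_univ j)] at h
  have h2 : ∑ i ∈ univ.erase j, ((x i : ℤ) - (y i : ℤ)).natAbs = 0 := by omega
  refine ⟨j, fun i hij => ?_, by omega⟩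
  have h3 := (Finset.sum_eq_zero_iff.1 h2) i (Finset.mem_erase.2 ⟨hij, Finset.mem_univ _⟩)
  exact Fin.ext (by omega)

theorem emb_adj {d k n : ℕ} (hn : n + 2 ≤ 2 ^ k) (x y : QC.Bx d n) :
    (QC.BG d n).Adj x y ↔ ∃ σ : Stp d, emb k n x + sv σ = emb k n y := by
  constructor
  · intro h
    obtain ⟨j, h1, h2⟩ := Z5b_bd_inv x y h
    rcases Nat.lt_or_ge (x j).val (y j).val with hlt | hge
    · refine ⟨(j, true), ?_⟩
      funext i
      by_cases hij : i = j
      · subst hij
        have h3 : (y i).val = (x i).val + 1 := by omega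
        simp only [emb, sv, Pi.add_apply, Pi.single_eq_same, if_true, h3]
        push_cast
        ring
      · simp only [emb, sv, Pi.add_apply, Pi.single_eq_of_ne hij, h1 i hij, add_zero]
    · refine ⟨(j, false), ?_⟩
      funext i
      by_cases hij : i = j
      · subst hij
        have h3 : (x i).val = (y i).val + 1 := by omega
        simp only [emb, sv, Pi.add_apply, Pi.single_eq_same, h3]
        push_cast
        simp
      · simp only [emb, sv, Pi.add_apply, Pi.single_eq_of_ne hij, h1 i hij, add_zero]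
  · rintro ⟨⟨j, b⟩, h⟩
    have h1 : ∀ i, i ≠ j → x i = y i := by
      intro i hij
      have h2 := congrFun h i
      simp only [emb, sv, Pi.add_apply, Pi.single_eq_of_ne hij, add_zero] at h2
      have hx := (x i).isLt
      have hy := (y i).isLt
      exact Fin.ext (Z5b_cast (by omega) (by omega) h2)
    have h2 := congrFun h j
    simp only [emb, sv, Pi.add_apply, Pi.single_eq_same] at h2
    have hx := (x j).isLt
    have hy := (y j).isLt
    refine Z5b_bd x y j h1 ?_
    cases b with
    | true =>
      have h3 : (((x j).val + 1 : ℕ) : ZMod (2 ^ k)) = (((y j).val : ℕ) : ZMod (2 ^ k)) := by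
        push_cast
        simpa using h2
      have h4 := Z5b_cast (by omega) (by omega) h3
      omega
    | false =>
      have h3 : (((x j).val : ℕ) : ZMod (2 ^ k)) = (((y j).val + 1 : ℕ) : ZMod (2 ^ k)) := by
        push_cast
        rw [← h2]
        simp
      have h4 := Z5b_cast (by omega) (by omega) h3
      omega

/-- a point near the centre has all its neighbours in the box -/
theorem emb_nbr {d k n r : ℕ} (hn : n + 2 = 2 ^ k) (hr : 4 * r + 8 ≤ 2 ^ k) (w : QC.Bx d n) (hw : ∀ i, (w i).val + 1 = 2 ^ (k - 1))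
    (x : QC.Bx d n) (hx : QC.bd w x < r) (σ : Stp d) : ∃ y : QC.Bx d n, emb k n y = emb k n x + sv σ := by
  obtain ⟨j, b⟩ := σ
  have hk : 1 ≤ k := by
    rcases Nat.eq_zero_or_pos k with h | h
    · subst h; simp at hr
    · exact h
  have hpow : 2 ^ k = 2 * 2 ^ (k - 1) := by
    conv_lhs => rw [show k = (k - 1) + 1 by omega]
    rw [pow_succ]; ring
  have h1 : ((w j : ℤ) - (x j : ℤ)).natAbs ≤ QC.bd w x := by
    unfold QC.bd
    exact Finset.single_le_sum (f := fun i => ((w i : ℤ) - (x i : ℤ)).natAbs) (fun i _ => Nat.zero_le _)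
      (Finset.mem_univ j)
  have h2 := hw j
  cases b with
  | true =>
    have h3 : (x j).val + 1 < n + 1 := by omega
    refine ⟨Function.update x j ⟨(x j).val + 1, h3⟩, ?_⟩
    funext i
    by_cases hij : i = j
    · subst hij
      simp only [emb, sv, Pi.add_apply, Pi.single_eq_same, if_true, Function.update_self]
      push_cast
      ring
    · simp only [emb, sv, Pi.add_apply, Pi.single_eq_of_ne hij, Function.update_of_ne hij, add_zero]
  | false =>
    have h3 : (x j).val - 1 < n + 1 := by omega
    have h4 : (x j).val = ((x j).val - 1) + 1 := by omega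
    refine ⟨Function.update x j ⟨(x j).val - 1, h3⟩, ?_⟩
    funext i
    by_cases hij : i = j
    · subst hij
      have h5 : (((x i).val : ℕ) : ZMod (2 ^ k)) = (((x i).val - 1 : ℕ) : ZMod (2 ^ k)) + 1 := by
        conv_lhs => rw [h4]
        push_cast
        ring
      simp only [emb, sv, Pi.add_apply, Pi.single_eq_same, Function.update_self]
      rw [h5]
      simp
    · simp only [emb, sv, Pi.add_apply, Pi.single_eq_of_ne hij, Function.update_of_ne hij, add_zero]

private theorem Z5b_back {d k : ℕ} (x : Site d k) (σ : Stp d) : x + sv σ + sv (σ.1, !σ.2) = x := by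
  obtain ⟨j, b⟩ := σ
  funext i
  by_cases hij : i = j
  · subst hij
    cases b <;> simp [sv]
  · simp [sv, Pi.single_eq_of_ne hij]

open scoped Classical in
theorem box_card {d k n q r : ℕ} (hn : n + 2 = 2 ^ k) (hr : 4 * r + 8 ≤ 2 ^ k) (w : QC.Bx d n)
    (hw : ∀ i, (w i).val + 1 = 2 ^ (k - 1)) (g : Site d k → Fin q) (hg : g ∈ prps d k q) (P : Fin q → Prop) :
    (((prps d k q).filter fun f => (∀ x, x ∉ ballT k n w r → f x = g x) ∧ P (f (emb k n w))).card : ℝ) =
      QC.cnt (fun f : QC.Bx d n → Fin q => QC.Proper (QC.BG d n) f ∧ (∀ x, r ≤ QC.bd w x → f x = g (emb k n x)) ∧ P (f w)) := by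
  have hinj : Function.Injective (emb (d := d) k n) := emb_inj (by omega)
  have hprps : ∀ f : Site d k → Fin q, f ∈ prps d k q ↔ Prp f := by
    intro f
    unfold prps
    rw [mem_filter]
    simp only [mem_univ, true_and]
  have hball : ∀ x : Site d k, x ∈ ballT k n w r ↔ ∃ y, QC.bd w y < r ∧ emb k n y = x := by
    intro x
    unfold ballT
    rw [mem_image]
    simp only [mem_filter, mem_univ, true_and]
  have hgP : Prp g := (hprps g).1 hg
  have e1 : ((prps d k q).filter fun f => (∀ x, x ∉ ballT k n w r → f x = g x) ∧ P (f (emb k n w))).card =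
      QC.cnt (fun f : Site d k → Fin q => Prp f ∧ (∀ x, x ∉ ballT k n w r → f x = g x) ∧ P (f (emb k n w))) := by
    rw [QC.cnt_eq]
    congr 1
    ext f
    simp only [mem_filter, mem_univ, true_and, hprps]
  rw [e1]
  congr 1
  refine QC.cnt_bij (fun f x => f (emb k n x)) ?_ ?_ ?_
  · rintro f ⟨hf, hfg, hP⟩
    refine ⟨?_, ?_, hP⟩
    · intro u v huv
      obtain ⟨σ, hσ⟩ := (emb_adj hn.le u v).1 huv
      have := hf (emb k n u) σ
      rw [hσ] at this
      exact this.symm
    · intro x hx
      refine hfg _ ?_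
      rw [hball]
      rintro ⟨y, hy, hyx⟩
      rw [hinj hyx] at hy
      omega
  · rintro f f' ⟨-, hfg, -⟩ ⟨-, hfg', -⟩ hff
    funext x
    by_cases hx : x ∈ ballT k n w r
    · obtain ⟨y, -, rfl⟩ := (hball x).1 hx
      exact congrFun hff y
    · rw [hfg x hx, hfg' x hx]
  · rintro b ⟨hb, hbg, hP⟩
    have hext : ∀ y, Function.extend (emb k n) b g (emb k n y) = b y := fun y => hinj.extend_apply b g y
    have hoff : ∀ x, x ∉ ballT k n w r → Function.extend (emb k n) b g x = g x := by
      intro x hx
      by_cases hex : ∃ y, emb k n y = x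
      · obtain ⟨y, rfl⟩ := hex
        rw [hext, hbg]
        by_contra hlt
        exact hx ((hball _).2 ⟨y, by omega, rfl⟩)
      · exact Function.extend_apply' b g x hex
    refine ⟨Function.extend (emb k n) b g, ⟨?_, hoff, ?_⟩, ?_⟩
    · intro x σ
      by_cases hx : x ∈ ballT k n w r
      · obtain ⟨y, hy, rfl⟩ := (hball x).1 hx
        obtain ⟨y', hy'⟩ := emb_nbr hn hr w hw y hy σ
        rw [← hy', hext, hext]
        exact (hb y y' ((emb_adj hn.le y y').2 ⟨σ, hy'.symm⟩)).symm
      · by_cases hx' : x + sv σ ∈ ballT k n w r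
        · obtain ⟨y, hy, hyx⟩ := (hball _).1 hx'
          obtain ⟨y', hy'⟩ := emb_nbr hn hr w hw y hy (σ.1, !σ.2)
          have hxy' : emb k n y' = x := by
            rw [hy', hyx, Z5b_back]
          rw [← hyx, ← hxy', hext, hext]
          refine hb y y' ((emb_adj hn.le y y').2 ⟨(σ.1, !σ.2), ?_⟩)
          exact hy'.symm
        · rw [hoff x hx, hoff _ hx']
          exact hgP x σ
    · rw [hext]; exact hP
    · funext y
      exact hext y

end Pool.Agent.THR
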