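import Pool.Agent.Lib_MP_2c424f_thr.Z4
import Pool.Agent.Lib_MP_2c424f_thr.Z5a
import Pool.Agent.Lib_MP_2c424f_thr.Z5b

/-!
# THR Z5: the influence of the boundary does not decay (paper proof: Z4)

`main_tori` with `η`; `k ≥ k₀` with `4 r + 8 ≤ 2^k`, `n = 2^k - 2`, `w` = centre, `y = emb` of the point `w + 2 r e_1` (`2 r + M/2 - 1 ≤ M - 2`), which has the parity of `emb w`, `y ∉ ballT` since its distance from `w` is
`2 r ≥ r` (`emb_inj`); `y ≠ emb w` as `r ≥ 1`.  `ball_cond` with `κ = (1 + m² - η)/q`, `box_card` for `P = True` and `P c = (c = g y)`.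
The prescription `σ = g ∘ emb` is feasible: `g ∘ emb` is proper (`emb_adj`).  `(1 + m² - η)/q - 1/q = (m² - η)/q`, `m ≥ m₁`.
-/

set_option autoImplicit false

open Finset Filter

namespace Pool.Agent.THR

open Pool.Agent.LO Pool.Agent.LIN

/-- the point at the distance `2 r` from the centre -/
private def Z5y (d n k r : ℕ) (hn : n + 2 = 2 ^ k) (hr : 4 * r + 8 ≤ 2 ^ k) (s : ℕ) (hs : s ≤ 2 * r) (i0 : Fin d) : QC.Bx d n :=
  fun i => if i = i0 then ⟨2 ^ (k - 1) - 1 + s, by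
      have hk : k ≠ 0 := by
        rintro rfl
        simp at hr
      obtain ⟨k', rfl⟩ := Nat.exists_eq_succ_of_ne_zero hk
      simp only [Nat.succ_eq_add_one, Nat.add_sub_cancel, pow_succ] at *
      omega⟩ else ⟨2 ^ (k - 1) - 1, by
      have hk : k ≠ 0 := by
        rintro rfl
        simp at hr
      obtain ⟨k', rfl⟩ := Nat.exists_eq_succ_of_ne_zero hk
      simp only [Nat.succ_eq_add_one, Nat.add_sub_cancel, pow_succ] at *
      omega⟩

private theorem Z5_filter {α : Type*} (s : Finset α) (p p' : α → Prop) {_ : DecidablePred p} {_ : DecidablePred p'}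
    (h : ∀ a, p a ↔ p' a) : (s.filter p).card = (s.filter p').card := by
  congr 1
  ext a
  simp only [Finset.mem_filter, h]

theorem main_box (ε : ℝ) (hε : 0 < ε) : ∃ m₁ : ℝ, 0 < m₁ ∧ ∀ η : ℝ, 0 < η → ∃ d₀ : ℕ, ∀ d : ℕ, d₀ ≤ d → ∀ q : ℕ,
    ε * d ≤ q → (q : ℝ) ≤ (2 - ε) * d → ∃ m : ℝ, m₁ ≤ m ∧ m = Real.tanh (2 * d * m / q) ∧
      ∀ r : ℕ, 1 ≤ r → ∃ (n : ℕ) (w : QC.Bx d n) (σ : QC.Bx d n → Fin q) (b : Fin q),
        (∀ i, r ≤ (w i).val ∧ (w i).val + r ≤ n) ∧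
        0 < QC.cnt (fun f : QC.Bx d n → Fin q => QC.Proper (QC.BG d n) f ∧ ∀ x, r ≤ QC.bd w x → f x = σ x) ∧
        (1 + m ^ 2 - η) / q ≤
          (QC.cnt (fun f : QC.Bx d n → Fin q =>
              QC.Proper (QC.BG d n) f ∧ (∀ x, r ≤ QC.bd w x → f x = σ x) ∧ f w = b) : ℝ) /
            QC.cnt (fun f : QC.Bx d n → Fin q => QC.Proper (QC.BG d n) f ∧ ∀ x, r ≤ QC.bd w x → f x = σ x) := by
  obtain ⟨m₁, hm₁, H⟩ := main_tori ε hε
  refine ⟨m₁, hm₁, fun η hη => ?_⟩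
  obtain ⟨d₀, H⟩ := H η hη
  obtain ⟨d₁, hd₁⟩ := exists_nat_ge (2 / ε)
  refine ⟨max d₀ (max d₁ 1), fun d hd q hq1 hq2 => ?_⟩
  have hd0 : d₀ ≤ d := le_trans (le_max_left _ _) hd
  have hdd1 : d₁ ≤ d := le_trans (le_trans (le_max_left _ _) (le_max_right _ _)) hd
  have hd1 : 1 ≤ d := le_trans (le_trans (le_max_right _ _) (le_max_right _ _)) hd
  have hq2' : 2 ≤ q := by
    have h1 : (d₁ : ℝ) ≤ d := by exact_mod_cast hdd1
    have h2 : 2 / ε ≤ (d : ℝ) := hd₁.trans h1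
    rw [div_le_iff₀ hε] at h2
    have h3 : (2 : ℝ) ≤ q := by linarith
    exact_mod_cast h3
  have hq0 : (0 : ℝ) < q := by
    have : 0 < q := by omega
    exact_mod_cast this
  obtain ⟨m, hm1, -, hm3, k₀, H⟩ := H d hd0 q hq1 hq2
  refine ⟨m, hm1, hm3, fun r hr => ?_⟩
  obtain ⟨k, hk0, hkr⟩ : ∃ k, k₀ ≤ k ∧ 4 * r + 8 ≤ 2 ^ k := by
    refine ⟨max k₀ (4 * r + 8), le_max_left _ _, ?_⟩
    have h1 : max k₀ (4 * r + 8) < 2 ^ max k₀ (4 * r + 8) := Nat.lt_two_pow_self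
    have h2 := le_max_right k₀ (4 * r + 8)
    omega
  have hk : 1 ≤ k := by
    rcases Nat.eq_zero_or_pos k with h | h
    · subst h
      simp at hkr
    · exact h
  obtain ⟨n, hn⟩ : ∃ n, n + 2 = 2 ^ k := ⟨2 ^ k - 2, by omega⟩
  have hpow : 2 ^ k = 2 * 2 ^ (k - 1) := by
    obtain ⟨k', rfl⟩ : ∃ k', k = k' + 1 := ⟨k - 1, by omega⟩
    rw [Nat.add_sub_cancel, pow_succ]
    ring
  have hp1 : 1 ≤ 2 ^ (k - 1) := Nat.one_le_two_pow
  set i0 : Fin d := ⟨0, by omega⟩ with hi0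
  set w : QC.Bx d n := Z5y d n k r hn hkr 0 (by omega) i0 with hw
  set y₀ : QC.Bx d n := Z5y d n k r hn hkr (2 * r) le_rfl i0 with hy₀
  have hwv : ∀ i, (w i).val = 2 ^ (k - 1) - 1 := by
    intro i
    rw [hw]
    unfold Z5y
    split_ifs <;> simp
  have hyv : ∀ i, (y₀ i).val = 2 ^ (k - 1) - 1 + if i = i0 then 2 * r else 0 := by
    intro i
    rw [hy₀]
    unfold Z5y
    split_ifs <;> simp
  have hwc : ∀ i, (w i).val + 1 = 2 ^ (k - 1) := by
    intro i
    rw [hwv]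
    omega
  have hbd : QC.bd w y₀ = 2 * r := by
    unfold QC.bd
    have : ∀ i, ((w i : ℤ) - (y₀ i : ℤ)).natAbs = if i = i0 then 2 * r else 0 := by
      intro i
      have h1 := hwv i
      have h2 := hyv i
      split_ifs with h
      · rw [if_pos h] at h2
        omega
      · rw [if_neg h] at h2
        omega
    rw [Finset.sum_congr rfl fun i _ => this i]
    simp
  have hinj := emb_inj (d := d) (k := k) (n := n) (by omega)
  have hyw : emb k n w ≠ emb k n y₀ := by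
    intro h
    have h1 := hinj h
    rw [← h1] at hbd
    simp [QC.bd] at hbd
    omega
  have hyB : emb k n y₀ ∉ ballT k n w r := by
    intro h
    unfold ballT at h
    obtain ⟨x, hx, hxe⟩ := Finset.mem_image.1 h
    have h1 := hinj hxe
    rw [h1] at hx
    have h2 := (Finset.mem_filter.1 hx).2
    rw [hbd] at h2
    omega
  have hev : evn (emb k n w) ↔ evn (emb k n y₀) := by
    unfold evn emb
    have hlt1 : ∀ i, (w i).val < 2 ^ k := fun i => lt_of_lt_of_le (w i).isLt (by omega)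
    have hlt2 : ∀ i, (y₀ i).val < 2 ^ k := fun i => lt_of_lt_of_le (y₀ i).isLt (by omega)
    have e1 : ∑ i, (((w i).val : ℕ) : ZMod (2 ^ k)).val = ∑ i : Fin d, (2 ^ (k - 1) - 1) := by
      refine Finset.sum_congr rfl fun i _ => ?_
      rw [ZMod.val_natCast_of_lt (hlt1 i), hwv]
    have e2 : ∑ i, (((y₀ i).val : ℕ) : ZMod (2 ^ k)).val = (∑ i : Fin d, (2 ^ (k - 1) - 1)) + 2 * r := by
      have : ∀ i, (((y₀ i).val : ℕ) : ZMod (2 ^ k)).val = (2 ^ (k - 1) - 1) + if i = i0 then 2 * r else 0 := by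
        intro i
        rw [ZMod.val_natCast_of_lt (hlt2 i), hyv]
      rw [Finset.sum_congr rfl fun i _ => this i, Finset.sum_add_distrib]
      simp
    rw [e1, e2, Nat.even_add]
    simp
  have hZ : 0 < ZZ d k q := ZZ_pos hk hq2'
  have hmain := (H k hk0 (emb k n w) (emb k n y₀) hyw).1 hev
  have hge : (1 + m ^ 2 - η) / q * ZZ d k q ≤
      (((prps d k q).filter fun f => f (emb k n w) = f (emb k n y₀)).card : ℝ) := by
    have h1 := (abs_le.1 hmain).1
    set Nc : ℝ := (((prps d k q).filter fun f => f (emb k n w) = f (emb k n y₀)).card : ℝ) with hN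
    have h2 : 1 + m ^ 2 - η ≤ q * (Nc / ZZ d k q) := by linarith
    rw [div_mul_eq_mul_div, div_le_iff₀ hq0]
    calc (1 + m ^ 2 - η) * ZZ d k q ≤ q * (Nc / ZZ d k q) * ZZ d k q :=
          mul_le_mul_of_nonneg_right h2 hZ.le
      _ = Nc * q := by
        field_simp
  have hne : (prps d k q).Nonempty := by
    rw [← Finset.card_pos]
    unfold ZZ at hZ
    exact_mod_cast hZ
  obtain ⟨g, hg, hgk⟩ := ball_cond (ballT k n w r) (emb k n w) (emb k n y₀) hyB ((1 + m ^ 2 - η) / q) hne (by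
    convert hge)
  have hb1 := box_card (q := q) hn hkr w hwc g hg (fun _ => True)
  have hb2 := box_card (q := q) hn hkr w hwc g hg (fun c => c = g (emb k n y₀))
  have hc1 : QC.cnt (fun f : QC.Bx d n → Fin q => QC.Proper (QC.BG d n) f ∧ (∀ x, r ≤ QC.bd w x → f x = g (emb k n x)) ∧ True) =
      QC.cnt (fun f : QC.Bx d n → Fin q => QC.Proper (QC.BG d n) f ∧ ∀ x, r ≤ QC.bd w x → f x = g (emb k n x)) :=
    QC.cnt_congr fun f => by tauto
  refine ⟨n, w, fun x => g (emb k n x), g (emb k n y₀), fun i => ⟨by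
    have := hwc i
    omega, by
    have := hwc i
    omega⟩, ?_, ?_⟩
  · rw [← hc1]
    have : (0 : ℝ) < (QC.cnt (fun f : QC.Bx d n → Fin q => QC.Proper (QC.BG d n) f ∧
        (∀ x, r ≤ QC.bd w x → f x = g (emb k n x)) ∧ True) : ℝ) := by
      rw [← hb1]
      have h0 : 0 < ((prps d k q).filter fun f => (∀ x, x ∉ ballT k n w r → f x = g x) ∧ True).card :=
        Finset.card_pos.2 ⟨g, Finset.mem_filter.2 ⟨hg, fun _ _ => rfl, trivial⟩⟩
      have h1 : (0 : ℝ) < (((prps d k q).filter fun f => (∀ x, x ∉ ballT k n w r → f x = g x) ∧ True).card : ℝ) := by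
        exact_mod_cast h0
      convert h1
    exact_mod_cast this
  · have hpos : (0 : ℝ) < (QC.cnt (fun f : QC.Bx d n → Fin q => QC.Proper (QC.BG d n) f ∧
        ∀ x, r ≤ QC.bd w x → f x = g (emb k n x)) : ℝ) := by
      rw [← hc1, ← hb1]
      have h0 : 0 < ((prps d k q).filter fun f => (∀ x, x ∉ ballT k n w r → f x = g x) ∧ True).card :=
        Finset.card_pos.2 ⟨g, Finset.mem_filter.2 ⟨hg, fun _ _ => rfl, trivial⟩⟩
      have h1 : (0 : ℝ) < (((prps d k q).filter fun f => (∀ x, x ∉ ballT k n w r → f x = g x) ∧ True).card : ℝ) := by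
        exact_mod_cast h0
      convert h1
    rw [le_div_iff₀ hpos, ← hc1, ← hb1, ← hb2]
    refine le_trans (le_of_eq ?_) (le_trans hgk (le_of_eq ?_))
    · exact congrArg (fun z : ℕ => (1 + m ^ 2 - η) / q * (z : ℝ)) (Z5_filter _ _ _ fun f => by simp)
    · exact congrArg (fun z : ℕ => (z : ℝ)) (Z5_filter _ _ _ fun f => Iff.rfl)

end Pool.Agent.THR
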