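import Pool.Agent.Lib_MP_2c424f_thr.Z5b
import Pool.Agent.Lib_MP_2c424f_pr.CND
import Pool.Agent.Lib_MP_2c424f_lo.Sym

/-!
# THR Z6: decay of correlations on tori for `q ≥ (2 + ε) d`

`QC.main_cond` (strong spatial mixing in boxes) and `box_card`: given the colours outside of a ball of radius `r` around `x` the colour of `x` is almost uniform.
-/

set_option autoImplicit false

open Finset Filter

namespace Pool.Agent.THR

open Pool.Agent.LO Pool.Agent.LIN

open scoped Classical in
theorem ball_avg {d k q : ℕ} (B : Finset (Site d k)) (w y : Site d k) (hy : y ∉ B) (α β : ℝ)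
    (h : ∀ g ∈ prps d k q, α * (((prps d k q).filter fun f => ∀ x, x ∉ B → f x = g x).card : ℝ) ≤
      (((prps d k q).filter fun f => (∀ x, x ∉ B → f x = g x) ∧ f w = g y).card : ℝ) ∧
      (((prps d k q).filter fun f => (∀ x, x ∉ B → f x = g x) ∧ f w = g y).card : ℝ) ≤
      β * (((prps d k q).filter fun f => ∀ x, x ∉ B → f x = g x).card : ℝ)) :
    α * ZZ d k q ≤ (((prps d k q).filter fun f => f w = f y).card : ℝ) ∧
      (((prps d k q).filter fun f => f w = f y).card : ℝ) ≤ β * ZZ d k q := by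
  set π : (Site d k → Fin q) → (Site d k → Option (Fin q)) := fun f x => if x ∈ B then none else some (f x) with hπ
  have hπiff : ∀ f g : Site d k → Fin q, π f = π g ↔ ∀ x, x ∉ B → f x = g x := by
    intro f g
    constructor
    · intro h x hx
      have := congrFun h x
      simp only [hπ, if_neg hx, Option.some.injEq] at this
      exact this
    · intro h
      funext x
      by_cases hx : x ∈ B
      · simp [hπ, hx]
      · simp [hπ, hx, h x hx]
  have h1 : ((prps d k q).filter fun f => f w = f y).card =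
      ∑ c ∈ (prps d k q).image π, (((prps d k q).filter fun f => f w = f y).filter fun f => π f = c).card := by
    apply Finset.card_eq_sum_card_fiberwise
    intro f hf
    exact Finset.mem_coe.2 (Finset.mem_image_of_mem _ (Finset.mem_filter.1 (Finset.mem_coe.1 hf)).1)
  have h2 : (prps d k q).card = ∑ c ∈ (prps d k q).image π, ((prps d k q).filter fun f => π f = c).card := by
    apply Finset.card_eq_sum_card_fiberwise
    intro f hf
    exact Finset.mem_coe.2 (Finset.mem_image_of_mem _ (Finset.mem_coe.1 hf))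
  have h3 : ∀ c ∈ (prps d k q).image π,
      α * (((prps d k q).filter fun f => π f = c).card : ℝ) ≤
        ((((prps d k q).filter fun f => f w = f y).filter fun f => π f = c).card : ℝ) ∧
      ((((prps d k q).filter fun f => f w = f y).filter fun f => π f = c).card : ℝ) ≤
        β * (((prps d k q).filter fun f => π f = c).card : ℝ) := by
    intro c hc
    obtain ⟨g, hg, rfl⟩ := Finset.mem_image.1 hc
    have := h g hg
    have e1 : (((prps d k q).filter fun f => f w = f y).filter fun f => π f = π g) =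
        (prps d k q).filter fun f => (∀ x, x ∉ B → f x = g x) ∧ f w = g y := by
      ext f
      simp only [Finset.mem_filter, hπiff]
      constructor
      · rintro ⟨⟨a, b⟩, c⟩
        exact ⟨a, c, by rw [b, c y hy]⟩
      · rintro ⟨a, b, c⟩
        exact ⟨⟨a, by rw [c, b y hy]⟩, b⟩
    have e2 : ((prps d k q).filter fun f => π f = π g) =
        (prps d k q).filter fun f => ∀ x, x ∉ B → f x = g x := by
      ext f
      simp only [Finset.mem_filter, hπiff]
    rw [e1, e2]
    exact this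
  rw [h1, ZZ, h2, Nat.cast_sum, Nat.cast_sum, Finset.mul_sum, Finset.mul_sum]
  exact ⟨Finset.sum_le_sum fun c hc => (h3 c hc).1, Finset.sum_le_sum fun c hc => (h3 c hc).2⟩

/-- antipodal vector -/
def anti (d k : ℕ) : Site d k := fun _ => ((2 ^ (k - 1) : ℕ) : ZMod (2 ^ k))

open scoped Classical in
theorem torus_decay {ε : ℝ} (hε : 0 < ε) : ∃ d₀ : ℕ, ∀ d : ℕ, d₀ ≤ d → ∀ q : ℕ, (2 + ε) * d ≤ q →
    ∃ A c : ℝ, 0 < c ∧ ∀ k r : ℕ, 4 * r + 8 ≤ 2 ^ k → ∀ x : Site d k,
      |(((prps d k q).filter fun f => f x = f (x + anti d k)).card : ℝ) / ZZ d k q - 1 / q| ≤ A * Real.exp (-(c * r)) := by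
  obtain ⟨d₀, h0⟩ := QC.main_cond hε
  refine ⟨max d₀ 1, fun d hd q hq => ?_⟩
  have hd0 : d₀ ≤ d := (le_max_left _ _).trans hd
  have hd1 : 1 ≤ d := (le_max_right _ _).trans hd
  obtain ⟨A, c, hc, h1⟩ := h0 d hd0 q hq
  refine ⟨A, c, hc, fun k r hr x => ?_⟩
  have hk : 1 ≤ k := by
    rcases Nat.eq_zero_or_pos k with h | h
    · subst h
      rw [pow_zero] at hr
      omega
    · exact h
  obtain ⟨k', rfl⟩ : ∃ k', k = k' + 1 := ⟨k - 1, by omega⟩
  have hp : 2 ^ (k' + 1) = 2 * 2 ^ k' := by rw [pow_succ]; ring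
  -- the centre
  obtain ⟨n, hn⟩ : ∃ n, n + 2 = 2 ^ (k' + 1) := ⟨2 ^ (k' + 1) - 2, by omega⟩
  have hw0 : 2 ^ k' - 1 < n + 1 := by omega
  obtain ⟨w, hwdef⟩ : ∃ w : QC.Bx d n, w = fun _ => ⟨2 ^ k' - 1, hw0⟩ := ⟨_, rfl⟩
  have hw : ∀ i, (w i).val + 1 = 2 ^ (k' + 1 - 1) := by
    intro i
    rw [hwdef]
    simp only [Nat.add_sub_cancel]
    have : 1 ≤ 2 ^ k' := Nat.one_le_two_pow
    omega
  have htr : (((prps d (k' + 1) q).filter fun f => f x = f (x + anti d (k' + 1))).card : ℝ) =
      (((prps d (k' + 1) q).filter fun f => f (emb (k' + 1) n w) = f (emb (k' + 1) n w + anti d (k' + 1))).card : ℝ) := by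
    have h2 := sum_transl (q := q) (emb (k' + 1) n w - x)
      (fun f : Site d (k' + 1) → Fin q => if f x = f (x + anti d (k' + 1)) then (1 : ℝ) else 0)
    have e1 : ∀ f : Site d (k' + 1) → Fin q,
        f (x + (emb (k' + 1) n w - x)) = f (emb (k' + 1) n w) := fun f => by congr 1; abel
    have e2 : ∀ f : Site d (k' + 1) → Fin q, f (x + anti d (k' + 1) + (emb (k' + 1) n w - x)) =
        f (emb (k' + 1) n w + anti d (k' + 1)) := fun f => by congr 1; abel
    simp only [e1, e2] at h2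
    rw [Finset.card_filter, Finset.card_filter]
    push_cast
    exact h2.symm
  rw [htr]
  have hval : ∀ i : Fin d, (emb (k' + 1) n w + anti d (k' + 1)) i = ((n + 1 : ℕ) : ZMod (2 ^ (k' + 1))) := by
    intro i
    have h3 : (w i).val + 2 ^ k' = n + 1 := by
      have := hw i
      simp only [Nat.add_sub_cancel] at this
      omega
    show (((w i).val : ℕ) : ZMod (2 ^ (k' + 1))) + ((2 ^ (k' + 1 - 1) : ℕ) : ZMod (2 ^ (k' + 1))) = _
    rw [Nat.add_sub_cancel, ← Nat.cast_add, h3]
  have hy : emb (k' + 1) n w + anti d (k' + 1) ∉ ballT (k' + 1) n w r := by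
    intro hmem
    unfold ballT at hmem
    obtain ⟨z, -, hz⟩ := Finset.mem_image.1 hmem
    have h4 := congrFun hz ⟨0, hd1⟩
    rw [hval] at h4
    have h5 := congrArg ZMod.val h4
    have e3 : (emb (k' + 1) n z ⟨0, hd1⟩).val = (z ⟨0, hd1⟩).val := by
      show (((z ⟨0, hd1⟩).val : ℕ) : ZMod (2 ^ (k' + 1))).val = _
      rw [ZMod.val_natCast, Nat.mod_eq_of_lt]
      have := (z ⟨0, hd1⟩).isLt
      omega
    rw [e3, ZMod.val_natCast, Nat.mod_eq_of_lt (by omega)] at h5
    have := (z ⟨0, hd1⟩).isLt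
    omega
  have hne : ∀ g ∈ prps d (k' + 1) q,
      (1 / (q : ℝ) - A * Real.exp (-(c * r))) * (((prps d (k' + 1) q).filter fun f => ∀ x, x ∉ ballT (k' + 1) n w r → f x = g x).card : ℝ) ≤
      (((prps d (k' + 1) q).filter fun f => (∀ x, x ∉ ballT (k' + 1) n w r → f x = g x) ∧ f (emb (k' + 1) n w) = g (emb (k' + 1) n w + anti d (k' + 1))).card : ℝ) ∧
      (((prps d (k' + 1) q).filter fun f => (∀ x, x ∉ ballT (k' + 1) n w r → f x = g x) ∧ f (emb (k' + 1) n w) = g (emb (k' + 1) n w + anti d (k' + 1))).card : ℝ) ≤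
      (1 / (q : ℝ) + A * Real.exp (-(c * r))) * (((prps d (k' + 1) q).filter fun f => ∀ x, x ∉ ballT (k' + 1) n w r → f x = g x).card : ℝ) := by
    intro g hg
    have b1 : (((prps d (k' + 1) q).filter fun f => (∀ x, x ∉ ballT (k' + 1) n w r → f x = g x) ∧ f (emb (k' + 1) n w) = g (emb (k' + 1) n w + anti d (k' + 1))).card : ℝ) =
        QC.cnt (fun f : QC.Bx d n → Fin q => QC.Proper (QC.BG d n) f ∧ (∀ x, r ≤ QC.bd w x → f x = g (emb (k' + 1) n x)) ∧ f w = g (emb (k' + 1) n w + anti d (k' + 1))) := by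
      rw [← box_card hn (by exact hr) w hw g hg (fun c => c = g (emb (k' + 1) n w + anti d (k' + 1)))]
      congr 2
      ext f
      simp only [Finset.mem_filter]
    have b2 := box_card hn (by exact hr) w hw g hg (fun _ => True)
    simp only [and_true] at b2
    have hpos : 0 < (((prps d (k' + 1) q).filter fun f => ∀ x, x ∉ ballT (k' + 1) n w r → f x = g x).card : ℝ) := by
      exact_mod_cast Finset.card_pos.2 ⟨g, Finset.mem_filter.2 ⟨hg, fun x _ => rfl⟩⟩
    have hpos' : 0 < QC.cnt (fun f : QC.Bx d n → Fin q => QC.Proper (QC.BG d n) f ∧ ∀ x ∈ {x | r ≤ QC.bd w x}, f x = g (emb (k' + 1) n x)) := by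
      have : (0 : ℝ) < QC.cnt (fun f : QC.Bx d n → Fin q => QC.Proper (QC.BG d n) f ∧ ∀ x, r ≤ QC.bd w x → f x = g (emb (k' + 1) n x)) := by
        rw [← b2]; exact hpos
      exact_mod_cast this
    have b3 := h1 n {x | r ≤ QC.bd w x} (fun x => g (emb (k' + 1) n x)) w r (fun x hx => hx) hpos' (g (emb (k' + 1) n w + anti d (k' + 1)))
    have b6 : |(((prps d (k' + 1) q).filter fun f => (∀ x, x ∉ ballT (k' + 1) n w r → f x = g x) ∧ f (emb (k' + 1) n w) = g (emb (k' + 1) n w + anti d (k' + 1))).card : ℝ) /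
        (((prps d (k' + 1) q).filter fun f => ∀ x, x ∉ ballT (k' + 1) n w r → f x = g x).card : ℝ) - 1 / q| ≤ A * Real.exp (-(c * r)) := by
      rw [b1, b2]
      exact b3
    rw [abs_le] at b6
    obtain ⟨b4, b5⟩ := b6
    constructor
    · rw [← le_div_iff₀ hpos]; linarith
    · rw [← div_le_iff₀ hpos]; linarith
  obtain ⟨c1, c2⟩ := ball_avg _ _ _ hy _ _ hne
  have hq2 : 2 ≤ q := by
    have h6 : (1 : ℝ) ≤ d := by exact_mod_cast hd1
    have h7 : (2 : ℝ) ≤ q := by nlinarith
    exact_mod_cast h7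
  have hZ : 0 < ZZ d (k' + 1) q := ZZ_pos (by omega) hq2
  rw [abs_le]
  constructor
  · have : 1 / (q : ℝ) - A * Real.exp (-(c * r)) ≤ (((prps d (k' + 1) q).filter fun f => f (emb (k' + 1) n w) = f (emb (k' + 1) n w + anti d (k' + 1))).card : ℝ) / ZZ d (k' + 1) q := by
      rw [le_div_iff₀ hZ]; exact c1
    linarith
  · have : (((prps d (k' + 1) q).filter fun f => f (emb (k' + 1) n w) = f (emb (k' + 1) n w + anti d (k' + 1))).card : ℝ) / ZZ d (k' + 1) q ≤ 1 / (q : ℝ) + A * Real.exp (-(c * r)) := by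
      rw [div_le_iff₀ hZ]; exact c2
    linarith

end Pool.Agent.THR
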